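import Pool.Agent.TPT.StmtsA
import Pool.Agent.Lib_helper74.FS.LOC
import Pool.Agent.Lib_helper74.FS.SMP

/-!
# TPT_LOCC: lower bound of the local sums (MP_f6626d_co)
-/

set_option autoImplicit false

namespace Pool.Agent.TPT

open Finset Filter Topology MeasureTheory
open Pool.Agent.Lib27 Pool.Agent.SapR Pool.Agent.AreaLaw Pool.Agent.FL
open Pool.Agent.FS (sc rs bp dlt tk1 tk2)
open Pool.Agent.NSP (lc ld)

namespace LOCCx

open Pool.Agent.FS Pool.Agent.FS.LOC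

/-- binomial sums as sums over subsets -/
noncomputable def bs (k : ℕ) (w : ℝ) (G : ℕ → ℝ) : ℝ :=
  rs (List.replicate k 0) (fun b _ => w ^ b * G b)

lemma bs_eq (k : ℕ) (w : ℝ) (G : ℕ → ℝ) :
    bs k w G = ∑ b ∈ range (k + 1), (k.choose b : ℝ) * (w ^ b * G b) := by
  unfold bs
  rw [(SMP_thm (List.replicate k 0)).1 (fun b => w ^ b * G b), List.length_replicate]

lemma bs_one (k : ℕ) (w : ℝ) : bs k w (fun _ => 1) = (1 + w) ^ k := by
  unfold bs
  have := rs_pow w (List.replicate k 0)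
  rw [List.length_replicate] at this
  rw [← this]
  exact rs_congr _ _ _ fun j t _ _ => mul_one _

lemma bs_ind {w : ℝ} (hw : 0 < w) (k : ℕ) (m : ℤ) (c : ℝ) :
    bs k w (fun b => if (b : ℤ) = m then c else 0) =
      (1 + w) ^ k * (bp k (w / (1 + w)) m * c) := by
  have := rs_ind SMP_thm hw (List.replicate k 0) m c
  rw [List.length_replicate] at this
  exact this

lemma bs_jensen {w : ℝ} (hw : 0 < w) (k : ℕ) (x y : ℝ) :
    (1 + w) ^ k * (x ^ 2 + (y - 2 * (w / (1 + w) * k)) ^ 2) ≤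
      bs k w (fun b => x ^ 2 + (y - 2 * b) ^ 2) := by
  have h1 := rs_jensen hw (List.replicate k 0) (y / 2)
  rw [List.length_replicate] at h1
  have h2 : bs k w (fun b => x ^ 2 + (y - 2 * b) ^ 2) = x ^ 2 * (1 + w) ^ k +
      4 * rs (List.replicate k 0) (fun j _ => w ^ j * (y / 2 - j) ^ 2) := by
    rw [← bs_one k w]
    unfold bs
    rw [← rs_mul, ← rs_mul, ← rs_add]
    refine rs_congr _ _ _ fun j t _ _ => ?_
    ring
  rw [h2]
  have h3 : (1 + w) ^ k * (x ^ 2 + (y - 2 * (w / (1 + w) * k)) ^ 2) =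
      x ^ 2 * (1 + w) ^ k + 4 * ((1 + w) ^ k * (y / 2 - w / (1 + w) * k) ^ 2) := by ring
  rw [h3]
  linarith

variable {n N : ℕ} {σ : Fin N → Sk2}

/-- the factor of a skeleton -/
noncomputable def pre (n : ℕ) (s g : ℝ) (a : Sk2) : ℝ := s ^ (n - a.H) * Real.exp (g * a.Λ)

lemma key (h : IsSk2 n N σ) (s g : ℝ) (G : ℤ → ℤ → ℝ) :
    ∑ q ∈ Omm n, wm n s g q * G (zl q) (zt q) =
      ∑ i, pre n s g (σ i) * rs (σ i).l (fun j _ => (s * Real.exp (-g)) ^ j *
        bs (σ i).k (Real.exp (-(2 * g))) (fun b => G ((σ i).H - j) ((σ i).Λ - j - 2 * b))) := by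
  have h1 := h.repr (fun z t _ => s ^ (n - z.toNat) * Real.exp (g * t) * G z t)
  have h2 : ∀ q ∈ Omm n, wm n s g q * G (zl q) (zt q) =
      s ^ (n - (zl q : ℤ).toNat) * Real.exp (g * zt q) * G (zl q) (zt q) := fun q _ => by
    rw [Int.toNat_natCast]; rfl
  rw [sum_congr rfl h2, h1]
  refine sum_congr rfl fun i _ => ?_
  rw [← rs_mul]
  refine rs_congr _ _ _ fun j t hj ht => ?_
  have h3 := h.len_le i
  have h4 := h.H_le i
  rw [bs_eq, mul_sum, mul_sum]
  refine sum_congr rfl fun b _ => ?_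
  have e1 : n - ((((σ i).H : ℤ) - (j : ℤ)).toNat) = (n - (σ i).H) + j := by omega
  rw [e1, pow_add, mul_pow]
  have e2 : Real.exp (g * ((((σ i).Λ - (j : ℤ) - 2 * (b : ℤ) : ℤ)) : ℝ)) =
      Real.exp (g * (σ i).Λ) * Real.exp (-g) ^ j * Real.exp (-(2 * g)) ^ b := by
    rw [← Real.exp_nat_mul, ← Real.exp_nat_mul, ← Real.exp_add, ← Real.exp_add]
    congr 1
    push_cast
    ring
  rw [e2]
  unfold pre
  ring

lemma pre_nonneg {s : ℝ} (hs : 0 < s) (n : ℕ) (g : ℝ) (a : Sk2) : 0 ≤ pre n s g a := by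
  unfold pre
  positivity

lemma vs2_eq (n : ℕ) (s g : ℝ) (a : Sk2) :
    vs2 n s g a = pre n s g a * ((1 + s * Real.exp (-g)) ^ a.l.length *
      (1 + Real.exp (-(2 * g))) ^ a.k) := by
  unfold vs2 pre
  ring

lemma vs2_nonneg {s : ℝ} (hs : 0 < s) (n : ℕ) (g : ℝ) (a : Sk2) : 0 ≤ vs2 n s g a := by
  unfold vs2
  positivity

lemma Z_eq (h : IsSk2 n N σ) (s g : ℝ) : Zm n s g = ∑ i, vs2 n s g (σ i) := by
  have h1 := key h s g (fun _ _ => 1)
  simp only [mul_one] at h1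
  unfold Zm
  rw [h1]
  refine sum_congr rfl fun i _ => ?_
  rw [vs2_eq, bs_one]
  congr 1
  have e : rs (σ i).l (fun j _ => (s * Real.exp (-g)) ^ j * (1 + Real.exp (-(2 * g))) ^ (σ i).k) =
      (1 + Real.exp (-(2 * g))) ^ (σ i).k * rs (σ i).l (fun j _ => (s * Real.exp (-g)) ^ j) := by
    rw [← rs_mul]
    refine rs_congr _ _ _ fun j t _ _ => ?_
    ring
  rw [e, rs_pow]
  ring

/-- the parity of the skeletons -/
lemma parity (hH : HGM_Stmt) (h : IsSk2 n N σ) (i : Fin N) :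
    Even (((σ i).H : ℤ) + (σ i).Λ) := by
  classical
  have h1 := key h 1 0 (fun z t => if Even (z + t) then 0 else 1)
  have h2 : ∑ q ∈ Omm n, wm n 1 0 q * (if Even ((zl q : ℤ) + zt q) then (0 : ℝ) else 1) = 0 := by
    refine sum_eq_zero fun q hq => ?_
    rw [if_pos (hH.2.2.2 n q hq).2.2.1, mul_zero]
  rw [h2] at h1
  have h3 : ∀ i, pre n 1 0 (σ i) * rs (σ i).l (fun j _ => (1 * Real.exp (-0)) ^ j *
        bs (σ i).k (Real.exp (-(2 * 0))) (fun b =>
          if Even (((σ i).H - j : ℤ) + ((σ i).Λ - j - 2 * b)) then (0 : ℝ) else 1)) =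
      vs2 n 1 0 (σ i) * (if Even (((σ i).H : ℤ) + (σ i).Λ) then 0 else 1) := by
    intro i
    have e : ∀ j b : ℕ, (if Even (((σ i).H - j : ℤ) + ((σ i).Λ - j - 2 * b)) then (0 : ℝ) else 1) =
        (if Even (((σ i).H : ℤ) + (σ i).Λ) then 0 else 1) * 1 := by
      intro j b
      rw [mul_one]
      refine if_congr ?_ rfl rfl
      constructor
      · rintro ⟨r, hr⟩
        exact ⟨r + j + b, by omega⟩
      · rintro ⟨r, hr⟩
        exact ⟨r - j - b, by omega⟩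
    simp only [e]
    obtain ⟨z, hz⟩ : ∃ z : ℝ, z = (if Even (((σ i).H : ℤ) + (σ i).Λ) then 0 else 1) := ⟨_, rfl⟩
    simp only [← hz]
    have e2 : ∀ (k : ℕ) (w : ℝ), bs k w (fun _ => z * 1) = z * (1 + w) ^ k := by
      intro k w
      rw [← bs_one k w]
      unfold bs
      rw [← rs_mul]
      refine rs_congr _ _ _ fun j t _ _ => ?_
      ring
    rw [vs2_eq]
    have e3 : rs (σ i).l (fun j _ => (1 * Real.exp (-0)) ^ j *
        bs (σ i).k (Real.exp (-(2 * 0))) (fun _ => z * 1)) =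
        z * (1 + Real.exp (-(2 * 0))) ^ (σ i).k * (1 + 1 * Real.exp (-0)) ^ (σ i).l.length := by
      rw [← rs_pow, ← rs_mul]
      refine rs_congr _ _ _ fun j t _ _ => ?_
      rw [e2]
      ring
    rw [e3]
    ring
  simp only [h3] at h1
  have h4 := (sum_eq_zero_iff_of_nonneg fun i _ => mul_nonneg (vs2_nonneg one_pos n 0 (σ i)) (by
    split_ifs <;> norm_num)).1 h1.symm i (mem_univ i)
  by_contra hodd
  rw [if_neg hodd, mul_one] at h4
  have h5 : 0 < vs2 n 1 0 (σ i) := by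
    unfold vs2
    positivity
  exact h5.ne' h4

/-- the local sums -/
lemma UM_eq (h : IsSk2 n N σ) {s : ℝ} (hs : 0 < s) (g : ℝ) (h' : ℕ) (t : ℤ) (b₀ : Fin N → ℤ)
    (hb : ∀ i, 2 * b₀ i = (σ i).Λ - ((σ i).H - h') - t) :
    UM n s g h' t (fun _ => 1) = ∑ i, vs2 n s g (σ i) *
      (bp (σ i).l.length (s * Real.exp (-g) / (1 + s * Real.exp (-g))) ((σ i).H - h') *
        bp (σ i).k (Real.exp (-(2 * g)) / (1 + Real.exp (-(2 * g)))) (b₀ i)) := by
  classical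
  have h1 := key h s g (fun z y => if z = h' ∧ y = t then 1 else 0)
  have h2 : UM n s g h' t (fun _ => 1) = ∑ q ∈ Omm n, wm n s g q *
      (if (zl q : ℤ) = h' ∧ zt q = t then (1 : ℝ) else 0) := by
    unfold UM
    rw [sum_filter]
    refine sum_congr rfl fun q _ => ?_
    by_cases hq : zl q = h' ∧ zt q = t
    · rw [if_pos hq, if_pos ⟨by exact_mod_cast hq.1, hq.2⟩]
    · rw [if_neg hq, if_neg fun hh => hq ⟨by exact_mod_cast hh.1, hh.2⟩, mul_zero]
  rw [h2, h1]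
  refine sum_congr rfl fun i _ => ?_
  have hw1 : 0 < s * Real.exp (-g) := by positivity
  have hw2 : 0 < Real.exp (-(2 * g)) := by positivity
  rw [vs2_eq]
  have e1 : rs (σ i).l (fun j _ => (s * Real.exp (-g)) ^ j * bs (σ i).k (Real.exp (-(2 * g)))
      (fun b => if (((σ i).H : ℤ) - j = h' ∧ (σ i).Λ - j - 2 * b = t) then (1 : ℝ) else 0)) =
      rs (σ i).l (fun j _ => (s * Real.exp (-g)) ^ j * (if (j : ℤ) = ((σ i).H : ℤ) - h' then
        (1 + Real.exp (-(2 * g))) ^ (σ i).k *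
          bp (σ i).k (Real.exp (-(2 * g)) / (1 + Real.exp (-(2 * g)))) (b₀ i) else 0)) := by
    refine rs_congr _ _ _ fun j _ _ _ => ?_
    congr 1
    by_cases hj : (j : ℤ) = ((σ i).H : ℤ) - h'
    · rw [if_pos hj]
      have h3 := bs_ind hw2 (σ i).k (b₀ i) 1
      rw [mul_one] at h3
      rw [← h3]
      congr 1
      funext b
      refine if_congr ?_ rfl rfl
      have := hb i
      constructor
      · rintro ⟨_, h5⟩
        omega
      · intro h5
        omega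
    · rw [if_neg hj]
      have h3 : (fun b : ℕ => if (((σ i).H : ℤ) - j = h' ∧ (σ i).Λ - j - 2 * b = t) then (1 : ℝ)
          else 0) = fun b : ℕ => if (b : ℤ) = 0 then 0 else 0 := by
        funext b
        rw [if_neg (by omega), ite_self]
      rw [h3, bs_ind hw2]
      ring
  rw [e1, rs_ind SMP_thm hw1]
  ring

/-- the second moments -/
lemma second (h : IsSk2 n N σ) {s : ℝ} (hs : 0 < s) (g : ℝ) (h' : ℕ) (t : ℤ) :
    ∑ i, vs2 n s g (σ i) *
      ((((σ i).H : ℝ) - h' - s * Real.exp (-g) / (1 + s * Real.exp (-g)) * (σ i).l.length) ^ 2 +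
        (((σ i).Λ : ℝ) - t - 2 * (Real.exp (-(2 * g)) / (1 + Real.exp (-(2 * g))) * (σ i).k) -
          s * Real.exp (-g) / (1 + s * Real.exp (-g)) * (σ i).l.length) ^ 2) ≤
      ∑ q ∈ Omm n, wm n s g q * (((zl q : ℝ) - h') ^ 2 + ((zt q : ℝ) - t) ^ 2) := by
  have h1 := key h s g (fun z y => ((z : ℝ) - h') ^ 2 + ((y : ℝ) - t) ^ 2)
  have h2 : ∑ q ∈ Omm n, wm n s g q * (((zl q : ℝ) - h') ^ 2 + ((zt q : ℝ) - t) ^ 2) =
      ∑ q ∈ Omm n, wm n s g q * (((((zl q : ℕ) : ℤ) : ℝ) - h') ^ 2 + ((zt q : ℝ) - t) ^ 2) := by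
    refine sum_congr rfl fun q _ => ?_
    push_cast
    rfl
  rw [h2, h1]
  have hw1 : 0 < s * Real.exp (-g) := by positivity
  have hw2 : 0 < Real.exp (-(2 * g)) := by positivity
  refine sum_le_sum fun i _ => ?_
  rw [vs2_eq, mul_assoc]
  refine mul_le_mul_of_nonneg_left ?_ (pre_nonneg hs n g (σ i))
  obtain ⟨w1, hw1e⟩ : ∃ w, w = s * Real.exp (-g) := ⟨_, rfl⟩
  obtain ⟨w2, hw2e⟩ : ∃ w, w = Real.exp (-(2 * g)) := ⟨_, rfl⟩
  simp only [← hw1e, ← hw2e] at hw1 hw2 ⊢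
  obtain ⟨y, hy⟩ : ∃ y : ℝ, y = ((σ i).Λ : ℝ) - t - 2 * (w2 / (1 + w2) * (σ i).k) := ⟨_, rfl⟩
  have h3 : rs (σ i).l (fun j _ => (1 + w2) ^ (σ i).k * (w1 ^ j * (((σ i).H : ℝ) - h' - j) ^ 2) +
      (1 + w2) ^ (σ i).k * (w1 ^ j * (y - j) ^ 2)) ≤
      rs (σ i).l (fun j _ => w1 ^ j * bs (σ i).k w2 (fun b =>
        ((((((σ i).H : ℤ) - (j : ℤ) : ℤ)) : ℝ) - h') ^ 2 +
          (((((σ i).Λ - (j : ℤ) - 2 * (b : ℤ) : ℤ)) : ℝ) - t) ^ 2)) := by
    refine rs_mono _ _ _ fun j _ _ _ => ?_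
    have h4 := bs_jensen hw2 (σ i).k (((σ i).H : ℝ) - j - h') (((σ i).Λ : ℝ) - j - t)
    have h5 : bs (σ i).k w2 (fun b => ((((((σ i).H : ℤ) - (j : ℤ) : ℤ)) : ℝ) - h') ^ 2 +
          (((((σ i).Λ - (j : ℤ) - 2 * (b : ℤ) : ℤ)) : ℝ) - t) ^ 2) =
        bs (σ i).k w2 (fun b => (((σ i).H : ℝ) - j - h') ^ 2 +
          (((σ i).Λ : ℝ) - j - t - 2 * b) ^ 2) := by
      congr 1
      funext b
      push_cast
      ring
    rw [h5]
    refine le_trans (le_of_eq ?_) (mul_le_mul_of_nonneg_left h4 (by positivity))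
    rw [hy]
    ring
  refine le_trans ?_ h3
  rw [rs_add (σ i).l (fun j _ => (1 + w2) ^ (σ i).k * (w1 ^ j * (((σ i).H : ℝ) - h' - j) ^ 2))
    (fun j _ => (1 + w2) ^ (σ i).k * (w1 ^ j * (y - j) ^ 2)), rs_mul, rs_mul]
  have h6 := rs_jensen hw1 (σ i).l (((σ i).H : ℝ) - h')
  have h7 := rs_jensen hw1 (σ i).l y
  have hk : 0 ≤ (1 + w2) ^ (σ i).k := by positivity
  have h8 := mul_le_mul_of_nonneg_left h6 hk
  have h9 := mul_le_mul_of_nonneg_left h7 hk
  refine le_trans (le_of_eq ?_) (add_le_add h8 h9)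
  rw [← hy]
  ring

lemma sqrt_aux {x K c : ℝ} {m n : ℕ} (hc : 0 < c) (hK : 0 < K) (hm : c * n ≤ m)
    (hx : x ^ 2 ≤ 4 * K * n) : |x| ≤ 2 * Real.sqrt (K / c) * Real.sqrt m := by
  rw [← Real.sqrt_sq_eq_abs]
  have e : 2 * Real.sqrt (K / c) * Real.sqrt m = Real.sqrt (4 * (K / c) * m) := by
    rw [Real.sqrt_mul (by positivity), Real.sqrt_mul (by norm_num)]
    congr 2
    rw [show (4 : ℝ) = 2 ^ 2 by norm_num, Real.sqrt_sq (by norm_num)]
  rw [e]
  refine Real.sqrt_le_sqrt (hx.trans ?_)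
  calc 4 * K * n = 4 * (K / c) * (c * n) := by field_simp
    _ ≤ _ := mul_le_mul_of_nonneg_left hm (by positivity)

lemma mono_div {x y : ℝ} (hx : 0 < x) (hxy : x ≤ y) : x / (1 + x) ≤ y / (1 + y) := by
  have hy : 0 < y := lt_of_lt_of_le hx hxy
  rw [div_le_div_iff₀ (by positivity) (by positivity)]
  nlinarith

end LOCCx

open LOCCx Pool.Agent.FS.LOC in
/-- **TPT_LOCC.** -/
theorem t_LOCC (hS : SKELM_Stmt) (hK : KBIGM_Stmt) (hB : FS.BIN_Stmt) (hH : HGM_Stmt) :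
    LOCC_Stmt := by
  classical
  intro a b ha hab K hK0
  have hb : 0 < b := lt_of_lt_of_le ha hab
  obtain ⟨c, hc, N₁, hN₁, hK'⟩ := hK a b ha hab
  obtain ⟨L, hL⟩ : ∃ L, L = Real.exp (-(2 * b)) := ⟨_, rfl⟩
  obtain ⟨R, hR⟩ : ∃ R, R = Real.exp (2 * b) := ⟨_, rfl⟩
  have hL0 : 0 < L := by rw [hL]; positivity
  have hR0 : 0 < R := by rw [hR]; positivity
  have hLR : L ≤ R := by
    rw [hL, hR]
    exact Real.exp_le_exp.2 (by linarith)
  have hp1 : R / (1 + R) < 1 := by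
    rw [div_lt_one (by positivity)]
    linarith
  obtain ⟨c', k0, hc', hbin⟩ := (hB (L / (1 + L)) (R / (1 + R)) (by positivity) (mono_div hL0 hLR)
    hp1).2 (2 * Real.sqrt (K / c)) (by positivity)
  refine ⟨c' * c' / 2, by positivity, max N₁ (max ⌈(k0 : ℝ) / c⌉₊ ⌈2 / c⌉₊), ?_⟩
  intro n hn f g hbox h t hht hv
  have hn1 : N₁ ≤ n := (le_max_left _ _).trans hn
  have hn2 : ⌈(k0 : ℝ) / c⌉₊ ≤ n := ((le_max_left _ _).trans (le_max_right _ _)).trans hn
  have hn3 : ⌈2 / c⌉₊ ≤ n := ((le_max_right _ _).trans (le_max_right _ _)).trans hn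
  have hk0 : (k0 : ℝ) ≤ c * n := by
    have h2 : (k0 : ℝ) / c ≤ n := (Nat.le_ceil _).trans (by exact_mod_cast hn2)
    rw [div_le_iff₀ hc] at h2
    linarith
  have hcn2 : 2 ≤ c * n := by
    have h2 : 2 / c ≤ n := (Nat.le_ceil _).trans (by exact_mod_cast hn3)
    rw [div_le_iff₀ hc] at h2
    linarith
  have hn6 : 6 ≤ n := hN₁.trans hn1
  have hn0 : (0 : ℝ) < n := by
    have : (6 : ℝ) ≤ n := by exact_mod_cast hn6
    linarith
  obtain ⟨N, σ, hσ⟩ := hS n hn6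
  obtain ⟨s, hs⟩ : ∃ s, s = Real.exp (-f) := ⟨_, rfl⟩
  have hs0 : 0 < s := by rw [hs]; positivity
  have hKB := hK' n hn1 f g hbox N σ hσ
  rw [← hs] at hv hKB ⊢
  obtain ⟨hf1, hf2, hg⟩ := hbox
  obtain ⟨hg1, hg2⟩ := abs_le.1 hg
  obtain ⟨w1, hw1⟩ : ∃ w, w = s * Real.exp (-g) := ⟨_, rfl⟩
  obtain ⟨w2, hw2⟩ : ∃ w, w = Real.exp (-(2 * g)) := ⟨_, rfl⟩
  have hw1' : w1 = Real.exp (-f - g) := by rw [hw1, hs, ← Real.exp_add]; congr 1
  have hw1L : L ≤ w1 := by rw [hw1', hL]; exact Real.exp_le_exp.2 (by linarith)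
  have hw1R : w1 ≤ R := by rw [hw1', hR]; exact Real.exp_le_exp.2 (by linarith)
  have hw2L : L ≤ w2 := by rw [hw2, hL]; exact Real.exp_le_exp.2 (by linarith)
  have hw2R : w2 ≤ R := by rw [hw2, hR]; exact Real.exp_le_exp.2 (by linarith)
  have hw10 : 0 < w1 := lt_of_lt_of_le hL0 hw1L
  have hw20 : 0 < w2 := lt_of_lt_of_le hL0 hw2L
  obtain ⟨p1, hp1e⟩ : ∃ p, p = w1 / (1 + w1) := ⟨_, rfl⟩
  obtain ⟨p2, hp2e⟩ : ∃ p, p = w2 / (1 + w2) := ⟨_, rfl⟩
  have hp1L : L / (1 + L) ≤ p1 := by rw [hp1e]; exact mono_div hL0 hw1L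
  have hp1R : p1 ≤ R / (1 + R) := by rw [hp1e]; exact mono_div hw10 hw1R
  have hp2L : L / (1 + L) ≤ p2 := by rw [hp2e]; exact mono_div hL0 hw2L
  have hp2R : p2 ≤ R / (1 + R) := by rw [hp2e]; exact mono_div hw20 hw2R
  have hp10 : 0 ≤ p1 := le_trans (by positivity) hp1L
  have hp20 : 0 ≤ p2 := le_trans (by positivity) hp2L
  -- the exponents
  have hpar : ∀ i, ∃ b₀ : ℤ, 2 * b₀ = (σ i).Λ - (((σ i).H : ℤ) - h) - t := by
    intro i
    obtain ⟨r, hr⟩ := parity hH hσ i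
    obtain ⟨r', hr'⟩ := hht
    exact ⟨r + r' - (σ i).H - t, by omega⟩
  choose b₀ hb₀ using hpar
  have hU := UM_eq hσ hs0 g h t b₀ hb₀
  have hV := (second hσ hs0 g h t).trans hv
  have hZ := Z_eq hσ s g
  rw [← hw1, ← hw2, ← hp1e, ← hp2e] at hU
  simp only [← hw1, ← hw2, ← hp1e, ← hp2e] at hV
  have hv0 : ∀ i, 0 ≤ vs2 n s g (σ i) := fun i => vs2_nonneg hs0 n g (σ i)
  have hZ0 : 0 ≤ Zm n s g := by rw [hZ]; exact sum_nonneg fun i _ => hv0 i
  obtain ⟨D, hD⟩ : ∃ D : Fin N → ℝ, D = fun i =>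
    (((σ i).H : ℝ) - h - p1 * (σ i).l.length) ^ 2 +
        (((σ i).Λ : ℝ) - t - 2 * (p2 * (σ i).k) - p1 * (σ i).l.length) ^ 2 := ⟨_, rfl⟩
  have hV' : ∑ i, vs2 n s g (σ i) * D i ≤ K * n * Zm n s g := by rw [hD]; exact hV
  have hD0 : ∀ i, 0 ≤ D i := by intro i; rw [hD]; positivity
  obtain ⟨bad, hbad⟩ : ∃ bad : Finset (Fin N), bad = univ.filter (fun i : Fin N =>
    4 * K * n < D i) := ⟨_, rfl⟩
  obtain ⟨bad2, hbad2⟩ : ∃ bad2 : Finset (Fin N), bad2 = univ.filter (fun i : Fin N =>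
    ((σ i).l.length : ℝ) < c * n ∨ ((σ i).k : ℝ) < c * n) := ⟨_, rfl⟩
  have h4 : ∑ i ∈ bad, vs2 n s g (σ i) ≤ 1 / 4 * Zm n s g := by
    have h5 : ∑ i ∈ bad, vs2 n s g (σ i) * (4 * K * n) ≤ K * n * Zm n s g := by
      refine le_trans ?_ hV'
      refine le_trans ?_ (sum_le_sum_of_subset_of_nonneg (subset_univ bad) fun i _ _ =>
        mul_nonneg (hv0 i) (hD0 i))
      refine sum_le_sum fun i hi => mul_le_mul_of_nonneg_left ?_ (hv0 i)
      rw [hbad] at hi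
      exact (mem_filter.1 hi).2.le
    rw [← sum_mul] at h5
    have h6 : 0 < K * n := by positivity
    have h7 : (∑ i ∈ bad, vs2 n s g (σ i)) * 4 * (K * n) ≤ Zm n s g * (K * n) := by linarith
    have h8 := le_of_mul_le_mul_right h7 h6
    linarith
  have h5 : ∑ i ∈ bad2, vs2 n s g (σ i) ≤ 1 / 4 * Zm n s g := by
    rw [hbad2]
    refine hKB.trans (mul_le_mul_of_nonneg_right ?_ hZ0)
    have h6 : Real.exp (-(c * n)) ≤ Real.exp (-2) := Real.exp_le_exp.2 (by linarith)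
    refine h6.trans ?_
    rw [Real.exp_neg, inv_eq_one_div]
    refine div_le_div_of_nonneg_left (by norm_num) (by norm_num) ?_
    have h7 : Real.exp 2 = Real.exp 1 * Real.exp 1 := by rw [← Real.exp_add]; norm_num
    have h8 := Real.exp_one_gt_d9
    rw [h7]
    nlinarith
  -- lower bound
  have h6 : ∀ i : Fin N, c' * c' / n * vs2 n s g (σ i) -
      (c' * c' / n * (if i ∈ bad then vs2 n s g (σ i) else 0) +
        c' * c' / n * (if i ∈ bad2 then vs2 n s g (σ i) else 0)) ≤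
      vs2 n s g (σ i) * (bp (σ i).l.length p1 ((σ i).H - h) * bp (σ i).k p2 (b₀ i)) := by
    intro i
    have hb1 := FS.LOC.bp_nonneg hp10 (hp1R.trans hp1.le) (σ i).l.length ((σ i).H - h)
    have hb2 := FS.LOC.bp_nonneg hp20 (hp2R.trans hp1.le) (σ i).k (b₀ i)
    have hvi := hv0 i
    have hpos : 0 ≤ vs2 n s g (σ i) * (bp (σ i).l.length p1 ((σ i).H - h) * bp (σ i).k p2 (b₀ i)) := by
      positivity
    have hcc : 0 ≤ c' * c' / n := by positivity
    have hcv : 0 ≤ c' * c' / n * vs2 n s g (σ i) := mul_nonneg hcc hvi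
    by_cases hi1 : i ∈ bad
    · rw [if_pos hi1]
      have : 0 ≤ c' * c' / n * (if i ∈ bad2 then vs2 n s g (σ i) else 0) := by
        split_ifs <;> positivity
      linarith
    · by_cases hi2 : i ∈ bad2
      · rw [if_neg hi1, if_pos hi2]
        linarith
      · rw [if_neg hi1, if_neg hi2, mul_zero, add_zero, sub_zero, mul_comm]
        refine mul_le_mul_of_nonneg_left ?_ hvi
        rw [hbad, mem_filter, not_and, not_lt] at hi1
        rw [hbad2, mem_filter, not_and, not_or, not_lt, not_lt] at hi2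
        have hi3 := hi1 (mem_univ i)
        obtain ⟨hi4, hi5⟩ := hi2 (mem_univ i)
        rw [hD] at hi3
        have q1 : (((σ i).H : ℝ) - h - p1 * (σ i).l.length) ^ 2 ≤ 4 * K * n := by
          refine le_trans ?_ hi3
          have := sq_nonneg (((σ i).Λ : ℝ) - t - 2 * (p2 * (σ i).k) - p1 * (σ i).l.length)
          linarith
        have q2 : (((σ i).Λ : ℝ) - t - 2 * (p2 * (σ i).k) - p1 * (σ i).l.length) ^ 2 ≤ 4 * K * n := by
          refine le_trans ?_ hi3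
          have := sq_nonneg (((σ i).H : ℝ) - h - p1 * (σ i).l.length)
          linarith
        have q3 : ((b₀ i : ℝ) - p2 * (σ i).k) ^ 2 ≤ 4 * K * n := by
          have e : (b₀ i : ℝ) = ((σ i).Λ - ((σ i).H - h) - t) / 2 := by
            have := congrArg (fun z : ℤ => (z : ℝ)) (hb₀ i)
            push_cast at this
            linarith
          have e2 : (b₀ i : ℝ) - p2 * (σ i).k =
              ((((σ i).Λ : ℝ) - t - 2 * (p2 * (σ i).k) - p1 * (σ i).l.length) -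
                (((σ i).H : ℝ) - h - p1 * (σ i).l.length)) / 2 := by
            rw [e]
            ring
          rw [e2]
          nlinarith [sq_nonneg ((((σ i).Λ : ℝ) - t - 2 * (p2 * (σ i).k) - p1 * (σ i).l.length) +
                (((σ i).H : ℝ) - h - p1 * (σ i).l.length))]
        have r1 := sqrt_aux hc hK0 hi4 q1
        have r2 := sqrt_aux hc hK0 hi5 q3
        have hl : k0 ≤ (σ i).l.length := by exact_mod_cast hk0.trans hi4
        have hkk : k0 ≤ (σ i).k := by exact_mod_cast hk0.trans hi5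
        have s1 := hbin p1 hp1L hp1R (σ i).l.length (((σ i).H : ℤ) - h) hl (by
          push_cast
          exact r1)
        have s2 := hbin p2 hp2L hp2R (σ i).k (b₀ i) hkk r2
        have hcn : 0 < c * n := by linarith
        have hlen : (0 : ℝ) < (σ i).l.length := lt_of_lt_of_le hcn hi4
        have hklen : (0 : ℝ) < (σ i).k := lt_of_lt_of_le hcn hi5
        have u1 := hσ.len_le i
        have u2 := hσ.H_le i
        have v1 : Real.sqrt (σ i).l.length ≤ Real.sqrt n :=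
          Real.sqrt_le_sqrt (by exact_mod_cast (by omega : (σ i).l.length ≤ n))
        have v2 : Real.sqrt (σ i).k ≤ Real.sqrt n :=
          Real.sqrt_le_sqrt (by exact_mod_cast (by omega : (σ i).k ≤ n))
        have w1' : c' / Real.sqrt n ≤ c' / Real.sqrt (σ i).l.length :=
          div_le_div_of_nonneg_left hc'.le (Real.sqrt_pos.2 hlen) v1
        have w2' : c' / Real.sqrt n ≤ c' / Real.sqrt (σ i).k :=
          div_le_div_of_nonneg_left hc'.le (Real.sqrt_pos.2 hklen) v2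
        have e3 : c' * c' / n = c' / Real.sqrt n * (c' / Real.sqrt n) := by
          rw [div_mul_div_comm, Real.mul_self_sqrt hn0.le]
        rw [e3]
        exact mul_le_mul (w1'.trans s1) (w2'.trans s2) (by positivity) hb1
  rw [hU]
  refine le_trans ?_ (sum_le_sum fun i _ => h6 i)
  rw [sum_sub_distrib, sum_add_distrib, ← mul_sum, ← mul_sum, ← mul_sum, ← hZ]
  have e1 : ∑ i, (if i ∈ bad then vs2 n s g (σ i) else 0) = ∑ i ∈ bad, vs2 n s g (σ i) := by
    rw [← sum_filter]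
    congr 1
    ext i
    simp
  have e2 : ∑ i, (if i ∈ bad2 then vs2 n s g (σ i) else 0) = ∑ i ∈ bad2, vs2 n s g (σ i) := by
    rw [← sum_filter]
    congr 1
    ext i
    simp
  rw [e1, e2]
  have h7 : 0 ≤ c' * c' / n := by positivity
  have h8 := mul_le_mul_of_nonneg_left h4 h7
  have h9 := mul_le_mul_of_nonneg_left h5 h7
  have e3 : c' * c' / 2 / n * Zm n s g = c' * c' / n * Zm n s g -
      (c' * c' / n * (1 / 4 * Zm n s g) + c' * c' / n * (1 / 4 * Zm n s g)) := by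
    ring
  rw [e3]
  linarith

end Pool.Agent.TPT
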