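import Pool.Agent.TPT.StmtsA

/-!
# Project TPT: choice of the force vector (module CHOM)
-/

set_option autoImplicit false

namespace Pool.Agent.TPT

open Finset Filter Topology MeasureTheory
open Pool.Agent.Lib27 Pool.Agent.SapR Pool.Agent.AreaLaw Pool.Agent.FL

namespace CHOMaux

/-- the index set: polygon words with a marked vertex -/
noncomputable def II (n : ℕ) : Finset ((Fin (2 * n) → Fin 4) × ℕ) := SAP n ×ˢ range (2 * n)

lemma ZF_eq (n : ℕ) (f g : ℝ) : ∑ i ∈ II n, Real.exp (f * (slev n i.1 i.2 : ℝ) +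
    g * (lat (pos n i.1 i.2) : ℝ)) = ZF n f g := by
  unfold II ZF
  rw [Finset.sum_product]

lemma II_nonempty (hR : RECM_Stmt) (n : ℕ) (hn : 3 ≤ n) : (II n).Nonempty := by
  obtain ⟨w, hw, _, _⟩ := hR n hn 1 1 (by norm_num) (by norm_num)
  exact ⟨(w, 0), mem_product.2 ⟨hw, mem_range.2 (by omega)⟩⟩

lemma ZF_pos (hR : RECM_Stmt) (n : ℕ) (hn : 3 ≤ n) (f g : ℝ) : 0 < ZF n f g := by
  rw [← ZF_eq]
  exact Finset.sum_pos (fun i _ => Real.exp_pos _) (II_nonempty hR n hn)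

lemma card_SAP_le (n : ℕ) : ((SAP n).card : ℝ) ≤ 4 ^ (2 * n) := by
  have h1 : (SAP n).card ≤ 4 ^ (2 * n) := by
    refine (Finset.card_le_univ _).trans (le_of_eq ?_)
    rw [Fintype.card_fun, Fintype.card_fin, Fintype.card_fin]
  exact_mod_cast h1

lemma log_card (hR : RECM_Stmt) (n : ℕ) (hn : 3 ≤ n) : Real.log ((II n).card : ℝ) ≤ 5 * n := by
  have h0 : 0 < ((II n).card : ℝ) := by
    exact_mod_cast (II_nonempty hR n hn).card_pos
  have hn0 : (0 : ℝ) < n := by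
    exact_mod_cast (by omega : 0 < n)
  have h1 : ((II n).card : ℝ) ≤ 4 ^ (2 * n) * (2 * n) := by
    unfold II
    rw [Finset.card_product, Finset.card_range]
    push_cast
    exact mul_le_mul_of_nonneg_right (card_SAP_le n) (by positivity)
  have h2 : Real.log ((II n).card : ℝ) ≤ Real.log (4 ^ (2 * n) * (2 * n)) :=
    Real.log_le_log h0 h1
  rw [Real.log_mul (by positivity) (by positivity), Real.log_pow] at h2
  have h3 : Real.log (2 * (n : ℝ)) ≤ 2 * n - 1 := Real.log_le_sub_one_of_pos (by positivity)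
  have h4 : Real.log 4 ≤ 1.4 := by
    have h5 : Real.log 4 = 2 * Real.log 2 := by
      rw [show (4 : ℝ) = 2 ^ 2 by norm_num, Real.log_pow]
      norm_num
    rw [h5]
    have := Real.log_two_lt_d9
    linarith
  have h6 : ((2 * n : ℕ) : ℝ) * Real.log 4 ≤ (2 * n : ℝ) * 1.4 := by
    push_cast
    exact mul_le_mul_of_nonneg_left h4 (by positivity)
  linarith

lemma ZF_ge (hS : SYMA_Stmt) (n : ℕ) (f g : ℝ) : ZF n 0 0 ≤ ZF n f g := by
  have h1 : ZF n (-f) (-g) = ZF n f g := by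
    rw [(hS n f (-g)).2.2, (hS n f g).2.1]
  have h2 : 2 * ZF n 0 0 ≤ ZF n f g + ZF n (-f) (-g) := by
    rw [← ZF_eq, ← ZF_eq, ← ZF_eq, ← Finset.sum_add_distrib, Finset.mul_sum]
    refine Finset.sum_le_sum fun i _ => ?_
    set u : ℝ := f * (slev n i.1 i.2 : ℝ) + g * (lat (pos n i.1 i.2) : ℝ) with hu
    have e1 : -f * (slev n i.1 i.2 : ℝ) + -g * (lat (pos n i.1 i.2) : ℝ) = -u := by
      rw [hu]; ring
    have e2 : (0 : ℝ) * (slev n i.1 i.2 : ℝ) + 0 * (lat (pos n i.1 i.2) : ℝ) = 0 := by ring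
    rw [e1, e2, Real.exp_zero]
    have h3 := Real.add_one_le_exp u
    have h4 := Real.add_one_le_exp (-u)
    linarith
  linarith

lemma sgn_cases {σ : ℝ} (h : |σ| = 1) : ∃ z : ℤ, |z| = 1 ∧ σ = z := by
  rcases abs_eq (by norm_num : (0 : ℝ) ≤ 1) |>.1 h with h1 | h1
  · exact ⟨1, by norm_num, by rw [h1]; norm_num⟩
  · exact ⟨-1, by norm_num, by rw [h1]; norm_num⟩

/-- the hypothesis of MINM -/
lemma hyp (hR : RECM_Stmt) (e : ℝ) (n : ℕ) (hn : 3 ≤ n) (h : ℕ) (t : ℤ)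
    (hh : (h : ℝ) ≤ (1 - e) * n) (ht : |t| ≤ h) (σ σ' : ℝ) (hσ : |σ| = 1) (hσ' : |σ'| = 1) :
    ∃ i ∈ II n, |(h : ℝ)| + (e * n - 1) ≤ σ * (slev n i.1 i.2 : ℝ) ∧
      |(t : ℝ)| + (e * n - 1) ≤ σ' * (lat (pos n i.1 i.2) : ℝ) := by
  obtain ⟨z, hz, rfl⟩ := sgn_cases hσ
  obtain ⟨z', hz', rfl⟩ := sgn_cases hσ'
  obtain ⟨w, hw, h1, h2⟩ := hR n hn z z' hz hz'
  refine ⟨(w, n - 1), mem_product.2 ⟨hw, mem_range.2 (by omega)⟩, ?_, ?_⟩
  · show _ ≤ (z : ℝ) * (slev n w (n - 1) : ℝ)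
    rw [h1]
    have e1 : (z : ℝ) * ((z * ((n : ℤ) - 1) : ℤ) : ℝ) = (n : ℝ) - 1 := by
      have e3 : (z : ℝ) * z = 1 := by
        have : z * z = 1 := by rw [← abs_mul_abs_self, hz]; norm_num
        exact_mod_cast this
      push_cast
      rw [← mul_assoc, e3, one_mul]
    rw [e1, abs_of_nonneg (Nat.cast_nonneg h)]
    linarith
  · show _ ≤ (z' : ℝ) * (lat (pos n w (n - 1)) : ℝ)
    rw [h2]
    have e1 : (z' : ℝ) * ((z' * ((n : ℤ) - 1) : ℤ) : ℝ) = (n : ℝ) - 1 := by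
      have e3 : (z' : ℝ) * z' = 1 := by
        have : z' * z' = 1 := by rw [← abs_mul_abs_self, hz']; norm_num
        exact_mod_cast this
      push_cast
      rw [← mul_assoc, e3, one_mul]
    have e2 : |(t : ℝ)| ≤ h := by exact_mod_cast ht
    rw [e1]
    linarith

/-- the total weight depends only on the larger and the smaller absolute value -/
lemma ZF_sym (hS : SYMA_Stmt) (n : ℕ) (f g : ℝ) (τ : ℝ) (hτ : τ = 1 ∨ τ = -1) :
    ZF n (max |f| |g|) (τ * min |f| |g|) = ZF n f g := by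
  have h1 : ZF n (max |f| |g|) (τ * min |f| |g|) = ZF n (max |f| |g|) (min |f| |g|) := by
    rcases hτ with rfl | rfl
    · rw [one_mul]
    · rw [neg_one_mul, (hS n _ _).2.1]
  have h2 : ZF n (max |f| |g|) (min |f| |g|) = ZF n |f| |g| := by
    rcases le_total |f| |g| with h | h
    · rw [max_eq_right h, min_eq_left h, (hS n _ _).1]
    · rw [max_eq_left h, min_eq_right h]
  have h3 : ZF n |f| |g| = ZF n f |g| := by
    rcases abs_choice f with h | h
    · rw [h]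
    · rw [h, (hS n _ _).2.2]
  have h4 : ZF n f |g| = ZF n f g := by
    rcases abs_choice g with h | h
    · rw [h]
    · rw [h, (hS n _ _).2.1]
  rw [h1, h2, h3, h4]

/-- the rearrangement inequality -/
lemma rearr (f g h t : ℝ) (hh : |t| ≤ h) : ∃ τ : ℝ, (τ = 1 ∨ τ = -1) ∧
    f * h + g * t ≤ max |f| |g| * h + τ * min |f| |g| * t := by
  obtain ⟨τ, hτ, e1⟩ : ∃ τ : ℝ, (τ = 1 ∨ τ = -1) ∧ τ * t = |t| := by
    rcases abs_choice t with h | h
    · exact ⟨1, Or.inl rfl, by rw [h, one_mul]⟩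
    · exact ⟨-1, Or.inr rfl, by rw [h, neg_one_mul]⟩
  refine ⟨τ, hτ, ?_⟩
  have e2 : τ * min |f| |g| * t = min |f| |g| * |t| := by rw [← e1]; ring
  rw [e2]
  have h0 : 0 ≤ |t| := abs_nonneg t
  have h1 : f * h ≤ |f| * h := mul_le_mul_of_nonneg_right (le_abs_self f) (h0.trans hh)
  have h2 : g * t ≤ |g| * |t| := by
    rw [← abs_mul]
    exact le_abs_self _
  rcases le_total |f| |g| with h3 | h3
  · rw [max_eq_right h3, min_eq_left h3]
    nlinarith [mul_nonneg (sub_nonneg.2 h3) (sub_nonneg.2 hh)]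
  · rw [max_eq_left h3, min_eq_right h3]
    linarith

end CHOMaux

open CHOMaux

theorem t_CHOM (hMi : MINM_Stmt) (hG : GRDM_Stmt) (hS : SYMA_Stmt) (hR : RECM_Stmt)
    (hF : FARM_Stmt) : CHOM_Stmt := by
  intro e he
  obtain ⟨δ, hδ, N₁, hN₁⟩ := hF (e / 16) (by positivity)
  obtain ⟨N₂, hN₂⟩ := exists_nat_ge (2 / e)
  obtain ⟨N₃, hN₃⟩ := exists_nat_gt (6 / (e * δ))
  refine ⟨δ / 2, max (10 / e) (δ / 2), by positivity, le_max_right _ _,
    max (max 3 N₁) (max N₂ N₃), ?_⟩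
  intro n hn h t h1 h2 ht
  have hn3 : 3 ≤ n := le_trans (le_trans (le_max_left _ _) (le_max_left _ _)) hn
  have hnN₁ : N₁ ≤ n := le_trans (le_trans (le_max_right _ _) (le_max_left _ _)) hn
  have hnN₂ : (2 / e : ℝ) ≤ n := hN₂.trans (by
    exact_mod_cast le_trans (le_trans (le_max_left _ _) (le_max_right _ _)) hn)
  have hnN₃ : (6 / (e * δ) : ℝ) < n := hN₃.trans_le (by
    exact_mod_cast le_trans (le_trans (le_max_right _ _) (le_max_right _ _)) hn)
  have hn0 : (0 : ℝ) < n := by exact_mod_cast (by omega : 0 < n)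
  have hen : 2 ≤ e * n := by
    rw [div_le_iff₀ he] at hnN₂
    linarith
  have hI := II_nonempty hR n hn3
  obtain ⟨f₀, g₀, hb, hmin⟩ := hMi _ (II n) (fun i => (slev n i.1 i.2 : ℝ))
    (fun i => (lat (pos n i.1 i.2) : ℝ)) (h : ℝ) (t : ℝ) (e * n - 1) hI (by linarith)
    (fun σ σ' hσ hσ' => hyp hR e n hn3 h t h2 ht σ σ' hσ hσ')
  simp only [ZF_eq] at hmin
  have htr : |(t : ℝ)| ≤ h := by exact_mod_cast ht
  obtain ⟨τ, hτ, hre⟩ := rearr f₀ g₀ h t htr
  have hZ := ZF_sym hS n f₀ g₀ τ hτ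
  obtain ⟨f, hf⟩ : ∃ f, f = max |f₀| |g₀| := ⟨_, rfl⟩
  obtain ⟨g, hg⟩ : ∃ g, g = τ * min |f₀| |g₀| := ⟨_, rfl⟩
  rw [← hf, ← hg] at hZ hre
  have hmin' : ∀ f' g' : ℝ, Real.log (ZF n f g) - f * h - g * t ≤
      Real.log (ZF n f' g') - f' * h - g' * t := by
    intro f' g'
    have := hmin f' g'
    rw [hZ]
    linarith
  have hgabs : |g| = min |f₀| |g₀| := by
    rw [hg, abs_mul, abs_of_nonneg (a := min |f₀| |g₀|) (le_min (abs_nonneg _) (abs_nonneg _))]
    rcases hτ with rfl | rfl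
    · rw [abs_one, one_mul]
    · rw [abs_neg, abs_one, one_mul]
  have hgf : |g| ≤ f := by
    rw [hgabs, hf]
    exact min_le_max
  have hf0 : 0 ≤ f := (abs_nonneg g).trans hgf
  have hsum : |f₀| + |g₀| ≤ 10 / e := by
    have h3 := hb.trans (log_card hR n hn3)
    have h4 : 0 ≤ |f₀| + |g₀| := by positivity
    have h5 : e * n / 2 * (|f₀| + |g₀|) ≤ 5 * n := by
      refine le_trans ?_ h3
      exact mul_le_mul_of_nonneg_right (by linarith) h4
    rw [le_div_iff₀ he]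
    by_contra hcon
    push Not at hcon
    have h6 : 10 * (n : ℝ) / 2 < (|f₀| + |g₀|) * e * n / 2 := by
      have := mul_lt_mul_of_pos_right hcon hn0
      linarith
    have h7 : e * n / 2 * (|f₀| + |g₀|) = (|f₀| + |g₀|) * e * n / 2 := by ring
    linarith
  have hfb : f ≤ 10 / e := by
    rw [hf]
    refine (max_le ?_ ?_).trans hsum
    · linarith [abs_nonneg g₀]
    · linarith [abs_nonneg f₀]
  have hlow : δ / 2 ≤ f := by
    by_contra hcon
    push Not at hcon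
    have h3 := hmin' (f + δ / 2) g
    have h4 : ZF n (f + δ / 2) g ≤ 3 * Real.exp (2 * δ * (e / 16) * n) * ZF n 0 0 := by
      refine hN₁ n hnN₁ _ _ ?_ ?_
      · rw [abs_of_nonneg (by positivity)]
        linarith
      · linarith
    have hp0 := ZF_pos hR n hn3 0 0
    have h5 : Real.log (ZF n (f + δ / 2) g) ≤
        Real.log 3 + 2 * δ * (e / 16) * n + Real.log (ZF n 0 0) := by
      refine (Real.log_le_log (ZF_pos hR n hn3 _ _) h4).trans (le_of_eq ?_)
      rw [Real.log_mul (by positivity) hp0.ne', Real.log_mul (by norm_num) (Real.exp_pos _).ne',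
        Real.log_exp]
    have h6 : Real.log (ZF n 0 0) ≤ Real.log (ZF n f g) :=
      Real.log_le_log hp0 (ZF_ge hS n f g)
    have h7 : Real.log 3 ≤ 2 := by
      have := Real.log_le_sub_one_of_pos (by norm_num : (0 : ℝ) < 3)
      linarith
    have h8 : δ / 2 * h ≤ 2 + 2 * δ * (e / 16) * n := by
      have e1 : (f + δ / 2) * (h : ℝ) = f * h + δ / 2 * h := by ring
      rw [e1] at h3
      linarith
    have h9 : δ / 2 * (e * n) ≤ δ / 2 * h := mul_le_mul_of_nonneg_left h1 (by positivity)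
    have h10 : 6 < n * (e * δ) := by
      rwa [div_lt_iff₀ (by positivity)] at hnN₃
    nlinarith
  have hgr := hG _ (II n) (fun i => (slev n i.1 i.2 : ℝ)) (fun i => (lat (pos n i.1 i.2) : ℝ))
    (h : ℝ) (t : ℝ) f g hI (by
      intro f' g'
      rw [ZF_eq, ZF_eq]
      exact hmin' f' g')
  refine ⟨f, g, ⟨hlow, hfb.trans (le_max_left _ _), (hgf.trans hfb).trans (le_max_left _ _)⟩,
    ?_, ?_⟩
  · have := hgr.1
    unfold II at this
    rw [Finset.sum_product] at this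
    exact this
  · have := hgr.2
    unfold II at this
    rw [Finset.sum_product] at this
    exact this

end Pool.Agent.TPT
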