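import Pool.Agent.TPT.StmtsA
import Pool.Agent.Lib_helper74.FS.CLS

/-!
# Project TPT (MP_f6626d_co): module CLSB, the classes of canonical words
-/

set_option autoImplicit false

namespace Pool.Agent.TPT
namespace CLSBm

open Finset Filter Topology MeasureTheory
open Pool.Agent.Lib27 Pool.Agent.SapR Pool.Agent.AreaLaw Pool.Agent.FL
open Pool.Agent.FS (sc)
open Pool.Agent.FS.CLS (av av_mono av_add av_mul av_nonneg av_one_le av_card abs_main)

/-- the class -/
noncomputable def Cl (n h : ℕ) (t : ℤ) : Finset QM :=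
  (Omm n).filter (fun q => zl q = h ∧ zt q = t)

/-- weighted sum over the class -/
noncomputable def V (n : ℕ) (s g : ℝ) (h : ℕ) (t : ℤ) (ψ : QM → ℝ) : ℝ :=
  ∑ q ∈ Cl n h t, wm n s g q * ψ q

lemma wm_pos (n : ℕ) (s g : ℝ) (hs : 0 < s) (q : QM) : 0 < wm n s g q := by
  unfold wm
  positivity

lemma V_eq (n : ℕ) (s g : ℝ) (h : ℕ) (t : ℤ) (ψ : QM → ℝ) :
    V n s g h t ψ = (s ^ (n - h) * Real.exp (g * t)) * ∑ q ∈ Cl n h t, ψ q := by
  unfold V
  rw [Finset.mul_sum]
  refine Finset.sum_congr rfl fun q hq => ?_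
  have h1 := (mem_filter.1 hq).2
  unfold wm
  rw [h1.1, h1.2]

lemma av_cl (n : ℕ) (s g : ℝ) (hs : 0 < s) (h : ℕ) (t : ℤ) (ψ : QM → ℝ) :
    av (Cl n h t) (fun _ => 1) ψ = V n s g h t ψ / V n s g h t (fun _ => 1) := by
  have hk : s ^ (n - h) * Real.exp (g * t) ≠ 0 := by positivity
  rw [V_eq, V_eq, mul_div_mul_left _ _ hk]
  unfold av
  simp only [one_mul]

lemma V_mono (n : ℕ) (s g : ℝ) (hs : 0 < s) (h : ℕ) (t : ℤ) (ψ χ : QM → ℝ)
    (hψ : ∀ q, ψ q ≤ χ q) : V n s g h t ψ ≤ V n s g h t χ :=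
  Finset.sum_le_sum fun q _ => mul_le_mul_of_nonneg_left (hψ q) (wm_pos n s g hs q).le

lemma V_le_full (n : ℕ) (s g : ℝ) (hs : 0 < s) (h : ℕ) (t : ℤ) (ψ : QM → ℝ)
    (hψ : ∀ q, 0 ≤ ψ q) : V n s g h t ψ ≤ ∑ q ∈ Omm n, wm n s g q * ψ q :=
  Finset.sum_le_sum_of_subset_of_nonneg (Finset.filter_subset _ _)
    fun q _ _ => mul_nonneg (wm_pos n s g hs q).le (hψ q)

lemma av_cl_le (n : ℕ) (s g : ℝ) (hs : 0 < s) (h : ℕ) (t : ℤ) (ψ : QM → ℝ) (B D : ℝ)
    (hB : 0 ≤ B) (hD : 0 < D) (h1 : V n s g h t ψ ≤ B) (h2 : D ≤ V n s g h t (fun _ => 1)) :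
    av (Cl n h t) (fun _ => 1) ψ ≤ B / D := by
  rw [av_cl n s g hs]
  exact div_le_div₀ hB h1 hD h2

/-! ### Limits -/

lemma pow_log_div_sqrt (k : ℕ) :
    Tendsto (fun n : ℕ => Real.log n ^ k / Real.sqrt n) atTop (𝓝 0) := by
  have h1 := (Real.isLittleO_pow_log_id_atTop (n := k)).tendsto_div_nhds_zero
  have h2 := (h1.comp (Real.tendsto_sqrt_atTop.comp tendsto_natCast_atTop_atTop)).const_mul
    ((2 : ℝ) ^ k)
  rw [mul_zero] at h2
  refine h2.congr fun n => ?_
  simp only [Function.comp_apply, id_eq]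
  have h3 : Real.log (Real.sqrt (n : ℝ)) = Real.log n / 2 := Real.log_sqrt (Nat.cast_nonneg n)
  rw [h3, div_pow]
  field_simp

lemma ratio (n : ℕ) (hn : 1 ≤ n) : (n * Real.log n) / sc n = Real.log n / Real.sqrt n := by
  have hnr : (0 : ℝ) < n := by exact_mod_cast hn
  have hq : 0 < Real.sqrt n := Real.sqrt_pos.2 hnr
  unfold sc
  field_simp

lemma lim_main (k : ℕ) :
    Tendsto (fun n : ℕ => (n : ℝ) * (Real.log n / Real.sqrt n) ^ (k + 3)) atTop (𝓝 0) := by
  have h1 := pow_log_div_sqrt 1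
  simp only [pow_one] at h1
  have h2 := pow_log_div_sqrt 3
  have h3 := (h1.pow k).mul h2
  rw [mul_zero] at h3
  refine h3.congr' ?_
  filter_upwards [eventually_ge_atTop 1] with n hn
  have hnr : (0 : ℝ) < n := by exact_mod_cast hn
  have hq : 0 < Real.sqrt n := Real.sqrt_pos.2 hnr
  have hnn : (n : ℝ) = Real.sqrt n ^ 2 := (Real.sq_sqrt hnr.le).symm
  rw [pow_add]
  have h4 : (n : ℝ) * (Real.log n / Real.sqrt n) ^ 3 = Real.log n ^ 3 / Real.sqrt n := by
    rw [div_pow]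
    nth_rewrite 1 [hnn]
    field_simp
  calc (Real.log n / Real.sqrt n) ^ k * (Real.log n ^ 3 / Real.sqrt n)
      = (Real.log n / Real.sqrt n) ^ k * ((n : ℝ) * (Real.log n / Real.sqrt n) ^ 3) := by rw [h4]
    _ = _ := by ring

/-- if the averages of the cubes tend to zero, then so do the averages -/
lemma cube_to_one {α : Type} (P : ℕ → Finset α) (w Z : ℕ → α → ℝ)
    (hw : ∀ n, ∀ q ∈ P n, 0 ≤ w n q) (hZ : ∀ n q, 0 ≤ Z n q)
    (h : Tendsto (fun n => av (P n) (w n) (fun q => Z n q ^ 3)) atTop (𝓝 0)) :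
    Tendsto (fun n => av (P n) (w n) (Z n)) atTop (𝓝 0) := by
  rw [Metric.tendsto_atTop] at h ⊢
  intro ε hε
  obtain ⟨N, hN⟩ := h (ε / 2 * (ε / 2) ^ 2) (by positivity)
  refine ⟨N, fun n hn => ?_⟩
  have h1 := hN n hn
  have h0 : 0 ≤ av (P n) (w n) (Z n) := av_nonneg _ _ _ (hw n) fun q _ => hZ n q
  have h0' : 0 ≤ av (P n) (w n) (fun q => Z n q ^ 3) :=
    av_nonneg _ _ _ (hw n) fun q _ => pow_nonneg (hZ n q) 3
  rw [Real.dist_eq, sub_zero, abs_of_nonneg h0'] at h1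
  rw [Real.dist_eq, sub_zero, abs_of_nonneg h0]
  have hd : 0 < ε / 2 := by positivity
  have h2 : av (P n) (w n) (Z n) ≤
      av (P n) (w n) (fun q => (ε / 2) * 1 + ((ε / 2) ^ 2)⁻¹ * Z n q ^ 3) := by
    refine av_mono _ _ _ _ (hw n) fun q _ => ?_
    have hz := hZ n q
    rcases le_or_gt (Z n q) (ε / 2) with h3 | h3
    · have : 0 ≤ ((ε / 2) ^ 2)⁻¹ * Z n q ^ 3 := by positivity
      linarith
    · have h4 : Z n q ≤ ((ε / 2) ^ 2)⁻¹ * Z n q ^ 3 := by
        rw [le_inv_mul_iff₀ (by positivity)]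
        have h5 : (ε / 2) ^ 2 ≤ Z n q ^ 2 := pow_le_pow_left₀ hd.le h3.le 2
        calc (ε / 2) ^ 2 * Z n q ≤ Z n q ^ 2 * Z n q := mul_le_mul_of_nonneg_right h5 hz
          _ = Z n q ^ 3 := by ring
      linarith
  rw [av_add, av_mul, av_mul] at h2
  have h3 := av_one_le (P n) (w n)
  have h4 : ((ε / 2) ^ 2)⁻¹ * av (P n) (w n) (fun q => Z n q ^ 3) < ε / 2 := by
    rw [inv_mul_lt_iff₀ (by positivity)]
    calc _ < ε / 2 * (ε / 2) ^ 2 := h1
      _ = _ := by ring
  have h5 : ε / 2 * av (P n) (w n) (fun _ => (1 : ℝ)) ≤ ε / 2 * 1 :=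
    mul_le_mul_of_nonneg_left h3 hd.le
  linarith

lemma rm_nonneg (n : ℕ) (q : QM) : 0 ≤ rm n q := by
  unfold rm sc
  positivity

lemma Zm_pos_of (hZ : ZBM_Stmt) (a b : ℝ) (ha : 0 < a) (hab : a ≤ b) :
    ∃ N : ℕ, ∀ n : ℕ, N ≤ n → ∀ f g : ℝ, Box a b f g → 0 < Zm n (Real.exp (-f)) g := by
  obtain ⟨C, θ, hC, _, _, N, h⟩ := hZ a b ha hab
  refine ⟨N, fun n hn f g hb => ?_⟩
  obtain ⟨rho, _, _, h5, _, h6, _⟩ := h n hn f g hb
  by_contra hc
  push Not at hc
  have hCi : 0 < C⁻¹ := by positivity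
  have h7 : 0 ≤ sc n * rho ^ n := by
    have : 0 ≤ rho := by linarith
    unfold sc
    positivity
  have h8 := mul_nonpos_of_nonneg_of_nonpos h7 hc
  linarith

theorem main (hL : LOCA_Stmt) (hM : MOMM_Stmt) (hZ : ZBM_Stmt) : CLSB_Stmt := by
  intro a b ha hab f g h t hR
  obtain ⟨c, hc, hlow⟩ := hR.low
  obtain ⟨N0, hZp⟩ := Zm_pos_of hZ a b ha hab
  set s : ℕ → ℝ := fun n => Real.exp (-(f n)) with hs
  have hs0 : ∀ n, 0 < s n := fun n => Real.exp_pos _
  set X : ℕ → QM → ℝ := fun n => rm n with hX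
  set Y : ℕ → QM → ℝ := fun n q => (dm q : ℝ) / sc n with hY
  have hsq : ∀ n : ℕ, 1 ≤ n → 0 < Real.sqrt n := fun n hn =>
    Real.sqrt_pos.2 (by exact_mod_cast hn)
  have hscp : ∀ n : ℕ, 1 ≤ n → 0 < sc n := fun n hn => by
    have := hsq n hn
    have h2 : (0 : ℝ) < n := by exact_mod_cast hn
    unfold sc
    positivity
  have hdiff : ∀ n : ℕ, 1 ≤ n → ∀ (q : QM) (r : ℕ),
      |Y n q - X n q| ^ r = |(dm q : ℝ) - (am n q : ℝ)| ^ r / sc n ^ r := by
    intro n hn q r
    simp only [hX, hY]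
    unfold rm
    rw [← sub_div, abs_div, abs_of_pos (hscp n hn), div_pow]
  have hw : ∀ n, ∀ q ∈ Omm n, 0 ≤ wm n (s n) (g n) q := fun n q _ =>
    (wm_pos n (s n) (g n) (hs0 n) q).le
  -- good n
  have hgood : ∀ᶠ n : ℕ in atTop, 1 ≤ n ∧ 0 < Zm n (s n) (g n) ∧
      c / n * Zm n (s n) (g n) ≤ V n (s n) (g n) (h n) (t n) (fun _ => 1) := by
    filter_upwards [eventually_ge_atTop 1, eventually_ge_atTop N0, hlow] with n h1 h2 h3
    exact ⟨h1, hZp n h2 (f n) (g n) (hR.box n), h3⟩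
  -- class moments of the area functional
  have hXr : ∀ r : ℕ, ∃ C : ℝ, ∀ᶠ n : ℕ in atTop,
      av (Cl n (h n) (t n)) (fun _ => 1) (fun q => X n q ^ r) ≤ C := by
    intro r
    obtain ⟨C, hC, N, hN⟩ := hL a b ha hab r
    refine ⟨C / c, ?_⟩
    filter_upwards [hgood, eventually_ge_atTop N] with n hn hn2
    obtain ⟨hn1, hZn, hV⟩ := hn
    have hnr : (0 : ℝ) < n := by exact_mod_cast hn1
    have h1 := av_cl_le n (s n) (g n) (hs0 n) (h n) (t n) (fun q => X n q ^ r)
      (C / n * Zm n (s n) (g n)) (c / n * Zm n (s n) (g n)) (by positivity) (by positivity)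
      (hN n hn2 (f n) (g n) (hR.box n) (h n) (t n)) hV
    refine h1.trans (le_of_eq ?_)
    field_simp
  -- class moments of the error
  have hDr : ∀ r : ℕ, ∃ C : ℝ, 0 < C ∧ ∀ᶠ n : ℕ in atTop,
      av (Cl n (h n) (t n)) (fun _ => 1) (fun q => |Y n q - X n q| ^ r) ≤
        C * ((n : ℝ) * (Real.log n / Real.sqrt n) ^ r) := by
    intro r
    obtain ⟨C, hC, N, hN⟩ := hM a b ha hab r
    refine ⟨C / c, by positivity, ?_⟩
    filter_upwards [hgood, eventually_ge_atTop N] with n hn hn2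
    obtain ⟨hn1, hZn, hV⟩ := hn
    have hnr : (0 : ℝ) < n := by exact_mod_cast hn1
    have hscn := hscp n hn1
    have hlog : 0 ≤ Real.log n := Real.log_nonneg (by exact_mod_cast hn1)
    obtain ⟨_, _, g3⟩ := hN n hn2 (f n) (g n) (hR.box n)
    have h2 : V n (s n) (g n) (h n) (t n) (fun q => |Y n q - X n q| ^ r) ≤
        C * (n * Real.log n) ^ r * Zm n (s n) (g n) / sc n ^ r := by
      refine (V_le_full n (s n) (g n) (hs0 n) (h n) (t n) _ fun q => by positivity).trans ?_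
      have h3 : ∑ q ∈ Omm n, wm n (s n) (g n) q * |Y n q - X n q| ^ r =
          (∑ q ∈ Omm n, wm n (s n) (g n) q * |(dm q : ℝ) - (am n q : ℝ)| ^ r) / sc n ^ r := by
        rw [Finset.sum_div]
        exact Finset.sum_congr rfl fun q _ => by rw [hdiff n hn1 q r]; ring
      rw [h3]
      exact div_le_div_of_nonneg_right g3 (by positivity)
    have h1 := av_cl_le n (s n) (g n) (hs0 n) (h n) (t n) (fun q => |Y n q - X n q| ^ r)
      _ (c / n * Zm n (s n) (g n)) (by positivity) (by positivity) h2 hV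
    refine h1.trans (le_of_eq ?_)
    rw [← ratio n hn1, div_pow]
    field_simp
  have hcube : Tendsto (fun n => av (Cl n (h n) (t n)) (fun _ => 1)
      (fun q => |Y n q - X n q| ^ 3)) atTop (𝓝 0) := by
    obtain ⟨C, hC, hCn⟩ := hDr 3
    have hl := (lim_main 0).const_mul C
    rw [mul_zero] at hl
    refine squeeze_zero' (Eventually.of_forall fun n =>
      av_nonneg _ _ _ (fun _ _ => zero_le_one) fun _ _ => by positivity) hCn hl
  have hmain := abs_main (fun n => Cl n (h n) (t n)) (fun n => Omm n)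
      (fun _ _ => 1) (fun n => wm n (s n) (g n)) X Y
      (fun _ _ _ => zero_le_one) hw (fun n q => rm_nonneg n q) ?_ ?_ ?_ ?_ ?_
  · obtain ⟨r1, r2, c', hc', r3⟩ := hmain
    refine ⟨fun φ h1 h2 => ?_, ?_, ⟨c', hc', ?_⟩, ?_⟩
    · refine (r1 φ h1 h2).congr fun n => ?_
      rw [av_card]
      rfl
    · refine r2.congr fun n => ?_
      rw [av_card]
      rfl
    · exact r3
    · intro r
      obtain ⟨C1, hC1⟩ := hXr (r + 3)
      obtain ⟨C2, hC2, hC2n⟩ := hDr (r + 3)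
      have hsm := (lim_main r).eventually (ge_mem_nhds (show (0 : ℝ) < 1 from one_pos))
      refine ⟨1 + 2 ^ (r + 3) * (C1 + C2), ?_⟩
      filter_upwards [hC1, hC2n, hsm] with n h1 h2 h3
      have h4 : avQ n (h n) (t n) (fun y => y ^ r) =
          av (Cl n (h n) (t n)) (fun _ => 1) (fun q => Y n q ^ r) := by
        rw [av_card]
        rfl
      rw [h4]
      have h5 : av (Cl n (h n) (t n)) (fun _ => 1) (fun q => Y n q ^ r) ≤
          av (Cl n (h n) (t n)) (fun _ => 1) (fun q => 1 + 2 ^ (r + 3) *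
            (X n q ^ (r + 3) + |Y n q - X n q| ^ (r + 3))) := by
        refine av_mono _ _ _ _ (fun _ _ => zero_le_one) fun q _ => ?_
        have hx : 0 ≤ X n q := rm_nonneg n q
        have hd : 0 ≤ |Y n q - X n q| := abs_nonneg _
        set x := X n q with hx'
        set d := |Y n q - x| with hd'
        have e1 : |Y n q| ≤ x + d := by
          have := abs_add_le x (Y n q - x)
          rw [add_sub_cancel, abs_of_nonneg hx] at this
          exact this
        have e2 : Y n q ^ r ≤ |Y n q| ^ r := by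
          rw [← abs_pow]
          exact le_abs_self _
        have e3 : |Y n q| ^ r ≤ (x + d) ^ r := pow_le_pow_left₀ (abs_nonneg _) e1 r
        have e4 : (x + d) ^ r ≤ 1 + (x + d) ^ (r + 3) := by
          rcases le_total (x + d) 1 with h6 | h6
          · have : (x + d) ^ r ≤ 1 := pow_le_one₀ (by positivity) h6
            have : 0 ≤ (x + d) ^ (r + 3) := by positivity
            linarith
          · have : (x + d) ^ r ≤ (x + d) ^ (r + 3) := pow_le_pow_right₀ h6 (by omega)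
            linarith
        have e5 : (x + d) ^ (r + 3) ≤ 2 ^ (r + 3) * (x ^ (r + 3) + d ^ (r + 3)) := by
          rcases le_total x d with h6 | h6
          · have h7 : (x + d) ^ (r + 3) ≤ (2 * d) ^ (r + 3) :=
              pow_le_pow_left₀ (by positivity) (by linarith) _
            rw [mul_pow] at h7
            have h8 : 0 ≤ x ^ (r + 3) := by positivity
            have h9 : (0 : ℝ) < 2 ^ (r + 3) := by positivity
            nlinarith
          · have h7 : (x + d) ^ (r + 3) ≤ (2 * x) ^ (r + 3) :=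
              pow_le_pow_left₀ (by positivity) (by linarith) _
            rw [mul_pow] at h7
            have h8 : 0 ≤ d ^ (r + 3) := by positivity
            have h9 : (0 : ℝ) < 2 ^ (r + 3) := by positivity
            nlinarith
        linarith
      rw [av_add, av_mul, av_add] at h5
      have h6 := av_one_le (Cl n (h n) (t n)) (fun _ => (1 : ℝ))
      have h7 : C2 * ((n : ℝ) * (Real.log n / Real.sqrt n) ^ (r + 3)) ≤ C2 * 1 :=
        mul_le_mul_of_nonneg_left h3 hC2.le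
      have h8 : (2 : ℝ) ^ (r + 3) * (av (Cl n (h n) (t n)) (fun _ => 1)
          (fun q => X n q ^ (r + 3)) + av (Cl n (h n) (t n)) (fun _ => 1)
          (fun q => |Y n q - X n q| ^ (r + 3))) ≤ 2 ^ (r + 3) * (C1 + C2) := by
        refine mul_le_mul_of_nonneg_left ?_ (by positivity)
        linarith
      linarith
  · -- class averages of the error
    exact cube_to_one (fun n => Cl n (h n) (t n)) (fun _ _ => 1) (fun n q => |Y n q - X n q|)
      (fun _ _ _ => zero_le_one) (fun _ _ => abs_nonneg _) hcube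
  · -- force averages of the error
    obtain ⟨C, hC, N, hN⟩ := hM a b ha hab 1
    have hl := (pow_log_div_sqrt 1).const_mul C
    rw [mul_zero] at hl
    refine squeeze_zero' (Eventually.of_forall fun n =>
      av_nonneg _ _ _ (hw n) fun _ _ => abs_nonneg _) ?_ hl
    filter_upwards [hgood, eventually_ge_atTop N] with n hn hn2
    obtain ⟨hn1, hZn, hV⟩ := hn
    have hscn := hscp n hn1
    obtain ⟨_, _, g3⟩ := hN n hn2 (f n) (g n) (hR.box n)
    have h3 : ∑ q ∈ Omm n, wm n (s n) (g n) q * |Y n q - X n q| =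
        (∑ q ∈ Omm n, wm n (s n) (g n) q * |(dm q : ℝ) - (am n q : ℝ)| ^ 1) / sc n ^ 1 := by
      rw [Finset.sum_div]
      refine Finset.sum_congr rfl fun q _ => ?_
      have := hdiff n hn1 q 1
      rw [pow_one] at this
      rw [this]
      ring
    show (∑ q ∈ Omm n, wm n (s n) (g n) q * |Y n q - X n q|) / Zm n (s n) (g n) ≤ _
    rw [h3, div_le_iff₀ hZn, div_le_iff₀ (by positivity)]
    refine g3.trans (le_of_eq ?_)
    have e : Zm n (Real.exp (-f n)) (g n) = Zm n (s n) (g n) := rfl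
    rw [pow_one, pow_one, pow_one, ← ratio n hn1, e]
    field_simp
  · -- second moments
    obtain ⟨C1, hC1⟩ := hXr 2
    obtain ⟨C2, hC2, N, hN⟩ := hM a b ha hab 2
    refine ⟨max C1 C2, ?_⟩
    filter_upwards [hgood, hC1, eventually_ge_atTop N] with n hn h1 hn2
    obtain ⟨hn1, hZn, hV⟩ := hn
    obtain ⟨g1, _, _⟩ := hN n hn2 (f n) (g n) (hR.box n)
    refine ⟨h1.trans (le_max_left _ _), le_trans ?_ (le_max_right _ _)⟩
    show (∑ q ∈ Omm n, wm n (s n) (g n) q * X n q ^ 2) / Zm n (s n) (g n) ≤ _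
    rw [div_le_iff₀ hZn]
    exact g1
  · intro φ h1 h2
    refine (hR.eqv φ h1 h2).congr fun n => ?_
    rw [av_cl n (s n) (g n) (hs0 n)]
    rfl
  · obtain ⟨C, hC, N, hN⟩ := hM a b ha hab 1
    refine ⟨C⁻¹, by positivity, ?_⟩
    filter_upwards [hgood, eventually_ge_atTop N] with n hn hn2
    obtain ⟨hn1, hZn, hV⟩ := hn
    obtain ⟨_, g2, _⟩ := hN n hn2 (f n) (g n) (hR.box n)
    show _ ≤ (∑ q ∈ Omm n, wm n (s n) (g n) q * X n q) / Zm n (s n) (g n)
    rw [le_div_iff₀ hZn]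
    exact g2

end CLSBm

theorem t_CLSB (hL : LOCA_Stmt) (hM : MOMM_Stmt) (hZ : ZBM_Stmt) (_hH : HGM_Stmt) :
    CLSB_Stmt :=
  CLSBm.main hL hM hZ

end Pool.Agent.TPT
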