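import Pool.Agent.TPT.StmtsA
import Pool.Agent.Lib_helper74.FS.SAPC

/-!
# Project TPT, module CLSM: the classes of polygons
-/

set_option autoImplicit false

namespace Pool.Agent.TPT

open Finset Filter Topology MeasureTheory
open Pool.Agent.Lib27 Pool.Agent.SapR Pool.Agent.AreaLaw Pool.Agent.FL
open Pool.Agent.FS (sc)

namespace CLSM

/-- the class of canonical words -/
lemma sc_pos' {n : ℕ} (hn : 1 ≤ n) : 0 < sc n := by
  have h1 : (1 : ℝ) ≤ n := by exact_mod_cast hn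
  exact lt_of_lt_of_le (by linarith) (FS.SAPC.sc_ge n hn)

lemma mem_MArch' (x : ℤ) (N : ℕ) (a : Wd × ℕ) (h : a ∈ MArch x N) : a.1.length = N := by
  classical
  unfold MArch at h
  rw [mem_filter, mem_product, mem_words] at h
  exact h.1.1

lemma mem_MCap' (x : ℤ) (N : ℕ) (a : Wd × ℕ) (h : a ∈ MCap x N) : a.1.length = N := by
  classical
  unfold MCap at h
  rw [mem_filter] at h
  exact mem_MArch' x N a h.1

lemma dm_le (n : ℕ) (q : QM) (hq : q ∈ Omm n) : |(dm q : ℝ)| ≤ 4 * (n : ℝ) ^ 2 := by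
  classical
  obtain ⟨x, M, T, w⟩ := q
  unfold Omm at hq
  rw [mem_sigma, mem_sigma, mem_product] at hq
  obtain ⟨-, hM, hT, hw⟩ := hq
  simp only at hM hT hw
  rw [mem_range] at hM
  have hT' := mem_MCap' _ _ _ hT
  have hw' := mem_MArch' _ _ _ hw
  have h1 := H66.abs_dbl_le T.1
  have h2 := H66.abs_dbl_le w.1
  rw [hT'] at h1
  rw [hw'] at h2
  have hM2 : M ≤ 2 * n := by omega
  have h3 : |dm ⟨x, M, T, w⟩| ≤ 4 * (n : ℤ) ^ 2 := by
    unfold dm
    simp only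
    have h4 : |dbl 0 w.1 + dbl 0 T.1| ≤ |dbl 0 w.1| + |dbl 0 T.1| := abs_add_le _ _
    have h5 : (((2 * n - M : ℕ) : ℤ)) = 2 * n - M := by
      rw [Nat.cast_sub hM2]
      push_cast
      ring
    rw [h5] at h2
    have h6 : (M : ℤ) ≤ 2 * n := by exact_mod_cast hM2
    have h7 : (0 : ℤ) ≤ M := Nat.cast_nonneg M
    nlinarith
  have h8 : ((|dm ⟨x, M, T, w⟩| : ℤ) : ℝ) ≤ ((4 * (n : ℤ) ^ 2 : ℤ) : ℝ) := by exact_mod_cast h3
  push_cast at h8
  exact h8

lemma area_le (n : ℕ) (s : Fin (2 * n) → Fin 4) : |2 * area n s| ≤ 4 * (n : ℝ) ^ 2 := by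
  rw [FS.SAPC.area2]
  have h1 := H66.abs_dbl_le (List.ofFn s)
  rw [List.length_ofFn] at h1
  have h2 : ((|dbl 0 (List.ofFn s)| : ℤ) : ℝ) ≤ (((2 * n : ℕ) : ℤ) ^ 2 : ℤ) := by exact_mod_cast h1
  push_cast at h2
  push_cast
  rw [abs_abs]
  nlinarith

/-- the size of the rescaled values -/
lemma scaled_le (n : ℕ) (hn : 1 ≤ n) (y : ℝ) (hy : |y| ≤ 4 * (n : ℝ) ^ 2) : |y / sc n| ≤ 4 * n := by
  rw [abs_div, abs_of_pos (sc_pos' hn)]
  exact (FS.SAPC.scaled_le n hn y hy).2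

/-- the number of pairs without a cut between the origin and the mark at the point `z` -/
noncomputable def N0 (n : ℕ) (z : ℤ × ℤ) : ℝ :=
  open Classical in
  ∑ w ∈ SAP n, (((range (2 * n)).filter (fun j => NoB n w j ∧ pos n w j = z)).card : ℝ)

lemma N0_nonneg (n : ℕ) (z : ℤ × ℤ) : 0 ≤ N0 n z := by
  unfold N0
  exact Finset.sum_nonneg fun _ _ => Nat.cast_nonneg _

/-- the class of canonical words -/
noncomputable def cq (n h : ℕ) (t : ℤ) : Finset QM := (Omm n).filter (fun q => zl q = h ∧ zt q = t)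

/-- comparison of the means -/
lemma cmpm (hA : CLSA_Stmt) (n : ℕ) (hn : 1 ≤ n) (z : ℤ × ℤ) (h : ℕ) (t : ℤ) (hz1 : lev z = h)
    (hz2 : lat z = t) (φ : ℝ → ℝ) (B : ℝ) (hB : 0 ≤ B) (hφ : ∀ y : ℝ, |y| ≤ 4 * n → |φ y| ≤ B)
    (hN : 0 < ((cq n h t).card : ℝ)) :
    0 < (Thr n z).card ∧ |avT n z φ - avQ n h t φ| ≤ B * (N0 n z / (cq n h t).card) := by
  classical
  have hset : (Omm n).filter (fun q => (zl q : ℤ) = lev z ∧ zt q = lat z) = cq n h t := by
    unfold cq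
    ext q
    rw [mem_filter, mem_filter, hz1, hz2]
    norm_cast
  have key : ∀ ψ : ℝ → ℝ, ∑ w ∈ Thr n z, ψ (2 * area n w / sc n) =
      2 * ∑ q ∈ cq n h t, ψ (dm q / sc n) +
      ∑ w ∈ SAP n, ∑ j ∈ (range (2 * n)).filter (fun j => NoB n w j ∧ pos n w j = z),
        ψ (2 * area n w / sc n) := by
    intro ψ
    have h1 := hA n z (fun y => ψ (y / sc n)) hn
    rw [hset] at h1
    exact h1
  have h2 := key fun _ => 1
  simp only [Finset.sum_const, nsmul_eq_mul, mul_one] at h2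
  have h2' : ((Thr n z).card : ℝ) = 2 * ((cq n h t).card : ℝ) + N0 n z := h2
  have hN0 := N0_nonneg n z
  constructor
  · have h3 : (0 : ℝ) < ((Thr n z).card : ℝ) := by
      rw [h2']
      positivity
    exact_mod_cast h3
  · unfold avT avQ
    rw [key φ, h2']
    have h3 := FS.SAPC.ratio 2 (∑ q ∈ cq n h t, φ (dm q / sc n))
      ((cq n h t).card : ℝ)
      (∑ w ∈ SAP n, ∑ j ∈ (range (2 * n)).filter (fun j => NoB n w j ∧ pos n w j = z),
        φ (2 * area n w / sc n)) (N0 n z) B two_pos hN hN0 hB ?_ ?_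
    · refine h3.trans (le_of_eq ?_)
      field_simp
    · refine (Finset.abs_sum_le_sum_abs _ _).trans ?_
      rw [mul_comm, ← nsmul_eq_mul]
      refine Finset.sum_le_card_nsmul _ _ _ fun q hq => ?_
      exact hφ _ (scaled_le n hn _ (dm_le n q (Finset.mem_filter.1 hq).1))
    · refine (Finset.abs_sum_le_sum_abs _ _).trans ?_
      unfold N0
      rw [Finset.mul_sum]
      refine Finset.sum_le_sum fun w _ => ?_
      refine (Finset.abs_sum_le_sum_abs _ _).trans ?_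
      refine (Finset.sum_le_card_nsmul _ _ B fun j _ => ?_).trans (le_of_eq ?_)
      · exact hφ _ (scaled_le n hn _ (area_le n w))
      · rw [nsmul_eq_mul, mul_comm]

/-- the exceptional pairs are few -/
lemma small (hH : HGM_Stmt) (n : ℕ) (hn : 1 ≤ n) (z : ℤ × ℤ) (h : ℕ) (t : ℤ) (hz1 : lev z = h)
    (hz2 : lat z = t) (f g rho C θ c : ℝ) (hC : 0 < C) (hθ : 0 < θ) (hc : 0 < c) (hrho : 0 < rho)
    (hT : TailsM C θ n f g rho) (hZ : C⁻¹ ≤ sc n * rho ^ n * Zm n (Real.exp (-f)) g)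
    (hlow : c / n * Zm n (Real.exp (-f)) g ≤ UM n (Real.exp (-f)) g h t (fun _ => 1)) :
    0 < ((cq n h t).card : ℝ) ∧ N0 n z / (cq n h t).card ≤ C ^ 2 * (n : ℝ) ^ 5 * θ ^ n * c⁻¹ := by
  classical
  have h1 : (1 : ℝ) ≤ n := by exact_mod_cast hn
  have hn0 : (0 : ℝ) < n := by linarith
  have hsc : 0 < sc n := sc_pos' hn
  have hr : 0 < rho ^ n := pow_pos hrho n
  have hZm : 0 < Zm n (Real.exp (-f)) g := by
    by_contra hneg
    push Not at hneg
    have h2 : sc n * rho ^ n * Zm n (Real.exp (-f)) g ≤ 0 :=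
      mul_nonpos_of_nonneg_of_nonpos (by positivity) hneg
    have hCi : 0 < C⁻¹ := inv_pos.2 hC
    linarith
  have hUM0 : 0 < UM n (Real.exp (-f)) g h t (fun _ => 1) := by
    refine lt_of_lt_of_le ?_ hlow
    positivity
  -- the class is not empty
  have hNat : 0 < (cq n h t).card := by
    rw [Finset.card_pos]
    by_contra hne
    rw [Finset.not_nonempty_iff_eq_empty] at hne
    have h2 : UM n (Real.exp (-f)) g h t (fun _ => 1) = 0 := by
      unfold UM
      change ∑ q ∈ cq n h t, _ = 0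
      rw [hne, Finset.sum_empty]
    linarith
  have hN : 0 < ((cq n h t).card : ℝ) := by exact_mod_cast hNat
  obtain ⟨q0, hq0⟩ := Finset.card_pos.1 hNat
  have hhn : h ≤ n := by
    have h2 := Finset.mem_filter.1 hq0
    have h3 := (hH.2.2.2 n q0 h2.1).1
    omega
  -- the weight of the class
  obtain ⟨W, hW⟩ : ∃ W : ℝ, W = Real.exp (-(f * n)) * Real.exp (f * h + g * t) := ⟨_, rfl⟩
  have hW0 : 0 < W := by
    rw [hW]
    positivity
  have hUM : UM n (Real.exp (-f)) g h t (fun _ => 1) = W * (cq n h t).card := by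
    unfold UM
    change ∑ q ∈ cq n h t, _ = _
    rw [mul_comm, ← nsmul_eq_mul, ← Finset.sum_const]
    refine Finset.sum_congr rfl fun q hq => ?_
    have h2 := (Finset.mem_filter.1 hq).2
    unfold wm
    rw [h2.1, h2.2, hW, mul_one, ← Real.exp_nat_mul, ← Real.exp_add, ← Real.exp_add, Nat.cast_sub hhn]
    congr 1
    ring
  -- the exceptional pairs
  have hE : rho ^ n * (W * N0 n z) ≤ C * (n : ℝ) ^ 2 * θ ^ n := by
    refine le_trans ?_ hT.2.2
    unfold N0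
    rw [Finset.mul_sum, Finset.mul_sum]
    refine Finset.sum_le_sum fun w _ => ?_
    have hsub : (range (2 * n)).filter (fun j => NoB n w j ∧ pos n w j = z) ⊆
        (range (2 * n)).filter (fun j => NoB n w j) := by
      intro j hj
      rw [mem_filter] at hj ⊢
      exact ⟨hj.1, hj.2.1⟩
    refine le_trans ?_ (Finset.sum_le_sum_of_subset_of_nonneg hsub fun j _ _ => by positivity)
    have h3 : ∑ j ∈ (range (2 * n)).filter (fun j => NoB n w j ∧ pos n w j = z),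
        rho ^ n * Real.exp (-(f * n)) * Real.exp (f * slev n w j + g * lat (pos n w j)) =
        ∑ j ∈ (range (2 * n)).filter (fun j => NoB n w j ∧ pos n w j = z), rho ^ n * W := by
      refine Finset.sum_congr rfl fun j hj => ?_
      have h4 := (Finset.mem_filter.1 hj).2.2
      unfold slev
      rw [h4, hz1, hz2, hW]
      push_cast
      ring
    rw [h3, Finset.sum_const, nsmul_eq_mul]
    refine le_of_eq ?_
    ring
  refine ⟨hN, ?_⟩
  rw [div_le_iff₀ hN]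
  have hsc2 : sc n ≤ (n : ℝ) ^ 2 := by
    unfold FS.sc
    have h2 : Real.sqrt n ≤ n := by
      rw [Real.sqrt_le_left (by positivity)]
      nlinarith
    nlinarith
  -- `1 ≤ C * sc * rho ^ n * Zm`, `Zm ≤ n / c * W * N`
  have h4 : 1 ≤ C * (sc n * rho ^ n * Zm n (Real.exp (-f)) g) := by
    have := mul_le_mul_of_nonneg_left hZ hC.le
    rwa [mul_inv_cancel₀ hC.ne'] at this
  have h5 : Zm n (Real.exp (-f)) g ≤ n * c⁻¹ * (W * (cq n h t).card) := by
    rw [hUM] at hlow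
    have h6 := mul_le_mul_of_nonneg_left hlow (show (0 : ℝ) ≤ n * c⁻¹ by positivity)
    refine le_trans (le_of_eq ?_) h6
    field_simp
  have h7 : rho ^ n * (W * N0 n z) ≤ rho ^ n * (W *
      (C ^ 2 * (n : ℝ) ^ 5 * θ ^ n * c⁻¹ * (cq n h t).card)) := by
    calc rho ^ n * (W * N0 n z) ≤ C * (n : ℝ) ^ 2 * θ ^ n * 1 := by rw [mul_one]; exact hE
      _ ≤ C * (n : ℝ) ^ 2 * θ ^ n * (C * (sc n * rho ^ n * Zm n (Real.exp (-f)) g)) :=
          mul_le_mul_of_nonneg_left h4 (by positivity)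
      _ ≤ C * (n : ℝ) ^ 2 * θ ^ n * (C * ((n : ℝ) ^ 2 * rho ^ n *
            (n * c⁻¹ * (W * (cq n h t).card)))) := by
          refine mul_le_mul_of_nonneg_left (mul_le_mul_of_nonneg_left ?_ hC.le) (by positivity)
          exact mul_le_mul (mul_le_mul_of_nonneg_right hsc2 hr.le) h5 hZm.le (by positivity)
      _ = _ := by ring
  exact le_of_mul_le_mul_left (le_of_mul_le_mul_left h7 hr) hW0

lemma lim_err (C c θ : ℝ) (hθ : 0 < θ) (hθ1 : θ < 1) (r : ℕ) :
    Tendsto (fun n : ℕ => (4 * (n : ℝ)) ^ r * (C ^ 2 * (n : ℝ) ^ 5 * θ ^ n * c⁻¹)) atTop (𝓝 0) := by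
  have e3 : Tendsto (fun n : ℕ => (n : ℝ) ^ (r + 5) * θ ^ n) atTop (𝓝 0) :=
    tendsto_pow_const_mul_const_pow_of_lt_one (r + 5) hθ.le hθ1
  have h := e3.const_mul (4 ^ r * C ^ 2 * c⁻¹)
  rw [mul_zero] at h
  refine h.congr fun n => ?_
  rw [mul_pow, pow_add]
  ring

end CLSM

open CLSM in
/-- CLSM -/
theorem t_CLSM (hA : CLSA_Stmt) (hB : CLSB_Stmt) (hZ : ZBM_Stmt) (hH : HGM_Stmt) :
    CLSM_Stmt := by
  classical
  intro a b ha hab f g h t hreg z hz
  obtain ⟨C, θ, hC, hθ, hθ1, N, hZB⟩ := hZ a b ha hab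
  obtain ⟨c, hc, hlow⟩ := hreg.low
  -- the main estimate
  have hev : ∀ᶠ n : ℕ in atTop, 1 ≤ n ∧ 0 < (Thr n (z n)).card ∧
      ∀ (φ : ℝ → ℝ) (B : ℝ), 0 ≤ B → (∀ y : ℝ, |y| ≤ 4 * n → |φ y| ≤ B) →
        |avT n (z n) φ - avQ n (h n) (t n) φ| ≤ B * (C ^ 2 * (n : ℝ) ^ 5 * θ ^ n * c⁻¹) := by
    filter_upwards [hz, hlow, eventually_ge_atTop (max N 1)] with n hzn hln hn
    have hn1 : 1 ≤ n := (le_max_right _ _).trans hn
    obtain ⟨rho, hcrit, htails, -, -, hz1, -⟩ := hZB n ((le_max_left _ _).trans hn) (f n) (g n)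
      (hreg.box n)
    obtain ⟨hN, hsm⟩ := small hH n hn1 (z n) (h n) (t n) hzn.1 hzn.2 (f n) (g n) rho C θ c hC hθ hc
      hcrit.1 htails hz1 hln
    refine ⟨hn1, (cmpm hA n hn1 (z n) (h n) (t n) hzn.1 hzn.2 (fun _ => 0) 0 le_rfl
      (fun _ _ => by rw [abs_zero]) hN).1, fun φ B hB hφ => ?_⟩
    refine (cmpm hA n hn1 (z n) (h n) (t n) hzn.1 hzn.2 φ B hB hφ hN).2.trans ?_
    exact mul_le_mul_of_nonneg_left hsm hB
  refine ⟨hev.mono fun n hn => hn.2.1, fun φ hφ => ?_, fun r => ?_⟩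
  · refine squeeze_zero_norm' ?_ (lim_err C c θ hθ hθ1 0)
    filter_upwards [hev] with n hn
    rw [Real.norm_eq_abs, pow_zero]
    exact hn.2.2 φ 1 zero_le_one fun y _ => hφ y
  · refine squeeze_zero_norm' ?_ (lim_err C c θ hθ hθ1 r)
    filter_upwards [hev] with n hn
    rw [Real.norm_eq_abs]
    refine hn.2.2 (fun y => y ^ r) ((4 * (n : ℝ)) ^ r) (by positivity) fun y hy => ?_
    rw [abs_pow]
    exact pow_le_pow_left₀ (abs_nonneg _) hy r

end Pool.Agent.TPT
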