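import Pool.Agent.TPT.StmtsB

/-!
# TPT_DATB: class bounds of the kernel data with one constant (MP_f6626d_co)
-/

set_option autoImplicit false

namespace Pool.Agent.TPT.DATB

open Finset Filter Topology MeasureTheory
open Pool.Agent.Lib27 Pool.Agent.SapR Pool.Agent.AreaLaw
open Pool.Agent.FL (Wd hl htn CritSrc)
open Pool.Agent.FL.GE (sr)

lemma tails_mono {C C' θ θ' : ℝ} {n : ℕ} {f g rho : ℝ} (hC : 0 ≤ C) (hCC : C ≤ C')
    (hθ : 0 ≤ θ) (hθθ : θ ≤ θ') (h : TailsM C θ n f g rho) : TailsM C' θ' n f g rho := by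
  have h1 : ∀ m : ℕ, C * θ ^ m ≤ C' * θ' ^ m := fun m =>
    mul_le_mul hCC (pow_le_pow_left₀ hθ hθθ m) (pow_nonneg hθ m) (hC.trans hCC)
  refine ⟨fun m => (h.1 m).trans (h1 m), fun m => (h.2.1 m).trans (h1 m), h.2.2.trans ?_⟩
  have h2 := h1 n
  have hn : (0 : ℝ) ≤ (n : ℝ) ^ 2 := by positivity
  calc C * (n : ℝ) ^ 2 * θ ^ n = (n : ℝ) ^ 2 * (C * θ ^ n) := by ring
    _ ≤ (n : ℝ) ^ 2 * (C' * θ' ^ n) := mul_le_mul_of_nonneg_left h2 hn
    _ = _ := by ring

/-- the critical weight is unique -/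
lemma crit_unique {n : ℕ} {s g x y : ℝ} (hs : 0 < s) (h1 : CritM n s g x) (h2 : CritM n s g y)
    (hhl : ∀ p ∈ Pc (2 * n - 1), 1 ≤ hl p) : x = y := by
  by_contra hne
  have key : ∀ a b : ℝ, 0 < a → a < b → ∑ p ∈ Pc (2 * n - 1), wp s g a p = 1 →
      ∑ p ∈ Pc (2 * n - 1), wp s g b p = 1 → False := by
    intro a b ha hab h1 h2
    have hne : (Pc (2 * n - 1)).Nonempty := by
      by_contra hE
      rw [Finset.not_nonempty_iff_eq_empty] at hE
      rw [hE] at h1
      simp at h1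
    have h3 : ∑ p ∈ Pc (2 * n - 1), wp s g a p < ∑ p ∈ Pc (2 * n - 1), wp s g b p := by
      refine Finset.sum_lt_sum_of_nonempty hne fun p hp => ?_
      unfold wp
      refine mul_lt_mul_of_pos_right (mul_lt_mul_of_pos_right ?_ (pow_pos hs _)) (Real.exp_pos _)
      exact pow_lt_pow_left₀ hab ha.le (by have := hhl p hp; omega)
    rw [h1, h2] at h3
    exact lt_irrefl _ h3
  rcases lt_or_gt_of_ne hne with h | h
  · exact key x y h1.1 h h1.2 h2.2
  · exact key y x h2.1 h h2.2 h1.2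

lemma capMass {C θ : ℝ} {G : TPK.GapKernel} {C0 : ℕ} {s : ℕ → ℤ → ℝ}
    (hs : TPK.ClsCap C θ G C0 s) (m : ℕ) (g : ℤ) : G.rho ^ m * s m g ≤ C * θ ^ m := by
  have hrho := G.rho_pos
  by_cases hg : g ∈ Icc (1 : ℤ) m
  · refine le_trans ?_ (hs.dec m)
    exact Finset.single_le_sum (f := fun g => G.rho ^ m * s m g)
      (fun g _ => mul_nonneg (pow_nonneg hrho.le _) (hs.cap.nonneg m g)) hg
  · have h0 : s m g = 0 := by
      rw [Finset.mem_Icc, not_and_or] at hg
      rcases hg with hg | hg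
      · exact hs.cap.supp_g m g (Or.inl (by omega))
      · exact hs.supp m g (by omega)
    rw [h0, mul_zero]
    refine le_trans (Finset.sum_nonneg fun g _ => ?_) (hs.dec m)
    exact mul_nonneg (pow_nonneg hrho.le _) (hs.cap.nonneg m g)

lemma critSrc_sr {C θ : ℝ} (hC : 0 < C) (hθ : 0 < θ) (hθ1 : θ < 1) {G : TPK.GapKernel}
    (hG : TPK.Cls C θ G) {C0 : ℕ} {s : ℕ → ℤ → ℝ} (hs : TPK.ClsCap C θ G C0 s) :
    CritSrc (C ^ 2 + C / (1 - θ)) θ C0 (sr G.rho C0 s) where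
  nonneg g := Finset.sum_nonneg fun m _ =>
    mul_nonneg (pow_nonneg G.rho_pos.le _) (hs.cap.nonneg m g)
  supp g hg := by
    refine Finset.sum_eq_zero fun m _ => ?_
    rw [hs.cap.supp_g m g hg, mul_zero]
  one := by
    have h1θ : 0 < 1 - θ := by linarith
    have hC0 : 1 ≤ C0 := by
      by_contra hcon
      have h1 := hs.cap.supp_m 1 1 (by omega)
      have h2 := hs.one
      rw [h1] at h2
      have := inv_pos.mpr hC
      linarith
    have h1 : G.rho ^ 1 * s 1 1 ≤ sr G.rho C0 s 1 := by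
      refine Finset.single_le_sum (f := fun m => G.rho ^ m * s m 1)
        (fun m _ => mul_nonneg (pow_nonneg G.rho_pos.le _) (hs.cap.nonneg m 1)) ?_
      rw [Finset.mem_range]
      omega
    refine le_trans ?_ h1
    rw [pow_one]
    calc (C ^ 2 + C / (1 - θ))⁻¹ ≤ (C ^ 2)⁻¹ := by
          refine inv_anti₀ (by positivity) ?_
          have : 0 < C / (1 - θ) := by positivity
          linarith
      _ = C⁻¹ * C⁻¹ := by rw [sq, mul_inv]
      _ ≤ G.rho * s 1 1 := by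
          have := inv_pos.mpr hC
          exact mul_le_mul hG.rho_ge hs.one this.le G.rho_pos.le
  dec g := by
    have h1θ : 0 < 1 - θ := by linarith
    have h1 : sr G.rho C0 s (g : ℤ) ≤ ∑ m ∈ range (C0 + 1), (if g ≤ m then C * θ ^ m else 0) := by
      refine Finset.sum_le_sum fun m _ => ?_
      split_ifs with h
      · exact capMass hs m g
      · rw [hs.supp m g (by omega), mul_zero]
    have h2 : ∑ m ∈ range (C0 + 1), (if g ≤ m then C * θ ^ m else 0) ≤ C / (1 - θ) * θ ^ g := by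
      rw [← Finset.sum_filter]
      have hsm : Summable fun m : ℕ => θ ^ m := summable_geometric_of_lt_one hθ.le hθ1
      have h3 : ∑ m ∈ (range (C0 + 1)).filter (fun m => g ≤ m), C * θ ^ m
          = ∑ k ∈ ((range (C0 + 1)).filter (fun m => g ≤ m)).image (fun m => m - g),
            C * θ ^ (k + g) := by
        rw [Finset.sum_image]
        · refine Finset.sum_congr rfl fun m hm => ?_
          rw [Finset.mem_filter] at hm
          rw [Nat.sub_add_cancel hm.2]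
        · intro a ha b hb hab
          simp only [Finset.coe_filter, Set.mem_ofPred_eq] at ha hb hab
          omega
      rw [h3]
      calc ∑ k ∈ ((range (C0 + 1)).filter (fun m => g ≤ m)).image (fun m => m - g),
            C * θ ^ (k + g)
          = (C * θ ^ g) * ∑ k ∈ ((range (C0 + 1)).filter (fun m => g ≤ m)).image
            (fun m => m - g), θ ^ k := by
            rw [Finset.mul_sum]
            refine Finset.sum_congr rfl fun k _ => ?_
            ring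
        _ ≤ (C * θ ^ g) * ∑' k : ℕ, θ ^ k := by
            refine mul_le_mul_of_nonneg_left ?_ (by positivity)
            exact hsm.sum_le_tsum _ fun k _ => by positivity
        _ = _ := by
            rw [tsum_geometric_of_lt_one hθ.le hθ1]
            ring
    refine (h1.trans h2).trans ?_
    refine mul_le_mul_of_nonneg_right ?_ (by positivity)
    have : 0 < C ^ 2 := by positivity
    linarith

/-- the critical source of a cap, in the class with parameter `M ^ 3` -/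
lemma crit_sr {M : ℝ} (hM : 2 ≤ M) {G : TPK.GapKernel} (hG : TPK.Cls M (1 - M⁻¹) G) {C0 : ℕ}
    {s : ℕ → ℤ → ℝ} (hs : TPK.ClsCap M (1 - M⁻¹) G C0 s) :
    CritSrc (M ^ 3) (1 - (M ^ 3)⁻¹) C0 (sr G.rho C0 s) := by
  have hM0 : 0 < M := by linarith
  have hi : M⁻¹ ≤ 1 / 2 := by
    rw [← one_div]
    exact one_div_le_one_div_of_le (by norm_num) hM
  have hi0 : 0 < M⁻¹ := inv_pos.2 hM0
  have h := critSrc_sr hM0 (show 0 < 1 - M⁻¹ by linarith) (show 1 - M⁻¹ < 1 by linarith) hG hs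
  have e1 : M ^ 2 + M / (1 - (1 - M⁻¹)) = 2 * M ^ 2 := by
    rw [sub_sub_cancel]
    field_simp
    ring
  rw [e1] at h
  have h23 : 2 * M ^ 2 ≤ M ^ 3 := by nlinarith [sq_nonneg M]
  have hM3 : M ≤ M ^ 3 := le_self_pow₀ (by linarith) (by norm_num)
  have h3 : (0 : ℝ) < M ^ 3 := by positivity
  refine ⟨h.nonneg, h.supp, ?_, fun g => ?_⟩
  · refine le_trans ?_ h.one
    exact inv_anti₀ (by positivity) h23
  · refine (h.dec g).trans ?_
    have h4 : (M ^ 3)⁻¹ ≤ M⁻¹ := inv_anti₀ hM0 hM3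
    have h5 : (1 - M⁻¹) ^ g ≤ (1 - (M ^ 3)⁻¹) ^ g :=
      pow_le_pow_left₀ (by linarith) (by linarith) g
    have h6 : 0 ≤ (1 - M⁻¹) ^ g := pow_nonneg (by linarith) g
    calc 2 * M ^ 2 * (1 - M⁻¹) ^ g ≤ M ^ 3 * (1 - M⁻¹) ^ g :=
          mul_le_mul_of_nonneg_right h23 h6
      _ ≤ M ^ 3 * (1 - (M ^ 3)⁻¹) ^ g := mul_le_mul_of_nonneg_left h5 h3.le

end Pool.Agent.TPT.DATB

namespace Pool.Agent.TPT

open Finset Filter Topology MeasureTheory
open Pool.Agent.Lib27 Pool.Agent.SapR Pool.Agent.AreaLaw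
open Pool.Agent.FL (Wd hl htn HG_Stmt)

theorem t_DATB (hT : TMG_Stmt) (hK : KWM_Stmt) (hV : TPK.QGV_Stmt) (hg : HG_Stmt) :
    DATB_Stmt := by
  intro a b ha hab
  obtain ⟨C, θ, hC, hθ, hθ1, N, hN⟩ := hT a b ha hab
  obtain ⟨K, hV⟩ := hV
  obtain ⟨M, hM⟩ : ∃ M : ℝ, M = max (max C 2) (1 - θ)⁻¹ := ⟨_, rfl⟩
  have hMC : C ≤ M := by
    rw [hM]; exact (le_max_left _ _).trans (le_max_left _ _)
  have hM2 : 2 ≤ M := by
    rw [hM]; exact (le_max_right _ _).trans (le_max_left _ _)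
  have hMt : (1 - θ)⁻¹ ≤ M := by
    rw [hM]; exact le_max_right _ _
  have hM0 : 0 < M := by linarith
  have hMi : M⁻¹ ≤ 1 / 2 := by
    rw [← one_div]
    exact one_div_le_one_div_of_le (by norm_num) hM2
  have hMi0 : 0 < M⁻¹ := inv_pos.2 hM0
  have hθM : θ ≤ 1 - M⁻¹ := by
    have h1 := inv_anti₀ (inv_pos.2 (show 0 < 1 - θ by linarith)) hMt
    rw [inv_inv] at h1
    linarith
  have hM3 : M ≤ M ^ 3 := le_self_pow₀ (by linarith) (by norm_num)
  have hE1 : (1 : ℝ) ≤ (M ^ 3) ^ K := one_le_pow₀ (by linarith)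
  have hE2 : 2 ≤ Real.exp ((M ^ 3) ^ K) := by
    have := Real.add_one_le_exp ((M ^ 3) ^ K)
    linarith
  obtain ⟨D, hD⟩ : ∃ D : ℝ, D = max M (Real.exp ((M ^ 3) ^ K)) := ⟨_, rfl⟩
  have hDM : M ≤ D := by rw [hD]; exact le_max_left _ _
  have hDE : Real.exp ((M ^ 3) ^ K) ≤ D := by rw [hD]; exact le_max_right _ _
  refine ⟨D, hM2.trans hDM, max N 3, le_max_right _ _, fun n hn f g hbox => ?_⟩
  obtain ⟨hf1, hf2, hg'⟩ := hbox
  have hn3 : 3 ≤ n := (le_max_right _ _).trans hn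
  obtain ⟨rho, hcrit, htails, hrho1, hrho2⟩ := hN n ((le_max_left _ _).trans hn) f g hf1 hf2 hg'
  have hs := Real.exp_pos (-f)
  have hs1 : Real.exp (-f) ≤ 1 := by
    rw [Real.exp_le_one_iff]
    linarith
  obtain ⟨d⟩ := hK n (Real.exp (-f)) g hn3 hs hs1
  have hrho : d.G.rho = rho := DATB.crit_unique hs d.crit hcrit
    (fun p hp => (hg.2.2 _ p hp).1.trans (hg.2.2 _ p hp).2)
  rw [← hrho] at hcrit htails hrho1 hrho2
  have ht : TailsM M (1 - M⁻¹) n f g d.G.rho :=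
    DATB.tails_mono hC.le hMC hθ.le hθM htails
  have hcls : TPK.Cls M (1 - M⁻¹) d.G :=
    ⟨d.loc, (inv_anti₀ hC hMC).trans hrho1, fun m => (d.tot m).le.trans (ht.1 m)⟩
  have hcap : TPK.ClsCap M (1 - M⁻¹) d.G (2 * n) (capM n (Real.exp (-f)) g) := by
    refine ⟨d.cap, le_trans (by linarith) d.cap1, d.capz, fun m => ?_⟩
    refine le_trans (Finset.sum_le_sum fun x hx => ?_) (ht.2.1 m)
    rw [Finset.mem_Icc] at hx
    have h0 : 0 ≤ ∑ a ∈ MCap x (2 * m), d.G.rho ^ m * Real.exp (-f) ^ (m - mlev a) *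
        Real.exp (g * mlat x a) := Finset.sum_nonneg fun a _ => by
      have := d.G.rho_pos
      positivity
    unfold capM
    split_ifs with h
    · rw [Finset.mul_sum]
      refine le_of_eq (Finset.sum_congr rfl fun a _ => ?_)
      ring
    · rw [mul_zero]
      exact h0
  obtain ⟨V, hVs⟩ := hV (M ^ 3) (hM2.trans hM3) d.G (TPK.cls_mono hM2 hM3 hcls) _ _
    (DATB.crit_sr hM2 hcls hcap)
  refine ⟨d, TPK.cls_mono hM2 hDM hcls, TPK.clsCap_mono hM2 hDM hcap,
    ⟨V, TPK.critSol_mono hE2 hDE hVs⟩, DATB.tails_mono hM0.le hDM (by linarith) ?_ ht, hrho2⟩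
  have h1 : D⁻¹ ≤ M⁻¹ := inv_anti₀ hM0 hDM
  linarith

end Pool.Agent.TPT
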