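import Pool.Agent.TPT.StmtsA
import Pool.Agent.Lib_helper74.FS.EQ

/-!
# Project TPT: equivalence of the ensembles (module EQM)
-/

set_option autoImplicit false

namespace Pool.Agent.TPT.EQM

open Finset Filter Topology MeasureTheory
open Pool.Agent.Lib27 Pool.Agent.SapR Pool.Agent.AreaLaw Pool.Agent.FL
open Pool.Agent.FS (sc)
open Pool.Agent.FS.EQ (chi chi_nonneg chi_le_one chi_abs chi_continuous chi_supp chi_half
  sq_le_exp compare)

lemma wm_nonneg (n : ℕ) (s g : ℝ) (hs : 0 ≤ s) (q : QM) : 0 ≤ wm n s g q := by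
  unfold wm
  positivity

lemma Zm_nonneg (n : ℕ) (s g : ℝ) (hs : 0 ≤ s) : 0 ≤ Zm n s g :=
  Finset.sum_nonneg fun q _ => wm_nonneg n s g hs q

/-- the index set of the pairs (level, lateral coordinate) -/
noncomputable def KS (n h : ℕ) (t : ℤ) : Finset (ℕ × ℤ) :=
  ((range (2 * n + h + 1)) ×ˢ (Icc (-(3 * (n : ℤ) + |t|)) (3 * (n : ℤ) + |t|))).filter
    (fun p => Even ((p.1 : ℤ) + p.2))

/-- the product of the hat functions -/
noncomputable def ch (d : ℝ) (n h : ℕ) (t : ℤ) (p : ℕ × ℤ) : ℝ :=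
  chi d (((p.1 : ℝ) - h) / Real.sqrt n) * chi d (((p.2 : ℝ) - t) / Real.sqrt n)

lemma ch_nonneg (d : ℝ) (n h : ℕ) (t : ℤ) (p : ℕ × ℤ) : 0 ≤ ch d n h t p :=
  mul_nonneg (chi_nonneg _ _) (chi_nonneg _ _)

/-- grouping by the difference of the marks -/
lemma sum_group (hH : HGM_Stmt) (n h : ℕ) (t : ℤ) (s g : ℝ) (c : ℕ × ℤ → ℝ) (φ : ℝ → ℝ) :
    ∑ q ∈ Omm n, wm n s g q * (c (zl q, zt q) * φ (rm n q)) =
      ∑ p ∈ KS n h t, c p * UM n s g p.1 p.2 φ := by
  have hmap : ∀ q ∈ Omm n, (zl q, zt q) ∈ KS n h t := by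
    intro q hq
    obtain ⟨h1, h2, h3, _⟩ := hH.2.2.2 n q hq
    unfold KS
    rw [mem_filter, mem_product, mem_range, mem_Icc]
    rw [abs_le] at h2
    have h4 := abs_nonneg t
    refine ⟨⟨?_, ?_, ?_⟩, h3⟩
    · simp only
      omega
    · simp only
      omega
    · simp only
      omega
  rw [← Finset.sum_fiberwise_of_maps_to (s := Omm n) (t := KS n h t)
    (g := fun q => (zl q, zt q)) hmap]
  refine sum_congr rfl fun p _ => ?_
  unfold UM
  rw [mul_sum]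
  have hf : (Omm n).filter (fun q => (zl q, zt q) = p) =
      (Omm n).filter (fun q => zl q = p.1 ∧ zt q = p.2) := by
    refine filter_congr fun q _ => ?_
    rw [Prod.ext_iff]
  rw [hf]
  refine sum_congr rfl fun q hq => ?_
  have h5 := (mem_filter.1 hq).2
  have h6 : (zl q, zt q) = p := Prod.ext h5.1 h5.2
  rw [h6]
  ring

/-- lower bound for the sum of the hat functions -/
lemma sum_ch (d : ℝ) (hd : 0 < d) (hd1 : d ≤ 1) (n h : ℕ) (t : ℤ) (hn : 1 ≤ n)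
    (he : Even ((h : ℤ) + t)) :
    d ^ 2 / 16 * n / 4 ≤ ∑ p ∈ KS n h t, ch d n h t p := by
  have hn1 : (1 : ℝ) ≤ n := by exact_mod_cast hn
  have hs : 0 < Real.sqrt n := Real.sqrt_pos.2 (by linarith)
  have hsn : Real.sqrt n ≤ n := by
    rw [Real.sqrt_le_left (by linarith)]
    nlinarith
  obtain ⟨m, hm⟩ : ∃ m : ℕ, m = ⌊d * Real.sqrt n / 4⌋₊ := ⟨_, rfl⟩
  have hpos : 0 ≤ d * Real.sqrt n / 4 := by positivity
  have hm1 : (m : ℝ) ≤ d * Real.sqrt n / 4 := by rw [hm]; exact Nat.floor_le hpos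
  have hm2 : d * Real.sqrt n / 4 < (m : ℝ) + 1 := by rw [hm]; exact Nat.lt_floor_add_one _
  have hmn : 4 * m ≤ n := by
    have : (4 : ℝ) * m ≤ n := by nlinarith
    exact_mod_cast this
  let F : ℕ × ℕ → ℕ × ℤ := fun ij => (h + ij.1 + ij.2, t + ij.1 - ij.2)
  have hinj : Set.InjOn F (((range (m + 1)) ×ˢ (range (m + 1)) : Finset (ℕ × ℕ)) : Set (ℕ × ℕ)) := by
    rintro ⟨a, b⟩ _ ⟨c, e⟩ _ hab
    have h1 := (Prod.ext_iff.1 hab).1
    have h2 := (Prod.ext_iff.1 hab).2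
    simp only [F] at h1 h2
    refine Prod.ext ?_ ?_
    · simp only; omega
    · simp only; omega
  have hsub : ((range (m + 1)) ×ˢ (range (m + 1))).image F ⊆ KS n h t := by
    intro k hk
    rw [mem_image] at hk
    obtain ⟨⟨i, j⟩, hj, rfl⟩ := hk
    rw [mem_product, mem_range, mem_range] at hj
    unfold KS
    simp only at hj
    have h4 := abs_nonneg t
    have h5 := le_abs_self t
    have h6 := neg_abs_le t
    rw [mem_filter, mem_product, mem_range, mem_Icc]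
    simp only [F]
    refine ⟨⟨by omega, by omega, by omega⟩, ?_⟩
    obtain ⟨r, hr⟩ := he
    refine ⟨r + i, ?_⟩
    push_cast
    linarith
  have hval : ∀ ij ∈ (range (m + 1)) ×ˢ (range (m + 1)), (1 / 4 : ℝ) ≤ ch d n h t (F ij) := by
    rintro ⟨i, j⟩ hij
    rw [mem_product, mem_range, mem_range] at hij
    simp only at hij
    have hi : (i : ℝ) ≤ m := by exact_mod_cast Nat.lt_succ_iff.1 hij.1
    have hj : (j : ℝ) ≤ m := by exact_mod_cast Nat.lt_succ_iff.1 hij.2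
    have hi0 : (0 : ℝ) ≤ i := Nat.cast_nonneg _
    have hj0 : (0 : ℝ) ≤ j := Nat.cast_nonneg _
    have h1 : 1 / 2 ≤ chi d ((((h + i + j : ℕ) : ℝ) - h) / Real.sqrt n) := by
      refine chi_half d _ hd ?_
      push_cast
      rw [abs_div, abs_of_pos hs, div_le_iff₀ hs, abs_le]
      constructor
      · nlinarith
      · nlinarith
    have h2 : 1 / 2 ≤ chi d ((((t + i - j : ℤ) : ℝ) - t) / Real.sqrt n) := by
      refine chi_half d _ hd ?_
      push_cast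
      rw [abs_div, abs_of_pos hs, div_le_iff₀ hs, abs_le]
      constructor
      · nlinarith
      · nlinarith
    simp only [ch, F]
    nlinarith
  calc d ^ 2 / 16 * n / 4 ≤ ∑ ij ∈ (range (m + 1)) ×ˢ (range (m + 1)), (1 / 4 : ℝ) := by
        rw [Finset.sum_const, card_product, card_range, nsmul_eq_mul]
        push_cast
        have h3 : Real.sqrt n * Real.sqrt n = n := Real.mul_self_sqrt (by linarith)
        have h4 : (d * Real.sqrt n / 4) * (d * Real.sqrt n / 4) ≤ ((m : ℝ) + 1) * (m + 1) :=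
          mul_self_le_mul_self hpos hm2.le
        have h5 : (d * Real.sqrt n / 4) * (d * Real.sqrt n / 4) = d ^ 2 / 16 * n := by
          rw [show (d * Real.sqrt n / 4) * (d * Real.sqrt n / 4) =
            d ^ 2 / 16 * (Real.sqrt n * Real.sqrt n) by ring, h3]
        linarith
    _ ≤ ∑ ij ∈ (range (m + 1)) ×ˢ (range (m + 1)), ch d n h t (F ij) := Finset.sum_le_sum hval
    _ = ∑ p ∈ ((range (m + 1)) ×ˢ (range (m + 1))).image F, ch d n h t p := by
        rw [Finset.sum_image hinj]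
    _ ≤ _ := Finset.sum_le_sum_of_subset_of_nonneg hsub fun _ _ _ => ch_nonneg _ _ _ _ _

/-- localisation to the difference `(h, t)` -/
lemma localise (hH : HGM_Stmt) (C Z d : ℝ) (hZ : 0 ≤ Z) (hd : 0 < d) (n h : ℕ) (t : ℤ)
    (hn : 1 ≤ n) (s g : ℝ) (φ : ℝ → ℝ)
    (hφ : ∀ (h' : ℕ) (t' : ℤ), Even ((h' : ℤ) + t') → |UM n s g h' t' φ - UM n s g h t φ| ≤
      C * (1 / (n * Real.sqrt (Real.sqrt n)) + (|(h' : ℝ) - h| + |(t' : ℝ) - t|) /
        (n * Real.sqrt n)) * Z) (hC : 0 ≤ C) :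
    |∑ q ∈ Omm n, wm n s g q * (ch d n h t (zl q, zt q) * φ (rm n q)) -
      (∑ p ∈ KS n h t, ch d n h t p) * UM n s g h t φ| ≤
    (∑ p ∈ KS n h t, ch d n h t p) *
      (C / n * (1 / Real.sqrt (Real.sqrt n) + 2 * d) * Z) := by
  have hn0 : (0 : ℝ) < n := by exact_mod_cast hn
  have hs : 0 < Real.sqrt n := Real.sqrt_pos.2 hn0
  have hss : 0 < Real.sqrt (Real.sqrt n) := Real.sqrt_pos.2 hs
  rw [sum_group hH n h t s g (ch d n h t) φ, sum_mul, sum_mul, ← sum_sub_distrib]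
  refine (Finset.abs_sum_le_sum_abs _ _).trans (Finset.sum_le_sum fun p hp => ?_)
  rw [← mul_sub, abs_mul, abs_of_nonneg (ch_nonneg _ _ _ _ _)]
  by_cases hk : ch d n h t p = 0
  · rw [hk, zero_mul, zero_mul]
  refine mul_le_mul_of_nonneg_left ?_ (ch_nonneg _ _ _ _ _)
  have hev : Even ((p.1 : ℤ) + p.2) := (mem_filter.1 hp).2
  refine (hφ p.1 p.2 hev).trans ?_
  have hk1 : chi d (((p.1 : ℝ) - h) / Real.sqrt n) ≠ 0 := fun h0 => hk (by
    unfold ch; rw [h0, zero_mul])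
  have hk2 : chi d (((p.2 : ℝ) - t) / Real.sqrt n) ≠ 0 := fun h0 => hk (by
    unfold ch; rw [h0, mul_zero])
  have h1 := chi_supp d _ hd hk1
  rw [abs_div, abs_of_pos hs, div_le_iff₀ hs] at h1
  have h1' := chi_supp d _ hd hk2
  rw [abs_div, abs_of_pos hs, div_le_iff₀ hs] at h1'
  have h2 : (|(p.1 : ℝ) - h| + |(p.2 : ℝ) - t|) / (n * Real.sqrt n) ≤ 2 * d / n := by
    rw [div_le_div_iff₀ (by positivity) hn0]
    nlinarith
  have h4 : C / n * (1 / Real.sqrt (Real.sqrt n) + 2 * d) =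
      C * (1 / (n * Real.sqrt (Real.sqrt n)) + 2 * d / n) := by
    field_simp
  rw [h4]
  refine mul_le_mul_of_nonneg_right ?_ hZ
  refine mul_le_mul_of_nonneg_left ?_ hC
  linarith

section Main

variable {a b : ℝ} {f g : ℕ → ℝ} {h : ℕ → ℕ} {t : ℕ → ℤ}

/-- exponential moments -/
lemma expm (hE : EXPMM_Stmt) (h0 : 0 < a) (h01 : a ≤ b) (hf : ∀ n, Box a b (f n) (g n))
    (hC : ∀ᶠ n in atTop, CenM n (f n) (g n) (h n) (t n)) (u v : ℝ) : ∃ C : ℝ, 0 < C ∧
    ∀ᶠ n in atTop, ∑ q ∈ Omm n, wm n (Real.exp (-(f n))) (g n) q *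
      Real.exp (u * (((zl q : ℝ) - h n) / Real.sqrt n) +
        v * (((zt q : ℝ) - t n) / Real.sqrt n)) ≤ C * Zm n (Real.exp (-(f n))) (g n) := by
  obtain ⟨C, hC0, N, hN⟩ := hE a b u v h0 h01
  refine ⟨C, hC0, ?_⟩
  filter_upwards [hC, eventually_ge_atTop N] with n h1 h2
  exact hN n h2 (f n) (g n) (h n) (t n) (hf n) h1

/-- second moment -/
lemma second (hE : EXPMM_Stmt) (h0 : 0 < a) (h01 : a ≤ b) (hf : ∀ n, Box a b (f n) (g n))
    (hC : ∀ᶠ n in atTop, CenM n (f n) (g n) (h n) (t n)) : ∃ K : ℝ, 0 < K ∧ ∀ᶠ n : ℕ in atTop,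
      ∑ q ∈ Omm n, wm n (Real.exp (-(f n))) (g n) q *
        (((zl q : ℝ) - h n) ^ 2 + ((zt q : ℝ) - t n) ^ 2) ≤
        K * n * Zm n (Real.exp (-(f n))) (g n) := by
  obtain ⟨C1, hC1, h1⟩ := expm hE h0 h01 hf hC 1 0
  obtain ⟨C2, hC2, h2⟩ := expm hE h0 h01 hf hC (-1) 0
  obtain ⟨C3, hC3, h3⟩ := expm hE h0 h01 hf hC 0 1
  obtain ⟨C4, hC4, h4⟩ := expm hE h0 h01 hf hC 0 (-1)
  refine ⟨2 * (C1 + C2 + C3 + C4), by positivity, ?_⟩
  filter_upwards [h1, h2, h3, h4, eventually_ge_atTop 1] with n h1 h2 h3 h4 h5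
  have hn : (0 : ℝ) < n := by exact_mod_cast h5
  simp only [zero_mul, add_zero, zero_add] at h1 h2 h3 h4
  have h6 : ∀ q ∈ Omm n, wm n (Real.exp (-(f n))) (g n) q *
      (((zl q : ℝ) - h n) ^ 2 + ((zt q : ℝ) - t n) ^ 2) ≤
      n * (2 * (wm n (Real.exp (-(f n))) (g n) q *
        Real.exp (1 * (((zl q : ℝ) - h n) / Real.sqrt n)) +
      wm n (Real.exp (-(f n))) (g n) q *
        Real.exp (-1 * (((zl q : ℝ) - h n) / Real.sqrt n)) +
      wm n (Real.exp (-(f n))) (g n) q *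
        Real.exp (1 * (((zt q : ℝ) - t n) / Real.sqrt n)) +
      wm n (Real.exp (-(f n))) (g n) q *
        Real.exp (-1 * (((zt q : ℝ) - t n) / Real.sqrt n)))) := by
    intro q _
    have h7 := sq_le_exp (((zl q : ℝ) - h n) / Real.sqrt n)
    have h7' := sq_le_exp (((zt q : ℝ) - t n) / Real.sqrt n)
    have h8 := wm_nonneg n (Real.exp (-(f n))) (g n) (Real.exp_pos _).le q
    rw [div_pow, Real.sq_sqrt hn.le, div_le_iff₀ hn] at h7 h7'
    have h9 := mul_le_mul_of_nonneg_left (add_le_add h7 h7') h8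
    refine h9.trans (le_of_eq ?_)
    ring
  refine (Finset.sum_le_sum h6).trans ?_
  rw [← mul_sum, ← mul_sum, sum_add_distrib, sum_add_distrib, sum_add_distrib]
  have h10 : ∀ x1 x2 x3 x4 Z : ℝ, x1 ≤ C1 * Z → x2 ≤ C2 * Z → x3 ≤ C3 * Z → x4 ≤ C4 * Z →
      n * (2 * (x1 + x2 + x3 + x4)) ≤ 2 * (C1 + C2 + C3 + C4) * n * Z := by
    intro x1 x2 x3 x4 Z e1 e2 e3 e4
    have : (n : ℝ) * (2 * (x1 + x2 + x3 + x4)) ≤
        n * (2 * (C1 * Z + C2 * Z + C3 * Z + C4 * Z)) := by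
      refine mul_le_mul_of_nonneg_left ?_ hn.le
      linarith
    refine this.trans (le_of_eq ?_)
    ring
  exact h10 _ _ _ _ _ h1 h2 h3 h4

/-- positivity of the total weight -/
lemma Zpos (hZB : ZBM_Stmt) (h0 : 0 < a) (h01 : a ≤ b) (hf : ∀ n, Box a b (f n) (g n)) :
    ∀ᶠ n in atTop, 0 < Zm n (Real.exp (-(f n))) (g n) := by
  obtain ⟨C, θ, hC, _, _, N, hN⟩ := hZB a b h0 h01
  filter_upwards [eventually_ge_atTop N] with n h1
  obtain ⟨rho, _, _, _, _, h4, _⟩ := hN n h1 (f n) (g n) (hf n)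
  have h5 : 0 < C⁻¹ := inv_pos.2 hC
  by_contra hc
  have h6 : 0 ≤ Zm n (Real.exp (-(f n))) (g n) := Zm_nonneg n _ _ (Real.exp_pos _).le
  have h7 : Zm n (Real.exp (-(f n))) (g n) = 0 := le_antisymm (not_lt.1 hc) h6
  rw [h7, mul_zero] at h4
  linarith

/-- the lower bound for the weight of the words -/
lemma lower (hL : LOCC_Stmt) (hE : EXPMM_Stmt) (h0 : 0 < a) (h01 : a ≤ b)
    (hf : ∀ n, Box a b (f n) (g n)) (hC : ∀ᶠ n in atTop, CenM n (f n) (g n) (h n) (t n))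
    (hev : ∀ n, Even ((h n : ℤ) + t n)) :
    ∃ c : ℝ, 0 < c ∧ ∀ᶠ n : ℕ in atTop, c / n * Zm n (Real.exp (-(f n))) (g n) ≤
      UM n (Real.exp (-(f n))) (g n) (h n) (t n) (fun _ => 1) := by
  obtain ⟨K, hK, h1⟩ := second hE h0 h01 hf hC
  obtain ⟨c, hc, N, hN⟩ := hL a b h0 h01 K hK
  refine ⟨c, hc, ?_⟩
  filter_upwards [h1, eventually_ge_atTop N] with n h3 h4
  exact hN n h4 (f n) (g n) (hf n) (h n) (t n) (hev n) h3

end Main

end Pool.Agent.TPT.EQM

namespace Pool.Agent.TPT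

open Finset Filter Topology MeasureTheory
open Pool.Agent.Lib27 Pool.Agent.SapR Pool.Agent.AreaLaw Pool.Agent.FL
open Pool.Agent.FS (sc)
open Pool.Agent.FS.EQ (chi chi_nonneg chi_le_one chi_abs chi_continuous chi_supp chi_half
  sq_le_exp compare)

/-- EQM : equivalence of the ensembles. -/
theorem t_EQM (hB : LOCB_Stmt) (hC : LOCC_Stmt) (hI : INDM_Stmt) (hE : EXPMM_Stmt)
    (hZ : ZBM_Stmt) (hH : HGM_Stmt) : EQM_Stmt := by
  intro a b h0 h01 f g h t hf hCe hev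
  obtain ⟨c, hc, hlow⟩ := EQM.lower hC hE h0 h01 hf hCe hev
  refine ⟨hf, ⟨c, hc, hlow⟩, fun φ hφ1 hφL => ?_⟩
  obtain ⟨C, hC0, N, hN⟩ := hB a b h0 h01
  have hZp := EQM.Zpos hZ h0 h01 hf
  have hsq : Tendsto (fun n : ℕ => 1 / Real.sqrt (Real.sqrt n)) atTop (𝓝 0) := by
    have h1 : Tendsto (fun n : ℕ => Real.sqrt (Real.sqrt (n : ℝ))) atTop atTop :=
      Real.tendsto_sqrt_atTop.comp (Real.tendsto_sqrt_atTop.comp tendsto_natCast_atTop_atTop)
    exact h1.const_div_atTop 1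
  rw [Metric.tendsto_atTop]
  suffices H : ∀ ε : ℝ, 0 < ε → ∀ᶠ n : ℕ in atTop,
      |UM n (Real.exp (-(f n))) (g n) (h n) (t n) φ /
          UM n (Real.exp (-(f n))) (g n) (h n) (t n) (fun _ => 1) -
        (∑ q ∈ Omm n, wm n (Real.exp (-(f n))) (g n) q * φ (rm n q)) /
          Zm n (Real.exp (-(f n))) (g n)| < ε by
    intro ε hε
    obtain ⟨M, hM⟩ := eventually_atTop.1 (H ε hε)
    refine ⟨M, fun n hn => ?_⟩
    rw [Real.dist_eq, sub_zero]
    exact hM n hn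
  intro ε hε
  obtain ⟨d, hd⟩ : ∃ d, d = min 1 (ε * c / (16 * C)) := ⟨_, rfl⟩
  have hd0 : 0 < d := by rw [hd]; positivity
  have hd1 : d ≤ 1 := by rw [hd]; exact min_le_left _ _
  have hd2 : 2 * C / c * (2 * d) ≤ ε / 4 := by
    have : d ≤ ε * c / (16 * C) := by rw [hd]; exact min_le_right _ _
    calc 2 * C / c * (2 * d) ≤ 2 * C / c * (2 * (ε * c / (16 * C))) := by gcongr
      _ = ε / 4 := by field_simp; norm_num
  have hind := hI a b h0 h01 f g h t hf hCe (chi d) (chi d) φ (chi_continuous d)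
    (chi_continuous d) hφL.continuous (fun x => ⟨chi_nonneg d x, chi_le_one d x hd0⟩)
    (fun x => chi_abs d x hd0) hφ1
  have hind' : ∀ᶠ n : ℕ in atTop,
      |(∑ q ∈ Omm n, wm n (Real.exp (-(f n))) (g n) q *
        (EQM.ch d n (h n) (t n) (zl q, zt q) * φ (rm n q))) / Zm n (Real.exp (-(f n))) (g n) -
      (∑ q ∈ Omm n, wm n (Real.exp (-(f n))) (g n) q *
        (EQM.ch d n (h n) (t n) (zl q, zt q))) / Zm n (Real.exp (-(f n))) (g n) *
      ((∑ q ∈ Omm n, wm n (Real.exp (-(f n))) (g n) q * φ (rm n q)) /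
        Zm n (Real.exp (-(f n))) (g n))| ≤
        ε * (c * (d ^ 2 / 16)) / 16 := by
    obtain ⟨M, hM⟩ := (Metric.tendsto_atTop.1 hind) (ε * (c * (d ^ 2 / 16)) / 16)
      (by positivity)
    filter_upwards [eventually_ge_atTop M] with n hn
    have := hM n hn
    rw [Real.dist_eq, sub_zero] at this
    unfold EQM.ch
    exact this.le
  have hsq' : ∀ᶠ n : ℕ in atTop, 2 * C / c * (1 / Real.sqrt (Real.sqrt n)) < ε / 4 := by
    have h1 := hsq.const_mul (2 * C / c)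
    rw [mul_zero] at h1
    exact h1.eventually (gt_mem_nhds (by positivity))
  filter_upwards [hlow, hZp, hind', hsq', eventually_ge_atTop N, eventually_ge_atTop 1]
    with n h1 h2 h3 h4 h5 h6
  have hn0 : (0 : ℝ) < n := by exact_mod_cast h6
  have h7 := hN n h5 (f n) (g n) (hf n)
  have h8 := EQM.localise hH C (Zm n (Real.exp (-(f n))) (g n)) d h2.le hd0 n (h n) (t n) h6
    (Real.exp (-(f n))) (g n) φ
    (fun h' t' he => h7 h' (h n) t' (t n) φ he (hev n) hφ1 hφL) hC0.le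
  have h9 := EQM.localise hH C (Zm n (Real.exp (-(f n))) (g n)) d h2.le hd0 n (h n) (t n) h6
    (Real.exp (-(f n))) (g n)
    (fun _ => 1) (fun h' t' he => h7 h' (h n) t' (t n) (fun _ => 1) he (hev n) (fun _ => by simp)
      (LipschitzWith.const' (1 : ℝ))) hC0.le
  have hEE : |(∑ q ∈ Omm n, wm n (Real.exp (-(f n))) (g n) q * φ (rm n q)) /
      Zm n (Real.exp (-(f n))) (g n)| ≤ 1 := by
    rw [abs_div, abs_of_pos h2, div_le_one h2]
    refine (Finset.abs_sum_le_sum_abs _ _).trans ?_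
    unfold Zm
    refine Finset.sum_le_sum fun q _ => ?_
    have h10 := EQM.wm_nonneg n (Real.exp (-(f n))) (g n) (Real.exp_pos _).le q
    rw [abs_mul, abs_of_nonneg h10]
    calc _ ≤ wm n (Real.exp (-(f n))) (g n) q * 1 := mul_le_mul_of_nonneg_left (hφ1 _) h10
      _ = _ := mul_one _
  simp only [mul_one] at h9
  have h10 := compare c (C * (1 / Real.sqrt (Real.sqrt n) + 2 * d))
    (Zm n (Real.exp (-(f n))) (g n)) (d ^ 2 / 16)
    (ε * (c * (d ^ 2 / 16)) / 16) _ _ _ _ _ _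
    (C / n * (1 / Real.sqrt (Real.sqrt n) + 2 * d))
    (n : ℝ) hn0 hc h2 (by positivity) (EQM.sum_ch d hd0 hd1 n (h n) (t n) h6 (hev n)) (by ring)
    (by positivity) hEE h8 h9 h3 h1
  refine h10.trans_lt ?_
  have h11 : 4 * (ε * (c * (d ^ 2 / 16)) / 16) / (c * (d ^ 2 / 16)) = ε / 4 := by
    field_simp
    norm_num
  have h12 : 2 * (C * (1 / Real.sqrt (Real.sqrt n) + 2 * d)) / c =
      2 * C / c * (1 / Real.sqrt (Real.sqrt n)) + 2 * C / c * (2 * d) := by ring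
  rw [h11, h12]
  linarith

end Pool.Agent.TPT
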