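import Pool.Agent.TPT.StmtsA

/-!
# Project TPT: module EXPMM (exponential moments)
-/

set_option autoImplicit false

namespace Pool.Agent.TPT

open Finset Filter Topology MeasureTheory
open Pool.Agent.Lib27 Pool.Agent.SapR Pool.Agent.AreaLaw Pool.Agent.FL
open Pool.Agent.FS (sc)

namespace EXPMM

/-- the weight at a shifted force -/
theorem wm_shift (n : ℕ) (f g u v : ℝ) (q : QM) (hq : zl q ≤ n) :
    wm n (Real.exp (-(f + u))) (g + v) q =
      wm n (Real.exp (-f)) g q * Real.exp (-(u * ((n : ℝ) - zl q)) + v * zt q) := by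
  unfold wm
  rw [← Real.exp_nat_mul, ← Real.exp_nat_mul, ← Real.exp_add, ← Real.exp_add, ← Real.exp_add,
    Nat.cast_sub hq]
  congr 1
  ring

/-- the exponential sum as a partition function -/
theorem sum_shift (hH : HGM_Stmt) (n : ℕ) (f g u v h t : ℝ) :
    ∑ q ∈ Omm n, wm n (Real.exp (-f)) g q *
      Real.exp (u * ((zl q : ℝ) - h) + v * ((zt q : ℝ) - t)) =
      Real.exp (u * ((n : ℝ) - h) - v * t) * Zm n (Real.exp (-(f + u))) (g + v) := by
  unfold Zm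
  rw [Finset.mul_sum]
  refine Finset.sum_congr rfl fun q hq => ?_
  rw [wm_shift n f g u v q (hH.2.2.2 n q hq).1, mul_left_comm, ← Real.exp_add]
  congr 2
  ring

theorem wm_pos (n : ℕ) (f g : ℝ) (q : QM) : 0 < wm n (Real.exp (-f)) g q := by
  unfold wm
  positivity

/-- lower bound for the sum with the opposite sign -/
theorem lower (n : ℕ) (f g u v h t : ℝ) (hc : CenM n f g h t) (huv : |u| + |v| ≤ 1 / 2) :
    Zm n (Real.exp (-f)) g / 2 ≤ ∑ q ∈ Omm n, wm n (Real.exp (-f)) g q *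
      Real.exp (u * ((zl q : ℝ) - h) + v * ((zt q : ℝ) - t)) := by
  have h1 : ∑ q ∈ Omm n, wm n (Real.exp (-f)) g q *
      (1 + (u * ((zl q : ℝ) - h) + v * ((zt q : ℝ) - t))) ≤
      ∑ q ∈ Omm n, wm n (Real.exp (-f)) g q *
      Real.exp (u * ((zl q : ℝ) - h) + v * ((zt q : ℝ) - t)) := by
    refine Finset.sum_le_sum fun q _ => mul_le_mul_of_nonneg_left ?_ (wm_pos n f g q).le
    have := Real.add_one_le_exp (u * ((zl q : ℝ) - h) + v * ((zt q : ℝ) - t))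
    linarith
  refine le_trans ?_ h1
  set S1 : ℝ := ∑ q ∈ Omm n, wm n (Real.exp (-f)) g q * ((zl q : ℝ) - h) with hS1
  set S2 : ℝ := ∑ q ∈ Omm n, wm n (Real.exp (-f)) g q * ((zt q : ℝ) - t) with hS2
  have h2 : ∑ q ∈ Omm n, wm n (Real.exp (-f)) g q *
      (1 + (u * ((zl q : ℝ) - h) + v * ((zt q : ℝ) - t))) =
      Zm n (Real.exp (-f)) g + (u * S1 + v * S2) := by
    unfold Zm
    rw [hS1, hS2, Finset.mul_sum, Finset.mul_sum, ← Finset.sum_add_distrib,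
      ← Finset.sum_add_distrib]
    refine Finset.sum_congr rfl fun q _ => ?_
    ring
  rw [h2]
  have hZ : 0 ≤ Zm n (Real.exp (-f)) g := (abs_nonneg _).trans hc.1
  have h3 : |u * S1| ≤ |u| * Zm n (Real.exp (-f)) g := by
    rw [abs_mul]
    exact mul_le_mul_of_nonneg_left hc.1 (abs_nonneg u)
  have h4 : |v * S2| ≤ |v| * Zm n (Real.exp (-f)) g := by
    rw [abs_mul]
    exact mul_le_mul_of_nonneg_left hc.2 (abs_nonneg v)
  have h5 := (abs_le.1 h3).1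
  have h6 := (abs_le.1 h4).1
  have h7 := mul_le_mul_of_nonneg_right huv hZ
  linarith

end EXPMM

theorem t_EXPMM (hZ : ZBM_Stmt) (hR : RHOM_Stmt) (hH : HGM_Stmt) : EXPMM_Stmt := by
  intro a b u v ha hab
  obtain ⟨C, θ, hC, hθ0, hθ1, N, hN⟩ := hZ (a / 2) (2 * b) (by positivity) (by linarith)
  obtain ⟨CR, η, hCR, hη, NR, hNR⟩ := hR a b ha hab
  set κ : ℝ := min (min η (a / 2)) (1 / 2) with hκ
  have hκ0 : 0 < κ := lt_min (lt_min hη (by positivity)) (by norm_num)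
  have hκ1 : κ ≤ η := (min_le_left _ _).trans (min_le_left _ _)
  have hκ2 : κ ≤ a / 2 := (min_le_left _ _).trans (min_le_right _ _)
  have hκ3 : κ ≤ 1 / 2 := min_le_right _ _
  have hlim : Tendsto (fun n : ℕ => (|u| + |v|) / Real.sqrt n) atTop (𝓝 0) :=
    tendsto_const_nhds.div_atTop (Real.tendsto_sqrt_atTop.comp tendsto_natCast_atTop_atTop)
  obtain ⟨N1, hN1⟩ := Filter.eventually_atTop.1 (hlim.eventually (ge_mem_nhds hκ0))
  refine ⟨2 * (C ^ 4 * Real.exp (CR * (u ^ 2 + v ^ 2))), by positivity, max (max N NR) (max N1 1),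
    fun n hn f g h t hbox hcen => ?_⟩
  have n1 : N ≤ n := (le_max_left _ _).trans ((le_max_left _ _).trans hn)
  have n2 : NR ≤ n := (le_max_right _ _).trans ((le_max_left _ _).trans hn)
  have n3 : N1 ≤ n := (le_max_left _ _).trans ((le_max_right _ _).trans hn)
  have n4 : 1 ≤ n := (le_max_right _ _).trans ((le_max_right _ _).trans hn)
  have hnr : (0 : ℝ) < n := by exact_mod_cast n4
  have hsq : 0 < Real.sqrt n := Real.sqrt_pos.2 hnr
  have hsmall := hN1 n n3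
  set u' : ℝ := u / Real.sqrt n with hu'
  set v' : ℝ := v / Real.sqrt n with hv'
  have habs : |u'| + |v'| ≤ κ := by
    rw [hu', hv', abs_div, abs_div, abs_of_pos hsq, ← add_div]
    exact hsmall
  have hu0 := abs_nonneg u'
  have hv0 := abs_nonneg v'
  have hu1 := abs_le.1 (le_refl |u'|)
  have hv1 := abs_le.1 (le_refl |v'|)
  obtain ⟨hf1, hf2, hg⟩ := hbox
  have hg1 := abs_le.1 hg
  -- the three boxes
  have box0 : Box (a / 2) (2 * b) f g := ⟨by linarith, by linarith, by linarith⟩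
  have box1 : Box (a / 2) (2 * b) (f + u') (g + v') :=
    ⟨by linarith, by linarith, abs_le.2 ⟨by linarith, by linarith⟩⟩
  have box2 : Box (a / 2) (2 * b) (f - u') (g - v') :=
    ⟨by linarith, by linarith, abs_le.2 ⟨by linarith, by linarith⟩⟩
  obtain ⟨ρ, c0, -, -, -, l0, -⟩ := hN n n1 f g box0
  obtain ⟨ρ₁, c1, -, -, -, -, m1⟩ := hN n n1 (f + u') (g + v') box1
  obtain ⟨ρ₂, c2, -, -, -, -, m2⟩ := hN n n1 (f - u') (g - v') box2
  have hlog := (hNR n n2 f g u' v' ρ ρ₁ ρ₂ ⟨hf1, hf2, hg⟩ (by linarith) (by linarith) c0 c1 c2).2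
  have r0 : 0 < ρ := c0.1
  have r1 : 0 < ρ₁ := c1.1
  have r2 : 0 < ρ₂ := c2.1
  have hsc : 0 < sc n := by
    by_contra hcon
    have hZ0 : 0 ≤ Zm n (Real.exp (-f)) g := (abs_nonneg _).trans hcen.1
    have h1 : sc n * ρ ^ n * Zm n (Real.exp (-f)) g ≤ 0 :=
      mul_nonpos_of_nonpos_of_nonneg
        (mul_nonpos_of_nonpos_of_nonneg (not_lt.1 hcon) (by positivity)) hZ0
    have h2 : 0 < C⁻¹ := inv_pos.2 hC
    linarith
  set Z : ℝ := Zm n (Real.exp (-f)) g with hZdef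
  set Z1 : ℝ := Zm n (Real.exp (-(f + u'))) (g + v') with hZ1
  set Z2 : ℝ := Zm n (Real.exp (-(f - u'))) (g - v') with hZ2
  have hZpos : 0 < Z := by
    have h1 : 0 < sc n * ρ ^ n * Z := lt_of_lt_of_le (inv_pos.2 hC) l0
    exact (mul_pos_iff_of_pos_left (by positivity)).1 h1
  have hZ1n : 0 ≤ Z1 := Finset.sum_nonneg fun q _ => (EXPMM.wm_pos n _ _ q).le
  have hZ2n : 0 ≤ Z2 := Finset.sum_nonneg fun q _ => (EXPMM.wm_pos n _ _ q).le
  -- the two sums
  have hA := EXPMM.sum_shift hH n f g u' v' h t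
  have hB := EXPMM.sum_shift hH n f g (-u') (-v') h t
  rw [← sub_eq_add_neg, ← sub_eq_add_neg, ← hZ2] at hB
  rw [← hZ1] at hA
  have hlow := EXPMM.lower n f g (-u') (-v') h t hcen (by rw [abs_neg, abs_neg]; linarith)
  rw [← hZdef] at hlow
  have hexp : ∀ q : QM, u * (((zl q : ℝ) - h) / Real.sqrt n) + v * (((zt q : ℝ) - t) / Real.sqrt n)
      = u' * ((zl q : ℝ) - h) + v' * ((zt q : ℝ) - t) := by
    intro q
    rw [hu', hv']
    ring
  rw [Finset.sum_congr rfl fun q _ => by rw [hexp q]]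
  set SA : ℝ := ∑ q ∈ Omm n, wm n (Real.exp (-f)) g q *
      Real.exp (u' * ((zl q : ℝ) - h) + v' * ((zt q : ℝ) - t)) with hSA
  set SB : ℝ := ∑ q ∈ Omm n, wm n (Real.exp (-f)) g q *
      Real.exp (-u' * ((zl q : ℝ) - h) + -v' * ((zt q : ℝ) - t)) with hSB
  have hAB : SA * SB = Z1 * Z2 := by
    rw [hA, hB]
    have h1 : Real.exp (u' * ((n : ℝ) - h) - v' * t) * Real.exp (-u' * ((n : ℝ) - h) - -v' * t) = 1 := by
      rw [← Real.exp_add, ← Real.exp_zero]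
      congr 1
      ring
    linear_combination (Z1 * Z2) * h1
  -- the ratio of the critical weights
  have hratio : ρ ^ n * ρ ^ n ≤ Real.exp (CR * (u ^ 2 + v ^ 2)) * (ρ₁ ^ n * ρ₂ ^ n) := by
    have h1 := (abs_le.1 hlog).1
    have h2 : u' ^ 2 + v' ^ 2 = (u ^ 2 + v ^ 2) / n := by
      rw [hu', hv', div_pow, div_pow, Real.sq_sqrt hnr.le]
      ring
    rw [h2] at h1
    have h3 : (n : ℝ) * -(Real.log (ρ₁ / ρ) + Real.log (ρ₂ / ρ)) ≤ CR * (u ^ 2 + v ^ 2) := by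
      have h4 : -(Real.log (ρ₁ / ρ) + Real.log (ρ₂ / ρ)) ≤ CR * ((u ^ 2 + v ^ 2) / n) := by linarith
      calc (n : ℝ) * -(Real.log (ρ₁ / ρ) + Real.log (ρ₂ / ρ))
          ≤ n * (CR * ((u ^ 2 + v ^ 2) / n)) := mul_le_mul_of_nonneg_left h4 hnr.le
        _ = CR * (u ^ 2 + v ^ 2) := by field_simp
    have h5 : Real.exp (n * -(Real.log (ρ₁ / ρ) + Real.log (ρ₂ / ρ))) =
        (ρ ^ n * ρ ^ n) / (ρ₁ ^ n * ρ₂ ^ n) := by
      rw [Real.exp_nat_mul, neg_add, Real.exp_add, Real.exp_neg, Real.exp_neg,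
        Real.exp_log (div_pos r1 r0), Real.exp_log (div_pos r2 r0), mul_pow, inv_pow, inv_pow,
        div_pow, div_pow]
      field_simp
    have h6 := Real.exp_le_exp.2 h3
    rw [h5, div_le_iff₀ (by positivity)] at h6
    exact h6
  have hprod : Z1 * Z2 ≤ C ^ 4 * Real.exp (CR * (u ^ 2 + v ^ 2)) * (Z * Z) := by
    have h1 : (sc n * ρ₁ ^ n * Z1) * (sc n * ρ₂ ^ n * Z2) ≤ C * C :=
      mul_le_mul m1 m2 (by positivity) hC.le
    have h2 : 1 ≤ C * (sc n * ρ ^ n * Z) := by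
      have := mul_le_mul_of_nonneg_left l0 hC.le
      rwa [mul_inv_cancel₀ hC.ne'] at this
    have h3 : 1 ≤ (C * (sc n * ρ ^ n * Z)) * (C * (sc n * ρ ^ n * Z)) :=
      one_le_mul_of_one_le_of_one_le h2 h2
    have h4 : 0 < (sc n * ρ₁ ^ n) * (sc n * ρ₂ ^ n) := by positivity
    have h5 : ((sc n * ρ₁ ^ n) * (sc n * ρ₂ ^ n)) * (Z1 * Z2) ≤
        ((sc n * ρ₁ ^ n) * (sc n * ρ₂ ^ n)) *
          (C ^ 4 * Real.exp (CR * (u ^ 2 + v ^ 2)) * (Z * Z)) := by
      calc ((sc n * ρ₁ ^ n) * (sc n * ρ₂ ^ n)) * (Z1 * Z2)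
          = (sc n * ρ₁ ^ n * Z1) * (sc n * ρ₂ ^ n * Z2) := by ring
        _ ≤ C * C := h1
        _ ≤ C * C * ((C * (sc n * ρ ^ n * Z)) * (C * (sc n * ρ ^ n * Z))) :=
            le_mul_of_one_le_right (by positivity) h3
        _ = C ^ 4 * (sc n * sc n) * (Z * Z) * (ρ ^ n * ρ ^ n) := by ring
        _ ≤ C ^ 4 * (sc n * sc n) * (Z * Z) *
              (Real.exp (CR * (u ^ 2 + v ^ 2)) * (ρ₁ ^ n * ρ₂ ^ n)) :=
            mul_le_mul_of_nonneg_left hratio (by positivity)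
        _ = ((sc n * ρ₁ ^ n) * (sc n * ρ₂ ^ n)) *
          (C ^ 4 * Real.exp (CR * (u ^ 2 + v ^ 2)) * (Z * Z)) := by ring
    exact le_of_mul_le_mul_left h5 h4
  have hSA0 : 0 ≤ SA := Finset.sum_nonneg fun q _ =>
    mul_nonneg (EXPMM.wm_pos n _ _ q).le (Real.exp_pos _).le
  have hfin : SA * (Z / 2) ≤ C ^ 4 * Real.exp (CR * (u ^ 2 + v ^ 2)) * (Z * Z) := by
    calc SA * (Z / 2) ≤ SA * SB := mul_le_mul_of_nonneg_left hlow hSA0
      _ = Z1 * Z2 := hAB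
      _ ≤ _ := hprod
  have h9 : SA * (Z / 2) ≤ (2 * (C ^ 4 * Real.exp (CR * (u ^ 2 + v ^ 2))) * Z) * (Z / 2) := by
    refine hfin.trans (le_of_eq ?_)
    ring
  exact le_of_mul_le_mul_right h9 (by positivity)

end Pool.Agent.TPT
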