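import Pool.Agent.TPT.StmtsA
import Pool.Agent.Lib_helper74.FS.KBIG

/-!
# Project TPT, module KBIGM: skeletons with few tokens of one kind are negligible
-/

set_option autoImplicit false

namespace Pool.Agent.TPT

open Finset Filter Topology MeasureTheory
open Pool.Agent.Lib27 Pool.Agent.SapR Pool.Agent.AreaLaw Pool.Agent.FL
open Pool.Agent.FS (sc rs bp dlt tk1 tk2)
open Pool.Agent.NSP (lc ld)
open Pool.Agent.KCS (airyMoment)
open Pool.Agent.KCC (areaMoment)
open Pool.Agent.FS.KBIG (exp_sub_one_le eventually_small)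

namespace KBIGM

lemma wp_nonneg {s g rho : ℝ} (hs : 0 < s) (hr : 0 < rho) (p : Wd × Wd) : 0 ≤ wp s g rho p := by
  unfold wp
  positivity

/-- the sum over the pieces, grouped by the half length -/
lemma pieces {n : ℕ} {f g rho C θ κ : ℝ} (hC : 0 < C) (hθ : 0 < θ) (hκ : 0 < κ)
    (hcrit : CritM n (Real.exp (-f)) g rho) (ht : TailsM C θ n f g rho) {θ' : ℝ}
    (hθ' : 0 < θ') (hθ'1 : θ' < 1) (hle : Real.exp κ * θ ≤ θ') :
    ∑ p ∈ Pc (2 * n - 1), wp (Real.exp (-f)) g (rho * Real.exp κ) p ≤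
      1 + C * κ * ∑' m : ℕ, (m : ℝ) * θ' ^ m := by
  have hrho := hcrit.1
  have hsum := hcrit.2
  have hsm : Summable (fun m : ℕ => (m : ℝ) * θ' ^ m) := by
    have := summable_pow_mul_geometric_of_norm_lt_one (R := ℝ) 1
      (r := θ') (by rw [Real.norm_eq_abs, abs_of_pos hθ']; exact hθ'1)
    simpa using this
  have hw : ∀ p : Wd × Wd, wp (Real.exp (-f)) g (rho * Real.exp κ) p =
      wp (Real.exp (-f)) g rho p + wp (Real.exp (-f)) g rho p * (Real.exp (κ * hl p) - 1) := by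
    intro p
    unfold wp
    rw [mul_pow, ← Real.exp_nat_mul, mul_comm (hl p : ℝ) κ]
    ring
  have h1 : ∑ p ∈ Pc (2 * n - 1), wp (Real.exp (-f)) g (rho * Real.exp κ) p =
      1 + ∑ p ∈ Pc (2 * n - 1), wp (Real.exp (-f)) g rho p * (Real.exp (κ * hl p) - 1) := by
    rw [Finset.sum_congr rfl fun p _ => hw p, Finset.sum_add_distrib, hsum]
  rw [h1]
  refine (add_le_add_iff_left 1).mpr ?_
  have h2 : ∑ p ∈ Pc (2 * n - 1), wp (Real.exp (-f)) g rho p * (Real.exp (κ * hl p) - 1) =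
      ∑ m ∈ (Pc (2 * n - 1)).image hl, ∑ p ∈ (Pc (2 * n - 1)).filter (fun p => hl p = m),
        wp (Real.exp (-f)) g rho p * (Real.exp (κ * hl p) - 1) := by
    rw [Finset.sum_fiberwise_of_maps_to]
    intro p hp
    exact Finset.mem_image_of_mem _ hp
  rw [h2]
  calc ∑ m ∈ (Pc (2 * n - 1)).image hl, ∑ p ∈ (Pc (2 * n - 1)).filter (fun p => hl p = m),
        wp (Real.exp (-f)) g rho p * (Real.exp (κ * hl p) - 1)
      ≤ ∑ m ∈ (Pc (2 * n - 1)).image hl, C * κ * ((m : ℝ) * θ' ^ m) := by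
        refine Finset.sum_le_sum fun m _ => ?_
        have h3 : ∑ p ∈ (Pc (2 * n - 1)).filter (fun p => hl p = m),
            wp (Real.exp (-f)) g rho p * (Real.exp (κ * hl p) - 1) =
            (Real.exp (κ * m) - 1) * ∑ p ∈ (Pc (2 * n - 1)).filter (fun p => hl p = m),
              wp (Real.exp (-f)) g rho p := by
          rw [Finset.mul_sum]
          refine Finset.sum_congr rfl fun p hp => ?_
          rw [Finset.mem_filter] at hp
          rw [hp.2]
          ring
        rw [h3]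
        have h4 := ht.1 m
        have h5 : 0 ≤ Real.exp (κ * m) - 1 := by
          have := Real.add_one_le_exp (κ * m)
          have h6 : 0 ≤ κ * m := by positivity
          linarith
        calc (Real.exp (κ * m) - 1) * ∑ p ∈ (Pc (2 * n - 1)).filter (fun p => hl p = m),
              wp (Real.exp (-f)) g rho p
            ≤ (Real.exp (κ * m) - 1) * (C * θ ^ m) := mul_le_mul_of_nonneg_left h4 h5
          _ ≤ (κ * m * Real.exp (κ * m)) * (C * θ ^ m) := by
              refine mul_le_mul_of_nonneg_right (exp_sub_one_le _) (by positivity)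
          _ = C * κ * (m * (Real.exp κ * θ) ^ m) := by
              rw [mul_pow, ← Real.exp_nat_mul, mul_comm (m : ℝ) κ]
              ring
          _ ≤ C * κ * ((m : ℝ) * θ' ^ m) := by
              have h7 : (Real.exp κ * θ) ^ m ≤ θ' ^ m :=
                pow_le_pow_left₀ (by positivity) hle m
              have h8 : 0 ≤ C * κ := by positivity
              have h9 : (0 : ℝ) ≤ m := Nat.cast_nonneg m
              exact mul_le_mul_of_nonneg_left (mul_le_mul_of_nonneg_left h7 h9) h8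
    _ = C * κ * ∑ m ∈ (Pc (2 * n - 1)).image hl, ((m : ℝ) * θ' ^ m) := by rw [Finset.mul_sum]
    _ ≤ C * κ * ∑' m : ℕ, (m : ℝ) * θ' ^ m := by
        refine mul_le_mul_of_nonneg_left ?_ (by positivity)
        refine hsm.sum_le_tsum _ fun m _ => by positivity

/-- the caps -/
lemma caps {n : ℕ} {f g rho C θ κ : ℝ} (hC : 0 < C) (hθ : 0 < θ) (hrho : 0 < rho)
    (ht : TailsM C θ n f g rho) {θ' : ℝ} (hθ' : 0 < θ') (hθ'1 : θ' < 1)
    (hle : Real.exp κ * θ ≤ θ') :
    0 ≤ capKM n (Real.exp (-f)) g (rho * Real.exp κ) ∧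
      capKM n (Real.exp (-f)) g (rho * Real.exp κ) ≤ C * (1 - θ')⁻¹ := by
  unfold capKM
  refine ⟨?_, ?_⟩
  · refine Finset.sum_nonneg fun m _ => Finset.sum_nonneg fun x _ => Finset.sum_nonneg fun T _ => ?_
    positivity
  · have hg : Summable (fun m : ℕ => θ' ^ m) := summable_geometric_of_lt_one hθ'.le hθ'1
    calc ∑ m ∈ range (n + 1), ∑ x ∈ Icc (1 : ℤ) m, ∑ a ∈ MCap x (2 * m),
          (rho * Real.exp κ) ^ m * Real.exp (-f) ^ (m - mlev a) * Real.exp (g * mlat x a)
        ≤ ∑ m ∈ range (n + 1), C * θ' ^ m := by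
          refine Finset.sum_le_sum fun m _ => ?_
          have h1 : ∑ x ∈ Icc (1 : ℤ) m, ∑ a ∈ MCap x (2 * m),
              (rho * Real.exp κ) ^ m * Real.exp (-f) ^ (m - mlev a) * Real.exp (g * mlat x a) =
              Real.exp κ ^ m * ∑ x ∈ Icc (1 : ℤ) m, ∑ a ∈ MCap x (2 * m),
                rho ^ m * Real.exp (-f) ^ (m - mlev a) * Real.exp (g * mlat x a) := by
            rw [Finset.mul_sum]
            refine Finset.sum_congr rfl fun x _ => ?_
            rw [Finset.mul_sum]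
            refine Finset.sum_congr rfl fun T _ => ?_
            rw [mul_pow]
            ring
          rw [h1]
          calc Real.exp κ ^ m * ∑ x ∈ Icc (1 : ℤ) m, ∑ a ∈ MCap x (2 * m),
                rho ^ m * Real.exp (-f) ^ (m - mlev a) * Real.exp (g * mlat x a)
              ≤ Real.exp κ ^ m * (C * θ ^ m) :=
                mul_le_mul_of_nonneg_left (ht.2.1 m) (by positivity)
            _ = C * (Real.exp κ * θ) ^ m := by rw [mul_pow]; ring
            _ ≤ C * θ' ^ m :=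
                mul_le_mul_of_nonneg_left (pow_le_pow_left₀ (by positivity) hle m) hC.le
      _ = C * ∑ m ∈ range (n + 1), θ' ^ m := by rw [Finset.mul_sum]
      _ ≤ C * (1 - θ')⁻¹ := by
          refine mul_le_mul_of_nonneg_left ?_ hC.le
          rw [← tsum_geometric_of_lt_one hθ'.le hθ'1]
          exact hg.sum_le_tsum _ fun m _ => by positivity

/-- lower bound for the weight of a piece on the box -/
noncomputable def low (C b : ℝ) (p : Wd × Wd) : ℝ :=
  C⁻¹ ^ hl p * Real.exp (-b) ^ (hl p - htn p) * Real.exp (-(b * |(kap p : ℝ)|))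

lemma low_pos {C b : ℝ} (hC : 0 < C) (p : Wd × Wd) : 0 < low C b p := by
  unfold low
  positivity

lemma low_le {C a b f g rho : ℝ} (hC : 0 < C) (hbox : Box a b f g) (hr : C⁻¹ ≤ rho)
    (p : Wd × Wd) : low C b p ≤ wp (Real.exp (-f)) g rho p := by
  obtain ⟨-, hf, hg⟩ := hbox
  unfold low wp
  have h1 : C⁻¹ ^ hl p ≤ rho ^ hl p := pow_le_pow_left₀ (by positivity) hr _
  have h2 : Real.exp (-b) ^ (hl p - htn p) ≤ Real.exp (-f) ^ (hl p - htn p) :=
    pow_le_pow_left₀ (Real.exp_pos _).le (Real.exp_le_exp.2 (by linarith)) _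
  have h3 : Real.exp (-(b * |(kap p : ℝ)|)) ≤ Real.exp (g * kap p) := by
    refine Real.exp_le_exp.2 ?_
    have h4 : |g * (kap p : ℝ)| ≤ b * |(kap p : ℝ)| := by
      rw [abs_mul]
      exact mul_le_mul_of_nonneg_right hg (abs_nonneg _)
    have := neg_abs_le (g * (kap p : ℝ))
    linarith
  have hr0 : 0 ≤ rho := (inv_nonneg.2 hC.le).trans hr
  exact mul_le_mul (mul_le_mul h1 h2 (by positivity) (by positivity)) h3 (Real.exp_pos _).le
    (by positivity)

lemma Zm_nonneg (n : ℕ) {s : ℝ} (hs : 0 < s) (g : ℝ) : 0 ≤ Zm n s g := by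
  unfold Zm wm
  exact Finset.sum_nonneg fun q _ => by positivity

lemma two_pow_le (j : ℕ) {y : ℝ} (h : (j : ℝ) ≤ y) : (2 : ℝ) ^ j ≤ Real.exp y := by
  have h3 : (2 : ℝ) ≤ Real.exp 1 := by
    have := Real.add_one_le_exp (1 : ℝ)
    linarith
  calc (2 : ℝ) ^ j ≤ Real.exp 1 ^ j := pow_le_pow_left₀ (by norm_num) h3 _
    _ = Real.exp (j : ℝ) := by rw [← Real.exp_nat_mul, mul_one]
    _ ≤ Real.exp y := Real.exp_le_exp.mpr h

/-- the summand of `count` -/
noncomputable def tm (n : ℕ) (s g τ τ' : ℝ) (a : Sk2) : ℝ :=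
  s ^ (n - a.H) * Real.exp (g * a.Λ) * ((1 + s * Real.exp (-g)) * τ) ^ a.l.length *
    ((1 + Real.exp (-(2 * g))) * τ') ^ a.k

lemma tm_nonneg (n : ℕ) {s τ τ' : ℝ} (hs : 0 < s) (g : ℝ) (hτ : 0 ≤ τ) (hτ' : 0 ≤ τ') (a : Sk2) :
    0 ≤ tm n s g τ τ' a := by
  unfold tm
  positivity

lemma vs2_nonneg (n : ℕ) {s : ℝ} (hs : 0 < s) (g : ℝ) (a : Sk2) : 0 ≤ vs2 n s g a := by
  unfold vs2
  positivity

lemma vs2_eq1 (n : ℕ) (s g : ℝ) (a : Sk2) :
    vs2 n s g a = 2 ^ a.l.length * tm n s g (1 / 2) 1 a := by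
  unfold vs2 tm
  have h1 : (1 + s * Real.exp (-g)) ^ a.l.length =
      2 ^ a.l.length * ((1 + s * Real.exp (-g)) * (1 / 2)) ^ a.l.length := by
    rw [← mul_pow]
    congr 1
    ring
  rw [h1, mul_one]
  ring

lemma vs2_eq2 (n : ℕ) (s g : ℝ) (a : Sk2) :
    vs2 n s g a = 2 ^ a.k * tm n s g 1 (1 / 2) a := by
  unfold vs2 tm
  have h1 : (1 + Real.exp (-(2 * g))) ^ a.k =
      2 ^ a.k * ((1 + Real.exp (-(2 * g))) * (1 / 2)) ^ a.k := by
    rw [← mul_pow]
    congr 1
    ring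
  rw [h1, mul_one]
  ring

end KBIGM

open KBIGM in
theorem t_KBIGM (hZ : ZBM_Stmt) (hg : HG_Stmt) (hH : HGM_Stmt) : KBIGM_Stmt := by
  intro a b ha hab
  obtain ⟨C, θ, hC, hθ, hθ1, N, hN⟩ := hZ a b ha hab
  -- the parameters
  set θ' : ℝ := (1 + θ) / 2 with hθ'def
  have hθ' : 0 < θ' := by rw [hθ'def]; linarith
  have hθ'1 : θ' < 1 := by rw [hθ'def]; linarith
  have hθθ' : θ < θ' := by rw [hθ'def]; linarith
  set S : ℝ := ∑' m : ℕ, (m : ℝ) * θ' ^ m with hSdef
  have hS : 0 ≤ S := tsum_nonneg fun m => by positivity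
  set δ : ℝ := (1 / 2) * min (low C b tk1) (low C b lc) with hδdef
  have hδ : 0 < δ := by
    have := lt_min (low_pos (b := b) hC tk1) (low_pos (b := b) hC lc)
    rw [hδdef]; positivity
  set κ : ℝ := min (Real.log (θ' / θ)) (δ / (C * S + 1)) with hκdef
  have hlog : 0 < Real.log (θ' / θ) := Real.log_pos (by rw [one_lt_div hθ]; exact hθθ')
  have hκ : 0 < κ := lt_min hlog (by positivity)
  have hle : Real.exp κ * θ ≤ θ' := by
    have h1 : Real.exp κ ≤ θ' / θ := by
      rw [← Real.exp_log (show 0 < θ' / θ by positivity)]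
      exact Real.exp_le_exp.mpr (min_le_left _ _)
    calc Real.exp κ * θ ≤ θ' / θ * θ := mul_le_mul_of_nonneg_right h1 hθ.le
      _ = θ' := by field_simp
  have hκS : C * κ * S ≤ δ := by
    have h1 : κ ≤ δ / (C * S + 1) := min_le_right _ _
    have h2 : 0 < C * S + 1 := by positivity
    calc C * κ * S = κ * (C * S) := by ring
      _ ≤ δ / (C * S + 1) * (C * S) := mul_le_mul_of_nonneg_right h1 (by positivity)
      _ ≤ δ / (C * S + 1) * (C * S + 1) := mul_le_mul_of_nonneg_left (by linarith) (by positivity)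
      _ = δ := by field_simp
  set C' : ℝ := C * (1 - θ')⁻¹ with hC'def
  obtain ⟨N', hN'⟩ := eventually_small (2 * C' ^ 2 * C) (κ / 2) (by positivity)
  refine ⟨κ / 4, by positivity, max 6 (max N N'), le_max_left _ _, ?_⟩
  intro n hn f g hbox k σ hσ
  have hnN : N ≤ n := (le_max_left N N').trans ((le_max_right _ _).trans hn)
  have hnN' : N' ≤ n := (le_max_right N N').trans ((le_max_right _ _).trans hn)
  obtain ⟨rho, hcrit, htails, hr1, hr2, hZ1, hZ2⟩ := hN n hnN f g hbox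
  have hrho := hcrit.1
  have hp := pieces hC hθ hκ hcrit htails hθ' hθ'1 hle
  obtain ⟨hc0, hc1⟩ := caps hC hθ hrho htails hθ' hθ'1 hle
  set s : ℝ := Real.exp (-f) with hsdef
  have hs : 0 < s := Real.exp_pos _
  set rho' : ℝ := rho * Real.exp κ with hrho'def
  have hrho' : 0 < rho' := by positivity
  have hrr : rho ≤ rho' := by
    rw [hrho'def]
    have := Real.add_one_le_exp κ
    nlinarith
  have hcap2 : (capKM n s g rho') ^ 2 ≤ C' ^ 2 := pow_le_pow_left₀ hc0 hc1 2
  have hlow1 : low C b tk1 ≤ wp s g rho' tk1 := low_le hC hbox (hr1.trans hrr) tk1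
  have hlow2 : low C b lc ≤ wp s g rho' lc := low_le hC hbox (hr1.trans hrr) lc
  have hp' : ∑ p ∈ Pc (2 * n - 1), wp s g rho' p ≤ 1 + δ := by
    refine hp.trans ?_
    rw [← hSdef]
    linarith
  -- the counts
  have hcount1 := hσ.count s g (1 / 2) 1 rho' hs (by norm_num) (by norm_num) hrho' (by
    refine hp'.trans ?_
    have h1 := wp_nonneg (g := g) hs hrho' tk2
    have h2 : δ ≤ 1 / 2 * low C b tk1 := by
      rw [hδdef]
      exact mul_le_mul_of_nonneg_left (min_le_left _ _) (by norm_num)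
    linarith)
  have hcount2 := hσ.count s g 1 (1 / 2) rho' hs (by norm_num) (by norm_num) hrho' (by
    refine hp'.trans ?_
    have h1 := wp_nonneg (g := g) hs hrho' ld
    have h2 : δ ≤ 1 / 2 * low C b lc := by
      rw [hδdef]
      exact mul_le_mul_of_nonneg_left (min_le_right _ _) (by norm_num)
    linarith)
  have hE1 : ∑ i, tm n s g (1 / 2) 1 (σ i) ≤ C' ^ 2 * (rho' ^ n)⁻¹ := by
    rw [← div_eq_mul_inv, le_div_iff₀ (by positivity), mul_comm]
    exact hcount1.trans hcap2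
  have hE2 : ∑ i, tm n s g 1 (1 / 2) (σ i) ≤ C' ^ 2 * (rho' ^ n)⁻¹ := by
    rw [← div_eq_mul_inv, le_div_iff₀ (by positivity), mul_comm]
    exact hcount2.trans hcap2
  have hfew1 : ∑ i ∈ univ.filter (fun i : Fin k => ((σ i).l.length : ℝ) < κ / 4 * n),
      vs2 n s g (σ i) ≤ Real.exp (κ / 4 * n) * ∑ i, tm n s g (1 / 2) 1 (σ i) := by
    rw [Finset.mul_sum]
    refine (Finset.sum_le_sum (fun i hi => ?_)).trans
      (Finset.sum_le_sum_of_subset_of_nonneg (Finset.filter_subset _ _) fun i _ _ =>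
        mul_nonneg (Real.exp_pos _).le (tm_nonneg n hs g (by norm_num) (by norm_num) _))
    rw [Finset.mem_filter] at hi
    rw [vs2_eq1]
    exact mul_le_mul_of_nonneg_right (two_pow_le _ hi.2.le)
      (tm_nonneg n hs g (by norm_num) (by norm_num) _)
  have hfew2 : ∑ i ∈ univ.filter (fun i : Fin k => ((σ i).k : ℝ) < κ / 4 * n),
      vs2 n s g (σ i) ≤ Real.exp (κ / 4 * n) * ∑ i, tm n s g 1 (1 / 2) (σ i) := by
    rw [Finset.mul_sum]
    refine (Finset.sum_le_sum (fun i hi => ?_)).trans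
      (Finset.sum_le_sum_of_subset_of_nonneg (Finset.filter_subset _ _) fun i _ _ =>
        mul_nonneg (Real.exp_pos _).le (tm_nonneg n hs g (by norm_num) (by norm_num) _))
    rw [Finset.mem_filter] at hi
    rw [vs2_eq2]
    exact mul_le_mul_of_nonneg_right (two_pow_le _ hi.2.le)
      (tm_nonneg n hs g (by norm_num) (by norm_num) _)
  have hfew : ∑ i ∈ univ.filter (fun i : Fin k => ((σ i).l.length : ℝ) < κ / 4 * n ∨
      ((σ i).k : ℝ) < κ / 4 * n), vs2 n s g (σ i) ≤
      Real.exp (κ / 4 * n) * (2 * (C' ^ 2 * (rho' ^ n)⁻¹)) := by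
    have h1 : ∑ i ∈ univ.filter (fun i : Fin k => ((σ i).l.length : ℝ) < κ / 4 * n ∨
        ((σ i).k : ℝ) < κ / 4 * n), vs2 n s g (σ i) ≤
        ∑ i ∈ univ.filter (fun i : Fin k => ((σ i).l.length : ℝ) < κ / 4 * n),
          vs2 n s g (σ i) +
        ∑ i ∈ univ.filter (fun i : Fin k => ((σ i).k : ℝ) < κ / 4 * n), vs2 n s g (σ i) := by
      rw [Finset.filter_or]
      have h2 := Finset.sum_union_inter (f := fun i => vs2 n s g (σ i))
        (s₁ := univ.filter (fun i : Fin k => ((σ i).l.length : ℝ) < κ / 4 * n))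
        (s₂ := univ.filter (fun i : Fin k => ((σ i).k : ℝ) < κ / 4 * n))
      have h3 : 0 ≤ ∑ i ∈ univ.filter (fun i : Fin k => ((σ i).l.length : ℝ) < κ / 4 * n) ∩
          univ.filter (fun i : Fin k => ((σ i).k : ℝ) < κ / 4 * n), vs2 n s g (σ i) :=
        Finset.sum_nonneg fun i _ => vs2_nonneg n hs g _
      linarith
    have h4 := hfew1.trans (mul_le_mul_of_nonneg_left hE1 (Real.exp_pos (κ / 4 * n)).le)
    have h5 := hfew2.trans (mul_le_mul_of_nonneg_left hE2 (Real.exp_pos (κ / 4 * n)).le)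
    linarith
  have hZ' : (rho ^ n)⁻¹ ≤ C * sc n * Zm n s g := by
    have h1 : 0 < rho ^ n := by positivity
    rw [inv_le_iff_one_le_mul₀ h1]
    have h2 : C * C⁻¹ ≤ C * (sc n * rho ^ n * Zm n s g) := mul_le_mul_of_nonneg_left hZ1 hC.le
    rw [mul_inv_cancel₀ hC.ne'] at h2
    linarith
  have hZq := Zm_nonneg n hs g
  have hr' : (rho' ^ n)⁻¹ = Real.exp (-(κ * n)) * (rho ^ n)⁻¹ := by
    rw [hrho'def, mul_pow, mul_inv, ← Real.exp_nat_mul, Real.exp_neg, mul_comm (n : ℝ) κ,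
      mul_comm]
  have hsmall := hN' n hnN'
  have hC'0 : 0 ≤ C' ^ 2 := by positivity
  calc ∑ i ∈ univ.filter (fun i : Fin k => ((σ i).l.length : ℝ) < κ / 4 * n ∨
        ((σ i).k : ℝ) < κ / 4 * n), vs2 n s g (σ i)
      ≤ Real.exp (κ / 4 * n) * (2 * (C' ^ 2 * (rho' ^ n)⁻¹)) := hfew
    _ = Real.exp (κ / 4 * n) * (2 * (C' ^ 2 * (Real.exp (-(κ * n)) * (rho ^ n)⁻¹))) := by rw [hr']
    _ ≤ Real.exp (κ / 4 * n) * (2 * (C' ^ 2 * (Real.exp (-(κ * n)) * (C * sc n * Zm n s g)))) := by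
        refine mul_le_mul_of_nonneg_left ?_ (Real.exp_pos _).le
        refine mul_le_mul_of_nonneg_left ?_ (by norm_num)
        refine mul_le_mul_of_nonneg_left ?_ hC'0
        exact mul_le_mul_of_nonneg_left hZ' (Real.exp_pos _).le
    _ = Real.exp (-(κ / 4 * n)) *
        ((2 * C' ^ 2 * C * sc n * Real.exp (-(κ / 2 * n))) * Zm n s g) := by
        have h1 : Real.exp (κ / 4 * n) * Real.exp (-(κ * n)) =
            Real.exp (-(κ / 4 * n)) * Real.exp (-(κ / 2 * n)) := by
          rw [← Real.exp_add, ← Real.exp_add]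
          congr 1
          ring
        calc Real.exp (κ / 4 * n) *
              (2 * (C' ^ 2 * (Real.exp (-(κ * n)) * (C * sc n * Zm n s g))))
            = (Real.exp (κ / 4 * n) * Real.exp (-(κ * n))) *
                (2 * C' ^ 2 * C * sc n * Zm n s g) := by ring
          _ = (Real.exp (-(κ / 4 * n)) * Real.exp (-(κ / 2 * n))) *
              (2 * C' ^ 2 * C * sc n * Zm n s g) := by rw [h1]
          _ = _ := by ring
    _ ≤ Real.exp (-(κ / 4 * n)) * (1 * Zm n s g) := by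
        refine mul_le_mul_of_nonneg_left ?_ (Real.exp_pos _).le
        exact mul_le_mul_of_nonneg_right hsmall hZq
    _ = Real.exp (-(κ / 4 * n)) * Zm n s g := by rw [one_mul]

end Pool.Agent.TPT
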