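import Pool.Agent.TPT.StmtsB
import Pool.Agent.EXW.QSIDE

/-!
# Project TPT: module LAPM, asymptotic continuity of the Laplace transforms
-/

set_option autoImplicit false

namespace Pool.Agent.TPT

open Finset Filter Topology MeasureTheory
open Pool.Agent.Lib27 Pool.Agent.SapR Pool.Agent.AreaLaw
open Pool.Agent.FL (Wd hl htn)
open Pool.Agent.FS (sc)
open Pool.Agent.Gap (IsCap closeP lap mn epsn)

namespace LAPM

/-- the scale of the staircase polygons -/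
noncomputable def nz (n : ℕ) (q : ℝ × ℝ × ℝ) : ℕ := ⌊2 * q.2.2 * n / q.1⌋₊

/-- argument of the Laplace transform of the staircase polygons -/
noncomputable def yy (n : ℕ) (q : ℝ × ℝ × ℝ) (lam : ℝ) : ℝ :=
  q.2.1 / (2 * q.2.2) * (((nz n q : ℝ) * Real.sqrt (nz n q)) / ((n : ℝ) * Real.sqrt n)) * lam

/-- the parameters of a kernel -/
noncomputable def qq (G : TPK.GapKernel) : ℝ × ℝ × ℝ := (G.mbar, G.hbar, G.sig2)

/-- evaluation of the area polynomial -/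
lemma eval_eq {n : ℕ} {s g : ℝ} (d : KData n s g) (y : ℝ) :
    (closeP (2 * n) (capM n s g) d.B n).eval y = ∑ q ∈ Omm n, wm n s g q * y ^ (am n q) := by
  have h := congrArg (Polynomial.eval y) d.count
  rw [Polynomial.eval_finsetSum] at h
  rw [← h]
  refine Finset.sum_congr rfl fun q _ => ?_
  rw [Polynomial.eval_mul, Polynomial.eval_C, Polynomial.eval_pow, Polynomial.eval_X]

/-- the Laplace transform in terms of the data -/
lemma lapM_eq {n : ℕ} {s g : ℝ} (d : KData n s g) (lam : ℝ) : lapM n s g lam =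
    (closeP (2 * n) (capM n s g) d.B n).eval (Real.exp (-(epsn lam n))) /
      (closeP (2 * n) (capM n s g) d.B n).eval 1 := by
  rw [eval_eq, eval_eq]
  unfold lapM Zm
  congr 1
  · refine Finset.sum_congr rfl fun q _ => ?_
    congr 1
    rw [← Real.exp_nat_mul]
    congr 1
    unfold rm sc epsn
    ring
  · refine Finset.sum_congr rfl fun q _ => ?_
    rw [one_pow, mul_one]

lemma sc0_mono {K K' : ℕ} (h : K ≤ K') {D W : ℝ} {G : TPK.GapKernel} {n n0 : ℕ}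
    (hS : TPK.Sc0 K' D W G n n0) : TPK.Sc0 K D W G n n0 := by
  refine ⟨hS.D2, hS.W2, hS.cls, le_trans (pow_le_pow_right₀ ?_ h) hS.big, hS.near⟩
  nlinarith [hS.D2, hS.W2]

lemma near_floor {n : ℕ} {mb sg : ℝ} (hmb : 0 < mb) (hsg : 0 ≤ sg) :
    |((⌊2 * sg * n / mb⌋₊ : ℕ) : ℝ) * mb - 2 * sg * n| ≤ mb := by
  obtain ⟨x, hx⟩ : ∃ x, x = 2 * sg * n / mb := ⟨_, rfl⟩
  have hx0 : 0 ≤ x := by rw [hx]; positivity
  have e : ((⌊2 * sg * n / mb⌋₊ : ℕ) : ℝ) * mb - 2 * sg * n = ((⌊x⌋₊ : ℝ) - x) * mb := by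
    rw [hx]; field_simp
  rw [e, abs_mul, abs_of_pos hmb]
  refine mul_le_of_le_one_left hmb.le ?_
  rw [abs_le]
  constructor
  · have := Nat.lt_floor_add_one x
    linarith
  · have := Nat.floor_le hx0
    linarith

lemma tendsto_qn : Tendsto Gap.qn atTop atTop := by
  unfold Gap.qn
  exact Real.tendsto_sqrt_atTop.comp (Real.tendsto_sqrt_atTop.comp tendsto_natCast_atTop_atTop)

/-- comparison with the staircase polygons, uniformly in the data -/
lemma cmp (hPA : TPK.QPAR_Stmt) (hR : TPK.QRAT_Stmt) {D : ℝ} (hD2 : 2 ≤ D) {lam : ℝ}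
    (hlam : 0 ≤ lam) {δ : ℝ} (hδ : 0 < δ) : ∃ N : ℕ, ∀ n : ℕ, N ≤ n → ∀ (f g : ℝ)
      (d : KData n (Real.exp (-f)) g), KOk D n f g d →
      |lapM n (Real.exp (-f)) g lam -
        lap EXW.QSIDE.P0 (nz n (qq d.G)) (yy n (qq d.G) lam)| ≤ δ := by
  obtain ⟨K0, K1, hR⟩ := hR
  obtain ⟨K0', K1', hPA⟩ := hPA
  obtain ⟨Kp, hpar⟩ := TPK.par_bounds
  have hD0 : 0 < D := by linarith
  have hD1 : 1 ≤ D := by linarith
  obtain ⟨W, hW⟩ : ∃ W : ℝ, W = 2 + D ^ K0 + D ^ (Kp + 1 + 2 * K1') * lam +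
    (2 * D ^ K1 / δ) ^ 2 := ⟨_, rfl⟩
  have w1 : 0 ≤ D ^ K0 := by positivity
  have w2 : 0 ≤ D ^ (Kp + 1 + 2 * K1') * lam := by positivity
  have w3 : 0 ≤ (2 * D ^ K1 / δ) ^ 2 := by positivity
  have hW2 : 2 ≤ W := by linarith
  have hW0 : 0 < W := by linarith
  have hWK : D ^ K0 ≤ W := by linarith
  have hWy : D ^ (Kp + 1 + 2 * K1') * lam ≤ W := by linarith
  have hWs : D ^ K1 / Real.sqrt W ≤ δ / 2 := by
    have h1 : 2 * D ^ K1 / δ ≤ Real.sqrt W := Real.le_sqrt_of_sq_le (by linarith)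
    rw [div_le_iff₀ (Real.sqrt_pos.2 hW0)]
    calc D ^ K1 = δ / 2 * (2 * D ^ K1 / δ) := by field_simp
      _ ≤ δ / 2 * Real.sqrt W := mul_le_mul_of_nonneg_left h1 (by positivity)
  have hev : ∀ᶠ n : ℕ in atTop, (D * W) ^ (K0 + K0') ≤ (n : ℝ) ∧
      (D * W) ^ K1 / Gap.qn n ≤ δ / 2 := by
    refine (tendsto_natCast_atTop_atTop.eventually_ge_atTop _).and ?_
    exact (tendsto_qn.const_div_atTop ((D * W) ^ K1)).eventually (ge_mem_nhds (by positivity))
  obtain ⟨N, hN⟩ := eventually_atTop.1 hev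
  refine ⟨N, fun n hn f g d hd => ?_⟩
  obtain ⟨hb, hq⟩ := hN n hn
  obtain ⟨p1, p2, p3, p4, p5, p6⟩ := hpar D hD2 d.G hd.cls
  have hmb : 0 < d.G.mbar := by linarith
  have hh : 0 < d.G.hbar := by linarith
  have hsg : 0 < d.G.sig2 := lt_of_lt_of_le (inv_pos.2 hD0) p5
  obtain ⟨V, hV⟩ := hd.csol
  obtain ⟨n0, hn0⟩ : ∃ n0 : ℕ, n0 = nz n (qq d.G) := ⟨_, rfl⟩
  have hS : TPK.Sc0 (K0 + K0') D W d.G n n0 :=
    ⟨hD2, hW2, hd.cls, hb, by rw [hn0]; exact near_floor hmb hsg.le⟩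
  obtain ⟨c1, c2, c3, c4, c5, c6⟩ := (hPA D W d.G n n0 0 0 ⟨sc0_mono (by omega) hS, le_rfl, by
      rw [zero_mul]; exact hW0.le, by rw [mul_zero, mul_zero]⟩).1
  have hn' : (0 : ℝ) < n := by exact_mod_cast c1
  have hnn : (0 : ℝ) < n0 := by exact_mod_cast c2
  have hsn : 0 < Real.sqrt n := Real.sqrt_pos.2 hn'
  have hsn0 : 0 < Real.sqrt n0 := Real.sqrt_pos.2 hnn
  obtain ⟨y, hy⟩ : ∃ y : ℝ, y = yy n (qq d.G) lam := ⟨_, rfl⟩
  have hye : y = d.G.hbar / (2 * d.G.sig2) *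
      (((n0 : ℝ) * Real.sqrt n0) / ((n : ℝ) * Real.sqrt n)) * lam := by
    rw [hy, hn0]; rfl
  have hy0 : 0 ≤ y := by rw [hye]; positivity
  have e1 : epsn y n0 * ((n0 : ℝ) * Real.sqrt n0) = y := by
    unfold epsn; field_simp
  have e2 : d.G.hbar * epsn lam n = 2 * d.G.sig2 * epsn y n0 := by
    rw [hye]
    unfold epsn
    field_simp
  have hyW : y ≤ W := by
    have hDK : (1 : ℝ) ≤ D ^ K1' := one_le_pow₀ hD1
    have h1 : Real.sqrt n0 ≤ D ^ K1' * Real.sqrt n := by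
      calc Real.sqrt n0 ≤ Real.sqrt (D ^ K1' * n) := Real.sqrt_le_sqrt c6
        _ = Real.sqrt (D ^ K1') * Real.sqrt n := Real.sqrt_mul (by positivity) _
        _ ≤ D ^ K1' * Real.sqrt n := by
          refine mul_le_mul_of_nonneg_right ?_ hsn.le
          rw [Real.sqrt_le_left (by positivity)]
          exact le_self_pow₀ hDK (by norm_num)
    have h2 : (n0 : ℝ) * Real.sqrt n0 ≤ D ^ (2 * K1') * ((n : ℝ) * Real.sqrt n) := by
      calc (n0 : ℝ) * Real.sqrt n0 ≤ (D ^ K1' * n) * (D ^ K1' * Real.sqrt n) :=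
            mul_le_mul c6 h1 hsn0.le (by positivity)
        _ = _ := by ring
    have h3 : ((n0 : ℝ) * Real.sqrt n0) / ((n : ℝ) * Real.sqrt n) ≤ D ^ (2 * K1') := by
      rw [div_le_iff₀ (by positivity)]
      exact h2
    have h4 : d.G.hbar / (2 * d.G.sig2) ≤ D ^ (Kp + 1) := by
      rw [div_le_iff₀ (by positivity), pow_succ]
      have h5 : 1 ≤ D * d.G.sig2 := by
        have := mul_le_mul_of_nonneg_left p5 hD0.le
        rwa [mul_inv_cancel₀ hD0.ne'] at this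
      have h6 : 0 < D ^ Kp := by positivity
      calc d.G.hbar ≤ D ^ Kp * 1 := by linarith
        _ ≤ D ^ Kp * (2 * (D * d.G.sig2)) := mul_le_mul_of_nonneg_left (by linarith) h6.le
        _ = D ^ Kp * D * (2 * d.G.sig2) := by ring
    refine le_trans ?_ hWy
    rw [hye]
    refine mul_le_mul_of_nonneg_right ?_ hlam
    rw [pow_add]
    exact mul_le_mul h4 h3 (by positivity) (by positivity)
  have a8 := (hR D hD2 d.G hd.cls (2 * n) (capM n (Real.exp (-f)) g) (capM n (Real.exp (-f)) g)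
    V V d.B hd.ccap hd.ccap hV hV d.sol W n n0 (sc0_mono (by omega) hS) hWK).2.1
    (epsn lam n) (epsn y n0) (Gap.epsn_nonneg35 hy0 _) (by rw [e1]; exact hyW) e2
  rw [lapM_eq d, ← hn0, ← hy]
  refine le_trans a8 ?_
  linarith

/-- the limit of the argument -/
noncomputable def y0 (q : ℝ × ℝ × ℝ) (lam : ℝ) : ℝ :=
  q.2.1 / (2 * q.2.2) * ((2 * q.2.2 / q.1) * Real.sqrt (2 * q.2.2 / q.1)) * lam

/-- the staircase side along a sequence with convergent parameters -/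
lemma lim_stair {L : ℝ → ℝ} {m0 : ℝ} (hpos0 : ∀ᶠ n : ℕ in atTop, 0 < (EXW.QSIDE.P0 n).eval 1)
    (hmean0 : Tendsto (mn EXW.QSIDE.P0) atTop (𝓝 m0))
    (hlap0 : ∀ lam : ℝ, 0 ≤ lam →
      Tendsto (fun n => lap EXW.QSIDE.P0 n lam) atTop (𝓝 (L lam / L 0)))
    {m : ℕ → ℕ} (hm : Tendsto m atTop atTop) {q : ℕ → ℝ × ℝ × ℝ} {q0 : ℝ × ℝ × ℝ}
    (hq : Tendsto q atTop (𝓝 q0)) (h1 : 0 < q0.1) (h2 : 0 < q0.2.1) (h3 : 0 < q0.2.2)
    (hqp : ∀ k, 0 < (q k).1 ∧ 0 < (q k).2.1 ∧ 0 < (q k).2.2) {lam : ℝ} (hlam : 0 ≤ lam) :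
    Tendsto (fun k => lap EXW.QSIDE.P0 (nz (m k) (q k)) (yy (m k) (q k) lam)) atTop
      (𝓝 (L (y0 q0 lam) / L 0)) := by
  have l1 : Tendsto (fun k => (q k).1) atTop (𝓝 q0.1) := (continuous_fst.tendsto q0).comp hq
  have l2 : Tendsto (fun k => (q k).2.1) atTop (𝓝 q0.2.1) :=
    ((continuous_fst.comp continuous_snd).tendsto q0).comp hq
  have l3 : Tendsto (fun k => (q k).2.2) atTop (𝓝 q0.2.2) :=
    ((continuous_snd.comp continuous_snd).tendsto q0).comp hq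
  have hβ0 : 0 < 2 * q0.2.2 / q0.1 := by positivity
  have lβ : Tendsto (fun k => 2 * (q k).2.2 / (q k).1) atTop (𝓝 (2 * q0.2.2 / q0.1)) :=
    (l3.const_mul 2).div l1 h1.ne'
  have hmR : Tendsto (fun k => (m k : ℝ)) atTop atTop := tendsto_natCast_atTop_atTop.comp hm
  have hinv : Tendsto (fun k => 1 / (m k : ℝ)) atTop (𝓝 0) := hmR.const_div_atTop 1
  -- the ratio of the scales
  have lr : Tendsto (fun k => (nz (m k) (q k) : ℝ) / m k) atTop (𝓝 (2 * q0.2.2 / q0.1)) := by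
    have h4 : Tendsto (fun k => (nz (m k) (q k) : ℝ) / m k - 2 * (q k).2.2 / (q k).1) atTop
        (𝓝 0) := by
      refine squeeze_zero_norm' ?_ hinv
      filter_upwards [hm.eventually (eventually_ge_atTop 1)] with k hk
      have hk0 : (0 : ℝ) < m k := by exact_mod_cast hk
      obtain ⟨g1, -, g3⟩ := hqp k
      have h5 := near_floor (n := m k) g1 g3.le
      have e : (nz (m k) (q k) : ℝ) / m k - 2 * (q k).2.2 / (q k).1 =
          ((nz (m k) (q k) : ℝ) * (q k).1 - 2 * (q k).2.2 * m k) / (m k * (q k).1) := by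
        field_simp
      rw [Real.norm_eq_abs, e, abs_div, abs_of_pos (mul_pos hk0 g1), div_le_div_iff₀
        (mul_pos hk0 g1) hk0, one_mul]
      unfold nz
      calc |((⌊2 * (q k).2.2 * (m k : ℝ) / (q k).1⌋₊ : ℕ) : ℝ) * (q k).1 -
            2 * (q k).2.2 * (m k : ℝ)| * (m k : ℝ) ≤ (q k).1 * m k :=
            mul_le_mul_of_nonneg_right h5 hk0.le
        _ = m k * (q k).1 := mul_comm _ _
    have h6 := h4.add lβ
    rw [zero_add] at h6
    exact h6.congr fun k => by ring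
  have hnzt : Tendsto (fun k => nz (m k) (q k)) atTop atTop := by
    have h4 : Tendsto (fun k => (nz (m k) (q k) : ℝ)) atTop atTop := by
      refine (lr.pos_mul_atTop hβ0 hmR).congr' ?_
      filter_upwards [hm.eventually (eventually_ge_atTop 1)] with k hk
      have hk0 : (m k : ℝ) ≠ 0 := by
        have : m k ≠ 0 := by omega
        exact_mod_cast this
      field_simp
    exact tendsto_natCast_atTop_iff.1 h4
  -- the argument
  have ly : Tendsto (fun k => yy (m k) (q k) lam) atTop (𝓝 (y0 q0 lam)) := by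
    have h4 : Tendsto (fun k => (q k).2.1 / (2 * (q k).2.2)) atTop
        (𝓝 (q0.2.1 / (2 * q0.2.2))) := l2.div (l3.const_mul 2) (by positivity)
    have h5 : Tendsto (fun k => ((nz (m k) (q k) : ℝ) / m k) *
        Real.sqrt ((nz (m k) (q k) : ℝ) / m k)) atTop
        (𝓝 ((2 * q0.2.2 / q0.1) * Real.sqrt (2 * q0.2.2 / q0.1))) :=
      lr.mul ((Real.continuous_sqrt.tendsto _).comp lr)
    have h6 := (h4.mul h5).mul_const lam
    refine h6.congr fun k => ?_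
    unfold yy
    rw [Real.sqrt_div (Nat.cast_nonneg _), ← mul_div_mul_comm]
  have hy00 : 0 ≤ y0 q0 lam := by unfold y0; positivity
  have h4 : Tendsto (fun k => lap EXW.QSIDE.P0 (nz (m k) (q k)) (y0 q0 lam)) atTop
      (𝓝 (L (y0 q0 lam) / L 0)) := (hlap0 _ hy00).comp hnzt
  have h5 : Tendsto (fun k => lap EXW.QSIDE.P0 (nz (m k) (q k)) (yy (m k) (q k) lam) -
      lap EXW.QSIDE.P0 (nz (m k) (q k)) (y0 q0 lam)) atTop (𝓝 0) := by
    have h6 : Tendsto (fun k => |yy (m k) (q k) lam - y0 q0 lam| *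
        mn EXW.QSIDE.P0 (nz (m k) (q k))) atTop (𝓝 0) := by
      have h7 := ((ly.sub_const (y0 q0 lam)).abs).mul (hmean0.comp hnzt)
      rw [sub_self, abs_zero, zero_mul] at h7
      exact h7
    refine squeeze_zero_norm' ?_ h6
    filter_upwards [hnzt.eventually hpos0, hnzt.eventually (eventually_ge_atTop 1)]
      with k a2 a3
    rw [Real.norm_eq_abs]
    refine EXW.QSIDE.lap_lip a3 (fun j => EXW.QSIDE.coeff0 _ j) a2 ?_ hy00
    obtain ⟨g1, g2, g3⟩ := hqp k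
    unfold yy
    positivity
  have h6 := h5.add h4
  rw [zero_add] at h6
  exact h6.congr fun k => by ring

/-- the data of a sequence of forces -/
lemma seqdat (hPA : TPK.QPAR_Stmt) (hR : TPK.QRAT_Stmt) {D : ℝ} (hD2 : 2 ≤ D) {N : ℕ}
    {a b : ℝ} (hdat : ∀ n : ℕ, N ≤ n → ∀ f g : ℝ, Box a b f g →
      ∃ d : KData n (Real.exp (-f)) g, KOk D n f g d) {lam : ℝ} (hlam : 0 ≤ lam)
    {f g : ℕ → ℝ} (hF : ∀ n, Box a b (f n) (g n)) :
    ∃ (q : ℕ → ℝ × ℝ × ℝ) (rho : ℕ → ℝ), (∀ n, ∃ G : TPK.GapKernel, TPK.Cls D (1 - D⁻¹) G ∧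
        q n = qq G) ∧
      (∀ n, N ≤ n → CritM n (Real.exp (-(f n))) (g n) (rho n) ∧
        q n = (par n (Real.exp (-(f n))) (g n) (rho n) 0,
          par n (Real.exp (-(f n))) (g n) (rho n) 1,
          par n (Real.exp (-(f n))) (g n) (rho n) 2)) ∧
      Tendsto (fun n : ℕ => lapM n (Real.exp (-(f n))) (g n) lam -
        lap EXW.QSIDE.P0 (nz n (q n)) (yy n (q n) lam)) atTop (𝓝 0) := by
  classical
  choose d hd using fun (n : ℕ) (hn : N ≤ n) => hdat n hn (f n) (g n) (hF n)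
  refine ⟨fun n => if h : N ≤ n then qq (d n h).G else qq (d N le_rfl).G,
    fun n => if h : N ≤ n then (d n h).G.rho else 1, ?_, ?_, ?_⟩
  · intro n
    by_cases h : N ≤ n
    · simp only [dif_pos h]
      exact ⟨_, (hd n h).cls, rfl⟩
    · simp only [dif_neg h]
      exact ⟨_, (hd N le_rfl).cls, rfl⟩
  · intro n h
    simp only [dif_pos h]
    refine ⟨(d n h).crit, ?_⟩
    unfold qq
    rw [(d n h).mbar, (d n h).hbar, (d n h).sig2]
  · rw [Metric.tendsto_atTop]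
    intro δ hδ
    obtain ⟨N2, hN2⟩ := cmp hPA hR hD2 hlam (half_pos hδ)
    refine ⟨max N N2, fun n hn => ?_⟩
    have h : N ≤ n := (le_max_left _ _).trans hn
    have h2 := hN2 n ((le_max_right _ _).trans hn) (f n) (g n) (d n h) (hd n h)
    simp only [dif_pos h]
    rw [Real.dist_eq, sub_zero]
    linarith

end LAPM

open LAPM in
theorem t_LAPM (hD : DATB_Stmt) (hPM : PARM_Stmt) (hPA : TPK.QPAR_Stmt) (hR : TPK.QRAT_Stmt)
    (o1 : Gap.LT1_Stmt) (oM2 : Gap.M2_Stmt) (oB : Gap.BAL_Stmt) : LAPM_Stmt := by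
  intro a b K lam ha hab hK hlam f g f' g' hF hF' hclose
  obtain ⟨L, m0, C', hL0, hm0, hC', hL, hexp⟩ := Gap.stair_side o1 oM2 oB
  obtain ⟨hpos0, hmean0, hlap0⟩ := EXW.QSIDE.stair_mean oM2 oB hL0 hL hexp
  obtain ⟨D, hD2, N, hN3, hdat⟩ := hD a b ha hab
  obtain ⟨CP, η, hCP, hη, N1, hP⟩ := hPM a b ha hab
  obtain ⟨Kp, hpar⟩ := TPK.par_bounds
  have hD0 : 0 < D := by linarith
  obtain ⟨q, rho, q1, q2, q3⟩ := seqdat hPA hR hD2 hdat hlam hF
  obtain ⟨q', rho', q1', q2', q3'⟩ := seqdat hPA hR hD2 hdat hlam hF'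
  have hpos : ∀ {p : ℕ → ℝ × ℝ × ℝ}, (∀ n, ∃ G : TPK.GapKernel, TPK.Cls D (1 - D⁻¹) G ∧
      p n = qq G) → ∀ n, 0 < (p n).1 ∧ 0 < (p n).2.1 ∧ 0 < (p n).2.2 := by
    intro p hp n
    obtain ⟨G, hG, e⟩ := hp n
    obtain ⟨p1, -, p3, -, p5, -⟩ := hpar D hD2 G hG
    rw [e]
    exact ⟨lt_of_lt_of_le one_pos p1, lt_of_lt_of_le one_pos p3,
      lt_of_lt_of_le (inv_pos.2 hD0) p5⟩
  have hIcc : ∀ n, q n ∈ Set.Icc ((1 : ℝ), (1 : ℝ), D⁻¹) (D ^ Kp, D ^ Kp, D ^ Kp) := by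
    intro n
    obtain ⟨G, hG, e⟩ := q1 n
    obtain ⟨p1, p2, p3, p4, p5, p6⟩ := hpar D hD2 G hG
    rw [e, Set.mem_Icc]
    exact ⟨⟨p1, p3, p5⟩, ⟨p2, p4, p6⟩⟩
  -- the parameters of the two sequences are close
  have hsq : Tendsto (fun n : ℕ => K / Real.sqrt (n : ℝ)) atTop (𝓝 0) :=
    (Real.tendsto_sqrt_atTop.comp tendsto_natCast_atTop_atTop).const_div_atTop K
  have hdist : Tendsto (fun n => dist (q n) (q' n)) atTop (𝓝 0) := by
    refine squeeze_zero' (Eventually.of_forall fun n => dist_nonneg) ?_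
      (g := fun n : ℕ => CP * (K / Real.sqrt (n : ℝ) + K / Real.sqrt (n : ℝ)))
      (by simpa using (hsq.add hsq).const_mul CP)
    filter_upwards [hsq.eventually (gt_mem_nhds hη), eventually_ge_atTop N,
      eventually_ge_atTop N1, eventually_ge_atTop 1] with n k1 k2 k3 k4
    obtain ⟨c1, c2⟩ := hclose n k4
    rw [abs_sub_comm] at c1 c2
    have hc' := (q2' n k2).1
    have h1 := hP n k3 (f n) (g n) (f' n - f n) (g' n - g n) (rho n) (rho' n) (hF n)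
      (c1.trans k1.le) (c2.trans k1.le) (q2 n k2).1
      (by rw [add_sub_cancel, add_sub_cancel]; exact hc')
    rw [add_sub_cancel, add_sub_cancel] at h1
    have h2 : ∀ i : Fin 3, dist (par n (Real.exp (-(f n))) (g n) (rho n) i)
        (par n (Real.exp (-(f' n))) (g' n) (rho' n) i) ≤
        CP * (K / Real.sqrt (n : ℝ) + K / Real.sqrt (n : ℝ)) := by
      intro i
      rw [dist_comm, Real.dist_eq]
      exact (h1 i).trans (mul_le_mul_of_nonneg_left (add_le_add c1 c2) hCP.le)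
    rw [(q2 n k2).2, (q2' n k2).2, Prod.dist_eq, Prod.dist_eq]
    exact max_le (h2 0) (max_le (h2 1) (h2 2))
  refine tendsto_of_subseq_tendsto fun ns hns => ?_
  obtain ⟨q0, hq0, φ, hφ, hlim⟩ := (isCompact_Icc (a := ((1 : ℝ), (1 : ℝ), D⁻¹))
    (b := (D ^ Kp, D ^ Kp, D ^ Kp))).tendsto_subseq (x := fun k => q (ns k)) (fun k => hIcc _)
  rw [Set.mem_Icc] at hq0
  have z1 : 0 < q0.1 := lt_of_lt_of_le one_pos hq0.1.1
  have z2 : 0 < q0.2.1 := lt_of_lt_of_le one_pos hq0.1.2.1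
  have z3 : 0 < q0.2.2 := lt_of_lt_of_le (inv_pos.2 hD0) hq0.1.2.2
  have hm : Tendsto (fun k => ns (φ k)) atTop atTop := hns.comp hφ.tendsto_atTop
  have hlim1 : Tendsto (fun k => q (ns (φ k))) atTop (𝓝 q0) := hlim
  have hlim2 : Tendsto (fun k => q' (ns (φ k))) atTop (𝓝 q0) :=
    tendsto_of_tendsto_of_dist hlim1 (hdist.comp hm)
  refine ⟨φ, ?_⟩
  have s1 := lim_stair hpos0 hmean0 hlap0 hm hlim1 z1 z2 z3 (fun k => hpos q1 _) hlam
  have s2 := lim_stair hpos0 hmean0 hlap0 hm hlim2 z1 z2 z3 (fun k => hpos q1' _) hlam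
  have t1 := (q3.comp hm).add s1
  have t2 := (q3'.comp hm).add s2
  have t3 := t1.sub t2
  rw [sub_self] at t3
  refine t3.congr fun k => ?_
  simp only [Function.comp_apply]
  ring

end Pool.Agent.TPT
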