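import Pool.Agent.TPT.StmtsA
import Pool.Agent.NSP.LOCM

/-!
# TPT_LOCA: moments of the area functional at fixed difference of the marks (MP_f6626d_co)
-/

set_option autoImplicit false

namespace Pool.Agent.TPT.LOCA

open Finset Filter Topology MeasureTheory
open Pool.Agent.Lib27 Pool.Agent.SapR Pool.Agent.AreaLaw Pool.Agent.FL
open Pool.Agent.FS (sc rs bp rs_mul rs_add rs_mono rs_congr rs_nonneg)

lemma key {n k : ℕ} {σ : Fin k → Sk2} (h : IsSk2 n k σ) (s g : ℝ) (G : ℤ → ℤ → ℤ → ℝ) :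
    ∑ q ∈ Omm n, wm n s g q * G (zl q) (zt q) (am n q) =
      ∑ i, s ^ (n - (σ i).H) * Real.exp (g * (σ i).Λ) * rs (σ i).l (fun j t =>
        (s * Real.exp (-g)) ^ j * ∑ b ∈ range ((σ i).k + 1), ((σ i).k.choose b : ℝ) *
          (Real.exp (-(2 * g)) ^ b * G ((σ i).H - j) ((σ i).Λ - j - 2 * b) ((σ i).A - t))) := by
  have h1 := h.repr (fun a b c => s ^ (n - a.toNat) * Real.exp (g * b) * G a b c)
  have h2 : ∀ q ∈ Omm n, wm n s g q * G (zl q) (zt q) (am n q) =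
      s ^ (n - (zl q : ℤ).toNat) * Real.exp (g * ((zt q : ℤ) : ℝ)) *
        G (zl q) (zt q) (am n q) := fun q _ => by
    rw [Int.toNat_natCast]; rfl
  rw [sum_congr rfl h2, h1]
  refine sum_congr rfl fun i _ => ?_
  rw [← rs_mul]
  refine rs_congr _ _ _ fun j t hj ht => ?_
  have h3 := h.len_le i
  have h4 := h.H_le i
  rw [mul_sum, mul_sum]
  refine sum_congr rfl fun b _ => ?_
  have e1 : n - (((σ i).H : ℤ) - (j : ℤ)).toNat = (n - (σ i).H) + j := by omega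
  have e2 : Real.exp (g * (((σ i).Λ - (j : ℤ) - 2 * (b : ℤ) : ℤ) : ℝ)) =
      Real.exp (g * (σ i).Λ) * Real.exp (-g) ^ j * Real.exp (-(2 * g)) ^ b := by
    rw [← Real.exp_nat_mul, ← Real.exp_nat_mul, ← Real.exp_add, ← Real.exp_add]
    congr 1
    push_cast
    ring
  rw [e1, e2, pow_add, mul_pow]
  ring

lemma sum_choose (w : ℝ) (k : ℕ) :
    ∑ b ∈ range (k + 1), (k.choose b : ℝ) * w ^ b = (1 + w) ^ k := by
  rw [add_comm 1 w, add_pow]
  refine sum_congr rfl fun b _ => ?_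
  rw [one_pow]
  ring

/-- one value of `b` -/
lemma sum_ind {w : ℝ} (hw : 0 < w) (k : ℕ) (m : ℤ) (c : ℝ) :
    ∑ b ∈ range (k + 1), (k.choose b : ℝ) * (w ^ b * (if (b : ℤ) = m then c else 0)) =
      (1 + w) ^ k * (bp k (w / (1 + w)) m * c) := by
  by_cases hm : 0 ≤ m ∧ m ≤ k
  · obtain ⟨j0, hj0⟩ : ∃ j0 : ℕ, (j0 : ℤ) = m := ⟨m.toNat, Int.toNat_of_nonneg hm.1⟩
    subst hj0
    have hj : j0 ≤ k := by exact_mod_cast hm.2
    rw [sum_eq_single j0]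
    · rw [if_pos rfl, ← mul_assoc, Pool.Agent.FS.LOC.choose_pow hw hj]
      ring
    · intro b _ hb
      rw [if_neg (by exact_mod_cast hb)]
      ring
    · intro h
      exact absurd (mem_range.2 (by omega)) h
  · have h0 : bp k (w / (1 + w)) m = 0 := by
      unfold Pool.Agent.FS.bp
      rw [if_neg hm]
    rw [h0, zero_mul, mul_zero]
    refine sum_eq_zero fun j hj => ?_
    have := mem_range.1 hj
    rw [if_neg (by intro h; apply hm; rw [← h]; constructor <;> omega)]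
    ring

lemma area_ge {n k : ℕ} {σ : Fin k → Sk2} (sk : IsSk2 n k σ) (i : Fin k) {t : ℕ}
    (ht : t ≤ (σ i).l.sum) :
    3 / 4 * ((σ i).A : ℝ) ≤ ((((σ i).A : ℤ) - (t : ℤ) : ℤ) : ℝ) ∧
      ((((σ i).A : ℤ) - (t : ℤ) : ℤ) : ℝ) ≤ ((σ i).A : ℝ) := by
  have h1 := sk.sum_le i
  have h2 : 4 * (t : ℝ) ≤ ((σ i).A : ℝ) := by
    have : 4 * t ≤ (σ i).A := by omega
    exact_mod_cast this
  have h3 : (0 : ℝ) ≤ t := by positivity
  push_cast
  constructor <;> linarith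

lemma vpos (n : ℕ) {s : ℝ} (hs : 0 < s) (g : ℝ) (a : Sk2) : 0 ≤ vs2 n s g a := by
  unfold vs2
  positivity

lemma Z_eq {n k : ℕ} {σ : Fin k → Sk2} (sk : IsSk2 n k σ) (s g : ℝ) :
    Zm n s g = ∑ i, vs2 n s g (σ i) := by
  have h := key sk s g (fun _ _ _ => 1)
  simp only [mul_one] at h
  unfold Zm
  rw [h]
  refine sum_congr rfl fun i _ => ?_
  have h2 : ∀ j : ℕ, (s * Real.exp (-g)) ^ j *
      ∑ b ∈ range ((σ i).k + 1), ((σ i).k.choose b : ℝ) * Real.exp (-(2 * g)) ^ b =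
      (1 + Real.exp (-(2 * g))) ^ (σ i).k * (s * Real.exp (-g)) ^ j := fun j => by
    rw [sum_choose, mul_comm]
  simp only [h2]
  rw [rs_mul (σ i).l _ (fun j _ => (s * Real.exp (-g)) ^ j), Pool.Agent.FS.LOC.rs_pow]
  unfold vs2
  ring

lemma sumA {n k : ℕ} {σ : Fin k → Sk2} (sk : IsSk2 n k σ) (hn : 1 ≤ n) {s g CA : ℝ} (hs : 0 < s)
    (r : ℕ) (arm : ∑ q ∈ Omm n, wm n s g q * rm n q ^ r ≤ CA * Zm n s g) :
    ∑ i, vs2 n s g (σ i) * (((σ i).A : ℝ) / sc n) ^ r ≤ (4 / 3) ^ r * CA * Zm n s g := by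
  have h := key sk s g (fun _ _ c => ((c : ℝ) / sc n) ^ r)
  have h2 : ∑ q ∈ Omm n, wm n s g q * rm n q ^ r =
      ∑ q ∈ Omm n, wm n s g q * ((((am n q : ℕ) : ℤ) : ℝ) / sc n) ^ r := by
    refine sum_congr rfl fun q _ => ?_
    unfold rm
    push_cast
    rfl
  rw [h2, h] at arm
  have hsc := Pool.Agent.NSP.LOCM.scpos hn
  have h3 : ∑ i, vs2 n s g (σ i) * ((3 / 4 : ℝ) ^ r * (((σ i).A : ℝ) / sc n) ^ r) ≤
      ∑ i, s ^ (n - (σ i).H) * Real.exp (g * (σ i).Λ) * rs (σ i).l (fun j t =>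
        (s * Real.exp (-g)) ^ j * ∑ b ∈ range ((σ i).k + 1), ((σ i).k.choose b : ℝ) *
          (Real.exp (-(2 * g)) ^ b *
            ((((((σ i).A : ℤ) - (t : ℤ) : ℤ)) : ℝ) / sc n) ^ r)) := by
    refine sum_le_sum fun i _ => ?_
    have e1 : vs2 n s g (σ i) * ((3 / 4 : ℝ) ^ r * (((σ i).A : ℝ) / sc n) ^ r) =
        s ^ (n - (σ i).H) * Real.exp (g * (σ i).Λ) * ((1 + s * Real.exp (-g)) ^ (σ i).l.length *
          ((1 + Real.exp (-(2 * g))) ^ (σ i).k *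
            ((3 / 4 : ℝ) ^ r * (((σ i).A : ℝ) / sc n) ^ r))) := by
      unfold vs2
      ring
    rw [e1]
    refine mul_le_mul_of_nonneg_left ?_ (by positivity)
    rw [← Pool.Agent.FS.LOC.rs_pow, mul_comm, ← rs_mul]
    refine rs_mono _ _ _ fun j t _ ht => ?_
    obtain ⟨h4, _⟩ := area_ge sk i ht
    rw [mul_comm]
    refine mul_le_mul_of_nonneg_left ?_ (by positivity)
    rw [← sum_choose, sum_mul]
    refine sum_le_sum fun b _ => ?_
    rw [mul_assoc]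
    refine mul_le_mul_of_nonneg_left (mul_le_mul_of_nonneg_left ?_ (by positivity))
      (by positivity)
    have h5 : 3 / 4 * (((σ i).A : ℝ) / sc n) ≤ ((((σ i).A : ℤ) - (t : ℤ) : ℤ) : ℝ) / sc n := by
      rw [← mul_div_assoc]
      exact div_le_div_of_nonneg_right h4 hsc.le
    have h6 : (0 : ℝ) ≤ 3 / 4 * (((σ i).A : ℝ) / sc n) := by positivity
    rw [← mul_pow]
    exact pow_le_pow_left₀ h6 h5 r
  have h4 := h3.trans arm
  have h5 : ∑ i, vs2 n s g (σ i) * ((3 / 4 : ℝ) ^ r * (((σ i).A : ℝ) / sc n) ^ r) =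
      (3 / 4 : ℝ) ^ r * ∑ i, vs2 n s g (σ i) * (((σ i).A : ℝ) / sc n) ^ r := by
    rw [mul_sum]
    exact sum_congr rfl fun i _ => by ring
  rw [h5] at h4
  have h6 : (4 / 3 : ℝ) ^ r * (3 / 4 : ℝ) ^ r = 1 := by
    rw [← mul_pow]
    norm_num
  calc ∑ i, vs2 n s g (σ i) * (((σ i).A : ℝ) / sc n) ^ r
      = ((4 / 3 : ℝ) ^ r * (3 / 4 : ℝ) ^ r) *
          ∑ i, vs2 n s g (σ i) * (((σ i).A : ℝ) / sc n) ^ r := by rw [h6, one_mul]
    _ = (4 / 3 : ℝ) ^ r * ((3 / 4 : ℝ) ^ r *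
          ∑ i, vs2 n s g (σ i) * (((σ i).A : ℝ) / sc n) ^ r) := by ring
    _ ≤ (4 / 3 : ℝ) ^ r * (CA * Zm n s g) := mul_le_mul_of_nonneg_left h4 (by positivity)
    _ = _ := by ring

lemma small_a {n k : ℕ} {σ : Fin k → Sk2} (sk : IsSk2 n k σ) (hn : 1 ≤ n) (r : ℕ) (i : Fin k) :
    (((σ i).A : ℝ) / sc n) ^ r ≤ 2 ^ r * (n : ℝ) ^ r := by
  have h1 : ((σ i).A : ℝ) ≤ 2 * (n : ℝ) ^ 2 := by exact_mod_cast sk.A_le i
  have hn1 : (1 : ℝ) ≤ n := by exact_mod_cast hn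
  have hsc := Pool.Agent.NSP.LOCM.scpos hn
  rw [← mul_pow]
  refine pow_le_pow_left₀ (by positivity) ?_ r
  rw [div_le_iff₀ hsc]
  refine h1.trans ?_
  unfold Pool.Agent.FS.sc
  have h2 : (1 : ℝ) ≤ Real.sqrt n := by
    rw [Real.one_le_sqrt]
    exact hn1
  nlinarith [mul_nonneg (show (0 : ℝ) ≤ 2 * (n : ℝ) ^ 2 by positivity) (sub_nonneg.2 h2)]

/-- one skeleton -/
lemma one_sk {n k : ℕ} {σ : Fin k → Sk2} (sk : IsSk2 n k σ) (hn : 1 ≤ n) {s : ℝ} (hs : 0 < s)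
    (g : ℝ) (r : ℕ) (h : ℕ) (t : ℤ) (i : Fin k) :
    s ^ (n - (σ i).H) * Real.exp (g * (σ i).Λ) * rs (σ i).l (fun j τ =>
        (s * Real.exp (-g)) ^ j * ∑ b ∈ range ((σ i).k + 1), ((σ i).k.choose b : ℝ) *
          (Real.exp (-(2 * g)) ^ b * (if (((σ i).H : ℤ) - (j : ℤ)) = (h : ℤ) ∧
            ((σ i).Λ - (j : ℤ) - 2 * (b : ℤ)) = t then
              (((((σ i).A : ℤ) - (τ : ℤ) : ℤ) : ℝ) / sc n) ^ r else 0))) ≤
      vs2 n s g (σ i) * (bp (σ i).l.length (s * Real.exp (-g) / (1 + s * Real.exp (-g)))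
        ((σ i).H - h) * (bp (σ i).k (Real.exp (-(2 * g)) / (1 + Real.exp (-(2 * g))))
          (((σ i).Λ - ((σ i).H - h) - t) / 2) * (((σ i).A : ℝ) / sc n) ^ r)) := by
  have hsc := Pool.Agent.NSP.LOCM.scpos hn
  have hw : 0 < s * Real.exp (-g) := mul_pos hs (Real.exp_pos _)
  have hw2 : 0 < Real.exp (-(2 * g)) := Real.exp_pos _
  obtain ⟨w, hwe⟩ : ∃ w, w = s * Real.exp (-g) := ⟨_, rfl⟩
  obtain ⟨w2, hw2e⟩ : ∃ w, w = Real.exp (-(2 * g)) := ⟨_, rfl⟩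
  unfold vs2
  rw [← hwe, ← hw2e]
  rw [← hwe] at hw
  rw [← hw2e] at hw2
  have e1 : s ^ (n - (σ i).H) * Real.exp (g * (σ i).Λ) * (1 + w) ^ (σ i).l.length *
      (1 + w2) ^ (σ i).k * (bp (σ i).l.length (w / (1 + w)) ((σ i).H - h) *
        (bp (σ i).k (w2 / (1 + w2)) (((σ i).Λ - ((σ i).H - h) - t) / 2) *
          (((σ i).A : ℝ) / sc n) ^ r)) =
      s ^ (n - (σ i).H) * Real.exp (g * (σ i).Λ) * ((1 + w) ^ (σ i).l.length *
        (bp (σ i).l.length (w / (1 + w)) ((σ i).H - h) * ((1 + w2) ^ (σ i).k *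
          (bp (σ i).k (w2 / (1 + w2)) (((σ i).Λ - ((σ i).H - h) - t) / 2) *
          (((σ i).A : ℝ) / sc n) ^ r)))) := by ring
  rw [e1]
  refine mul_le_mul_of_nonneg_left ?_ (by positivity)
  rw [← Pool.Agent.FS.LOC.rs_ind Pool.Agent.FS.SMP_thm hw]
  refine rs_mono _ _ _ fun j τ _ hτ => mul_le_mul_of_nonneg_left ?_ (by positivity)
  obtain ⟨h4, h5⟩ := area_ge sk i hτ
  have h6 : (0 : ℝ) ≤ ((((σ i).A : ℤ) - (τ : ℤ) : ℤ) : ℝ) :=
    le_trans (by positivity) h4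
  have h7 : ((((σ i).A : ℤ) - (τ : ℤ) : ℤ) : ℝ) / sc n ≤ ((σ i).A : ℝ) / sc n :=
    div_le_div_of_nonneg_right h5 hsc.le
  have h8 := pow_le_pow_left₀ (div_nonneg h6 hsc.le) h7 r
  split_ifs with hj
  · rw [← sum_ind hw2]
    refine sum_le_sum fun b _ => mul_le_mul_of_nonneg_left
      (mul_le_mul_of_nonneg_left ?_ (by positivity)) (by positivity)
    split_ifs with hb1 hb2 hb2
    · exact h8
    · exfalso
      apply hb2
      obtain ⟨hb3, hb4⟩ := hb1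
      omega
    · positivity
    · exact le_rfl
  · refine le_of_eq (sum_eq_zero fun b _ => ?_)
    rw [if_neg, mul_zero, mul_zero]
    rintro ⟨hb3, -⟩
    apply hj
    omega

theorem core {n k : ℕ} {σ : Fin k → Sk2} {s g c CA CB : ℝ} {r : ℕ} (sk : IsSk2 n k σ)
    (hn : 1 ≤ n) (hs : 0 < s) (hc : 0 < c) (hCA : 0 < CA) (hCB : 0 < CB)
    (arm : ∑ q ∈ Omm n, wm n s g q * rm n q ^ r ≤ CA * Zm n s g)
    (kb : ∑ i ∈ univ.filter (fun i : Fin k => ((σ i).l.length : ℝ) < c * n ∨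
      ((σ i).k : ℝ) < c * n), vs2 n s g (σ i) ≤ Real.exp (-(c * n)) * Zm n s g)
    (bin1 : ∀ (m : ℕ) (j : ℤ), 1 ≤ m →
      bp m (s * Real.exp (-g) / (1 + s * Real.exp (-g))) j ≤ CB / Real.sqrt m)
    (bin2 : ∀ (m : ℕ) (j : ℤ), 1 ≤ m →
      bp m (Real.exp (-(2 * g)) / (1 + Real.exp (-(2 * g)))) j ≤ CB / Real.sqrt m)
    (h : ℕ) (t : ℤ) :
    UM n s g h t (fun a => a ^ r) ≤ (CB ^ 2 / c * ((4 / 3) ^ r * CA) +
      (CB + 1) ^ 2 * 2 ^ r * (((r + 1).factorial : ℝ) / c ^ (r + 1))) / n * Zm n s g := by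
  have hn1 : (1 : ℝ) ≤ n := by exact_mod_cast hn
  have hn0 : (0 : ℝ) < n := by linarith
  have hsc := Pool.Agent.NSP.LOCM.scpos hn
  have hZ0 : 0 ≤ Zm n s g := by
    rw [Z_eq sk]
    exact sum_nonneg fun i _ => vpos n hs g _
  have hsn : 0 < Real.sqrt n := Real.sqrt_pos.2 (by linarith)
  have hscc : 0 < Real.sqrt c := Real.sqrt_pos.2 hc
  have h1 := key sk s g (fun a b x => if a = (h : ℤ) ∧ b = t then ((x : ℝ) / sc n) ^ r else 0)
  have h2 : UM n s g h t (fun a => a ^ r) = ∑ q ∈ Omm n, wm n s g q *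
      (if ((zl q : ℕ) : ℤ) = (h : ℤ) ∧ zt q = t then
        ((((am n q : ℕ) : ℤ) : ℝ) / sc n) ^ r else 0) := by
    unfold UM rm
    rw [sum_filter]
    refine sum_congr rfl fun q _ => ?_
    by_cases hq : zl q = h ∧ zt q = t
    · rw [if_pos hq, if_pos ⟨by exact_mod_cast hq.1, hq.2⟩]
      push_cast
      rfl
    · rw [if_neg hq, if_neg (fun hq' => hq ⟨by exact_mod_cast hq'.1, hq'.2⟩), mul_zero]
  rw [h2, h1]
  have hw : 0 < s * Real.exp (-g) := mul_pos hs (Real.exp_pos _)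
  have hw2 : 0 < Real.exp (-(2 * g)) := Real.exp_pos _
  have hp : ∀ w : ℝ, 0 < w → 0 ≤ w / (1 + w) ∧ w / (1 + w) ≤ 1 := by
    intro w hw
    refine ⟨by positivity, ?_⟩
    rw [div_le_one (by positivity)]
    linarith
  have hb1 : ∀ (m : ℕ) (j : ℤ), 0 ≤ bp m (s * Real.exp (-g) / (1 + s * Real.exp (-g))) j :=
    fun m j => Pool.Agent.FS.LOC.bp_nonneg (hp _ hw).1 (hp _ hw).2 m j
  have hb2 : ∀ (m : ℕ) (j : ℤ), 0 ≤ bp m (Real.exp (-(2 * g)) / (1 + Real.exp (-(2 * g)))) j :=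
    fun m j => Pool.Agent.FS.LOC.bp_nonneg (hp _ hw2).1 (hp _ hw2).2 m j
  have hE := Pool.Agent.NSP.LOCM.exp_small hc r hn
  have hFpos : 0 < ((r + 1).factorial : ℝ) / c ^ (r + 1) := by positivity
  have hsq : CB / (Real.sqrt c * Real.sqrt n) * (CB / (Real.sqrt c * Real.sqrt n)) =
      CB ^ 2 / c / n := by
    have e1 : Real.sqrt c * Real.sqrt c = c := Real.mul_self_sqrt hc.le
    have e2 : Real.sqrt n * Real.sqrt n = n := Real.mul_self_sqrt hn0.le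
    rw [div_mul_div_comm, div_div]
    congr 1
    · ring
    · calc Real.sqrt c * Real.sqrt n * (Real.sqrt c * Real.sqrt n) =
          (Real.sqrt c * Real.sqrt c) * (Real.sqrt n * Real.sqrt n) := by ring
        _ = c * n := by rw [e1, e2]
  have h4 : ∀ i : Fin k, vs2 n s g (σ i) * (bp (σ i).l.length
        (s * Real.exp (-g) / (1 + s * Real.exp (-g))) ((σ i).H - h) *
        (bp (σ i).k (Real.exp (-(2 * g)) / (1 + Real.exp (-(2 * g))))
          (((σ i).Λ - ((σ i).H - h) - t) / 2) * (((σ i).A : ℝ) / sc n) ^ r)) ≤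
      CB ^ 2 / c / n * (vs2 n s g (σ i) * (((σ i).A : ℝ) / sc n) ^ r) +
        (CB + 1) ^ 2 * (2 ^ r * (n : ℝ) ^ r) *
          (if ((σ i).l.length : ℝ) < c * n ∨ ((σ i).k : ℝ) < c * n then
            vs2 n s g (σ i) else 0) := by
    intro i
    have hv := vpos n hs g (σ i)
    have ha : 0 ≤ (((σ i).A : ℝ) / sc n) ^ r := by positivity
    have hx1 := hb1 (σ i).l.length ((σ i).H - h)
    have hx2 := hb2 (σ i).k (((σ i).Λ - ((σ i).H - h) - t) / 2)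
    by_cases hi : ((σ i).l.length : ℝ) < c * n ∨ ((σ i).k : ℝ) < c * n
    · rw [if_pos hi]
      have h5 : bp (σ i).l.length (s * Real.exp (-g) / (1 + s * Real.exp (-g))) ((σ i).H - h) *
          (bp (σ i).k (Real.exp (-(2 * g)) / (1 + Real.exp (-(2 * g))))
            (((σ i).Λ - ((σ i).H - h) - t) / 2) * (((σ i).A : ℝ) / sc n) ^ r) ≤
          (CB + 1) * ((CB + 1) * (2 ^ r * (n : ℝ) ^ r)) :=
        mul_le_mul (Pool.Agent.NSP.LOCM.bple hCB bin1 _ _)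
          (mul_le_mul (Pool.Agent.NSP.LOCM.bple hCB bin2 _ _) (small_a sk hn r i) ha
            (by positivity)) (mul_nonneg hx2 ha) (by positivity)
      have h6 := mul_le_mul_of_nonneg_left h5 hv
      have h7 : 0 ≤ CB ^ 2 / c / n *
          (vs2 n s g (σ i) * (((σ i).A : ℝ) / sc n) ^ r) := by positivity
      refine h6.trans ?_
      have e3 : vs2 n s g (σ i) * ((CB + 1) * ((CB + 1) * (2 ^ r * (n : ℝ) ^ r))) =
          (CB + 1) ^ 2 * (2 ^ r * (n : ℝ) ^ r) * vs2 n s g (σ i) := by ring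
      rw [e3]
      linarith
    · rw [if_neg hi, mul_zero, add_zero]
      push Not at hi
      have h5 := Pool.Agent.NSP.LOCM.bpbig hCB hc bin1 hn _ ((σ i).H - h : ℤ) hi.1
      have h6 := Pool.Agent.NSP.LOCM.bpbig hCB hc bin2 hn _
        (((σ i).Λ - ((σ i).H - h) - t) / 2 : ℤ) hi.2
      have h7 : 0 ≤ CB / (Real.sqrt c * Real.sqrt n) := by positivity
      have h8 := mul_le_mul h5 h6 hx2 h7
      rw [hsq] at h8
      have h9 := mul_le_mul_of_nonneg_left (mul_le_mul_of_nonneg_right h8 ha) hv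
      refine (le_of_eq ?_).trans (h9.trans (le_of_eq (by ring)))
      ring
  refine (sum_le_sum fun i _ => (one_sk sk hn hs g r h t i).trans (h4 i)).trans ?_
  rw [sum_add_distrib, ← mul_sum, ← mul_sum, ← sum_filter]
  have h5 : CB ^ 2 / c / n * ∑ i, vs2 n s g (σ i) * (((σ i).A : ℝ) / sc n) ^ r ≤
      CB ^ 2 / c / n * ((4 / 3) ^ r * CA * Zm n s g) :=
    mul_le_mul_of_nonneg_left (sumA sk hn hs r arm) (by positivity)
  have h6 : (CB + 1) ^ 2 * (2 ^ r * (n : ℝ) ^ r) *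
      ∑ i ∈ univ.filter (fun i : Fin k => ((σ i).l.length : ℝ) < c * n ∨
        ((σ i).k : ℝ) < c * n), vs2 n s g (σ i) ≤
      (CB + 1) ^ 2 * 2 ^ r * (((r + 1).factorial : ℝ) / c ^ (r + 1)) / n * Zm n s g := by
    refine (mul_le_mul_of_nonneg_left kb (by positivity)).trans ?_
    calc (CB + 1) ^ 2 * (2 ^ r * (n : ℝ) ^ r) * (Real.exp (-(c * n)) * Zm n s g)
        = (CB + 1) ^ 2 * 2 ^ r * Zm n s g * ((n : ℝ) ^ r * Real.exp (-(c * n))) := by ring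
      _ ≤ (CB + 1) ^ 2 * 2 ^ r * Zm n s g * (((r + 1).factorial : ℝ) / c ^ (r + 1) / n) :=
          mul_le_mul_of_nonneg_left hE (by positivity)
      _ = _ := by ring
  refine (add_le_add h5 h6).trans (le_of_eq ?_)
  field_simp

end Pool.Agent.TPT.LOCA

namespace Pool.Agent.TPT

open Finset Filter Topology MeasureTheory
open Pool.Agent.Lib27 Pool.Agent.SapR Pool.Agent.AreaLaw Pool.Agent.FL
open Pool.Agent.FS (sc rs bp)

theorem t_LOCA (hS : SKELM_Stmt) (hK : KBIGM_Stmt) (hB : FS.BIN_Stmt) (hM : MOMM_Stmt)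
    (_hH : HGM_Stmt) : LOCA_Stmt := by
  intro a b ha hab r
  have hb : 0 < b := lt_of_lt_of_le ha hab
  obtain ⟨CA, hCA, NA, hA'⟩ := hM a b ha hab r
  obtain ⟨c, hc, NK, hNK6, hKB'⟩ := hK a b ha hab
  have hp0 : 0 < Real.exp (-(2 * b)) / (1 + Real.exp (-(2 * b))) := by positivity
  have hmono : ∀ u v : ℝ, 0 < u → u ≤ v → u / (1 + u) ≤ v / (1 + v) := by
    intro u v hu huv
    have hv : 0 < v := lt_of_lt_of_le hu huv
    rw [div_le_div_iff₀ (by positivity) (by positivity)]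
    nlinarith
  have hp1 : Real.exp (2 * b) / (1 + Real.exp (2 * b)) < 1 := by
    rw [div_lt_one (by positivity)]
    linarith
  obtain ⟨⟨CB, hCB, hb1⟩, _⟩ := hB (Real.exp (-(2 * b)) / (1 + Real.exp (-(2 * b))))
    (Real.exp (2 * b) / (1 + Real.exp (2 * b))) hp0
    (hmono _ _ (Real.exp_pos _) (Real.exp_le_exp.2 (by linarith))) hp1
  refine ⟨CB ^ 2 / c * ((4 / 3) ^ r * CA) +
      (CB + 1) ^ 2 * 2 ^ r * (((r + 1).factorial : ℝ) / c ^ (r + 1)), by positivity,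
      max NA NK, fun n hn f g hbox h t => ?_⟩
  have hn1 : NA ≤ n := (le_max_left _ _).trans hn
  have hn2 : NK ≤ n := (le_max_right _ _).trans hn
  obtain ⟨hf1, hf2, hg⟩ := hbox
  obtain ⟨hg1, hg2⟩ := abs_le.1 hg
  have hs : 0 < Real.exp (-f) := Real.exp_pos _
  obtain ⟨k, σ, hσ⟩ := hS n (by omega)
  have e1 : Real.exp (-f) * Real.exp (-g) = Real.exp (-f + -g) := (Real.exp_add _ _).symm
  refine LOCA.core hσ (by omega) hs hc hCA hCB (hA' n hn1 f g ⟨hf1, hf2, hg⟩).1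
      (hKB' n hn2 f g ⟨hf1, hf2, hg⟩ k σ hσ) ?_ ?_ h t
  · intro m j hm
    refine (hb1 _ ?_ ?_ m j hm).1
    · rw [e1]
      exact hmono _ _ (Real.exp_pos _) (Real.exp_le_exp.2 (by linarith))
    · rw [e1]
      exact hmono _ _ (Real.exp_pos _) (Real.exp_le_exp.2 (by linarith))
  · intro m j hm
    refine (hb1 _ ?_ ?_ m j hm).1
    · exact hmono _ _ (Real.exp_pos _) (Real.exp_le_exp.2 (by linarith))
    · exact hmono _ _ (Real.exp_pos _) (Real.exp_le_exp.2 (by linarith))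

end Pool.Agent.TPT
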