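import Pool.Agent.TPT.StmtsA
import Pool.Agent.Lib_helper74.FS.LOC

/-!
# TPT_LOCB: local regularity in both coordinates (MP_f6626d_co)
-/

set_option autoImplicit false

namespace Pool.Agent.TPT.LOCB

open Finset Filter Topology MeasureTheory
open Pool.Agent.Lib27 Pool.Agent.SapR Pool.Agent.AreaLaw Pool.Agent.FL
open Pool.Agent.FS (sc rs bp rs_add rs_mul rs_mono rs_congr rs_zero rs_nonneg rs_ge_zero rs_nil
  rs_cons)
open Pool.Agent.FS.LOC (rs_pow choose_pow bp_nonneg rs_ind rs_dev bp_lip rs_abs exp_small)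

/-! ### the key identity -/

lemma key2 {n M : ℕ} {σ : Fin M → Sk2} (h : IsSk2 n M σ) (s g : ℝ) (G : ℤ → ℤ → ℤ → ℝ) :
    ∑ q ∈ Omm n, wm n s g q * G (zl q) (zt q) (am n q) =
      ∑ i, s ^ (n - (σ i).H) * Real.exp (g * (σ i).Λ) * rs (σ i).l (fun j t =>
        (s * Real.exp (-g)) ^ j * ∑ b ∈ range ((σ i).k + 1), ((σ i).k.choose b : ℝ) *
          (Real.exp (-(2 * g)) ^ b * G ((σ i).H - j) ((σ i).Λ - j - 2 * b) ((σ i).A - t))) := by
  have h1 := h.repr (fun a b c => s ^ (n - a.toNat) * Real.exp (g * b) * G a b c)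
  have h2 : ∀ q ∈ Omm n, wm n s g q * G (zl q) (zt q) (am n q) =
      s ^ (n - (zl q : ℤ).toNat) * Real.exp (g * zt q) * G (zl q) (zt q) (am n q) := fun q _ => by
    rw [Int.toNat_natCast]; rfl
  rw [sum_congr rfl h2, h1]
  refine sum_congr rfl fun i _ => ?_
  rw [← rs_mul]
  refine rs_congr _ _ _ fun j t hj ht => ?_
  have h3 := h.len_le i
  have h4 := h.H_le i
  rw [← mul_assoc, mul_sum]
  refine sum_congr rfl fun b _ => ?_
  have e1 : n - (((σ i).H : ℤ) - (j : ℤ)).toNat = (n - (σ i).H) + j := by omega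
  have e2 : Real.exp (g * (((σ i).Λ - j - 2 * b : ℤ) : ℝ)) =
      Real.exp (g * (σ i).Λ) * Real.exp (-g) ^ j * Real.exp (-(2 * g)) ^ b := by
    rw [← Real.exp_nat_mul, ← Real.exp_nat_mul, ← Real.exp_add, ← Real.exp_add]
    congr 1
    push_cast
    ring
  rw [e1, e2, pow_add, mul_pow]
  ring

lemma all2 {n M : ℕ} {σ : Fin M → Sk2} (h : IsSk2 n M σ) (Q : ℤ → ℤ → ℤ → Prop)
    (hQ : ∀ q ∈ Omm n, Q (zl q) (zt q) (am n q)) (i : Fin M) :
    Q (σ i).H (σ i).Λ (σ i).A := by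
  classical
  by_contra hc
  have h1 := h.repr (fun a b c => if Q a b c then 0 else 1)
  have h2 : ∑ q ∈ Omm n, (if Q (zl q) (zt q) (am n q) then (0 : ℝ) else 1) = 0 := by
    refine Finset.sum_eq_zero fun q hq => ?_
    rw [if_pos (hQ q hq)]
  rw [h2] at h1
  have h3 : ∀ j ∈ (univ : Finset (Fin M)), 0 ≤ rs (σ j).l (fun a t =>
      ∑ b ∈ range ((σ j).k + 1), ((σ j).k.choose b : ℝ) *
      (if Q ((σ j).H - a) ((σ j).Λ - a - 2 * b) ((σ j).A - t) then (0 : ℝ) else 1)) := by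
    intro j _
    refine rs_nonneg _ _ fun a t _ _ => ?_
    refine sum_nonneg fun b _ => ?_
    split_ifs <;> simp
  have h4 := (Finset.sum_eq_zero_iff_of_nonneg h3).1 h1.symm i (Finset.mem_univ i)
  have h5 := rs_ge_zero (σ i).l (fun a t => ∑ b ∈ range ((σ i).k + 1), ((σ i).k.choose b : ℝ) *
      (if Q ((σ i).H - a) ((σ i).Λ - a - 2 * b) ((σ i).A - t) then (0 : ℝ) else 1)) (by
    intro a t _ _
    refine sum_nonneg fun b _ => ?_
    split_ifs <;> simp)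
  rw [h4] at h5
  have h6 : ((σ i).k.choose 0 : ℝ) * (if Q ((σ i).H - (0 : ℕ)) ((σ i).Λ - (0 : ℕ) - 2 * (0 : ℕ))
      ((σ i).A - (0 : ℕ)) then (0 : ℝ) else 1) ≤ ∑ b ∈ range ((σ i).k + 1),
      ((σ i).k.choose b : ℝ) * (if Q ((σ i).H - (0 : ℕ)) ((σ i).Λ - (0 : ℕ) - 2 * b)
        ((σ i).A - (0 : ℕ)) then (0 : ℝ) else 1) := by
    refine single_le_sum (f := fun b : ℕ => ((σ i).k.choose b : ℝ) *
      (if Q ((σ i).H - (0 : ℕ)) ((σ i).Λ - (0 : ℕ) - 2 * b)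
        ((σ i).A - (0 : ℕ)) then (0 : ℝ) else 1)) (fun b _ => ?_) (mem_range.2 (Nat.succ_pos _))
    split_ifs <;> simp
  simp only [Nat.cast_zero, sub_zero, mul_zero, Nat.choose_zero_right, Nat.cast_one,
    one_mul] at h6 h5
  rw [if_neg hc] at h6
  linarith

/-! ### sums over the number of lateral tokens -/

lemma sum_pow (k : ℕ) (r : ℝ) :
    ∑ b ∈ range (k + 1), (k.choose b : ℝ) * r ^ b = (1 + r) ^ k := by
  rw [add_comm 1 r, add_pow]
  refine sum_congr rfl fun b _ => ?_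
  rw [one_pow]
  ring

lemma sum_ind {r : ℝ} (hr : 0 < r) (k : ℕ) (m : ℤ) (c : ℝ) :
    ∑ b ∈ range (k + 1), (k.choose b : ℝ) * (r ^ b * (if (b : ℤ) = m then c else 0)) =
      (1 + r) ^ k * bp k (r / (1 + r)) m * c := by
  by_cases hm : 0 ≤ m ∧ m ≤ k
  · obtain ⟨j0, hj0⟩ : ∃ j0 : ℕ, (j0 : ℤ) = m := ⟨m.toNat, Int.toNat_of_nonneg hm.1⟩
    subst hj0
    have hj : j0 ≤ k := by exact_mod_cast hm.2
    rw [sum_eq_single j0]
    · rw [if_pos rfl, ← mul_assoc, choose_pow hr hj]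
    · intro b _ hb
      rw [if_neg (by exact_mod_cast hb)]
      ring
    · intro h
      exact absurd (mem_range.2 (by omega)) h
  · have h0 : bp k (r / (1 + r)) m = 0 := by
      unfold bp
      rw [if_neg hm]
    rw [h0, mul_zero, zero_mul]
    refine sum_eq_zero fun j hj => ?_
    have := mem_range.1 hj
    rw [if_neg (by intro h; apply hm; rw [← h]; constructor <;> omega)]
    ring

/-! ### the span tokens -/

lemma scpos {n : ℕ} (hn : 3 ≤ n) : 0 < sc n := by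
  have : (3 : ℝ) ≤ n := by exact_mod_cast hn
  unfold sc
  have : 0 < Real.sqrt n := Real.sqrt_pos.2 (by linarith)
  positivity

lemma R_small (hS : FS.SMP_Stmt) {q1 : ℝ} (hq : 0 < q1) (l : List ℕ) (m : ℤ)
    (F : ℕ → ℝ) (hF : ∀ t, |F t| ≤ 1) :
    |rs l (fun j t => q1 ^ j * (if (j : ℤ) = m then F t else 0))| ≤
      (1 + q1) ^ l.length * bp l.length (q1 / (1 + q1)) m := by
  have h1 := rs_abs l (fun j t => q1 ^ j * (if (j : ℤ) = m then F t else 0)) (fun _ _ => 0)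
    (fun j _ => q1 ^ j * (if (j : ℤ) = m then 1 else 0)) (fun j t _ _ => by
      rw [sub_zero, abs_mul, abs_of_nonneg (show 0 ≤ q1 ^ j by positivity)]
      refine mul_le_mul_of_nonneg_left ?_ (by positivity)
      split_ifs
      · exact hF _
      · simp)
  rw [rs_zero, sub_zero, rs_ind hS hq, mul_one] at h1
  exact h1

lemma R_big (hS : FS.SMP_Stmt) {n : ℕ} (hn3 : 3 ≤ n) {q1 c CB : ℝ} (hq : 0 < q1) (hc : 0 < c)
    (hCB : 0 < CB) (l : List ℕ) (A : ℕ) (hy : ∀ y ∈ l, y ≤ 2 * n + 2) (hsum : 4 * l.sum ≤ A)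
    (hi : c * n ≤ l.length) (m : ℤ)
    (hb1 : bp l.length (q1 / (1 + q1)) m ≤ CB / (Real.sqrt c * Real.sqrt n))
    (hb2 : bp l.length (q1 / (1 + q1)) m * |(m : ℝ) - q1 / (1 + q1) * l.length| ≤ CB)
    (φ : ℝ → ℝ) (hL : LipschitzWith 1 φ) :
    |rs l (fun j t => q1 ^ j * (if (j : ℤ) = m then
        φ ((((A : ℤ) - (t : ℤ) : ℤ) : ℝ) / sc n) else 0)) -
      (1 + q1) ^ l.length * (bp l.length (q1 / (1 + q1)) m *
        φ (((A : ℝ) - q1 / (1 + q1) * l.sum) / sc n))| ≤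
      (1 + q1) ^ l.length * ((CB / Real.sqrt c + CB / c) *
        (1 + ((A : ℝ) / sc n) ^ 2) / (Real.sqrt n * Real.sqrt (Real.sqrt n))) := by
  have hn : (3 : ℝ) ≤ n := by exact_mod_cast hn3
  have hsc := scpos hn3
  have hsn : 0 < Real.sqrt n := Real.sqrt_pos.2 (by linarith)
  have hssn : 0 < Real.sqrt (Real.sqrt n) := Real.sqrt_pos.2 hsn
  have hscc : 0 < Real.sqrt c := Real.sqrt_pos.2 hc
  have hcn : 0 < c * n := by positivity
  have hlen : (0 : ℝ) < l.length := lt_of_lt_of_le hcn hi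
  have hl : l ≠ [] := by
    intro h0
    rw [h0] at hlen
    simp at hlen
  have hb0 : 0 ≤ bp l.length (q1 / (1 + q1)) m := by
    apply bp_nonneg (by positivity)
    rw [div_le_one (by positivity)]
    linarith
  have hdev := rs_dev hS hq l hl (2 * n + 2) hy m
  obtain ⟨p, hp⟩ : ∃ p, p = q1 / (1 + q1) := ⟨_, rfl⟩
  rw [← hp] at hdev hb1 hb2 hb0 ⊢
  have h1 := rs_abs l (fun j t => q1 ^ j * (if (j : ℤ) = m then
    φ ((((A : ℤ) - (t : ℤ) : ℤ) : ℝ) / sc n) else 0))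
    (fun j _ => q1 ^ j * (if (j : ℤ) = m then
      φ (((A : ℝ) - p * l.sum) / sc n) else 0))
    (fun j t => 1 / sc n * (q1 ^ j * (if (j : ℤ) = m then |(t : ℝ) - p * l.sum| else 0)))
    (fun j t _ _ => by
      rw [← mul_sub, abs_mul, abs_of_nonneg (show 0 ≤ q1 ^ j by positivity)]
      rw [← mul_assoc, mul_comm (1 / sc n), mul_assoc]
      refine mul_le_mul_of_nonneg_left ?_ (by positivity)
      split_ifs
      · have h2 := hL.dist_le_mul ((((A : ℤ) - (t : ℤ) : ℤ) : ℝ) / sc n)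
          (((A : ℝ) - p * l.sum) / sc n)
        rw [Real.dist_eq, Real.dist_eq] at h2
        refine h2.trans (le_of_eq ?_)
        simp only [Int.cast_sub, Int.cast_natCast, NNReal.coe_one]
        rw [one_mul, ← sub_div, abs_div, abs_of_pos hsc]
        rw [show (A : ℝ) - t - ((A : ℝ) - p * l.sum) =
          - ((t : ℝ) - p * l.sum) by ring, abs_neg]
        ring
      · simp)
  rw [rs_ind hS hq, rs_mul, ← hp] at h1
  have h2 : 1 / sc n * rs l (fun j t => q1 ^ j * (if (j : ℤ) = m then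
      |(t : ℝ) - p * l.sum| else 0)) ≤ 1 / sc n * ((1 + q1) ^ l.length *
      (bp l.length p m * Real.sqrt (((2 * n + 2 : ℕ) : ℝ) * l.sum) +
        bp l.length p m * |(m : ℝ) - p * l.length| *
          (l.sum / l.length))) :=
    mul_le_mul_of_nonneg_left hdev (by positivity)
  have h3 := h1.trans h2
  -- size of the sum of the entries
  have hA0 : (0 : ℝ) ≤ (A : ℝ) := by positivity
  have hS4 : 4 * (l.sum : ℝ) ≤ (A : ℝ) := by exact_mod_cast hsum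
  have hS0 : (0 : ℝ) ≤ (l.sum : ℝ) := by positivity
  obtain ⟨a, ha⟩ : ∃ a : ℝ, a = (A : ℝ) / sc n := ⟨_, rfl⟩
  have ha0 : 0 ≤ a := by rw [ha]; positivity
  have hA : (A : ℝ) = a * sc n := by rw [ha]; field_simp
  have h4 : Real.sqrt (((2 * n + 2 : ℕ) : ℝ) * l.sum) / sc n ≤
      (1 + a ^ 2) / Real.sqrt (Real.sqrt n) := by
    have h5 : ((2 * n + 2 : ℕ) : ℝ) * l.sum ≤ (n : ℝ) * (A : ℝ) := by
      have e : ((2 * n + 2 : ℕ) : ℝ) = 2 * n + 2 := by push_cast; ring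
      rw [e]
      have h50 : (2 * (n : ℝ) + 2) * (l.sum : ℝ) ≤ (4 * n) * (l.sum : ℝ) :=
        mul_le_mul_of_nonneg_right (by linarith) hS0
      have h51 : (n : ℝ) * (4 * (l.sum : ℝ)) ≤ (n : ℝ) * (A : ℝ) :=
        mul_le_mul_of_nonneg_left hS4 (by linarith)
      linarith
    have h6 : Real.sqrt (((2 * n + 2 : ℕ) : ℝ) * l.sum) ≤ Real.sqrt ((n : ℝ) * (A : ℝ)) :=
      Real.sqrt_le_sqrt h5
    have hnn : Real.sqrt n * Real.sqrt n = n := Real.mul_self_sqrt (by positivity)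
    have h7 : Real.sqrt ((n : ℝ) * (A : ℝ)) = Real.sqrt a * (sc n / Real.sqrt (Real.sqrt n)) := by
      have h8 : (n : ℝ) * (A : ℝ) = a * (sc n / Real.sqrt (Real.sqrt n)) ^ 2 := by
        rw [hA, div_pow, Real.sq_sqrt hsn.le]
        unfold sc
        rw [eq_comm, ← mul_div_assoc, div_eq_iff hsn.ne']
        nlinarith [hnn]
      rw [h8, Real.sqrt_mul ha0, Real.sqrt_sq (by positivity)]
    have h9 : Real.sqrt a ≤ 1 + a ^ 2 := by
      rw [Real.sqrt_le_left (by positivity)]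
      nlinarith [sq_nonneg (a - 1), sq_nonneg (a ^ 2)]
    rw [h7] at h6
    rw [div_le_iff₀ hsc]
    refine h6.trans ?_
    rw [div_mul_eq_mul_div, ← mul_div_assoc]
    refine div_le_div_of_nonneg_right ?_ hssn.le
    exact mul_le_mul_of_nonneg_right h9 hsc.le
  have h5 : (l.sum : ℝ) / l.length / sc n ≤ (1 + a ^ 2) / (c * n) := by
    rw [div_div, div_le_div_iff₀ (by positivity) hcn]
    have h6 : (l.sum : ℝ) ≤ (1 + a ^ 2) * sc n := by
      have : a ≤ 1 + a ^ 2 := by nlinarith [sq_nonneg (a - 1)]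
      have := mul_le_mul_of_nonneg_right this hsc.le
      rw [← hA] at this
      linarith
    calc (l.sum : ℝ) * (c * n) ≤ ((1 + a ^ 2) * sc n) * l.length :=
          mul_le_mul h6 hi hcn.le (by positivity)
      _ = _ := by ring
  have h6 : 1 / sc n * ((1 + q1) ^ l.length *
      (bp l.length p m * Real.sqrt (((2 * n + 2 : ℕ) : ℝ) * l.sum) +
        bp l.length p m * |(m : ℝ) - p * l.length| *
          (l.sum / l.length))) ≤
      (1 + q1) ^ l.length * ((CB / Real.sqrt c + CB / c) *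
        (1 + a ^ 2) / (Real.sqrt n * Real.sqrt (Real.sqrt n))) := by
    have e : 1 / sc n * ((1 + q1) ^ l.length *
      (bp l.length p m * Real.sqrt (((2 * n + 2 : ℕ) : ℝ) * l.sum) +
        bp l.length p m * |(m : ℝ) - p * l.length| *
          (l.sum / l.length))) = (1 + q1) ^ l.length *
      (bp l.length p m * (Real.sqrt (((2 * n + 2 : ℕ) : ℝ) * l.sum) / sc n) +
        bp l.length p m * |(m : ℝ) - p * l.length| *
          (l.sum / l.length / sc n)) := by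
      field_simp
    rw [e]
    refine mul_le_mul_of_nonneg_left ?_ (by positivity)
    have h7 : bp l.length p m * (Real.sqrt (((2 * n + 2 : ℕ) : ℝ) * l.sum) / sc n) ≤
        CB / (Real.sqrt c * Real.sqrt n) * ((1 + a ^ 2) / Real.sqrt (Real.sqrt n)) :=
      mul_le_mul hb1 h4 (by positivity) (by positivity)
    have h8 : bp l.length p m * |(m : ℝ) - p * l.length| *
          (l.sum / l.length / sc n) ≤ CB * ((1 + a ^ 2) / (c * n)) :=
      mul_le_mul hb2 h5 (by positivity) hCB.le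
    have h9 : CB * ((1 + a ^ 2) / (c * n)) ≤
        CB / c * (1 + a ^ 2) / (Real.sqrt n * Real.sqrt (Real.sqrt n)) := by
      have hle : Real.sqrt (Real.sqrt n) ≤ Real.sqrt n := by
        rw [Real.sqrt_le_left hsn.le]
        have : 1 ≤ Real.sqrt n := by
          rw [Real.one_le_sqrt]
          linarith
        nlinarith
      have h10 : Real.sqrt n * Real.sqrt (Real.sqrt n) ≤ n := by
        calc _ ≤ Real.sqrt n * Real.sqrt n := mul_le_mul_of_nonneg_left hle hsn.le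
          _ = n := Real.mul_self_sqrt (by positivity)
      have e1 : CB * ((1 + a ^ 2) / (c * n)) = CB / c * (1 + a ^ 2) / n := by
        field_simp
      rw [e1]
      exact div_le_div_of_nonneg_left (by positivity) (by positivity) h10
    refine (add_le_add h7 (h8.trans h9)).trans (le_of_eq ?_)
    field_simp
  have h7 := h3.trans h6
  rw [← ha]
  exact h7

/-! ### the context -/

lemma bple {p CB : ℝ} (hCB : 0 < CB) (hbin : ∀ (m : ℕ) (j : ℤ), 1 ≤ m → bp m p j ≤ CB / Real.sqrt m)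
    (m : ℕ) (j : ℤ) : bp m p j ≤ CB + 1 := by
  rcases Nat.eq_zero_or_pos m with h | h
  · subst h
    unfold bp
    split_ifs with h1
    · have : j.toNat = 0 := by
        have := h1.2
        simp at this
        omega
      rw [this]
      simp
      linarith
    · linarith
  · refine (hbin m j h).trans ?_
    have h1 : (1 : ℝ) ≤ Real.sqrt m := by
      rw [Real.one_le_sqrt]
      exact_mod_cast h
    have h2 : CB / Real.sqrt m ≤ CB := by
      rw [div_le_iff₀ (by positivity)]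
      nlinarith
    linarith

lemma bpbig {p CB c : ℝ} {n : ℕ} (hn3 : 3 ≤ n) (hc : 0 < c) (hCB : 0 < CB)
    (hbin : ∀ (m : ℕ) (j : ℤ), 1 ≤ m → bp m p j ≤ CB / Real.sqrt m)
    (m : ℕ) (j : ℤ) (hm : c * n ≤ m) : bp m p j ≤ CB / (Real.sqrt c * Real.sqrt n) := by
  have hn : (3 : ℝ) ≤ n := by exact_mod_cast hn3
  have h1 : 1 ≤ m := by
    by_contra h
    have : m = 0 := by omega
    rw [this] at hm
    have : 0 < c * n := by positivity
    push_cast at hm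
    linarith
  refine (hbin m j h1).trans ?_
  rw [← Real.sqrt_mul hc.le]
  have h2 : Real.sqrt (c * n) ≤ Real.sqrt m := Real.sqrt_le_sqrt hm
  have h3 : 0 < Real.sqrt (c * n) := Real.sqrt_pos.2 (by positivity)
  exact div_le_div_of_nonneg_left hCB.le h3 h2

structure Ctx (n M : ℕ) (σ : Fin M → Sk2) (s g q1 q2 c CA CB : ℝ) : Prop where
  sk : IsSk2 n M σ
  hn : 3 ≤ n
  hs : 0 < s
  e1 : q1 = s * Real.exp (-g)
  e2 : q2 = Real.exp (-(2 * g))
  hc : 0 < c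
  hCA : 0 < CA
  hCB : 0 < CB
  par : ∀ i, Even (((σ i).H : ℤ) + (σ i).Λ)
  arm : ∑ q ∈ Omm n, wm n s g q * rm n q ^ 2 ≤ CA * Zm n s g
  kb : ∑ i ∈ univ.filter (fun i : Fin M => ((σ i).l.length : ℝ) < c * n ∨ ((σ i).k : ℝ) < c * n),
    vs2 n s g (σ i) ≤ 1 / (n : ℝ) ^ 3 * Zm n s g
  bin1 : ∀ (m : ℕ) (j : ℤ), 1 ≤ m → bp m (q1 / (1 + q1)) j ≤ CB / Real.sqrt m ∧
    |bp m (q1 / (1 + q1)) (j + 1) - bp m (q1 / (1 + q1)) j| ≤ CB / m ∧
    bp m (q1 / (1 + q1)) j * |(j : ℝ) - q1 / (1 + q1) * m| ≤ CB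
  bin2 : ∀ (m : ℕ) (j : ℤ), 1 ≤ m → bp m (q2 / (1 + q2)) j ≤ CB / Real.sqrt m ∧
    |bp m (q2 / (1 + q2)) (j + 1) - bp m (q2 / (1 + q2)) j| ≤ CB / m ∧
    bp m (q2 / (1 + q2)) j * |(j : ℝ) - q2 / (1 + q2) * m| ≤ CB

lemma rs_b (l : List ℕ) (k : ℕ) (q1 q2 : ℝ) (F : ℕ → ℕ → ℝ) :
    rs l (fun j t => q1 ^ j * ∑ b ∈ range (k + 1), (k.choose b : ℝ) * (q2 ^ b * F j t)) =
      (1 + q2) ^ k * rs l (fun j t => q1 ^ j * F j t) := by
  rw [← rs_mul]
  refine rs_congr _ _ _ fun j t _ _ => ?_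
  have h : ∑ b ∈ range (k + 1), (k.choose b : ℝ) * (q2 ^ b * F j t) = (1 + q2) ^ k * F j t := by
    rw [← sum_pow, sum_mul]
    exact sum_congr rfl fun b _ => by ring
  rw [h]
  ring

variable {n M : ℕ} {σ : Fin M → Sk2} {s g q1 q2 c CA CB : ℝ}

lemma Ctx.n1 (X : Ctx n M σ s g q1 q2 c CA CB) : (3 : ℝ) ≤ n := by exact_mod_cast X.hn

lemma Ctx.h1 (X : Ctx n M σ s g q1 q2 c CA CB) : 0 < q1 := by
  rw [X.e1]
  have := X.hs
  positivity

lemma Ctx.h2 (X : Ctx n M σ s g q1 q2 c CA CB) : 0 < q2 := by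
  rw [X.e2]
  positivity

lemma Ctx.vs (X : Ctx n M σ s g q1 q2 c CA CB) (a : Sk2) : vs2 n s g a =
    s ^ (n - a.H) * Real.exp (g * a.Λ) * ((1 + q1) ^ a.l.length * (1 + q2) ^ a.k) := by
  unfold vs2
  rw [X.e1, X.e2]
  ring

lemma Ctx.vpos (X : Ctx n M σ s g q1 q2 c CA CB) (a : Sk2) : 0 ≤ vs2 n s g a := by
  rw [X.vs]
  have := X.hs
  have := X.h1
  have := X.h2
  positivity

lemma Ctx.key (X : Ctx n M σ s g q1 q2 c CA CB) (G : ℤ → ℤ → ℤ → ℝ) :
    ∑ q ∈ Omm n, wm n s g q * G (zl q) (zt q) (am n q) =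
      ∑ i, s ^ (n - (σ i).H) * Real.exp (g * (σ i).Λ) * rs (σ i).l (fun j t =>
        q1 ^ j * ∑ b ∈ range ((σ i).k + 1), ((σ i).k.choose b : ℝ) *
          (q2 ^ b * G ((σ i).H - j) ((σ i).Λ - j - 2 * b) ((σ i).A - t))) := by
  rw [X.e1, X.e2]
  exact key2 X.sk s g G

lemma Ctx.Z (X : Ctx n M σ s g q1 q2 c CA CB) : Zm n s g = ∑ i, vs2 n s g (σ i) := by
  have h := X.key (fun _ _ _ => 1)
  simp only [mul_one] at h
  unfold Zm
  rw [h]
  refine sum_congr rfl fun i _ => ?_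
  have h2 := rs_b (σ i).l (σ i).k q1 q2 (fun _ _ => 1)
  simp only [mul_one] at h2
  rw [h2, rs_pow, X.vs]
  ring

lemma Ctx.Zpos (X : Ctx n M σ s g q1 q2 c CA CB) : 0 ≤ Zm n s g := by
  rw [X.Z]
  exact sum_nonneg fun i _ => X.vpos _

lemma Ctx.split (X : Ctx n M σ s g q1 q2 c CA CB) (f u : Fin M → ℝ) (D : ℝ)
    (hD : 0 ≤ D) (hg : ∀ i, 0 ≤ u i)
    (hbig : ∀ i, c * n ≤ ((σ i).l.length : ℝ) → c * n ≤ ((σ i).k : ℝ) →
      f i ≤ vs2 n s g (σ i) * u i)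
    (hsmall : ∀ i, f i ≤ vs2 n s g (σ i) * D) :
    ∑ i, f i ≤ ∑ i, vs2 n s g (σ i) * u i + D / (n : ℝ) ^ 3 * Zm n s g := by
  classical
  have h1 : ∀ i, f i ≤ vs2 n s g (σ i) * u i +
      (if ((σ i).l.length : ℝ) < c * n ∨ ((σ i).k : ℝ) < c * n then vs2 n s g (σ i) * D
        else 0) := by
    intro i
    have hv := X.vpos (σ i)
    by_cases h : ((σ i).l.length : ℝ) < c * n ∨ ((σ i).k : ℝ) < c * n
    · rw [if_pos h]
      have := hsmall i
      have := mul_nonneg hv (hg i)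
      linarith
    · rw [if_neg h]
      push Not at h
      have := hbig i h.1 h.2
      linarith
  refine (sum_le_sum fun i _ => h1 i).trans ?_
  rw [sum_add_distrib]
  refine add_le_add le_rfl ?_
  rw [← sum_filter, ← sum_mul]
  calc _ ≤ 1 / (n : ℝ) ^ 3 * Zm n s g * D := mul_le_mul_of_nonneg_right X.kb hD
    _ = _ := by ring

lemma Ctx.sumA (X : Ctx n M σ s g q1 q2 c CA CB) :
    ∑ i, vs2 n s g (σ i) * (((σ i).A : ℝ) / sc n) ^ 2 ≤ 2 * CA * Zm n s g := by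
  have h := X.key (fun _ _ b => ((b : ℝ) / sc n) ^ 2)
  have h1 := X.arm
  have h2 : ∑ q ∈ Omm n, wm n s g q * rm n q ^ 2 =
      ∑ q ∈ Omm n, wm n s g q * ((((am n q : ℕ) : ℤ) : ℝ) / sc n) ^ 2 := by
    refine sum_congr rfl fun q _ => ?_
    unfold rm
    push_cast
    rfl
  rw [h2, h] at h1
  have hs := X.hs
  have hq1 := X.h1
  have hq2 := X.h2
  have hsc := scpos X.hn
  have h3 : ∑ i, vs2 n s g (σ i) * (9 / 16 * (((σ i).A : ℝ) / sc n) ^ 2) ≤
      ∑ i, s ^ (n - (σ i).H) * Real.exp (g * (σ i).Λ) * rs (σ i).l (fun j t =>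
        q1 ^ j * ∑ b ∈ range ((σ i).k + 1), ((σ i).k.choose b : ℝ) *
          (q2 ^ b * ((((((σ i).A : ℤ) - (t : ℤ) : ℤ)) : ℝ) / sc n) ^ 2)) := by
    refine sum_le_sum fun i _ => ?_
    rw [rs_b (σ i).l (σ i).k q1 q2
      (fun _ t => ((((((σ i).A : ℤ) - (t : ℤ) : ℤ)) : ℝ) / sc n) ^ 2), X.vs, mul_assoc]
    refine mul_le_mul_of_nonneg_left ?_ (by positivity)
    rw [mul_comm ((1 + q1) ^ (σ i).l.length), mul_assoc]
    refine mul_le_mul_of_nonneg_left ?_ (by positivity)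
    rw [← rs_pow, mul_comm, ← rs_mul]
    refine rs_mono _ _ _ fun j t _ ht => ?_
    have h4 : 3 / 4 * ((σ i).A : ℝ) ≤ ((((σ i).A : ℤ) - (t : ℤ) : ℤ) : ℝ) := by
      have h5 := X.sk.sum_le i
      have h6 : 4 * (t : ℝ) ≤ ((σ i).A : ℝ) := by
        have : 4 * t ≤ (σ i).A := by omega
        exact_mod_cast this
      push_cast
      linarith
    rw [mul_comm]
    refine mul_le_mul_of_nonneg_left ?_ (by positivity)
    have h5 : 3 / 4 * (((σ i).A : ℝ) / sc n) ≤ ((((σ i).A : ℤ) - (t : ℤ) : ℤ) : ℝ) / sc n := by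
      rw [← mul_div_assoc]
      exact div_le_div_of_nonneg_right h4 hsc.le
    have h6 : (0 : ℝ) ≤ 3 / 4 * (((σ i).A : ℝ) / sc n) := by positivity
    calc 9 / 16 * (((σ i).A : ℝ) / sc n) ^ 2 = (3 / 4 * (((σ i).A : ℝ) / sc n)) ^ 2 := by ring
      _ ≤ _ := pow_le_pow_left₀ h6 h5 2
  have h4 := h3.trans h1
  have h5 : ∑ i, vs2 n s g (σ i) * (9 / 16 * (((σ i).A : ℝ) / sc n) ^ 2) =
      9 / 16 * ∑ i, vs2 n s g (σ i) * (((σ i).A : ℝ) / sc n) ^ 2 := by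
    rw [mul_sum]
    exact sum_congr rfl fun i _ => by ring
  rw [h5] at h4
  have h6 : 0 ≤ CA * Zm n s g := mul_nonneg X.hCA.le X.Zpos
  linarith

lemma Ctx.sumV (X : Ctx n M σ s g q1 q2 c CA CB) :
    ∑ i, vs2 n s g (σ i) * (1 + (((σ i).A : ℝ) / sc n) ^ 2) ≤ (1 + 2 * CA) * Zm n s g := by
  have h := X.sumA
  have h1 := X.Z
  simp only [mul_add, mul_one, sum_add_distrib]
  rw [← h1]
  linarith

/-! ### contribution of a skeleton -/

/-- number of lateral tokens of the second kind -/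
def cb (a : Sk2) (h : ℕ) (t : ℤ) : ℤ := (a.Λ - (a.H - h) - t) / 2

/-- sum over the span tokens -/
noncomputable def R (n : ℕ) (q1 : ℝ) (a : Sk2) (h : ℕ) (φ : ℝ → ℝ) : ℝ :=
  rs a.l (fun j t => q1 ^ j * (if (j : ℤ) = a.H - h then
    φ ((((a.A : ℤ) - (t : ℤ) : ℤ) : ℝ) / sc n) else 0))

/-- contribution of a skeleton -/
noncomputable def ui (n : ℕ) (s g q1 q2 : ℝ) (a : Sk2) (h : ℕ) (t : ℤ) (φ : ℝ → ℝ) : ℝ :=
  s ^ (n - a.H) * Real.exp (g * a.Λ) *
    ((1 + q2) ^ a.k * (bp a.k (q2 / (1 + q2)) (cb a h t) * R n q1 a h φ))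

lemma two_cb {a : Sk2} {h : ℕ} {t : ℤ} (h1 : Even ((a.H : ℤ) + a.Λ)) (h2 : Even ((h : ℤ) + t)) :
    2 * cb a h t = a.Λ - (a.H - h) - t := by
  obtain ⟨x, hx⟩ := h1
  obtain ⟨y, hy⟩ := h2
  unfold cb
  omega

lemma Ctx.U_eq (X : Ctx n M σ s g q1 q2 c CA CB) (h : ℕ) (t : ℤ) (hp : Even ((h : ℤ) + t))
    (φ : ℝ → ℝ) : UM n s g h t φ = ∑ i, ui n s g q1 q2 (σ i) h t φ := by
  classical
  have h1 := X.key (fun a b c => if a = (h : ℤ) ∧ b = t then φ ((c : ℝ) / sc n) else 0)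
  have h2 : UM n s g h t φ = ∑ q ∈ Omm n, wm n s g q *
      (if (zl q : ℤ) = (h : ℤ) ∧ zt q = t then φ ((((am n q : ℕ) : ℤ) : ℝ) / sc n) else 0) := by
    unfold UM rm
    rw [sum_filter]
    refine sum_congr rfl fun q _ => ?_
    by_cases h3 : zl q = h ∧ zt q = t
    · rw [if_pos h3, if_pos ⟨by exact_mod_cast h3.1, h3.2⟩]
      push_cast
      rfl
    · rw [if_neg h3, if_neg (fun h4 => h3 ⟨by exact_mod_cast h4.1, h4.2⟩), mul_zero]
  rw [h2, h1]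
  refine sum_congr rfl fun i _ => ?_
  unfold ui R
  congr 1
  rw [← mul_assoc, ← rs_mul]
  refine rs_congr _ _ _ fun j t' _ _ => ?_
  have hcb := two_cb (a := σ i) (X.par i) hp
  by_cases hj : (j : ℤ) = (σ i).H - h
  · rw [if_pos hj]
    have h3 := sum_ind X.h2 (σ i).k (cb (σ i) h t) (φ (((((σ i).A : ℤ) - (t' : ℤ) : ℤ) : ℝ) / sc n))
    have h4 : ∑ b ∈ range ((σ i).k + 1), ((σ i).k.choose b : ℝ) * (q2 ^ b *
        (if ((σ i).H : ℤ) - (j : ℤ) = (h : ℤ) ∧ (σ i).Λ - (j : ℤ) - 2 * (b : ℤ) = t then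
          φ (((((σ i).A : ℤ) - (t' : ℤ) : ℤ) : ℝ) / sc n) else 0)) =
        ∑ b ∈ range ((σ i).k + 1), ((σ i).k.choose b : ℝ) * (q2 ^ b *
        (if (b : ℤ) = cb (σ i) h t then
          φ (((((σ i).A : ℤ) - (t' : ℤ) : ℤ) : ℝ) / sc n) else 0)) := by
      refine sum_congr rfl fun b _ => ?_
      by_cases hb : (b : ℤ) = cb (σ i) h t
      · rw [if_pos hb, if_pos ⟨by omega, by omega⟩]
      · rw [if_neg hb, if_neg (by rintro ⟨h5, h6⟩; exact hb (by omega))]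
    rw [h4, h3]
    ring
  · rw [if_neg hj]
    have h4 : ∑ b ∈ range ((σ i).k + 1), ((σ i).k.choose b : ℝ) * (q2 ^ b *
        (if ((σ i).H : ℤ) - (j : ℤ) = (h : ℤ) ∧ (σ i).Λ - (j : ℤ) - 2 * (b : ℤ) = t then
          φ (((((σ i).A : ℤ) - (t' : ℤ) : ℤ) : ℝ) / sc n) else 0)) = 0 := by
      refine sum_eq_zero fun b _ => ?_
      rw [if_neg (by rintro ⟨h5, h6⟩; exact hj (by omega))]
      ring
    rw [h4]
    ring

lemma Ctx.p0 {q : ℝ} (h : 0 < q) : 0 ≤ q / (1 + q) := by positivity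

lemma Ctx.p1 {q : ℝ} (h : 0 < q) : q / (1 + q) ≤ 1 := by
  rw [div_le_one (by positivity)]
  linarith

lemma Ctx.ui_small (hS : FS.SMP_Stmt) (X : Ctx n M σ s g q1 q2 c CA CB) (i : Fin M) (h : ℕ)
    (t : ℤ) (φ : ℝ → ℝ) (hφ : ∀ a, |φ a| ≤ 1) :
    |ui n s g q1 q2 (σ i) h t φ| ≤ vs2 n s g (σ i) * (CB + 1) ^ 2 := by
  have hs := X.hs
  have hq1 := X.h1
  have hq2 := X.h2
  have hCB := X.hCB
  have h1 := R_small hS X.h1 (σ i).l ((σ i).H - h)
    (fun t => φ (((((σ i).A : ℤ) - (t : ℤ) : ℤ) : ℝ) / sc n)) (fun t => hφ _)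
  have h2 := bple X.hCB (fun m j hm => (X.bin1 m j hm).1) (σ i).l.length ((σ i).H - h)
  have h3 := bple X.hCB (fun m j hm => (X.bin2 m j hm).1) (σ i).k (cb (σ i) h t)
  have h4 := bp_nonneg (Ctx.p0 X.h2) (Ctx.p1 X.h2) (σ i).k (cb (σ i) h t)
  have h5 : |R n q1 (σ i) h φ| ≤ (1 + q1) ^ (σ i).l.length * (CB + 1) :=
    h1.trans (mul_le_mul_of_nonneg_left h2 (by positivity))
  unfold ui
  rw [abs_mul, abs_of_nonneg (show 0 ≤ s ^ (n - (σ i).H) * Real.exp (g * (σ i).Λ) by positivity),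
    X.vs, mul_assoc _ _ ((CB + 1) ^ 2)]
  refine mul_le_mul_of_nonneg_left ?_ (by positivity)
  rw [abs_mul, abs_mul, abs_of_nonneg h4, abs_of_nonneg (show 0 ≤ (1 + q2) ^ (σ i).k by positivity)]
  calc (1 + q2) ^ (σ i).k * (bp (σ i).k (q2 / (1 + q2)) (cb (σ i) h t) * |R n q1 (σ i) h φ|)
      ≤ (1 + q2) ^ (σ i).k * ((CB + 1) * ((1 + q1) ^ (σ i).l.length * (CB + 1))) := by
        refine mul_le_mul_of_nonneg_left ?_ (by positivity)
        exact mul_le_mul h3 h5 (abs_nonneg _) (by positivity)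
    _ = _ := by ring

lemma Ctx.ui_big (hS : FS.SMP_Stmt) (X : Ctx n M σ s g q1 q2 c CA CB) (i : Fin M)
    (hi : c * n ≤ ((σ i).l.length : ℝ)) (hk : c * n ≤ ((σ i).k : ℝ)) (h h' : ℕ) (t t' : ℤ)
    (hp : Even ((h : ℤ) + t)) (hp' : Even ((h' : ℤ) + t')) (φ : ℝ → ℝ) (hφ : ∀ a, |φ a| ≤ 1)
    (hL : LipschitzWith 1 φ) :
    |ui n s g q1 q2 (σ i) h t φ - ui n s g q1 q2 (σ i) h' t' φ| ≤
      vs2 n s g (σ i) * (CB / (Real.sqrt c * Real.sqrt n) *
        (2 * ((CB / Real.sqrt c + CB / c) *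
        (1 + (((σ i).A : ℝ) / sc n) ^ 2) / (Real.sqrt n * Real.sqrt (Real.sqrt n))) +
        CB / (c * n) * (2 * (|(h : ℝ) - h'| + |(t : ℝ) - t'|)))) := by
  have hn := X.n1
  have hs := X.hs
  have hq1 := X.h1
  have hq2 := X.h2
  have hCB := X.hCB
  have hc := X.hc
  have hcn : 0 < c * n := by positivity
  have hlen : (0 : ℝ) < (σ i).l.length := lt_of_lt_of_le hcn hi
  have hlen1 : 1 ≤ (σ i).l.length := by
    have : (0 : ℕ) < (σ i).l.length := by exact_mod_cast hlen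
    omega
  have hkk : (0 : ℝ) < (σ i).k := lt_of_lt_of_le hcn hk
  have hk1 : 1 ≤ (σ i).k := by
    have : (0 : ℕ) < (σ i).k := by exact_mod_cast hkk
    omega
  obtain ⟨W, hW⟩ : ∃ W, W = CB / (Real.sqrt c * Real.sqrt n) := ⟨_, rfl⟩
  obtain ⟨D, hD⟩ : ∃ D, D = (CB / Real.sqrt c + CB / c) *
        (1 + (((σ i).A : ℝ) / sc n) ^ 2) / (Real.sqrt n * Real.sqrt (Real.sqrt n)) := ⟨_, rfl⟩
  obtain ⟨y, hy⟩ : ∃ y : ℝ, y = φ ((((σ i).A : ℝ) - q1 / (1 + q1) * (σ i).l.sum) / sc n) :=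
    ⟨_, rfl⟩
  have hy1 : |y| ≤ 1 := by rw [hy]; exact hφ _
  have hsn : 0 < Real.sqrt n := Real.sqrt_pos.2 (by linarith)
  have hssn : 0 < Real.sqrt (Real.sqrt n) := Real.sqrt_pos.2 hsn
  have hscc : 0 < Real.sqrt c := Real.sqrt_pos.2 hc
  have hW0 : 0 < W := by rw [hW]; positivity
  have hD0 : 0 ≤ D := by rw [hD]; positivity
  -- the four weights
  have hb1 : ∀ j, bp (σ i).l.length (q1 / (1 + q1)) j ≤ W := fun j => by
    rw [hW]
    exact bpbig X.hn hc hCB (fun m j hm => (X.bin1 m j hm).1) _ j hi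
  have hb2 : ∀ j, bp (σ i).k (q2 / (1 + q2)) j ≤ W := fun j => by
    rw [hW]
    exact bpbig X.hn hc hCB (fun m j hm => (X.bin2 m j hm).1) _ j hk
  have big : ∀ h : ℕ, |R n q1 (σ i) h φ - (1 + q1) ^ (σ i).l.length *
      (bp (σ i).l.length (q1 / (1 + q1)) ((σ i).H - h) * y)| ≤ (1 + q1) ^ (σ i).l.length * D := by
    intro h
    rw [hy, hD]
    exact R_big hS X.hn hq1 hc hCB (σ i).l (σ i).A (X.sk.y_le i) (X.sk.sum_le i) hi _
      (by rw [← hW]; exact hb1 _) ((X.bin1 (σ i).l.length _ hlen1).2.2) φ hL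
  have hR := big h
  have hR' := big h'
  obtain ⟨P, hP⟩ : ∃ b, b = bp (σ i).l.length (q1 / (1 + q1)) ((σ i).H - h) := ⟨_, rfl⟩
  obtain ⟨P', hP'⟩ : ∃ b, b = bp (σ i).l.length (q1 / (1 + q1)) ((σ i).H - h') := ⟨_, rfl⟩
  obtain ⟨Q, hQ⟩ : ∃ b, b = bp (σ i).k (q2 / (1 + q2)) (cb (σ i) h t) := ⟨_, rfl⟩
  obtain ⟨Q', hQ'⟩ : ∃ b, b = bp (σ i).k (q2 / (1 + q2)) (cb (σ i) h' t') := ⟨_, rfl⟩
  have hP'0 : 0 ≤ P' := by rw [hP']; exact bp_nonneg (Ctx.p0 hq1) (Ctx.p1 hq1) _ _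
  have hQ0 : 0 ≤ Q := by rw [hQ]; exact bp_nonneg (Ctx.p0 hq2) (Ctx.p1 hq2) _ _
  have hQ'0 : 0 ≤ Q' := by rw [hQ']; exact bp_nonneg (Ctx.p0 hq2) (Ctx.p1 hq2) _ _
  have hP'W : P' ≤ W := by rw [hP']; exact hb1 _
  have hQW : Q ≤ W := by rw [hQ]; exact hb2 _
  have hQ'W : Q' ≤ W := by rw [hQ']; exact hb2 _
  have hPP : |P - P'| ≤ |(h : ℝ) - h'| * (CB / (c * n)) := by
    have h4 := bp_lip (fun j => (X.bin1 (σ i).l.length j hlen1).2.1) ((σ i).H - h) ((σ i).H - h')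
    rw [← hP, ← hP'] at h4
    have h5 : |(((σ i).H - h : ℤ) : ℝ) - (((σ i).H - h' : ℤ) : ℝ)| = |(h : ℝ) - h'| := by
      simp only [Int.cast_sub, Int.cast_natCast]
      rw [show ((σ i).H : ℝ) - h - (((σ i).H : ℝ) - h') = -((h : ℝ) - h') by ring, abs_neg]
    rw [h5] at h4
    have h6 : CB / ((σ i).l.length : ℝ) ≤ CB / (c * n) :=
      div_le_div_of_nonneg_left hCB.le hcn hi
    exact h4.trans (mul_le_mul_of_nonneg_left h6 (abs_nonneg _))
  have hQQ : |Q - Q'| ≤ (|(h : ℝ) - h'| + |(t : ℝ) - t'|) * (CB / (c * n)) := by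
    have h4 := bp_lip (fun j => (X.bin2 (σ i).k j hk1).2.1) (cb (σ i) h t) (cb (σ i) h' t')
    rw [← hQ, ← hQ'] at h4
    have h6 : CB / ((σ i).k : ℝ) ≤ CB / (c * n) :=
      div_le_div_of_nonneg_left hCB.le hcn hk
    have h7 : |((cb (σ i) h t : ℤ) : ℝ) - ((cb (σ i) h' t' : ℤ) : ℝ)| ≤
        |(h : ℝ) - h'| + |(t : ℝ) - t'| := by
      have e1 := two_cb (a := σ i) (X.par i) hp
      have e2 := two_cb (a := σ i) (X.par i) hp'
      have e3 : 2 * (((cb (σ i) h t : ℤ) : ℝ) - ((cb (σ i) h' t' : ℤ) : ℝ)) =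
          ((h : ℝ) - h') - ((t : ℝ) - t') := by
        have e4 : 2 * (cb (σ i) h t - cb (σ i) h' t') = ((h : ℤ) - h') - (t - t') := by
          linarith
        exact_mod_cast e4
      have e5 : |2 * (((cb (σ i) h t : ℤ) : ℝ) - ((cb (σ i) h' t' : ℤ) : ℝ))| ≤
          |(h : ℝ) - h'| + |(t : ℝ) - t'| := by
        rw [e3]
        exact abs_sub _ _
      rw [abs_mul, abs_of_pos (by norm_num : (0 : ℝ) < 2)] at e5
      have := abs_nonneg (((cb (σ i) h t : ℤ) : ℝ) - ((cb (σ i) h' t' : ℤ) : ℝ))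
      linarith
    calc |Q - Q'| ≤ _ := h4
      _ ≤ (|(h : ℝ) - h'| + |(t : ℝ) - t'|) * (CB / (c * n)) :=
        mul_le_mul h7 h6 (by positivity) (by positivity)
  rw [← hP] at hR
  rw [← hP'] at hR'
  obtain ⟨L, hL'⟩ : ∃ L, L = (1 + q1) ^ (σ i).l.length := ⟨_, rfl⟩
  have hL0 : 0 ≤ L := by rw [hL']; positivity
  rw [← hL'] at hR hR'
  unfold ui
  rw [← mul_sub, ← mul_sub, abs_mul (s ^ (n - (σ i).H) * Real.exp (g * (σ i).Λ)),
    abs_mul ((1 + q2) ^ (σ i).k),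
    abs_of_nonneg (show 0 ≤ s ^ (n - (σ i).H) * Real.exp (g * (σ i).Λ) by positivity),
    abs_of_nonneg (show 0 ≤ (1 + q2) ^ (σ i).k by positivity), X.vs, mul_assoc _ _
      (CB / (Real.sqrt c * Real.sqrt n) * _)]
  refine mul_le_mul_of_nonneg_left ?_ (by positivity)
  rw [← hQ, ← hQ', ← hW, ← hD, ← hL', mul_comm L, mul_assoc]
  refine mul_le_mul_of_nonneg_left ?_ (by positivity)
  have e1 : Q * R n q1 (σ i) h φ - Q' * R n q1 (σ i) h' φ =
      Q * (R n q1 (σ i) h φ - L * (P * y)) - Q' * (R n q1 (σ i) h' φ - L * (P' * y)) +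
      (L * y) * (Q * (P - P') + P' * (Q - Q')) := by ring
  rw [e1]
  have a1 : |Q * (R n q1 (σ i) h φ - L * (P * y))| ≤ W * (L * D) := by
    rw [abs_mul, abs_of_nonneg hQ0]
    exact mul_le_mul hQW hR (abs_nonneg _) hW0.le
  have a2 : |Q' * (R n q1 (σ i) h' φ - L * (P' * y))| ≤ W * (L * D) := by
    rw [abs_mul, abs_of_nonneg hQ'0]
    exact mul_le_mul hQ'W hR' (abs_nonneg _) hW0.le
  have a3 : |Q * (P - P') + P' * (Q - Q')| ≤
      W * (CB / (c * n) * (2 * (|(h : ℝ) - h'| + |(t : ℝ) - t'|))) := by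
    refine (abs_add_le _ _).trans ?_
    rw [abs_mul, abs_mul, abs_of_nonneg hQ0, abs_of_nonneg hP'0]
    have b1 : Q * |P - P'| ≤ W * (|(h : ℝ) - h'| * (CB / (c * n))) :=
      mul_le_mul hQW hPP (abs_nonneg _) hW0.le
    have b2 : P' * |Q - Q'| ≤ W * ((|(h : ℝ) - h'| + |(t : ℝ) - t'|) * (CB / (c * n))) :=
      mul_le_mul hP'W hQQ (abs_nonneg _) hW0.le
    have b3 : 0 ≤ W * (|(t : ℝ) - t'| * (CB / (c * n))) := by positivity
    linarith
  have a4 : |(L * y) * (Q * (P - P') + P' * (Q - Q'))| ≤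
      L * (W * (CB / (c * n) * (2 * (|(h : ℝ) - h'| + |(t : ℝ) - t'|)))) := by
    rw [abs_mul, abs_mul, abs_of_nonneg hL0]
    calc L * |y| * |Q * (P - P') + P' * (Q - Q')| ≤ L * 1 * |Q * (P - P') + P' * (Q - Q')| := by
          refine mul_le_mul_of_nonneg_right ?_ (abs_nonneg _)
          exact mul_le_mul_of_nonneg_left hy1 hL0
      _ ≤ _ := by
          rw [mul_one]
          exact mul_le_mul_of_nonneg_left a3 hL0
  have a5 := abs_add_le (Q * (R n q1 (σ i) h φ - L * (P * y)) -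
    Q' * (R n q1 (σ i) h' φ - L * (P' * y))) ((L * y) * (Q * (P - P') + P' * (Q - Q')))
  have a6 := abs_sub (Q * (R n q1 (σ i) h φ - L * (P * y)))
    (Q' * (R n q1 (σ i) h' φ - L * (P' * y)))
  refine a5.trans (((add_le_add (a6.trans (add_le_add a1 a2)) a4)).trans (le_of_eq ?_))
  ring

lemma Ctx.main (hS : FS.SMP_Stmt) (X : Ctx n M σ s g q1 q2 c CA CB) (h h' : ℕ) (t t' : ℤ)
    (hp : Even ((h : ℤ) + t)) (hp' : Even ((h' : ℤ) + t')) (φ : ℝ → ℝ) (hφ : ∀ a, |φ a| ≤ 1)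
    (hL : LipschitzWith 1 φ) :
    |UM n s g h t φ - UM n s g h' t' φ| ≤
      (2 * CB / Real.sqrt c * (CB / Real.sqrt c + CB / c) * (1 + 2 * CA) +
        2 * CB ^ 2 / (Real.sqrt c * c) + 2 * (CB + 1) ^ 2) *
        (1 / (n * Real.sqrt (Real.sqrt n)) + (|(h : ℝ) - h'| + |(t : ℝ) - t'|) /
          (n * Real.sqrt n)) * Zm n s g := by
  have hn := X.n1
  have hCB := X.hCB
  have hCA := X.hCA
  have hZ := X.Zpos
  have hc := X.hc
  have hsn : 0 < Real.sqrt n := Real.sqrt_pos.2 (by linarith)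
  have hssn : 0 < Real.sqrt (Real.sqrt n) := Real.sqrt_pos.2 hsn
  have hscc : 0 < Real.sqrt c := Real.sqrt_pos.2 hc
  have hnn : Real.sqrt n * Real.sqrt n = n := Real.mul_self_sqrt (by positivity)
  obtain ⟨B, hB⟩ : ∃ B : ℝ, B = CB / Real.sqrt c + CB / c := ⟨_, rfl⟩
  have hB0 : 0 < B := by rw [hB]; positivity
  obtain ⟨T, hT⟩ : ∃ T : ℝ, T = |(h : ℝ) - h'| + |(t : ℝ) - t'| := ⟨_, rfl⟩
  have hT0 : 0 ≤ T := by rw [hT]; positivity
  rw [X.U_eq h t hp, X.U_eq h' t' hp', ← sum_sub_distrib]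
  refine (abs_sum_le_sum_abs _ _).trans ?_
  have h1 := X.split (fun i => |ui n s g q1 q2 (σ i) h t φ - ui n s g q1 q2 (σ i) h' t' φ|)
    (fun i => CB / (Real.sqrt c * Real.sqrt n) *
        (2 * ((CB / Real.sqrt c + CB / c) *
        (1 + (((σ i).A : ℝ) / sc n) ^ 2) / (Real.sqrt n * Real.sqrt (Real.sqrt n))) +
        CB / (c * n) * (2 * (|(h : ℝ) - h'| + |(t : ℝ) - t'|))))
    (2 * (CB + 1) ^ 2) (by positivity) (fun i => by positivity)
    (fun i hi hk => X.ui_big hS i hi hk h h' t t' hp hp' φ hφ hL)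
    (fun i => by
      have h2 := X.ui_small hS i h t φ hφ
      have h3 := X.ui_small hS i h' t' φ hφ
      have h4 := abs_sub (ui n s g q1 q2 (σ i) h t φ) (ui n s g q1 q2 (σ i) h' t' φ)
      linarith)
  refine h1.trans ?_
  rw [← hB, ← hT]
  have h2 : ∑ i, vs2 n s g (σ i) * (CB / (Real.sqrt c * Real.sqrt n) *
        (2 * (B * (1 + (((σ i).A : ℝ) / sc n) ^ 2) / (Real.sqrt n * Real.sqrt (Real.sqrt n))) +
        CB / (c * n) * (2 * T))) =
      2 * CB / Real.sqrt c * B * (1 / (n * Real.sqrt (Real.sqrt n))) *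
        ∑ i, vs2 n s g (σ i) * (1 + (((σ i).A : ℝ) / sc n) ^ 2) +
        2 * CB ^ 2 / (Real.sqrt c * c) * (T / (n * Real.sqrt n)) * Zm n s g := by
    rw [X.Z, mul_sum, mul_sum, ← sum_add_distrib]
    refine sum_congr rfl fun i _ => ?_
    have e1 : CB / (Real.sqrt c * Real.sqrt n) * (2 * (B * (1 + (((σ i).A : ℝ) / sc n) ^ 2) /
        (Real.sqrt n * Real.sqrt (Real.sqrt n)))) =
        2 * CB / Real.sqrt c * B * (1 / (n * Real.sqrt (Real.sqrt n))) *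
          (1 + (((σ i).A : ℝ) / sc n) ^ 2) := by
      rw [show (n : ℝ) * Real.sqrt (Real.sqrt n) =
        Real.sqrt n * Real.sqrt n * Real.sqrt (Real.sqrt n) by rw [hnn]]
      field_simp
    have e2 : CB / (Real.sqrt c * Real.sqrt n) * (CB / (c * n) * (2 * T)) =
        2 * CB ^ 2 / (Real.sqrt c * c) * (T / (n * Real.sqrt n)) := by
      field_simp
    rw [mul_add (CB / (Real.sqrt c * Real.sqrt n)), e1, e2]
    ring
  rw [h2]
  have h3 : 2 * CB / Real.sqrt c * B * (1 / (n * Real.sqrt (Real.sqrt n))) *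
        ∑ i, vs2 n s g (σ i) * (1 + (((σ i).A : ℝ) / sc n) ^ 2) ≤
      2 * CB / Real.sqrt c * B * (1 / (n * Real.sqrt (Real.sqrt n))) * ((1 + 2 * CA) * Zm n s g) :=
    mul_le_mul_of_nonneg_left X.sumV (by positivity)
  have h4 : 2 * (CB + 1) ^ 2 / (n : ℝ) ^ 3 * Zm n s g ≤
      2 * (CB + 1) ^ 2 * (1 / (n * Real.sqrt (Real.sqrt n))) * Zm n s g := by
    refine mul_le_mul_of_nonneg_right ?_ hZ
    rw [mul_one_div]
    refine div_le_div_of_nonneg_left (by positivity) (by positivity) ?_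
    have h5 : Real.sqrt (Real.sqrt n) ≤ n := by
      have h6 : Real.sqrt n ≤ n := by
        rw [Real.sqrt_le_left (by positivity)]
        nlinarith
      refine (Real.sqrt_le_sqrt h6).trans h6
    calc (n : ℝ) * Real.sqrt (Real.sqrt n) ≤ n * n := mul_le_mul_of_nonneg_left h5 (by positivity)
      _ = (n : ℝ) ^ 2 * 1 := by ring
      _ ≤ (n : ℝ) ^ 2 * n := mul_le_mul_of_nonneg_left (by linarith) (by positivity)
      _ = _ := by ring
  have h7 : 0 ≤ 1 / ((n : ℝ) * Real.sqrt (Real.sqrt n)) := by positivity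
  have h8 : 0 ≤ T / ((n : ℝ) * Real.sqrt n) := by positivity
  obtain ⟨α, hα⟩ : ∃ x, x = 1 / ((n : ℝ) * Real.sqrt (Real.sqrt n)) := ⟨_, rfl⟩
  obtain ⟨β, hβ⟩ : ∃ x, x = T / ((n : ℝ) * Real.sqrt n) := ⟨_, rfl⟩
  rw [← hα] at h3 h4 h7 ⊢
  rw [← hβ] at h8 ⊢
  obtain ⟨c1, hc1⟩ : ∃ x, x = 2 * CB / Real.sqrt c * B := ⟨_, rfl⟩
  obtain ⟨c2, hc2⟩ : ∃ x, x = 2 * CB ^ 2 / (Real.sqrt c * c) := ⟨_, rfl⟩
  have hc10 : 0 ≤ c1 := by rw [hc1]; positivity
  have hc20 : 0 ≤ c2 := by rw [hc2]; positivity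
  rw [← hc1] at h3 ⊢
  rw [← hc2]
  have g1 : 0 ≤ c1 * (1 + 2 * CA) * β * Zm n s g := by positivity
  have g2 : 0 ≤ c2 * α * Zm n s g := by positivity
  have g3 : 0 ≤ 2 * (CB + 1) ^ 2 * β * Zm n s g := by positivity
  linarith

end Pool.Agent.TPT.LOCB

namespace Pool.Agent.TPT

open Finset Filter Topology MeasureTheory
open Pool.Agent.Lib27 Pool.Agent.SapR Pool.Agent.AreaLaw Pool.Agent.FL

theorem t_LOCB (hS : SKELM_Stmt) (hK : KBIGM_Stmt) (hB : FS.BIN_Stmt) (hP : FS.SMP_Stmt)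
    (hM : MOMM_Stmt) (hH : HGM_Stmt) : LOCB_Stmt := by
  intro a b ha hab
  have hb : 0 < b := lt_of_lt_of_le ha hab
  obtain ⟨CA, hCA, NA, hA⟩ := hM a b ha hab 2
  obtain ⟨c, hc, NK, hNK6, hKB⟩ := hK a b ha hab
  have hmono : ∀ x y : ℝ, 0 < x → x ≤ y → x / (1 + x) ≤ y / (1 + y) := by
    intro x y hx hxy
    have hy : 0 < y := lt_of_lt_of_le hx hxy
    rw [div_le_div_iff₀ (by positivity) (by positivity)]
    nlinarith
  obtain ⟨r0, hr0⟩ : ∃ r, r = Real.exp (-(2 * b)) := ⟨_, rfl⟩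
  obtain ⟨r1, hr1⟩ : ∃ r, r = Real.exp (2 * b) := ⟨_, rfl⟩
  have hr0p : 0 < r0 := by rw [hr0]; positivity
  have hr1p : 0 < r1 := by rw [hr1]; positivity
  have hr01 : r0 ≤ r1 := by
    rw [hr0, hr1]
    exact Real.exp_le_exp.2 (by linarith)
  obtain ⟨⟨CB, hCB, hb1⟩, -⟩ := hB (r0 / (1 + r0)) (r1 / (1 + r1)) (by positivity)
    (hmono _ _ hr0p hr01) (by rw [div_lt_one (by positivity)]; linarith)
  refine ⟨2 * CB / Real.sqrt c * (CB / Real.sqrt c + CB / c) * (1 + 2 * CA) +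
        2 * CB ^ 2 / (Real.sqrt c * c) + 2 * (CB + 1) ^ 2, by positivity,
        max (max NA NK) ⌈24 / c ^ 4⌉₊, ?_⟩
  intro n hn f g hfg h h' t t' φ hp hp' hφ hL
  have hn1 : NA ≤ n := le_trans (le_trans (le_max_left _ _) (le_max_left _ _)) hn
  have hn2 : NK ≤ n := le_trans (le_trans (le_max_right _ _) (le_max_left _ _)) hn
  have hn3 : ⌈24 / c ^ 4⌉₊ ≤ n := le_trans (le_max_right _ _) hn
  have hn4 : 24 / c ^ 4 ≤ n := (Nat.le_ceil _).trans (by exact_mod_cast hn3)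
  obtain ⟨M, σ, hσ⟩ := hS n (by omega)
  obtain ⟨hf1, hf2, hg⟩ := hfg
  have hg' := abs_le.1 hg
  have hZ0 : 0 ≤ Zm n (Real.exp (-f)) g := by
    unfold Zm
    refine sum_nonneg fun q _ => ?_
    unfold wm
    positivity
  have X : LOCB.Ctx n M σ (Real.exp (-f)) g (Real.exp (-f) * Real.exp (-g))
      (Real.exp (-(2 * g))) c CA CB := by
    refine ⟨hσ, by omega, Real.exp_pos _, rfl, rfl, hc, hCA, hCB, ?_, ?_, ?_, ?_, ?_⟩
    · intro i
      exact LOCB.all2 hσ (fun x y _ => Even (x + y)) (fun q hq => (hH.2.2.2 n q hq).2.2.1) i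
    · exact (hA n hn1 f g ⟨hf1, hf2, hg⟩).1
    · refine (hKB n hn2 f g ⟨hf1, hf2, hg⟩ M σ hσ).trans ?_
      exact mul_le_mul_of_nonneg_right (FS.LOC.exp_small hc hn4 (by omega)) hZ0
    · intro m j hm
      have e1 : Real.exp (-f) * Real.exp (-g) = Real.exp (-f + -g) := (Real.exp_add _ _).symm
      have q0 : r0 ≤ Real.exp (-f) * Real.exp (-g) := by
        rw [e1, hr0]
        exact Real.exp_le_exp.2 (by linarith)
      have q1 : Real.exp (-f) * Real.exp (-g) ≤ r1 := by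
        rw [e1, hr1]
        exact Real.exp_le_exp.2 (by linarith)
      exact hb1 _ (hmono _ _ hr0p q0) (hmono _ _ (by positivity) q1) m j hm
    · intro m j hm
      have q0 : r0 ≤ Real.exp (-(2 * g)) := by
        rw [hr0]
        exact Real.exp_le_exp.2 (by linarith)
      have q1 : Real.exp (-(2 * g)) ≤ r1 := by
        rw [hr1]
        exact Real.exp_le_exp.2 (by linarith)
      exact hb1 _ (hmono _ _ hr0p q0) (hmono _ _ (by positivity) q1) m j hm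
  exact X.main hP h h' t t' hp hp' φ hφ hL

end Pool.Agent.TPT
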