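import Pool.Agent.TPT.StmtsB
import Pool.Agent.Lib_helper35.Gap.FA

/-!
# Project TPT, module MEANM: the mean of the rescaled area functional
-/

set_option autoImplicit false

namespace Pool.Agent.TPT

open Finset Filter Topology
open Pool.Agent.FS (sc)
open Pool.Agent.Gap (IsCap closeP cap1 B0 stair qn)

namespace MEANMm

/-- comparison of the first and the second moment -/
lemma cs_poly (P : Polynomial ℝ) (hP : ∀ k, 0 ≤ P.coeff k) (t : ℝ) :
    2 * t * P.derivative.eval 1 ≤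
      t ^ 2 * P.eval 1 + (P.derivative.derivative.eval 1 + P.derivative.eval 1) := by
  have e0 := P.as_sum_range
  have h2 : P.eval 1 = ∑ k ∈ range (P.natDegree + 1), P.coeff k := by
    rw [Polynomial.eval_eq_sum_range]
    simp
  have h3 : P.derivative.eval 1 = ∑ k ∈ range (P.natDegree + 1), P.coeff k * k := by
    conv_lhs => rw [e0]
    rw [Polynomial.derivative_sum, Polynomial.eval_finsetSum]
    refine Finset.sum_congr rfl fun k _ => ?_
    rw [Polynomial.derivative_monomial, Polynomial.eval_monomial]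
    simp
  have h4 : P.derivative.derivative.eval 1 =
      ∑ k ∈ range (P.natDegree + 1), P.coeff k * (k * (k - 1)) := by
    conv_lhs => rw [e0]
    rw [Polynomial.derivative_sum, Polynomial.derivative_sum, Polynomial.eval_finsetSum]
    refine Finset.sum_congr rfl fun k _ => ?_
    rw [Polynomial.derivative_monomial, Polynomial.derivative_monomial, Polynomial.eval_monomial]
    rcases Nat.eq_zero_or_pos k with rfl | hk
    · simp
    · rw [Nat.cast_sub hk]
      simp only [one_pow, mul_one, Nat.cast_one]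
      ring
  rw [h2, h3, h4, Finset.mul_sum, Finset.mul_sum, ← Finset.sum_add_distrib,
    ← Finset.sum_add_distrib]
  refine Finset.sum_le_sum fun k _ => ?_
  have h5 := mul_nonneg (hP k) (sq_nonneg (t - k))
  nlinarith

/-- two-sided bounds of the normalised mean of the staircase polygons -/
lemma stair_bounds (oM2 : Gap.M2_Stmt) (oB : Gap.BAL_Stmt) :
    ∃ c C : ℝ, 0 < c ∧ 0 < C ∧ ∀ n : ℕ, 3 ≤ n →
      c ≤ (closeP 1 cap1 B0 n).derivative.eval 1 /
        (((n : ℝ) * Real.sqrt n) * (closeP 1 cap1 B0 n).eval 1) ∧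
      (closeP 1 cap1 B0 n).derivative.eval 1 /
        (((n : ℝ) * Real.sqrt n) * (closeP 1 cap1 B0 n).eval 1) ≤ C := by
  obtain ⟨c, hc, hB⟩ := oB B0 Gap.B0_isSol
  obtain ⟨C2, hC2⟩ := oM2 stair 1 cap1 cap1 Gap.isCap_cap1_35 Gap.isCap_cap1_35 B0 Gap.B0_isSol
  have hrho4 : stair.rho = 1 / 4 := rfl
  rw [hrho4] at hC2
  refine ⟨c, (1 + |C2| / c) / 2, hc, by positivity, fun n hn => ?_⟩
  have hn0 : (0 : ℝ) < n := by
    have : 0 < n := by omega
    exact_mod_cast this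
  obtain ⟨R, hR⟩ : ∃ R, R = (n : ℝ) * Real.sqrt n := ⟨_, rfl⟩
  have hR0 : 0 < R := by rw [hR]; positivity
  obtain ⟨q, hq⟩ : ∃ q : ℝ, q = (1 / 4 : ℝ) ^ n := ⟨_, rfl⟩
  have hq0 : 0 < q := by rw [hq]; positivity
  obtain ⟨h1, h2⟩ := hB n hn
  have h3 := hC2 n
  have h4 := cs_poly (closeP 1 cap1 B0 n)
    (fun k => Gap.closeP_coeff_nonneg Gap.isCap_cap1_35.nonneg Gap.isCap_cap1_35.nonneg
      Gap.B0_isSol n k) R
  rw [← hR, ← hq] at h1
  rw [← hR] at h2
  rw [← hR, ← hq] at h3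
  rw [← hR]
  generalize (closeP 1 cap1 B0 n).eval 1 = p at h1 h2 h4 ⊢
  generalize (closeP 1 cap1 B0 n).derivative.eval 1 = p1 at h2 h3 h4 ⊢
  generalize (closeP 1 cap1 B0 n).derivative.derivative.eval 1 = p2 at h3 h4
  have hp : 0 < p := by
    by_contra hcon
    have : R * q * p ≤ 0 := mul_nonpos_of_nonneg_of_nonpos (by positivity) (not_lt.1 hcon)
    linarith
  have hRp : 0 < R * p := mul_pos hR0 hp
  constructor
  · rw [le_div_iff₀ hRp]
    linarith
  · rw [div_le_iff₀ hRp]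
    -- `p2 + p1 ≤ |C2| / c * R ^ 2 * p`
    have h5 : p2 + p1 ≤ |C2| / c * R ^ 2 * p := by
      have h6 : q * (p2 + p1) ≤ |C2| * R := h3.trans
        (mul_le_mul_of_nonneg_right (le_abs_self _) hR0.le)
      have h7 : |C2| * R ≤ q * (|C2| / c * R ^ 2 * p) := by
        have h8 : 1 ≤ c⁻¹ * (R * q * p) := by
          rw [inv_mul_eq_div, one_le_div hc]
          exact h1
        calc |C2| * R ≤ |C2| * R * (c⁻¹ * (R * q * p)) :=
              le_mul_of_one_le_right (by positivity) h8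
          _ = q * (|C2| / c * R ^ 2 * p) := by ring
      exact le_of_mul_le_mul_left (h6.trans h7) hq0
    have h9 : 2 * R * p1 ≤ 2 * R * ((1 + |C2| / c) / 2 * (R * p)) := by
      calc 2 * R * p1 ≤ R ^ 2 * p + (p2 + p1) := h4
        _ ≤ R ^ 2 * p + |C2| / c * R ^ 2 * p := by linarith
        _ = 2 * R * ((1 + |C2| / c) / 2 * (R * p)) := by ring
    exact le_of_mul_le_mul_left h9 (by positivity)

section
variable {n : ℕ} {s g : ℝ} (D : KData n s g)

theorem sum_zero : Zm n s g = (closeP (2 * n) (capM n s g) D.B n).eval 1 := by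
  have h := congrArg (Polynomial.eval 1) D.count
  rw [Polynomial.eval_finsetSum] at h
  simpa [Zm] using h

theorem sum_one : ∑ q ∈ Omm n, wm n s g q * (am n q : ℝ) =
    (closeP (2 * n) (capM n s g) D.B n).derivative.eval 1 := by
  have h := congrArg (fun p : Polynomial ℝ => (Polynomial.derivative p).eval 1) D.count
  simp only [Polynomial.derivative_sum, Polynomial.derivative_mul, Polynomial.derivative_C,
    zero_mul, zero_add, Polynomial.eval_finsetSum, Polynomial.eval_mul, Polynomial.eval_C,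
    Polynomial.derivative_X_pow, Polynomial.eval_pow, Polynomial.eval_X, one_pow, mul_one] at h
  rw [← h]

end

lemma qn_tendsto : Tendsto (fun n : ℕ => qn n) atTop atTop := by
  unfold qn
  exact Real.tendsto_sqrt_atTop.comp (Real.tendsto_sqrt_atTop.comp tendsto_natCast_atTop_atTop)

/-- the scale of the staircase polygons -/
lemma near_floor (x m : ℝ) (hm : 0 < m) (hx : 0 ≤ x) :
    |(⌊x / m⌋₊ : ℝ) * m - x| ≤ m := by
  have e : (⌊x / m⌋₊ : ℝ) * m - x = ((⌊x / m⌋₊ : ℝ) - x / m) * m := by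
    field_simp
  have h0 : 0 ≤ x / m := div_nonneg hx hm.le
  rw [e, abs_mul, abs_of_pos hm]
  refine mul_le_of_le_one_left hm.le ?_
  rw [abs_le]
  constructor
  · have := Nat.lt_floor_add_one (x / m)
    linarith
  · have := Nat.floor_le h0
    linarith

/-- comparison of the scales -/
lemma sc_ratio {n n0 : ℕ} {A : ℝ} (hA : 1 ≤ A) (hn : 1 ≤ n) (hn0 : 1 ≤ n0)
    (h : (n0 : ℝ) ≤ A * n) : (n0 : ℝ) * Real.sqrt n0 ≤ A ^ 2 * ((n : ℝ) * Real.sqrt n) := by
  have h1 : (0 : ℝ) < n := by exact_mod_cast hn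
  have h2 : (0 : ℝ) < n0 := by exact_mod_cast hn0
  have h3 : Real.sqrt n0 ≤ A * Real.sqrt n := by
    rw [Real.sqrt_le_left (by positivity), mul_pow, Real.sq_sqrt h1.le]
    calc (n0 : ℝ) ≤ A * n := h
      _ ≤ A ^ 2 * n := by
        have : A ≤ A ^ 2 := by nlinarith
        exact mul_le_mul_of_nonneg_right this h1.le
  calc (n0 : ℝ) * Real.sqrt n0 ≤ (A * n) * (A * Real.sqrt n) :=
        mul_le_mul h h3 (Real.sqrt_nonneg _) (by positivity)
    _ = A ^ 2 * ((n : ℝ) * Real.sqrt n) := by ring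

end MEANMm

open MEANMm in
theorem t_MEANM (hD : DATB_Stmt) (hPA : TPK.QPAR_Stmt) (hR : TPK.QRAT_Stmt) (oM2 : Gap.M2_Stmt)
    (oB : Gap.BAL_Stmt) : MEANM_Stmt := by
  intro a b ha hab
  obtain ⟨D, hD2, N, hN3, hdat⟩ := hD a b ha hab
  obtain ⟨K0, K1, hR⟩ := hR
  obtain ⟨J0, J1, hPA⟩ := hPA
  obtain ⟨p, hp⟩ := TPK.par_bounds
  obtain ⟨c, C, hc, hC, hst⟩ := stair_bounds oM2 oB
  have hD1 : 1 ≤ D := by linarith
  have hD0 : 0 < D := by linarith
  -- the parameters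
  obtain ⟨lam, hlam⟩ : ∃ lam, lam = min 1 (c / (8 * D ^ K1)) := ⟨_, rfl⟩
  have hlam0 : 0 < lam := by rw [hlam]; exact lt_min one_pos (by positivity)
  have hlam1 : lam ≤ 1 := by rw [hlam]; exact min_le_left _ _
  have hlam2 : D ^ K1 * lam ≤ c / 8 := by
    have h1 : lam ≤ c / (8 * D ^ K1) := by rw [hlam]; exact min_le_right _ _
    calc D ^ K1 * lam ≤ D ^ K1 * (c / (8 * D ^ K1)) := mul_le_mul_of_nonneg_left h1 (by positivity)
      _ = c / 8 := by field_simp
  obtain ⟨W, hW⟩ : ∃ W, W = 3 + D ^ K0 + (8 * D ^ K1 / (c * lam)) ^ 2 := ⟨_, rfl⟩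
  have hW3 : 3 ≤ W := by
    rw [hW]
    have h1 : 0 ≤ D ^ K0 := by positivity
    have h2 : 0 ≤ (8 * D ^ K1 / (c * lam)) ^ 2 := by positivity
    linarith
  have hW0 : 0 < W := by linarith
  have hWK : D ^ K0 ≤ W := by
    rw [hW]
    have h2 : 0 ≤ (8 * D ^ K1 / (c * lam)) ^ 2 := by positivity
    linarith
  have hWs : 8 * D ^ K1 / (c * lam) ≤ Real.sqrt W := by
    refine Real.le_sqrt_of_sq_le ?_
    rw [hW]
    have h1 : 0 ≤ D ^ K0 := by positivity
    linarith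
  have hsW : 0 < Real.sqrt W := Real.sqrt_pos.2 hW0
  have hW1 : D ^ K1 / Real.sqrt W / lam ≤ c / 8 := by
    rw [div_div, div_le_iff₀ (by positivity)]
    rw [div_le_iff₀ (by positivity)] at hWs
    have : c / 8 * (Real.sqrt W * lam) = (Real.sqrt W * (c * lam)) / 8 := by ring
    rw [this, le_div_iff₀ (by norm_num)]
    linarith
  have hDW1 : 1 ≤ D * W := by nlinarith
  obtain ⟨N1, hN1⟩ := eventually_atTop.1
    (qn_tendsto.eventually_ge_atTop (4 * (D * W) ^ K1 / (c * lam) + 1))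
  obtain ⟨N2, hN2⟩ := exists_nat_ge ((D * W) ^ (max K0 J0))
  refine ⟨(c / 2 * ((2 * D ^ p)⁻¹ * ((D ^ J1) ^ 2)⁻¹))⁻¹ +
    (C + c) * (D ^ p * D * (D ^ J1) ^ 2), by positivity, max N (max N1 N2),
    fun n hn f g hfg => ?_⟩
  have hnN : N ≤ n := (le_max_left _ _).trans hn
  have hnN1 : N1 ≤ n := ((le_max_left _ _).trans (le_max_right _ _)).trans hn
  have hnN2 : N2 ≤ n := ((le_max_right _ _).trans (le_max_right _ _)).trans hn
  obtain ⟨d, ok⟩ := hdat n hnN f g hfg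
  obtain ⟨p1, p2, p3, p4, p5, p6⟩ := hp D hD2 d.G ok.cls
  have hmb : 0 < d.G.mbar := by linarith
  have hhb : 0 < d.G.hbar := by linarith
  have hsg : 0 < d.G.sig2 := lt_of_lt_of_le (inv_pos.2 hD0) p5
  obtain ⟨n0, hn0⟩ : ∃ n0 : ℕ, n0 = ⌊2 * d.G.sig2 * n / d.G.mbar⌋₊ := ⟨_, rfl⟩
  have hnear : |(n0 : ℝ) * d.G.mbar - 2 * d.G.sig2 * n| ≤ d.G.mbar := by
    rw [hn0]
    exact near_floor _ _ hmb (by positivity)
  have hbig : (D * W) ^ (max K0 J0) ≤ n := hN2.trans (by exact_mod_cast hnN2)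
  have hsc0 : TPK.Sc0 K0 D W d.G n n0 := ⟨hD2, by linarith, ok.cls,
    (pow_le_pow_right₀ hDW1 (le_max_left _ _)).trans hbig, hnear⟩
  have hscJ : TPK.Sc0 J0 D W d.G n n0 := ⟨hD2, by linarith, ok.cls,
    (pow_le_pow_right₀ hDW1 (le_max_right _ _)).trans hbig, hnear⟩
  obtain ⟨⟨hn1, hn01, -, hWn0, hnn0, hn0n⟩, -, -⟩ := hPA D W d.G n n0 0 0
    ⟨hscJ, le_rfl, by rw [zero_mul]; exact hW0.le, by ring⟩
  obtain ⟨V, hV⟩ := ok.csol
  obtain ⟨q1, -, q3⟩ := hR D hD2 d.G ok.cls (2 * n) _ _ V V d.B ok.ccap ok.ccap hV hV d.sol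
    W n n0 hsc0 hWK
  have q3 := q3 lam hlam0 hlam1
  have hn03 : 3 ≤ n0 := by
    have : (3 : ℝ) ≤ n0 := hW3.trans hWn0
    exact_mod_cast this
  obtain ⟨s1, s2⟩ := hst n0 hn03
  rw [← sum_zero d] at q1 q3
  rw [← sum_one d] at q3
  have hnr : (0 : ℝ) < n := by exact_mod_cast hn1
  have hn0r : (0 : ℝ) < n0 := by exact_mod_cast hn01
  obtain ⟨R, hRd⟩ : ∃ R, R = (n : ℝ) * Real.sqrt n := ⟨_, rfl⟩
  obtain ⟨R0, hR0d⟩ : ∃ R, R = (n0 : ℝ) * Real.sqrt n0 := ⟨_, rfl⟩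
  have hRp : 0 < R := by rw [hRd]; positivity
  have hR0p : 0 < R0 := by rw [hR0d]; positivity
  -- positivity of the total weight
  have hZ : 0 < Zm n (Real.exp (-f)) g := by
    by_contra hcon
    have h1 : ((n : ℝ) * Real.sqrt n) * d.G.rho ^ n * Zm n (Real.exp (-f)) g ≤ 0 := by
      refine mul_nonpos_of_nonneg_of_nonpos ?_ (not_lt.1 hcon)
      have := pow_pos d.G.rho_pos n
      positivity
    have h2 : 0 < (D ^ K1)⁻¹ := by positivity
    linarith
  -- the error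
  have hqn := hN1 n hnN1
  have hqn0 : 0 < qn n := by
    have : 0 ≤ 4 * (D * W) ^ K1 / (c * lam) := by positivity
    linarith
  have hE1 : (D * W) ^ K1 / qn n / lam ≤ c / 4 := by
    rw [div_div, div_le_iff₀ (by positivity)]
    have h1 : 4 * (D * W) ^ K1 / (c * lam) ≤ qn n := by linarith
    rw [div_le_iff₀ (by positivity)] at h1
    have : c / 4 * (qn n * lam) = (qn n * (c * lam)) / 4 := by ring
    rw [this, le_div_iff₀ (by norm_num)]
    linarith
  have hE : ((D * W) ^ K1 / qn n + D ^ K1 / Real.sqrt W) / lam + D ^ K1 * lam ≤ c / 2 := by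
    rw [add_div]
    linarith
  have q4 := q3.trans hE
  have hsum : ∑ q ∈ Omm n, wm n (Real.exp (-f)) g q * rm n q =
      (∑ q ∈ Omm n, wm n (Real.exp (-f)) g q * (am n q : ℝ)) / R := by
    rw [Finset.sum_div]
    refine Finset.sum_congr rfl fun q _ => ?_
    unfold rm sc
    rw [← hRd, mul_div_assoc]
  rw [hsum]
  rw [← hR0d] at q4 s1 s2
  have r1 : R0 ≤ (D ^ J1) ^ 2 * R := by
    rw [hRd, hR0d]
    exact sc_ratio (one_le_pow₀ hD1) hn1 hn01 hn0n
  have r2 : R ≤ (D ^ J1) ^ 2 * R0 := by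
    rw [hRd, hR0d]
    exact sc_ratio (one_le_pow₀ hD1) hn01 hn1 hnn0
  generalize (closeP 1 cap1 B0 n0).derivative.eval 1 / (R0 * (closeP 1 cap1 B0 n0).eval 1) = y
    at q4 s1 s2
  generalize (∑ q ∈ Omm n, wm n (Real.exp (-f)) g q * (am n q : ℝ)) = S at q4 ⊢
  generalize Zm n (Real.exp (-f)) g = Z at q4 hZ ⊢
  obtain ⟨x, hx⟩ : ∃ x, x = 2 * d.G.sig2 / (d.G.hbar * R0) * (S / Z) := ⟨_, rfl⟩
  rw [← hx] at q4
  have hS : S / R = x * ((d.G.hbar / (2 * d.G.sig2)) * (R0 / R)) * Z := by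
    rw [hx]
    field_simp
  have x1 : c / 2 ≤ x := by
    have := (abs_le.1 q4).1
    linarith
  have x2 : x ≤ C + c := by
    have := (abs_le.1 q4).2
    linarith
  have x0 : 0 < x := by linarith
  have u1 : (2 * D ^ p)⁻¹ ≤ d.G.hbar / (2 * d.G.sig2) := by
    rw [inv_eq_one_div, div_le_div_iff₀ (by positivity) (by positivity)]
    nlinarith [hsg]
  have u2 : d.G.hbar / (2 * d.G.sig2) ≤ D ^ p * D := by
    rw [div_le_iff₀ (by positivity)]
    have h1 : 1 ≤ D * d.G.sig2 := by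
      have := mul_le_mul_of_nonneg_left p5 hD0.le
      rwa [mul_inv_cancel₀ hD0.ne'] at this
    have h2 : 0 < D ^ p := by positivity
    calc d.G.hbar ≤ D ^ p * 1 := by rw [mul_one]; exact p4
      _ ≤ D ^ p * (D * d.G.sig2) := mul_le_mul_of_nonneg_left h1 h2.le
      _ ≤ D ^ p * D * (2 * d.G.sig2) := by
        have : 0 < D ^ p * (D * d.G.sig2) := by positivity
        linarith
  have v1 : ((D ^ J1) ^ 2)⁻¹ ≤ R0 / R := by
    rw [le_div_iff₀ hRp, inv_mul_le_iff₀ (by positivity)]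
    exact r2
  have v2 : R0 / R ≤ (D ^ J1) ^ 2 := by
    rw [div_le_iff₀ hRp]
    exact r1
  have u0 : 0 < d.G.hbar / (2 * d.G.sig2) := by positivity
  have v0 : 0 < R0 / R := by positivity
  rw [hS]
  obtain ⟨L, hL⟩ : ∃ L, L = c / 2 * ((2 * D ^ p)⁻¹ * ((D ^ J1) ^ 2)⁻¹) := ⟨_, rfl⟩
  obtain ⟨M, hM⟩ : ∃ M, M = (C + c) * (D ^ p * D * (D ^ J1) ^ 2) := ⟨_, rfl⟩
  have hL0 : 0 < L := by rw [hL]; positivity
  have hM0 : 0 < M := by rw [hM]; positivity
  rw [← hL, ← hM]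
  constructor
  · refine mul_le_mul_of_nonneg_right ?_ hZ.le
    have h1 : (L⁻¹ + M)⁻¹ ≤ L := by
      rw [inv_le_comm₀ (by positivity) hL0]
      linarith
    refine h1.trans ?_
    rw [hL]
    exact mul_le_mul x1 (mul_le_mul u1 v1 (by positivity) u0.le) (by positivity) x0.le
  · refine mul_le_mul_of_nonneg_right ?_ hZ.le
    have h1 : x * (d.G.hbar / (2 * d.G.sig2) * (R0 / R)) ≤ M := by
      rw [hM]
      exact mul_le_mul x2 (mul_le_mul u2 v2 v0.le (by positivity)) (by positivity) (by positivity)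
    have h2 : 0 < L⁻¹ := inv_pos.2 hL0
    linarith

end Pool.Agent.TPT
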