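import Pool.Agent.TPT.StmtsB

/-!
Module TPT_MODM: sequences of models with a constant class parameter.
-/

set_option autoImplicit false

namespace Pool.Agent.TPT.MODP

open Finset Filter Topology MeasureTheory
open Pool.Agent.Lib27 Pool.Agent.SapR Pool.Agent.AreaLaw Pool.Agent.TPT
open Pool.Agent.FL (Wd hl htn)
open Pool.Agent.Gap (IsCap closeP)

/-- the index used for `n` -/
def mx (N n : ℕ) : ℕ := max n N

lemma mx_eq (N n : ℕ) (h : N ≤ n) : mx N n = n := max_eq_left h

lemma mx_ge (N n : ℕ) : N ≤ mx N n := le_max_right _ _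

lemma mr_add (r : ℕ) (P Q : Polynomial ℝ) : KCG.mr r (P + Q) = KCG.mr r P + KCG.mr r Q :=
  Polynomial.sum_add_index P Q _ (fun _ => by simp) (fun _ _ _ => by ring)

lemma mr_mono (r n : ℕ) (c : ℝ) :
    KCG.mr r (Polynomial.C c * (Polynomial.X : Polynomial ℝ) ^ n) = c * (n : ℝ) ^ r := by
  rw [Polynomial.C_mul_X_pow_eq_monomial]
  unfold KCG.mr
  rw [Polynomial.sum_monomial_index]
  simp

lemma mr_sum {ι : Type} (r : ℕ) (S : Finset ι) (c : ι → ℝ) (a : ι → ℕ) :
    KCG.mr r (∑ i ∈ S, Polynomial.C (c i) * (Polynomial.X : Polynomial ℝ) ^ (a i)) =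
      ∑ i ∈ S, c i * (a i : ℝ) ^ r := by
  classical
  induction S using Finset.induction_on with
  | empty =>
    rw [Finset.sum_empty, Finset.sum_empty]
    unfold KCG.mr
    simp
  | insert x S hx ih =>
    rw [Finset.sum_insert hx, Finset.sum_insert hx, mr_add, mr_mono, ih]

/-- the rate -/
noncomputable def kp (c : ℝ) (n : ℕ) : ℝ := c * ((Real.log n + 1) / Real.sqrt n)

lemma kp_lim (c e : ℝ) : Tendsto (fun n : ℕ => kp c n * e) atTop (𝓝 0) := by
  have h1 : Tendsto (fun x : ℝ => Real.log x / x ^ (1 / 2 : ℝ)) atTop (𝓝 0) :=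
    (isLittleO_log_rpow_atTop (by norm_num)).tendsto_div_nhds_zero
  have h2 : Tendsto (fun x : ℝ => (1 : ℝ) / x ^ (1 / 2 : ℝ)) atTop (𝓝 0) := by
    simp only [one_div]
    exact (tendsto_rpow_atTop (by norm_num)).inv_tendsto_atTop
  have h3 := (h1.add h2).comp tendsto_natCast_atTop_atTop
  rw [add_zero] at h3
  have h4 := (h3.const_mul c).mul_const e
  rw [mul_zero, zero_mul] at h4
  refine h4.congr fun n => ?_
  simp only [Function.comp]
  unfold kp
  rw [Real.sqrt_eq_rpow, add_div]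

/-- the weighted sums over the subtype -/
lemma sum_sub {S : Finset QM} (F : QM → ℝ) : ∑ x : {q // q ∈ S}, F x.1 = ∑ q ∈ S, F q :=
  Finset.sum_coe_sort S F

lemma sum_sub_filter {S : Finset QM} (P : QM → Prop) [DecidablePred P]
    [DecidablePred (fun x : {q // q ∈ S} => P x.1)] (F : QM → ℝ) :
    ∑ x ∈ univ.filter (fun x : {q // q ∈ S} => P x.1), F x.1 = ∑ q ∈ S.filter P, F q := by
  rw [Finset.sum_filter, Finset.sum_filter]
  rw [← sum_sub (S := S) (fun q => if P q then F q else 0)]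
  refine Finset.sum_congr rfl fun x _ => ?_
  by_cases h : P x.1 <;> simp [h]

lemma wm_nonneg (n : ℕ) (s g : ℝ) (hs : 0 < s) (q : QM) : 0 ≤ wm n s g q := by
  unfold wm
  positivity

/-- the first moment of the error -/
lemma near1 (D : ℝ) (hD : 2 ≤ D) (K n' n : ℕ) (hnn : n' = n) (hn : 2 ≤ n) (rho Z S : ℝ)
    (hrho : 0 < rho) (hZ : 0 ≤ Z)
    (h : S ≤ (D ^ K * n' * Real.log n') ^ 1 * Z + D ^ K / ((n' : ℝ) ^ 2 * rho ^ n')) :
    S ≤ kp (D ^ K) n * ((n : ℝ) * Real.sqrt n) *
      (Z + 1 / ((n : ℝ) * Real.sqrt n * rho ^ n)) := by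
  subst hnn
  have hn1 : (1 : ℝ) ≤ n' := by
    have : 1 ≤ n' := by omega
    exact_mod_cast this
  have hn0 : (0 : ℝ) < n' := by linarith
  have hlog : 0 ≤ Real.log n' := Real.log_nonneg hn1
  have hρ := pow_pos hrho n'
  have hsq : 1 ≤ Real.sqrt n' := by
    rw [show (1 : ℝ) = Real.sqrt 1 by simp]
    exact Real.sqrt_le_sqrt hn1
  have hsq0 : 0 < Real.sqrt n' := by linarith
  have hsqm : Real.sqrt n' * Real.sqrt n' = n' := Real.mul_self_sqrt hn0.le
  have hDK : 0 < D ^ K := pow_pos (by linarith) K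
  have e1 : kp (D ^ K) n' * ((n' : ℝ) * Real.sqrt n') = D ^ K * n' * (Real.log n' + 1) := by
    unfold kp
    field_simp
  rw [e1, mul_add]
  rw [pow_one] at h
  have h1 : D ^ K * n' * Real.log n' * Z ≤ D ^ K * n' * (Real.log n' + 1) * Z := by
    apply mul_le_mul_of_nonneg_right _ hZ
    exact mul_le_mul_of_nonneg_left (by linarith) (by positivity)
  have h2 : D ^ K / ((n' : ℝ) ^ 2 * rho ^ n') ≤
      D ^ K * n' * (Real.log n' + 1) * (1 / ((n' : ℝ) * Real.sqrt n' * rho ^ n')) := by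
    have e2 : D ^ K * n' * (Real.log n' + 1) * (1 / ((n' : ℝ) * Real.sqrt n' * rho ^ n')) =
        D ^ K * ((Real.log n' + 1) / Real.sqrt n') / rho ^ n' := by
      field_simp
    have e3 : D ^ K / ((n' : ℝ) ^ 2 * rho ^ n') = D ^ K * (1 / (n' : ℝ) ^ 2) / rho ^ n' := by
      field_simp
    rw [e2, e3]
    apply div_le_div_of_nonneg_right _ hρ.le
    apply mul_le_mul_of_nonneg_left _ hDK.le
    rw [div_le_div_iff₀ (by positivity) hsq0]
    have h3 : Real.sqrt n' ≤ (n' : ℝ) ^ 2 := by nlinarith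
    have h4 : (n' : ℝ) ^ 2 ≤ (Real.log n' + 1) * (n' : ℝ) ^ 2 := by nlinarith [sq_nonneg (n' : ℝ)]
    linarith
  linarith

end Pool.Agent.TPT.MODP

namespace Pool.Agent.TPT

open Finset Filter Topology MeasureTheory
open Pool.Agent.Lib27 Pool.Agent.SapR Pool.Agent.AreaLaw
open Pool.Agent.FL (Wd hl htn)
open Pool.Agent.Gap (IsCap closeP)
open MODP

theorem t_MODM (hD : DATB_Stmt) (hP : PDIFM_Stmt) (hH : HGM_Stmt) : MODM_Stmt := by
  intro a b ha hab
  obtain ⟨D, hD2, N, hN3, hdat⟩ := hD a b ha hab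
  refine ⟨D, hD2, N, hN3, fun f g hbox => ?_⟩
  have hex : ∀ n : ℕ, ∃ d : KData (mx N n) (Real.exp (-(f n))) (g n), KOk D (mx N n) (f n) (g n) d :=
    fun n => hdat (mx N n) (mx_ge N n) (f n) (g n) (hbox n)
  choose d hok using hex
  have hcr : ∀ n : ℕ, ∃ V : ℤ → ℝ, TPK.CritSol D (d n).G
      (FL.GE.sr (d n).G.rho (2 * mx N n) (capM (mx N n) (Real.exp (-(f n))) (g n))) V :=
    fun n => (hok n).csol
  choose V hV using hcr
  have hs : ∀ n, 0 < Real.exp (-(f n)) := fun n => Real.exp_pos _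
  have hf : ∀ n, 0 < f n := fun n => lt_of_lt_of_le ha (hbox n).1
  have hpd : ∀ p : ℕ, ∃ K : ℕ, ∀ n : ℕ, ∑ q ∈ Omm (mx N n), wm (mx N n) (Real.exp (-(f n))) (g n) q *
      |(dm q : ℝ) - (am (mx N n) q : ℝ)| ^ p ≤
      (D ^ K * (mx N n : ℕ) * Real.log (mx N n : ℕ)) ^ p * Zm (mx N n) (Real.exp (-(f n))) (g n) +
        D ^ K / (((mx N n : ℕ) : ℝ) ^ 2 * (d n).G.rho ^ (mx N n)) := by
    intro p
    obtain ⟨K, hK⟩ := hP p
    refine ⟨K, fun n => ?_⟩
    have h3 := mx_ge N n
    exact hK D hD2 (mx N n) (f n) (g n) (d n).G.rho (by omega) (hf n) (d n).crit (hok n).tails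
  obtain ⟨K1, hK1⟩ := hpd 1
  have hZ0 : ∀ n, 0 ≤ Zm (mx N n) (Real.exp (-(f n))) (g n) := fun n =>
    Finset.sum_nonneg fun q _ => wm_nonneg _ _ _ (hs n) q
  have key : ∃ Q : TPK.QModel (fun _ => D),
      (∀ n, Q.G n = (d n).G) ∧ (∀ n, Q.c n = 1) ∧
      (∀ n x, Q.cdf n x = cdfM (mx N n) (Real.exp (-(f n))) (g n) x) ∧
      (∀ n r, Q.mom n r = momM (mx N n) (Real.exp (-(f n))) (g n) r) ∧
      (∀ n, ∑ x ∈ Q.good n, Q.wt n x = Zm (mx N n) (Real.exp (-(f n))) (g n)) ∧
      (∀ n p, ∑ x ∈ Q.good n, Q.wt n x * |Q.T n x - Q.A n x| ^ p =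
        ∑ q ∈ Omm (mx N n), wm (mx N n) (Real.exp (-(f n))) (g n) q *
          |(dm q : ℝ) - (am (mx N n) q : ℝ)| ^ p) ∧
      (∀ n p, ∑ x : Q.Omega n, Q.wt n x * Q.T n x ^ p -
        ∑ x ∈ Q.good n, Q.wt n x * Q.T n x ^ p = 0) ∧
      (∀ n, N ≤ n → Q.P n = ∑ q ∈ Omm n, Polynomial.C (wm n (Real.exp (-(f n))) (g n) q) *
        (Polynomial.X : Polynomial ℝ) ^ (am n q)) := by
    have hcount : ∀ n, N ≤ n → closeP (2 * mx N n)
        (capM (mx N n) (Real.exp (-(f n))) (g n)) (d n).B n =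
        ∑ q ∈ Omm (mx N n), Polynomial.C (wm (mx N n) (Real.exp (-(f n))) (g n) q) *
        (Polynomial.X : Polynomial ℝ) ^ (am (mx N n) q) := by
      intro n hn
      have h2 : closeP (2 * mx N n) (capM (mx N n) (Real.exp (-(f n))) (g n)) (d n).B (mx N n) =
          closeP (2 * mx N n) (capM (mx N n) (Real.exp (-(f n))) (g n)) (d n).B n :=
        congrArg (closeP (2 * mx N n) (capM (mx N n) (Real.exp (-(f n))) (g n)) (d n).B)
          (mx_eq N n hn)
      rw [← h2, ← (d n).count]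
    refine ⟨{
      G := fun n => (d n).G
      C0 := fun n => 2 * mx N n
      s := fun n => capM (mx N n) (Real.exp (-(f n))) (g n)
      t := fun n => capM (mx N n) (Real.exp (-(f n))) (g n)
      Vs := V
      Vt := V
      cls := fun n => (hok n).cls
      cap_s := fun n => (hok n).ccap
      cap_t := fun n => (hok n).ccap
      crit_s := hV
      crit_t := hV
      B := fun n => (d n).B
      sol := fun n => (d n).sol
      Omega := fun n => {q // q ∈ Omm (mx N n)}
      fin := fun n => inferInstance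
      good := fun n => univ
      wt := fun n x => wm (mx N n) (Real.exp (-(f n))) (g n) x.1
      T := fun n x => (dm x.1 : ℝ)
      A := fun n x => am (mx N n) x.1
      wt_nonneg := fun n x => wm_nonneg _ _ _ (hs n) x.1
      T_nonneg := fun n x => by
        have := (hH.2.2.2 (mx N n) x.1 x.2).2.2.2
        exact_mod_cast this.le
      c := fun _ => 1
      c_pos := fun _ => one_pos
      κ := fun n => kp (D ^ K1) n
      κ_lim := fun K => kp_lim _ _
      n1 := N
      count := ?_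
      near := ?_
      bad := ?_ }, ?_, ?_, ?_, ?_, ?_, ?_, ?_, ?_⟩
    · intro n hn
      rw [Polynomial.C_1, one_mul, hcount n hn]
      exact Finset.sum_coe_sort (Omm (mx N n)) (fun q =>
        Polynomial.C (wm (mx N n) (Real.exp (-(f n))) (g n) q) *
        (Polynomial.X : Polynomial ℝ) ^ (am (mx N n) q))
    · intro n hn
      have h1 := hK1 n
      have h2 := near1 D hD2 K1 (mx N n) n (mx_eq N n hn) (by omega)
        (d n).G.rho (Zm (mx N n) (Real.exp (-(f n))) (g n)) _ (d n).G.rho_pos (hZ0 n) h1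
      have e1 : ∑ x : {q // q ∈ Omm (mx N n)}, wm (mx N n) (Real.exp (-(f n))) (g n) x.1 *
          |(dm x.1 : ℝ) - (am (mx N n) x.1 : ℝ)| =
          ∑ q ∈ Omm (mx N n), wm (mx N n) (Real.exp (-(f n))) (g n) q *
          |(dm q : ℝ) - (am (mx N n) q : ℝ)| ^ 1 := by
        simp only [pow_one]
        exact sum_sub (S := Omm (mx N n)) (fun q => wm (mx N n) (Real.exp (-(f n))) (g n) q *
          |(dm q : ℝ) - (am (mx N n) q : ℝ)|)
      have e2 : ∑ x : {q // q ∈ Omm (mx N n)}, wm (mx N n) (Real.exp (-(f n))) (g n) x.1 =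
          Zm (mx N n) (Real.exp (-(f n))) (g n) :=
        sum_sub (S := Omm (mx N n)) (fun q => wm (mx N n) (Real.exp (-(f n))) (g n) q)
      rw [e1, e2]
      exact h2
    · intro n hn
      rw [sub_self]
      have hn1 : (1 : ℝ) ≤ n := by
        have : 1 ≤ n := by omega
        exact_mod_cast this
      have hlog : 0 ≤ Real.log n := Real.log_nonneg hn1
      have hρ := (d n).G.rho_pos
      have hD0 : 0 < D := by linarith
      unfold kp
      positivity
    · intro n
      rfl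
    · intro n
      rfl
    · intro n x
      have e1 : ∀ F : QM → ℝ, ∑ x : {q // q ∈ Omm (mx N n)}, F x.1 = ∑ q ∈ Omm (mx N n), F q :=
        fun F => sum_sub F
      unfold TPK.QModel.cdf TPK.QModel.W cdfM Zm
      simp only
      rw [e1 (fun q => wm (mx N n) (Real.exp (-(f n))) (g n) q * (dm q : ℝ)),
        e1 (fun q => wm (mx N n) (Real.exp (-(f n))) (g n) q)]
      congr 1
      exact sum_sub_filter (S := Omm (mx N n)) (fun q => (dm q : ℝ) *
        ∑ q ∈ Omm (mx N n), wm (mx N n) (Real.exp (-(f n))) (g n) q ≤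
        x * ∑ q ∈ Omm (mx N n), wm (mx N n) (Real.exp (-(f n))) (g n) q * dm q)
        (fun q => wm (mx N n) (Real.exp (-(f n))) (g n) q)
    · intro n r
      have e1 : ∀ F : QM → ℝ, ∑ x : {q // q ∈ Omm (mx N n)}, F x.1 = ∑ q ∈ Omm (mx N n), F q :=
        fun F => sum_sub F
      unfold TPK.QModel.mom TPK.QModel.W momM Zm
      simp only
      rw [e1 (fun q => wm (mx N n) (Real.exp (-(f n))) (g n) q * (dm q : ℝ)),
        e1 (fun q => wm (mx N n) (Real.exp (-(f n))) (g n) q * (dm q : ℝ) ^ r),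
        e1 (fun q => wm (mx N n) (Real.exp (-(f n))) (g n) q)]
    · intro n
      exact sum_sub (S := Omm (mx N n)) (fun q => wm (mx N n) (Real.exp (-(f n))) (g n) q)
    · intro n p
      exact sum_sub (S := Omm (mx N n)) (fun q => wm (mx N n) (Real.exp (-(f n))) (g n) q *
          |(dm q : ℝ) - (am (mx N n) q : ℝ)| ^ p)
    · intro n p
      exact sub_self _
    · intro n hn
      have e3 := hcount n hn
      have hgen : ∀ m : ℕ, m = n → ∑ q ∈ Omm m, Polynomial.C (wm m (Real.exp (-(f n))) (g n) q) *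
          (Polynomial.X : Polynomial ℝ) ^ (am m q) =
          ∑ q ∈ Omm n, Polynomial.C (wm n (Real.exp (-(f n))) (g n) q) *
          (Polynomial.X : Polynomial ℝ) ^ (am n q) := by
        intro m hm
        subst hm
        rfl
      exact e3.trans (hgen _ (mx_eq N n hn))
  obtain ⟨Q, hG, hc, hcdf, hmom, hgood, hnear, hbad, hPn⟩ := key
  refine ⟨Q, ?_, ?_, ?_⟩
  · intro p
    obtain ⟨K, hK⟩ := hpd p
    refine ⟨K, ?_⟩
    filter_upwards [eventually_ge_atTop N] with n hn
    rw [hnear n p, hgood n, hG n, hc n, mul_one_div]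
    have h1 := hK n
    have hgen : ∀ m : ℕ, m = n → ∀ S Z : ℝ, S ≤ (D ^ K * (m : ℕ) * Real.log (m : ℕ)) ^ p * Z +
        D ^ K / ((m : ℝ) ^ 2 * (d n).G.rho ^ m) → S ≤ (D ^ K * (n : ℕ) * Real.log (n : ℕ)) ^ p * Z +
        D ^ K / ((n : ℝ) ^ 2 * (d n).G.rho ^ n) := by
      intro m hm S Z h
      rw [hm] at h
      exact h
    exact hgen _ (mx_eq N n hn) _ _ h1
  · intro p
    filter_upwards [eventually_ge_atTop N] with n hn
    rw [hbad n p, hG n, hc n]
    have hρ := (d n).G.rho_pos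
    positivity
  · intro n hn
    refine ⟨?_, ?_, ?_, ?_, ?_⟩
    · have hgen : ∀ m : ℕ, m = n → ∀ d' : KData m (Real.exp (-(f n))) (g n),
          KOk D m (f n) (g n) d' → ∃ d'' : KData n (Real.exp (-(f n))) (g n),
            KOk D n (f n) (g n) d'' ∧ d'.G = d''.G := by
        intro m hm d' h'
        subst hm
        exact ⟨d', h', rfl⟩
      obtain ⟨d'', h1, h2⟩ := hgen _ (mx_eq N n hn) (d n) (hok n)
      exact ⟨d'', h1, by rw [hG n, h2]⟩
    · intro x
      rw [hcdf n x, mx_eq N n hn]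
    · intro r
      rw [hmom n r, mx_eq N n hn]
    · intro y
      rw [hPn n hn, Polynomial.eval_finsetSum]
      refine Finset.sum_congr rfl fun q _ => ?_
      rw [Polynomial.eval_mul, Polynomial.eval_C, Polynomial.eval_pow, Polynomial.eval_X]
    · intro r
      rw [hPn n hn]
      exact mr_sum r (Omm n) (fun q => wm n (Real.exp (-(f n))) (g n) q) (fun q => am n q)

end Pool.Agent.TPT
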