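import Pool.Agent.TPT.Stmts0

/-!
# Project TPT: module ARS, the integer area functional of the marked arches
-/

set_option autoImplicit false

namespace Pool.Agent.TPT

open Finset Filter Topology MeasureTheory
open Pool.Agent.Lib27 Pool.Agent.SapR Pool.Agent.AreaLaw Pool.Agent.FL
open Pool.Agent.FS (sc)

namespace ARS

lemma mem_MArch {x : ℤ} {N : ℕ} {a : Wd × ℕ} : a ∈ MArch x N ↔
    (a.1 ∈ words N ∧ a.2 < N) ∧ Arch x a.1 ∧ 0 < a.2 := by
  classical
  rw [MArch, mem_filter, mem_product, mem_range]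

lemma len_MArch {x : ℤ} {N : ℕ} {a : Wd × ℕ} (h : a ∈ MArch x N) : a.1.length = N :=
  (mem_words _ _).1 (mem_MArch.1 h).1.1

lemma MCap_sub {x : ℤ} {N : ℕ} {a : Wd × ℕ} (h : a ∈ MCap x N) : a ∈ MArch x N := by
  classical
  rw [MCap, mem_filter] at h
  exact h.1

open Classical in
/-- the triples whose glueing is `a` -/
noncomputable def Tr (r : ℕ) (x : ℤ) (N : ℕ) (a : Wd × ℕ) :
    Finset ((_ : Wd × Wd) × (Wd × ℕ)) :=
  ((allowed r x).sigma (fun p => MArch (x + jump p) (N - (p.1.length + p.2.length)))).filter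
    (fun q => ((q.1.1 ++ q.2.1 ++ q.1.2, q.1.1.length + q.2.2) : Wd × ℕ) = a)

lemma mem_Tr {r : ℕ} {x : ℤ} {N : ℕ} {a : Wd × ℕ} {q : (_ : Wd × Wd) × (Wd × ℕ)} :
    q ∈ Tr r x N a ↔ (q.1 ∈ allowed r x ∧
      q.2 ∈ MArch (x + jump q.1) (N - (q.1.1.length + q.1.2.length))) ∧
      ((q.1.1 ++ q.2.1 ++ q.1.2, q.1.1.length + q.2.2) : Wd × ℕ) = a := by
  classical
  rw [Tr, mem_filter, mem_sigma]

open Classical in
/-- Counting form of K2M. -/
lemma count (h2 : K2M_Stmt) {r : ℕ} {x : ℤ} {N : ℕ} (hx : 1 ≤ x) (hN : N ≤ r + 2) (a : Wd × ℕ) :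
    (if a ∈ MArch x N then 1 else 0 : ℝ) = (if a ∈ MCap x N then 1 else 0) +
      (Tr r x N a).card := by
  have := h2 r x N hx hN (fun v => if v = a then 1 else 0)
  rw [sum_ite_eq', sum_ite_eq'] at this
  rw [this, Tr, card_filter]
  push_cast
  rw [sum_sigma]

lemma dec_mem (h2 : K2M_Stmt) {r : ℕ} {x : ℤ} (hx : 1 ≤ x) {a : Wd × ℕ}
    (hN : a.1.length ≤ r + 2) {q : (Wd × Wd) × (Wd × ℕ)} (h : DecM r x a q) :
    a ∈ MArch x a.1.length ∧ a ∉ MCap x a.1.length ∧ ∀ q', DecM r x a q' → q' = q := by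
  classical
  have hk := count h2 hx hN a
  have key : ∀ q' : (Wd × Wd) × (Wd × ℕ), DecM r x a q' →
      (⟨q'.1, q'.2⟩ : (_ : Wd × Wd) × (Wd × ℕ)) ∈ Tr r x a.1.length a := fun q' h' =>
    mem_Tr.2 ⟨⟨h'.1, h'.2.1⟩, h'.2.2.symm⟩
  have hin := key q h
  have hpos : 1 ≤ (Tr r x a.1.length a).card := card_pos.2 ⟨_, hin⟩
  have hposR : (1 : ℝ) ≤ ((Tr r x a.1.length a).card : ℝ) := by exact_mod_cast hpos
  have h1 : a ∈ MArch x a.1.length := by
    by_contra hn
    rw [if_neg hn] at hk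
    split_ifs at hk <;> linarith
  rw [if_pos h1] at hk
  have h3 : a ∉ MCap x a.1.length := by
    intro hc
    rw [if_pos hc] at hk
    linarith
  rw [if_neg h3, zero_add] at hk
  have hcard : (Tr r x a.1.length a).card = 1 := by exact_mod_cast hk.symm
  refine ⟨h1, h3, fun q' h' => ?_⟩
  have hin' := key q' h'
  obtain ⟨b, hb⟩ := card_eq_one.1 hcard
  rw [hb, mem_singleton] at hin hin'
  have e := hin'.trans hin.symm
  rw [Sigma.mk.injEq] at e
  exact Prod.ext e.1 (eq_of_heq e.2)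

lemma ArM_dec (h2 : K2M_Stmt) {r : ℕ} {x : ℤ} (hx : 1 ≤ x) {a : Wd × ℕ}
    (hN : a.1.length ≤ r + 2) {q : (Wd × Wd) × (Wd × ℕ)} (h : DecM r x a q) :
    ArM r x a = ArM r (x + jump q.1) q.2 + (ht q.1 * (2 * x + jump q.1)).toNat := by
  obtain ⟨h1, h3, h4⟩ := dec_mem h2 hx hN h
  have hex : ∃ q : (Wd × Wd) × (Wd × ℕ), DecM r x a q := ⟨q, h⟩
  have hc : hex.choose = q := h4 _ hex.choose_spec
  have e1 : ArM r x a = ArM r (x + jump (hex.choose).1) (hex.choose).2 +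
      (ht (hex.choose).1 * (2 * x + jump (hex.choose).1)).toNat := by
    conv_lhs => rw [ArM]
    rw [dif_pos hex]
  rw [e1, hc]

lemma ArM_none {r : ℕ} {x : ℤ} {a : Wd × ℕ}
    (h : ¬ ∃ q : (Wd × Wd) × (Wd × ℕ), DecM r x a q) : ArM r x a = 0 := by
  rw [ArM, dif_neg h]

lemma bound (h2 : K2M_Stmt) (hH : HGM_Stmt) {r n : ℕ} : ∀ (N : ℕ), N ≤ r + 2 → N ≤ 2 * n →
    ∀ (x : ℤ) (a : Wd × ℕ), 1 ≤ x → a ∈ MArch x N → ArM r x a ≤ 2 * n * mlev a := by
  intro N
  induction N using Nat.strong_induction_on with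
  | _ N ih =>
    intro hNr hNn x a hx ha
    have hlen := len_MArch ha
    by_cases hex : ∃ q : (Wd × Wd) × (Wd × ℕ), DecM r x a q
    · obtain ⟨q, hq⟩ := hex
      have hlt := DecM_lt hq
      rw [ArM_dec h2 hx (by rw [hlen]; exact hNr) hq]
      obtain ⟨hq1, hq2, hq3⟩ := hq
      have hx' : 1 ≤ x + jump q.1 := ((M41.mem_allowed _ _ _).1 hq1).2.2.1
      have hlen2 := len_MArch hq2
      have hi := ih q.2.1.length (by omega) (by omega) (by omega) (x + jump q.1) q.2 hx'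
        (by rw [hlen2]; exact hq2)
      have g1 := (hH.1 r x _ q.1 q.2 hx hq1 hq2).1
      rw [← hq3] at g1
      have g2 := (hH.2.1 x N a hx ha).2.2.2.1
      have g3 := (hH.2.1 _ _ _ hx' hq2).2.2.2.1
      have g4 : (ht q.1 * (2 * x + jump q.1)).toNat ≤ 2 * n * htn q.1 := by
        rw [Int.toNat_le]
        have g5 : ht q.1 ≤ (htn q.1 : ℤ) := Int.self_le_toNat _
        have g6 : (2 * x + jump q.1) ≤ 2 * (n : ℤ) := by omega
        have g7 : 0 ≤ 2 * x + jump q.1 := by omega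
        have g8 : (0 : ℤ) ≤ (htn q.1 : ℤ) := by positivity
        push_cast
        calc ht q.1 * (2 * x + jump q.1) ≤ (htn q.1 : ℤ) * (2 * x + jump q.1) :=
              mul_le_mul_of_nonneg_right g5 g7
          _ ≤ (htn q.1 : ℤ) * (2 * (n : ℤ)) := mul_le_mul_of_nonneg_left g6 g8
          _ = 2 * (n : ℤ) * htn q.1 := by ring
      calc ArM r (x + jump q.1) q.2 + (ht q.1 * (2 * x + jump q.1)).toNat
          ≤ 2 * n * mlev q.2 + 2 * n * htn q.1 := add_le_add hi g4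
        _ = 2 * n * mlev a := by rw [g1]; ring
    · rw [ArM_none hex]
      exact Nat.zero_le _

end ARS

/-- ARS : the integer area functional. -/
theorem ars (hK : K2M_Stmt) (hH : HGM_Stmt) : ARS_Stmt := by
  refine ⟨?_, ?_, ?_⟩
  · intro r x N p a hx hN hp ha
    have hlen := ARS.len_MArch ha
    have hx' : 1 ≤ x + jump p := ((M41.mem_allowed _ _ _).1 hp).2.2.1
    have ha1 := (ARS.mem_MArch.1 ha).1.2
    have hL : (p.1 ++ a.1 ++ p.2).length = N := by
      simp only [List.length_append]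
      omega
    have hD : DecM r x (p.1 ++ a.1 ++ p.2, p.1.length + a.2) (p, a) := by
      refine ⟨hp, ?_, rfl⟩
      show a ∈ MArch (x + jump p) ((p.1 ++ a.1 ++ p.2).length - (p.1.length + p.2.length))
      rw [hL]
      exact ha
    exact ARS.ArM_dec hK hx (by rw [hL]; exact hN) hD
  · intro r x N a hx hN ha
    have hlen := ARS.len_MArch (ARS.MCap_sub ha)
    apply ARS.ArM_none
    rintro ⟨q, hq⟩
    have := (ARS.dec_mem hK hx (by rw [hlen]; exact hN) hq).2.1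
    rw [hlen] at this
    exact this ha
  · intro n q hq
    rw [Omm, mem_sigma, mem_sigma, mem_product] at hq
    obtain ⟨hx, hM, hc, ha⟩ := hq
    have hx1 : 1 ≤ q.1 := (mem_Icc.1 hx).1
    have h1 := ARS.bound hK hH (r := 2 * n - 1) (n := n) (2 * n - q.2.1) (by omega) (by omega)
      q.1 q.2.2.2 hx1 ha
    have h2 := (hH.2.1 _ _ _ hx1 ha).2.1
    have h3 : mlev q.2.2.2 ≤ n := by omega
    unfold am
    calc ArM (2 * n - 1) q.1 q.2.2.2 ≤ 2 * n * mlev q.2.2.2 := h1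
      _ ≤ 2 * n * n := Nat.mul_le_mul_left _ h3
      _ = 2 * n ^ 2 := by ring

end Pool.Agent.TPT
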