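import Pool.Agent.TPT.Stmts0
import Pool.Agent.Lib_helper12.FL.MGI2
import Pool.Agent.Lib_helper58.SapR.Pos
import Pool.Agent.Lib_helper66.SapR.K4

/-!
# TPT_HGM: elementary facts on levels and lateral coordinates
-/

set_option autoImplicit false

namespace Pool.Agent.TPT

open Finset
open Pool.Agent.Lib27 Pool.Agent.SapR Pool.Agent.AreaLaw Pool.Agent.FL

namespace HGM

theorem lat_add (p q : ℤ × ℤ) : lat (p + q) = lat p + lat q := by
  simp only [lat, Prod.fst_add, Prod.snd_add]; ring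

theorem lat_neg (p : ℤ × ℤ) : lat (-p) = -lat p := by
  simp only [lat, Prod.fst_neg, Prod.snd_neg]; ring

theorem lat_dv (d : Fin 4) : |lat (dv d)| ≤ 1 := by
  revert d; decide

theorem lev_dv_abs (d : Fin 4) : |lev (dv d)| ≤ 1 := by
  revert d; decide

theorem lat_ep (s : Wd) : |lat (ep 0 s)| ≤ s.length := by
  induction s with
  | nil => simp [lat]
  | cons d s ih =>
    have e : ep 0 (d :: s) = dv d + ep 0 s := by
      rw [ep_cons, zero_add, ep_eq, add_comm]
    rw [e, lat_add, List.length_cons]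
    push_cast
    have h1 := abs_add_le (lat (dv d)) (lat (ep 0 s))
    have h2 := lat_dv d
    linarith

theorem lev_ep (s : Wd) : |lev (ep 0 s)| ≤ s.length := by
  induction s with
  | nil => simp [lev]
  | cons d s ih =>
    have e : ep 0 (d :: s) = dv d + ep 0 s := by
      rw [ep_cons, zero_add, ep_eq, add_comm]
    rw [e, lev_add, List.length_cons]
    push_cast
    have h1 := abs_add_le (lev (dv d)) (lev (ep 0 s))
    have h2 := lev_dv_abs d
    linarith

theorem mem_MArch (x : ℤ) (N : ℕ) (a : Wd × ℕ) :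
    a ∈ MArch x N ↔ a.1.length = N ∧ a.2 < N ∧ Arch x a.1 ∧ 0 < a.2 := by
  classical
  unfold MArch
  rw [mem_filter, mem_product, mem_words, mem_range]
  tauto

/-- inner vertices -/
theorem inner_mem (s : Wd) (j : ℕ) (h0 : 0 < j) (h : j < s.length) :
    ep 0 (s.take j) ∈ (vs 0 s).tail := by
  have h' : j < (vs 0 s).length := by simpa using h
  rw [← vs_getElem 0 s j h']
  obtain ⟨i, rfl⟩ : ∃ i, j = i + 1 := ⟨j - 1, by omega⟩
  have h2 : i < (vs 0 s).tail.length := by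
    rw [List.length_tail]
    omega
  have h3 : (vs 0 s)[i + 1] = (vs 0 s).tail[i] := by
    rw [List.getElem_tail]
  rw [h3]
  exact List.getElem_mem h2

/-- basic facts on marked arches -/
theorem marked {x : ℤ} {N : ℕ} {a : Wd × ℕ} (ha : a ∈ MArch x N) :
    0 < lev (ep 0 (a.1.take a.2)) ∧ 2 * lev (ep 0 (a.1.take a.2)) ≤ N ∧ Even N ∧
    2 * |x| ≤ N ∧ 2 * |lat (ep 0 (a.1.take a.2)) + x| ≤ N := by
  rw [mem_MArch] at ha
  obtain ⟨hN, hj, hA, h0⟩ := ha
  have hjl : a.2 < a.1.length := by omega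
  have hpos := hA.2.2.2 _ (inner_mem a.1 a.2 h0 hjl)
  have hend := hA.2.1
  have hsplit : ep 0 (a.1.take a.2) + ep 0 (a.1.drop a.2) = (-x, x) := by
    rw [← ep_append0, List.take_append_drop, hend]
  have l1 := lev_ep (a.1.take a.2)
  have l2 := lev_ep (a.1.drop a.2)
  have m1 := lat_ep (a.1.take a.2)
  have m2 := lat_ep (a.1.drop a.2)
  have e1 : lev (ep 0 (a.1.take a.2)) + lev (ep 0 (a.1.drop a.2)) = 0 := by
    rw [← lev_add, hsplit, lev_diag]
  have e2 : lat (ep 0 (a.1.take a.2)) + lat (ep 0 (a.1.drop a.2)) = -(2 * x) := by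
    rw [← lat_add, hsplit]
    simp only [lat]
    ring
  have t1 : ((a.1.take a.2).length : ℤ) + (a.1.drop a.2).length = N := by
    rw [List.length_take, List.length_drop]
    omega
  have hev : Even N := by
    have := lev_parity a.1 0
    rw [hend, lev_diag, lev_zero, sub_zero, zero_sub, even_neg, Int.even_coe_nat, hN] at this
    exact this
  rw [abs_le] at l1 l2 m1 m2
  refine ⟨hpos, by linarith [l1.2, l2.1], hev, ?_, ?_⟩
  · rcases abs_cases x with ⟨h, _⟩ | ⟨h, _⟩ <;> rw [h] <;> linarith [m1.1, m1.2, m2.1, m2.2]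
  · rcases abs_cases (lat (ep 0 (a.1.take a.2)) + x) with ⟨h, _⟩ | ⟨h, _⟩ <;> rw [h] <;>
      linarith [m1.1, m1.2, m2.1, m2.2]

theorem part2 (x : ℤ) (N : ℕ) (a : Wd × ℕ) (hx : 1 ≤ x) (ha : a ∈ MArch x N) :
    1 ≤ mlev a ∧ 2 * mlev a ≤ N ∧ Even N ∧ 2 * x ≤ N ∧ |mlat x a| ≤ N := by
  obtain ⟨h1, h2, h3, h4, h5⟩ := marked ha
  unfold mlev mlat
  refine ⟨by omega, by omega, h3, ?_, ?_⟩
  · rw [abs_of_pos (by omega : 0 < x)] at h4
    exact h4
  · have := abs_nonneg (lat (ep 0 (a.1.take a.2)) + x)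
    linarith

theorem part1 (r : ℕ) (x : ℤ) (N : ℕ) (p : Wd × Wd) (a : Wd × ℕ) (hp : p ∈ allowed r x)
    (ha : a ∈ MArch (x + jump p) N) :
    mlev (p.1 ++ a.1 ++ p.2, p.1.length + a.2) = htn p + mlev a ∧
      mlat x (p.1 ++ a.1 ++ p.2, p.1.length + a.2) = kap p + mlat (x + jump p) a := by
  have hU : 0 < lev (ep 0 p.1) := ((M41.mem_Pc _ _).1 ((M41.mem_allowed _ _ _).1 hp).1).1.1.1
  have hv := (marked ha).1
  rw [mem_MArch] at ha
  have htake : (p.1 ++ a.1 ++ p.2).take (p.1.length + a.2) = p.1 ++ a.1.take a.2 := by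
    rw [List.append_assoc, List.take_length_add_append, List.take_append_of_le_length (by omega)]
  unfold mlev mlat htn ht kap
  simp only [htake, ep_append0, lev_add, lat_add]
  refine ⟨by omega, by ring⟩

theorem part3 (r : ℕ) (p : Wd × Wd) (hp : p ∈ Pc r) :
    kap (flip p) = kap p ∧ |kap p| ≤ 2 * hl p := by
  have hF : FreePiece p.1 p.2 := ((M41.mem_Pc _ _).1 hp).1
  have h0 : lev (ep 0 p.2) = -lev (ep 0 p.1) := hF.1.2.1
  have hlen := hl_eq hF
  have m1 := lat_ep p.1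
  have m2 := lat_ep p.2
  have hj : lat (ep 0 p.1) + lat (ep 0 p.2) = 2 * jump p := by
    unfold jump
    unfold lev at h0
    unfold lat
    linarith
  constructor
  · unfold kap
    have e1 : ep 0 (flip p).1 = -ep 0 p.2 := H66.ep0_rot2 p.2
    have e2 : jump (flip p) = -jump p := by
      unfold jump
      have a1 : ep 0 (flip p).1 = -ep 0 p.2 := H66.ep0_rot2 p.2
      have a2 : ep 0 (flip p).2 = -ep 0 p.1 := H66.ep0_rot2 p.1
      rw [a1, a2]
      simp only [Prod.fst_neg]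
      ring
    rw [e1, e2, lat_neg]
    linarith
  · unfold kap
    rw [abs_le] at m1 m2 ⊢
    have hlen' : (p.1.length : ℤ) + p.2.length = 2 * (hl p : ℤ) := by exact_mod_cast hlen
    have h3 : (0 : ℤ) ≤ hl p := Int.natCast_nonneg _
    constructor <;> linarith [m1.1, m1.2, m2.1, m2.2]

theorem MCap_sub {x : ℤ} {N : ℕ} {a : Wd × ℕ} (h : a ∈ MCap x N) : a ∈ MArch x N := by
  classical
  unfold MCap at h
  exact (mem_filter.mp h).1

theorem part4 (n : ℕ) (q : QM) (hq : q ∈ Omm n) :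
    zl q ≤ n ∧ |zt q| ≤ 2 * n ∧ Even ((zl q : ℤ) + zt q) ∧ 0 < dm q := by
  obtain ⟨x, M, T, w⟩ := q
  unfold Omm at hq
  simp only [mem_sigma, mem_Icc, mem_range, mem_product] at hq
  obtain ⟨⟨hx1, hx2⟩, hM, hT, hw⟩ := hq
  have hT' := MCap_sub hT
  have t1 := part2 x M T hx1 hT'
  have t2 := part2 x (2 * n - M) w hx1 hw
  have m1 := marked hT'
  have m2 := marked hw
  rw [mem_MArch] at hT' hw
  have hpos : 0 < dbl 0 (w.1 ++ rot2 T.1) := H58.k1pos x w.1 T.1 hx1 hw.2.2.1 hT'.2.2.1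
  rw [H66.k4poly x w.1 T.1 hw.2.2.1.2.1 hT'.2.2.1.2.1] at hpos
  refine ⟨?_, ?_, ?_, ?_⟩
  · show mlev w + mlev T ≤ n
    omega
  · show |mlat x w + mlat x T| ≤ 2 * n
    have h1 := abs_add_le (mlat x w) (mlat x T)
    have h2 := t1.2.2.2.2
    have h3 := t2.2.2.2.2
    have h4 : ((2 * n - M : ℕ) : ℤ) = 2 * n - M := by omega
    rw [h4] at h3
    linarith
  · show Even (((mlev w + mlev T : ℕ) : ℤ) + (mlat x w + mlat x T))
    unfold mlev mlat
    push_cast
    rw [Int.toNat_of_nonneg m1.1.le, Int.toNat_of_nonneg m2.1.le]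
    unfold lev lat
    refine ⟨(ep 0 (w.1.take w.2)).1 + (ep 0 (T.1.take T.2)).1 + x, by ring⟩
  · show 0 < dbl 0 w.1 + dbl 0 T.1
    exact hpos

end HGM

theorem hgm : HGM_Stmt :=
  ⟨fun r x N p a _ hp ha => HGM.part1 r x N p a hp ha, HGM.part2, HGM.part3, HGM.part4⟩

end Pool.Agent.TPT
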