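import Pool.Agent.TPT.KWMa

/-!
# Project TPT, module KWM: the gap kernel with lateral weights

The area polynomials of the marked arches and the kernel data.
-/

set_option autoImplicit false

namespace Pool.Agent.TPT.KWM

open Finset Pool.Agent.Lib27 Pool.Agent.SapR Filter Topology
open Pool.Agent.FL (Wd hl htn)
open Pool.Agent.FL.KW (SS mem_SS len_hl ht_eq piece_mem jump_le far)
open Pool.Agent.Gap (IsCap closeP)

lemma mem_MArch (x : ℤ) (N : ℕ) (a : Wd × ℕ) : a ∈ MArch x N ↔
    a.1.length = N ∧ a.2 < N ∧ Arch x a.1 ∧ 0 < a.2 := by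
  classical
  rw [MArch, mem_filter, mem_product, mem_words, mem_range]
  tauto

lemma mem_MCap (x : ℤ) (N : ℕ) (a : Wd × ℕ) : a ∈ MCap x N ↔
    a ∈ MArch x N ∧ ∀ h : ℤ, 1 ≤ h → h < mlev a → ¬ Cut (vt 0 a.1) h := by
  classical
  rw [MCap, mem_filter]

lemma MArch_zero (x : ℤ) : MArch x 0 = ∅ := by
  by_contra hne
  obtain ⟨a, ha⟩ := nonempty_iff_ne_empty.2 hne
  rw [mem_MArch] at ha
  omega

lemma MCap_empty (hH : HGM_Stmt) (x : ℤ) (N : ℕ) (hx : 1 ≤ x) (h : ¬ Even N ∨ (N : ℤ) < 2 * x) :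
    MCap x N = ∅ := by
  by_contra hne
  obtain ⟨a, ha⟩ := nonempty_iff_ne_empty.2 hne
  rw [mem_MCap] at ha
  obtain ⟨_, _, h3, h4, _⟩ := hH.2.1 x N a hx ha.1
  rcases h with h | h
  · exact h h3
  · omega

lemma one_mem : (([1, 2], 1) : Wd × ℕ) ∈ MCap 1 2 := by
  have h1 := H66.k5cap.2.1 1 le_rfl
  rw [M41.mem_CapSet] at h1
  rw [mem_MCap, mem_MArch]
  exact ⟨⟨rfl, by norm_num, h1.2.1, by norm_num⟩, fun h hh _ => h1.2.2.1 h hh⟩

lemma one_vals : mlev (([1, 2], 1) : Wd × ℕ) = 1 ∧ mlat 1 (([1, 2], 1) : Wd × ℕ) = 0 := by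
  constructor
  · decide
  · decide

lemma capz (hH : HGM_Stmt) (n : ℕ) (s g : ℝ) (m : ℕ) (x : ℤ) (h : (m : ℤ) < x) :
    capM n s g m x = 0 := by
  unfold capM
  split_ifs with h1
  · rw [MCap_empty hH x (2 * m) h1.1 (Or.inr (by push_cast; omega)), sum_empty]
  · rfl

lemma capM_nonneg (n : ℕ) (s g : ℝ) (hs : 0 < s) (m : ℕ) (x : ℤ) : 0 ≤ capM n s g m x := by
  unfold capM
  split_ifs with h1
  · exact sum_nonneg fun a _ => mul_nonneg (by positivity) (Real.exp_pos _).le
  · exact le_rfl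

lemma cap1 (n : ℕ) (s g : ℝ) (hn : 1 ≤ n) (hs : 0 < s) : 1 ≤ capM n s g 1 1 := by
  unfold capM
  rw [if_pos ⟨le_rfl, hn⟩]
  have h3 := single_le_sum (f := fun a : Wd × ℕ => s ^ (1 - mlev a) * Real.exp (g * mlat 1 a))
    (s := MCap 1 (2 * 1))
    (fun a _ => mul_nonneg (by positivity) (Real.exp_pos _).le) (a := ([1, 2], 1)) one_mem
  simp only [one_vals.1, one_vals.2] at h3
  simpa using h3

lemma isCap (hH : HGM_Stmt) (n : ℕ) (s g : ℝ) (hn : 1 ≤ n) (hs : 0 < s) :
    IsCap (2 * n) (capM n s g) where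
  nonneg := fun m x => capM_nonneg n s g hs m x
  supp_m := fun m x hm => by
    unfold capM
    rw [if_neg (by omega)]
  supp_g := fun m x hx => by
    rcases hx with hx | hx
    · unfold capM
      rw [if_neg (by omega)]
    · by_cases h : m ≤ n
      · exact capz hH n s g m x (by push_cast at hx; omega)
      · unfold capM
        rw [if_neg (by omega)]
  nontriv := ⟨1, 1, lt_of_lt_of_le one_pos (cap1 n s g hn hs)⟩

/-- the solution of the recursion -/
noncomputable def BB (G : TPK.GapKernel) (c : ℕ → ℤ → ℝ) (m : ℕ) (x : ℤ) : Polynomial ℝ :=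
  if 1 ≤ x then Polynomial.C (c m x) + ∑ i ∈ G.S, (if _h : 1 ≤ i.1 ∧ i.1 ≤ m then
    ∑ x' ∈ Icc (x - G.R) (x + G.R),
      Polynomial.C (G.K i x x') * Polynomial.X ^ ((i.2 : ℤ) * (x + x')).toNat * BB G c (m - i.1) x'
    else 0) else 0
termination_by m
decreasing_by omega

lemma isSol_BB (G : TPK.GapKernel) (c : ℕ → ℤ → ℝ) : TPK.IsSol G c (BB G c) where
  zero := fun m x hx => by
    rw [BB, if_neg (by omega)]
  step := fun m x hx => by
    rw [BB, if_pos hx]
    congr 1
    apply sum_congr rfl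
    intro i hi
    have := (G.pos_mem i hi).1
    by_cases h : i.1 ≤ m
    · rw [dif_pos ⟨this, h⟩, if_pos h]
    · rw [dif_neg (by omega), if_neg h]

/-- weighted generating polynomial of the marked arches -/
noncomputable def wB (n : ℕ) (s g : ℝ) (m : ℕ) (x : ℤ) : Polynomial ℝ :=
  if 1 ≤ x then ∑ a ∈ MArch x (2 * m), Polynomial.C (s ^ (m - mlev a) * Real.exp (g * mlat x a)) *
    (Polynomial.X : Polynomial ℝ) ^ (ArM (2 * n - 1) x a) else 0

/-- glued marked arch -/
def gl (p : Wd × Wd) (a : Wd × ℕ) : Wd × ℕ := (p.1 ++ a.1 ++ p.2, p.1.length + a.2)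

open Classical in
/-- Polynomial form of K2M with weights. -/
lemma k2_poly (hK : K2M_Stmt) (hA : ARS_Stmt) (r : ℕ) (s g : ℝ) (x : ℤ) (m : ℕ) (hx : 1 ≤ x)
    (hm : 2 * m ≤ r + 2) :
    ∑ a ∈ MArch x (2 * m), Polynomial.C (s ^ (m - mlev a) * Real.exp (g * mlat x a)) *
        (Polynomial.X : Polynomial ℝ) ^ (ArM r x a) =
      Polynomial.C (∑ a ∈ MCap x (2 * m), s ^ (m - mlev a) * Real.exp (g * mlat x a)) +
      ∑ p ∈ allowed r x, (Polynomial.X : Polynomial ℝ) ^ (ht p * (2 * x + jump p)).toNat *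
        ∑ a ∈ MArch (x + jump p) (2 * m - (p.1.length + p.2.length)),
          Polynomial.C (s ^ (m - mlev (gl p a)) * Real.exp (g * mlat x (gl p a))) *
            (Polynomial.X : Polynomial ℝ) ^ (ArM r (x + jump p) a) := by
  have h1 : ∑ a ∈ MArch x (2 * m), Polynomial.C (s ^ (m - mlev a) * Real.exp (g * mlat x a)) *
        (Polynomial.X : Polynomial ℝ) ^ (ArM r x a) =
      ∑ a ∈ MCap x (2 * m), Polynomial.C (s ^ (m - mlev a) * Real.exp (g * mlat x a)) *
        (Polynomial.X : Polynomial ℝ) ^ (ArM r x a) +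
      ∑ p ∈ allowed r x, ∑ a ∈ MArch (x + jump p) (2 * m - (p.1.length + p.2.length)),
        Polynomial.C (s ^ (m - mlev (gl p a)) * Real.exp (g * mlat x (gl p a))) *
          (Polynomial.X : Polynomial ℝ) ^ (ArM r x (gl p a)) := by
    ext k
    have := hK r x (2 * m) hx hm (fun a => (Polynomial.C (s ^ (m - mlev a) *
      Real.exp (g * mlat x a)) * (Polynomial.X : Polynomial ℝ) ^ (ArM r x a)).coeff k)
    rw [Polynomial.coeff_add, Polynomial.finsetSum_coeff, Polynomial.finsetSum_coeff,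
      Polynomial.finsetSum_coeff, this]
    congr 1
    apply sum_congr rfl
    intro p _
    rw [Polynomial.finsetSum_coeff]
    rfl
  rw [h1]
  congr 1
  · rw [map_sum]
    apply sum_congr rfl
    intro a ha
    rw [hA.2.1 r x (2 * m) a hx hm ha, pow_zero, mul_one]
  · apply sum_congr rfl
    intro p hp
    rw [mul_sum]
    apply sum_congr rfl
    intro a ha
    have h2 := hA.1 r x (2 * m) p a hx hm hp ha
    rw [show gl p a = (p.1 ++ a.1 ++ p.2, p.1.length + a.2) from rfl, h2, pow_add]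
    ring

/-- the generating polynomials satisfy the recursion -/
lemma wB_step (hK : K2M_Stmt) (hH : HGM_Stmt) (hA : ARS_Stmt) (h : FL.HG_Stmt) (n : ℕ) (s g : ℝ)
    (hs : 0 < s) (hn : 1 ≤ n) (m : ℕ) (hm : m ≤ n) (x : ℤ) (hx : 1 ≤ x) :
    wB n s g m x = Polynomial.C (capM n s g m x) + ∑ i ∈ (kern hH (2 * n - 1) s g hs).S,
      if i.1 ≤ m then
        ∑ x' ∈ Icc (x - (kern hH (2 * n - 1) s g hs).R) (x + (kern hH (2 * n - 1) s g hs).R),
          Polynomial.C ((kern hH (2 * n - 1) s g hs).K i x x') *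
            Polynomial.X ^ ((i.2 : ℤ) * (x + x')).toNat * wB n s g (m - i.1) x'
      else 0 := by
  classical
  set r : ℕ := 2 * n - 1 with hr
  have hS : (kern hH r s g hs).S = SS r := rfl
  have hR : (kern hH r s g hs).R = r + 2 := rfl
  have hKe : (kern hH r s g hs).K = fun i x x' => s ^ (i.1 - i.2) * eA g (M41.alT r i x x') :=
    rfl
  rw [hS, hR, hKe]
  simp only
  unfold wB capM
  rw [if_pos hx, if_pos ⟨hx, hm⟩, ← hr, k2_poly hK hA r s g x m hx (by omega)]
  congr 1
  -- group the pieces by type and target gap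
  have hmap : ∀ p ∈ allowed r x, (((hl p, htn p), x + jump p) : (ℕ × ℕ) × ℤ) ∈
      SS r ×ˢ Icc (x - (r + 2 : ℕ)) (x + (r + 2 : ℕ)) := by
    intro p hp
    have hp1 := ((M41.mem_allowed _ _ _).1 hp).1
    obtain ⟨a1, a2⟩ := piece_mem h hp1
    rw [mem_Icc] at a2
    rw [mem_product, mem_Icc]
    refine ⟨a1, ?_, ?_⟩
    · simp only
      omega
    · simp only
      omega
  rw [← sum_fiberwise_of_maps_to hmap, sum_product]
  apply sum_congr rfl
  intro i hi
  rw [mem_SS] at hi
  have hfib : ∀ x' : ℤ, (allowed r x).filter (fun p =>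
      (((hl p, htn p), x + jump p) : (ℕ × ℕ) × ℤ) = (i, x')) =
      M41.alT r i x x' := by
    intro x'
    ext p
    rw [mem_filter, M41.mem_alT]
    constructor
    · rintro ⟨h1, h3⟩
      have hp1 := ((M41.mem_allowed _ _ _).1 h1).1
      have := len_hl hp1
      have := ht_eq hp1
      rw [Prod.mk.injEq, Prod.ext_iff] at h3
      obtain ⟨⟨b1, b2⟩, b3⟩ := h3
      simp only at b1 b2 b3
      exact ⟨h1, by omega, by omega, by omega⟩
    · rintro ⟨h1, h3, h4, h5⟩
      refine ⟨h1, ?_⟩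
      have hp1 := ((M41.mem_allowed _ _ _).1 h1).1
      have := len_hl hp1
      have := ht_eq hp1
      rw [Prod.mk.injEq, Prod.ext_iff]
      simp only
      exact ⟨⟨by omega, by omega⟩, by omega⟩
  by_cases hin : i.1 ≤ m
  · rw [if_pos hin]
    apply sum_congr rfl
    intro x' _
    rw [hfib x']
    by_cases hx' : 1 ≤ x'
    · rw [if_pos hx']
      have hconst : ∀ p ∈ M41.alT r i x x',
          (Polynomial.X : Polynomial ℝ) ^ (ht p * (2 * x + jump p)).toNat *
            ∑ a ∈ MArch (x + jump p) (2 * m - (p.1.length + p.2.length)),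
              Polynomial.C (s ^ (m - mlev (gl p a)) * Real.exp (g * mlat x (gl p a))) *
                (Polynomial.X : Polynomial ℝ) ^ (ArM r (x + jump p) a) =
          Polynomial.C (Real.exp (g * kap p)) *
            ((Polynomial.X : Polynomial ℝ) ^ ((i.2 : ℤ) * (x + x')).toNat *
            (Polynomial.C (s ^ (i.1 - i.2)) * ∑ a ∈ MArch x' (2 * (m - i.1)),
              Polynomial.C (s ^ (m - i.1 - mlev a) * Real.exp (g * mlat x' a)) *
                (Polynomial.X : Polynomial ℝ) ^ (ArM r x' a))) := by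
        intro p hp
        obtain ⟨h1, h3, h4, h5⟩ := (M41.mem_alT _ _ _ _ _).1 hp
        have hp1 := ((M41.mem_allowed _ _ _).1 h1).1
        have hht := ht_eq hp1
        have hxx : x + jump p = x' := by omega
        rw [h4, h5, show 2 * x + (x' - x) = x + x' by ring, ← h5, hxx]
        have hset : MArch x' (2 * m - (p.1.length + p.2.length)) =
            MArch x' (2 * (m - i.1)) := by
          rw [h3, show 2 * m - 2 * i.1 = 2 * (m - i.1) by omega]
        rw [hset, mul_sum, mul_sum, mul_sum, mul_sum]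
        apply sum_congr rfl
        intro a ha
        obtain ⟨g1, g2, _⟩ := hH.2.1 x' _ a hx' ha
        obtain ⟨e1, e2⟩ := hH.1 r x (2 * (m - i.1)) p a hx h1 (by rw [hxx]; exact ha)
        have e1' : mlev (gl p a) = htn p + mlev a := e1
        have e2' : mlat x (gl p a) = kap p + mlat x' a := by rw [← hxx]; exact e2
        have e5 : s ^ (m - mlev (gl p a)) =
            s ^ (i.1 - i.2) * s ^ (m - i.1 - mlev a) := by
          rw [← pow_add, e1']
          congr 1
          omega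
        have e6 : Real.exp (g * mlat x (gl p a)) =
            Real.exp (g * kap p) * Real.exp (g * mlat x' a) := by
          rw [← Real.exp_add, e2']
          congr 1
          push_cast
          ring
        rw [e5, e6, Polynomial.C_mul, Polynomial.C_mul, Polynomial.C_mul, Polynomial.C_mul]
        ring
      rw [sum_congr rfl hconst, ← sum_mul, ← map_sum, Polynomial.C_mul]
      unfold eA
      ring
    · rw [if_neg hx', mul_zero]
      apply sum_eq_zero
      intro p hp
      exfalso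
      obtain ⟨h1, h3, h4, h5⟩ := (M41.mem_alT _ _ _ _ _).1 hp
      have := ((M41.mem_allowed _ _ _).1 h1).2.2.1
      omega
  · rw [if_neg hin]
    apply sum_eq_zero
    intro x' _
    rw [hfib x']
    apply sum_eq_zero
    intro p hp
    obtain ⟨h1, h3, h4, h5⟩ := (M41.mem_alT _ _ _ _ _).1 hp
    rw [h3, show 2 * m - 2 * i.1 = 0 by omega, MArch_zero, sum_empty, mul_zero]

/-- the solution of the recursion is the generating polynomial of the marked arches -/
lemma BB_eq (hK : K2M_Stmt) (hH : HGM_Stmt) (hA : ARS_Stmt) (h : FL.HG_Stmt) (n : ℕ) (s g : ℝ)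
    (hs : 0 < s) (hn : 1 ≤ n) (m : ℕ) : ∀ (_ : m ≤ n) (x : ℤ),
    BB (kern hH (2 * n - 1) s g hs) (capM n s g) m x = wB n s g m x := by
  induction m using Nat.strong_induction_on with
  | _ m ih =>
    intro hm x
    have hsol := isSol_BB (kern hH (2 * n - 1) s g hs) (capM n s g)
    by_cases hx : 1 ≤ x
    · rw [hsol.step m x hx, wB_step hK hH hA h n s g hs hn m hm x hx]
      congr 1
      apply sum_congr rfl
      intro i hi
      have h1 := ((kern hH (2 * n - 1) s g hs).pos_mem i hi).1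
      by_cases hin : i.1 ≤ m
      · rw [if_pos hin, if_pos hin]
        apply sum_congr rfl
        intro x' _
        rw [ih (m - i.1) (by omega) (by omega) x']
      · rw [if_neg hin, if_neg hin]
    · rw [hsol.zero m x (by omega)]
      unfold wB
      rw [if_neg hx]

lemma count (hH : HGM_Stmt) (n : ℕ) (s g : ℝ) :
    ∑ q ∈ Omm n, Polynomial.C (wm n s g q) * (Polynomial.X : Polynomial ℝ) ^ (am n q) =
      closeP (2 * n) (capM n s g) (wB n s g) n := by
  unfold Omm closeP
  rw [sum_sigma]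
  simp_rw [sum_sigma, sum_product]
  rw [sum_comm]
  set f : ℕ → Polynomial ℝ := fun M => ∑ x ∈ Icc (1 : ℤ) (2 * n),
    ∑ T ∈ MCap x M, ∑ w ∈ MArch x (2 * n - M),
      Polynomial.C (wm n s g ⟨x, M, T, w⟩) *
        (Polynomial.X : Polynomial ℝ) ^ (ArM (2 * n - 1) x w) with hf
  have hodd : ∀ m, f (2 * m + 1) = 0 := by
    intro m
    apply sum_eq_zero
    intro x hx
    rw [MCap_empty hH x (2 * m + 1) (mem_Icc.1 hx).1 (Or.inl (by simp))]
    simp
  have e1 : ∑ M ∈ range (2 * n + 1), f M = ∑ M ∈ range (2 * (n + 1)), f M := by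
    rw [show 2 * (n + 1) = (2 * n + 1) + 1 by ring, sum_range_succ _ (2 * n + 1), hodd n, add_zero]
  have e0 : ∑ M ∈ range (2 * n + 1), ∑ x ∈ Icc (1 : ℤ) (2 * n), ∑ T ∈ MCap x M,
      ∑ w ∈ MArch x (2 * n - M), Polynomial.C (wm n s g ⟨x, M, T, w⟩) *
        (Polynomial.X : Polynomial ℝ) ^ (am n ⟨x, M, T, w⟩) = ∑ M ∈ range (2 * n + 1), f M := rfl
  rw [e0, e1, M41.sum_range_even f hodd n]
  apply sum_congr rfl
  intro m hm
  rw [mem_range] at hm
  rw [hf]
  simp only
  have e3 : (((2 * n : ℕ) : ℤ)) = 2 * (n : ℤ) := by push_cast; ring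
  rw [e3]
  apply sum_congr rfl
  intro x hx
  have hx1 := (mem_Icc.1 hx).1
  unfold capM wB
  rw [if_pos ⟨hx1, by omega⟩, if_pos hx1, map_sum, sum_mul]
  apply sum_congr rfl
  intro T hT
  have hT' := (mem_MCap _ _ _).1 hT
  obtain ⟨_, hhT, _⟩ := hH.2.1 x _ T hx1 hT'.1
  rw [show 2 * n - 2 * m = 2 * (n - m) by omega, mul_sum]
  apply sum_congr rfl
  intro w hw
  obtain ⟨_, hhw, _⟩ := hH.2.1 x _ w hx1 hw
  rw [← mul_assoc, ← Polynomial.C_mul]
  congr 2
  unfold wm zl zt
  simp only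
  have e4 : s ^ (n - (mlev w + mlev T)) = s ^ (m - mlev T) * s ^ (n - m - mlev w) := by
    rw [← pow_add]
    congr 1
    omega
  have e5 : Real.exp (g * ((mlat x w + mlat x T : ℤ) : ℝ)) =
      Real.exp (g * mlat x T) * Real.exp (g * mlat x w) := by
    rw [← Real.exp_add]
    congr 1
    push_cast
    ring
  rw [e4, e5]
  ring

end Pool.Agent.TPT.KWM

namespace Pool.Agent.TPT

open Finset Pool.Agent.Lib27 Pool.Agent.SapR
open Pool.Agent.FL (Wd hl htn)

/-- Module KWM: the kernel data. -/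
theorem t_KWM (hK : K2M_Stmt) (hH : HGM_Stmt) (hA : ARS_Stmt) (hg : Pool.Agent.FL.HG_Stmt) :
    KWM_Stmt := by
  intro n s g hn hs _
  have hn1 : 1 ≤ n := by omega
  refine ⟨{
    G := KWM.kern hH (2 * n - 1) s g hs
    B := KWM.BB (KWM.kern hH (2 * n - 1) s g hs) (capM n s g)
    loc := KWM.kern_loc hH _ s g hs
    crit := ⟨(KWM.kern hH (2 * n - 1) s g hs).rho_pos, KWM.kern_crit hH hg _ s g hs⟩
    tot := KWM.kern_level hH hg _ s g hs
    cap := KWM.isCap hH n s g hn1 hs
    cap1 := KWM.cap1 n s g hn1 hs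
    capz := KWM.capz hH n s g
    sol := KWM.isSol_BB _ _
    count := ?_
    mbar := KWM.kern_mbar hH hg n s g hs
    hbar := KWM.kern_hbar hH hg n s g hs
    sig2 := KWM.kern_sig2 hH hg n s g hs }⟩
  rw [KWM.count hH n s g]
  unfold Gap.closeP
  apply sum_congr rfl
  intro m hm
  apply sum_congr rfl
  intro x _
  rw [KWM.BB_eq hK hH hA hg n s g hs hn1 (n - m) (by omega) x]

end Pool.Agent.TPT
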