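import Pool.Agent.TPT.StmtsC
import Pool.Agent.Lib_helper89.FL.NEAR
import Pool.Agent.EXW.Base

/-!
# Project TPT, module NEARM: tail of the error of the area functional of the words with two marks

The proofs of `Lib_helper89/FL/NEAR.lean` (helper89) and `EXW/NEARP.lean` for marked arches and the
weight `s ^ (N - mlev a) * exp (g * mlat x a)`.
-/

set_option autoImplicit false

namespace Pool.Agent.TPT

open Finset Filter Topology
open Pool.Agent.Lib27 Pool.Agent.SapR Pool.Agent.AreaLaw Pool.Agent.FL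

namespace NEARM

open Pool.Agent.FL.NEAR (vv vv_nonneg len_hl off_le sq_le_vv geo sum_range_even')

/-- weight of a marked arch -/
noncomputable def wa (s g : ℝ) (N : ℕ) (x : ℤ) (a : Wd × ℕ) : ℝ :=
  s ^ (N - mlev a) * Real.exp (g * mlat x a)

/-- weighted sum over the marked arches of gap `x` and half length `N` -/
noncomputable def Gs (s g rho : ℝ) (f : ℕ → ℤ → Wd × ℕ → ℝ) (N : ℕ) (x : ℤ) : ℝ :=
  rho ^ N * ∑ a ∈ MArch x (2 * N), wa s g N x a * f N x a

/-- weighted sum over the marked caps of gap `x` and half length `N` -/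
noncomputable def Cs (s g rho : ℝ) (N : ℕ) (x : ℤ) : ℝ :=
  ∑ a ∈ MCap x (2 * N), rho ^ N * wa s g N x a

/-- distance of the shoelace sum and the area functional -/
noncomputable def Dd (r : ℕ) (x : ℤ) (a : Wd × ℕ) : ℝ := |(dbl 0 a.1 : ℝ) - (ArM r x a : ℝ)|

lemma wa_nonneg {s g : ℝ} (hs : 0 < s) (N : ℕ) (x : ℤ) (a : Wd × ℕ) : 0 ≤ wa s g N x a := by
  unfold wa
  positivity

lemma wp_nonneg {s g rho : ℝ} (hs : 0 < s) (hrho : 0 < rho) (p : Wd × Wd) :
    0 ≤ wp s g rho p := by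
  unfold wp
  positivity

lemma mem_MArch (x : ℤ) (N : ℕ) (a : Wd × ℕ) :
    a ∈ MArch x N ↔ a.1.length = N ∧ Arch x a.1 ∧ 0 < a.2 ∧ a.2 < N := by
  classical
  unfold MArch
  rw [mem_filter, mem_product, mem_words, mem_range]
  tauto

lemma mem_MCap (x : ℤ) (N : ℕ) (a : Wd × ℕ) :
    a ∈ MCap x N ↔ a ∈ MArch x N ∧ ∀ h : ℤ, 1 ≤ h → h < mlev a → ¬ Cut (vt 0 a.1) h := by
  classical
  unfold MCap
  rw [mem_filter]

lemma MArch_zero (x : ℤ) : MArch x 0 = ∅ := by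
  ext a
  rw [mem_MArch]
  simp

lemma htn_le {r : ℕ} {p : Wd × Wd} (hp : p ∈ Pc r) : htn p ≤ hl p := by
  obtain ⟨h1, h2, h3⟩ := len_hl hp
  have hs := ((M41.mem_Pc _ _).1 hp).1.1
  have a1 := H66.ht_le p.1
  have a2 := H66.ht_ge p.2
  have a3 := hs.2.1
  have a4 : ht p = lev (ep 0 p.1) := rfl
  unfold htn
  omega

/-- the weight of a glued marked arch -/
lemma wa_glue (hH : HGM_Stmt) {r : ℕ} {s g rho : ℝ} {N : ℕ} {x : ℤ} {p : Wd × Wd} {a : Wd × ℕ}
    (hx : 1 ≤ x) (hp : p ∈ allowed r x) (hN : hl p ≤ N)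
    (ha : a ∈ MArch (x + jump p) (2 * (N - hl p))) :
    rho ^ N * wa s g N x (p.1 ++ a.1 ++ p.2, p.1.length + a.2) =
      wp s g rho p * (rho ^ (N - hl p) * wa s g (N - hl p) (x + jump p) a) := by
  have hp1 := ((M41.mem_allowed _ _ _).1 hp).1
  have hx' := ((M41.mem_allowed _ _ _).1 hp).2.2.1
  have h1 := hH.1 r x (2 * (N - hl p)) p a hx hp ha
  have h2 := (hH.2.1 (x + jump p) (2 * (N - hl p)) a hx' ha).2.1
  have h3 := htn_le hp1
  unfold wa wp
  rw [h1.1, h1.2]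
  have e1 : rho ^ N = rho ^ hl p * rho ^ (N - hl p) := by
    rw [← pow_add]; congr 1; omega
  have e2 : s ^ (N - (htn p + mlev a)) = s ^ (hl p - htn p) * s ^ (N - hl p - mlev a) := by
    rw [← pow_add]; congr 1; omega
  have e3 : Real.exp (g * ((kap p + mlat (x + jump p) a : ℤ) : ℝ)) =
      Real.exp (g * kap p) * Real.exp (g * mlat (x + jump p) a) := by
    rw [← Real.exp_add]
    congr 1
    push_cast
    ring
  rw [e1, e2, e3]
  ring

/-- one step of the recursion -/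
lemma step (hK : K2M_Stmt) (hH : HGM_Stmt) {r : ℕ} {s g rho : ℝ} (hs : 0 < s) (hrho : 0 < rho)
    {f : ℕ → ℤ → Wd × ℕ → ℝ} {u v b : ℕ → ℝ} {Zb : ℝ} (hv : ∀ m, 0 ≤ v m)
    (hcap : ∀ N x T, 1 ≤ x → 2 * N ≤ r + 2 → T ∈ MCap x (2 * N) → f N x T ≤ u N)
    (hstep : ∀ N x p a, 1 ≤ x → 2 * N ≤ r + 2 → p ∈ allowed r x → hl p < N →
      a ∈ MArch (x + jump p) (2 * (N - hl p)) →
      f N x (p.1 ++ a.1 ++ p.2, p.1.length + a.2) ≤ f (N - hl p) (x + jump p) a + v (hl p))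
    {N : ℕ} (hNr : 2 * N ≤ r + 2) (hb0 : 0 ≤ b (N - 1)) (hZ0 : 0 ≤ Zb)
    (hb : ∀ k x, k < N → 1 ≤ x → Gs s g rho f k x ≤ b (N - 1))
    (hZ : ∀ k x m, k < N → 1 ≤ x → v m * Gs s g rho (fun _ _ _ => 1) k x ≤ v m * Zb)
    {x : ℤ} (hx : 1 ≤ x) :
    Gs s g rho f N x ≤ Cs s g rho N x * u N +
      ∑ p ∈ Pc r, wp s g rho p * (b (N - 1) + v (hl p) * Zb) := by
  have hk2 := hK r x (2 * N) hx hNr (fun a => wa s g N x a * f N x a)
  unfold Gs
  rw [hk2, mul_add]
  apply add_le_add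
  · unfold Cs
    rw [mul_sum, sum_mul]
    apply sum_le_sum
    intro T hT
    rw [mul_assoc]
    apply mul_le_mul_of_nonneg_left _ (by positivity)
    exact mul_le_mul_of_nonneg_left (hcap N x T hx hNr hT) (wa_nonneg hs _ _ _)
  · rw [mul_sum]
    have hsub : allowed r x ⊆ Pc r := fun p hp => ((M41.mem_allowed _ _ _).1 hp).1
    refine (sum_le_sum (g := fun p => wp s g rho p * (b (N - 1) + v (hl p) * Zb)) ?_).trans
      (sum_le_sum_of_subset_of_nonneg hsub fun p _ _ =>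
        mul_nonneg (wp_nonneg hs hrho p) (add_nonneg hb0 (mul_nonneg (hv _) hZ0)))
    intro p hp
    have hp1 := hsub hp
    have hx' := ((M41.mem_allowed _ _ _).1 hp).2.2.1
    obtain ⟨l1, l2, l3⟩ := len_hl hp1
    rw [l1]
    rcases lt_or_ge (hl p) N with hN | hN
    · rw [show 2 * N - 2 * hl p = 2 * (N - hl p) by omega]
      have e1 := hb (N - hl p) (x + jump p) (by omega) hx'
      have e2 := hZ (N - hl p) (x + jump p) (hl p) (by omega) hx'
      have key : rho ^ N * ∑ a ∈ MArch (x + jump p) (2 * (N - hl p)),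
          wa s g N x (p.1 ++ a.1 ++ p.2, p.1.length + a.2) *
            f N x (p.1 ++ a.1 ++ p.2, p.1.length + a.2) ≤
          wp s g rho p * (Gs s g rho f (N - hl p) (x + jump p) +
            v (hl p) * Gs s g rho (fun _ _ _ => 1) (N - hl p) (x + jump p)) := by
        have e3 : wp s g rho p * (Gs s g rho f (N - hl p) (x + jump p) +
            v (hl p) * Gs s g rho (fun _ _ _ => 1) (N - hl p) (x + jump p)) =
            ∑ a ∈ MArch (x + jump p) (2 * (N - hl p)),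
              (wp s g rho p * (rho ^ (N - hl p) * wa s g (N - hl p) (x + jump p) a)) *
                (f (N - hl p) (x + jump p) a + v (hl p)) := by
          unfold Gs
          simp only [mul_sum, mul_add, sum_add_distrib, mul_one]
          congr 1
          · apply sum_congr rfl
            intro a _
            ring
          · apply sum_congr rfl
            intro a _
            ring
        rw [e3, mul_sum]
        apply sum_le_sum
        intro a ha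
        rw [← wa_glue hH hx hp hN.le ha, ← mul_assoc]
        exact mul_le_mul_of_nonneg_left (hstep N x p a hx hNr hp hN ha)
          (mul_nonneg (by positivity) (wa_nonneg hs _ _ _))
      refine key.trans ?_
      apply mul_le_mul_of_nonneg_left _ (wp_nonneg hs hrho p)
      exact add_le_add e1 e2
    · rw [show 2 * N - 2 * hl p = 0 by omega, MArch_zero, sum_empty, mul_zero]
      exact mul_nonneg (wp_nonneg hs hrho p) (add_nonneg hb0 (mul_nonneg (hv _) hZ0))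

/-- the recursion solved -/
lemma solve (hK : K2M_Stmt) (hH : HGM_Stmt) {r : ℕ} {s g rho : ℝ} (hs : 0 < s) (hrho : 0 < rho)
    {f : ℕ → ℤ → Wd × ℕ → ℝ} {u v cN : ℕ → ℝ} {Zb A : ℝ} (hv : ∀ m, 0 ≤ v m)
    (hu : ∀ m, 0 ≤ u m)
    (hcN : ∀ N x, 1 ≤ x → Cs s g rho N x ≤ cN N) (hcN0 : ∀ N, 0 ≤ cN N)
    (hmass : ∑ p ∈ Pc r, wp s g rho p = 1) (hA : ∑ p ∈ Pc r, wp s g rho p * v (hl p) ≤ A)
    (hcap : ∀ N x T, 1 ≤ x → 2 * N ≤ r + 2 → T ∈ MCap x (2 * N) → f N x T ≤ u N)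
    (hstep : ∀ N x p a, 1 ≤ x → 2 * N ≤ r + 2 → p ∈ allowed r x → hl p < N →
      a ∈ MArch (x + jump p) (2 * (N - hl p)) →
      f N x (p.1 ++ a.1 ++ p.2, p.1.length + a.2) ≤ f (N - hl p) (x + jump p) a + v (hl p))
    (hZ0 : 0 ≤ Zb)
    (hZ : ∀ k x m, 2 * k ≤ r + 2 → 1 ≤ x →
      v m * Gs s g rho (fun _ _ _ => 1) k x ≤ v m * Zb)
    (N : ℕ) (hNr : 2 * N ≤ r + 2) : ∀ k x, k ≤ N → 1 ≤ x →
      Gs s g rho f k x ≤ ∑ j ∈ range (N + 1), cN j * u j + N * (A * Zb) := by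
  have hA0 : 0 ≤ A := le_trans (sum_nonneg fun p _ => mul_nonneg (wp_nonneg hs hrho p) (hv _)) hA
  induction N with
  | zero =>
    intro k x hk hx
    have : k = 0 := by omega
    subst this
    unfold Gs
    rw [mul_zero, MArch_zero, sum_empty, mul_zero]
    have h1 : 0 ≤ ∑ j ∈ range (0 + 1), cN j * u j :=
      sum_nonneg fun j _ => mul_nonneg (hcN0 j) (hu j)
    simpa using h1
  | succ N ih =>
    intro k x hk hx
    replace ih := ih (by omega)
    set B : ℝ := ∑ j ∈ range (N + 1), cN j * u j + N * (A * Zb) with hB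
    have hB0 : 0 ≤ B := by
      have h1 : 0 ≤ ∑ j ∈ range (N + 1), cN j * u j :=
        sum_nonneg fun j _ => mul_nonneg (hcN0 j) (hu j)
      have h2 : (0 : ℝ) ≤ N * (A * Zb) := by positivity
      linarith
    have hfin : B + cN (N + 1) * u (N + 1) + A * Zb =
        ∑ j ∈ range (N + 1 + 1), cN j * u j + ((N + 1 : ℕ) : ℝ) * (A * Zb) := by
      rw [sum_range_succ _ (N + 1), hB]
      push_cast
      ring
    rw [← hfin]
    have hc0 : 0 ≤ cN (N + 1) * u (N + 1) := mul_nonneg (hcN0 _) (hu _)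
    have hAZ : 0 ≤ A * Zb := mul_nonneg hA0 hZ0
    rcases Nat.lt_or_ge k (N + 1) with hk' | hk'
    · have := ih k x (by omega) hx
      linarith
    · have : k = N + 1 := by omega
      subst this
      have hst := step hK hH hs hrho (b := fun _ => B) (u := u) (Zb := Zb) hv hcap hstep
        (N := N + 1) hNr hB0 hZ0 (fun k x hk hx => ih k x (by omega) hx)
        (fun k x m hk hx => hZ k x m (by omega) hx) hx
      refine hst.trans ?_
      have e1 : ∑ p ∈ Pc r, wp s g rho p * (B + v (hl p) * Zb) =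
          (∑ p ∈ Pc r, wp s g rho p) * B + (∑ p ∈ Pc r, wp s g rho p * v (hl p)) * Zb := by
        rw [sum_mul, sum_mul, ← sum_add_distrib]
        apply sum_congr rfl
        intro p _
        ring
      rw [e1, hmass, one_mul]
      have e2 : Cs s g rho (N + 1) x * u (N + 1) ≤ cN (N + 1) * u (N + 1) :=
        mul_le_mul_of_nonneg_right (hcN _ _ hx) (hu _)
      have e3 : (∑ p ∈ Pc r, wp s g rho p * v (hl p)) * Zb ≤ A * Zb :=
        mul_le_mul_of_nonneg_right hA hZ0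
      linarith

/-- positive part of the error -/
noncomputable def fE (r L N : ℕ) (x : ℤ) (a : Wd × ℕ) : ℝ := max 0 (Dd r x a - 4 * L * N)

lemma fE_nonneg (r L N : ℕ) (x : ℤ) (a : Wd × ℕ) : 0 ≤ fE r L N x a := le_max_left _ _

lemma Dd_le (r L N : ℕ) (x : ℤ) (a : Wd × ℕ) : Dd r x a ≤ 4 * L * N + fE r L N x a := by
  have := le_max_right 0 (Dd r x a - 4 * L * N)
  unfold fE
  linarith

lemma cap_le {x : ℤ} {k : ℕ} {T : Wd × ℕ} (hT : T ∈ MArch x (2 * k)) :
    |(dbl 0 T.1 : ℝ)| ≤ 4 * (k : ℝ) ^ 2 := by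
  have h1 := H66.abs_dbl_le T.1
  rw [((mem_MArch _ _ _).1 hT).1] at h1
  have h2 : ((|dbl 0 T.1| : ℤ) : ℝ) ≤ ((((2 * k : ℕ) : ℤ) ^ 2 : ℤ) : ℝ) := by exact_mod_cast h1
  push_cast at h2
  nlinarith

lemma fE_cap (hA : ARS_Stmt) {r L N : ℕ} {x : ℤ} {T : Wd × ℕ} (hx : 1 ≤ x) (hN : 2 * N ≤ r + 2)
    (hT : T ∈ MCap x (2 * N)) : fE r L N x T ≤ vv L N := by
  have h1 : Dd r x T = |(dbl 0 T.1 : ℝ)| := by
    unfold Dd
    rw [hA.2.1 r x (2 * N) T hx hN hT]
    simp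
  have h2 := cap_le ((mem_MCap _ _ _).1 hT).1
  have h3 := sq_le_vv L N
  unfold fE
  rw [h1]
  apply max_le (vv_nonneg _ _)
  linarith

lemma Dd_step (hA : ARS_Stmt) {r N : ℕ} {x : ℤ} {p : Wd × Wd} {a : Wd × ℕ} (hx : 1 ≤ x)
    (hN2 : 2 * N ≤ r + 2) (hp : p ∈ allowed r x) (hN : hl p < N)
    (ha : a ∈ MArch (x + jump p) (2 * (N - hl p))) :
    Dd r x (p.1 ++ a.1 ++ p.2, p.1.length + a.2) ≤ Dd r (x + jump p) a + 4 * (hl p : ℝ) ^ 2 := by
  obtain ⟨hp1, hp2, hp3, hp4⟩ := (M41.mem_allowed _ _ _).1 hp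
  obtain ⟨l1, l2, l3⟩ := len_hl hp1
  have ha' := (mem_MArch _ _ _).1 ha
  have e1 := hA.1 r x (2 * N) p a hx hN2 hp (by
    rw [l1, show 2 * N - 2 * hl p = 2 * (N - hl p) by omega]; exact ha)
  have e2 := H66.k4 x p a.1 ((M41.mem_Pc _ _).1 hp1).1.1 ha'.2.1.2.1
  have hht := (H66.k5size r p hp1).2.2.2.1
  have hpos : 0 ≤ ht p * (2 * x + jump p) := mul_nonneg (by omega) (by omega)
  have hto : ((ht p * (2 * x + jump p)).toNat : ℤ) = ht p * (2 * x + jump p) :=
    Int.toNat_of_nonneg hpos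
  have e3 : (dbl 0 (p.1 ++ a.1 ++ p.2) : ℤ) -
      (ArM r x (p.1 ++ a.1 ++ p.2, p.1.length + a.2) : ℤ) =
      (dbl 0 a.1 - (ArM r (x + jump p) a : ℤ)) + off p := by
    rw [e1, e2]
    push_cast
    rw [hto]
    ring
  have e4 : (dbl 0 (p.1 ++ a.1 ++ p.2) : ℝ) -
      (ArM r x (p.1 ++ a.1 ++ p.2, p.1.length + a.2) : ℝ) =
      ((dbl 0 a.1 : ℝ) - (ArM r (x + jump p) a : ℝ)) + (off p : ℝ) := by exact_mod_cast e3
  have h5 : ((|off p| : ℤ) : ℝ) ≤ ((4 * (hl p : ℤ) ^ 2 : ℤ) : ℝ) := by exact_mod_cast off_le hp1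
  push_cast at h5
  unfold Dd
  show |(dbl 0 (p.1 ++ a.1 ++ p.2) : ℝ) -
      (ArM r x (p.1 ++ a.1 ++ p.2, p.1.length + a.2) : ℝ)| ≤ _
  rw [e4]
  refine (abs_add_le _ _).trans ?_
  linarith

lemma fE_step (hA : ARS_Stmt) {r L N : ℕ} {x : ℤ} {p : Wd × Wd} {a : Wd × ℕ} (hx : 1 ≤ x)
    (hN2 : 2 * N ≤ r + 2) (hp : p ∈ allowed r x) (hN : hl p < N)
    (ha : a ∈ MArch (x + jump p) (2 * (N - hl p))) :
    fE r L N x (p.1 ++ a.1 ++ p.2, p.1.length + a.2) ≤
      fE r L (N - hl p) (x + jump p) a + vv L (hl p) := by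
  have h1 := Dd_step hA hx hN2 hp hN ha
  have h2 := sq_le_vv L (hl p)
  have h3 := Dd_le r L (N - hl p) (x + jump p) a
  have h4 : ((N - hl p : ℕ) : ℝ) = N - hl p := by
    rw [Nat.cast_sub hN.le]
  rw [h4] at h3
  have h5 := fE_nonneg r L (N - hl p) (x + jump p) a
  have h6 := vv_nonneg L (hl p)
  unfold fE at h5 ⊢
  unfold fE at h3
  apply max_le (by linarith)
  linarith

/-- the estimate for one cap and all marked arches on top of it -/
lemma inner (hH : HGM_Stmt) {n k L : ℕ} {s g rho e Zb : ℝ} {x : ℤ} {T : Wd × ℕ} (hs : 0 < s)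
    (hrho : 0 < rho) (hx : 1 ≤ x) (hk : k ≤ n) (hT : T ∈ MCap x (2 * k))
    (hE : Gs s g rho (fE (2 * n - 1) L) (n - k) x ≤ e)
    (hZ : Gs s g rho (fun _ _ _ => 1) (n - k) x ≤ Zb) :
    ∑ a ∈ MArch x (2 * n - 2 * k), wm n s g ⟨x, 2 * k, T, a⟩ *
      max 0 (|(dm ⟨x, 2 * k, T, a⟩ : ℝ) - (am n ⟨x, 2 * k, T, a⟩ : ℝ)| - 4 * L * n) ≤
      (rho ^ n)⁻¹ * (rho ^ k * wa s g k x T * (e + vv L k * Zb)) := by
  have hT' := ((mem_MCap _ _ _).1 hT).1
  have hhT := (hH.2.1 x (2 * k) T hx hT').2.1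
  rw [show 2 * n - 2 * k = 2 * (n - k) by omega]
  have hcast : ((n - k : ℕ) : ℝ) = n - k := by rw [Nat.cast_sub hk]
  have hwt : ∀ a ∈ MArch x (2 * (n - k)), wm n s g ⟨x, 2 * k, T, a⟩ =
      wa s g k x T * wa s g (n - k) x a := by
    intro a ha
    have hha := (hH.2.1 x (2 * (n - k)) a hx ha).2.1
    unfold wm wa
    have e1 : zl ⟨x, 2 * k, T, a⟩ = mlev a + mlev T := rfl
    have e2 : zt ⟨x, 2 * k, T, a⟩ = mlat x a + mlat x T := rfl
    rw [e1, e2]
    have e3 : s ^ (n - (mlev a + mlev T)) = s ^ (k - mlev T) * s ^ (n - k - mlev a) := by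
      rw [← pow_add]
      congr 1
      omega
    have e4 : Real.exp (g * ((mlat x a + mlat x T : ℤ) : ℝ)) =
        Real.exp (g * mlat x T) * Real.exp (g * mlat x a) := by
      rw [← Real.exp_add]
      congr 1
      push_cast
      ring
    rw [e3, e4]
    ring
  have hpt : ∀ a ∈ MArch x (2 * (n - k)), wm n s g ⟨x, 2 * k, T, a⟩ *
        max 0 (|(dm ⟨x, 2 * k, T, a⟩ : ℝ) - (am n ⟨x, 2 * k, T, a⟩ : ℝ)| - 4 * L * n) ≤
        wa s g k x T * (wa s g (n - k) x a * fE (2 * n - 1) L (n - k) x a +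
          vv L k * (wa s g (n - k) x a * 1)) := by
    intro a ha
    have hA : max 0 (|(dm ⟨x, 2 * k, T, a⟩ : ℝ) - (am n ⟨x, 2 * k, T, a⟩ : ℝ)| - 4 * L * n) ≤
        fE (2 * n - 1) L (n - k) x a + vv L k := by
      apply max_le (add_nonneg (fE_nonneg _ _ _ _ _) (vv_nonneg _ _))
      have h3 : |(dm ⟨x, 2 * k, T, a⟩ : ℝ) - (am n ⟨x, 2 * k, T, a⟩ : ℝ)| ≤
          Dd (2 * n - 1) x a + |(dbl 0 T.1 : ℝ)| := by
        have : (dm ⟨x, 2 * k, T, a⟩ : ℝ) - (am n ⟨x, 2 * k, T, a⟩ : ℝ) =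
            ((dbl 0 a.1 : ℝ) - (ArM (2 * n - 1) x a : ℝ)) + (dbl 0 T.1 : ℝ) := by
          unfold dm am
          push_cast
          ring
        rw [this]
        exact abs_add_le _ _
      have h4 := Dd_le (2 * n - 1) L (n - k) x a
      rw [hcast] at h4
      have h5 := cap_le hT'
      have h6 := sq_le_vv L k
      linarith
    have h8 : 0 ≤ wa s g k x T * wa s g (n - k) x a :=
      mul_nonneg (wa_nonneg hs _ _ _) (wa_nonneg hs _ _ _)
    rw [hwt a ha]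
    have h7 := mul_le_mul_of_nonneg_left hA h8
    refine h7.trans (le_of_eq ?_)
    ring
  refine (sum_le_sum hpt).trans ?_
  rw [← mul_sum, sum_add_distrib, ← mul_sum]
  have hE' : ∑ a ∈ MArch x (2 * (n - k)), wa s g (n - k) x a * fE (2 * n - 1) L (n - k) x a ≤
      (rho ^ (n - k))⁻¹ * e := by
    unfold Gs at hE
    rw [inv_mul_eq_div, le_div_iff₀ (by positivity), mul_comm]
    exact hE
  have hZ' : ∑ a ∈ MArch x (2 * (n - k)), wa s g (n - k) x a * (1 : ℝ) ≤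
      (rho ^ (n - k))⁻¹ * Zb := by
    unfold Gs at hZ
    rw [inv_mul_eq_div, le_div_iff₀ (by positivity), mul_comm]
    exact hZ
  have hinv : (rho ^ (n - k))⁻¹ = (rho ^ n)⁻¹ * rho ^ k := by
    have : rho ^ n = rho ^ (n - k) * rho ^ k := by rw [← pow_add]; congr 1; omega
    rw [this]
    field_simp
  have hfin : (rho ^ n)⁻¹ * (rho ^ k * wa s g k x T * (e + vv L k * Zb)) =
      wa s g k x T * ((rho ^ (n - k))⁻¹ * e + vv L k * ((rho ^ (n - k))⁻¹ * Zb)) := by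
    rw [hinv]; ring
  rw [hfin]
  apply mul_le_mul_of_nonneg_left _ (wa_nonneg hs _ _ _)
  exact add_le_add hE' (mul_le_mul_of_nonneg_left hZ' (vv_nonneg _ _))

lemma MCap_far (hH : HGM_Stmt) {x : ℤ} {k : ℕ} (hk : (k : ℤ) < x) (hx : 1 ≤ x) :
    MCap x (2 * k) = ∅ := by
  rw [eq_empty_iff_forall_notMem]
  intro a ha
  have h1 := (hH.2.1 x (2 * k) a hx ((mem_MCap _ _ _).1 ha).1).2.2.2.1
  push_cast at h1
  omega

lemma MCap_odd (hH : HGM_Stmt) {x : ℤ} {k : ℕ} (hx : 1 ≤ x) : MCap x (2 * k + 1) = ∅ := by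
  rw [eq_empty_iff_forall_notMem]
  intro a ha
  have h1 := (hH.2.1 x (2 * k + 1) a hx ((mem_MCap _ _ _).1 ha).1).2.2.1
  obtain ⟨j, hj⟩ := h1
  omega

/-- the sum over the caps -/
lemma caps (hH : HGM_Stmt) {n L : ℕ} {C θ s g rho e Zb : ℝ} (he : 0 ≤ e) (hZb : 0 ≤ Zb)
    (ht : ∀ m : ℕ, ∑ x ∈ Icc (1 : ℤ) m, ∑ a ∈ MCap x (2 * m), rho ^ m * wa s g m x a ≤
      C * θ ^ m) :
    ∑ x ∈ Icc (1 : ℤ) (2 * n), ∑ M ∈ range (2 * n + 1), ∑ T ∈ MCap x M,
        rho ^ (M / 2) * wa s g (M / 2) x T * (e + vv L (M / 2) * Zb) ≤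
      ∑ k ∈ range (n + 1), C * θ ^ k * (e + vv L k * Zb) := by
  rw [sum_comm]
  rw [sum_range_even' _ ?_ n]
  · apply sum_le_sum
    intro k hk
    rw [mem_range] at hk
    have hk2 : 2 * k / 2 = k := by omega
    rw [hk2]
    have hw : 0 ≤ e + vv L k * Zb := add_nonneg he (mul_nonneg (vv_nonneg _ _) hZb)
    simp only [← sum_mul]
    apply mul_le_mul_of_nonneg_right _ hw
    refine le_trans (le_of_eq ?_) (ht k)
    symm
    apply sum_subset
    · intro x hx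
      rw [mem_Icc] at hx ⊢
      omega
    · intro x hx hx'
      rw [mem_Icc] at hx hx'
      rw [MCap_far hH (by omega) hx.1, sum_empty]
  · intro m
    apply sum_eq_zero
    intro x hx
    rw [mem_Icc] at hx
    rw [MCap_odd hH hx.1, sum_empty]

/-- the estimate with explicit constants -/
theorem core (hK : K2M_Stmt) (hH : HGM_Stmt) (hAr : ARS_Stmt) (J : ℕ) {C θ q B : ℝ} (hC : 0 < C)
    (hθ0 : 0 < θ) (hθ1 : θ < 1)
    (hq3 : q ^ 3 = θ) (hq0 : 0 < q) (hq1 : q < 1) (hB0 : 0 < B)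
    (hB : ∀ k : ℕ, 4 * (k : ℝ) ^ 2 * q ^ k ≤ B) (n : ℕ) (f g rho : ℝ) (hn : 2 ≤ n)
    (hcrit : CritM n (Real.exp (-f)) g rho) (htl : TailsM C θ n f g rho) :
    ∑ y ∈ Omm n, wm n (Real.exp (-f)) g y *
      max 0 (|(dm y : ℝ) - (am n y : ℝ)| -
        4 * (((J : ℝ) + 1) / (-Real.log q) + 2) * Real.log n * n) ≤
      ((C * (B * (1 / (1 - q)))) * (C * (1 / (1 - θ))) *
        (2 + C * (1 / (1 - θ)))) / ((n : ℝ) ^ J * rho ^ n) := by
  classical
  have hlq : 0 < -Real.log q := by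
    have := Real.log_neg hq0 hq1
    linarith
  set K : ℝ := ((J : ℝ) + 1) / (-Real.log q) with hKdef
  have hK0 : 0 < K := by positivity
  have h1θ : 0 < 1 - θ := by linarith
  have h1q : 0 < 1 - q := by linarith
  set Zb : ℝ := C * (1 / (1 - θ)) with hZb
  have hZb0 : 0 < Zb := by positivity
  set a0 : ℝ := C * (B * (1 / (1 - q))) with ha0
  have ha00 : 0 < a0 := by positivity
  obtain ⟨s, hsdef⟩ : ∃ s : ℝ, s = Real.exp (-f) := ⟨_, rfl⟩
  have hs : 0 < s := by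
    rw [hsdef]
    exact Real.exp_pos _
  obtain ⟨ht1, ht2, -⟩ := htl
  rw [← hsdef] at hcrit ht1 ht2 ⊢
  obtain ⟨hrho, hmass⟩ := hcrit
  have ht2' : ∀ m : ℕ, ∑ x ∈ Icc (1 : ℤ) m, ∑ a ∈ MCap x (2 * m), rho ^ m * wa s g m x a ≤
      C * θ ^ m := by
    intro m
    refine le_trans (le_of_eq ?_) (ht2 m)
    refine sum_congr rfl fun x _ => sum_congr rfl fun a _ => ?_
    unfold wa
    ring
  set r := 2 * n - 1 with hr
  set L : ℕ := ⌈K * Real.log n⌉₊ with hL
  set a : ℝ := a0 * q ^ L with ha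
  have ha1 : 0 < a := by positivity
  have hn0 : (0 : ℝ) < n := by positivity
  have hn2 : (2 : ℝ) ≤ n := by exact_mod_cast hn
  have hlog : 1 ≤ 2 * Real.log n := by
    have h1 : Real.log 2 ≤ Real.log n := Real.log_le_log (by norm_num) hn2
    have h2 := Real.log_two_gt_d9
    norm_num at h2 ⊢
    linarith
  -- caps
  have hcap : ∀ N x, 1 ≤ x → Cs s g rho N x ≤ C * θ ^ N := by
    intro N x hx
    rcases lt_or_ge (N : ℤ) x with hN | hN
    · unfold Cs
      rw [MCap_far hH hN hx, sum_empty]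
      positivity
    · refine le_trans ?_ (ht2' N)
      exact single_le_sum (f := fun x => ∑ a ∈ MCap x (2 * N), rho ^ N * wa s g N x a)
        (fun x _ => sum_nonneg fun T _ => mul_nonneg (by positivity) (wa_nonneg hs _ _ _))
        (mem_Icc.2 ⟨hx, hN⟩)
  -- long pieces
  have hvv : ∀ m, C * θ ^ m * vv L m ≤ C * (B * q ^ L) * q ^ m := by
    intro m
    unfold vv
    split_ifs with hm
    · have e1 : θ ^ m = q ^ m * q ^ m * q ^ m := by
        rw [← hq3, ← pow_mul, ← pow_add, ← pow_add]; congr 1; ring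
      have e2 : q ^ m ≤ q ^ L := pow_le_pow_of_le_one hq0.le hq1.le hm.le
      have e3 : 4 * (m : ℝ) ^ 2 * q ^ m * q ^ m ≤ B * q ^ L :=
        mul_le_mul (hB m) e2 (by positivity) hB0.le
      have e4 : C * θ ^ m * (4 * (m : ℝ) ^ 2) =
          C * (4 * (m : ℝ) ^ 2 * q ^ m * q ^ m) * q ^ m := by rw [e1]; ring
      rw [e4]
      apply mul_le_mul_of_nonneg_right _ (by positivity)
      exact mul_le_mul_of_nonneg_left e3 hC.le
    · rw [mul_zero]; positivity
  have hvsum : ∀ N : ℕ, ∑ m ∈ range N, C * θ ^ m * vv L m ≤ a := by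
    intro N
    refine (sum_le_sum fun m _ => hvv m).trans ?_
    rw [← mul_sum]
    have e1 := mul_le_mul_of_nonneg_left (geo hq0.le hq1 N)
      (show 0 ≤ C * (B * q ^ L) by positivity)
    refine e1.trans (le_of_eq ?_)
    rw [ha, ha0]; ring
  have hA : ∑ p ∈ Pc r, wp s g rho p * vv L (hl p) ≤ a := by
    have hmaps : ∀ p ∈ Pc r, hl p ∈ range (n + 1) := by
      intro p hp
      have := len_hl hp
      rw [mem_range]; omega
    rw [← sum_fiberwise_of_maps_to hmaps]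
    refine le_trans (sum_le_sum fun m _ => ?_) (hvsum (n + 1))
    have e1 : ∑ p ∈ (Pc r).filter (fun p => hl p = m), wp s g rho p * vv L (hl p) =
        (∑ p ∈ (Pc r).filter (fun p => hl p = m), wp s g rho p) * vv L m := by
      rw [sum_mul]
      apply sum_congr rfl
      intro p hp
      rw [mem_filter] at hp
      rw [hp.2]
    rw [e1]
    exact mul_le_mul_of_nonneg_right (ht1 m) (vv_nonneg _ _)
  -- total weight of the marked arches
  have hZ : ∀ k x, 2 * k ≤ r + 2 → 1 ≤ x → Gs s g rho (fun _ _ _ => 1) k x ≤ Zb := by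
    intro k x hk hx
    have := solve hK hH hs hrho (r := r) (g := g) (f := fun _ _ _ => 1) (u := fun _ => 1)
      (v := fun _ => 0)
      (cN := fun N => C * θ ^ N) (Zb := 0) (A := 0) (fun _ => le_rfl) (fun _ => zero_le_one)
      hcap (fun N => by positivity) hmass (by simp) (fun _ _ _ _ _ _ => le_rfl)
      (fun _ _ _ _ _ _ _ _ _ => by simp) le_rfl (fun _ _ _ _ _ => by simp) k hk k x le_rfl hx
    refine this.trans ?_
    simp only [mul_one, mul_zero, add_zero]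
    rw [← mul_sum]
    exact mul_le_mul_of_nonneg_left (geo hθ0.le hθ1 _) hC.le
  -- error of the marked arches
  have hE : ∀ k x, k ≤ n → 1 ≤ x → Gs s g rho (fE r L) k x ≤ a + n * (a * Zb) := by
    intro k x hk hx
    have := solve hK hH hs hrho (r := r) (g := g) (f := fE r L) (u := vv L) (v := vv L)
      (cN := fun N => C * θ ^ N) (Zb := Zb) (A := a) (vv_nonneg L) (vv_nonneg L)
      hcap (fun N => by positivity) hmass hA (fun N x T hx hN hT => fE_cap hAr hx hN hT)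
      (fun N x p a hx hN2 hp hN ha => fE_step hAr hx hN2 hp hN ha) hZb0.le
      (fun k x m hk hx => mul_le_mul_of_nonneg_left (hZ k x hk hx) (vv_nonneg _ _)) n (by omega)
      k x hk hx
    refine this.trans ?_
    exact add_le_add (hvsum _) le_rfl
  set e : ℝ := a + n * (a * Zb) with he
  have he0 : 0 ≤ e := by positivity
  -- the polygons
  have hsumOm : ∀ F : QM → ℝ, ∑ q ∈ Omm n, F q =
      ∑ x ∈ Icc (1 : ℤ) (2 * n), ∑ M ∈ range (2 * n + 1), ∑ T ∈ MCap x M,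
        ∑ w ∈ MArch x (2 * n - M), F ⟨x, M, T, w⟩ := by
    intro F
    unfold Omm
    rw [sum_sigma]
    apply sum_congr rfl
    intro x _
    rw [sum_sigma]
    apply sum_congr rfl
    intro M _
    rw [sum_product]
  have hL2 : 4 * (L : ℝ) ≤ 4 * (K + 2) * Real.log n := by
    have e1 : (L : ℝ) < K * Real.log n + 1 := Nat.ceil_lt_add_one (by positivity)
    linarith
  have hL3 : 4 * (L : ℝ) * n ≤ 4 * (K + 2) * Real.log n * n :=
    mul_le_mul_of_nonneg_right hL2 hn0.le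
  have hmain : ∑ q ∈ Omm n, wm n s g q *
      max 0 (|(dm q : ℝ) - (am n q : ℝ)| - 4 * L * n) ≤
      (rho ^ n)⁻¹ * ∑ k ∈ range (n + 1), C * θ ^ k * (e + vv L k * Zb) := by
    have hc := caps hH (n := n) (L := L) (C := C) (θ := θ) (s := s) (g := g) (rho := rho) (e := e)
      (Zb := Zb) he0 hZb0.le ht2'
    refine le_trans ?_
      (mul_le_mul_of_nonneg_left hc (by positivity : (0 : ℝ) ≤ (rho ^ n)⁻¹))
    rw [hsumOm]
    simp only [mul_sum]
    apply sum_le_sum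
    intro x hx
    apply sum_le_sum
    intro M hM
    apply sum_le_sum
    intro T hT
    rw [mem_Icc] at hx
    rw [mem_range] at hM
    obtain ⟨k, hk⟩ := (hH.2.1 x M T hx.1 ((mem_MCap _ _ _).1 hT).1).2.2.1
    have hM2 : M = 2 * k := by omega
    subst hM2
    have := inner hH (n := n) (k := k) (L := L) (e := e) (Zb := Zb) (g := g) hs hrho hx.1
      (by omega) hT (hE _ _ (by omega) hx.1) (hZ _ _ (by omega) hx.1)
    rw [show 2 * k / 2 = k by omega]
    exact this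
  have hmono : ∑ q ∈ Omm n, wm n s g q *
      max 0 (|(dm q : ℝ) - (am n q : ℝ)| - 4 * (K + 2) * Real.log n * n) ≤
      ∑ q ∈ Omm n, wm n s g q *
      max 0 (|(dm q : ℝ) - (am n q : ℝ)| - 4 * L * n) := by
    apply sum_le_sum
    intro q _
    have hw : 0 ≤ wm n s g q := by
      unfold wm
      positivity
    exact mul_le_mul_of_nonneg_left (max_le_max le_rfl (sub_le_sub_left hL3 _)) hw
  refine hmono.trans (hmain.trans ?_)
  have hsum : ∑ k ∈ range (n + 1), C * θ ^ k * (e + vv L k * Zb) ≤ Zb * e + a * Zb := by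
    have e1 : ∑ k ∈ range (n + 1), C * θ ^ k * (e + vv L k * Zb) =
        (C * ∑ k ∈ range (n + 1), θ ^ k) * e + (∑ k ∈ range (n + 1), C * θ ^ k * vv L k) * Zb := by
      rw [mul_sum, sum_mul, sum_mul, ← sum_add_distrib]
      apply sum_congr rfl
      intro k _
      ring
    rw [e1]
    apply add_le_add
    · apply mul_le_mul_of_nonneg_right _ he0
      exact mul_le_mul_of_nonneg_left (geo hθ0.le hθ1 _) hC.le
    · exact mul_le_mul_of_nonneg_right (hvsum _) hZb0.le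
  have hqL : q ^ L ≤ ((n : ℝ) ^ (J + 1))⁻¹ := by
    have e1 : q ^ L = Real.exp (L * Real.log q) := by
      rw [Real.exp_nat_mul, Real.exp_log hq0]
    have e2 : ((n : ℝ) ^ (J + 1))⁻¹ = Real.exp (-(((J + 1 : ℕ) : ℝ) * Real.log n)) := by
      rw [Real.exp_neg, Real.exp_nat_mul, Real.exp_log hn0]
    rw [e1, e2]
    apply Real.exp_le_exp.2
    have e3 : K * Real.log n ≤ L := Nat.le_ceil _
    have e4 := mul_le_mul_of_nonneg_right e3 hlq.le
    have hKq : K * (-Real.log q) = (J : ℝ) + 1 := div_mul_cancel₀ _ hlq.ne'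
    have e5 : K * Real.log n * (-Real.log q) = ((J : ℝ) + 1) * Real.log n := by
      rw [← hKq]; ring
    rw [e5] at e4
    push_cast
    linarith
  have hrn : 0 < rho ^ n := by positivity
  have hC1 : 0 < a0 * Zb * (2 + Zb) := by positivity
  have e1 : Zb * e + a * Zb ≤ a0 * Zb * (2 + Zb) / (n : ℝ) ^ J := by
    have e2 : Zb * e + a * Zb = a0 * Zb * (2 + n * Zb) * q ^ L := by
      rw [he, ha]; ring
    rw [e2]
    have e3 : a0 * Zb * (2 + n * Zb) ≤ a0 * Zb * (2 + Zb) * n := by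
      have : 2 + n * Zb ≤ (2 + Zb) * n := by nlinarith
      have h2 := mul_le_mul_of_nonneg_left this (show 0 ≤ a0 * Zb by positivity)
      linarith
    have e4 : a0 * Zb * (2 + n * Zb) * q ^ L ≤ a0 * Zb * (2 + Zb) * n * ((n : ℝ) ^ (J + 1))⁻¹ :=
      mul_le_mul e3 hqL (by positivity) (by positivity)
    refine e4.trans (le_of_eq ?_)
    rw [pow_succ]
    field_simp
  have e5 := hsum.trans e1
  have e6 := mul_le_mul_of_nonneg_left e5 (inv_nonneg.2 hrn.le)
  refine e6.trans (le_of_eq ?_)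
  field_simp

/-- the constant -/
lemma const_le {D q : ℝ} (hD : 2 ≤ D) (hq0 : 0 < q) (hq : q ≤ 1 - (3 * D)⁻¹) :
    (D * (216 * D ^ 3 * (1 / (1 - q)))) *
      (D * (1 / (1 - (1 - D⁻¹)))) * (2 + D * (1 / (1 - (1 - D⁻¹)))) ≤ D ^ 24 := by
  have hD0 : 0 < D := by linarith
  have hi : 0 < (3 * D)⁻¹ := by positivity
  have h1 : (3 * D)⁻¹ ≤ 1 - q := by linarith
  have h2 : 1 / (1 - q) ≤ 3 * D := by
    rw [one_div]
    have := inv_anti₀ hi h1
    rwa [inv_inv] at this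
  have h5 : 1 / (1 - (1 - D⁻¹)) = D := by
    rw [sub_sub_cancel, one_div, inv_inv]
  rw [h5]
  have h6 : 0 ≤ 1 / (1 - q) := by
    have : 0 < 1 - q := by linarith
    positivity
  have h7 : (D * (216 * D ^ 3 * (1 / (1 - q)))) * (D * D) * (2 + D * D) ≤
      (D * (216 * D ^ 3 * (3 * D))) * (D * D) * (2 + D * D) := by gcongr
  have p : ∀ k : ℕ, (2 : ℝ) ^ k ≤ D ^ k := fun k => pow_le_pow_left₀ (by norm_num) hD k
  have h8 : (D * (216 * D ^ 3 * (3 * D))) * (D * D) * (2 + D * D) =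
      1296 * D ^ 7 + 648 * D ^ 9 := by ring
  have h9 : (1296 : ℝ) * D ^ 7 ≤ D ^ 11 * D ^ 7 :=
    mul_le_mul_of_nonneg_right (le_trans (by norm_num) (p 11)) (by positivity)
  have h10 : (648 : ℝ) * D ^ 9 ≤ D ^ 10 * D ^ 9 :=
    mul_le_mul_of_nonneg_right (le_trans (by norm_num) (p 10)) (by positivity)
  have hD1 : (1 : ℝ) ≤ D := by linarith
  have q1 : D ^ 11 * D ^ 7 ≤ D ^ 22 := by
    rw [← pow_add]; exact pow_le_pow_right₀ hD1 (by norm_num)
  have q2 : D ^ 10 * D ^ 9 ≤ D ^ 22 := by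
    rw [← pow_add]; exact pow_le_pow_right₀ hD1 (by norm_num)
  have q5 : 4 * D ^ 22 ≤ D ^ 24 := by
    have : D ^ 24 = D ^ 2 * D ^ 22 := by rw [← pow_add]
    rw [this]
    exact mul_le_mul_of_nonneg_right (le_trans (by norm_num) (p 2)) (by positivity)
  have q6 : 0 ≤ D ^ 22 := by positivity
  linarith

end NEARM

open NEARM EXW in
/-- NEARM : tail of the error of the area functional. -/
theorem nearm (hK : K2M_Stmt) (hH : HGM_Stmt) (hA : ARS_Stmt) : NEARM_Stmt := by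
  intro J
  refine ⟨12 * J + 24, fun D hD n f g rho hn hf hcrit htl => ?_⟩
  have hD0 : 0 < D := by linarith
  have hD1 : 1 ≤ D := by linarith
  have hθ0 := th_pos hD
  have hθ1 := th_lt hD
  have hrho := hcrit.1
  obtain ⟨q, hq0, hq3⟩ : ∃ q : ℝ, 0 < q ∧ q ^ 3 = 1 - D⁻¹ :=
    ⟨(1 - D⁻¹) ^ (((3 : ℕ) : ℝ)⁻¹), Real.rpow_pos_of_pos hθ0 _,
      Real.rpow_inv_natCast_pow hθ0.le (by norm_num)⟩
  have hq := cbrt_th hD hq0.le hq3
  have hi : 0 < (3 * D)⁻¹ := by positivity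
  have hq1 : q < 1 := by linarith
  have hB : ∀ k : ℕ, 4 * (k : ℝ) ^ 2 * q ^ k ≤ 216 * D ^ 3 := by
    intro k
    have h1 := geo_le 2 hq0.le hi hq
    have h2 : ((k : ℝ) + 1) ^ 2 * q ^ k ≤ ∑' m : ℕ, ((m : ℝ) + 1) ^ 2 * q ^ m :=
      (summable_geo 2 hq0.le hq1).le_tsum k fun m _ => by positivity
    have h3 : (k : ℝ) ^ 2 * q ^ k ≤ ((k : ℝ) + 1) ^ 2 * q ^ k := by gcongr; linarith
    have h4 : ((2 : ℕ).factorial : ℝ) / (3 * D)⁻¹ ^ (2 + 1) = 54 * D ^ 3 := by
      rw [inv_pow, div_inv_eq_mul]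
      norm_num [Nat.factorial]
      ring
    rw [h4] at h1
    linarith
  have hcore := core hK hH hA J hD0 hθ0 hθ1 hq3 hq0 hq1 (by positivity : (0 : ℝ) < 216 * D ^ 3) hB
    n f g rho hn hcrit htl
  have hc := const_le hD hq0 hq
  have hn1 : (1 : ℝ) ≤ n := by exact_mod_cast (by omega : 1 ≤ n)
  have hlog : 0 ≤ Real.log n := Real.log_nonneg hn1
  have hn0 : (0 : ℝ) < n := by linarith
  have hlq : (3 * D)⁻¹ ≤ -Real.log q := by
    have := Real.log_le_sub_one_of_pos hq0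
    linarith
  have hlq0 : 0 < -Real.log q := hi.trans_le hlq
  -- the constant in front of `log n`
  have hKK : 4 * (((J : ℝ) + 1) / (-Real.log q) + 2) ≤ D ^ (12 * J + 24) := by
    have h1 : ((J : ℝ) + 1) / (-Real.log q) ≤ 3 * ((J : ℝ) + 1) * D := by
      rw [div_le_iff₀ hlq0]
      have h2 := mul_le_mul_of_nonneg_left hlq (show 0 ≤ 3 * ((J : ℝ) + 1) * D by positivity)
      have e : 3 * ((J : ℝ) + 1) * D * (3 * D)⁻¹ = (J : ℝ) + 1 := by field_simp
      linarith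
    have h2 : 4 * (3 * ((J : ℝ) + 1) * D + 2) ≤ (12 * (J : ℝ) + 16) * D := by
      nlinarith [hD]
    have h3 : (12 * (J : ℝ) + 16) ≤ D ^ (12 * J + 16) := by
      have h4 : (12 * J + 16 : ℕ) < 2 ^ (12 * J + 16) := Nat.lt_two_pow_self
      have h5 : ((12 * J + 16 : ℕ) : ℝ) ≤ 2 ^ (12 * J + 16) := by exact_mod_cast h4.le
      have h6 : (2 : ℝ) ^ (12 * J + 16) ≤ D ^ (12 * J + 16) := pow_le_pow_left₀ (by norm_num) hD _
      push_cast at h5
      exact h5.trans h6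
    calc 4 * (((J : ℝ) + 1) / (-Real.log q) + 2) ≤ 4 * (3 * ((J : ℝ) + 1) * D + 2) := by linarith
      _ ≤ (12 * (J : ℝ) + 16) * D := h2
      _ ≤ D ^ (12 * J + 16) * D := mul_le_mul_of_nonneg_right h3 hD0.le
      _ = D ^ (12 * J + 17) := by rw [← pow_succ]
      _ ≤ D ^ (12 * J + 24) := pow_le_pow_right₀ hD1 (by omega)
  have hmono : ∑ q ∈ Omm n, wm n (Real.exp (-f)) g q *
      max 0 (|(dm q : ℝ) - (am n q : ℝ)| - D ^ (12 * J + 24) * n * Real.log n) ≤
      ∑ q' ∈ Omm n, wm n (Real.exp (-f)) g q' *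
      max 0 (|(dm q' : ℝ) - (am n q' : ℝ)| -
        4 * (((J : ℝ) + 1) / (-Real.log q) + 2) * Real.log n * n) := by
    apply sum_le_sum
    intro q' _
    have hw : 0 ≤ wm n (Real.exp (-f)) g q' := by
      unfold wm
      positivity
    refine mul_le_mul_of_nonneg_left (max_le_max le_rfl (sub_le_sub_left ?_ _)) hw
    have h1 := mul_le_mul_of_nonneg_right hKK (show 0 ≤ n * Real.log n by positivity)
    linarith
  refine hmono.trans (hcore.trans ?_)
  apply div_le_div_of_nonneg_right _ (by positivity)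
  have h2 : D ^ 24 ≤ D ^ (12 * J + 24) := pow_le_pow_right₀ hD1 (by omega)
  linarith

end Pool.Agent.TPT
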