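import Pool.Agent.TPT.StmtsC

/-!
# Project TPT, module PDIFM: moments of the error of the area functional
-/

set_option autoImplicit false

namespace Pool.Agent.TPT

open Finset Filter Topology MeasureTheory
open Pool.Agent.Lib27 Pool.Agent.SapR Pool.Agent.AreaLaw Pool.Agent.FL
open Pool.Agent.FS (sc)

namespace PDIFM

/-- powers -/
theorem pp (p : ℕ) (δ L B : ℝ) (h0 : 0 ≤ δ) (hL : 0 ≤ L) (hB : δ ≤ B) :
    δ ^ p ≤ (L + 1) ^ p + B ^ p * max 0 (δ - L) := by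
  have hB0 : 0 ≤ B := h0.trans hB
  rcases le_or_gt δ (L + 1) with h | h
  · have h1 : δ ^ p ≤ (L + 1) ^ p := pow_le_pow_left₀ h0 h p
    have h2 : 0 ≤ B ^ p * max 0 (δ - L) := mul_nonneg (by positivity) (le_max_left _ _)
    linarith
  · have h1 : 1 ≤ max 0 (δ - L) := le_max_of_le_right (by linarith)
    have h2 : δ ^ p ≤ B ^ p := pow_le_pow_left₀ h0 hB p
    have h3 : B ^ p * 1 ≤ B ^ p * max 0 (δ - L) := mul_le_mul_of_nonneg_left h1 (by positivity)
    have h4 : 0 ≤ (L + 1) ^ p := by positivity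
    linarith

end PDIFM

/-- **PDIFM** -/
theorem pdifm (hN : NEARM_Stmt) (hP : PWM_Stmt) : PDIFM_Stmt := by
  intro p
  obtain ⟨K1, hK1⟩ := hN (3 * p + 2)
  refine ⟨K1 + 6 * p + 1, ?_⟩
  intro D hD n f g rho hn hf hcr ht
  have hk := hK1 D hD n f g rho hn hf hcr ht
  have hrho : 0 < rho := hcr.1
  have hn2 : (2 : ℝ) ≤ n := by exact_mod_cast hn
  have hn0 : (0 : ℝ) < n := by linarith
  have hlog : 1 / 2 < Real.log n := by
    have h1 : Real.log 2 ≤ Real.log n := Real.log_le_log (by norm_num) hn2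
    have h2 := Real.log_two_gt_d9
    norm_num at h2 ⊢
    linarith
  have hD0 : 0 < D := by linarith
  have hD1 : 1 ≤ D := by linarith
  set L : ℝ := D ^ K1 * n * Real.log n with hL
  have hL0 : 0 ≤ L := by positivity
  set S := Omm n with hS
  set s := Real.exp (-f) with hs
  have hs0 : 0 < s := Real.exp_pos _
  set dl : QM → ℝ := fun q => |(dm q : ℝ) - (am n q : ℝ)| with hdl
  have hw0 : ∀ q, 0 ≤ wm n s g q := by
    intro q
    unfold wm
    positivity
  have h1 : ∑ q ∈ S, wm n s g q * dl q ^ p ≤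
      ∑ q ∈ S, ((L + 1) ^ p * wm n s g q +
        (36 * (n : ℝ) ^ 3) ^ p * (wm n s g q * max 0 (dl q - L))) := by
    apply sum_le_sum
    intro q hq
    have h2 := PDIFM.pp p (dl q) L (36 * (n : ℝ) ^ 3) (abs_nonneg _) hL0
      (hP n q (by omega) hq)
    have h3 := mul_le_mul_of_nonneg_left h2 (hw0 q)
    refine h3.trans (le_of_eq ?_)
    ring
  rw [sum_add_distrib, ← mul_sum, ← mul_sum] at h1
  have hlog0 : 0 < Real.log n := by linarith
  have hnl : 1 ≤ (n : ℝ) * Real.log n := by nlinarith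
  have hW0 : 0 ≤ ∑ q ∈ S, wm n s g q := sum_nonneg fun q _ => hw0 q
  have hDK : 1 ≤ D ^ K1 := one_le_pow₀ hD1
  have h4 : L + 1 ≤ D ^ (K1 + 6 * p + 1) * n * Real.log n := by
    have e1 : D ^ K1 * 2 ≤ D ^ K1 * D := mul_le_mul_of_nonneg_left hD (by positivity)
    have e2 : D ^ (K1 + 1) ≤ D ^ (K1 + 6 * p + 1) := pow_le_pow_right₀ hD1 (by omega)
    have e3 : D ^ K1 * 2 ≤ D ^ (K1 + 6 * p + 1) := by
      rw [pow_succ] at e2
      linarith
    have e4 : D ^ K1 * 2 * ((n : ℝ) * Real.log n) ≤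
        D ^ (K1 + 6 * p + 1) * ((n : ℝ) * Real.log n) :=
      mul_le_mul_of_nonneg_right e3 (by positivity)
    have e5 : 1 ≤ D ^ K1 * ((n : ℝ) * Real.log n) := by
      nlinarith
    rw [hL]
    nlinarith
  have h5 : (L + 1) ^ p * ∑ q ∈ S, wm n s g q ≤
      (D ^ (K1 + 6 * p + 1) * n * Real.log n) ^ p * ∑ q ∈ S, wm n s g q :=
    mul_le_mul_of_nonneg_right (pow_le_pow_left₀ (by positivity) h4 p) hW0
  have h6 : (36 * (n : ℝ) ^ 3) ^ p * ∑ q ∈ S, wm n s g q * max 0 (dl q - L) ≤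
      D ^ (K1 + 6 * p + 1) / ((n : ℝ) ^ 2 * rho ^ n) := by
    refine (mul_le_mul_of_nonneg_left hk (by positivity)).trans ?_
    have e1 : (36 * (n : ℝ) ^ 3) ^ p * (D ^ K1 / ((n : ℝ) ^ (3 * p + 2) * rho ^ n)) =
        ((36 : ℝ) ^ p * D ^ K1) * (1 / ((n : ℝ) ^ 2 * rho ^ n)) := by
      rw [mul_pow, ← pow_mul, pow_add]
      have hnp : (n : ℝ) ^ (3 * p) ≠ 0 := by positivity
      have hrp : rho ^ n ≠ 0 := by positivity
      field_simp
    rw [e1, div_eq_mul_one_div (D ^ (K1 + 6 * p + 1))]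
    apply mul_le_mul_of_nonneg_right _ (by positivity)
    have e2 : (36 : ℝ) ^ p ≤ D ^ (6 * p) := by
      rw [pow_mul]
      apply pow_le_pow_left₀ (by norm_num)
      calc (36 : ℝ) ≤ 2 ^ 6 := by norm_num
        _ ≤ D ^ 6 := pow_le_pow_left₀ (by norm_num) hD 6
    calc (36 : ℝ) ^ p * D ^ K1 ≤ D ^ (6 * p) * D ^ K1 :=
          mul_le_mul_of_nonneg_right e2 (by positivity)
      _ = D ^ (K1 + 6 * p) := by rw [← pow_add]; congr 1; omega
      _ ≤ D ^ (K1 + 6 * p + 1) := pow_le_pow_right₀ hD1 (by omega)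
  exact h1.trans (add_le_add h5 h6)

end Pool.Agent.TPT
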