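import Pool.Agent.TPT.StmtsC
import Pool.Agent.Lib_helper66.SapR.K4
import Pool.Agent.Lib_helper66.SapR.K5

/-!
# Project TPT: pointwise bound of the error of the area functional (module PWM)
-/

set_option autoImplicit false

namespace Pool.Agent.TPT

open Finset Filter Topology MeasureTheory
open Pool.Agent.Lib27 Pool.Agent.SapR Pool.Agent.AreaLaw Pool.Agent.FL
open Pool.Agent.FS (sc)

namespace PWM

theorem mem_MArch {x : ℤ} {N : ℕ} {a : Wd × ℕ} :
    a ∈ MArch x N ↔ (a.1.length = N ∧ a.2 < N) ∧ Arch x a.1 ∧ 0 < a.2 := by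
  classical
  unfold MArch
  rw [mem_filter, mem_product, mem_words, mem_range]

/-- decomposition of a marked arch which is not a marked cap -/
theorem dec (hK : K2M_Stmt) {r : ℕ} {x : ℤ} {N : ℕ} (hx : 1 ≤ x) (hN : N ≤ r + 2) {a : Wd × ℕ}
    (ha : a ∈ MArch x N) (hc : a ∉ MCap x N) :
    ∃ p ∈ allowed r x, ∃ a' ∈ MArch (x + jump p) (N - (p.1.length + p.2.length)),
      (p.1 ++ a'.1 ++ p.2, p.1.length + a'.2) = a := by
  classical
  by_contra hne
  push Not at hne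
  have h := hK r x N hx hN fun b => if b = a then 1 else 0
  rw [sum_ite_eq' (MArch x N) a, if_pos ha, sum_ite_eq' (MCap x N) a, if_neg hc, zero_add,
    sum_eq_zero] at h
  · exact one_ne_zero h
  · intro p hp
    refine sum_eq_zero fun a' ha' => ?_
    rw [if_neg (hne p hp a' ha')]

/-- the shoelace sum of a marked arch is the integer area up to a multiple of the length -/
theorem near (hK : K2M_Stmt) (hA : ARS_Stmt) (r : ℕ) (n : ℕ) :
    ∀ N : ℕ, N ≤ n → N ≤ r + 2 → ∀ x : ℤ, 1 ≤ x → ∀ a ∈ MArch x N,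
      |dbl 0 a.1 - (ArM r x a : ℤ)| ≤ ((r : ℤ) + 2) ^ 2 * N := by
  induction n with
  | zero =>
    intro N hN _ x hx a ha
    have := (mem_MArch.1 ha).1.2
    omega
  | succ n ih =>
    intro N hN hr x hx a ha
    have ha' := mem_MArch.1 ha
    by_cases hc : a ∈ MCap x N
    · rw [hA.2.1 r x N a hx hr hc, Nat.cast_zero, sub_zero]
      have h1 := H66.abs_dbl_le a.1
      rw [ha'.1.1] at h1
      have h2 : (N : ℤ) ≤ r + 2 := by exact_mod_cast hr
      have h3 : (0 : ℤ) ≤ N := Nat.cast_nonneg _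
      have h4 : (1 : ℤ) ≤ (r : ℤ) + 2 := by omega
      nlinarith
    · obtain ⟨p, hp, a', ha1, e⟩ := dec hK hx hr ha hc
      obtain ⟨hp1, hp2, hp3, hp4⟩ := (M41.mem_allowed _ _ _).1 hp
      have hs := H66.k5size r p hp1
      have ha2 := mem_MArch.1 ha1
      have hAr := hA.1 r x N p a' hx hr hp ha1
      have hdb := H66.k4 x p a'.1 ((M41.mem_Pc _ _).1 hp1).1.1 ha2.2.1.2.1
      rw [← e]
      rw [hAr]
      simp only
      have hi := ih (N - (p.1.length + p.2.length)) (by omega) (by omega) (x + jump p) hp3 a' ha1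
      have hpos : 0 ≤ ht p * (2 * x + jump p) := mul_nonneg (by omega) (by omega)
      have hto : ((ht p * (2 * x + jump p)).toNat : ℤ) = ht p * (2 * x + jump p) :=
        Int.toNat_of_nonneg hpos
      have hoff := hs.2.2.2.2.2.2
      have e2 : dbl 0 (p.1 ++ a'.1 ++ p.2) - ((ArM r (x + jump p) a' +
          (ht p * (2 * x + jump p)).toNat : ℕ) : ℤ) =
          (dbl 0 a'.1 - (ArM r (x + jump p) a' : ℤ)) + off p := by
        rw [hdb]
        push_cast
        rw [hto]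
        ring
      rw [e2]
      have hl2 : ((N - (p.1.length + p.2.length) : ℕ) : ℤ) + 1 ≤ N := by
        have h0 := ha2.1.2
        omega
      have hsq : (0 : ℤ) ≤ ((r : ℤ) + 2) ^ 2 := sq_nonneg _
      calc |(dbl 0 a'.1 - (ArM r (x + jump p) a' : ℤ)) + off p|
          ≤ |dbl 0 a'.1 - (ArM r (x + jump p) a' : ℤ)| + |off p| := abs_add_le _ _
        _ ≤ ((r : ℤ) + 2) ^ 2 * (N - (p.1.length + p.2.length) : ℕ) + ((r : ℤ) + 2) ^ 2 :=
            add_le_add hi hoff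
        _ ≤ ((r : ℤ) + 2) ^ 2 * N := by nlinarith

end PWM

theorem pwm (hK : K2M_Stmt) (_hH : HGM_Stmt) (hA : ARS_Stmt) : PWM_Stmt := by
  classical
  intro n q hn hq
  obtain ⟨x, M, T, w⟩ := q
  unfold Omm at hq
  rw [mem_sigma, mem_sigma, mem_product] at hq
  obtain ⟨hx, hM, hT, hw⟩ := hq
  simp only at hx hM hT hw
  rw [mem_Icc] at hx
  rw [mem_range] at hM
  have h1 := PWM.near hK hA (2 * n - 1) (2 * n - M) (2 * n - M) le_rfl (by omega) x hx.1 w hw
  have hT' : T ∈ MArch x M := by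
    unfold MCap at hT
    exact (mem_filter.1 hT).1
  have h2 := H66.abs_dbl_le T.1
  rw [(PWM.mem_MArch.1 hT').1.1] at h2
  have e1 : ((2 * n - 1 : ℕ) : ℤ) + 2 = 2 * n + 1 := by omega
  rw [e1] at h1
  have h3 : ((2 * n - M : ℕ) : ℤ) ≤ 2 * n := by omega
  have h4 : (M : ℤ) ≤ 2 * n := by omega
  have h5 : (0 : ℤ) ≤ M := Nat.cast_nonneg _
  have hn1 : (1 : ℤ) ≤ n := by exact_mod_cast hn
  have h6 : |dm ⟨x, M, T, w⟩ - (am n ⟨x, M, T, w⟩ : ℤ)| ≤ 36 * (n : ℤ) ^ 3 := by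
    unfold dm am
    simp only
    have h7 : dbl 0 w.1 + dbl 0 T.1 - (ArM (2 * n - 1) x w : ℤ) =
        (dbl 0 w.1 - (ArM (2 * n - 1) x w : ℤ)) + dbl 0 T.1 := by ring
    rw [h7]
    refine (abs_add_le _ _).trans ((add_le_add h1 h2).trans ?_)
    have h8 : (2 * (n : ℤ) + 1) ^ 2 ≤ 9 * (n : ℤ) ^ 2 := by nlinarith
    have h9 : (2 * (n : ℤ) + 1) ^ 2 * ((2 * n - M : ℕ) : ℤ) ≤ 9 * (n : ℤ) ^ 2 * (2 * n) :=
      mul_le_mul h8 h3 (by positivity) (by positivity)
    have h10 : (M : ℤ) ^ 2 ≤ (2 * n) ^ 2 := pow_le_pow_left₀ h5 h4 2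
    have h11 : (n : ℤ) ^ 2 ≤ (n : ℤ) ^ 3 := pow_le_pow_right₀ hn1 (by norm_num)
    nlinarith
  exact_mod_cast h6

end Pool.Agent.TPT
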