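import Pool.Agent.TPT.StmtsC
import Pool.Agent.Lib_helper58.SapR.K1

/-! Module RA of TPT (MP_f6626d_co): the glued words started at the lower mark. -/

set_option autoImplicit false

namespace Pool.Agent.TPT.RA

open Finset Pool.Agent.Lib27 Pool.Agent.SapR Pool.Agent.AreaLaw Pool.Agent.FL
open Pool.Agent.SapR.H58

lemma lat_add (p q : ℤ × ℤ) : lat (p + q) = lat p + lat q := by
  simp only [lat, Prod.fst_add, Prod.snd_add]; ring

lemma lat_neg (p : ℤ × ℤ) : lat (-p) = - lat p := by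
  simp only [lat, Prod.fst_neg, Prod.snd_neg]; ring

open Classical in
lemma mem_MArch (x : ℤ) (N : ℕ) (a : Wd × ℕ) : a ∈ MArch x N ↔
    a.1.length = N ∧ a.2 < N ∧ Arch x a.1 ∧ 0 < a.2 := by
  unfold MArch
  rw [mem_filter, mem_product, mem_words, mem_range]
  tauto

open Classical in
lemma mem_MCap (x : ℤ) (N : ℕ) (a : Wd × ℕ) : a ∈ MCap x N ↔
    a ∈ MArch x N ∧ ∀ h : ℤ, 1 ≤ h → h < mlev a → ¬ Cut (vt 0 a.1) h := by
  unfold MCap
  rw [mem_filter]

/-- the level of the mark is positive -/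
lemma mlev_pos {x : ℤ} {N : ℕ} {a : Wd × ℕ} (ha : a ∈ MArch x N) :
    (mlev a : ℤ) = lev (ep 0 (a.1.take a.2)) ∧ 1 ≤ mlev a := by
  obtain ⟨h1, h2, h3, h4⟩ := (mem_MArch x N a).1 ha
  have h5 := L_pos_of_tail h3.2.2.2 a.2 h4 (by omega)
  unfold L at h5
  unfold mlev
  omega

/-- glued words, abstract form -/
lemma core {x : ℤ} {w A B : Wd} (hx : 1 ≤ x) (hw : Arch x w) (hT : Arch x (A ++ B)) :
    SAPw (rot2 B ++ w ++ rot2 A) ∧
    dbl 0 (rot2 B ++ w ++ rot2 A) = dbl 0 w + dbl 0 (A ++ B) ∧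
    0 < dbl 0 w + dbl 0 (A ++ B) ∧
    ep 0 (rot2 B) = ep 0 A + (x, -x) ∧
    ∀ h : ℤ, cnt (vs 0 (rot2 B ++ w ++ rot2 A)) h =
      cnt (vs 0 w) (h - lev (ep 0 A)) + cnt (vs 0 (A ++ B)) (lev (ep 0 A) - h) := by
  have hc : w ++ rot2 (A ++ B) = (w ++ rot2 A) ++ rot2 B := by
    rw [rot2_append, List.append_assoc]
  have hs : SAPw ((w ++ rot2 A) ++ rot2 B) := by
    rw [← hc]
    exact glue_SAPw (by omega) hw hT
  have hg : rot2 B ++ w ++ rot2 A = rot2 B ++ (w ++ rot2 A) := List.append_assoc _ _ _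
  have hep : ep 0 A + ep 0 B = (-x, x) := by
    have h := hT.2.1
    rw [ep_append, ep_eq (ep 0 A) B, add_comm] at h
    exact h
  have hepl : ep 0 (w ++ rot2 A) = (-x, x) + - ep 0 A := by
    rw [ep_append, ep_eq (ep 0 w), hw.2.1, ep_rot2', add_comm]
  refine ⟨?_, ?_, ?_, ?_, ?_⟩
  · rw [hg]
    exact SAPw_rotate _ _ hs
  · rw [hg, dbl_rotate _ _ hs.1, ← hc, dbl_glue hw.2.1 hT.2.1]
  · rw [← dbl_glue hw.2.1 hT.2.1]
    exact k1pos x w (A ++ B) hx hw hT
  · rw [ep_rot2']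
    have h1 := congrArg Prod.fst hep
    have h2 := congrArg Prod.snd hep
    simp only [Prod.fst_add, Prod.snd_add] at h1 h2
    refine Prod.ext_iff.2 ⟨?_, ?_⟩
    · simp only [Prod.fst_neg, Prod.fst_add]
      linarith
    · simp only [Prod.snd_neg, Prod.snd_add]
      linarith
  · intro h
    rw [hg, H58.cnt_perm (perm_rot _ _ hs.1), cnt_shift, ← hc, cnt_glue hw, hepl]
    have e1 : lev (-((-x, x) + - ep 0 A)) = lev (ep 0 A) := by
      rw [H58.lev_neg, H58.lev_add, H58.lev_neg, lev_gap]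
      ring
    rw [e1]
    congr 2
    ring

lemma vt_take_sub (s : Wd) (i : ℕ) (v : ℤ × ℤ) (hv : v ∈ vt 0 (s.take i)) : v ∈ vt 0 s := by
  have h : vt 0 s = vt 0 (s.take i ++ s.drop i) := by rw [List.take_append_drop]
  rw [h, vt_append']
  exact List.mem_append_left _ hv

/-- no levels with exactly two vertices below the mark -/
lemma no_two {x : ℤ} {N : ℕ} {a : Wd × ℕ} (ha : a ∈ MCap x N) (h : ℤ) (h0 : 0 < h)
    (h1 : h < mlev a) : cnt (vs 0 a.1) h ≠ 2 := by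
  intro h2
  obtain ⟨hm, hcap⟩ := (mem_MCap x N a).1 ha
  obtain ⟨hl1, hl2⟩ := mlev_pos hm
  obtain ⟨-, -, hA, -⟩ := (mem_MArch x N a).1 hm
  apply hcap h (by omega) h1
  have key : ∀ k : ℤ, 0 ≤ k → k ≤ mlev a → 0 < cnt (vt 0 a.1) k := by
    intro k hk1 hk2
    rw [cnt_pos]
    obtain ⟨v, hv1, hv2⟩ := exists_level (a.1.take a.2) 0 k (by rw [H58.lev_zero]; exact hk1)
      (by rw [← hl1]; exact hk2)
    exact ⟨v, vt_take_sub _ _ _ hv1, hv2⟩
  refine ⟨?_, key _ (by omega) (by omega), key _ (by omega) (by omega)⟩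
  rw [arch_cnt_vt hA, h2, if_neg (by omega)]

end Pool.Agent.TPT.RA

namespace Pool.Agent.TPT

open Finset Pool.Agent.Lib27 Pool.Agent.SapR Pool.Agent.AreaLaw Pool.Agent.FL
open Pool.Agent.SapR.H58 Pool.Agent.TPT.RA

theorem ra : RA_Stmt := by
  rintro n ⟨x, M, ⟨T, i⟩, ⟨w, k⟩⟩ hq
  unfold Omm at hq
  simp only [mem_sigma, mem_Icc, mem_range, mem_product] at hq
  obtain ⟨⟨hx1, hx2⟩, hM, hT, hw⟩ := hq
  have hT' := ((mem_MCap x M (T, i)).1 hT).1
  obtain ⟨t1, t2, t3, t4⟩ := (mem_MArch x M (T, i)).1 hT'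
  obtain ⟨w1, w2, w3, w4⟩ := (mem_MArch x (2 * n - M) (w, k)).1 hw
  obtain ⟨lT1, lT2⟩ := mlev_pos hT'
  obtain ⟨lw1, lw2⟩ := mlev_pos hw
  simp only at t1 t2 t3 t4 w1 w2 w3 w4 lT1 lw1
  set A := T.take i with hA
  set B := T.drop i with hB
  have hAB : A ++ B = T := List.take_append_drop _ _
  obtain ⟨c1, c2, c3, c4, c5⟩ := core (A := A) (B := B) hx1 w3 (by rw [hAB]; exact t3)
  rw [hAB] at c2 c3 c5
  have hBl : (rot2 B).length = M - i := by rw [rot2_length, hB, List.length_drop, t1]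
  have hg : gl2 (⟨x, M, (T, i), (w, k)⟩ : QM) = rot2 B ++ w ++ rot2 A := rfl
  have hk : mk2 (⟨x, M, (T, i), (w, k)⟩ : QM) = M - i + k := rfl
  have hd : dm (⟨x, M, (T, i), (w, k)⟩ : QM) = dbl 0 w + dbl 0 T := rfl
  have hz : zl (⟨x, M, (T, i), (w, k)⟩ : QM) = mlev (w, k) + mlev (T, i) := rfl
  have ht : zt (⟨x, M, (T, i), (w, k)⟩ : QM) = mlat x (w, k) + mlat x (T, i) := rfl
  have htk : (rot2 B ++ w ++ rot2 A).take (M - i + k) = rot2 B ++ w.take k := by
    rw [List.append_assoc, ← hBl, List.take_length_add_append,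
      List.take_append_of_le_length (by omega)]
  have ht1 : (rot2 B ++ w ++ rot2 A).take (M - i) = rot2 B := by
    rw [List.append_assoc, ← hBl, List.take_left]
  have ht2 : (rot2 B ++ w ++ rot2 A).take (M - i + w.length) = rot2 B ++ w := by
    rw [← hBl, ← List.length_append, List.take_left]
  have hep : ep 0 (rot2 B ++ w.take k) = ep 0 A + (x, -x) + ep 0 (w.take k) := by
    rw [ep_append, ep_eq (ep 0 (rot2 B)), c4, add_comm]
  have hlx : lev (x, -x) = 0 := by simp [lev]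
  have hlt : lat (x, -x) = 2 * x := by simp only [lat]; ring
  have hT0 : cnt (vs 0 T) 0 = 1 := arch_cnt_zero t3
  have hw0 : cnt (vs 0 w) 0 = 1 := arch_cnt_zero w3
  rw [hg, hk, hd, hz, ht]
  refine ⟨?_, ?_, c2, c3, ?_, ?_, lT2, ?_, ?_, ?_, ?_, ?_, ?_, ?_⟩
  · rw [mem_W]
    refine ⟨?_, c1⟩
    rw [List.length_append, List.length_append, hBl, rot2_length, hA, List.length_take, w1, t1,
      min_eq_left t2.le]
    omega
  · omega
  · rw [htk, hep, H58.lev_add, H58.lev_add, hlx, ← lT1, ← lw1]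
    push_cast
    ring
  · rw [htk, hep, lat_add, lat_add, hlt]
    unfold mlat
    ring
  · show mlev (T, i) < mlev (w, k) + mlev (T, i)
    omega
  · show cnt (vs 0 (rot2 B ++ w ++ rot2 A)) (mlev (T, i) : ℤ) = 2
    rw [c5, ← lT1, sub_self, hw0, hT0]
  · show lev (ep 0 ((rot2 B ++ w ++ rot2 A).take (M - i))) = (mlev (T, i) : ℤ)
    rw [ht1, c4, H58.lev_add, hlx, ← lT1, add_zero]
  · show lev (ep 0 ((rot2 B ++ w ++ rot2 A).take (M - i + w.length))) = (mlev (T, i) : ℤ)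
    rw [ht2, ep_append, ep_eq (ep 0 (rot2 B)), c4, w3.2.1, H58.lev_add, H58.lev_add, hlx, lev_gap,
      ← lT1, add_zero, zero_add]
  · show 0 < M - i
    omega
  · show M - i + w.length < 2 * n
    omega
  · intro h h1 h2
    have h2' : h < (mlev (T, i) : ℤ) := h2
    rw [c5, ← lT1, arch_cnt_neg w3 _ (by omega), zero_add]
    exact no_two hT _ (by omega) (by omega)

end Pool.Agent.TPT
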