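import Pool.Agent.TPT.StmtsC
import Pool.Agent.Lib_helper58.SapR.K1

/-!
# Project TPT, module RB: injectivity of the gluing map

The number of the two junction vertices is read off from the glued word: the level of the junction
is the lowest level strictly between those of the two marks which contains exactly two vertices.
-/

set_option autoImplicit false

namespace Pool.Agent.TPT

open Finset
open Pool.Agent.Lib27 Pool.Agent.SapR Pool.Agent.AreaLaw Pool.Agent.FL

namespace RB

/-- the list of vertices, by their numbers -/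
lemma vs_eq_map (s : Wd) (p : ℤ × ℤ) :
    vs p s = (List.range s.length).map (fun i => ep p (s.take i)) := by
  induction s generalizing p with
  | nil => simp
  | cons d s ih =>
    rw [vs_cons, List.length_cons, List.range_succ_eq_map, List.map_cons, List.map_map, ih]
    simp only [List.take_zero, ep_nil, List.cons.injEq, true_and]
    refine List.map_congr_left fun i _ => ?_
    simp

/-- the number of vertices on a level, by the numbers of the vertices -/
lemma cnt_eq_card (s : Wd) (h : ℤ) :
    cnt (vs 0 s) h = ((range s.length).filter (fun i => lev (ep 0 (s.take i)) = h)).card := by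
  rw [vs_eq_map, cnt, List.countP_map, List.countP_eq_length_filter]
  rfl

/-- if a level contains exactly two vertices then their numbers are determined -/
lemma two_unique (s : Wd) (h : ℤ) (a b a' b' : ℕ) (hc : cnt (vs 0 s) h = 2) (hab : a < b)
    (hab' : a' < b') (hb : b < s.length) (hb' : b' < s.length)
    (h1 : lev (ep 0 (s.take a)) = h) (h2 : lev (ep 0 (s.take b)) = h)
    (h3 : lev (ep 0 (s.take a')) = h) (h4 : lev (ep 0 (s.take b')) = h) :
    a = a' ∧ b = b' := by
  rw [cnt_eq_card] at hc
  have hsub : ∀ c d : ℕ, c < d → d < s.length → lev (ep 0 (s.take c)) = h →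
      lev (ep 0 (s.take d)) = h →
      ({c, d} : Finset ℕ) = (range s.length).filter (fun i => lev (ep 0 (s.take i)) = h) := by
    intro c d hcd hd hc1 hd1
    refine Finset.eq_of_subset_of_card_le ?_ ?_
    · intro e he
      rw [Finset.mem_insert, Finset.mem_singleton] at he
      rw [Finset.mem_filter, Finset.mem_range]
      rcases he with rfl | rfl
      · exact ⟨by omega, hc1⟩
      · exact ⟨hd, hd1⟩
    · rw [hc, Finset.card_pair (by omega)]
  have e : ({a, b} : Finset ℕ) = {a', b'} :=
    (hsub a b hab hb h1 h2).trans (hsub a' b' hab' hb' h3 h4).symm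
  have ha : a ∈ ({a', b'} : Finset ℕ) := by rw [← e]; simp
  have hb0 : b ∈ ({a', b'} : Finset ℕ) := by rw [← e]; simp
  have ha' : a' ∈ ({a, b} : Finset ℕ) := by rw [e]; simp
  have hb1 : b' ∈ ({a, b} : Finset ℕ) := by rw [e]; simp
  rw [Finset.mem_insert, Finset.mem_singleton] at ha hb0 ha' hb1
  omega

lemma rot2_inj {s t : Wd} (h : rot2 s = rot2 t) : s = t := by
  have := congrArg rot2 h
  rwa [H58.rot2_rot2, H58.rot2_rot2] at this

end RB

theorem rb (hA : RA_Stmt) : RB_Stmt := by
  classical
  rintro n ⟨x, M, ⟨T, i⟩, ⟨w, k⟩⟩ ⟨x', M', ⟨T', i'⟩, ⟨w', k'⟩⟩ hq hq' hg hm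
  obtain ⟨hW, -, -, -, -, -, h1, -, h3, h4, h5, h6, h7, h8⟩ := hA n _ hq
  obtain ⟨-, -, -, -, -, -, h1', -, h3', h4', h5', h6', h7', h8'⟩ := hA n _ hq'
  rw [← hg] at h3' h4' h5' h8'
  have hlen := ((mem_W n _).1 hW).1
  simp only [Omm, MCap, MArch, mem_sigma, mem_product, mem_filter, mem_words, mem_range,
    mem_Icc] at hq hq'
  obtain ⟨-, -, ⟨⟨⟨hTl, hi⟩, hTA, hi0⟩, -⟩, ⟨hwl, hk⟩, hwA, hk0⟩ := hq
  obtain ⟨-, -, ⟨⟨⟨hTl', hi'⟩, hTA', hi0'⟩, -⟩, ⟨hwl', hk'⟩, hwA', hk0'⟩ := hq'
  simp only at h1 h3 h4 h5 h6 h7 h8 h1' h3' h4' h5' h6' h7' h8' hwA hwA'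
  -- the levels of the junctions agree
  have hl : mlev (T, i) = mlev (T', i') := by
    rcases lt_trichotomy (mlev (T, i)) (mlev (T', i')) with h | h | h
    · exact absurd h3 (h8' _ (by omega) (by omega))
    · exact h
    · exact absurd h3' (h8 _ (by omega) (by omega))
  -- the numbers of the junction vertices agree
  have hw0 : 0 < w.length := List.length_pos_iff.2 hwA.1
  have hw0' : 0 < w'.length := List.length_pos_iff.2 hwA'.1
  rw [← hl] at h4' h5'
  obtain ⟨ea, eb⟩ := RB.two_unique _ _ (M - i) (M - i + w.length) (M' - i')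
    (M' - i' + w'.length) h3 (by omega) (by omega) (by omega) (by omega) h4 h5 h4' h5'
  -- the pieces agree
  have hg' : rot2 (T.drop i) ++ w ++ rot2 (T.take i) =
      rot2 (T'.drop i') ++ w' ++ rot2 (T'.take i') := hg
  obtain ⟨e1, e2⟩ := List.append_inj hg' (by
    simp only [List.length_append, H58.rot2_length, List.length_drop]
    omega)
  obtain ⟨e3, e4⟩ := List.append_inj e1 (by
    simp only [H58.rot2_length, List.length_drop]
    omega)
  have e5 := RB.rot2_inj e2
  have e6 := RB.rot2_inj e3
  have e7 : T = T' := by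
    rw [← List.take_append_drop i T, ← List.take_append_drop i' T', e5, e6]
  have e8 : M = M' := by rw [← hTl, ← hTl', e7]
  have e9 : i = i' := by omega
  have e10 : k = k' := by
    simp only [mk2] at hm
    omega
  have e11 : x = x' := by
    have h9 := hwA.2.1
    rw [e4, hwA'.2.1, Prod.ext_iff] at h9
    exact h9.2.symm
  subst e4 e7 e8 e9 e10 e11
  rfl

end Pool.Agent.TPT
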