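import Pool.Agent.TPT.StmtsC
import Pool.Agent.Lib_helper58.SapR.K1

/-!
# Project TPT: module RC (decomposition of a polygon word with a marked vertex)
-/

set_option autoImplicit false

namespace Pool.Agent.TPT

open Finset Pool.Agent.Lib27 Pool.Agent.SapR Pool.Agent.AreaLaw Pool.Agent.FL

namespace RC

open Pool.Agent.SapR.H58 (L L_zero L_succ L_length vt_take L_glue_left L_glue_right
  tail_of_L_pos rot2_length rot2_rot2 rot2_append ep_rot2' vs_rot2' cnt_eq cut_glue_neg
  dbl_glue_sign dbl_rotate gap_le_length cut_rot)

/-- the decomposition of a word with one excursion above the level of the origin, followed by one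
below it (second half of the proof of `canon_decomp`) -/
theorem decomp (c : Wd) (hS : SAPw c) (m : ℕ) (hm0 : 0 < m) (hm : m < c.length)
    (hLm : L c m = 0) (hpos : ∀ j, 0 < j → j < m → 0 < L c j)
    (hneg : ∀ j, m < j → j < c.length → L c j < 0) :
    ∃ x : ℤ, x ≠ 0 ∧ Arch x (c.take m) ∧ Arch x (rot2 (c.drop m)) := by
  set w := c.take m with hw
  set B := c.drop m with hB
  set T := rot2 B with hT
  have hcw : c = w ++ rot2 T := by rw [hT, rot2_rot2, hw, hB, List.take_append_drop]
  have hwl : w.length = m := by rw [hw, List.length_take]; omega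
  have hBl : B.length = c.length - m := by rw [hB, List.length_drop]
  have hTl : T.length = c.length - m := by rw [hT, rot2_length, hBl]
  set x := (ep 0 w).2 with hx
  have hlevw : lev (ep 0 w) = 0 := hLm
  have hepw : ep 0 w = (-x, x) := by
    rw [Prod.ext_iff]
    simp only [lev] at hlevw
    refine ⟨?_, rfl⟩
    simp only
    linarith
  have hepB : ep 0 B = - ep 0 w := by
    have h1 : ep 0 (w ++ B) = 0 := by rw [hw, hB, List.take_append_drop]; exact hS.1
    rw [ep_append, ep_eq] at h1
    exact eq_neg_of_add_eq_zero_left h1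
  have hepT : ep 0 T = (-x, x) := by
    rw [hT, ep_rot2', hepB, neg_neg, hepw]
  have hx0 : x ≠ 0 := by
    intro h0
    have h1 : ep 0 (c.take m) = ep 0 (c.take 0) := by
      rw [← hw, hepw, h0]; simp
    have := vertex_inj c hS m 0 hm (by omega) h1
    omega
  refine ⟨x, hx0, ⟨?_, hepw, ?_, ?_⟩, ⟨?_, hepT, ?_, ?_⟩⟩
  · intro h
    rw [h] at hwl
    simp at hwl
    omega
  · rw [hw, vt_take c m hm]
    exact hS.2.sublist (List.take_sublist _ _)
  · apply tail_of_L_pos
    intro j h0 h1
    rw [hwl] at h1
    have h2 := hpos j h0 h1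
    rw [hcw, L_glue_left j (by omega)] at h2
    exact h2
  · intro h
    rw [h] at hTl
    simp at hTl
    omega
  · have h1 : SAPw (B ++ w) := by
      apply SAPw_rotate
      rw [hw, hB, List.take_append_drop]
      exact hS
    have h2 := vt_take (B ++ w) B.length (by rw [List.length_append]; omega)
    rw [List.take_left] at h2
    have h3 : (vt 0 B).Nodup := by
      rw [h2]
      exact h1.2.sublist (List.take_sublist _ _)
    have h4 : vt 0 T = (vt 0 B).map Neg.neg := by
      unfold vt
      rw [hT, vs_rot2', ep_rot2']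
      simp
    rw [h4]
    exact h3.map neg_injective
  · apply tail_of_L_pos
    intro j h0 h1
    rw [hTl] at h1
    have h2 := hneg (w.length + j) (by omega) (by omega)
    rw [hcw, L_glue_right hepw] at h2
    omega

/-- discrete continuity of the level -/
theorem stay_gt (s : Wd) (h : ℤ) (a b : ℕ) (hb : b ≤ s.length) (ha : h < L s a)
    (hne : ∀ k, a ≤ k → k ≤ b → L s k ≠ h) : ∀ k, a ≤ k → k ≤ b → h < L s k := by
  intro k hk
  induction k, hk using Nat.le_induction with
  | base => intro _; exact ha
  | succ k hk ih =>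
    intro hkb
    have h1 := ih (by omega)
    have h2 := L_succ s k (by omega)
    have h3 := hne (k + 1) (by omega) hkb
    rcases Pool.Agent.SapR.lev_dv (s.getD k 0) with h4 | h4 <;> rw [h4] at h2 <;> omega

theorem stay_lt (s : Wd) (h : ℤ) (a b : ℕ) (hb : b ≤ s.length) (ha : L s a < h)
    (hne : ∀ k, a ≤ k → k ≤ b → L s k ≠ h) : ∀ k, a ≤ k → k ≤ b → L s k < h := by
  intro k hk
  induction k, hk using Nat.le_induction with
  | base => intro _; exact ha
  | succ k hk ih =>
    intro hkb
    have h1 := ih (by omega)
    have h2 := L_succ s k (by omega)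
    have h3 := hne (k + 1) (by omega) hkb
    rcases Pool.Agent.SapR.lev_dv (s.getD k 0) with h4 | h4 <;> rw [h4] at h2 <;> omega

/-- the two visits of a level with exactly two vertices between the levels of the origin and of the
mark -/
theorem two_visits (w : Wd) (hw : ep 0 w = 0) (j : ℕ) (hj : j < w.length) (h : ℤ) (h0 : 0 < h)
    (hz : h < L w j) (hc : cnt (vs 0 w) h = 2) :
    ∃ i₁ i₂ : ℕ, 0 < i₁ ∧ i₁ < j ∧ j < i₂ ∧ i₂ < w.length ∧ L w i₁ = h ∧ L w i₂ = h ∧
      (∀ k, k < i₁ → L w k < h) ∧ (∀ k, i₁ < k → k < i₂ → h < L w k) ∧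
      ∀ k, i₂ < k → k ≤ w.length → L w k < h := by
  have hL0 : L w 0 = 0 := L_zero w
  have hLl : L w w.length = 0 := L_length w hw
  have e1 : ∃ k, k ≤ j ∧ L w k = h := by
    by_contra hcon
    push Not at hcon
    have := stay_lt w h 0 j hj.le (by omega) (fun k _ hk => hcon k hk) j (Nat.zero_le _) le_rfl
    omega
  have e2 : ∃ k, j ≤ k ∧ k ≤ w.length ∧ L w k = h := by
    by_contra hcon
    push Not at hcon
    have := stay_gt w h j w.length le_rfl hz (fun k hk hk' => hcon k hk hk') w.length hj.le le_rfl
    omega
  obtain ⟨i₁, hi1, hLi1⟩ := e1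
  obtain ⟨i₂, hi2, hi2', hLi2⟩ := e2
  have n1 : 0 < i₁ := by
    rcases Nat.eq_zero_or_pos i₁ with h1 | h1
    · subst h1; omega
    · exact h1
  have n2 : i₁ ≠ j := by rintro rfl; omega
  have n3 : i₂ ≠ j := by rintro rfl; omega
  have n4 : i₂ ≠ w.length := by
    intro h1
    rw [h1, hLl] at hLi2
    omega
  have huniq : ∀ k, k < w.length → L w k = h → k = i₁ ∨ k = i₂ := by
    intro k hk hLk
    by_contra hne
    push Not at hne
    rw [cnt_eq] at hc
    have hsub : ({k, i₁, i₂} : Finset ℕ) ⊆ (range w.length).filter (fun j => L w j = h) := by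
      intro x hx
      simp only [mem_insert, mem_singleton] at hx
      rw [mem_filter, mem_range]
      rcases hx with rfl | rfl | rfl
      · exact ⟨hk, hLk⟩
      · exact ⟨by omega, hLi1⟩
      · exact ⟨by omega, hLi2⟩
    have h3 : ({k, i₁, i₂} : Finset ℕ).card = 3 := by
      rw [card_insert_of_notMem, card_insert_of_notMem, card_singleton]
      · rw [mem_singleton]; omega
      · simp only [mem_insert, mem_singleton, not_or]
        exact hne
    have := card_le_card hsub
    omega
  refine ⟨i₁, i₂, n1, by omega, by omega, by omega, hLi1, hLi2, ?_, ?_, ?_⟩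
  · intro k hk
    refine stay_lt w h 0 (i₁ - 1) (by omega) (by omega) (fun k' _ hk' he => ?_) k
      (Nat.zero_le _) (by omega)
    rcases huniq k' (by omega) he with h1 | h1 <;> omega
  · intro k hk hk'
    by_contra hcon
    have hne : L w k ≠ h := by
      intro he
      rcases huniq k (by omega) he with h1 | h1 <;> omega
    rcases le_total k j with h2 | h2
    · have := stay_lt w h k j hj.le (by omega) (fun k' h3 h4 he => by
        rcases huniq k' (by omega) he with h1 | h1 <;> omega) j h2 le_rfl
      omega
    · have := stay_gt w h j k (by omega) hz (fun k' h3 h4 he => by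
        rcases huniq k' (by omega) he with h1 | h1 <;> omega) k h2 le_rfl
      omega
  · intro k hk hk'
    by_contra hcon
    have hne : ∀ k', k ≤ k' → k' ≤ w.length → L w k' ≠ h := by
      intro k' h1 h2 he
      rcases h2.eq_or_lt with h3 | h3
      · rw [h3, hLl] at he; omega
      · rcases huniq k' h3 he with h1 | h1 <;> omega
    have h3 := hne k le_rfl hk'
    have := stay_gt w h k w.length le_rfl (by omega) hne w.length hk' le_rfl
    omega

theorem L_rot_left (w : Wd) (i k : ℕ) (h : i + k ≤ w.length) :
    L (w.drop i ++ w.take i) k = L w (i + k) - L w i := by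
  unfold H58.L
  rw [List.take_append_of_le_length (by rw [List.length_drop]; omega), List.take_add,
    ep_append0, lev_add]
  ring

theorem ep_drop (w : Wd) (hw : ep 0 w = 0) (i : ℕ) : ep 0 (w.drop i) = - ep 0 (w.take i) := by
  have h1 : ep 0 (w.take i ++ w.drop i) = 0 := by rw [List.take_append_drop]; exact hw
  rw [ep_append0] at h1
  exact eq_neg_of_add_eq_zero_right h1

theorem L_rot_right (w : Wd) (hw : ep 0 w = 0) (i k : ℕ) (_hi : i ≤ w.length) (hk : k ≤ i) :
    L (w.drop i ++ w.take i) (w.length - i + k) = L w k - L w i := by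
  unfold H58.L
  have h1 : w.length - i + k = (w.drop i).length + k := by rw [List.length_drop]
  rw [h1, List.take_length_add_append, List.take_take, min_eq_left hk, ep_append0, lev_add,
    ep_drop w hw, lev_neg]
  ring

end RC

open RC in
open Pool.Agent.SapR.H58 (L L_zero L_succ L_length rot2_length rot2_rot2 rot2_append ep_rot2'
  cut_glue_neg dbl_glue_sign dbl_rotate gap_le_length cut_rot) in
theorem rc : RC_Stmt := by
  classical
  intro n w j hwW hj hno hdbl
  obtain ⟨hlen, hS⟩ := (mem_W n w).1 hwW
  -- the lowest level with two vertices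
  have hex : ∃ h : ℤ, 0 < h ∧ h < lev (ep 0 (w.take j)) ∧ cnt (vs 0 w) h = 2 := by
    unfold NoBl at hno
    push Not at hno
    exact hno
  obtain ⟨h, ⟨hh0, hhz, hc⟩, hmin⟩ := Int.exists_least_of_bdd
    (P := fun h : ℤ => 0 < h ∧ h < lev (ep 0 (w.take j)) ∧ cnt (vs 0 w) h = 2)
    ⟨0, fun z hz => hz.1.le⟩ hex
  obtain ⟨i₁, i₂, h1, h2, h3, h4, hL1, hL2, ha, hb, hcc⟩ :=
    two_visits w hS.1 j (by omega) h hh0 hhz hc
  -- the rotated word
  set c : Wd := w.drop i₁ ++ w.take i₁ with hcdef
  set m : ℕ := i₂ - i₁ with hmdef
  have hcS : SAPw c := by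
    rw [hcdef]
    apply SAPw_rotate
    rw [List.take_append_drop]
    exact hS
  have hclen : c.length = 2 * n := by
    rw [hcdef, List.length_append, List.length_drop, List.length_take]
    omega
  obtain ⟨x, hx0, hwA, hTA⟩ := decomp c hcS m (by omega) (by omega) (by
      rw [hcdef, L_rot_left w i₁ m (by omega), show i₁ + m = i₂ by omega, hL1, hL2, sub_self])
    (by
      intro k hk hk'
      rw [hcdef, L_rot_left w i₁ k (by omega), hL1]
      have := hb (i₁ + k) (by omega) (by omega)
      omega)
    (by
      intro k hk hk'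
      rcases le_total (i₁ + k) w.length with h5 | h5
      · rw [hcdef, L_rot_left w i₁ k h5, hL1]
        have := hcc (i₁ + k) (by omega) h5
        omega
      · obtain ⟨k', rfl⟩ : ∃ k', k = w.length - i₁ + k' := ⟨k - (w.length - i₁), by omega⟩
        rw [hcdef, L_rot_right w hS.1 i₁ k' (by omega) (by omega), hL1]
        have := ha k' (by omega)
        omega)
  -- the pieces
  set A : Wd := w.take i₁ with hA
  set w' : Wd := (w.drop i₁).take m with hw'
  set B : Wd := w.drop i₂ with hB
  have hAl : A.length = i₁ := by rw [hA, List.length_take]; omega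
  have hBl : B.length = 2 * n - i₂ := by rw [hB, List.length_drop, hlen]
  have hw'l : w'.length = m := by
    rw [hw', List.length_take, List.length_drop]
    omega
  have hct : c.take m = w' := by
    rw [hcdef, List.take_append_of_le_length (by rw [List.length_drop]; omega)]
  have hcd : c.drop m = B ++ A := by
    rw [hcdef, List.drop_append_of_le_length (by rw [List.length_drop]; omega), List.drop_drop,
      show i₁ + m = i₂ by omega]
  rw [hct] at hwA
  rw [hcd] at hTA
  have hww : w = A ++ w' ++ B := by
    have e1 : w.drop i₁ = w' ++ B := by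
      rw [hw', hB, show i₂ = i₁ + m by omega, ← List.drop_drop, List.take_append_drop]
    rw [List.append_assoc, ← e1, hA, List.take_append_drop]
  set T : Wd := rot2 (B ++ A) with hT
  have hTl : T.length = 2 * n - i₂ + i₁ := by
    rw [hT, rot2_length, List.length_append, hBl, hAl]
  have hTt : T.take B.length = rot2 B := by
    rw [hT, rot2_append]
    have : B.length = (rot2 B).length := (rot2_length B).symm
    rw [this, List.take_left]
  have hTd : T.drop B.length = rot2 A := by
    rw [hT, rot2_append]
    have : B.length = (rot2 B).length := (rot2_length B).symm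
    rw [this, List.drop_left]
  have hcw : c = w' ++ rot2 T := by
    rw [hT, rot2_rot2, ← hct, ← hcd, List.take_append_drop]
  -- the gap is positive
  have hdc : dbl 0 c = dbl 0 w := by
    rw [hcdef, dbl_rotate _ _ (by rw [List.take_append_drop]; exact hS.1), List.take_append_drop]
  have hx1 : 1 ≤ x := by
    rcases dbl_glue_sign hwA hTA hx0 with h5 | h5
    · exact h5.1
    · rw [← hcw, hdc] at h5
      omega
  have hx2 : x ≤ 2 * n := by
    have h5 := gap_le_length 0 w'
    rw [hwA.2.1] at h5
    simp only [Prod.fst_zero, Prod.snd_zero] at h5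
    have h6 : (w'.length : ℤ) ≤ 2 * n := by
      rw [hw'l]
      omega
    linarith
  -- the mark of the cap
  have hmlev : (mlev (T, B.length) : ℤ) = h := by
    unfold mlev
    rw [hTt, ep_rot2', hB, ep_drop w hS.1 i₂, neg_neg]
    have : lev (ep 0 (w.take i₂)) = h := hL2
    rw [this]
    omega
  refine ⟨⟨x, T.length, (T, B.length), (w', j - i₁)⟩, ?_, ?_, ?_⟩
  · unfold Omm
    rw [mem_sigma, mem_sigma, mem_product]
    refine ⟨?_, ?_, ?_, ?_⟩
    · rw [mem_Icc]
      exact ⟨hx1, hx2⟩
    · rw [mem_range]
      change T.length < 2 * n + 1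
      omega
    · change (T, B.length) ∈ MCap x T.length
      unfold MCap MArch
      rw [mem_filter, mem_filter, mem_product, mem_words, mem_range]
      refine ⟨⟨⟨rfl, by change B.length < T.length; omega⟩, hTA, by change 0 < B.length; omega⟩,
        ?_⟩
      intro k hk1 hk2 hcut
      rw [hmlev] at hk2
      have h5 := (cut_glue_neg hwA hTA k hk1).2 hcut
      rw [← hcw, hcdef, cut_rot _ _ (by rw [List.take_append_drop]; exact hS.1),
        List.take_append_drop] at h5
      have h6 : lev (ep 0 A) = h := hL1
      rw [h6] at h5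
      have h7 := hmin (-k + h) ⟨by omega, by omega, h5.1⟩
      omega
    · change (w', j - i₁) ∈ MArch x (2 * n - T.length)
      unfold MArch
      rw [mem_filter, mem_product, mem_words, mem_range]
      refine ⟨⟨by change w'.length = _; omega, by change j - i₁ < _; omega⟩, hwA,
        by change 0 < j - i₁; omega⟩
  · unfold gl2
    change rot2 (T.drop B.length) ++ w' ++ rot2 (T.take B.length) = w
    rw [hTd, hTt, rot2_rot2, rot2_rot2, ← hww]
  · unfold mk2
    change (T.length - B.length) + (j - i₁) = j
    omega

end Pool.Agent.TPT
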