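import Pool.Agent.TPT.StmtsC
import Pool.Agent.Lib_helper58.SapR.K1
import Pool.Agent.Lib_helper89.FL.TR

/-!
# Project TPT (MP_f6626d_co): module RD
-/

set_option autoImplicit false

namespace Pool.Agent.TPT.RD

open Finset Filter Topology MeasureTheory
open Pool.Agent.Lib27 Pool.Agent.SapR Pool.Agent.SapR.H58 Pool.Agent.AreaLaw Pool.Agent.FL
open Pool.Agent.FS (sc)

/-! ### transfer to lists -/

lemma countP_range (m : ℕ) (f : ℕ → ℤ × ℤ) (h : ℤ) :
    cnt ((List.range m).map f) h = ((range m).filter (fun i => lev (f i) = h)).card := by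
  induction m with
  | zero => simp
  | succ m ih =>
    rw [List.range_succ, List.map_append, SapR.cnt_append, ih, Finset.range_add_one, filter_insert]
    simp only [List.map_cons, List.map_nil, cnt_cons, cnt_nil, add_zero]
    split_ifs with h1
    · rw [card_insert_of_notMem (by simp)]
    · rfl

lemma vs_range (w : Wd) : vs 0 w = (List.range w.length).map (fun i => ep 0 (w.take i)) := by
  apply List.ext_getElem
  · simp
  · intro i h1 h2
    rw [vs_getElem]
    simp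

lemma scnt_eq (n : ℕ) (s : Fin (2 * n) → Fin 4) (h : ℤ) :
    scnt n s h = cnt (vs 0 (List.ofFn s)) h := by
  rw [vs_range, countP_range, List.length_ofFn]
  unfold scnt slev
  congr 1
  apply filter_congr
  intro i hi
  rw [mem_range] at hi
  rw [pos_eq n s i hi.le]

lemma nob_iff (n : ℕ) (s : Fin (2 * n) → Fin 4) (j : ℕ) (hj : j < 2 * n) :
    NoB n s j ↔ NoBl (List.ofFn s) j := by
  unfold NoB NoBl slev
  simp only [scnt_eq, pos_eq n s j hj.le]

/-! ### reversal -/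

lemma rv_take (w : Wd) (j : ℕ) (hj : j ≤ w.length) :
    (rv w).take (w.length - j) = rv (w.drop j) := by
  unfold rv
  rw [List.take_reverse, List.length_map, Nat.sub_sub_self hj, List.map_drop]

lemma ep_rv_take (w : Wd) (hw : ep 0 w = 0) (j : ℕ) (hj : j ≤ w.length) :
    ep 0 ((rv w).take (w.length - j)) = ep 0 (w.take j) := by
  rw [rv_take w j hj, ep_rv']
  have h : ep 0 (w.take j ++ w.drop j) = 0 := by rw [List.take_append_drop, hw]
  rw [ep_append0] at h
  exact (eq_neg_of_add_eq_zero_left h).symm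

lemma nobl_rv (w : Wd) (hw : ep 0 w = 0) (j : ℕ) (hj : j ≤ w.length) :
    NoBl (rv w) (w.length - j) ↔ NoBl w j := by
  unfold NoBl
  simp only [ep_rv_take w hw j hj, SapR.cnt_perm (vs_rv_perm w hw)]

lemma pos_of_not (w : Wd) (j : ℕ) (h : ¬ NoBl w j) : 0 < j := by
  rcases Nat.eq_zero_or_pos j with rfl | hj
  · exfalso
    apply h
    intro k h1 h2
    simp only [List.take_zero, ep_nil, SapR.lev_zero] at h2
    omega
  · exact hj

lemma rv_W (n : ℕ) (w : Wd) (hw : w ∈ W n) : rv w ∈ W n := by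
  rw [mem_W] at hw ⊢
  exact ⟨by rw [rv_length, hw.1], SAPw_rv w hw.2⟩

/-- all the levels between the origin and the mark are visited -/
lemma visit (w : Wd) (j : ℕ) (hj : j < w.length) (k : ℤ) (h0 : 0 ≤ k)
    (h1 : k ≤ lev (ep 0 (w.take j))) : 0 < cnt (vs 0 w) k := by
  obtain ⟨v, hv, hvk⟩ := exists_level (w.take j) 0 k (by simpa using h0) h1
  rw [cnt_pos]
  refine ⟨v, ?_, hvk⟩
  unfold vt at hv
  rw [List.mem_append, List.mem_singleton] at hv
  rcases hv with hv | hv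
  · have h2 : vs 0 (w.take j ++ w.drop j) = vs 0 (w.take j) ++ vs (ep 0 (w.take j)) (w.drop j) :=
      vs_append _ _ _
    rw [List.take_append_drop] at h2
    rw [h2]
    exact List.mem_append_left _ hv
  · rw [hv]
    exact vertex_mem w j hj

lemma dbl_ne (n : ℕ) (hn : 1 ≤ n) (w : Wd) (hw : w ∈ W n) (j : ℕ) (hj : j < 2 * n)
    (h : ¬ NoBl w j) : dbl 0 w ≠ 0 := by
  classical
  have hl := ((mem_W n w).1 hw).1
  apply dbl_ne_zero (2 * n - 1) n (by omega) w
  unfold Fam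
  rw [mem_filter]
  refine ⟨hw, (TR.short_iff_cut n hn w hw).2 ?_⟩
  unfold NoBl at h
  push Not at h
  obtain ⟨k, h1, h2, h3⟩ := h
  intro hc
  apply hc k
  exact ⟨h3, visit w j (by omega) _ (by omega) (by omega), visit w j (by omega) _ (by omega)
    (by omega)⟩

/-- the value at a pair -/
def vl (F : ℤ → ℤ → ℤ → ℝ) (p : Wd × ℕ) : ℝ :=
  F |dbl 0 p.1| (lev (ep 0 (p.1.take p.2))) (lat (ep 0 (p.1.take p.2)))

open Classical in
/-- the pairs -/
noncomputable def Pr (n : ℕ) : Finset (Wd × ℕ) :=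
  ((W n) ×ˢ (range (2 * n))).filter (fun p => ¬ NoBl p.1 p.2)

lemma mem_Pr (n : ℕ) (p : Wd × ℕ) : p ∈ Pr n ↔ (p.1 ∈ W n ∧ p.2 < 2 * n) ∧ ¬ NoBl p.1 p.2 := by
  classical
  unfold Pr
  rw [mem_filter, mem_product, mem_range]

lemma step1 (n : ℕ) (F : ℤ → ℤ → ℤ → ℝ) [∀ s : Fin (2 * n) → Fin 4,
      DecidablePred (fun j => ¬ NoB n s j)] :
    ∑ w ∈ SAP n, ∑ j ∈ (range (2 * n)).filter (fun j => ¬ NoB n w j),
      F |dbl 0 (List.ofFn w)| (slev n w j) (lat (pos n w j)) = ∑ p ∈ Pr n, vl F p := by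
  classical
  have h1 : ∀ w ∈ SAP n, ∑ j ∈ (range (2 * n)).filter (fun j => ¬ NoB n w j),
      F |dbl 0 (List.ofFn w)| (slev n w j) (lat (pos n w j)) =
      (fun l : Wd => ∑ j ∈ (range (2 * n)).filter (fun j => ¬ NoBl l j), vl F (l, j))
        (List.ofFn w) := by
    intro w _
    simp only
    have e : (range (2 * n)).filter (fun j => ¬ NoB n w j) =
        (range (2 * n)).filter (fun j => ¬ NoBl (List.ofFn w) j) := by
      apply filter_congr
      intro j hj
      rw [mem_range] at hj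
      rw [nob_iff n w j hj]
    rw [e]
    apply sum_congr rfl
    intro j hj
    have hj' : j < 2 * n := mem_range.1 (mem_filter.1 hj).1
    unfold vl slev
    rw [pos_eq n w j hj'.le]
  rw [sum_congr rfl h1,
    sum_SAP n (fun l : Wd => ∑ j ∈ (range (2 * n)).filter (fun j => ¬ NoBl l j), vl F (l, j))]
  unfold Pr
  rw [sum_filter, sum_product]
  apply sum_congr rfl
  intro l _
  rw [sum_filter]

open Classical in
/-- the reversal gives the factor `2` -/
lemma step2 (n : ℕ) (hn : 1 ≤ n) (F : ℤ → ℤ → ℤ → ℝ) :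
    ∑ p ∈ Pr n, vl F p = 2 * ∑ p ∈ (Pr n).filter (fun p => 0 < dbl 0 p.1), vl F p := by
  set G : Wd × ℕ → ℝ := fun p => if 0 < dbl 0 p.1 then vl F p else 0 with hG
  set R : Wd × ℕ → Wd × ℕ := fun p => (rv p.1, 2 * n - p.2) with hR
  have hval : ∀ p ∈ Pr n, vl F (R p) = vl F p := by
    intro p hp
    rw [mem_Pr] at hp
    obtain ⟨⟨hw, hj⟩, -⟩ := hp
    obtain ⟨hl, hs⟩ := (mem_W n p.1).1 hw
    unfold vl
    simp only [hR, dbl_rv', abs_neg]
    rw [← hl, ep_rv_take p.1 hs.1 p.2 (by omega)]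
  have hmem : ∀ p ∈ Pr n, R p ∈ Pr n := by
    intro p hp
    rw [mem_Pr] at hp ⊢
    obtain ⟨⟨hw, hj⟩, hN⟩ := hp
    obtain ⟨hl, hs⟩ := (mem_W n p.1).1 hw
    have h0 := pos_of_not p.1 p.2 hN
    refine ⟨⟨rv_W n p.1 hw, by simp only [hR]; omega⟩, ?_⟩
    simp only [hR]
    rw [← hl, nobl_rv p.1 hs.1 p.2 (by omega)]
    exact hN
  have hinv : ∀ p ∈ Pr n, R (R p) = p := by
    intro p hp
    rw [mem_Pr] at hp
    obtain ⟨⟨hw, hj⟩, -⟩ := hp
    simp only [hR, rv_rv]
    ext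
    · rfl
    · simp only
      omega
  have e1 : ∀ p ∈ Pr n, vl F p = G p + G (R p) := by
    intro p hp
    have hv := hval p hp
    have hp' := (mem_Pr n p).1 hp
    have hne := dbl_ne n hn p.1 hp'.1.1 p.2 hp'.1.2 hp'.2
    simp only [hG]
    rw [hv]
    simp only [hR, dbl_rv']
    rcases lt_or_gt_of_ne hne with h | h
    · rw [if_neg (by omega), if_pos (by omega), zero_add]
    · rw [if_pos h, if_neg (by omega), add_zero]
  rw [sum_congr rfl e1, sum_add_distrib]
  have e2 : ∑ p ∈ Pr n, G (R p) = ∑ p ∈ Pr n, G p :=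
    sum_nbij' R R hmem hmem hinv hinv (fun _ _ => rfl)
  rw [e2, sum_filter]
  simp only [hG]
  ring

end Pool.Agent.TPT.RD

namespace Pool.Agent.TPT

open Finset Filter Topology MeasureTheory
open Pool.Agent.Lib27 Pool.Agent.SapR Pool.Agent.SapR.H58 Pool.Agent.AreaLaw Pool.Agent.FL
open Pool.Agent.TPT.RD

/-- RD -/
theorem rd : RD_Stmt := by
  classical
  intro hRA hRB hRC n hn F
  rw [step1 n F, step2 n hn F]
  congr 1
  symm
  refine sum_nbij (fun q => (gl2 q, mk2 q)) ?_ ?_ ?_ ?_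
  · intro q hq
    obtain ⟨h1, h2, h3, h4, h5, -, h7, h8, h9, -⟩ := hRA n q hq
    rw [mem_filter, mem_Pr]
    refine ⟨⟨⟨h1, h2⟩, ?_⟩, by rw [h3]; exact h4⟩
    intro hN
    refine hN (mlev q.2.2.1) (by exact_mod_cast h7) ?_ h9
    simp only
    rw [h5]
    exact_mod_cast h8
  · intro q hq q' hq' heq
    rw [Prod.mk.injEq] at heq
    exact hRB n q q' hq hq' heq.1 heq.2
  · rintro ⟨w, j⟩ hp
    rw [mem_coe, mem_filter, mem_Pr] at hp
    obtain ⟨⟨⟨h1, h2⟩, h3⟩, h4⟩ := hp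
    obtain ⟨q, hq, e1, e2⟩ := hRC n w j h1 h2 h3 h4
    exact ⟨q, hq, by simp only [e1, e2]⟩
  · intro q hq
    obtain ⟨-, -, h3, h4, h5, h6, -⟩ := hRA n q hq
    unfold vl
    simp only
    rw [h3, abs_of_pos h4, h5, h6]

end Pool.Agent.TPT
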