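import Pool.Agent.TPT.K2M
import Pool.Agent.TPT.HGM
import Pool.Agent.TPT.ARS
import Pool.Agent.TPT.RA
import Pool.Agent.TPT.RB
import Pool.Agent.TPT.RC
import Pool.Agent.TPT.RD
import Pool.Agent.TPT.PWM
import Pool.Agent.TPT.NEARM
import Pool.Agent.TPT.PDIFM
import Pool.Agent.TPT.KWM
import Pool.Agent.TPG.TMG
import Pool.Agent.Lib_helper89.FL.HG

/-!
# Project TPT: the combinatorial part and the mass gap part, without hypotheses
-/

set_option autoImplicit false

namespace Pool.Agent.TPT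

theorem t_ars : ARS_Stmt := ars k2m hgm

theorem t_root : ROOT_Stmt := rd ra (rb ra) rc

theorem t_pdifm : PDIFM_Stmt := pdifm (nearm k2m hgm t_ars) (pwm k2m hgm t_ars)

theorem t_kwm : KWM_Stmt := t_KWM k2m hgm t_ars Pool.Agent.FL.hg

theorem t_tmg : TMG_Stmt := Pool.Agent.TPG.tmg

end Pool.Agent.TPT
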