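import Pool.Agent.TPT.StmtsA

/-!
# TPT_PARM : the parameters of the kernels are Lipschitz in the force
-/

set_option autoImplicit false

namespace Pool.Agent.TPT

open Finset Filter Topology MeasureTheory
open Pool.Agent.Lib27 Pool.Agent.SapR Pool.Agent.AreaLaw Pool.Agent.FL

namespace PARMaux

lemma wp_pos {s g rho : ℝ} (hs : 0 < s) (hr : 0 < rho) (p : Wd × Wd) : 0 < wp s g rho p :=
  mul_pos (mul_pos (pow_pos hr _) (pow_pos hs _)) (Real.exp_pos _)

lemma nonempty_of {n : ℕ} {s g a : ℝ} (h1 : CritM n s g a) : (Pc (2 * n - 1)).Nonempty := by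
  by_contra hE
  rw [Finset.not_nonempty_iff_eq_empty] at hE
  have := h1.2
  rw [hE] at this
  simp at this

/-- the critical weight is unique -/
lemma crit_le {n : ℕ} {s g a b : ℝ} (hs : 0 < s) (h1 : CritM n s g a) (h2 : CritM n s g b) :
    b ≤ a := by
  by_contra hab
  rw [not_le] at hab
  have : ∑ p ∈ Pc (2 * n - 1), wp s g a p < ∑ p ∈ Pc (2 * n - 1), wp s g b p := by
    refine Finset.sum_lt_sum_of_nonempty (nonempty_of h1) fun p hp => ?_
    unfold wp
    refine mul_lt_mul_of_pos_right ?_ (Real.exp_pos _)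
    refine mul_lt_mul_of_pos_right ?_ (pow_pos hs _)
    exact pow_lt_pow_left₀ hab h1.1.le (by have := (KW.len_hl hp).2.1; omega)
  rw [h1.2, h2.2] at this
  exact lt_irrefl _ this

/-- the exponent of the change of the weight of a piece -/
noncomputable def xx (al u v : ℝ) (p : Wd × Wd) : ℝ :=
  al * hl p - u * ((hl p - htn p : ℕ) : ℝ) + v * kap p

lemma wp_change {f g u v rho rho' : ℝ} (hr : 0 < rho) (hr' : 0 < rho') (p : Wd × Wd) :
    wp (Real.exp (-(f + u))) (g + v) rho' p =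
      wp (Real.exp (-f)) g rho p * Real.exp (xx (Real.log (rho' / rho)) u v p) := by
  have hq : 0 < rho' / rho := div_pos hr' hr
  have e1 : rho' = rho * Real.exp (Real.log (rho' / rho)) := by
    rw [Real.exp_log hq]
    field_simp
  have e2 : rho' ^ hl p = rho ^ hl p * Real.exp (Real.log (rho' / rho) * hl p) := by
    conv_lhs => rw [e1]
    rw [mul_pow, ← Real.exp_nat_mul]
    congr 2
    ring
  have e3 : Real.exp (-(f + u)) ^ (hl p - htn p) =
      Real.exp (-f) ^ (hl p - htn p) * Real.exp (-(u * ((hl p - htn p : ℕ) : ℝ))) := by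
    rw [← Real.exp_nat_mul, ← Real.exp_nat_mul, ← Real.exp_add]
    congr 1
    ring
  have e4 : Real.exp ((g + v) * kap p) = Real.exp (g * kap p) * Real.exp (v * kap p) := by
    rw [← Real.exp_add]
    congr 1
    ring
  unfold wp xx
  rw [e2, e3, e4, sub_eq_add_neg, Real.exp_add, Real.exp_add]
  ring

lemma xx_part (hH : HGM_Stmt) {r : ℕ} {u v : ℝ} {p : Wd × Wd} (hp : p ∈ Pc r) :
    |-(u * ((hl p - htn p : ℕ) : ℝ)) + v * kap p| ≤ (|u| + 2 * |v|) * hl p := by
  have h1 : ((hl p - htn p : ℕ) : ℝ) ≤ hl p := by exact_mod_cast Nat.sub_le _ _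
  have h2 : |((kap p : ℤ) : ℝ)| ≤ 2 * (hl p : ℝ) := by exact_mod_cast (hH.2.2.1 r p hp).2
  have h3 : |-(u * ((hl p - htn p : ℕ) : ℝ))| ≤ |u| * hl p := by
    rw [abs_neg, abs_mul, Nat.abs_cast]
    exact mul_le_mul_of_nonneg_left h1 (abs_nonneg _)
  have h4 : |v * kap p| ≤ |v| * (2 * hl p) := by
    rw [abs_mul]
    exact mul_le_mul_of_nonneg_left h2 (abs_nonneg _)
  calc _ ≤ _ := abs_add_le _ _
    _ ≤ |u| * hl p + |v| * (2 * hl p) := add_le_add h3 h4
    _ = _ := by ring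

/-- the change of the critical weight -/
lemma al_le (hH : HGM_Stmt) {n : ℕ} {f g u v rho rho' : ℝ}
    (h1 : CritM n (Real.exp (-f)) g rho) (h2 : CritM n (Real.exp (-(f + u))) (g + v) rho') :
    |Real.log (rho' / rho)| ≤ |u| + 2 * |v| := by
  set al := Real.log (rho' / rho) with hal
  by_contra hcon
  rw [not_le] at hcon
  have hsum : ∑ p ∈ Pc (2 * n - 1), wp (Real.exp (-f)) g rho p * Real.exp (xx al u v p) =
      ∑ p ∈ Pc (2 * n - 1), wp (Real.exp (-f)) g rho p := by
    rw [h1.2, ← h2.2]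
    exact Finset.sum_congr rfl fun p _ => (wp_change h1.1 h2.1 p).symm
  have hne := nonempty_of h1
  rcases le_total 0 al with h0 | h0
  · rw [abs_of_nonneg h0] at hcon
    have : ∑ p ∈ Pc (2 * n - 1), wp (Real.exp (-f)) g rho p <
        ∑ p ∈ Pc (2 * n - 1), wp (Real.exp (-f)) g rho p * Real.exp (xx al u v p) := by
      refine Finset.sum_lt_sum_of_nonempty hne fun p hp => ?_
      have h3 := xx_part hH (u := u) (v := v) hp
      have h4 := neg_le_of_abs_le h3
      have h5 : (1 : ℝ) ≤ hl p := by exact_mod_cast (KW.len_hl hp).2.1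
      have h6 : 0 < xx al u v p := by
        unfold xx
        nlinarith
      have h7 : 1 < Real.exp (xx al u v p) := Real.one_lt_exp_iff.mpr h6
      have h8 := wp_pos (g := g) (Real.exp_pos (-f)) h1.1 p
      nlinarith
    rw [hsum] at this
    exact lt_irrefl _ this
  · rw [abs_of_nonpos h0] at hcon
    have : ∑ p ∈ Pc (2 * n - 1), wp (Real.exp (-f)) g rho p * Real.exp (xx al u v p) <
        ∑ p ∈ Pc (2 * n - 1), wp (Real.exp (-f)) g rho p := by
      refine Finset.sum_lt_sum_of_nonempty hne fun p hp => ?_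
      have h3 := xx_part hH (u := u) (v := v) hp
      have h4 := le_of_abs_le h3
      have h5 : (1 : ℝ) ≤ hl p := by exact_mod_cast (KW.len_hl hp).2.1
      have h6 : xx al u v p < 0 := by
        unfold xx
        nlinarith
      have h7 : Real.exp (xx al u v p) < 1 := Real.exp_lt_one_iff.mpr h6
      have h8 := wp_pos (g := g) (Real.exp_pos (-f)) h1.1 p
      nlinarith
    rw [hsum] at this
    exact lt_irrefl _ this

lemma xx_le (hH : HGM_Stmt) {n : ℕ} {f g u v rho rho' : ℝ}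
    (h1 : CritM n (Real.exp (-f)) g rho) (h2 : CritM n (Real.exp (-(f + u))) (g + v) rho')
    {p : Wd × Wd} (hp : p ∈ Pc (2 * n - 1)) :
    |xx (Real.log (rho' / rho)) u v p| ≤ 2 * (|u| + 2 * |v|) * hl p := by
  have h3 := al_le hH h1 h2
  have h4 := xx_part hH (u := u) (v := v) hp
  have h5 : (0 : ℝ) ≤ hl p := Nat.cast_nonneg _
  have h6 : |Real.log (rho' / rho) * hl p| ≤ (|u| + 2 * |v|) * hl p := by
    rw [abs_mul, Nat.abs_cast]
    exact mul_le_mul_of_nonneg_right h3 h5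
  have e : xx (Real.log (rho' / rho)) u v p = Real.log (rho' / rho) * hl p +
      (-(u * ((hl p - htn p : ℕ) : ℝ)) + v * kap p) := by
    unfold xx
    ring
  rw [e]
  calc _ ≤ _ := abs_add_le _ _
    _ ≤ (|u| + 2 * |v|) * hl p + (|u| + 2 * |v|) * hl p := add_le_add h6 h4
    _ = _ := by ring

theorem abs_exp_sub_one (x : ℝ) : |Real.exp x - 1| ≤ |x| * Real.exp |x| := by
  have h1 : x + 1 ≤ Real.exp x := Real.add_one_le_exp x
  rcases le_total 0 x with hx | hx
  · rw [abs_of_nonneg hx]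
    have h2 : -x + 1 ≤ Real.exp (-x) := Real.add_one_le_exp (-x)
    have h3 : 0 ≤ Real.exp x - 1 := by linarith
    rw [abs_of_nonneg h3]
    have h4 : Real.exp x * Real.exp (-x) = 1 := by rw [← Real.exp_add]; simp
    have h5 : Real.exp x * (-x + 1) ≤ Real.exp x * Real.exp (-x) :=
      mul_le_mul_of_nonneg_left h2 (Real.exp_pos x).le
    nlinarith
  · rw [abs_of_nonpos hx]
    have h2 : Real.exp x ≤ 1 := Real.exp_le_one_iff.mpr hx
    have h3 : Real.exp x - 1 ≤ 0 := by linarith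
    rw [abs_of_nonpos h3]
    have h4 : 1 ≤ Real.exp (-x) := Real.one_le_exp (by linarith)
    have h5 : -x * 1 ≤ -x * Real.exp (-x) := mul_le_mul_of_nonneg_left h4 (by linarith)
    linarith

/-- the main estimate -/
lemma main (hH : HGM_Stmt) {C θ : ℝ} (hC : 0 < C) (hθ : 0 < θ) (hθ1 : θ < 1) :
    ∃ C' : ℝ, 0 < C' ∧ ∀ (n : ℕ) (f g u v rho rho' : ℝ), |u| ≤ -(Real.log θ) / 12 →
      |v| ≤ -(Real.log θ) / 12 → CritM n (Real.exp (-f)) g rho →
      CritM n (Real.exp (-(f + u))) (g + v) rho' → TailsM C θ n f g rho →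
      ∀ y : Wd × Wd → ℝ, (∀ p ∈ Pc (2 * n - 1), |y p| ≤ 4 * (hl p : ℝ) ^ 2) →
      |∑ p ∈ Pc (2 * n - 1), wp (Real.exp (-(f + u))) (g + v) rho' p * y p -
        ∑ p ∈ Pc (2 * n - 1), wp (Real.exp (-f)) g rho p * y p| ≤ C' * (|u| + |v|) := by
  have hlog : Real.log θ < 0 := Real.log_neg hθ hθ1
  set q : ℝ := Real.exp (Real.log θ / 2) with hq
  have hq0 : 0 < q := Real.exp_pos _
  have hq1 : q < 1 := Real.exp_lt_one_iff.mpr (by linarith)
  have hsum : Summable (fun m : ℕ => (m : ℝ) ^ 3 * q ^ m) :=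
    summable_pow_mul_geometric_of_norm_lt_one 3 (by
      rw [Real.norm_eq_abs, abs_of_pos hq0]
      exact hq1)
  set K : ℝ := ∑' m : ℕ, (m : ℝ) ^ 3 * q ^ m with hK
  have hK0 : 0 ≤ K := tsum_nonneg fun m => by positivity
  refine ⟨16 * C * K + 1, by positivity, ?_⟩
  intro n f g u v rho rho' hu hv h1 h2 hT y hy
  set η : ℝ := -(Real.log θ) / 12 with hη
  have hη0 : 0 < η := by rw [hη]; linarith
  have hmaps : ∀ p ∈ Pc (2 * n - 1), hl p ∈ range (2 * n + 2) := by
    intro p hp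
    have := (KW.len_hl hp).2.2
    rw [mem_range]
    omega
  have hD0 : 0 ≤ |u| + 2 * |v| := by positivity
  have hD : |u| + 2 * |v| ≤ 3 * η := by linarith
  have step1 : |∑ p ∈ Pc (2 * n - 1), wp (Real.exp (-(f + u))) (g + v) rho' p * y p -
        ∑ p ∈ Pc (2 * n - 1), wp (Real.exp (-f)) g rho p * y p| ≤
      ∑ p ∈ Pc (2 * n - 1), 8 * (|u| + 2 * |v|) *
        ((hl p : ℝ) ^ 3 * Real.exp (6 * η * hl p) * wp (Real.exp (-f)) g rho p) := by
    rw [← sum_sub_distrib]
    refine (abs_sum_le_sum_abs _ _).trans (sum_le_sum fun p hp => ?_)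
    rw [wp_change h1.1 h2.1 p]
    have hw := wp_pos (g := g) (Real.exp_pos (-f)) h1.1 p
    have hx := xx_le hH h1 h2 hp
    have hl0 : (0 : ℝ) ≤ hl p := Nat.cast_nonneg _
    set x := xx (Real.log (rho' / rho)) u v p with hxdef
    have e : wp (Real.exp (-f)) g rho p * Real.exp x * y p - wp (Real.exp (-f)) g rho p * y p =
        wp (Real.exp (-f)) g rho p * ((Real.exp x - 1) * y p) := by ring
    rw [e, abs_mul, abs_mul, abs_of_pos hw]
    have h3 : |Real.exp x - 1| ≤ 2 * (|u| + 2 * |v|) * hl p * Real.exp (6 * η * hl p) := by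
      refine (abs_exp_sub_one x).trans (mul_le_mul hx ?_ (Real.exp_pos _).le (by positivity))
      refine Real.exp_le_exp.mpr (hx.trans ?_)
      refine mul_le_mul_of_nonneg_right ?_ hl0
      linarith
    calc wp (Real.exp (-f)) g rho p * (|Real.exp x - 1| * |y p|)
        ≤ wp (Real.exp (-f)) g rho p * ((2 * (|u| + 2 * |v|) * hl p *
            Real.exp (6 * η * hl p)) * (4 * (hl p : ℝ) ^ 2)) := by
          refine mul_le_mul_of_nonneg_left ?_ hw.le
          exact mul_le_mul h3 (hy p hp) (abs_nonneg _) (by positivity)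
      _ = _ := by ring
  have step2 : ∑ p ∈ Pc (2 * n - 1), (hl p : ℝ) ^ 3 * Real.exp (6 * η * hl p) *
      wp (Real.exp (-f)) g rho p ≤ C * K := by
    rw [← sum_fiberwise_of_maps_to hmaps]
    have h5 : ∀ m ∈ range (2 * n + 2), ∑ p ∈ (Pc (2 * n - 1)).filter (fun p => hl p = m),
        (hl p : ℝ) ^ 3 * Real.exp (6 * η * hl p) * wp (Real.exp (-f)) g rho p ≤
          C * ((m : ℝ) ^ 3 * q ^ m) := by
      intro m _
      have h6 : ∑ p ∈ (Pc (2 * n - 1)).filter (fun p => hl p = m),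
          (hl p : ℝ) ^ 3 * Real.exp (6 * η * hl p) * wp (Real.exp (-f)) g rho p =
          (m : ℝ) ^ 3 * Real.exp (6 * η * m) *
            ∑ p ∈ (Pc (2 * n - 1)).filter (fun p => hl p = m), wp (Real.exp (-f)) g rho p := by
        rw [mul_sum]
        refine sum_congr rfl fun p hp => ?_
        rw [mem_filter] at hp
        rw [hp.2]
      rw [h6]
      have h7 : Real.exp (6 * η * m) * θ ^ m = q ^ m := by
        have h8 : θ ^ m = Real.exp (Real.log θ * m) := by
          rw [mul_comm, Real.exp_nat_mul, Real.exp_log hθ]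
        rw [h8, hq, ← Real.exp_nat_mul, ← Real.exp_add, hη]
        congr 1
        ring
      calc (m : ℝ) ^ 3 * Real.exp (6 * η * m) *
            ∑ p ∈ (Pc (2 * n - 1)).filter (fun p => hl p = m), wp (Real.exp (-f)) g rho p
          ≤ (m : ℝ) ^ 3 * Real.exp (6 * η * m) * (C * θ ^ m) :=
            mul_le_mul_of_nonneg_left (hT.1 m) (by positivity)
        _ = C * ((m : ℝ) ^ 3 * (Real.exp (6 * η * m) * θ ^ m)) := by ring
        _ = C * ((m : ℝ) ^ 3 * q ^ m) := by rw [h7]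
    refine (sum_le_sum h5).trans ?_
    rw [← mul_sum]
    refine mul_le_mul_of_nonneg_left ?_ hC.le
    exact hsum.sum_le_tsum _ fun m _ => by positivity
  rw [← mul_sum] at step1
  refine step1.trans ?_
  have hCK : 0 ≤ C * K := by positivity
  have hu0 := abs_nonneg u
  have hv0 := abs_nonneg v
  calc 8 * (|u| + 2 * |v|) * ∑ p ∈ Pc (2 * n - 1), (hl p : ℝ) ^ 3 *
        Real.exp (6 * η * hl p) * wp (Real.exp (-f)) g rho p
      ≤ 8 * (|u| + 2 * |v|) * (C * K) := mul_le_mul_of_nonneg_left step2 (by positivity)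
    _ ≤ 16 * (|u| + |v|) * (C * K) := by
        refine mul_le_mul_of_nonneg_right ?_ hCK
        linarith
    _ ≤ (16 * C * K + 1) * (|u| + |v|) := by nlinarith

end PARMaux

open PARMaux in
theorem t_PARM (hT : TMG_Stmt) (_hR : RHOM_Stmt) (hH : HGM_Stmt) (hg : HG_Stmt) :
    PARM_Stmt := by
  intro a b ha hab
  obtain ⟨C, θ, hC, hθ, hθ1, N, hN⟩ := hT a b ha hab
  obtain ⟨C', hC', hmain⟩ := main hH hC hθ hθ1
  have hlog : Real.log θ < 0 := Real.log_neg hθ hθ1
  refine ⟨C', -(Real.log θ) / 12, hC', by linarith, N, ?_⟩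
  intro n hn f g u v rho rho' hbox hu hv h1 h2 i
  obtain ⟨rho0, h3, h4, -⟩ := hN n hn f g hbox.1 hbox.2.1 hbox.2.2
  have e : rho0 = rho := le_antisymm (crit_le (Real.exp_pos _) h1 h3)
    (crit_le (Real.exp_pos _) h3 h1)
  rw [e] at h4
  have key := hmain n f g u v rho rho' hu hv h1 h2 h4
    (fun p => ![(hl p : ℝ), (htn p : ℝ), (jump p : ℝ) ^ 2] i) (fun p hp => by
      have h6 : (1 : ℝ) ≤ hl p := by exact_mod_cast (KW.len_hl hp).2.1
      have h7 : (htn p : ℝ) ≤ hl p := by exact_mod_cast (hg.2.2 _ p hp).2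
      have h8 : (0 : ℝ) ≤ htn p := Nat.cast_nonneg _
      fin_cases i
      · show |(hl p : ℝ)| ≤ 4 * (hl p : ℝ) ^ 2
        rw [abs_of_nonneg (by linarith)]
        nlinarith
      · show |(htn p : ℝ)| ≤ 4 * (hl p : ℝ) ^ 2
        rw [abs_of_nonneg h8]
        nlinarith
      · show |((jump p : ℤ) : ℝ) ^ 2| ≤ 4 * (hl p : ℝ) ^ 2
        have h9 : |jump p| ≤ 2 * (hl p : ℤ) := KW.jump_le hp (KW.len_hl hp).1
        have h10 : |((jump p : ℤ) : ℝ)| ≤ 2 * (hl p : ℝ) := by exact_mod_cast h9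
        rw [abs_of_nonneg (sq_nonneg _), ← sq_abs]
        have h11 : (0 : ℝ) ≤ |((jump p : ℤ) : ℝ)| := abs_nonneg _
        nlinarith)
  exact key

end Pool.Agent.TPT
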