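import Pool.Agent.TPT.StmtsA

/-!
# Project TPT: rectangles are polygon words
-/

set_option autoImplicit false

namespace Pool.Agent.TPT

open Finset Filter Topology MeasureTheory
open Pool.Agent.Lib27 Pool.Agent.SapR Pool.Agent.AreaLaw Pool.Agent.FL

namespace RECMM

theorem pos_succ (n : ℕ) (s : Fin (2 * n) → Fin 4) (k : ℕ) (hk : k < 2 * n) :
    pos n s (k + 1) = pos n s k + step (s ⟨k, hk⟩) := by
  classical
  unfold pos
  have h1 : Finset.univ.filter (fun i : Fin (2 * n) => i.val < k + 1) =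
      insert ⟨k, hk⟩ (Finset.univ.filter (fun i : Fin (2 * n) => i.val < k)) := by
    ext i
    simp only [mem_filter, mem_univ, true_and, mem_insert, Fin.ext_iff]
    omega
  rw [h1, Finset.sum_insert (by simp), add_comm]

/-- the rectangle with long side of length `n - 1` in the direction `d` -/
def rect (n : ℕ) (d : Fin 4) : Fin (2 * n) → Fin 4 := fun i =>
  if i.val < n - 1 then d else if i.val = n - 1 then d + 1 else if i.val < 2 * n - 1 then d + 2
    else d + 3

theorem step2 (d : Fin 4) : step (d + 2) = - step d := by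
  fin_cases d <;> decide

theorem step3 (d : Fin 4) : step (d + 3) = - step (d + 1) := by
  fin_cases d <;> decide

/-- the vertices of the rectangle -/
def P (n : ℕ) (d : Fin 4) (k : ℕ) : ℤ × ℤ :=
  if k ≤ n - 1 then (k : ℤ) • step d
  else if k ≤ 2 * n - 1 then (2 * (n : ℤ) - 1 - k) • step d + step (d + 1) else 0

theorem pos_rect (n : ℕ) (hn : 3 ≤ n) (d : Fin 4) : ∀ k ≤ 2 * n, pos n (rect n d) k = P n d k := by
  intro k
  induction k with
  | zero =>
    intro _
    unfold pos P
    simp
  | succ k ih =>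
    intro hk
    have hr : rect n d ⟨k, by omega⟩ = if k < n - 1 then d else if k = n - 1 then d + 1 else
        if k < 2 * n - 1 then d + 2 else d + 3 := rfl
    rw [pos_succ n _ k (by omega), ih (by omega), hr]
    unfold P
    rcases lt_trichotomy k (n - 1) with h | h | h
    · have e1 : k ≤ n - 1 := by omega
      have e2 : k + 1 ≤ n - 1 := by omega
      rw [if_pos e1, if_pos e2, if_pos h]
      push_cast
      rw [add_smul, one_smul]
    · have e1 : k ≤ n - 1 := by omega
      have e2 : ¬ k + 1 ≤ n - 1 := by omega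
      have e3 : k + 1 ≤ 2 * n - 1 := by omega
      have e4 : ¬ k < n - 1 := by omega
      rw [if_pos e1, if_neg e2, if_pos e3, if_neg e4, if_pos h]
      congr 2
      push_cast
      have : (k : ℤ) = (n : ℤ) - 1 := by omega
      rw [this]
      ring
    · have e1 : ¬ k ≤ n - 1 := by omega
      have e2 : k ≤ 2 * n - 1 := by omega
      have e3 : ¬ k + 1 ≤ n - 1 := by omega
      have e4 : ¬ k < n - 1 := by omega
      have e5 : ¬ k = n - 1 := by omega
      rw [if_neg e1, if_pos e2, if_neg e3, if_neg e4, if_neg e5]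
      rcases Nat.lt_or_ge k (2 * n - 1) with h2 | h2
      · have e6 : k + 1 ≤ 2 * n - 1 := by omega
        rw [if_pos e6, if_pos h2, step2]
        push_cast
        have : (2 * (n : ℤ) - 1 - k) = (2 * (n : ℤ) - 1 - (k + 1)) + 1 := by ring
        rw [this, add_smul, one_smul]
        abel
      · have e6 : ¬ k + 1 ≤ 2 * n - 1 := by omega
        have e7 : ¬ k < 2 * n - 1 := by omega
        rw [if_neg e6, if_neg e7, step3]
        have : (2 * (n : ℤ) - 1 - k) = 0 := by omega
        rw [this, zero_smul, zero_add, add_neg_cancel]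

/-- inner product -/
def ip (p q : ℤ × ℤ) : ℤ := p.1 * q.1 + p.2 * q.2

theorem ip_facts (d : Fin 4) : ip (step d) (step d) = 1 ∧ ip (step (d + 1)) (step (d + 1)) = 1 ∧
    ip (step d) (step (d + 1)) = 0 ∧ ip (step (d + 1)) (step d) = 0 := by
  fin_cases d <;> decide

theorem ip_smul (a : ℤ) (p q : ℤ × ℤ) : ip (a • p) q = a * ip p q := by
  unfold ip
  simp only [Prod.smul_fst, Prod.smul_snd, smul_eq_mul]
  ring

theorem ip_add (p r q : ℤ × ℤ) : ip (p + r) q = ip p q + ip r q := by
  unfold ip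
  simp only [Prod.fst_add, Prod.snd_add]
  ring

theorem rect_mem (n : ℕ) (hn : 3 ≤ n) (d : Fin 4) : rect n d ∈ SAP n := by
  unfold SAP
  rw [mem_filter]
  refine ⟨mem_univ _, ?_, ?_⟩
  · rw [pos_rect n hn d _ le_rfl]
    unfold P
    rw [if_neg (by omega), if_neg (by omega)]
  · intro j k hjk
    rw [pos_rect n hn d _ j.2.le, pos_rect n hn d _ k.2.le]
    obtain ⟨f1, f2, f3, f4⟩ := ip_facts d
    have hj := j.2
    have hk := k.2
    have key : ∀ m : ℕ, m < 2 * n →
        (m ≤ n - 1 ∧ ip (P n d m) (step d) = m ∧ ip (P n d m) (step (d + 1)) = 0) ∨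
        (n - 1 < m ∧ ip (P n d m) (step d) = 2 * n - 1 - m ∧
          ip (P n d m) (step (d + 1)) = 1) := by
      intro m hm
      unfold P
      rcases Nat.lt_or_ge (n - 1) m with h | h
      · right
        rw [if_neg (by omega), if_pos (by omega), ip_add, ip_add, ip_smul, ip_smul, f1, f2, f3, f4]
        refine ⟨h, by ring, by ring⟩
      · left
        rw [if_pos h, ip_smul, ip_smul, f1, f3]
        refine ⟨h, by ring, by ring⟩
    intro heq
    apply hjk
    apply Fin.ext
    rcases key j.val hj with ⟨h1, h2, h3⟩ | ⟨h1, h2, h3⟩ <;>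
      rcases key k.val hk with ⟨h4, h5, h6⟩ | ⟨h4, h5, h6⟩ <;>
      rw [heq] at h2 h3 <;> omega

theorem pos_end (n : ℕ) (hn : 3 ≤ n) (d : Fin 4) :
    pos n (rect n d) (n - 1) = ((n : ℤ) - 1) • step d := by
  rw [pos_rect n hn d _ (by omega)]
  unfold P
  rw [if_pos le_rfl]
  congr 1
  omega

end RECMM

open RECMM in
theorem t_RECM : RECM_Stmt := by
  intro n hn σ σ' hσ hσ'
  have h1 : σ = 1 ∨ σ = -1 := by
    rcases abs_eq (by norm_num : (0 : ℤ) ≤ 1) |>.1 hσ with h | h <;> simp [h]
  have h2 : σ' = 1 ∨ σ' = -1 := by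
    rcases abs_eq (by norm_num : (0 : ℤ) ≤ 1) |>.1 hσ' with h | h <;> simp [h]
  have hl : ∀ d : Fin 4, slev n (rect n d) (n - 1) = ((n : ℤ) - 1) * ((step d).1 + (step d).2) ∧
      lat (pos n (rect n d) (n - 1)) = ((n : ℤ) - 1) * ((step d).1 - (step d).2) := by
    intro d
    unfold slev lev lat
    rw [pos_end n hn d]
    simp only [Prod.smul_fst, Prod.smul_snd, smul_eq_mul]
    constructor <;> ring
  rcases h1 with rfl | rfl <;> rcases h2 with rfl | rfl
  · refine ⟨rect n 0, rect_mem n hn 0, ?_, ?_⟩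
    · rw [(hl 0).1]; simp [step]
    · rw [(hl 0).2]; simp [step]
  · refine ⟨rect n 1, rect_mem n hn 1, ?_, ?_⟩
    · rw [(hl 1).1]; simp [step]
    · rw [(hl 1).2]; simp [step]
  · refine ⟨rect n 3, rect_mem n hn 3, ?_, ?_⟩
    · rw [(hl 3).1]; simp [step]
    · rw [(hl 3).2]; simp [step]
  · refine ⟨rect n 2, rect_mem n hn 2, ?_, ?_⟩
    · rw [(hl 2).1]; simp [step]
    · rw [(hl 2).2]; simp [step]

end Pool.Agent.TPT
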