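import Pool.Agent.TPT.StmtsA
import Pool.Agent.NSP.REGM

/-!
# Project TPT: module REGFM, law and moments for regular sequences
-/

set_option autoImplicit false

namespace Pool.Agent.TPT

open Finset Filter Topology MeasureTheory
open Pool.Agent.Lib27 Pool.Agent.SapR Pool.Agent.AreaLaw Pool.Agent.FL
open Pool.Agent.FS (sc rs bp dlt tk1 tk2)
open Pool.Agent.NSP (lc ld)
open Pool.Agent.KCS (airyMoment)
open Pool.Agent.KCC (areaMoment)

namespace REGFM

lemma wm_nonneg (n : ℕ) {s : ℝ} (hs : 0 ≤ s) (g : ℝ) (q : QM) : 0 ≤ wm n s g q :=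
  mul_nonneg (pow_nonneg hs _) (Real.exp_pos _).le

lemma Zm_nonneg (n : ℕ) {s : ℝ} (hs : 0 ≤ s) (g : ℝ) : 0 ≤ Zm n s g :=
  Finset.sum_nonneg fun q _ => wm_nonneg n hs g q

/-- sums with the normalised weights -/
lemma sum_div (n : ℕ) (s g Z : ℝ) (φ ψ : QM → ℝ) (h : ∀ q ∈ Omm n, φ q = ψ q) :
    ∑ q ∈ Omm n, wm n s g q / Z * φ q = (∑ q ∈ Omm n, wm n s g q * ψ q) / Z := by
  rw [Finset.sum_div]
  refine Finset.sum_congr rfl fun q hq => ?_
  rw [h q hq]
  ring

/-- the mean over the polygons through `z` -/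
lemma avT_eq (n : ℕ) (z : ℤ × ℤ) (φ : ℝ → ℝ) :
    ∑ w ∈ Thr n z, 1 / ((Thr n z).card : ℝ) * φ (2 * area n w / sc n) = avT n z φ := by
  unfold avT
  rw [Finset.sum_div]
  refine Finset.sum_congr rfl fun w _ => ?_
  ring

lemma avT_eq' (n : ℕ) (z : ℤ × ℤ) (r : ℕ) :
    (∑ w ∈ Thr n z, (2 * area n w / sc n) ^ r) / ((Thr n z).card : ℝ) =
      avT n z (fun y => y ^ r) := rfl

open Classical in
/-- the distribution function of the model -/
lemma cdf_eq (hH : HGM_Stmt) (n : ℕ) (hn : 1 ≤ n) (s g : ℝ) (hZ : 0 < Zm n s g) (x : ℝ) :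
    (∑ q ∈ (Omm n).filter (fun q => (dm q : ℝ) * Zm n s g ≤
        x * ∑ q ∈ Omm n, wm n s g q * dm q), wm n s g q) / Zm n s g =
      ∑ y ∈ (Omm n).filter (fun y => |(dm y : ℝ)| / sc n ≤
        x * ∑ q ∈ Omm n, wm n s g q / Zm n s g * (|(dm q : ℝ)| / sc n)),
          wm n s g y / Zm n s g := by
  have hs := FS.sc_pos hn
  rw [Finset.sum_div]
  apply Finset.sum_congr _ (fun _ _ => rfl)
  apply Finset.filter_congr
  intro y hy
  have hd : ∀ q ∈ Omm n, |(dm q : ℝ)| = dm q := fun q hq =>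
    abs_of_pos (by exact_mod_cast (hH.2.2.2 n q hq).2.2.2)
  have e1 : ∑ q ∈ Omm n, wm n s g q / Zm n s g * (|(dm q : ℝ)| / sc n) =
      1 / (Zm n s g * sc n) * ∑ q ∈ Omm n, wm n s g q * dm q := by
    rw [Finset.mul_sum]
    refine Finset.sum_congr rfl fun z hz => ?_
    rw [hd z hz]
    field_simp
  rw [e1, hd y hy]
  have e2 : x * (1 / (Zm n s g * sc n) * ∑ q ∈ Omm n, wm n s g q * dm q) =
      (1 / (Zm n s g * sc n)) * (x * ∑ q ∈ Omm n, wm n s g q * dm q) := by
    ring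
  have e3 : (dm y : ℝ) / sc n = (1 / (Zm n s g * sc n)) * ((dm y : ℝ) * Zm n s g) := by
    field_simp
  rw [e2, e3]
  constructor
  · intro h
    exact mul_le_mul_of_nonneg_left h (by positivity)
  · intro h
    exact le_of_mul_le_mul_left h (by positivity)

end REGFM

theorem t_REGFM (hB : CLSB_Stmt) (hM : CLSM_Stmt) (hF : FLM_Stmt) (hCDF : FS.CDF_Stmt)
    (hCM : NSP.CDFM_Stmt) (hH : HGM_Stmt) : REGFM_Stmt := by
  classical
  intro μ hμ hmom hst a b ha hab f g h t hR z hz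
  obtain ⟨b1, b2, ⟨c, hc, b3⟩, b4⟩ := hB a b ha hab f g h t hR
  obtain ⟨m1, m2, m3⟩ := hM a b ha hab f g h t hR z hz
  have hs0 : ∀ n, 0 ≤ Real.exp (-(f n)) := fun n => (Real.exp_pos _).le
  have hd : ∀ n, ∀ q ∈ Omm n, |(dm q : ℝ)| / sc n = dm q / sc n := by
    intro n q hq
    rw [abs_of_pos]
    exact_mod_cast (hH.2.2.2 n q hq).2.2.2
  have hZ : ∀ᶠ n : ℕ in atTop, 0 < Zm n (Real.exp (-(f n))) (g n) := by
    filter_upwards [b3] with n hn
    rcases (REGFM.Zm_nonneg n (hs0 n) (g n)).lt_or_eq with h2 | h2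
    · exact h2
    · rw [← h2, div_zero] at hn
      linarith [hn.1]
  have hdiff : Tendsto (fun n : ℕ => avT n (z n) (fun y => y) -
      (∑ q ∈ Omm n, wm n (Real.exp (-(f n))) (g n) q * (dm q / sc n)) /
        Zm n (Real.exp (-(f n))) (g n)) atTop (𝓝 0) := by
    have e1 := m3 1
    simp only [pow_one] at e1
    have e2 := e1.add b2
    rw [add_zero] at e2
    refine e2.congr fun n => ?_
    ring
  have hlaw : ∀ x : ℝ, μ {x} = 0 →
      Tendsto (fun n : ℕ => areaCdf n (Thr n (z n)) x) atTop (𝓝 (μ (Set.Iic x)).toReal) := by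
    intro x hx
    have key := hCDF μ hμ (fun _ => QM) (fun n => Fin (2 * n) → Fin 4)
      (fun n => Omm n) (fun n => Thr n (z n))
      (fun n q => wm n (Real.exp (-(f n))) (g n) q / Zm n (Real.exp (-(f n))) (g n))
      (fun n q => |(dm q : ℝ)| / sc n)
      (fun n _ => 1 / ((Thr n (z n)).card : ℝ)) (fun n s => 2 * area n s / sc n)
      (fun n q => div_nonneg (REGFM.wm_nonneg n (hs0 n) _ q) (REGFM.Zm_nonneg n (hs0 n) _))
      (fun n s => by positivity)
      (fun n q => div_nonneg (abs_nonneg _) (FS.sc_nonneg n))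
      (fun n s => div_nonneg (mul_nonneg (by norm_num) (FS.area_nonneg n s)) (FS.sc_nonneg n))
      ?_ ?_ ?_ ?_ ?_ ?_ x hx
    · refine key.congr' ?_
      filter_upwards [m1, eventually_ge_atTop 1] with n h2 h3
      rw [FS.areaCdf_eq n h3 (Thr n (z n)) h2 x]
    · filter_upwards [hZ] with n hn
      rw [← Finset.sum_div]
      exact div_self hn.ne'
    · filter_upwards [m1] with n hn
      have : (0 : ℝ) < (Thr n (z n)).card := by exact_mod_cast hn
      rw [Finset.sum_const, nsmul_eq_mul]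
      field_simp
    · refine ⟨c, c⁻¹, hc, ?_⟩
      filter_upwards [b3] with n hn
      rw [REGFM.sum_div n _ _ _ _ _ (hd n)]
      exact hn
    · refine hdiff.congr fun n => ?_
      rw [REGFM.sum_div n _ _ _ _ _ (hd n), ← REGFM.avT_eq n (z n) (fun y => y)]
    · intro φ h2 h3
      have e2 := (m2 φ h2).add (b1 φ h2 h3)
      rw [add_zero] at e2
      refine e2.congr fun n => ?_
      rw [REGFM.sum_div n _ _ _ (fun q => φ (|(dm q : ℝ)| / sc n)) (fun q => φ (dm q / sc n))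
        (fun q hq => congrArg φ (hd n q hq)), ← REGFM.avT_eq n (z n) φ]
      ring
    · intro y hy
      refine ((hF μ hμ hst a b ha hab f g hR.box).1 y hy).congr' ?_
      filter_upwards [hZ, eventually_ge_atTop 1] with n h2 h3
      exact REGFM.cdf_eq hH n h3 _ _ h2 y
  refine ⟨hlaw, fun r => ?_⟩
  have hlow : ∀ᶠ n : ℕ in atTop,
      c / 2 ≤ (∑ w ∈ Thr n (z n), 2 * area n w / sc n) / ((Thr n (z n)).card : ℝ) := by
    filter_upwards [b3, (Metric.tendsto_nhds.1 hdiff) (c / 2) (by linarith)] with n h1 h2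
    rw [Real.dist_eq, sub_zero] at h2
    have h3 := (abs_lt.1 h2).1
    have h4 := h1.1
    have h5 : (∑ w ∈ Thr n (z n), 2 * area n w / sc n) / ((Thr n (z n)).card : ℝ) =
      avT n (z n) (fun y => y) := rfl
    rw [h5]
    linarith
  refine hCM μ airyMoment hμ hmom (fun n => Thr n (z n)) ?_ hlaw ?_ r
  · filter_upwards [m1, hlow] with n h1 h2
    exact ⟨h1, NSP.REGM.area_pos n _ (c / 2) (by linarith) h2⟩
  · intro k
    refine NSP.REGM.bound (fun n => Thr n (z n)) (c / 2) (by linarith) hlow k ?_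
    obtain ⟨C, hC⟩ := b4 k
    refine ⟨C + 1, ?_⟩
    filter_upwards [hC, (Metric.tendsto_nhds.1 (m3 k)) 1 one_pos] with n h1 h2
    rw [Real.dist_eq, sub_zero] at h2
    have h3 := (abs_lt.1 h2).2
    rw [REGFM.avT_eq' n (z n) k]
    linarith

end Pool.Agent.TPT
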