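import Pool.Agent.TPT.StmtsA

/-!
# Project TPT, module RHOM: the critical weight (Lipschitz bound and second difference)
-/

set_option autoImplicit false

namespace Pool.Agent.TPT

open Finset Filter Topology MeasureTheory
open Pool.Agent.Lib27 Pool.Agent.SapR Pool.Agent.AreaLaw Pool.Agent.FL

namespace RHOM

lemma exp_sub_one_le (x : ℝ) : Real.exp x - 1 ≤ x * Real.exp x := by
  have h1 := Real.add_one_le_exp (-x)
  have h2 : Real.exp (-x) * Real.exp x = 1 := by
    rw [← Real.exp_add]; simp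
  have h3 : 0 < Real.exp x := Real.exp_pos x
  have h4 := mul_le_mul_of_nonneg_right h1 h3.le
  linarith

lemma abs_exp_sub (x : ℝ) : |Real.exp x - 1 - x| ≤ x ^ 2 * Real.exp |x| := by
  have h0 : 0 ≤ Real.exp x - 1 - x := by
    have := Real.add_one_le_exp x
    linarith
  rw [abs_of_nonneg h0]
  have h1 := exp_sub_one_le x
  have h2 : Real.exp x - 1 - x ≤ x * (Real.exp x - 1) := by linarith
  refine h2.trans ?_
  rcases le_total 0 x with hx | hx
  · rw [abs_of_nonneg hx]
    calc x * (Real.exp x - 1) ≤ x * (x * Real.exp x) := mul_le_mul_of_nonneg_left h1 hx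
      _ = x ^ 2 * Real.exp x := by ring
  · have h3 : 1 - Real.exp x ≤ -x := by
      have := Real.add_one_le_exp x
      linarith
    have h4 : 1 ≤ Real.exp |x| := Real.one_le_exp (abs_nonneg x)
    calc x * (Real.exp x - 1) = (-x) * (1 - Real.exp x) := by ring
      _ ≤ (-x) * (-x) := mul_le_mul_of_nonneg_left h3 (by linarith)
      _ = x ^ 2 * 1 := by ring
      _ ≤ x ^ 2 * Real.exp |x| := mul_le_mul_of_nonneg_left h4 (sq_nonneg x)

lemma wp_pos {s rho : ℝ} (g : ℝ) (hs : 0 < s) (hr : 0 < rho) (p : Wd × Wd) :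
    0 < wp s g rho p := by
  unfold wp
  positivity

/-- the exponent -/
noncomputable def xx (al u v : ℝ) (p : Wd × Wd) : ℝ :=
  al * hl p - u * ((hl p - htn p : ℕ) : ℝ) + v * kap p

lemma wp_exp {rho rho' : ℝ} (f g u v : ℝ) (hr : 0 < rho) (hr' : 0 < rho') (p : Wd × Wd) :
    wp (Real.exp (-(f + u))) (g + v) rho' p =
      wp (Real.exp (-f)) g rho p * Real.exp (xx (Real.log (rho' / rho)) u v p) := by
  unfold wp xx
  have h1 : Real.exp (Real.log (rho' / rho) * (hl p : ℝ)) = (rho' / rho) ^ hl p := by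
    rw [mul_comm, Real.exp_nat_mul, Real.exp_log (div_pos hr' hr)]
  have h2 : Real.exp (-(f + u)) ^ (hl p - htn p) =
      Real.exp (-f) ^ (hl p - htn p) * Real.exp (-(u * ((hl p - htn p : ℕ) : ℝ))) := by
    rw [← Real.exp_nat_mul, ← Real.exp_nat_mul, ← Real.exp_add]
    congr 1
    ring
  have h3 : Real.exp ((g + v) * (kap p : ℝ)) = Real.exp (g * kap p) * Real.exp (v * kap p) := by
    rw [← Real.exp_add]
    congr 1
    ring
  have h4 : Real.exp (Real.log (rho' / rho) * (hl p : ℝ) - u * ((hl p - htn p : ℕ) : ℝ) +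
      v * (kap p : ℝ)) = Real.exp (Real.log (rho' / rho) * (hl p : ℝ)) *
        Real.exp (-(u * ((hl p - htn p : ℕ) : ℝ))) * Real.exp (v * kap p) := by
    rw [← Real.exp_add, ← Real.exp_add]
    congr 1
  rw [h4, h1, h2, h3, div_pow]
  have hr0 : rho ^ hl p ≠ 0 := pow_ne_zero _ hr.ne'
  field_simp

lemma crit_exp {n : ℕ} {f g u v rho rho' : ℝ} (h : CritM n (Real.exp (-f)) g rho)
    (h' : CritM n (Real.exp (-(f + u))) (g + v) rho') :
    ∑ p ∈ Pc (2 * n - 1), wp (Real.exp (-f)) g rho p *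
      Real.exp (xx (Real.log (rho' / rho)) u v p) = 1 := by
  rw [← h'.2]
  exact Finset.sum_congr rfl fun p _ => (wp_exp f g u v h.1 h'.1 p).symm

lemma bd (hH : HGM_Stmt) (hg : HG_Stmt) {r : ℕ} {p : Wd × Wd} (hp : p ∈ Pc r) (u v : ℝ) :
    (1 : ℝ) ≤ hl p ∧ |-(u * ((hl p - htn p : ℕ) : ℝ)) + v * kap p| ≤ (|u| + 2 * |v|) * hl p := by
  have h1 := hg.2.2 r p hp
  have h2 := (hH.2.2.1 r p hp).2
  have h3 : (1 : ℝ) ≤ hl p := by exact_mod_cast h1.1.trans h1.2
  refine ⟨h3, ?_⟩
  have h4 : |(kap p : ℝ)| ≤ 2 * hl p := by exact_mod_cast h2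
  have h5 : ((hl p - htn p : ℕ) : ℝ) ≤ hl p := by exact_mod_cast Nat.sub_le _ _
  have h6 : (0 : ℝ) ≤ ((hl p - htn p : ℕ) : ℝ) := Nat.cast_nonneg _
  refine (abs_add_le _ _).trans ?_
  rw [abs_neg, abs_mul, abs_mul, abs_of_nonneg h6]
  have h7 := mul_le_mul_of_nonneg_left h5 (abs_nonneg u)
  have h8 := mul_le_mul_of_nonneg_left h4 (abs_nonneg v)
  linarith

/-- the Lipschitz bound -/
lemma lip (hH : HGM_Stmt) (hg : HG_Stmt) {n : ℕ} {f g u v rho rho' : ℝ}
    (h : CritM n (Real.exp (-f)) g rho) (h' : CritM n (Real.exp (-(f + u))) (g + v) rho') :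
    |Real.log (rho' / rho)| ≤ |u| + 2 * |v| := by
  have h1 := crit_exp h h'
  set al := Real.log (rho' / rho) with hal
  set M := |u| + 2 * |v| with hM
  have hw : ∀ p ∈ Pc (2 * n - 1), 0 ≤ wp (Real.exp (-f)) g rho p :=
    fun p _ => (wp_pos g (Real.exp_pos _) h.1 p).le
  rw [abs_le]
  constructor
  · by_contra hc
    push Not at hc
    have h2 : (1 : ℝ) ≤ Real.exp (al + M) := by
      calc (1 : ℝ) = ∑ p ∈ Pc (2 * n - 1), wp (Real.exp (-f)) g rho p *
            Real.exp (xx al u v p) := h1.symm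
        _ ≤ ∑ p ∈ Pc (2 * n - 1), wp (Real.exp (-f)) g rho p * Real.exp (al + M) := by
            refine Finset.sum_le_sum fun p hp => mul_le_mul_of_nonneg_left
              (Real.exp_le_exp.2 ?_) (hw p hp)
            obtain ⟨h3, h4⟩ := bd hH hg hp u v
            have h5 := (abs_le.1 h4).2
            unfold xx
            have h6 : (al + M) * hl p ≤ (al + M) * 1 :=
              mul_le_mul_of_nonpos_left h3 (by linarith)
            linarith
        _ = Real.exp (al + M) := by rw [← Finset.sum_mul, h.2, one_mul]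
    have h3 : Real.exp (al + M) < 1 := Real.exp_lt_one_iff.2 (by linarith)
    linarith
  · by_contra hc
    push Not at hc
    have h2 : Real.exp (al - M) ≤ 1 := by
      calc Real.exp (al - M) = ∑ p ∈ Pc (2 * n - 1), wp (Real.exp (-f)) g rho p *
            Real.exp (al - M) := by rw [← Finset.sum_mul, h.2, one_mul]
        _ ≤ ∑ p ∈ Pc (2 * n - 1), wp (Real.exp (-f)) g rho p * Real.exp (xx al u v p) := by
            refine Finset.sum_le_sum fun p hp => mul_le_mul_of_nonneg_left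
              (Real.exp_le_exp.2 ?_) (hw p hp)
            obtain ⟨h3, h4⟩ := bd hH hg hp u v
            have h5 := (abs_le.1 h4).1
            unfold xx
            have h6 : (al - M) * 1 ≤ (al - M) * hl p :=
              mul_le_mul_of_nonneg_left h3 (by linarith)
            linarith
        _ = 1 := h1
    have h3 : 1 < Real.exp (al - M) := Real.one_lt_exp_iff.2 (by linarith)
    linarith

/-- uniqueness of the critical weight -/
lemma uniq (hH : HGM_Stmt) (hg : HG_Stmt) {n : ℕ} {f g rho rho' : ℝ}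
    (h : CritM n (Real.exp (-f)) g rho) (h' : CritM n (Real.exp (-f)) g rho') : rho' = rho := by
  have h1 : CritM n (Real.exp (-(f + 0))) (g + 0) rho' := by rwa [add_zero, add_zero]
  have h2 := lip hH hg h h1
  rw [abs_zero, mul_zero, add_zero] at h2
  have h3 : Real.log (rho' / rho) = 0 := abs_nonpos_iff.1 h2
  have h4 : rho' / rho = 1 := by
    have := Real.exp_log (div_pos h'.1 h.1)
    rw [h3, Real.exp_zero] at this
    exact this.symm
  rwa [div_eq_one_iff_eq h.1.ne'] at h4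

open Classical in
/-- sums of a function of the half length -/
lemma tail_sum {C θ : ℝ} {n : ℕ} {f g rho : ℝ} (hT : TailsM C θ n f g rho)
    {H : ℕ → ℝ} (hH0 : ∀ m, 0 ≤ H m) (hC : 0 < C) (hθ : 0 < θ)
    (hs : Summable fun m : ℕ => θ ^ m * H m) :
    ∑ p ∈ Pc (2 * n - 1), wp (Real.exp (-f)) g rho p * H (hl p) ≤
      C * ∑' m : ℕ, θ ^ m * H m := by
  set T := Pc (2 * n - 1) with hTd
  have h1 : ∑ p ∈ T, wp (Real.exp (-f)) g rho p * H (hl p) =
      ∑ m ∈ T.image hl, ∑ p ∈ T.filter (fun p => hl p = m),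
        wp (Real.exp (-f)) g rho p * H (hl p) :=
    (Finset.sum_fiberwise_of_maps_to (fun p hp => Finset.mem_image_of_mem _ hp) _).symm
  rw [h1]
  have h2 : ∀ m ∈ T.image hl, ∑ p ∈ T.filter (fun p => hl p = m),
      wp (Real.exp (-f)) g rho p * H (hl p) ≤ C * (θ ^ m * H m) := by
    intro m _
    have h3 : ∑ p ∈ T.filter (fun p => hl p = m), wp (Real.exp (-f)) g rho p * H (hl p) =
        (∑ p ∈ T.filter (fun p => hl p = m), wp (Real.exp (-f)) g rho p) * H m := by
      rw [Finset.sum_mul]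
      refine Finset.sum_congr rfl fun q hq => ?_
      rw [(Finset.mem_filter.1 hq).2]
    rw [h3]
    have h4 := mul_le_mul_of_nonneg_right (hT.1 m) (hH0 m)
    calc (∑ p ∈ T.filter (fun p => hl p = m), wp (Real.exp (-f)) g rho p) * H m ≤
        C * θ ^ m * H m := h4
      _ = C * (θ ^ m * H m) := by ring
  refine (Finset.sum_le_sum h2).trans ?_
  rw [← Finset.mul_sum]
  refine mul_le_mul_of_nonneg_left ?_ hC.le
  exact hs.sum_le_tsum _ (fun m _ => mul_nonneg (pow_nonneg hθ.le _) (hH0 m))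

lemma sq_bd (u v : ℝ) : (|u| + 2 * |v|) ^ 2 ≤ 5 * (u ^ 2 + v ^ 2) := by
  have h1 := sq_nonneg (2 * |u| - |v|)
  have h2 := sq_abs u
  have h3 := sq_abs v
  nlinarith

/-- the first moment of the exponents -/
lemma first (hH : HGM_Stmt) (hg : HG_Stmt) {C θ η : ℝ} {n : ℕ} {f g u v rho rho' : ℝ}
    (hT : TailsM C θ n f g rho) (hC : 0 < C) (hθ : 0 < θ)
    (hs : Summable fun m : ℕ => θ ^ m * ((m : ℝ) ^ 2 * Real.exp (6 * η * m)))
    (hu : |u| ≤ η) (hv : |v| ≤ η)
    (h : CritM n (Real.exp (-f)) g rho) (h' : CritM n (Real.exp (-(f + u))) (g + v) rho') :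
    |∑ p ∈ Pc (2 * n - 1), wp (Real.exp (-f)) g rho p * xx (Real.log (rho' / rho)) u v p| ≤
      20 * C * (∑' m : ℕ, θ ^ m * ((m : ℝ) ^ 2 * Real.exp (6 * η * m))) * (u ^ 2 + v ^ 2) := by
  have h1 := crit_exp h h'
  have h2 := lip hH hg h h'
  set al := Real.log (rho' / rho) with hal
  set M := |u| + 2 * |v| with hM
  have hM0 : 0 ≤ M := by positivity
  have hη : M ≤ 3 * η := by linarith
  have h3 : ∑ p ∈ Pc (2 * n - 1), wp (Real.exp (-f)) g rho p * xx al u v p =
      -∑ p ∈ Pc (2 * n - 1), wp (Real.exp (-f)) g rho p *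
        (Real.exp (xx al u v p) - 1 - xx al u v p) := by
    have h4 : ∑ p ∈ Pc (2 * n - 1), wp (Real.exp (-f)) g rho p *
        (Real.exp (xx al u v p) - 1 - xx al u v p) =
        ∑ p ∈ Pc (2 * n - 1), wp (Real.exp (-f)) g rho p * Real.exp (xx al u v p) -
        ∑ p ∈ Pc (2 * n - 1), wp (Real.exp (-f)) g rho p -
        ∑ p ∈ Pc (2 * n - 1), wp (Real.exp (-f)) g rho p * xx al u v p := by
      rw [← Finset.sum_sub_distrib, ← Finset.sum_sub_distrib]
      exact Finset.sum_congr rfl fun p _ => by ring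
    rw [h4, h1, h.2]
    ring
  rw [h3, abs_neg]
  refine (Finset.abs_sum_le_sum_abs _ _).trans ?_
  have h5 : ∀ p ∈ Pc (2 * n - 1), |wp (Real.exp (-f)) g rho p *
      (Real.exp (xx al u v p) - 1 - xx al u v p)| ≤
      (4 * M ^ 2) * (wp (Real.exp (-f)) g rho p * ((hl p : ℝ) ^ 2 * Real.exp (6 * η * hl p))) := by
    intro p hp
    obtain ⟨h6, h7⟩ := bd hH hg hp u v
    have hw := (wp_pos g (Real.exp_pos (-f)) h.1 p).le
    have h8 : |xx al u v p| ≤ 2 * M * hl p := by
      have e : xx al u v p = al * hl p + (-(u * ((hl p - htn p : ℕ) : ℝ)) + v * kap p) := by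
        unfold xx; ring
      rw [e]
      refine (abs_add_le _ _).trans ?_
      rw [abs_mul, abs_of_nonneg (by linarith : (0 : ℝ) ≤ hl p)]
      have := mul_le_mul_of_nonneg_right h2 (by linarith : (0 : ℝ) ≤ hl p)
      linarith
    have h9 : xx al u v p ^ 2 ≤ 4 * M ^ 2 * (hl p : ℝ) ^ 2 := by
      rw [← sq_abs]
      calc |xx al u v p| ^ 2 ≤ (2 * M * hl p) ^ 2 := pow_le_pow_left₀ (abs_nonneg _) h8 2
        _ = 4 * M ^ 2 * (hl p : ℝ) ^ 2 := by ring
    have h10 : Real.exp |xx al u v p| ≤ Real.exp (6 * η * hl p) := by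
      refine Real.exp_le_exp.2 (h8.trans ?_)
      exact mul_le_mul_of_nonneg_right (by linarith) (by linarith)
    rw [abs_mul, abs_of_nonneg hw]
    calc wp (Real.exp (-f)) g rho p * |Real.exp (xx al u v p) - 1 - xx al u v p| ≤
        wp (Real.exp (-f)) g rho p * (4 * M ^ 2 * (hl p : ℝ) ^ 2 * Real.exp (6 * η * hl p)) := by
          refine mul_le_mul_of_nonneg_left ((abs_exp_sub _).trans ?_) hw
          exact mul_le_mul h9 h10 (Real.exp_pos _).le (by positivity)
      _ = _ := by ring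
  refine (Finset.sum_le_sum h5).trans ?_
  rw [← Finset.mul_sum]
  have h6 := tail_sum hT (H := fun m : ℕ => (m : ℝ) ^ 2 * Real.exp (6 * η * m))
    (fun m => by positivity) hC hθ hs
  have h7 := sq_bd u v
  set S := ∑' m : ℕ, θ ^ m * ((m : ℝ) ^ 2 * Real.exp (6 * η * m)) with hS
  have hS0 : 0 ≤ S := tsum_nonneg fun m => by positivity
  calc 4 * M ^ 2 * ∑ p ∈ Pc (2 * n - 1), wp (Real.exp (-f)) g rho p *
        ((hl p : ℝ) ^ 2 * Real.exp (6 * η * hl p)) ≤ 4 * (5 * (u ^ 2 + v ^ 2)) * (C * S) := by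
        refine mul_le_mul (by linarith) h6 (Finset.sum_nonneg fun p _ => ?_) (by positivity)
        exact mul_nonneg (wp_pos g (Real.exp_pos (-f)) h.1 p).le (by positivity)
    _ = 20 * C * S * (u ^ 2 + v ^ 2) := by ring

end RHOM

open RHOM in
theorem t_RHOM (hT : TMG_Stmt) (hH : HGM_Stmt) (hg : HG_Stmt) : RHOM_Stmt := by
  intro a b ha hab
  obtain ⟨C, θ, hC, hθ, hθ1, N, hN⟩ := hT a b ha hab
  -- the constant η
  set η := -Real.log θ / 12 with hη
  have hlog : Real.log θ < 0 := Real.log_neg hθ hθ1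
  have hη0 : 0 < η := by rw [hη]; linarith
  set θ1 := θ * Real.exp (6 * η) with hθ1d
  have hθ1e : θ1 = Real.exp (Real.log θ / 2) := by
    rw [hθ1d]
    nth_rewrite 1 [← Real.exp_log hθ]
    rw [← Real.exp_add]
    congr 1
    rw [hη]
    ring
  have hθ1l : θ1 < 1 := by
    rw [hθ1e]
    exact Real.exp_lt_one_iff.2 (by linarith)
  have hθ1p : 0 < θ1 := by rw [hθ1e]; exact Real.exp_pos _
  have hterm : ∀ m : ℕ, θ ^ m * ((m : ℝ) ^ 2 * Real.exp (6 * η * m)) = (m : ℝ) ^ 2 * θ1 ^ m := by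
    intro m
    have e : Real.exp (6 * η * m) = Real.exp (6 * η) ^ m := by
      rw [← Real.exp_nat_mul]
      congr 1
      ring
    rw [e, hθ1d, mul_pow]
    ring
  have hs : Summable fun m : ℕ => θ ^ m * ((m : ℝ) ^ 2 * Real.exp (6 * η * m)) := by
    simp only [hterm]
    exact summable_pow_mul_geometric_of_norm_lt_one 2
      (by rw [Real.norm_eq_abs, abs_of_pos hθ1p]; exact hθ1l)
  set S := ∑' m : ℕ, θ ^ m * ((m : ℝ) ^ 2 * Real.exp (6 * η * m)) with hS
  have hS0 : 0 ≤ S := tsum_nonneg fun m => by positivity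
  refine ⟨2 + 40 * C * S, η, by positivity, hη0, N, ?_⟩
  intro n hn f g u v rho rho₁ rho₂ hB hu hv h h₁ h₂
  obtain ⟨rho', hc', hT', -, -⟩ := hN n hn f g hB.1 hB.2.1 hB.2.2
  have hr : rho' = rho := uniq hH hg h hc'
  rw [hr] at hT'
  have hnn : 0 ≤ 40 * C * S := by positivity
  constructor
  · refine (lip hH hg h h₁).trans ?_
    have h3 : 0 ≤ 40 * C * S * (|u| + |v|) := mul_nonneg hnn (by positivity)
    have h4 := abs_nonneg u
    have h5 := abs_nonneg v
    linarith
  · have h₂' : CritM n (Real.exp (-(f + -u))) (g + -v) rho₂ := h₂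
    have h3 := first hH hg hT' hC hθ hs hu hv h h₁
    have h4 := first hH hg hT' hC hθ hs (by rwa [abs_neg]) (by rwa [abs_neg]) h h₂'
    set al := Real.log (rho₁ / rho)
    set be := Real.log (rho₂ / rho)
    have h5 : ∑ p ∈ Pc (2 * n - 1), wp (Real.exp (-f)) g rho p * xx al u v p +
        ∑ p ∈ Pc (2 * n - 1), wp (Real.exp (-f)) g rho p * xx be (-u) (-v) p =
        (al + be) * ∑ p ∈ Pc (2 * n - 1), wp (Real.exp (-f)) g rho p * hl p := by
      rw [← Finset.sum_add_distrib, Finset.mul_sum]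
      refine Finset.sum_congr rfl fun p _ => ?_
      unfold xx
      ring
    have h6 : 1 ≤ ∑ p ∈ Pc (2 * n - 1), wp (Real.exp (-f)) g rho p * hl p := by
      refine h.2.symm.le.trans ?_
      refine Finset.sum_le_sum fun p hp => le_mul_of_one_le_right
        (wp_pos g (Real.exp_pos (-f)) h.1 p).le ?_
      exact (bd hH hg hp 0 0).1
    have h7 : |(al + be) * ∑ p ∈ Pc (2 * n - 1), wp (Real.exp (-f)) g rho p * hl p| ≤
        40 * C * S * (u ^ 2 + v ^ 2) := by
      rw [← h5]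
      refine (abs_add_le _ _).trans ?_
      rw [neg_sq, neg_sq] at h4
      linarith
    rw [abs_mul, abs_of_nonneg (by linarith :
      0 ≤ ∑ p ∈ Pc (2 * n - 1), wp (Real.exp (-f)) g rho p * (hl p : ℝ))] at h7
    have h8 : |al + be| ≤ |al + be| *
        ∑ p ∈ Pc (2 * n - 1), wp (Real.exp (-f)) g rho p * (hl p : ℝ) :=
      le_mul_of_one_le_right (abs_nonneg _) h6
    have h9 : 0 ≤ 2 * (u ^ 2 + v ^ 2) := by positivity
    linarith

end Pool.Agent.TPT
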