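import Pool.Agent.TPT.StmtsA

/-!
Module SKELM of the project TPT: skeletons of the canonical words.
-/

set_option autoImplicit false

namespace Pool.Agent.TPT

open Finset Filter Topology MeasureTheory
open Pool.Agent.Lib27 Pool.Agent.SapR Pool.Agent.AreaLaw Pool.Agent.FL
open Pool.Agent.FS (sc rs bp dlt tk1 tk2)
open Pool.Agent.NSP (lc ld)

namespace SKELM

/-- sum over a multiset of skeletons -/
noncomputable def ms (g : Sk2 → ℝ) (M : Multiset Sk2) : ℝ := (M.map g).sum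

lemma ms_zero (g : Sk2 → ℝ) : ms g 0 = 0 := rfl

lemma ms_add (g : Sk2 → ℝ) (M N : Multiset Sk2) : ms g (M + N) = ms g M + ms g N := by
  unfold ms
  rw [Multiset.map_add, Multiset.sum_add]

lemma ms_sum {ι : Type} (g : Sk2 → ℝ) (S : Finset ι) (N : ι → Multiset Sk2) :
    ms g (∑ i ∈ S, N i) = ∑ i ∈ S, ms g (N i) := by
  classical
  induction S using Finset.induction_on with
  | empty => simp [ms_zero]
  | insert a S ha ih => rw [Finset.sum_insert ha, Finset.sum_insert ha, ms_add, ih]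

lemma ms_map (g : Sk2 → ℝ) (f : Sk2 → Sk2) (M : Multiset Sk2) :
    ms g (M.map f) = ms (fun a => g (f a)) M := by
  unfold ms
  rw [Multiset.map_map]
  rfl

lemma ms_mul (c : ℝ) (g : Sk2 → ℝ) (M : Multiset Sk2) : ms (fun a => c * g a) M = c * ms g M := by
  unfold ms
  rw [Multiset.sum_map_mul_left]

lemma ms_congr (g g' : Sk2 → ℝ) (M : Multiset Sk2) (h : ∀ a ∈ M, g a = g' a) :
    ms g M = ms g' M := by
  unfold ms
  rw [Multiset.map_congr rfl h]

/-- every multiset is given by a family indexed by `Fin k` -/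
lemma exists_fin (M : Multiset Sk2) : ∃ (k : ℕ) (σ : Fin k → Sk2), (∀ i, σ i ∈ M) ∧
    ∀ g : Sk2 → ℝ, ms g M = ∑ i, g (σ i) := by
  induction M using Quot.inductionOn with
  | _ l =>
    refine ⟨l.length, fun i => l[i], fun i => ?_, fun g => ?_⟩
    · exact Multiset.mem_coe.2 (List.getElem_mem _)
    · unfold ms
      have h1 : (Multiset.map g (Quot.mk _ l)).sum = (l.map g).sum := by
        change (Multiset.map g (l : Multiset Sk2)).sum = _
        rw [Multiset.map_coe, Multiset.sum_coe]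
      rw [h1]
      exact (Fin.sum_univ_fun_getElem l g).symm

/-- value of a skeleton -/
noncomputable def ev (F : ℤ → ℤ → ℤ → ℝ) (a : Sk2) : ℝ :=
  rs a.l (fun j t => ∑ b ∈ range (a.k + 1), (a.k.choose b : ℝ) *
    F (a.H - j) (a.Λ - j - 2 * b) (a.A - t))

/-- shift by the closing marked cap -/
noncomputable def clo (x : ℤ) (T : Wd × ℕ) (a : Sk2) : Sk2 :=
  ⟨a.l, a.k, a.H + mlev T, a.A, a.Λ + mlat x T⟩

/-- skeletons of the canonical words -/
noncomputable def pol (n : ℕ) (N : ℤ → ℕ → Multiset Sk2) : Multiset Sk2 :=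
  ∑ x ∈ Icc (1 : ℤ) (2 * n), ∑ M ∈ range (2 * n + 1), ∑ T ∈ MCap x M,
    (N x (n - M / 2)).map (clo x T)

lemma mem_pol {n : ℕ} {N : ℤ → ℕ → Multiset Sk2} {a : Sk2} (h : a ∈ pol n N) :
    ∃ (x : ℤ) (M : ℕ) (T : Wd × ℕ) (b : Sk2), 1 ≤ x ∧ M ≤ 2 * n ∧ T ∈ MCap x M ∧
      b ∈ N x (n - M / 2) ∧ a = clo x T b := by
  unfold pol at h
  rw [Multiset.mem_sum] at h
  obtain ⟨x, hx, h⟩ := h
  rw [Multiset.mem_sum] at h
  obtain ⟨M, hM, h⟩ := h
  rw [Multiset.mem_sum] at h
  obtain ⟨T, hT, h⟩ := h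
  rw [Multiset.mem_map] at h
  obtain ⟨b, hb, rfl⟩ := h
  rw [mem_Icc] at hx
  rw [mem_range] at hM
  exact ⟨x, M, T, b, hx.1, by omega, hT, hb, rfl⟩

/-- one layer of the generating function of the marked caps -/
noncomputable def cf (s g ρ : ℝ) (m : ℕ) : ℝ :=
  ∑ x ∈ Icc (1 : ℤ) m, ∑ a ∈ MCap x (2 * m),
    ρ ^ m * s ^ (m - mlev a) * Real.exp (g * mlat x a)

lemma cf_nonneg (s g ρ : ℝ) (m : ℕ) (hs : 0 < s) (hρ : 0 < ρ) : 0 ≤ cf s g ρ m :=
  Finset.sum_nonneg fun _ _ => Finset.sum_nonneg fun _ _ => by positivity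

lemma capKM_eq (n : ℕ) (s g ρ : ℝ) : capKM n s g ρ = ∑ m ∈ range (n + 1), cf s g ρ m := rfl

lemma capKM_mono (m n : ℕ) (hmn : m ≤ n) (s g ρ : ℝ) (hs : 0 < s) (hρ : 0 < ρ) :
    capKM m s g ρ ≤ capKM n s g ρ := by
  rw [capKM_eq, capKM_eq]
  apply Finset.sum_le_sum_of_subset_of_nonneg
  · intro a ha
    rw [mem_range] at *
    omega
  · intro a _ _
    exact cf_nonneg s g ρ a hs hρ

lemma capKM_nonneg (n : ℕ) (s g ρ : ℝ) (hs : 0 < s) (hρ : 0 < ρ) : 0 ≤ capKM n s g ρ := by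
  rw [capKM_eq]
  exact Finset.sum_nonneg fun m _ => cf_nonneg s g ρ m hs hρ

lemma mcap_sub {x : ℤ} {N : ℕ} {a : Wd × ℕ} (h : a ∈ MCap x N) : a ∈ MArch x N := by
  classical
  unfold MCap at h
  exact (mem_filter.1 h).1

lemma cap_facts (hH : HGM_Stmt) (x : ℤ) (M : ℕ) (T : Wd × ℕ) (hx : 1 ≤ x) (hT : T ∈ MCap x M) :
    M = 2 * (M / 2) ∧ x ≤ (M / 2 : ℕ) ∧ mlev T ≤ M / 2 ∧ |mlat x T| ≤ M := by
  obtain ⟨h1, h2, h3, h4, h5⟩ := hH.2.1 x M T hx (mcap_sub hT)
  rw [Nat.even_iff] at h3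
  refine ⟨by omega, by omega, by omega, h5⟩

end SKELM

open SKELM in
theorem t_SKELM (hS : SKA_Stmt) (hH : HGM_Stmt) : SKELM_Stmt := by
  classical
  intro n hn
  have hex : ∀ (x : ℤ) (m : ℕ), ∃ M : Multiset Sk2, 1 ≤ x → m ≤ n → ASk2 n x m M := by
    intro x m
    by_cases hx : 1 ≤ x ∧ m ≤ n
    · obtain ⟨M, hM⟩ := hS n hn m hx.2 x hx.1
      exact ⟨M, fun _ _ => hM⟩
    · exact ⟨0, fun h1 h2 => absurd ⟨h1, h2⟩ hx⟩
  choose N hN using hex
  obtain ⟨k, σ, hmem, hsum⟩ := exists_fin (pol n N)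
  have hsub : ∀ M : ℕ, n - M / 2 ≤ n := fun M => Nat.sub_le _ _
  refine ⟨k, σ, ⟨?_, ?_, ?_, ?_, ?_, ?_, ?_, ?_⟩⟩
  · intro F
    have e0 : ∑ i, rs (σ i).l (fun j t => ∑ b ∈ range ((σ i).k + 1), ((σ i).k.choose b : ℝ) *
        F ((σ i).H - j) ((σ i).Λ - j - 2 * b) ((σ i).A - t)) = ms (ev F) (pol n N) :=
      (hsum (ev F)).symm
    rw [e0]
    unfold pol
    rw [ms_sum]
    unfold Omm
    rw [sum_sigma]
    apply sum_congr rfl
    intro x hx
    rw [mem_Icc] at hx
    rw [ms_sum, sum_sigma]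
    apply sum_congr rfl
    intro M hM
    rw [ms_sum, sum_product]
    apply sum_congr rfl
    intro T hT
    obtain ⟨c1, c2, c3, c4⟩ := cap_facts hH x M T hx.1 hT
    rw [ms_map]
    have e1 := (hN x (n - M / 2) hx.1 (hsub M)).repr
      (fun u v w => F (u + mlev T) (v + mlat x T) w)
    rw [show 2 * (n - M / 2) = 2 * n - M by omega] at e1
    have e2 : ms (fun a => ev F (clo x T a)) (N x (n - M / 2)) =
        ms (ev (fun u v w => F (u + mlev T) (v + mlat x T) w)) (N x (n - M / 2)) := by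
      apply ms_congr
      intro a _
      unfold ev clo
      apply Pool.Agent.FS.rs_congr
      intro j t _ _
      apply sum_congr rfl
      intro b _
      push_cast
      congr 2 <;> ring
    rw [e2]
    change _ = ((N x (n - M / 2)).map (fun σ => rs σ.l (fun j t => ∑ b ∈ range (σ.k + 1),
      (σ.k.choose b : ℝ) * F (((σ.H : ℤ) - j) + mlev T) ((σ.Λ - j - 2 * b) + mlat x T)
        (σ.A - t)))).sum
    rw [← e1]
    apply sum_congr rfl
    intro w _
    unfold zl zt am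
    push_cast
    rfl
  · intro i
    obtain ⟨x, M, T, b, hx, hM, hT, hb, hab⟩ := mem_pol (hmem i)
    rw [hab]
    have := (hN x (n - M / 2) hx (hsub M)).len_le b hb
    unfold clo
    simp only
    omega
  · intro i
    obtain ⟨x, M, T, b, hx, hM, hT, hb, hab⟩ := mem_pol (hmem i)
    rw [hab]
    obtain ⟨c1, c2, c3, c4⟩ := cap_facts hH x M T hx hT
    have := (hN x (n - M / 2) hx (hsub M)).H_le b hb
    unfold clo
    simp only
    omega
  · intro i y hy
    obtain ⟨x, M, T, b, hx, hM, hT, hb, hab⟩ := mem_pol (hmem i)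
    rw [hab] at hy
    unfold clo at hy
    simp only at hy
    have := (hN x (n - M / 2) hx (hsub M)).y_le b hb y hy
    omega
  · intro i
    obtain ⟨x, M, T, b, hx, hM, hT, hb, hab⟩ := mem_pol (hmem i)
    rw [hab]
    exact (hN x (n - M / 2) hx (hsub M)).sum_le b hb
  · intro i
    obtain ⟨x, M, T, b, hx, hM, hT, hb, hab⟩ := mem_pol (hmem i)
    rw [hab]
    refine ((hN x (n - M / 2) hx (hsub M)).A_le b hb).trans ?_
    exact Nat.mul_le_mul_left 2 (Nat.pow_le_pow_left (hsub M) 2)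
  · intro i
    obtain ⟨x, M, T, b, hx, hM, hT, hb, hab⟩ := mem_pol (hmem i)
    rw [hab]
    obtain ⟨c1, c2, c3, c4⟩ := cap_facts hH x M T hx hT
    have := (hN x (n - M / 2) hx (hsub M)).lam_le b hb
    unfold clo
    simp only
    refine (abs_add_le _ _).trans ?_
    have h1 : ((n - M / 2 : ℕ) : ℤ) = (n : ℤ) - ((M / 2 : ℕ) : ℤ) := by
      rw [Nat.cast_sub (by omega)]
    have h2 : ((M : ℕ) : ℤ) = 2 * ((M / 2 : ℕ) : ℤ) := by omega
    rw [h1] at this
    rw [h2] at c4
    linarith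
  · intro s g τ τ' ρ hs hτ hτ' hρ hyp
    set K : ℝ := capKM n s g ρ with hKdef
    have hK0 : 0 ≤ K := capKM_nonneg n s g ρ hs hρ
    set G : ℕ → Sk2 → ℝ := fun m a => s ^ (m - a.H) * Real.exp (g * a.Λ) *
      ((1 + s * Real.exp (-g)) * τ) ^ a.l.length *
      ((1 + Real.exp (-(2 * g))) * τ') ^ a.k with hG
    change ρ ^ n * ∑ i, G n (σ i) ≤ K ^ 2
    rw [← hsum (G n)]
    unfold pol
    rw [ms_sum, mul_sum]
    have hterm : ∀ x ∈ Icc (1 : ℤ) (2 * n), ρ ^ n * ms (G n)
        (∑ M ∈ range (2 * n + 1), ∑ T ∈ MCap x M, (N x (n - M / 2)).map (clo x T)) ≤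
        ∑ M ∈ range (2 * n + 1), ∑ T ∈ MCap x M,
          ρ ^ (M / 2) * s ^ (M / 2 - mlev T) * Real.exp (g * mlat x T) * K := by
      intro x hx
      rw [mem_Icc] at hx
      rw [ms_sum, mul_sum]
      apply sum_le_sum
      intro M hM
      rw [mem_range] at hM
      rw [ms_sum, mul_sum]
      apply sum_le_sum
      intro T hT
      obtain ⟨c1, c2, c3, c4⟩ := cap_facts hH x M T hx.1 hT
      have e1 : ms (G n) ((N x (n - M / 2)).map (clo x T)) =
          (s ^ (M / 2 - mlev T) * Real.exp (g * mlat x T)) *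
            ms (G (n - M / 2)) (N x (n - M / 2)) := by
        rw [ms_map, ← ms_mul]
        apply ms_congr
        intro a ha
        have h4 := (hN x (n - M / 2) hx.1 (hsub M)).H_le a ha
        have h5 : s ^ (n - (a.H + mlev T)) = s ^ (M / 2 - mlev T) * s ^ (n - M / 2 - a.H) := by
          rw [← pow_add]
          congr 1
          omega
        have h6 : Real.exp (g * ((a.Λ + mlat x T : ℤ) : ℝ)) =
            Real.exp (g * mlat x T) * Real.exp (g * a.Λ) := by
          rw [← Real.exp_add]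
          congr 1
          push_cast
          ring
        rw [hG]
        unfold clo
        simp only
        rw [h5, h6]
        ring
      have e2 : ρ ^ n = ρ ^ (M / 2) * ρ ^ (n - M / 2) := by
        rw [← pow_add]; congr 1; omega
      have e3 : ρ ^ (n - M / 2) * ms (G (n - M / 2)) (N x (n - M / 2)) ≤
          capKM (n - M / 2) s g ρ :=
        (hN x (n - M / 2) hx.1 (hsub M)).count s g τ τ' ρ hs hτ hτ' hρ hyp
      have e4 := capKM_mono (n - M / 2) n (hsub M) s g ρ hs hρ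
      rw [e1, e2]
      have e5 := mul_le_mul_of_nonneg_left (e3.trans e4)
        (show 0 ≤ ρ ^ (M / 2) * (s ^ (M / 2 - mlev T) * Real.exp (g * mlat x T)) by positivity)
      refine le_trans (le_of_eq ?_) (e5.trans (le_of_eq ?_))
      · ring
      · rw [hKdef]; ring
    refine (Finset.sum_le_sum hterm).trans ?_
    simp only [← Finset.sum_mul]
    rw [pow_two]
    refine mul_le_mul_of_nonneg_right ?_ hK0
    -- sum over the caps
    rw [sum_comm]
    have hempty : ∀ (x : ℤ) (M : ℕ), 1 ≤ x → (M % 2 = 1 ∨ ((M / 2 : ℕ) : ℤ) < x) →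
        MCap x M = ∅ := by
      intro x M hx hor
      rw [Finset.eq_empty_iff_forall_notMem]
      intro T hT
      obtain ⟨c1, c2, c3, c4⟩ := cap_facts hH x M T hx hT
      omega
    have e6 : ∑ M ∈ range (2 * n + 1), ∑ x ∈ Icc (1 : ℤ) (2 * n), ∑ T ∈ MCap x M,
        ρ ^ (M / 2) * s ^ (M / 2 - mlev T) * Real.exp (g * mlat x T) =
        ∑ M ∈ (range (2 * n + 1)).filter (fun M => M % 2 = 0), ∑ x ∈ Icc (1 : ℤ) (2 * n),
          ∑ T ∈ MCap x M, ρ ^ (M / 2) * s ^ (M / 2 - mlev T) * Real.exp (g * mlat x T) := by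
      rw [Finset.sum_filter]
      apply sum_congr rfl
      intro M hM
      by_cases h2 : M % 2 = 0
      · rw [if_pos h2]
      · rw [if_neg h2]
        apply sum_eq_zero
        intro x hx
        rw [mem_Icc] at hx
        rw [hempty x M hx.1 (Or.inl (by omega)), sum_empty]
    rw [e6]
    have e7 : ∑ M ∈ (range (2 * n + 1)).filter (fun M => M % 2 = 0), ∑ x ∈ Icc (1 : ℤ) (2 * n),
          ∑ T ∈ MCap x M, ρ ^ (M / 2) * s ^ (M / 2 - mlev T) * Real.exp (g * mlat x T) ≤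
        ∑ M ∈ (range (2 * n + 1)).filter (fun M => M % 2 = 0), cf s g ρ (M / 2) := by
      apply sum_le_sum
      intro M hM
      rw [mem_filter, mem_range] at hM
      unfold cf
      have hM2 : 2 * (M / 2) = M := by omega
      rw [hM2]
      have hs2 : ∑ x ∈ Icc (1 : ℤ) (2 * n), ∑ T ∈ MCap x M,
            ρ ^ (M / 2) * s ^ (M / 2 - mlev T) * Real.exp (g * mlat x T) ≤
          ∑ x ∈ (Icc (1 : ℤ) (2 * n)).filter (fun x : ℤ => x ≤ ((M / 2 : ℕ) : ℤ)),
            ∑ T ∈ MCap x M,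
              ρ ^ (M / 2) * s ^ (M / 2 - mlev T) * Real.exp (g * mlat x T) := by
        rw [Finset.sum_filter]
        apply sum_le_sum
        intro x hx
        rw [mem_Icc] at hx
        by_cases hxM : x ≤ ((M / 2 : ℕ) : ℤ)
        · rw [if_pos hxM]
        · rw [if_neg hxM, hempty x M hx.1 (Or.inr (by omega)), sum_empty]
      refine hs2.trans ?_
      apply Finset.sum_le_sum_of_subset_of_nonneg
      · intro x hx
        rw [mem_filter, mem_Icc] at hx
        rw [mem_Icc]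
        exact ⟨hx.1.1, hx.2⟩
      · intro x _ _
        exact Finset.sum_nonneg fun T _ => by positivity
    refine e7.trans ?_
    rw [hKdef, capKM_eq]
    have hinj : Set.InjOn (fun M => M / 2) (((range (2 * n + 1)).filter (fun M => M % 2 = 0) :
        Finset ℕ) : Set ℕ) := by
      intro a ha b hb hab
      rw [mem_coe, mem_filter] at ha hb
      simp only at hab
      omega
    rw [← Finset.sum_image (f := fun m => cf s g ρ m) hinj]
    apply Finset.sum_le_sum_of_subset_of_nonneg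
    · intro m hm
      rw [mem_image] at hm
      obtain ⟨M, hM, rfl⟩ := hm
      rw [mem_filter, mem_range] at hM
      rw [mem_range]
      omega
    · intro m _ _
      exact cf_nonneg s g ρ m hs hρ

end Pool.Agent.TPT
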