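import Pool.Agent.TPT.SKAa

/-!
Module TPT_SKA, part 2: the assembled multiset represents the marked arches.
-/

set_option autoImplicit false

namespace Pool.Agent.TPT.SKAP

open Finset Filter Topology MeasureTheory
open Pool.Agent.Lib27 Pool.Agent.SapR Pool.Agent.AreaLaw Pool.Agent.FL Pool.Agent.TPT
open Pool.Agent.FS (sc rs tk1 tk2 rs_nil rs_cons rs_congr rs_add rs_ge_zero)
open Pool.Agent.FS.SKEL (tk_ne tk1_hl tk2_hl tk1_ht tk2_ht tk1_htn tk2_htn tk1_jump tk2_jump
  tk1_mem tk2_mem)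
open Pool.Agent.NSP (lc ld)

lemma MCap_sub (x : ℤ) (N : ℕ) : MCap x N ⊆ MArch x N := by
  classical
  unfold MCap
  exact filter_subset _ _

lemma MArch_zero (hH : HGM_Stmt) (x : ℤ) (hx : 1 ≤ x) : MArch x 0 = ∅ := by
  rw [Finset.eq_empty_iff_forall_notMem]
  intro a ha
  have := hH.2.1 x 0 a hx ha
  omega

lemma gap_le (hH : HGM_Stmt) {x : ℤ} {m : ℕ} (hx : 1 ≤ x) (h : (MArch x (2 * m)).Nonempty) :
    x ≤ m := by
  obtain ⟨a, ha⟩ := h
  have := (hH.2.1 x (2 * m) a hx ha).2.2.2.1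
  push_cast at this
  linarith

/-- one step of the recursion -/
lemma step (hH : HGM_Stmt) (hA : ARS_Stmt) (r : ℕ) (x : ℤ) (m : ℕ) (hx : 1 ≤ x)
    (hm : 2 * m ≤ r + 2) (p : Wd × Wd) (hp : p ∈ allowed r x) (F : ℤ → ℤ → ℤ → ℝ) :
    ∑ a ∈ MArch (x + jump p) (2 * m - (p.1.length + p.2.length)),
      F (mlev (p.1 ++ a.1 ++ p.2, p.1.length + a.2)) (mlat x (p.1 ++ a.1 ++ p.2, p.1.length + a.2))
        (ArM r x (p.1 ++ a.1 ++ p.2, p.1.length + a.2)) =
    ∑ a ∈ MArch (x + jump p) (2 * (m - hl p)),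
      inn x p F (mlev a) (mlat (x + jump p) a) (ArM r (x + jump p) a) := by
  have hp1 := ((M41.mem_allowed _ _ _).1 hp)
  have hlen := KW.len_hl hp1.1
  have hht := KW.ht_eq hp1.1
  have hset : 2 * m - (p.1.length + p.2.length) = 2 * (m - hl p) := by omega
  have h0 : 0 ≤ ht p * (2 * x + jump p) := by
    apply mul_nonneg
    · rw [hht]; positivity
    · have := hp1.2.2.1
      omega
  apply sum_congr (by rw [hset])
  intro a ha
  rw [← hset] at ha
  have e1 := hH.1 r x (2 * m - (p.1.length + p.2.length)) p a hx hp ha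
  have e2 := hA.1 r x (2 * m) p a hx hm hp ha
  rw [e1.1, e1.2, e2]
  unfold inn
  push_cast
  rw [Int.toNat_of_nonneg h0]
  congr 1 <;> ring

/-- caps as skeletons -/
noncomputable def capSk (x : ℤ) (T : Wd × ℕ) : Sk2 := ⟨[], 0, mlev T, 0, mlat x T⟩

open Classical in
/-- the other pieces -/
noncomputable def oth (r : ℕ) (x : ℤ) (m : ℕ) : Finset (Wd × Wd) :=
  (allowed r x).filter (fun p => (p ≠ tk1 ∧ p ≠ tk2 ∧ p ≠ lc ∧ p ≠ ld) ∧ hl p ≤ m)

/-- assembled multiset -/
noncomputable def asm (r : ℕ) (x : ℤ) (m : ℕ) (N : Wd × Wd → Multiset Sk2) : Multiset Sk2 :=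
  (MCap x (2 * m)).val.map (capSk x) + ∑ p ∈ oth r x m, (N p).map (shf x p) +
    (if 6 ≤ m then (N tk1).map (tok x) else 0) + (if 1 ≤ m then (N lc).map (tol x) else 0)

lemma mem_asm {r : ℕ} {x : ℤ} {m : ℕ} {N : Wd × Wd → Multiset Sk2} {a : Sk2}
    (h : a ∈ asm r x m N) : (∃ T ∈ MCap x (2 * m), a = capSk x T) ∨
      (∃ p ∈ oth r x m, ∃ b ∈ N p, a = shf x p b) ∨
      (6 ≤ m ∧ ∃ b ∈ N tk1, a = tok x b) ∨ (1 ≤ m ∧ ∃ b ∈ N lc, a = tol x b) := by
  unfold asm at h
  rw [Multiset.mem_add, Multiset.mem_add, Multiset.mem_add] at h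
  rcases h with ((h | h) | h) | h
  · left
    rw [Multiset.mem_map] at h
    obtain ⟨T, hT, rfl⟩ := h
    exact ⟨T, hT, rfl⟩
  · right; left
    rw [Multiset.mem_sum] at h
    obtain ⟨p, hp, h⟩ := h
    rw [Multiset.mem_map] at h
    obtain ⟨b, hb, rfl⟩ := h
    exact ⟨p, hp, b, hb, rfl⟩
  · right; right; left
    split_ifs at h with h6
    · rw [Multiset.mem_map] at h
      obtain ⟨b, hb, rfl⟩ := h
      exact ⟨h6, b, hb, rfl⟩
    · simp at h
  · right; right; right
    split_ifs at h with h6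
    · rw [Multiset.mem_map] at h
      obtain ⟨b, hb, rfl⟩ := h
      exact ⟨h6, b, hb, rfl⟩
    · simp at h

/-- the part of `ASk2` used in the induction, with the names of this file -/
structure AS (r : ℕ) (x : ℤ) (m : ℕ) (M : Multiset Sk2) : Prop where
  repr : ∀ F : ℤ → ℤ → ℤ → ℝ,
    ∑ a ∈ MArch x (2 * m), F (mlev a) (mlat x a) (ArM r x a) = ms (ev F) M
  len_le : ∀ σ ∈ M, σ.l.length + σ.k ≤ σ.H
  H_le : ∀ σ ∈ M, σ.H ≤ m
  y_le : ∀ σ ∈ M, ∀ y ∈ σ.l, y ≤ 2 * m + 2
  sum_le : ∀ σ ∈ M, 4 * σ.l.sum ≤ σ.A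
  A_le : ∀ σ ∈ M, σ.A ≤ 2 * m ^ 2
  lam_le : ∀ σ ∈ M, |σ.Λ| ≤ 2 * m
  count : ∀ s g τ τ' ρ : ℝ, 0 < s → 0 ≤ τ → 0 ≤ τ' → 0 < ρ →
    ∑ p ∈ Pc r, wp s g ρ p ≤ 1 + (1 - τ) * (wp s g ρ tk1 + wp s g ρ tk2) +
      (1 - τ') * (wp s g ρ lc + wp s g ρ ld) →
    ρ ^ m * ms (wv s g τ τ' m) M ≤ ∑ m' ∈ range (m + 1), cf s g ρ m'

lemma asm_repr (hK : K2M_Stmt) (hH : HGM_Stmt) (hA : ARS_Stmt) (r : ℕ) (hr : 10 ≤ r) (x : ℤ)
    (hx : 1 ≤ x) (m : ℕ) (hm : 2 * m ≤ r + 2) (N : Wd × Wd → Multiset Sk2)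
    (hN : ∀ p : Wd × Wd, p ∈ allowed r x → hl p ≤ m → AS r (x + jump p) (m - hl p) (N p))
    (F : ℤ → ℤ → ℤ → ℝ) :
    ∑ a ∈ MArch x (2 * m), F (mlev a) (mlat x a) (ArM r x a) = ms (ev F) (asm r x m N) := by
  classical
  rw [hK r x (2 * m) hx hm (fun a => F (mlev a) (mlat x a) (ArM r x a))]
  rw [sum_congr rfl (fun p hp => step hH hA r x m hx hm p hp F)]
  unfold asm
  rw [ms_add, ms_add, ms_add, ms_val, ms_sum, add_assoc, add_assoc]
  congr 1
  · apply sum_congr rfl
    intro T hT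
    rw [hA.2.1 r x (2 * m) T hx hm hT]
    unfold ev iv capSk
    simp
  · -- split the pieces
    have hz : ∀ p ∈ allowed r x, ¬ hl p ≤ m → ∑ a ∈ MArch (x + jump p) (2 * (m - hl p)),
        inn x p F (mlev a) (mlat (x + jump p) a) (ArM r (x + jump p) a) = 0 := by
      intro p hp hpm
      rw [show m - hl p = 0 by omega, mul_zero,
        MArch_zero hH _ ((M41.mem_allowed _ _ _).1 hp).2.2.1, sum_empty]
    have hrest : ∑ p ∈ oth r x m, ms (ev F) ((N p).map (shf x p)) =
        ∑ p ∈ oth r x m, ∑ a ∈ MArch (x + jump p) (2 * (m - hl p)),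
          inn x p F (mlev a) (mlat (x + jump p) a) (ArM r (x + jump p) a) := by
      apply sum_congr rfl
      intro p hp
      have hp' : p ∈ allowed r x ∧ (p ≠ tk1 ∧ p ≠ tk2 ∧ p ≠ lc ∧ p ≠ ld) ∧ hl p ≤ m := by
        unfold oth at hp
        exact mem_filter.1 hp
      have hp1 := ((M41.mem_allowed _ _ _).1 hp'.1)
      rw [(hN p hp'.1 hp'.2.2).repr (inn x p F), ms_map]
      apply ms_congr
      intro a _
      apply ev_shf
      apply mul_nonneg
      · rw [KW.ht_eq hp1.1]; positivity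
      · have := hp1.2.2.1
        omega
    rw [hrest]
    have h1 := tk1_mem r hr x hx
    have h2 := tk2_mem r hr x hx
    have h3 := lc_mem r hr x hx
    have h4 := ld_mem r hr x hx
    set G : Wd × Wd → ℝ := fun p => ∑ a ∈ MArch (x + jump p) (2 * (m - hl p)),
        inn x p F (mlev a) (mlat (x + jump p) a) (ArM r (x + jump p) a) with hG
    have hsplit : ∑ p ∈ allowed r x, G p =
        ∑ p ∈ oth r x m, G p + ((G tk1 + G tk2) + (G lc + G ld)) := by
      rw [← Finset.sum_filter_add_sum_filter_not (allowed r x)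
        (fun p => p ≠ tk1 ∧ p ≠ tk2 ∧ p ≠ lc ∧ p ≠ ld)]
      congr 1
      · rw [← Finset.sum_filter_add_sum_filter_not ((allowed r x).filter
          (fun p => p ≠ tk1 ∧ p ≠ tk2 ∧ p ≠ lc ∧ p ≠ ld)) (fun p => hl p ≤ m)]
        rw [Finset.filter_filter]
        have : ∑ p ∈ ((allowed r x).filter (fun p => p ≠ tk1 ∧ p ≠ tk2 ∧ p ≠ lc ∧ p ≠ ld)).filter
            (fun p => ¬ hl p ≤ m), G p = 0 := by
          apply sum_eq_zero
          intro p hp
          rw [mem_filter, mem_filter] at hp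
          exact hz p hp.1.1 hp.2
        rw [this, add_zero]
        apply sum_congr _ (fun _ _ => rfl)
        unfold oth
        ext p
        simp only [mem_filter]
      · have hset : (allowed r x).filter (fun p => ¬ (p ≠ tk1 ∧ p ≠ tk2 ∧ p ≠ lc ∧ p ≠ ld)) =
            {tk1, tk2, lc, ld} := by
          ext p
          rw [mem_filter, mem_insert, mem_insert, mem_insert, mem_singleton]
          constructor
          · rintro ⟨_, h3⟩
            by_contra hc
            push Not at hc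
            exact h3 hc
          · rintro (rfl | rfl | rfl | rfl)
            · exact ⟨h1, fun hc => hc.1 rfl⟩
            · exact ⟨h2, fun hc => hc.2.1 rfl⟩
            · exact ⟨h3, fun hc => hc.2.2.1 rfl⟩
            · exact ⟨h4, fun hc => hc.2.2.2 rfl⟩
        rw [hset, sum_insert (by
            rw [mem_insert, mem_insert, mem_singleton]
            rintro (h5 | h5 | h5)
            · exact tk_ne h5
            · exact tk1_ne_lc h5
            · exact tk1_ne_ld h5),
          sum_insert (by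
            rw [mem_insert, mem_singleton]
            rintro (h5 | h5)
            · exact tk2_ne_lc h5
            · exact tk2_ne_ld h5), sum_pair lc_ne_ld]
        ring
    rw [hsplit]
    congr 1
    congr 1
    · split_ifs with h6
      · have hN1 := hN tk1 h1 (by rw [tk1_hl]; exact h6)
        have e1 := hN1.repr (inn x tk1 F)
        have e2 := hN1.repr (inn x tk2 F)
        simp only [hG]
        rw [e1]
        rw [show x + jump tk2 = x + jump tk1 by rw [tk1_jump, tk2_jump],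
          show m - hl tk2 = m - hl tk1 by rw [tk1_hl, tk2_hl], e2, ms_map, ← ms_add_fun]
        apply ms_congr
        intro a _
        exact (ev_tok x F a hx).symm
      · simp only [hG]
        rw [hz tk1 h1 (by rw [tk1_hl]; exact h6), hz tk2 h2 (by rw [tk2_hl]; exact h6), ms_zero,
          add_zero]
    · split_ifs with h6
      · have hN1 := hN lc h3 (by rw [lc_hl]; exact h6)
        have e1 := hN1.repr (inn x lc F)
        have e2 := hN1.repr (inn x ld F)
        simp only [hG]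
        rw [e1]
        rw [show x + jump ld = x + jump lc by rw [lc_jump, ld_jump],
          show m - hl ld = m - hl lc by rw [lc_hl, ld_hl], e2, ms_map, ← ms_add_fun]
        apply ms_congr
        intro a _
        exact (ev_tol x F a hx).symm
      · simp only [hG]
        rw [hz lc h3 (by rw [lc_hl]; exact h6), hz ld h4 (by rw [ld_hl]; exact h6), ms_zero,
          add_zero]

end Pool.Agent.TPT.SKAP
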