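import Pool.Agent.TPT.StmtsA

/-!
# Project TPT, module SYMC: reduction to the cone
-/

set_option autoImplicit false

namespace Pool.Agent.TPT

open Finset Filter Topology MeasureTheory
open Pool.Agent.Lib27 Pool.Agent.SapR Pool.Agent.AreaLaw Pool.Agent.FL
open Pool.Agent.KCC (areaMoment)

namespace SYMCX

/-- the letter maps of the sign changes of the coordinates -/
theorem exP (σ τ : ℤ) (hσ : σ = 1 ∨ σ = -1) (hτ : τ = 1 ∨ τ = -1) :
    ∃ P : Fin 4 → Fin 4, (∀ c, P (P c) = c) ∧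
      ∀ c, step (P c) = (σ * (step c).1, τ * (step c).2) := by
  rcases hσ with rfl | rfl <;> rcases hτ with rfl | rfl
  · exact ⟨![0, 1, 2, 3], by decide, by decide⟩
  · exact ⟨![0, 3, 2, 1], by decide, by decide⟩
  · exact ⟨![2, 1, 0, 3], by decide, by decide⟩
  · exact ⟨![2, 3, 0, 1], by decide, by decide⟩

variable {P : Fin 4 → Fin 4} {σ τ : ℤ}

/-- the map of words -/
def wm' (P : Fin 4 → Fin 4) (hP : ∀ c, P (P c) = c) (n : ℕ) :
    (Fin (2 * n) → Fin 4) ≃ (Fin (2 * n) → Fin 4) where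
  toFun w := fun i => P (w i)
  invFun w := fun i => P (w i)
  left_inv w := by
    funext i
    exact hP _
  right_inv w := by
    funext i
    exact hP _

theorem pos_wm (hP : ∀ c, P (P c) = c) (hs : ∀ c, step (P c) = (σ * (step c).1, τ * (step c).2))
    (n : ℕ) (w : Fin (2 * n) → Fin 4) (k : ℕ) :
    pos n (wm' P hP n w) k = (σ * (pos n w k).1, τ * (pos n w k).2) := by
  unfold Pool.Agent.AreaLaw.pos
  ext
  · rw [Prod.fst_sum, Prod.fst_sum, Finset.mul_sum]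
    refine Finset.sum_congr rfl fun i _ => ?_
    show (step (P (w i))).1 = _
    rw [hs]
  · rw [Prod.snd_sum, Prod.snd_sum, Finset.mul_sum]
    refine Finset.sum_congr rfl fun i _ => ?_
    show (step (P (w i))).2 = _
    rw [hs]

theorem sq (h : σ = 1 ∨ σ = -1) : σ * σ = 1 := by
  rcases h with rfl | rfl <;> norm_num

theorem iffT (hσ : σ = 1 ∨ σ = -1) (hτ : τ = 1 ∨ τ = -1) (p z : ℤ × ℤ) :
    (σ * p.1, τ * p.2) = z ↔ p = (σ * z.1, τ * z.2) := by
  rcases hσ with rfl | rfl <;> rcases hτ with rfl | rfl <;>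
    simp only [Prod.ext_iff] <;> constructor <;> rintro ⟨h1, h2⟩ <;> constructor <;> linarith

theorem mem_SAP_wm (hP : ∀ c, P (P c) = c)
    (hs : ∀ c, step (P c) = (σ * (step c).1, τ * (step c).2)) (hσ : σ = 1 ∨ σ = -1)
    (hτ : τ = 1 ∨ τ = -1) (n : ℕ) (w : Fin (2 * n) → Fin 4) :
    wm' P hP n w ∈ SAP n ↔ w ∈ SAP n := by
  unfold SAP
  rw [Finset.mem_filter, Finset.mem_filter]
  simp only [Finset.mem_univ, true_and, pos_wm hP hs]
  refine and_congr ?_ ?_
  · rw [iffT hσ hτ]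
    simp only [Prod.fst_zero, Prod.snd_zero, mul_zero]
    rfl
  · refine forall_congr' fun j => forall_congr' fun k => forall_congr' fun _ => not_congr ?_
    rw [iffT hσ hτ]
    show _ = (σ * (σ * (pos n w k.val).1), τ * (τ * (pos n w k.val).2)) ↔ _
    rw [← mul_assoc, ← mul_assoc, sq hσ, sq hτ, one_mul, one_mul]

theorem area_wm (hP : ∀ c, P (P c) = c)
    (hs : ∀ c, step (P c) = (σ * (step c).1, τ * (step c).2)) (hσ : σ = 1 ∨ σ = -1)
    (hτ : τ = 1 ∨ τ = -1) (n : ℕ) (w : Fin (2 * n) → Fin 4) :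
    area n (wm' P hP n w) = area n w := by
  unfold area
  have h : ∑ k ∈ range (2 * n), ((pos n (wm' P hP n w) k).1 * (pos n (wm' P hP n w) (k + 1)).2 -
      (pos n (wm' P hP n w) (k + 1)).1 * (pos n (wm' P hP n w) k).2) =
      (σ * τ) * ∑ k ∈ range (2 * n), ((pos n w k).1 * (pos n w (k + 1)).2 -
        (pos n w (k + 1)).1 * (pos n w k).2) := by
    rw [Finset.mul_sum]
    refine Finset.sum_congr rfl fun k _ => ?_
    rw [pos_wm hP hs, pos_wm hP hs]
    ring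
  have h1 : |σ * τ| = 1 := by
    rcases hσ with rfl | rfl <;> rcases hτ with rfl | rfl <;> norm_num
  rw [h, abs_mul, h1, one_mul]

theorem Thr_map (hP : ∀ c, P (P c) = c)
    (hs : ∀ c, step (P c) = (σ * (step c).1, τ * (step c).2)) (hσ : σ = 1 ∨ σ = -1)
    (hτ : τ = 1 ∨ τ = -1) (n : ℕ) (z : ℤ × ℤ) :
    Thr n (σ * z.1, τ * z.2) = (Thr n z).map (wm' P hP n).toEmbedding := by
  ext w
  rw [Finset.mem_map_equiv]
  have h0 : (wm' P hP n).symm w = wm' P hP n w := rfl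
  rw [h0]
  unfold Thr
  rw [Finset.mem_filter, Finset.mem_filter, mem_SAP_wm hP hs hσ hτ]
  refine and_congr Iff.rfl (exists_congr fun j => and_congr Iff.rfl ?_)
  rw [pos_wm hP hs, iffT hσ hτ]

theorem cdf_map (n : ℕ) (F : Finset (Fin (2 * n) → Fin 4))
    (e : (Fin (2 * n) → Fin 4) ≃ (Fin (2 * n) → Fin 4)) (he : ∀ w, area n (e w) = area n w)
    (x : ℝ) : areaCdf n F x = areaCdf n (F.map e.toEmbedding) x := by
  unfold areaCdf
  rw [Finset.card_map, Finset.filter_map, Finset.card_map, Finset.sum_map]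
  congr 3
  refine Finset.filter_congr fun w _ => ?_
  simp only [Function.comp_apply, Equiv.coe_toEmbedding, he]

theorem mom_map (n : ℕ) (F : Finset (Fin (2 * n) → Fin 4))
    (e : (Fin (2 * n) → Fin 4) ≃ (Fin (2 * n) → Fin 4)) (he : ∀ w, area n (e w) = area n w)
    (r : ℕ) : areaMoment n F r = areaMoment n (F.map e.toEmbedding) r := by
  unfold Pool.Agent.KCC.areaMoment
  rw [Finset.card_map, Finset.sum_map, Finset.sum_map]
  simp only [Equiv.coe_toEmbedding, he]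

theorem exS (x : ℤ) : ∃ σ : ℤ, (σ = 1 ∨ σ = -1) ∧ σ * x = |x| := by
  rcases le_total 0 x with h | h
  · exact ⟨1, Or.inl rfl, by rw [one_mul, abs_of_nonneg h]⟩
  · exact ⟨-1, Or.inr rfl, by rw [abs_of_nonpos h, neg_one_mul]⟩

end SYMCX

open SYMCX in
theorem t_SYMC : SYMC_Stmt := by
  intro z
  obtain ⟨σ, hσ, h1⟩ := exS z.1
  obtain ⟨τ, hτ, h2⟩ := exS z.2
  obtain ⟨P, hP, hs⟩ := exP σ τ hσ hτ
  refine ⟨(|z.1|, |z.2|), ?_, rfl, fun n => ?_⟩
  · have a1 := abs_nonneg z.1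
    have a2 := abs_nonneg z.2
    obtain ⟨x, hx⟩ : ∃ x, x = |z.1| := ⟨_, rfl⟩
    obtain ⟨y, hy⟩ : ∃ y, y = |z.2| := ⟨_, rfl⟩
    rw [← hx, ← hy]
    rw [← hx] at a1
    rw [← hy] at a2
    show |x - y| ≤ x + y
    rw [abs_le]
    constructor <;> linarith
  · rw [← h1, ← h2, Thr_map hP hs hσ hτ n z]
    exact ⟨fun x => cdf_map n _ _ (area_wm hP hs hσ hτ n) x,
      fun r => mom_map n _ _ (area_wm hP hs hσ hτ n) r⟩

end Pool.Agent.TPT
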