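import Pool.Agent.TPT.StmtsB

/-!
# Project TPT: total weight (module ZBM)
-/

set_option autoImplicit false

namespace Pool.Agent.TPT.ZBM

open Finset Filter Topology MeasureTheory
open Pool.Agent.Lib27 Pool.Agent.SapR Pool.Agent.AreaLaw
open Pool.Agent.FL (Wd hl htn)
open Pool.Agent.FS (sc)
open Pool.Agent.Gap (IsCap closeP B0 B0_isSol qn)

lemma sc0_mono {K K' : ℕ} (h : K ≤ K') {D W : ℝ} {G : TPK.GapKernel} {n n0 : ℕ}
    (hs : TPK.Sc0 K' D W G n n0) : TPK.Sc0 K D W G n n0 where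
  D2 := hs.D2
  W2 := hs.W2
  cls := hs.cls
  big := by
    have h1 := hs.D2
    have h2 := hs.W2
    have h3 : (1 : ℝ) ≤ D * W := by nlinarith
    exact (pow_le_pow_right₀ h3 h).trans hs.big
  near := hs.near

lemma tails_mono {C C' θ : ℝ} (h : C ≤ C') (hθ : 0 ≤ θ) {n : ℕ} {f g rho : ℝ}
    (hT : TailsM C θ n f g rho) : TailsM C' θ n f g rho := by
  obtain ⟨h1, h2, h3⟩ := hT
  refine ⟨fun m => (h1 m).trans ?_, fun m => (h2 m).trans ?_, h3.trans ?_⟩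
  · exact mul_le_mul_of_nonneg_right h (pow_nonneg hθ _)
  · exact mul_le_mul_of_nonneg_right h (pow_nonneg hθ _)
  · refine mul_le_mul_of_nonneg_right ?_ (pow_nonneg hθ _)
    exact mul_le_mul_of_nonneg_right h (sq_nonneg _)

lemma total {n : ℕ} {s g : ℝ} (d : KData n s g) :
    (closeP (2 * n) (capM n s g) d.B n).eval 1 = Zm n s g := by
  have h := congrArg (Polynomial.eval 1) d.count
  rw [Polynomial.eval_finsetSum] at h
  rw [← h]
  unfold Zm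
  refine Finset.sum_congr rfl fun q _ => ?_
  rw [Polynomial.eval_mul, Polynomial.eval_C, Polynomial.eval_pow, Polynomial.eval_X, one_pow,
    mul_one]

/-- the number `n0` -/
lemma near {G : TPK.GapKernel} (hm : 1 ≤ G.mbar) (hs : 0 ≤ G.sig2) (n : ℕ) :
    |(⌊2 * G.sig2 * n / G.mbar⌋₊ : ℝ) * G.mbar - 2 * G.sig2 * n| ≤ G.mbar := by
  have hm0 : 0 < G.mbar := by linarith
  have hx : 0 ≤ 2 * G.sig2 * n / G.mbar := by positivity
  have h1 := Nat.floor_le hx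
  have h2 := Nat.lt_floor_add_one (2 * G.sig2 * n / G.mbar)
  rw [le_div_iff₀ hm0] at h1
  rw [div_lt_iff₀ hm0] at h2
  rw [abs_le]
  constructor
  · nlinarith
  · nlinarith

end Pool.Agent.TPT.ZBM

namespace Pool.Agent.TPT

open Finset Filter Topology MeasureTheory
open Pool.Agent.Lib27 Pool.Agent.SapR Pool.Agent.AreaLaw
open Pool.Agent.FL (Wd hl htn)
open Pool.Agent.FS (sc)
open Pool.Agent.Gap (IsCap closeP B0 B0_isSol qn)

/-- ZBM : total weight. -/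
theorem t_ZBM (hD : DATB_Stmt) (hPA : TPK.QPAR_Stmt) (hL : TPK.QLT_Stmt) (hR : TPK.QRAT_Stmt)
    (o1 : Gap.LT1_Stmt) (_oM2 : Gap.M2_Stmt) (_oB : Gap.BAL_Stmt) : ZBM_Stmt := by
  intro a b h0 h01
  obtain ⟨D, hD2, N, hN3, hdat⟩ := hD a b h0 h01
  obtain ⟨Kp0, Kp1, hP⟩ := hPA
  obtain ⟨Kl0, Kl1, hLT⟩ := hL
  obtain ⟨Kr0, Kr1, hRT⟩ := hR
  obtain ⟨Kb, hKb⟩ := TPK.par_bounds
  obtain ⟨L, hLim⟩ := o1 B0 B0_isSol 0 le_rfl
  obtain ⟨M0, hM0⟩ := hLim.bddAbove_range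
  obtain ⟨M, hM⟩ : ∃ M, M = max M0 1 := ⟨_, rfl⟩
  have hM1 : 1 ≤ M := by rw [hM]; exact le_max_right _ _
  have hMb : ∀ n : ℕ, ((n : ℝ) * Real.sqrt n) * (1 / 4 : ℝ) ^ n *
      (closeP 1 Gap.cap1 B0 n).eval (Real.exp (-(0 : ℝ))) ≤ M := by
    intro n
    have h := hM0 ⟨n, rfl⟩
    have he : Gap.epsn 0 n = 0 := by unfold Gap.epsn; rw [zero_div]
    simp only [he] at h
    refine h.trans ?_
    rw [hM]
    exact le_max_left _ _
  have hD1 : (1 : ℝ) ≤ D := by linarith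
  have hD0 : (0 : ℝ) < D := by linarith
  obtain ⟨W, hW⟩ : ∃ W, W = D ^ (Kr0 + 1) := ⟨_, rfl⟩
  have hW2 : 2 ≤ W := by
    rw [hW]
    calc (2 : ℝ) ≤ D := hD2
      _ = D ^ 1 := (pow_one D).symm
      _ ≤ D ^ (Kr0 + 1) := pow_le_pow_right₀ hD1 (by omega)
  have hWr : D ^ Kr0 ≤ W := by
    rw [hW]
    exact pow_le_pow_right₀ hD1 (by omega)
  obtain ⟨K, hK⟩ : ∃ K, K = Kp0 + Kl0 + Kr0 := ⟨_, rfl⟩
  obtain ⟨C', hC'⟩ : ∃ C', C' = D ^ Kl1 * Real.sqrt (D ^ Kp1) * M + (D * W) ^ Kl1 + D ^ Kl1 :=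
    ⟨_, rfl⟩
  have hDW : 1 ≤ D * W := by nlinarith
  have hC'0 : 0 < C' := by rw [hC']; positivity
  obtain ⟨C, hC⟩ : ∃ C, C = max (max D (D ^ Kr1)) C' := ⟨_, rfl⟩
  have hC1 : D ≤ C := by rw [hC]; exact (le_max_left _ _).trans (le_max_left _ _)
  have hC2 : D ^ Kr1 ≤ C := by rw [hC]; exact (le_max_right _ _).trans (le_max_left _ _)
  have hC3 : C' ≤ C := by rw [hC]; exact le_max_right _ _
  have hC0 : 0 < C := hD0.trans_le hC1
  have hinv : D⁻¹ ≤ 1 / 2 := by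
    rw [inv_le_comm₀ hD0 (by norm_num)]
    norm_num
    exact hD2
  have hinv0 : 0 < D⁻¹ := inv_pos.2 hD0
  refine ⟨C, 1 - D⁻¹, hC0, by linarith, by linarith, max N ⌈(D * W) ^ K⌉₊, ?_⟩
  intro n hn f g hbox
  have hnN : N ≤ n := (le_max_left _ _).trans hn
  have hnK : (D * W) ^ K ≤ n := (Nat.le_ceil _).trans (by exact_mod_cast (le_max_right _ _).trans hn)
  obtain ⟨d, hk⟩ := hdat n hnN f g hbox
  have hcls := hk.cls
  obtain ⟨V, hV⟩ := hk.csol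
  obtain ⟨hm1, _, _, _, hs1, _⟩ := hKb D hD2 d.G hcls
  have hsig : 0 ≤ d.G.sig2 := hinv0.le.trans hs1
  obtain ⟨n0, hn0⟩ : ∃ n0 : ℕ, n0 = ⌊2 * d.G.sig2 * n / d.G.mbar⌋₊ := ⟨_, rfl⟩
  have hSc : TPK.Sc0 K D W d.G n n0 :=
    { D2 := hD2, W2 := hW2, cls := hcls, big := hnK, near := by
        rw [hn0]; exact ZBM.near hm1 hsig n }
  have hScE : ∀ K' : ℕ, K' ≤ K → TPK.Sc K' D W d.G n n0 0 0 := fun K' hK' =>
    { toSc0 := ZBM.sc0_mono hK' hSc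
      eps_nonneg := le_rfl
      eps_le := by rw [zero_mul]; linarith
      eps_eq := by rw [mul_zero, mul_zero] }
  obtain ⟨⟨g1, g2, _, _, _, g6⟩, _, _⟩ := hP D W d.G n n0 0 0 (hScE Kp0 (by omega))
  obtain ⟨r1, _, _⟩ := hRT D hD2 d.G hcls (2 * n) (capM n (Real.exp (-f)) g)
    (capM n (Real.exp (-f)) g) V V d.B hk.ccap hk.ccap hV hV d.sol W n n0
    (ZBM.sc0_mono (by omega) hSc) hWr
  obtain ⟨c, c1, c2, c3⟩ := hLT D hD2 d.G hcls (2 * n) (capM n (Real.exp (-f)) g)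
    (capM n (Real.exp (-f)) g) V V d.B B0 hk.ccap hk.ccap hV hV d.sol B0_isSol
  have c4 := c3 W n n0 0 0 (hScE Kl0 (by omega))
  rw [neg_zero, Real.exp_zero] at c4
  rw [ZBM.total] at r1 c4
  have hn1 : (1 : ℝ) ≤ n := by exact_mod_cast g1
  have hn0' : (0 : ℝ) < n := by linarith
  refine ⟨d.G.rho, d.crit, ZBM.tails_mono hC1 (by linarith) hk.tails,
    (inv_anti₀ hD0 hC1).trans hcls.rho_ge, hk.rho_le, ?_, ?_⟩
  · refine le_trans ?_ r1
    exact inv_anti₀ (by positivity) hC2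
  · -- upper bound
    have hMb' := hMb n0
    rw [neg_zero, Real.exp_zero] at hMb'
    have hc0 : 0 ≤ c := le_trans (by positivity) c1
    have hsq : Real.sqrt ((n0 : ℝ) / n) ≤ Real.sqrt (D ^ Kp1) := by
      refine Real.sqrt_le_sqrt ?_
      rw [div_le_iff₀ hn0']
      exact g6
    have e1 : c * Real.sqrt ((n0 : ℝ) / n) * (((n0 : ℝ) * Real.sqrt n0) * (1 / 4 : ℝ) ^ n0
        * (closeP 1 Gap.cap1 B0 n0).eval 1) ≤ D ^ Kl1 * Real.sqrt (D ^ Kp1) * M := by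
      have e2 : 0 ≤ c * Real.sqrt ((n0 : ℝ) / n) := mul_nonneg hc0 (Real.sqrt_nonneg _)
      calc c * Real.sqrt ((n0 : ℝ) / n) * (((n0 : ℝ) * Real.sqrt n0) * (1 / 4 : ℝ) ^ n0
            * (closeP 1 Gap.cap1 B0 n0).eval 1) ≤ c * Real.sqrt ((n0 : ℝ) / n) * M :=
            mul_le_mul_of_nonneg_left hMb' e2
        _ ≤ D ^ Kl1 * Real.sqrt (D ^ Kp1) * M := by
            refine mul_le_mul_of_nonneg_right ?_ (by linarith)
            exact mul_le_mul c2 hsq (Real.sqrt_nonneg _) (by positivity)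
    have hqn : 1 ≤ qn n := by
      unfold qn
      rw [Real.one_le_sqrt, Real.one_le_sqrt]
      exact hn1
    have e3 : (D * W) ^ Kl1 / qn n ≤ (D * W) ^ Kl1 :=
      div_le_self (by positivity) hqn
    have e4 : D ^ Kl1 / Real.sqrt W ≤ D ^ Kl1 := by
      refine div_le_self (by positivity) ?_
      rw [Real.one_le_sqrt]
      linarith
    have e5 := (abs_le.1 c4).2
    have e6 : sc n * d.G.rho ^ n * Zm n (Real.exp (-f)) g ≤ C' := by
      unfold sc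
      rw [hC']
      linarith
    exact e6.trans hC3

end Pool.Agent.TPT
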