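import Pool.Agent.TPT.StmtsA

/-!
# Project TPT (MP_f6626d_co): module CENM, centering of the canonical words
-/

set_option autoImplicit false

namespace Pool.Agent.TPT

open Finset Filter Topology MeasureTheory
open Pool.Agent.Lib27 Pool.Agent.SapR Pool.Agent.AreaLaw Pool.Agent.FL
open Pool.Agent.FS (sc)

namespace CENMx

lemma step_bound (a : Fin 4) : |lev (step a)| ≤ 1 ∧ |lat (step a)| ≤ 1 := by
  fin_cases a <;> simp [step, lev, lat]

lemma pos_zero (n : ℕ) (s : Fin (2 * n) → Fin 4) : pos n s 0 = 0 := by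
  unfold pos
  simp

lemma pos_succ (n : ℕ) (s : Fin (2 * n) → Fin 4) (k : ℕ) (hk : k < 2 * n) :
    pos n s (k + 1) = pos n s k + step (s ⟨k, hk⟩) := by
  classical
  unfold pos
  have h1 : Finset.univ.filter (fun i : Fin (2 * n) => i.val < k + 1) =
      insert ⟨k, hk⟩ (Finset.univ.filter (fun i : Fin (2 * n) => i.val < k)) := by
    ext i
    simp only [mem_filter, mem_univ, true_and, mem_insert, Fin.ext_iff]
    omega
  rw [h1, Finset.sum_insert (by simp), add_comm]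

lemma pos_bound (n : ℕ) (w : Fin (2 * n) → Fin 4) : ∀ j : ℕ, j ≤ 2 * n →
    |lev (pos n w j)| ≤ j ∧ |lat (pos n w j)| ≤ j := by
  intro j
  induction j with
  | zero =>
    intro _
    rw [pos_zero]
    simp [lev, lat]
  | succ k ih =>
    intro hk
    obtain ⟨h1, h2⟩ := ih (by omega)
    obtain ⟨h3, h4⟩ := step_bound (w ⟨k, by omega⟩)
    rw [pos_succ n w k (by omega)]
    have e1 : lev (pos n w k + step (w ⟨k, by omega⟩)) =
        lev (pos n w k) + lev (step (w ⟨k, by omega⟩)) := by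
      simp only [lev, Prod.fst_add, Prod.snd_add]
      ring
    have e2 : lat (pos n w k + step (w ⟨k, by omega⟩)) =
        lat (pos n w k) + lat (step (w ⟨k, by omega⟩)) := by
      simp only [lat, Prod.fst_add, Prod.snd_add]
      ring
    rw [e1, e2]
    push_cast
    exact ⟨(abs_add_le _ _).trans (by linarith), (abs_add_le _ _).trans (by linarith)⟩

/-- the weight of a canonical word -/
lemma wm_eq (n : ℕ) (f g : ℝ) (q : QM) (hq : zl q ≤ n) : wm n (Real.exp (-f)) g q =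
    Real.exp (-(f * n)) * Real.exp (f * ((zl q : ℤ) : ℝ) + g * (zt q : ℝ)) := by
  unfold wm
  rw [← Real.exp_nat_mul, ← Real.exp_add, ← Real.exp_add, Nat.cast_sub hq]
  congr 1
  push_cast
  ring

open Classical in
lemma core (hRt : ROOT_Stmt) (hH : HGM_Stmt) (n : ℕ) (hn : 1 ≤ n) (f g rho C θ : ℝ)
    (hrho : 0 < rho) (hC : 0 < C) (hT : TailsM C θ n f g rho)
    (hZ : C⁻¹ ≤ sc n * rho ^ n * Zm n (Real.exp (-f)) g)
    (hs : 3 * C ^ 2 * (n : ℝ) ^ 3 * sc n * θ ^ n ≤ 2) (ψ : ℤ → ℤ → ℝ)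
    (hψ : ∀ w ∈ SAP n, ∀ j < 2 * n, |ψ (slev n w j) (lat (pos n w j))| ≤ 3 * n)
    (h0 : ∑ w ∈ SAP n, ∑ j ∈ range (2 * n),
      Real.exp (f * slev n w j + g * lat (pos n w j)) * ψ (slev n w j) (lat (pos n w j)) = 0) :
    |∑ q ∈ Omm n, wm n (Real.exp (-f)) g q * ψ (zl q) (zt q)| ≤ Zm n (Real.exp (-f)) g := by
  have hn0 : (0 : ℝ) < n := by exact_mod_cast hn
  have hr : 0 < rho ^ n := pow_pos hrho n
  have hsc : 0 < sc n := by
    unfold sc
    exact mul_pos hn0 (Real.sqrt_pos.2 hn0)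
  -- the two parts
  have hroot := hRt n hn (fun _ y z => Real.exp (f * y + g * z) * ψ y z)
  have hsplit : (∑ w ∈ SAP n, ∑ j ∈ (range (2 * n)).filter (fun j => ¬ NoB n w j),
      Real.exp (f * slev n w j + g * lat (pos n w j)) * ψ (slev n w j) (lat (pos n w j))) +
      ∑ w ∈ SAP n, ∑ j ∈ (range (2 * n)).filter (fun j => NoB n w j),
      Real.exp (f * slev n w j + g * lat (pos n w j)) * ψ (slev n w j) (lat (pos n w j)) = 0 := by
    rw [← h0, ← Finset.sum_add_distrib]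
    refine Finset.sum_congr rfl fun w _ => ?_
    rw [add_comm]
    exact Finset.sum_filter_add_sum_filter_not _ _ _
  have hA : |∑ w ∈ SAP n, ∑ j ∈ (range (2 * n)).filter (fun j => NoB n w j),
      Real.exp (f * slev n w j + g * lat (pos n w j)) * ψ (slev n w j) (lat (pos n w j))| ≤
      3 * n * ∑ w ∈ SAP n, ∑ j ∈ (range (2 * n)).filter (fun j => NoB n w j),
        Real.exp (f * slev n w j + g * lat (pos n w j)) := by
    rw [Finset.mul_sum]
    refine (Finset.abs_sum_le_sum_abs _ _).trans (Finset.sum_le_sum fun w hw => ?_)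
    rw [Finset.mul_sum]
    refine (Finset.abs_sum_le_sum_abs _ _).trans (Finset.sum_le_sum fun j hj => ?_)
    rw [abs_mul, abs_of_pos (Real.exp_pos _), mul_comm]
    exact mul_le_mul_of_nonneg_right
      (hψ w hw j (Finset.mem_range.1 (Finset.mem_filter.1 hj).1)) (Real.exp_pos _).le
  set B : ℝ := ∑ w ∈ SAP n, ∑ j ∈ (range (2 * n)).filter (fun j => NoB n w j),
    Real.exp (f * slev n w j + g * lat (pos n w j)) with hB
  have hT3 : rho ^ n * Real.exp (-(f * n)) * B ≤ C * (n : ℝ) ^ 2 * θ ^ n := by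
    refine le_trans (le_of_eq ?_) hT.2.2
    rw [hB, Finset.mul_sum]
    refine Finset.sum_congr rfl fun w _ => ?_
    rw [Finset.mul_sum]
  -- the sum over the canonical words
  set Q : ℝ := ∑ q ∈ Omm n, Real.exp (f * ((zl q : ℤ) : ℝ) + g * (zt q : ℝ)) * ψ (zl q) (zt q)
    with hQ
  have h1 : |2 * Q| ≤ 3 * n * B := by
    have h2 : 2 * Q = -∑ w ∈ SAP n, ∑ j ∈ (range (2 * n)).filter (fun j => NoB n w j),
        Real.exp (f * slev n w j + g * lat (pos n w j)) * ψ (slev n w j) (lat (pos n w j)) := by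
      rw [hQ, ← hroot]
      linarith
    rw [h2, abs_neg]
    exact hA
  have h3 : ∑ q ∈ Omm n, wm n (Real.exp (-f)) g q * ψ (zl q) (zt q) =
      Real.exp (-(f * n)) * Q := by
    rw [hQ, Finset.mul_sum]
    refine Finset.sum_congr rfl fun q hq => ?_
    rw [wm_eq n f g q (hH.2.2.2 n q hq).1, mul_assoc]
  rw [h3, abs_mul, abs_of_pos (Real.exp_pos _)]
  have h4 : |Q| ≤ 3 / 2 * n * B := by
    rw [abs_mul, abs_of_pos (two_pos : (0 : ℝ) < 2)] at h1
    linarith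
  have h5 : rho ^ n * (Real.exp (-(f * n)) * |Q|) ≤ 3 / 2 * n * (C * (n : ℝ) ^ 2 * θ ^ n) := by
    calc rho ^ n * (Real.exp (-(f * n)) * |Q|)
        ≤ rho ^ n * (Real.exp (-(f * n)) * (3 / 2 * n * B)) := by gcongr
      _ = 3 / 2 * n * (rho ^ n * Real.exp (-(f * n)) * B) := by ring
      _ ≤ _ := by gcongr
  have h6 : 1 ≤ C * (sc n * rho ^ n * Zm n (Real.exp (-f)) g) := by
    have := mul_le_mul_of_nonneg_left hZ hC.le
    rwa [mul_inv_cancel₀ hC.ne'] at this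
  have hZ0 : 0 ≤ Zm n (Real.exp (-f)) g := by
    unfold Zm
    refine Finset.sum_nonneg fun q _ => ?_
    unfold wm
    positivity
  -- compare
  have h7 : C * sc n * (rho ^ n * (Real.exp (-(f * n)) * |Q|)) ≤
      C * sc n * (rho ^ n * Zm n (Real.exp (-f)) g) := by
    calc C * sc n * (rho ^ n * (Real.exp (-(f * n)) * |Q|))
        ≤ C * sc n * (3 / 2 * n * (C * (n : ℝ) ^ 2 * θ ^ n)) := by gcongr
      _ = (3 * C ^ 2 * (n : ℝ) ^ 3 * sc n * θ ^ n) / 2 := by ring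
      _ ≤ 1 := by linarith
      _ ≤ C * (sc n * rho ^ n * Zm n (Real.exp (-f)) g) := h6
      _ = _ := by ring
  have h8 : 0 < C * sc n := mul_pos hC hsc
  exact le_of_mul_le_mul_left (le_of_mul_le_mul_left h7 h8) hr

lemma small (C θ : ℝ) (h0 : 0 < θ) (h1 : θ < 1) : ∃ N : ℕ, ∀ n : ℕ, N ≤ n →
    3 * C ^ 2 * (n : ℝ) ^ 3 * sc n * θ ^ n ≤ 2 := by
  have hlim : Tendsto (fun n : ℕ => 3 * C ^ 2 * ((n : ℝ) ^ 5 * θ ^ n)) atTop
      (𝓝 (3 * C ^ 2 * 0)) :=
    (tendsto_pow_const_mul_const_pow_of_abs_lt_one 5 (by rwa [abs_of_pos h0])).const_mul _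
  rw [mul_zero] at hlim
  obtain ⟨N, hN⟩ := Filter.eventually_atTop.1 (hlim.eventually_lt_const (two_pos))
  refine ⟨max N 1, fun n hn => ?_⟩
  have hn1 : (1 : ℝ) ≤ n := by exact_mod_cast (le_max_right N 1).trans hn
  have h2 : sc n ≤ (n : ℝ) ^ 2 := by
    unfold sc
    have h3 : Real.sqrt n ≤ n := by
      rw [Real.sqrt_le_left (by linarith)]
      nlinarith
    nlinarith
  have h4 := (hN n ((le_max_left N 1).trans hn)).le
  calc 3 * C ^ 2 * (n : ℝ) ^ 3 * sc n * θ ^ n ≤ 3 * C ^ 2 * (n : ℝ) ^ 3 * (n : ℝ) ^ 2 * θ ^ n := by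
        gcongr
    _ = 3 * C ^ 2 * ((n : ℝ) ^ 5 * θ ^ n) := by ring
    _ ≤ 2 := h4

end CENMx

theorem t_CENM (hC : CHOM_Stmt) (hRt : ROOT_Stmt) (hZ : ZBM_Stmt) (hH : HGM_Stmt) :
    CENM_Stmt := by
  intro e he
  obtain ⟨a, b, ha, hab, N1, h1⟩ := hC e he
  obtain ⟨C, θ, hC0, hθ, hθ1, N2, h2⟩ := hZ a b ha hab
  obtain ⟨N3, h3⟩ := CENMx.small C θ hθ hθ1
  refine ⟨a, b, ha, hab, max (max N1 N2) (max N3 1), fun n hn h t hh hh' ht => ?_⟩
  have hn1 : 1 ≤ n := ((le_max_right N3 1).trans (le_max_right _ _)).trans hn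
  obtain ⟨f, g, hbox, hf, hg⟩ := h1 n (((le_max_left N1 N2).trans (le_max_left _ _)).trans hn) h t
    hh hh' ht
  obtain ⟨rho, hcrit, hT, -, -, hlow, -⟩ :=
    h2 n (((le_max_right N1 N2).trans (le_max_left _ _)).trans hn) f g hbox
  have hs := h3 n (((le_max_left N3 1).trans (le_max_right _ _)).trans hn)
  have hn0 : (1 : ℝ) ≤ n := by exact_mod_cast hn1
  have hhn : (h : ℝ) ≤ n := by nlinarith
  have htn : |(t : ℝ)| ≤ n := by
    have h4 : ((|t| : ℤ) : ℝ) ≤ (h : ℝ) := by exact_mod_cast ht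
    rw [Int.cast_abs] at h4
    exact h4.trans hhn
  refine ⟨f, g, hbox, ?_, ?_⟩
  · refine CENMx.core hRt hH n hn1 f g rho C θ hcrit.1 hC0 hT hlow hs
      (fun y _ => (y : ℝ) - h) ?_ hf
    intro w _ j hj
    have h4 := (CENMx.pos_bound n w j hj.le).1
    have h5 : |(slev n w j : ℝ)| ≤ 2 * n := by
      have h6 : |slev n w j| ≤ 2 * (n : ℤ) := by
        have : (j : ℤ) ≤ 2 * (n : ℤ) := by omega
        exact h4.trans this
      have h7 : ((|slev n w j| : ℤ) : ℝ) ≤ ((2 * (n : ℤ) : ℤ) : ℝ) := by exact_mod_cast h6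
      rw [Int.cast_abs] at h7
      push_cast at h7
      exact h7
    show |(slev n w j : ℝ) - h| ≤ 3 * n
    have h8 : |(h : ℝ)| ≤ n := by rwa [Nat.abs_cast]
    exact (abs_sub _ _).trans (by linarith)
  · refine CENMx.core hRt hH n hn1 f g rho C θ hcrit.1 hC0 hT hlow hs
      (fun _ z => (z : ℝ) - t) ?_ hg
    intro w _ j hj
    have h4 := (CENMx.pos_bound n w j hj.le).2
    have h5 : |(lat (pos n w j) : ℝ)| ≤ 2 * n := by
      have h6 : |lat (pos n w j)| ≤ 2 * (n : ℤ) := by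
        have : (j : ℤ) ≤ 2 * (n : ℤ) := by omega
        exact h4.trans this
      have h7 : ((|lat (pos n w j)| : ℤ) : ℝ) ≤ ((2 * (n : ℤ) : ℤ) : ℝ) := by exact_mod_cast h6
      rw [Int.cast_abs] at h7
      push_cast at h7
      exact h7
    show |(lat (pos n w j) : ℝ) - t| ≤ 3 * n
    exact (abs_sub _ _).trans (by linarith)

end Pool.Agent.TPT
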