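import Pool.Agent.TPT.StmtsA
import Pool.Agent.Lib_helper27.Transl

/-!
# TPT, module CLSA: identity for the class of the polygons through two points
-/

set_option autoImplicit false

namespace Pool.Agent.TPT

open Finset Filter Topology MeasureTheory
open Pool.Agent.Lib27 Pool.Agent.SapR Pool.Agent.AreaLaw Pool.Agent.FL

namespace CLSA

lemma area2 (n : ℕ) (s : Fin (2 * n) → Fin 4) :
    2 * area n s = (((|dbl 0 (List.ofFn s)| : ℤ)) : ℝ) := by
  rw [area_eq]
  unfold T
  push_cast
  ring

lemma point_iff (p z : ℤ × ℤ) : (lev p = lev z ∧ lat p = lat z) ↔ p = z := by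
  constructor
  · rintro ⟨h1, h2⟩
    unfold lev at h1
    unfold lat at h2
    ext <;> omega
  · rintro rfl
    exact ⟨rfl, rfl⟩

open Classical in
lemma one_sum (n : ℕ) (z : ℤ × ℤ) (w : Fin (2 * n) → Fin 4) (hw : w ∈ SAP n) (a : ℝ) :
    (if ∃ j < 2 * n, pos n w j = z then a else 0) =
      ∑ j ∈ range (2 * n), if pos n w j = z then a else 0 := by
  by_cases h : ∃ j < 2 * n, pos n w j = z
  · rw [if_pos h]
    obtain ⟨j, hj, hz⟩ := h
    rw [Finset.sum_eq_single j]
    · rw [if_pos hz]
    · intro i hi hij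
      rw [Finset.mem_range] at hi
      rw [if_neg]
      intro hiz
      have h2 := (Finset.mem_filter.1 hw).2.2 ⟨i, hi⟩ ⟨j, hj⟩ (fun h => hij (by simpa using h))
      exact h2 (hiz.trans hz.symm)
    · intro hj'
      exact absurd (Finset.mem_range.2 hj) hj'
  · rw [if_neg h]
    symm
    refine Finset.sum_eq_zero fun j hj => ?_
    rw [if_neg]
    exact fun hz => h ⟨j, Finset.mem_range.1 hj, hz⟩

end CLSA

open CLSA in
theorem t_CLSA (hRt : ROOT_Stmt) : CLSA_Stmt := by
  classical
  intro n z φ hn
  have hR := hRt n hn (fun y u v => if u = lev z ∧ v = lat z then φ y else 0)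
  have e1 : ∑ w ∈ Thr n z, φ (2 * area n w) =
      ∑ w ∈ SAP n, ∑ j ∈ range (2 * n), if pos n w j = z then φ (2 * area n w) else 0 := by
    unfold Thr
    rw [Finset.sum_filter]
    exact Finset.sum_congr rfl fun w hw => one_sum n z w hw _
  have e2 : ∀ w : Fin (2 * n) → Fin 4,
      (∑ j ∈ range (2 * n), if pos n w j = z then φ (2 * area n w) else 0) =
      (∑ j ∈ (range (2 * n)).filter (fun j => ¬ NoB n w j),
        (if slev n w j = lev z ∧ lat (pos n w j) = lat z then
          φ ((|dbl 0 (List.ofFn w)| : ℤ) : ℝ) else 0)) +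
      ∑ j ∈ (range (2 * n)).filter (fun j => NoB n w j ∧ pos n w j = z), φ (2 * area n w) := by
    intro w
    have h3 : ∑ j ∈ (range (2 * n)).filter (fun j => NoB n w j ∧ pos n w j = z),
        φ (2 * area n w) = ∑ j ∈ (range (2 * n)).filter (fun j => NoB n w j),
          (if pos n w j = z then φ (2 * area n w) else 0) := by
      rw [← Finset.filter_filter, Finset.sum_filter]
    rw [h3, add_comm, ← Finset.sum_filter_add_sum_filter_not (range (2 * n))
      (fun j => NoB n w j) (fun j => if pos n w j = z then φ (2 * area n w) else 0)]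
    congr 1
    refine Finset.sum_congr rfl fun j _ => ?_
    rw [area2]
    have h4 := point_iff (pos n w j) z
    unfold slev
    by_cases h5 : pos n w j = z
    · rw [if_pos h5, if_pos (h4.2 h5)]
    · rw [if_neg h5, if_neg (fun h => h5 (h4.1 h))]
  rw [e1, Finset.sum_congr rfl fun w _ => e2 w, Finset.sum_add_distrib]
  congr 1
  rw [Finset.sum_filter]
  exact hR

end Pool.Agent.TPT
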