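import Pool.Agent.TPT.StmtsA

/-!
# Project TPT, module DGM: the diagonal argument
-/

set_option autoImplicit false

namespace Pool.Agent.TPT

open Finset Filter Topology MeasureTheory
open Pool.Agent.Lib27 Pool.Agent.SapR Pool.Agent.AreaLaw Pool.Agent.FL
open Pool.Agent.KCS (airyMoment)
open Pool.Agent.KCC (areaMoment)

namespace DGM

lemma area_nonneg' (n : ℕ) (s : Fin (2 * n) → Fin 4) : 0 ≤ area n s := by
  unfold area
  positivity

lemma areaCdf_mono' (n : ℕ) (F : Finset (Fin (2 * n) → Fin 4)) : Monotone (areaCdf n F) := by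
  classical
  intro x y hxy
  unfold areaCdf
  apply div_le_div_of_nonneg_right _ (Nat.cast_nonneg _)
  have : F.filter (fun s => area n s * (F.card : ℝ) ≤ x * ∑ t ∈ F, area n t) ⊆
      F.filter (fun s => area n s * (F.card : ℝ) ≤ y * ∑ t ∈ F, area n t) := by
    intro s hs
    rw [mem_filter] at hs ⊢
    exact ⟨hs.1, hs.2.trans (mul_le_mul_of_nonneg_right hxy
      (Finset.sum_nonneg fun t _ => area_nonneg' n t))⟩
  exact_mod_cast card_le_card this

/-- the enumeration of the lattice -/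
def E : ℕ ≃ ℤ × ℤ := (Denumerable.eqv (ℤ × ℤ)).symm

/-- the norm -/
def L (z : ℤ × ℤ) : ℝ := ((|z.1| + |z.2| : ℤ) : ℝ)

/-- the hypothesis -/
def okz (e : ℝ) (n : ℕ) (z : ℤ × ℤ) : Prop := e * n ≤ L z ∧ L z ≤ (1 - e) * n

lemma okz_anti (e e' : ℝ) (n : ℕ) (z : ℤ × ℤ) (h : e' ≤ e) (hz : okz e n z) : okz e' n z := by
  have hn : (0 : ℝ) ≤ n := Nat.cast_nonneg n
  exact ⟨(mul_le_mul_of_nonneg_right h hn).trans hz.1,
    hz.2.trans (mul_le_mul_of_nonneg_right (by linarith) hn)⟩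

lemma okz_half {e : ℝ} (he : e ≤ 1 / 4) {n : ℕ} (hn : 2 ≤ n) :
    okz e n (((n / 2 : ℕ) : ℤ), 0) := by
  have hn0 : (0 : ℝ) ≤ n := Nat.cast_nonneg n
  have h1 : L (((n / 2 : ℕ) : ℤ), 0) = ((n / 2 : ℕ) : ℝ) := by
    have h0 : |((n / 2 : ℕ) : ℤ)| = ((n / 2 : ℕ) : ℤ) := abs_of_nonneg (Int.natCast_nonneg _)
    show ((|((n / 2 : ℕ) : ℤ)| + |(0 : ℤ)| : ℤ) : ℝ) = _
    rw [h0, abs_zero, add_zero]
    exact Int.cast_natCast _
  have h2 : (n : ℝ) ≤ 4 * ((n / 2 : ℕ) : ℝ) := by
    have : n ≤ 4 * (n / 2) := by omega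
    exact_mod_cast this
  have h3 : 2 * ((n / 2 : ℕ) : ℝ) ≤ n := by
    have : 2 * (n / 2) ≤ n := by omega
    exact_mod_cast this
  refine ⟨?_, ?_⟩
  · rw [h1]
    nlinarith
  · rw [h1]
    nlinarith

end DGM

open DGM in
theorem t_DGM (hD : FS.DIAG_Stmt) (hM : NSP.DIAGM_Stmt) : DGM_Stmt := by
  classical
  rintro ⟨μ, hμ, hint, hst⟩ hF
  have key : ∀ e : ℝ, 0 < e → ∀ h : ℕ → ℕ, ∃ z : ℕ → ℤ × ℤ,
      (∀ n, okz e n (E (h n)) → z n = E (h n)) ∧
      (∀ x : ℝ, μ {x} = 0 →
        Tendsto (fun n : ℕ => areaCdf n (Thr n (z n)) x) atTop (𝓝 (μ (Set.Iic x)).toReal)) ∧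
      ∀ r : ℕ, Tendsto (fun n : ℕ => areaMoment n (Thr n (z n)) r) atTop (𝓝 (airyMoment r)) := by
    intro e he h
    refine ⟨fun n => if okz e n (E (h n)) then E (h n) else (((n / 2 : ℕ) : ℤ), 0), ?_, ?_⟩
    · intro n hn
      exact if_pos hn
    · refine hF μ hμ hint hst (min e (1 / 4)) (lt_min he (by norm_num)) _ ?_
      filter_upwards [eventually_ge_atTop 2] with n hn
      by_cases hok : okz e n (E (h n))
      · rw [if_pos hok]
        exact okz_anti _ _ _ _ (min_le_left _ _) hok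
      · rw [if_neg hok]
        exact okz_half (min_le_right _ _) hn
  have hanti : ∀ (e e' : ℝ) (n h : ℕ), e' ≤ e → okz e n (E h) → okz e' n (E h) :=
    fun e e' n h he => okz_anti e e' n (E h) he
  obtain ⟨e1, he1, hl1, hc1⟩ := hD μ hμ (fun e n h => okz e n (E h))
    (fun n h x => areaCdf n (Thr n (E h)) x) (fun n h => areaCdf_mono' n _) hanti (by
      intro e he h x hx d hd
      obtain ⟨z, hz, hz1, -⟩ := key e he h
      obtain ⟨N, hN⟩ := Metric.tendsto_atTop.1 (hz1 x hx) d hd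
      filter_upwards [eventually_ge_atTop N] with n hn hok
      have e1 := hN n hn
      rw [hz n hok, Real.dist_eq] at e1
      exact e1.le)
  obtain ⟨e2, he2, hl2, hc2⟩ := hM (fun e n h => okz e n (E h))
    (fun r n h => areaMoment n (Thr n (E h)) r) airyMoment hanti (by
      intro e he h r d hd
      obtain ⟨z, hz, -, hz1⟩ := key e he h
      obtain ⟨N, hN⟩ := Metric.tendsto_atTop.1 (hz1 r) d hd
      filter_upwards [eventually_ge_atTop N] with n hn hok
      have e1 := hN n hn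
      rw [hz n hok, Real.dist_eq] at e1
      exact e1.le)
  refine ⟨μ, hμ, hint, hst, fun n => max (e1 n) (e2 n), fun n => lt_max_of_lt_left (he1 n), ?_, ?_⟩
  · have := hl1.max hl2
    simpa using this
  · intro z hz
    have hEz : ∀ n, E (E.symm (z n)) = z n := fun n => E.apply_symm_apply _
    have hz' : ∀ᶠ n : ℕ in atTop, okz (max (e1 n) (e2 n)) n (E (E.symm (z n))) := by
      filter_upwards [hz] with n hn
      rw [hEz]
      exact hn
    constructor
    · intro x hx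
      have a1 := hc1 (fun n => E.symm (z n)) (by
        filter_upwards [hz'] with n hn using hanti _ _ _ _ (le_max_left _ _) hn) x hx
      refine a1.congr fun n => ?_
      rw [hEz]
    · intro r
      have a1 := hc2 (fun n => E.symm (z n)) (by
        filter_upwards [hz'] with n hn using hanti _ _ _ _ (le_max_right _ _) hn) r
      refine a1.congr fun n => ?_
      rw [hEz]

end Pool.Agent.TPT
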