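import Pool.Agent.TPT.StmtsA

/-!
# FARM: subexponential force
-/

set_option autoImplicit false

namespace Pool.Agent.TPT

open Finset Filter Topology MeasureTheory
open Pool.Agent.Lib27 Pool.Agent.SapR Pool.Agent.AreaLaw Pool.Agent.FL

namespace FARM

lemma lev_step (a : Fin 4) : |lev (step a)| = 1 := by
  fin_cases a <;> simp [lev, step]

lemma lat_step (a : Fin 4) : |lat (step a)| = 1 := by
  fin_cases a <;> simp [lat, step]

lemma lev_pos (n : ℕ) (w : Fin (2 * n) → Fin 4) (j : ℕ) : |slev n w j| ≤ 2 * n := by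
  have e1 : slev n w j = ∑ i ∈ Finset.univ.filter (fun i : Fin (2 * n) => i.val < j),
      lev (step (w i)) := by
    unfold slev pos lev
    rw [Prod.fst_sum, Prod.snd_sum, ← Finset.sum_add_distrib]
  rw [e1]
  refine (Finset.abs_sum_le_sum_abs _ _).trans ?_
  rw [Finset.sum_congr rfl (fun i _ => lev_step (w i)), Finset.sum_const, nsmul_eq_mul, mul_one]
  have h1 := Finset.card_filter_le (Finset.univ : Finset (Fin (2 * n))) (fun i => i.val < j)
  rw [Finset.card_univ, Fintype.card_fin] at h1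
  exact_mod_cast h1

lemma lat_pos (n : ℕ) (w : Fin (2 * n) → Fin 4) (j : ℕ) : |lat (pos n w j)| ≤ 2 * n := by
  have e1 : lat (pos n w j) = ∑ i ∈ Finset.univ.filter (fun i : Fin (2 * n) => i.val < j),
      lat (step (w i)) := by
    unfold pos lat
    rw [Prod.fst_sum, Prod.snd_sum, ← Finset.sum_sub_distrib]
  rw [e1]
  refine (Finset.abs_sum_le_sum_abs _ _).trans ?_
  rw [Finset.sum_congr rfl (fun i _ => lat_step (w i)), Finset.sum_const, nsmul_eq_mul, mul_one]
  have h1 := Finset.card_filter_le (Finset.univ : Finset (Fin (2 * n))) (fun i => i.val < j)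
  rw [Finset.card_univ, Fintype.card_fin] at h1
  exact_mod_cast h1

lemma ex_le {f g a b δ A : ℝ} (hf : |f| ≤ δ) (hg : |g| ≤ δ) (ha : |a| ≤ A) (hb : |b| ≤ A) :
    Real.exp (f * a + g * b) ≤ Real.exp (2 * δ * A) := by
  apply Real.exp_le_exp.2
  have h1 : f * a ≤ δ * A := (le_abs_self _).trans (by
    rw [abs_mul]
    exact mul_le_mul hf ha (abs_nonneg _) ((abs_nonneg _).trans hf))
  have h2 : g * b ≤ δ * A := (le_abs_self _).trans (by
    rw [abs_mul]
    exact mul_le_mul hg hb (abs_nonneg _) ((abs_nonneg _).trans hg))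
  linarith

lemma ZF_zero (n : ℕ) : ZF n 0 0 = (2 * n) * ((SAP n).card : ℝ) := by
  unfold ZF
  simp [mul_comm]

end FARM

open FARM in
open Classical in
/-- FARM: subexponential force -/
theorem t_FARM (hS : SYMB_Stmt) (hP : SUBB.POL_Stmt) : FARM_Stmt := by
  intro v hv
  obtain ⟨c, hc, h1⟩ := hP v hv
  obtain ⟨N, hN⟩ := eventually_atTop.1 h1
  refine ⟨c / 4, by positivity, max N 1, fun n hn f g hf hg => ?_⟩
  have hn1 : 1 ≤ n := (le_max_right _ _).trans hn
  have hnN : N ≤ n := (le_max_left _ _).trans hn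
  have hn0 : (0 : ℝ) < n := by exact_mod_cast hn1
  have hvn : 0 < v * n := by positivity
  obtain ⟨hS1, hS2⟩ := hS n (v * n) hvn
  have hN' := hN n hnN
  obtain ⟨B1, hB1⟩ : ∃ B, B = (SAP n).filter
    (fun w => ∃ j < 2 * n, v * n ≤ |(lat (pos n w j) : ℝ)|) := ⟨_, rfl⟩
  obtain ⟨B2, hB2⟩ : ∃ B, B = (SAP n).filter
    (fun w => ∃ j < 2 * n, v * n ≤ |(slev n w j : ℝ)|) := ⟨_, rfl⟩
  have b1 : (B1.card : ℝ) ≤ Real.exp (-(c * n)) * ((SAP n).card : ℝ) := by
    refine le_trans ?_ hN'
    rw [hB1]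
    exact_mod_cast hS1
  have b2 : (B2.card : ℝ) ≤ Real.exp (-(c * n)) * ((SAP n).card : ℝ) := by
    refine le_trans ?_ hN'
    rw [hB2]
    exact_mod_cast hS2
  obtain ⟨M, hM⟩ : ∃ M, M = Real.exp (2 * (c / 4) * v * n) := ⟨_, rfl⟩
  obtain ⟨L, hL⟩ : ∃ L, L = Real.exp (c * n) := ⟨_, rfl⟩
  have hM1 : 1 ≤ M := by rw [hM]; exact Real.one_le_exp (by positivity)
  have hL0 : 0 < L := by rw [hL]; exact Real.exp_pos _
  have key : ∀ w ∈ SAP n, ∑ j ∈ range (2 * n),
      Real.exp (f * slev n w j + g * lat (pos n w j)) ≤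
      (2 * n) * (M + (if w ∈ B1 then L else 0) + (if w ∈ B2 then L else 0)) := by
    intro w hw
    have h2 : ∀ j ∈ range (2 * n), Real.exp (f * slev n w j + g * lat (pos n w j)) ≤
        M + (if w ∈ B1 then L else 0) + (if w ∈ B2 then L else 0) := by
      intro j hj
      rw [mem_range] at hj
      by_cases hw12 : w ∈ B1 ∨ w ∈ B2
      · have h3 : Real.exp (f * slev n w j + g * lat (pos n w j)) ≤ L := by
          rw [hL]
          have e1 : c * n = 2 * (c / 4) * (2 * n) := by ring
          rw [e1]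
          apply ex_le hf hg
          · exact_mod_cast lev_pos n w j
          · exact_mod_cast lat_pos n w j
        rcases hw12 with h4 | h4
        · rw [if_pos h4]
          have : (0 : ℝ) ≤ if w ∈ B2 then L else 0 := by split_ifs <;> linarith
          linarith
        · rw [if_pos h4]
          have : (0 : ℝ) ≤ if w ∈ B1 then L else 0 := by split_ifs <;> linarith
          linarith
      · rw [not_or] at hw12
        rw [if_neg hw12.1, if_neg hw12.2, add_zero, add_zero, hM]
        have e1 : 2 * (c / 4) * v * n = 2 * (c / 4) * (v * n) := by ring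
        rw [e1]
        apply ex_le hf hg
        · by_contra h5
          apply hw12.2
          rw [hB2, mem_filter]
          exact ⟨hw, j, hj, (not_le.1 h5).le⟩
        · by_contra h5
          apply hw12.1
          rw [hB1, mem_filter]
          exact ⟨hw, j, hj, (not_le.1 h5).le⟩
    refine (Finset.sum_le_sum h2).trans ?_
    rw [Finset.sum_const, card_range, nsmul_eq_mul]
    push_cast
    exact le_rfl
  have h3 : ZF n f g ≤ (2 * n) * (((SAP n).card : ℝ) * M + (B1.card : ℝ) * L +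
      (B2.card : ℝ) * L) := by
    unfold ZF
    refine (Finset.sum_le_sum key).trans ?_
    rw [← Finset.mul_sum, Finset.sum_add_distrib, Finset.sum_add_distrib, Finset.sum_const,
      nsmul_eq_mul]
    have f1 : ∑ w ∈ SAP n, (if w ∈ B1 then L else 0) = (B1.card : ℝ) * L := by
      rw [← Finset.sum_filter, Finset.sum_const, nsmul_eq_mul, Finset.filter_mem_eq_inter]
      have : SAP n ∩ B1 = B1 := Finset.inter_eq_right.2 (by rw [hB1]; exact filter_subset _ _)
      rw [this]
    have f2 : ∑ w ∈ SAP n, (if w ∈ B2 then L else 0) = (B2.card : ℝ) * L := by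
      rw [← Finset.sum_filter, Finset.sum_const, nsmul_eq_mul, Finset.filter_mem_eq_inter]
      have : SAP n ∩ B2 = B2 := Finset.inter_eq_right.2 (by rw [hB2]; exact filter_subset _ _)
      rw [this]
    rw [f1, f2]
  have h4 : Real.exp (-(c * n)) * L = 1 := by
    rw [hL, ← Real.exp_add]; simp
  have h5 : (B1.card : ℝ) * L ≤ ((SAP n).card : ℝ) := by
    calc (B1.card : ℝ) * L ≤ Real.exp (-(c * n)) * ((SAP n).card : ℝ) * L :=
          mul_le_mul_of_nonneg_right b1 hL0.le
      _ = (Real.exp (-(c * n)) * L) * ((SAP n).card : ℝ) := by ring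
      _ = _ := by rw [h4, one_mul]
  have h6 : (B2.card : ℝ) * L ≤ ((SAP n).card : ℝ) := by
    calc (B2.card : ℝ) * L ≤ Real.exp (-(c * n)) * ((SAP n).card : ℝ) * L :=
          mul_le_mul_of_nonneg_right b2 hL0.le
      _ = (Real.exp (-(c * n)) * L) * ((SAP n).card : ℝ) := by ring
      _ = _ := by rw [h4, one_mul]
  rw [ZF_zero, ← hM]
  have h7 : (0 : ℝ) ≤ ((SAP n).card : ℝ) := Nat.cast_nonneg _
  calc ZF n f g ≤ (2 * n) * (((SAP n).card : ℝ) * M + (B1.card : ℝ) * L + (B2.card : ℝ) * L) := h3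
    _ ≤ (2 * n) * (((SAP n).card : ℝ) * M + ((SAP n).card : ℝ) * M + ((SAP n).card : ℝ) * M) := by
        apply mul_le_mul_of_nonneg_left _ (by positivity)
        have h8 : ((SAP n).card : ℝ) ≤ ((SAP n).card : ℝ) * M := le_mul_of_one_le_right h7 hM1
        linarith
    _ = 3 * M * (2 * n * ((SAP n).card : ℝ)) := by ring

end Pool.Agent.TPT
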