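import Pool.Agent.TPT.StmtsA

/-!
# Project TPT, module FIXM: fixed `e` (helper63)
-/

set_option autoImplicit false
set_option maxHeartbeats 4000000

namespace Pool.Agent.TPT

open Finset Filter Topology MeasureTheory
open Pool.Agent.Lib27 Pool.Agent.SapR Pool.Agent.AreaLaw Pool.Agent.FL
open Pool.Agent.FS (sc)
open Pool.Agent.KCS (airyMoment)
open Pool.Agent.KCC (areaMoment)

theorem t_FIXM (hC : CENM_Stmt) (hE : EQM_Stmt) (hR : REGFM_Stmt) (hS : SYMC_Stmt) :
    FIXM_Stmt := by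
  classical
  intro μ hμ hmom hst e he z hz
  choose z' hz1 hz2 hz3 using fun n => hS (z n)
  obtain ⟨a, b, ha, hab, N, hCN⟩ := hC e he
  -- levels
  set h : ℕ → ℕ := fun n => (lev (z' n)).toNat with hh
  set t : ℕ → ℤ := fun n => lat (z' n) with ht
  have hlev : ∀ n, ((h n : ℕ) : ℤ) = lev (z' n) := by
    intro n
    have h0 : 0 ≤ lev (z' n) := by
      rw [hz2 n]
      positivity
    exact Int.toNat_of_nonneg h0
  have habs : ∀ n, |t n| ≤ (h n : ℤ) := by
    intro n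
    rw [hlev n]
    exact hz1 n
  -- the forces
  have hex : ∀ n : ℕ, ∃ F : ℝ × ℝ, Box a b F.1 F.2 ∧
      (N ≤ n → e * n ≤ (h n : ℝ) → (h n : ℝ) ≤ (1 - e) * n → CenM n F.1 F.2 (h n) (t n)) := by
    intro n
    by_cases hg : N ≤ n ∧ e * n ≤ (h n : ℝ) ∧ (h n : ℝ) ≤ (1 - e) * n
    · obtain ⟨f, g, h1, h2⟩ := hCN n hg.1 (h n) (t n) hg.2.1 hg.2.2 (habs n)
      exact ⟨(f, g), h1, fun _ _ _ => h2⟩
    · refine ⟨(a, 0), ⟨le_rfl, hab, ?_⟩, fun h1 h2 h3 => absurd ⟨h1, h2, h3⟩ hg⟩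
      rw [abs_zero]
      linarith
  choose F hF1 hF2 using hex
  have hreg : RegM a b (fun n => (F n).1) (fun n => (F n).2) h t := by
    refine hE a b ha hab _ _ h t hF1 ?_ ?_
    · filter_upwards [hz, eventually_ge_atTop N] with n hn1 hn2
      have h1 : ((|(z n).1| + |(z n).2| : ℤ) : ℝ) = (h n : ℝ) := by
        rw [← hz2 n, ← hlev n]
        simp
      rw [h1] at hn1
      exact hF2 n hn2 hn1.1 hn1.2
    · intro n
      rw [hlev n]
      refine ⟨(z' n).1, ?_⟩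
      simp only [ht, lev, lat]
      ring
  obtain ⟨h1, h2⟩ := hR μ hμ hmom hst a b ha hab _ _ h t hreg z'
    (Eventually.of_forall fun n => ⟨(hlev n).symm, rfl⟩)
  refine ⟨fun x hx => ?_, fun r => ?_⟩
  · refine (h1 x hx).congr fun n => ?_
    exact ((hz3 n n).1 x).symm
  · refine (h2 r).congr fun n => ?_
    exact ((hz3 n n).2 r).symm

end Pool.Agent.TPT
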