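import Pool.Agent.TPT.StmtsA

/-!
# Project TPT, module GRDM: gradient at the minimiser
-/

set_option autoImplicit false

namespace Pool.Agent.TPT

open Finset

namespace GRDMx

/-- One variable: at a global minimiser of `log (∑ exp (u x_i + c_i)) - u h` the mean is `h`. -/
theorem one (ι : Type) (I : Finset ι) (x c : ι → ℝ) (h f : ℝ) (hI : I.Nonempty)
    (hmin : ∀ u : ℝ, Real.log (∑ i ∈ I, Real.exp (f * x i + c i)) - f * h ≤
      Real.log (∑ i ∈ I, Real.exp (u * x i + c i)) - u * h) :
    ∑ i ∈ I, Real.exp (f * x i + c i) * (x i - h) = 0 := by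
  have hpos : 0 < ∑ i ∈ I, Real.exp (f * x i + c i) := sum_pos (fun i _ => Real.exp_pos _) hI
  have hd1 : HasDerivAt (fun u : ℝ => ∑ i ∈ I, Real.exp (u * x i + c i))
      (∑ i ∈ I, Real.exp (f * x i + c i) * x i) f := by
    apply HasDerivAt.fun_sum
    intro i _
    have h1 : HasDerivAt (fun u : ℝ => u * x i + c i) (x i) f := by
      simpa using ((hasDerivAt_id f).mul_const (x i)).add_const (c i)
    exact h1.exp
  have hd2 : HasDerivAt (fun u : ℝ => Real.log (∑ i ∈ I, Real.exp (u * x i + c i)) - u * h)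
      ((∑ i ∈ I, Real.exp (f * x i + c i) * x i) / (∑ i ∈ I, Real.exp (f * x i + c i)) - h) f := by
    have h1 := hd1.log hpos.ne'
    have h2 : HasDerivAt (fun u : ℝ => u * h) h f := by
      simpa using (hasDerivAt_id f).mul_const h
    exact h1.sub h2
  have hloc : IsLocalMin (fun u : ℝ => Real.log (∑ i ∈ I, Real.exp (u * x i + c i)) - u * h) f :=
    Filter.Eventually.of_forall hmin
  have h0 := hloc.hasDerivAt_eq_zero hd2
  have h3 : ∑ i ∈ I, Real.exp (f * x i + c i) * x i =
      h * ∑ i ∈ I, Real.exp (f * x i + c i) := by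
    have h4 : (∑ i ∈ I, Real.exp (f * x i + c i) * x i) /
        (∑ i ∈ I, Real.exp (f * x i + c i)) = h := by linarith
    rw [div_eq_iff hpos.ne'] at h4
    exact h4
  simp only [mul_sub, sum_sub_distrib]
  rw [h3, ← sum_mul, mul_comm, sub_self]

end GRDMx

theorem t_GRDM : GRDM_Stmt := by
  intro ι I x y h t f g hI hmin
  constructor
  · exact GRDMx.one ι I x (fun i => g * y i) h f hI (fun u => by have := hmin u g; linarith)
  · have h1 := GRDMx.one ι I y (fun i => f * x i) t g hI (fun u => by
      have h2 := hmin f u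
      have h3 : ∀ v : ℝ, ∑ i ∈ I, Real.exp (v * y i + f * x i) =
          ∑ i ∈ I, Real.exp (f * x i + v * y i) := fun v =>
        sum_congr rfl fun i _ => by rw [add_comm]
      rw [h3, h3]
      linarith)
    rw [← h1]
    exact sum_congr rfl fun i _ => by rw [add_comm (f * x i)]

end Pool.Agent.TPT
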