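import Pool.Agent.TPT.Stmts0
import Pool.Agent.Lib_helper24.SapR.K2
import Pool.Agent.Lib_helper41.SapR.Planar

/-!
# Project TPT, module K2M: decomposition of the marked arches at the lowest cut below the mark
-/

set_option autoImplicit false

namespace Pool.Agent.TPT

open Finset
open Pool.Agent.Lib27 Pool.Agent.SapR Pool.Agent.AreaLaw Pool.Agent.FL

namespace K2M

/-- the vertex number `j` is a starting point of a step -/
lemma vertex_mem (s : List (Fin 4)) (p : ℤ × ℤ) (j : ℕ) (h : j < s.length) :
    ep p (s.take j) ∈ vs p s := by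
  induction s generalizing p j with
  | nil => simp at h
  | cons d s ih =>
    cases j with
    | zero => simp
    | succ j =>
      rw [List.take_succ_cons, ep_cons, vs_cons, List.mem_cons]
      right
      apply ih
      simpa using h

/-- inner vertices of an arch are above the level `0` -/
lemma arch_mark {y : ℤ} {w : List (Fin 4)} (hw : Arch y w) (j : ℕ) (h0 : 0 < j)
    (h : j < w.length) : 0 < lev (ep 0 (w.take j)) := by
  apply hw.2.2.2
  cases w with
  | nil => simp at h
  | cons d s =>
    cases j with
    | zero => omega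
    | succ j =>
      rw [List.take_succ_cons, ep_cons, vs_cons, List.tail_cons]
      apply vertex_mem
      simpa using h

/-- the mark of a glued word, on the middle part -/
lemma take_mid (U w D : List (Fin 4)) (j : ℕ) (h : j ≤ w.length) :
    (U ++ w ++ D).take (U.length + j) = U ++ w.take j := by
  rw [List.take_append_of_le_length (by rw [List.length_append]; omega), List.take_append,
    List.take_of_length_le (by omega)]
  congr 2
  omega

/-- the position of a mark above the cut level of a glued word -/
lemma mark_mid {x y : ℤ} {U w D : List (Fin 4)} (g : Glued x y U w D) (j : ℕ)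
    (hj : j < (U ++ w ++ D).length)
    (hl : lev (ep 0 U) < lev (ep 0 ((U ++ w ++ D).take j))) :
    U.length < j ∧ j < U.length + w.length := by
  constructor
  · by_contra hc
    push Not at hc
    rw [List.append_assoc, List.take_append_of_le_length hc] at hl
    rcases hc.eq_or_lt with h1 | h1
    · rw [h1, List.take_length] at hl
      omega
    · have := (g.sp.lev_U _ (vertex_mem U 0 j h1)).2
      omega
  · by_contra hc
    push Not at hc
    rw [List.length_append, List.length_append] at hj
    rw [List.take_append, List.take_of_length_le (by rw [List.length_append]; omega),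
      ep_append0, ep_append0, lev_add, lev_add, g.arch.lev_ep, List.length_append] at hl
    have := (g.sp.lev_D _ (vertex_mem D 0 (j - (U.length + w.length)) (by omega))).1
    omega

lemma mem_MArch (x : ℤ) (N : ℕ) (a : Wd × ℕ) :
    a ∈ MArch x N ↔ a.1.length = N ∧ Arch x a.1 ∧ 0 < a.2 ∧ a.2 < N := by
  classical
  unfold MArch
  rw [mem_filter, mem_product, mem_words, mem_range]
  tauto

lemma mem_MCap (x : ℤ) (N : ℕ) (a : Wd × ℕ) :
    a ∈ MCap x N ↔ a ∈ MArch x N ∧ ∀ h : ℤ, 1 ≤ h → h < mlev a → ¬ Cut (vt 0 a.1) h := by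
  classical
  unfold MCap
  rw [mem_filter]

end K2M

open K2M in
theorem k2m : K2M_Stmt := by
  intro r x N hx hN F
  classical
  have hcap : MCap x N = (MArch x N).filter
      (fun a => ∀ h : ℤ, 1 ≤ h → h < mlev a → ¬ Cut (vt 0 a.1) h) := by
    ext a
    rw [mem_filter, mem_MCap]
  rw [← sum_filter_add_sum_filter_not (MArch x N)
    (fun a => ∀ h : ℤ, 1 ≤ h → h < mlev a → ¬ Cut (vt 0 a.1) h), hcap]
  refine congrArg (fun t => _ + t) ?_
  · rw [sum_sigma']
    symm
    refine sum_bij (fun z _ => (z.1.1 ++ z.2.1 ++ z.1.2, z.1.1.length + z.2.2)) ?_ ?_ ?_ ?_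
    · rintro ⟨p, w, j⟩ hz
      rw [mem_sigma, SapR.mem_allowed, mem_MArch, SapR.mem_Pc] at hz
      obtain ⟨⟨⟨⟨hsp, hirr⟩, hlen⟩, -, hy, hdisj⟩, hwl, hwa, hj0, hj⟩ := hz
      simp only at hwl hwa hj0 hj
      have g : Glued x (x + jump p) p.1 w p.2 := ⟨hsp, hwa, rfl, hdisj⟩
      rw [mem_filter, mem_MArch]
      simp only
      refine ⟨⟨?_, g.arch_total, by omega, by omega⟩, ?_⟩
      · have h1 : 0 < w.length := hwa.length_pos
        rw [List.length_append, List.length_append]
        omega
      · intro h
        refine h (lev (ep 0 p.1)) (by have := g.sp.hpos; omega) ?_ g.cut_at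
        have h1 := arch_mark hwa j hj0 (by omega)
        have h2 := g.sp.hpos
        unfold mlev
        simp only
        rw [take_mid _ _ _ _ (by omega), ep_append0, lev_add]
        omega
    · rintro ⟨p, w, j⟩ hz ⟨p2, w2, j2⟩ hz2 e
      rw [mem_sigma, SapR.mem_allowed, mem_MArch, SapR.mem_Pc] at hz hz2
      obtain ⟨⟨⟨⟨hsp, hirr⟩, hlen⟩, -, hy, hdisj⟩, hwl, hwa, hj0, hj⟩ := hz
      obtain ⟨⟨⟨⟨hsp2, hirr2⟩, hlen2⟩, -, hy2, hdisj2⟩, hwl2, hwa2, hj02, hj2⟩ := hz2
      simp only at hwl hwa hwl2 hwa2
      have g : Glued x (x + jump p) p.1 w p.2 := ⟨hsp, hwa, rfl, hdisj⟩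
      have g2 : Glued x (x + jump p2) p2.1 w2 p2.2 := ⟨hsp2, hwa2, rfl, hdisj2⟩
      have e0 := (Prod.ext_iff.1 e).1
      have e0' := (Prod.ext_iff.1 e).2
      simp only at e0 e0'
      obtain ⟨e1, e2, e3⟩ := glued_unique g g2 e0 hirr hirr2
      have e4 : p = p2 := Prod.ext e1 e3
      subst e4
      subst e2
      have e5 : j = j2 := by omega
      subst e5
      rfl
    · rintro ⟨w, j⟩ hw
      rw [mem_filter, mem_MArch] at hw
      obtain ⟨⟨hl, hwa, hj0, hj⟩, hcut⟩ := hw
      simp only at hl hwa hj0 hj hcut
      push Not at hcut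
      -- the lowest cut
      obtain ⟨h0, hh0, hlt, hc0⟩ := hcut
      have hex : ∃ n : ℕ, Cut (vt 0 w) ((n : ℤ) + 1) := ⟨(h0 - 1).toNat, by
        rw [Int.toNat_of_nonneg (by omega), sub_add_cancel]; exact hc0⟩
      have hfind := Nat.find_spec hex
      have hmin : ∀ k : ℤ, 0 < k → k < (Nat.find hex : ℤ) + 1 → ¬ Cut (vt 0 w) k := by
        intro k hk1 hk2 hck
        have := Nat.find_min' hex (m := (k - 1).toNat) (by
          rw [Int.toNat_of_nonneg (by omega), sub_add_cancel]; exact hck)
        omega
      have hle : (Nat.find hex : ℤ) + 1 ≤ h0 := by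
        by_contra hc
        exact hmin h0 (by omega) (by omega) hc0
      obtain ⟨U, w', D, y, e, g, hU⟩ := exists_glued hwa _ (by omega) hfind
      have hirr : Irred U D := by
        rw [g.irred_iff]
        intro k hk1 hk2
        rw [← e]
        exact hmin k hk1 (by omega)
      have hy1 : 1 ≤ x + jump (U, D) := k3 x (U, D) hx g.sp g.disj
      have hlen : w.length = U.length + w'.length + D.length := by
        rw [e, List.length_append, List.length_append]
      have hmark : lev (ep 0 U) < lev (ep 0 ((U ++ w' ++ D).take j)) := by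
        rw [← e, hU]
        unfold mlev at hlt
        simp only at hlt
        omega
      have hpos := mark_mid g j (by rw [← e]; omega) hmark
      refine ⟨⟨(U, D), (w', j - U.length)⟩, ?_, ?_⟩
      · rw [mem_sigma, SapR.mem_allowed, mem_MArch, SapR.mem_Pc]
        refine ⟨⟨⟨⟨g.sp, hirr⟩, ?_⟩, hx, hy1, g.disj⟩, ?_, ?_, ?_, ?_⟩
        · simp only
          omega
        · simp only
          omega
        · simp only
          rw [g.hy]
          exact g.arch
        · simp only
          omega
        · simp only
          omega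
      · exact Prod.ext e.symm (by simp only; omega)
    · rintro ⟨p, w, j⟩ _
      rfl

end Pool.Agent.TPT
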