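import Pool.Agent.TPT.StmtsA

/-!
# MINM: the minimiser of the logarithm of a sum of exponentials minus a linear function
-/

set_option autoImplicit false

namespace Pool.Agent.TPT

open Finset

namespace MINMaux

/-- the function to be minimised -/
noncomputable def Ph {ι : Type} (I : Finset ι) (x y : ι → ℝ) (h t : ℝ) (p : ℝ × ℝ) : ℝ :=
  Real.log (∑ i ∈ I, Real.exp (p.1 * x i + p.2 * y i)) - p.1 * h - p.2 * t

theorem sum_pos {ι : Type} (I : Finset ι) (x y : ι → ℝ) (hI : I.Nonempty) (p : ℝ × ℝ) :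
    0 < ∑ i ∈ I, Real.exp (p.1 * x i + p.2 * y i) :=
  Finset.sum_pos (fun _ _ => Real.exp_pos _) hI

theorem Ph_cont {ι : Type} (I : Finset ι) (x y : ι → ℝ) (h t : ℝ) (hI : I.Nonempty) :
    Continuous (Ph I x y h t) := by
  unfold Ph
  refine Continuous.sub (Continuous.sub (Continuous.log ?_ fun p => (sum_pos I x y hI p).ne') ?_) ?_
  · fun_prop
  · fun_prop
  · fun_prop

theorem exists_sign (f : ℝ) : ∃ σ : ℝ, |σ| = 1 ∧ ∀ a : ℝ, f * a = |f| * (σ * a) := by
  rcases le_total 0 f with hf | hf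
  · exact ⟨1, abs_one, fun a => by rw [abs_of_nonneg hf, one_mul]⟩
  · exact ⟨-1, by rw [abs_neg, abs_one], fun a => by rw [abs_of_nonpos hf]; ring⟩

theorem Ph_ge {ι : Type} (I : Finset ι) (x y : ι → ℝ) (h t δ : ℝ)
    (H : ∀ σ σ' : ℝ, |σ| = 1 → |σ'| = 1 → ∃ i ∈ I, |h| + δ ≤ σ * x i ∧ |t| + δ ≤ σ' * y i)
    (p : ℝ × ℝ) : δ * (|p.1| + |p.2|) ≤ Ph I x y h t p := by
  obtain ⟨σ, hσ, h1⟩ := exists_sign p.1
  obtain ⟨σ', hσ', h2⟩ := exists_sign p.2
  obtain ⟨i, hi, hx, hy⟩ := H σ σ' hσ hσ'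
  have h3 : p.1 * x i + p.2 * y i ≤ Real.log (∑ i ∈ I, Real.exp (p.1 * x i + p.2 * y i)) := by
    rw [← Real.log_exp (p.1 * x i + p.2 * y i)]
    refine Real.log_le_log (Real.exp_pos _) ?_
    exact Finset.single_le_sum (f := fun i => Real.exp (p.1 * x i + p.2 * y i))
      (fun _ _ => (Real.exp_pos _).le) hi
  have h4 : |p.1| * (|h| + δ) ≤ p.1 * x i := by
    rw [h1]
    exact mul_le_mul_of_nonneg_left hx (abs_nonneg _)
  have h5 : |p.2| * (|t| + δ) ≤ p.2 * y i := by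
    rw [h2]
    exact mul_le_mul_of_nonneg_left hy (abs_nonneg _)
  have h6 : p.1 * h ≤ |p.1| * |h| := by
    rw [← abs_mul]
    exact le_abs_self _
  have h7 : p.2 * t ≤ |p.2| * |t| := by
    rw [← abs_mul]
    exact le_abs_self _
  unfold Ph
  nlinarith [h3, h4, h5, h6, h7]

end MINMaux

open MINMaux in
theorem t_MINM : MINM_Stmt := by
  intro ι I x y h t δ hI hδ H
  set R : ℝ := Real.log I.card / δ with hR
  have hlog : 0 ≤ Real.log I.card := Real.log_nonneg (by exact_mod_cast hI.card_pos)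
  set K : Set (ℝ × ℝ) := {p | δ * (|p.1| + |p.2|) ≤ Real.log I.card} with hK
  have hKc : IsClosed K := by
    refine isClosed_le ?_ continuous_const
    fun_prop
  have hKs : K ⊆ Set.Icc (-R) R ×ˢ Set.Icc (-R) R := by
    rintro p hp
    have hp' : |p.1| + |p.2| ≤ R := by
      rw [hR, le_div_iff₀ hδ, mul_comm]
      exact hp
    have h1 : |p.1| ≤ R := by linarith [abs_nonneg p.2]
    have h2 : |p.2| ≤ R := by linarith [abs_nonneg p.1]
    exact ⟨abs_le.1 h1, abs_le.1 h2⟩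
  have hKk : IsCompact K := (isCompact_Icc.prod isCompact_Icc).of_isClosed_subset hKc hKs
  have h0 : ((0 : ℝ), (0 : ℝ)) ∈ K := by
    change δ * (|(0 : ℝ)| + |(0 : ℝ)|) ≤ Real.log I.card
    rw [abs_zero, add_zero, mul_zero]
    exact hlog
  obtain ⟨p, hp, hmin⟩ := hKk.exists_isMinOn ⟨_, h0⟩ (Ph_cont I x y h t hI).continuousOn
  refine ⟨p.1, p.2, hp, fun f' g' => ?_⟩
  change Ph I x y h t p ≤ Ph I x y h t (f', g')
  by_cases hm : (f', g') ∈ K
  · exact hmin hm
  · have h1 : Real.log I.card < δ * (|f'| + |g'|) := not_le.1 hm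
    have h2 := Ph_ge I x y h t δ H (f', g')
    have h3 : Ph I x y h t p ≤ Ph I x y h t (0, 0) := hmin h0
    have h4 : Ph I x y h t (0, 0) = Real.log I.card := by
      unfold Ph
      simp
    linarith

end Pool.Agent.TPT
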