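import Pool.Agent.TPT.SKAb

/-!
Module TPT_SKA, part 3: bounds, weighted count, induction.
-/

set_option autoImplicit false

namespace Pool.Agent.TPT.SKAP

open Finset Filter Topology MeasureTheory
open Pool.Agent.Lib27 Pool.Agent.SapR Pool.Agent.AreaLaw Pool.Agent.FL Pool.Agent.TPT
open Pool.Agent.FS (sc rs tk1 tk2 rs_nil rs_cons rs_congr rs_add rs_ge_zero)
open Pool.Agent.FS.SKEL (tk_ne tk1_hl tk2_hl tk1_ht tk2_ht tk1_htn tk2_htn tk1_jump tk2_jump
  tk1_mem tk2_mem)
open Pool.Agent.NSP (lc ld)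

lemma AS.nonempty {r : ℕ} {x : ℤ} {m : ℕ} {M : Multiset Sk2} (h : AS r x m M) {a : Sk2}
    (ha : a ∈ M) : (MArch x (2 * m)).Nonempty := by
  have h1 := h.repr (fun _ _ _ => 1)
  have h2 : ∀ b : Sk2, 1 ≤ ev (fun _ _ _ => 1) b := by
    intro b
    have h0 : ∀ j t : ℕ, 1 ≤ iv (fun _ _ _ => 1) b j t := by
      intro j t
      unfold iv
      simp only [mul_one]
      calc (1 : ℝ) = ((b.k.choose 0 : ℕ) : ℝ) := by simp
        _ ≤ _ := Finset.single_le_sum (f := fun c => ((b.k.choose c : ℕ) : ℝ))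
          (fun c _ => Nat.cast_nonneg _) (mem_range.2 (by omega))
    unfold ev
    exact (h0 0 0).trans (rs_ge_zero b.l _ (fun j t _ _ => zero_le_one.trans (h0 j t)))
  have h3 : 1 ≤ ms (ev (fun _ _ _ => 1)) M := by
    obtain ⟨M', rfl⟩ := Multiset.exists_cons_of_mem ha
    unfold ms
    rw [Multiset.map_cons, Multiset.sum_cons]
    have h4 : 0 ≤ (M'.map (ev (fun _ _ _ => 1))).sum := by
      apply Multiset.sum_nonneg
      intro y hy
      rw [Multiset.mem_map] at hy
      obtain ⟨b, _, rfl⟩ := hy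
      linarith [h2 b]
    linarith [h2 a]
  by_contra hc
  rw [Finset.not_nonempty_iff_eq_empty] at hc
  rw [hc, Finset.sum_empty] at h1
  linarith

lemma glue_nonempty (hK : K2M_Stmt) {r : ℕ} {x : ℤ} {m : ℕ} (hx : 1 ≤ x) (hm2 : 2 * m ≤ r + 2)
    {p : Wd × Wd} (hp : p ∈ allowed r x)
    (hm : hl p ≤ m) (h : (MArch (x + jump p) (2 * (m - hl p))).Nonempty) :
    (MArch x (2 * m)).Nonempty := by
  have hp1 := ((M41.mem_allowed _ _ _).1 hp)
  have hlen := KW.len_hl hp1.1
  have hset : 2 * m - (p.1.length + p.2.length) = 2 * (m - hl p) := by omega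
  have h1 := hK r x (2 * m) hx hm2 (fun _ => 1)
  by_contra hc
  rw [Finset.not_nonempty_iff_eq_empty] at hc
  rw [hc, Finset.sum_empty] at h1
  have h2 : 0 ≤ ∑ a ∈ MCap x (2 * m), (1 : ℝ) := Finset.sum_nonneg fun _ _ => zero_le_one
  have h3 : (1 : ℝ) ≤ ∑ p ∈ allowed r x,
      ∑ a ∈ MArch (x + jump p) (2 * m - (p.1.length + p.2.length)), (1 : ℝ) := by
    refine le_trans ?_ (Finset.single_le_sum (f := fun p : Wd × Wd =>
      ∑ a ∈ MArch (x + jump p) (2 * m - (p.1.length + p.2.length)), (1 : ℝ))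
      (fun p _ => Finset.sum_nonneg fun _ _ => zero_le_one) hp)
    rw [hset, Finset.sum_const, nsmul_eq_mul, mul_one]
    exact_mod_cast Finset.card_pos.2 h
  linarith

lemma asm_inv (hH : HGM_Stmt) (h : HG_Stmt) (r : ℕ) (hr : 10 ≤ r) (x : ℤ) (hx : 1 ≤ x) (m : ℕ)
    (N : Wd × Wd → Multiset Sk2)
    (hN : ∀ p : Wd × Wd, p ∈ allowed r x → hl p ≤ m → AS r (x + jump p) (m - hl p) (N p)) :
    (∀ a ∈ asm r x m N, a.l.length + a.k ≤ a.H) ∧ (∀ a ∈ asm r x m N, a.H ≤ m) ∧
    (∀ a ∈ asm r x m N, 4 * a.l.sum ≤ a.A) ∧ (∀ a ∈ asm r x m N, |a.Λ| ≤ 2 * m) := by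
  classical
  have h1 := tk1_mem r hr x hx
  have h3 := lc_mem r hr x hx
  refine ⟨?_, ?_, ?_, ?_⟩
  · intro a ha
    rcases mem_asm ha with ⟨T, hT, rfl⟩ | ⟨p, hp, b, hb, rfl⟩ | ⟨h6, b, hb, rfl⟩ |
      ⟨h6, b, hb, rfl⟩
    · unfold capSk
      simp
    · unfold oth at hp
      rw [mem_filter] at hp
      have := (hN p hp.1 hp.2.2).len_le b hb
      unfold shf
      simp only
      omega
    · have := (hN tk1 h1 (by rw [tk1_hl]; exact h6)).len_le b hb
      unfold tok
      simp only [List.length_cons]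
      omega
    · have := (hN lc h3 (by rw [lc_hl]; exact h6)).len_le b hb
      unfold tol
      simp only
      omega
  · intro a ha
    rcases mem_asm ha with ⟨T, hT, rfl⟩ | ⟨p, hp, b, hb, rfl⟩ | ⟨h6, b, hb, rfl⟩ |
      ⟨h6, b, hb, rfl⟩
    · unfold capSk
      simp only
      have := (hH.2.1 x (2 * m) T hx (MCap_sub _ _ hT)).2.1
      omega
    · unfold oth at hp
      rw [mem_filter] at hp
      have h2 := (hN p hp.1 hp.2.2).H_le b hb
      have h3 := h.2.2 r p ((M41.mem_allowed _ _ _).1 hp.1).1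
      unfold shf
      simp only
      omega
    · have := (hN tk1 h1 (by rw [tk1_hl]; exact h6)).H_le b hb
      rw [tk1_hl] at this
      unfold tok
      simp only
      omega
    · have := (hN lc h3 (by rw [lc_hl]; exact h6)).H_le b hb
      rw [lc_hl] at this
      unfold tol
      simp only
      omega
  · intro a ha
    rcases mem_asm ha with ⟨T, hT, rfl⟩ | ⟨p, hp, b, hb, rfl⟩ | ⟨h6, b, hb, rfl⟩ |
      ⟨h6, b, hb, rfl⟩
    · unfold capSk
      simp
    · unfold oth at hp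
      rw [mem_filter] at hp
      have h2 := (hN p hp.1 hp.2.2).sum_le b hb
      unfold shf
      simp only
      omega
    · have := (hN tk1 h1 (by rw [tk1_hl]; exact h6)).sum_le b hb
      unfold tok
      simp only [List.sum_cons]
      omega
    · have := (hN lc h3 (by rw [lc_hl]; exact h6)).sum_le b hb
      unfold tol
      simp only
      omega
  · intro a ha
    rcases mem_asm ha with ⟨T, hT, rfl⟩ | ⟨p, hp, b, hb, rfl⟩ | ⟨h6, b, hb, rfl⟩ |
      ⟨h6, b, hb, rfl⟩
    · unfold capSk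
      simp only
      have := (hH.2.1 x (2 * m) T hx (MCap_sub _ _ hT)).2.2.2.2
      push_cast at this
      exact this
    · unfold oth at hp
      rw [mem_filter] at hp
      have h2 := (hN p hp.1 hp.2.2).lam_le b hb
      have h3 := (hH.2.2.1 r p ((M41.mem_allowed _ _ _).1 hp.1).1).2
      rw [Nat.cast_sub hp.2.2] at h2
      unfold shf
      simp only
      have := abs_add_le b.Λ (kap p)
      linarith
    · have h2 := (hN tk1 h1 (by rw [tk1_hl]; exact h6)).lam_le b hb
      rw [tk1_hl, Nat.cast_sub h6] at h2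
      push_cast at h2
      unfold tok
      simp only
      have := abs_add_le b.Λ 6
      rw [show |(6 : ℤ)| = 6 from rfl] at this
      linarith
    · have h2 := (hN lc h3 (by rw [lc_hl]; exact h6)).lam_le b hb
      rw [lc_hl, Nat.cast_sub h6] at h2
      push_cast at h2
      unfold tol
      simp only
      have := abs_add_le b.Λ 1
      rw [show |(1 : ℤ)| = 1 from rfl] at this
      linarith

lemma asm_inv2 (hK : K2M_Stmt) (hH : HGM_Stmt) (r : ℕ) (hr : 10 ≤ r) (x : ℤ) (hx : 1 ≤ x)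
    (m : ℕ) (hm2 : 2 * m ≤ r + 2) (h : HG_Stmt) (N : Wd × Wd → Multiset Sk2)
    (hN : ∀ p : Wd × Wd, p ∈ allowed r x → hl p ≤ m → AS r (x + jump p) (m - hl p) (N p)) :
    (∀ a ∈ asm r x m N, ∀ y ∈ a.l, y ≤ 2 * m + 2) ∧ (∀ a ∈ asm r x m N, a.A ≤ 2 * m ^ 2) := by
  classical
  have h1 := tk1_mem r hr x hx
  have hc := lc_mem r hr x hx
  have key : ∀ p ∈ allowed r x, hl p ≤ m → ∀ b ∈ N p, x ≤ m ∧ x + jump p ≤ (m : ℤ) - hl p ∧
      b.A ≤ 2 * (m - hl p) ^ 2 := by
    intro p hp hpm b hb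
    have h2 := (hN p hp hpm).nonempty hb
    have h3 := gap_le hH ((M41.mem_allowed _ _ _).1 hp).2.2.1 h2
    have h4 := gap_le hH hx (glue_nonempty hK hx hm2 hp hpm h2)
    refine ⟨h4, ?_, (hN p hp hpm).A_le b hb⟩
    rw [Nat.cast_sub hpm] at h3
    exact h3
  refine ⟨?_, ?_⟩
  · intro a ha y hy
    rcases mem_asm ha with ⟨T, hT, rfl⟩ | ⟨p, hp, b, hb, rfl⟩ | ⟨h6, b, hb, rfl⟩ |
      ⟨h6, b, hb, rfl⟩
    · unfold capSk at hy
      simp at hy
    · unfold oth at hp
      rw [mem_filter] at hp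
      have := (hN p hp.1 hp.2.2).y_le b hb y hy
      omega
    · obtain ⟨k1, k2, k3⟩ := key tk1 h1 (by rw [tk1_hl]; exact h6) b hb
      unfold tok at hy
      simp only [List.mem_cons] at hy
      rcases hy with rfl | hy
      · omega
      · have := (hN tk1 h1 (by rw [tk1_hl]; exact h6)).y_le b hb y hy
        omega
    · have := (hN lc hc (by rw [lc_hl]; exact h6)).y_le b hb y hy
      omega
  · intro a ha
    have arith : ∀ (k hh : ℕ) (z : ℤ) (A : ℕ), hh ≤ k → 1 ≤ k → k ≤ m → z ≤ 2 * (m : ℤ) - k →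
        A ≤ 2 * (m - k) ^ 2 → A + ((hh : ℤ) * z).toNat ≤ 2 * m ^ 2 := by
      intro k hh z A g1 g2 g3 g4 g5
      have e1 : ((hh : ℤ) * z).toNat ≤ k * (2 * m - k) := by
        rw [Int.toNat_le]
        have e2 : ((k * (2 * m - k) : ℕ) : ℤ) = (k : ℤ) * (2 * m - k) := by
          rw [Nat.cast_mul, Nat.cast_sub (by omega)]
          push_cast
          ring
        rw [e2]
        have e3 : (hh : ℤ) * z ≤ (hh : ℤ) * (2 * m - k) :=
          mul_le_mul_of_nonneg_left g4 (by positivity)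
        have e4 : (hh : ℤ) * (2 * m - k) ≤ (k : ℤ) * (2 * m - k) :=
          mul_le_mul_of_nonneg_right (by exact_mod_cast g1) (by omega)
        linarith
      obtain ⟨d, rfl⟩ := Nat.exists_eq_add_of_le g3
      have e5 : k + d - k = d := by omega
      have e6 : 2 * (k + d) - k = k + 2 * d := by omega
      rw [e5] at g5
      rw [e6] at e1
      nlinarith
    rcases mem_asm ha with ⟨T, hT, rfl⟩ | ⟨p, hp, b, hb, rfl⟩ | ⟨h6, b, hb, rfl⟩ |
      ⟨h6, b, hb, rfl⟩
    · unfold capSk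
      simp
    · unfold oth at hp
      rw [mem_filter] at hp
      obtain ⟨k1, k2, k3⟩ := key p hp.1 hp.2.2 b hb
      have hp1 := ((M41.mem_allowed _ _ _).1 hp.1).1
      have hlen := KW.len_hl hp1
      have h3 := h.2.2 r p hp1
      unfold shf
      simp only
      rw [KW.ht_eq hp1]
      exact arith (hl p) (htn p) (2 * x + jump p) b.A h3.2 hlen.2.1 hp.2.2 (by linarith) k3
    · obtain ⟨k1, k2, k3⟩ := key tk1 h1 (by rw [tk1_hl]; exact h6) b hb
      rw [tk1_hl] at k3
      rw [tk1_hl, tk1_jump] at k2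
      have := arith 6 4 (2 * x + 2) b.A (by norm_num) (by norm_num) h6
        (by push_cast at k2 ⊢; linarith) k3
      unfold tok
      simp only
      have e : ((4 : ℕ) : ℤ) * (2 * x + 2) = ((4 * (2 * x + 2).toNat : ℕ) : ℤ) := by
        push_cast
        rw [Int.toNat_of_nonneg (by omega)]
      rw [e, Int.toNat_natCast] at this
      exact this
    · obtain ⟨k1, k2, k3⟩ := key lc hc (by rw [lc_hl]; exact h6) b hb
      rw [lc_hl] at k3
      rw [lc_hl, lc_jump] at k2
      have := arith 1 1 (2 * x) b.A (by norm_num) (by norm_num) h6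
        (by push_cast at k2 ⊢; linarith) k3
      unfold tol
      simp only
      rw [show ((1 : ℕ) : ℤ) * (2 * x) = 2 * x by push_cast; ring] at this
      exact this

lemma wp_nonneg (s g ρ : ℝ) (hs : 0 < s) (hρ : 0 < ρ) (p : Wd × Wd) : 0 ≤ wp s g ρ p := by
  unfold wp
  positivity

lemma asm_count (hH : HGM_Stmt) (h : HG_Stmt) (r : ℕ) (hr : 10 ≤ r) (x : ℤ) (hx : 1 ≤ x)
    (m : ℕ) (N : Wd × Wd → Multiset Sk2)
    (hN : ∀ p : Wd × Wd, p ∈ allowed r x → hl p ≤ m → AS r (x + jump p) (m - hl p) (N p))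
    (s g τ τ' ρ : ℝ) (hs : 0 < s) (hτ : 0 ≤ τ) (hτ' : 0 ≤ τ') (hρ : 0 < ρ)
    (hyp : ∑ p ∈ Pc r, wp s g ρ p ≤ 1 + (1 - τ) * (wp s g ρ tk1 + wp s g ρ tk2) +
      (1 - τ') * (wp s g ρ lc + wp s g ρ ld)) :
    ρ ^ m * ms (wv s g τ τ' m) (asm r x m N) ≤ ∑ m' ∈ range (m + 1), cf s g ρ m' := by
  classical
  have h1 := tk1_mem r hr x hx
  have h2 := tk2_mem r hr x hx
  have h3 := lc_mem r hr x hx
  have h4 := ld_mem r hr x hx
  have hc0 : ∀ m', 0 ≤ cf s g ρ m' := fun m' => cf_nonneg s g ρ m' hs hρ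
  set K : ℝ := ∑ m' ∈ range m, cf s g ρ m' with hK
  have hK0 : 0 ≤ K := Finset.sum_nonneg fun m' _ => hc0 m'
  have hinner : ∀ p ∈ allowed r x, hl p ≤ m →
      ρ ^ (m - hl p) * ms (wv s g τ τ' (m - hl p)) (N p) ≤ K := by
    intro p hp hpm
    have hlen := KW.len_hl ((M41.mem_allowed _ _ _).1 hp).1
    refine ((hN p hp hpm).count s g τ τ' ρ hs hτ hτ' hρ hyp).trans ?_
    apply Finset.sum_le_sum_of_subset_of_nonneg
    · intro a ha
      rw [mem_range] at *
      omega
    · intro a _ _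
      exact hc0 a
  -- caps
  have hcap : ρ ^ m * ms (wv s g τ τ' m) ((MCap x (2 * m)).val.map (capSk x)) ≤
      cf s g ρ m := by
    rw [ms_val, Finset.mul_sum]
    unfold capSk wv
    simp only [List.length_nil, pow_zero, mul_one]
    unfold cf
    by_cases hxm : x ≤ m
    · have := Finset.single_le_sum (f := fun x : ℤ => ∑ T ∈ MCap x (2 * m),
        ρ ^ m * s ^ (m - mlev T) * Real.exp (g * mlat x T))
        (fun x _ => Finset.sum_nonneg fun T _ => by positivity)
        (mem_Icc.2 ⟨hx, hxm⟩)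
      refine le_trans (le_of_eq ?_) this
      apply sum_congr rfl
      intro T _
      ring
    · have he : MCap x (2 * m) = ∅ := by
        rw [Finset.eq_empty_iff_forall_notMem]
        intro T hT
        exact hxm (gap_le hH hx ⟨T, MCap_sub _ _ hT⟩)
      rw [he, Finset.sum_empty]
      exact Finset.sum_nonneg fun x _ => Finset.sum_nonneg fun T _ => by positivity
  -- other pieces
  have hoth : ∀ p ∈ oth r x m, ρ ^ m * ms (wv s g τ τ' m) ((N p).map (shf x p)) ≤
      wp s g ρ p * K := by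
    intro p hp
    unfold oth at hp
    rw [mem_filter] at hp
    obtain ⟨hp, -, hpm⟩ := hp
    have hp1 := ((M41.mem_allowed _ _ _).1 hp).1
    have h3 := h.2.2 r p hp1
    rw [ms_map]
    have e1 : ms (fun a => wv s g τ τ' m (shf x p a)) (N p) =
        s ^ (hl p - htn p) * Real.exp (g * kap p) * ms (wv s g τ τ' (m - hl p)) (N p) := by
      rw [← ms_mul]
      apply ms_congr
      intro a ha
      have h4 := (hN p hp hpm).H_le a ha
      unfold shf wv
      simp only
      rw [show m - (a.H + htn p) = (hl p - htn p) + (m - hl p - a.H) by omega, pow_add,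
        show g * ((a.Λ + kap p : ℤ) : ℝ) = g * kap p + g * a.Λ by push_cast; ring, Real.exp_add]
      ring
    rw [e1]
    have e2 : ρ ^ m = ρ ^ hl p * ρ ^ (m - hl p) := by
      rw [← pow_add]; congr 1; omega
    rw [e2]
    have e3 := mul_le_mul_of_nonneg_left (hinner p hp hpm) (wp_nonneg s g ρ hs hρ p)
    refine le_trans (le_of_eq ?_) e3
    unfold wp
    ring
  -- tokens
  have w1 : wp s g ρ tk1 = ρ ^ 6 * s ^ 2 * Real.exp (g * 6) := by
    unfold wp
    rw [tk1_hl, tk1_htn, tk1_kap]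
    norm_num
  have w2 : wp s g ρ tk2 = ρ ^ 6 * s ^ 2 * Real.exp (g * 6) * (s * Real.exp (-g)) := by
    unfold wp
    rw [tk2_hl, tk2_htn, tk2_kap]
    have e : Real.exp (g * ((5 : ℤ) : ℝ)) = Real.exp (g * 6) * Real.exp (-g) := by
      rw [← Real.exp_add]
      congr 1
      push_cast
      ring
    rw [e, show (6 : ℕ) - 3 = 2 + 1 from rfl, pow_succ]
    ring
  have w3 : wp s g ρ lc = ρ * Real.exp g := by
    unfold wp
    rw [lc_hl, lc_htn, lc_kap]
    norm_num
  have w4 : wp s g ρ ld = ρ * Real.exp g * Real.exp (-(2 * g)) := by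
    unfold wp
    rw [ld_hl, ld_htn, ld_kap, mul_assoc ρ, ← Real.exp_add]
    have e : g * ((-1 : ℤ) : ℝ) = g + -(2 * g) := by
      push_cast
      ring
    rw [e]
    simp
  have htok : ρ ^ m * ms (wv s g τ τ' m) (if 6 ≤ m then (N tk1).map (tok x) else 0) ≤
      τ * (wp s g ρ tk1 + wp s g ρ tk2) * K := by
    have hpos : 0 ≤ τ * (wp s g ρ tk1 + wp s g ρ tk2) :=
      mul_nonneg hτ (add_nonneg (wp_nonneg _ _ _ hs hρ _) (wp_nonneg _ _ _ hs hρ _))
    split_ifs with h6
    · have hN1 := hN tk1 h1 (by rw [tk1_hl]; exact h6)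
      have hi := hinner tk1 h1 (by rw [tk1_hl]; exact h6)
      rw [tk1_hl] at hi
      rw [ms_map]
      have e1 : ms (fun a => wv s g τ τ' m (tok x a)) (N tk1) =
          s ^ 2 * Real.exp (g * 6) * ((1 + s * Real.exp (-g)) * τ) *
            ms (wv s g τ τ' (m - 6)) (N tk1) := by
        rw [← ms_mul]
        apply ms_congr
        intro a ha
        have h4 := hN1.H_le a ha
        rw [tk1_hl] at h4
        unfold tok wv
        simp only [List.length_cons]
        rw [show m - (a.H + 4) = 2 + (m - 6 - a.H) by omega, pow_add, pow_succ _ a.l.length,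
          show g * ((a.Λ + 6 : ℤ) : ℝ) = g * 6 + g * a.Λ by push_cast; ring, Real.exp_add]
        ring
      rw [e1]
      have e2 : ρ ^ m = ρ ^ 6 * ρ ^ (m - 6) := by
        rw [← pow_add]; congr 1; omega
      rw [e2]
      have e3 := mul_le_mul_of_nonneg_left hi hpos
      refine le_trans (le_of_eq ?_) e3
      rw [w1, w2]
      ring
    · rw [ms_zero, mul_zero]
      exact mul_nonneg hpos hK0
  have htol : ρ ^ m * ms (wv s g τ τ' m) (if 1 ≤ m then (N lc).map (tol x) else 0) ≤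
      τ' * (wp s g ρ lc + wp s g ρ ld) * K := by
    have hpos : 0 ≤ τ' * (wp s g ρ lc + wp s g ρ ld) :=
      mul_nonneg hτ' (add_nonneg (wp_nonneg _ _ _ hs hρ _) (wp_nonneg _ _ _ hs hρ _))
    split_ifs with h6
    · have hN1 := hN lc h3 (by rw [lc_hl]; exact h6)
      have hi := hinner lc h3 (by rw [lc_hl]; exact h6)
      rw [lc_hl] at hi
      rw [ms_map]
      have e1 : ms (fun a => wv s g τ τ' m (tol x a)) (N lc) =
          Real.exp g * ((1 + Real.exp (-(2 * g))) * τ') *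
            ms (wv s g τ τ' (m - 1)) (N lc) := by
        rw [← ms_mul]
        apply ms_congr
        intro a ha
        have h4 := hN1.H_le a ha
        rw [lc_hl] at h4
        unfold tol wv
        simp only
        rw [show m - (a.H + 1) = m - 1 - a.H by omega, pow_succ _ a.k,
          show g * ((a.Λ + 1 : ℤ) : ℝ) = g + g * a.Λ by push_cast; ring, Real.exp_add]
        ring
      rw [e1]
      have e2 : ρ ^ m = ρ * ρ ^ (m - 1) := by
        rw [← pow_succ']; congr 1; omega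
      rw [e2]
      have e3 := mul_le_mul_of_nonneg_left hi hpos
      refine le_trans (le_of_eq ?_) e3
      rw [w3, w4]
      ring
    · rw [ms_zero, mul_zero]
      exact mul_nonneg hpos hK0
  -- total weight
  have hW : ∑ p ∈ oth r x m, wp s g ρ p + τ * (wp s g ρ tk1 + wp s g ρ tk2) +
      τ' * (wp s g ρ lc + wp s g ρ ld) ≤ 1 := by
    have hP1 := ((M41.mem_allowed _ _ _).1 h1).1
    have hP2 := ((M41.mem_allowed _ _ _).1 h2).1
    have hP3 := ((M41.mem_allowed _ _ _).1 h3).1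
    have hP4 := ((M41.mem_allowed _ _ _).1 h4).1
    have e1 : ∑ p ∈ oth r x m, wp s g ρ p ≤
        ∑ p ∈ (Pc r).filter (fun p => ¬ (p = tk1 ∨ p = tk2 ∨ p = lc ∨ p = ld)), wp s g ρ p := by
      apply Finset.sum_le_sum_of_subset_of_nonneg
      · intro p hp
        unfold oth at hp
        rw [mem_filter] at hp
        rw [mem_filter]
        refine ⟨((M41.mem_allowed _ _ _).1 hp.1).1, ?_⟩
        rintro (h5 | h5 | h5 | h5)
        · exact hp.2.1.1 h5
        · exact hp.2.1.2.1 h5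
        · exact hp.2.1.2.2.1 h5
        · exact hp.2.1.2.2.2 h5
      · intro p _ _
        exact wp_nonneg s g ρ hs hρ p
    have e2 := Finset.sum_filter_add_sum_filter_not (Pc r)
      (fun p => p = tk1 ∨ p = tk2 ∨ p = lc ∨ p = ld) (fun p => wp s g ρ p)
    have e3 : (Pc r).filter (fun p => p = tk1 ∨ p = tk2 ∨ p = lc ∨ p = ld) =
        {tk1, tk2, lc, ld} := by
      ext p
      rw [mem_filter, mem_insert, mem_insert, mem_insert, mem_singleton]
      constructor
      · exact fun h => h.2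
      · rintro (rfl | rfl | rfl | rfl)
        · exact ⟨hP1, Or.inl rfl⟩
        · exact ⟨hP2, Or.inr (Or.inl rfl)⟩
        · exact ⟨hP3, Or.inr (Or.inr (Or.inl rfl))⟩
        · exact ⟨hP4, Or.inr (Or.inr (Or.inr rfl))⟩
    rw [e3, sum_insert (by
            rw [mem_insert, mem_insert, mem_singleton]
            rintro (h5 | h5 | h5)
            · exact tk_ne h5
            · exact tk1_ne_lc h5
            · exact tk1_ne_ld h5),
          sum_insert (by
            rw [mem_insert, mem_singleton]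
            rintro (h5 | h5)
            · exact tk2_ne_lc h5
            · exact tk2_ne_ld h5), sum_pair lc_ne_ld] at e2
    linarith
  have htot : ρ ^ m * ms (wv s g τ τ' m) (asm r x m N) =
      ρ ^ m * ms (wv s g τ τ' m) ((MCap x (2 * m)).val.map (capSk x)) +
      ∑ p ∈ oth r x m, ρ ^ m * ms (wv s g τ τ' m) ((N p).map (shf x p)) +
      ρ ^ m * ms (wv s g τ τ' m) (if 6 ≤ m then (N tk1).map (tok x) else 0) +
      ρ ^ m * ms (wv s g τ τ' m) (if 1 ≤ m then (N lc).map (tol x) else 0) := by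
    unfold asm
    rw [ms_add, ms_add, ms_add, ms_sum, mul_add, mul_add, mul_add, mul_sum]
  rw [htot, Finset.sum_range_succ]
  have e4 := Finset.sum_le_sum hoth
  rw [← Finset.sum_mul] at e4
  have e5 := mul_le_mul_of_nonneg_right hW hK0
  rw [one_mul, add_mul, add_mul] at e5
  linarith

/-- skeletons of marked arches -/
theorem ars (hK : K2M_Stmt) (hH : HGM_Stmt) (hA : ARS_Stmt) (h : HG_Stmt) (r : ℕ) (hr : 10 ≤ r)
    (m : ℕ) : 2 * m ≤ r + 2 → ∀ x : ℤ, 1 ≤ x → ∃ M : Multiset Sk2, AS r x m M := by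
  classical
  induction m using Nat.strong_induction_on with
  | _ m ih =>
    intro hm2 x hx
    have hex : ∀ p : Wd × Wd, ∃ M : Multiset Sk2, p ∈ allowed r x → hl p ≤ m →
        AS r (x + jump p) (m - hl p) M := by
      intro p
      by_cases hp : p ∈ allowed r x ∧ hl p ≤ m
      · have hp1 := ((M41.mem_allowed _ _ _).1 hp.1)
        have hlen := KW.len_hl hp1.1
        obtain ⟨M, hM⟩ := ih (m - hl p) (by omega) (by omega) (x + jump p) hp1.2.2.1
        exact ⟨M, fun _ _ => hM⟩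
      · exact ⟨0, fun h1 h2 => absurd ⟨h1, h2⟩ hp⟩
    choose N hN using hex
    obtain ⟨i1, i2, i3, i6⟩ := asm_inv hH h r hr x hx m N hN
    obtain ⟨i4, i5⟩ := asm_inv2 hK hH r hr x hx m hm2 h N hN
    exact ⟨asm r x m N, asm_repr hK hH hA r hr x hx m hm2 N hN, i1, i2, i4, i3, i5, i6,
      fun s g τ τ' ρ hs hτ hτ' hρ hyp =>
        asm_count hH h r hr x hx m N hN s g τ τ' ρ hs hτ hτ' hρ hyp⟩

end Pool.Agent.TPT.SKAP

namespace Pool.Agent.TPT

open Finset Filter Topology MeasureTheory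
open Pool.Agent.Lib27 Pool.Agent.SapR Pool.Agent.AreaLaw Pool.Agent.FL

theorem t_SKA (hK : K2M_Stmt) (hH : HGM_Stmt) (hA : ARS_Stmt) (hg : HG_Stmt) : SKA_Stmt := by
  intro n hn m hm x hx
  obtain ⟨M, hM⟩ := SKAP.ars hK hH hA hg (2 * n - 1) (by omega) m (by omega) x hx
  exact ⟨M, ⟨hM.repr, hM.len_le, hM.H_le, hM.y_le, hM.sum_le, hM.A_le, hM.lam_le, hM.count⟩⟩

end Pool.Agent.TPT
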