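import Pool.Agent.TPT.StmtsA

/-!
# SYMA: symmetries of the partition function
-/

set_option autoImplicit false

namespace Pool.Agent.TPT

open Finset Filter Topology MeasureTheory
open Pool.Agent.Lib27 Pool.Agent.SapR Pool.Agent.AreaLaw Pool.Agent.FL
open Pool.Agent.FS (sc)

namespace SYMA

/-- the map of words induced by a permutation of the letters -/
def mp (n : ℕ) (σ : Equiv.Perm (Fin 4)) : (Fin (2 * n) → Fin 4) ≃ (Fin (2 * n) → Fin 4) :=
  Equiv.arrowCongr (Equiv.refl _) σ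

theorem mp_apply (n : ℕ) (σ : Equiv.Perm (Fin 4)) (w : Fin (2 * n) → Fin 4) (i : Fin (2 * n)) :
    mp n σ w i = σ (w i) := rfl

theorem pos_mp (n : ℕ) (σ : Equiv.Perm (Fin 4)) (T : ℤ × ℤ →+ ℤ × ℤ)
    (h : ∀ c, step (σ c) = T (step c)) (w : Fin (2 * n) → Fin 4) (k : ℕ) :
    pos n (mp n σ w) k = T (pos n w k) := by
  unfold pos
  rw [map_sum]
  apply Finset.sum_congr rfl
  intro i _
  rw [mp_apply, h]

theorem mem_mp (n : ℕ) (σ : Equiv.Perm (Fin 4)) (T : ℤ × ℤ →+ ℤ × ℤ)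
    (hT : Function.Injective T) (h : ∀ c, step (σ c) = T (step c)) (w : Fin (2 * n) → Fin 4) :
    w ∈ SAP n ↔ mp n σ w ∈ SAP n := by
  unfold SAP
  simp only [Finset.mem_filter, Finset.mem_univ, true_and]
  simp only [pos_mp n σ T h]
  constructor
  · rintro ⟨h1, h2⟩
    refine ⟨by rw [h1, map_zero], fun j k hjk h3 => h2 j k hjk (hT h3)⟩
  · rintro ⟨h1, h2⟩
    refine ⟨hT (by rw [h1, map_zero]), fun j k hjk h3 => h2 j k hjk (by rw [h3])⟩

theorem sum_mp (n : ℕ) (σ : Equiv.Perm (Fin 4)) (T : ℤ × ℤ →+ ℤ × ℤ)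
    (hT : Function.Injective T) (h : ∀ c, step (σ c) = T (step c)) (F : ℤ × ℤ → ℝ) :
    ∑ w ∈ SAP n, ∑ j ∈ range (2 * n), F (T (pos n w j)) =
      ∑ w ∈ SAP n, ∑ j ∈ range (2 * n), F (pos n w j) := by
  apply Finset.sum_equiv (mp n σ) (mem_mp n σ T hT h)
  intro w _
  apply Finset.sum_congr rfl
  intro j _
  rw [pos_mp n σ T h]

/-- `(x, y) ↦ (x, -y)` -/
def TA : ℤ × ℤ →+ ℤ × ℤ where
  toFun p := (p.1, -p.2)
  map_zero' := by simp
  map_add' p q := by
    ext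
    · simp
    · simp only [Prod.snd_add]
      ring

/-- `(x, y) ↦ (y, x)` -/
def TB : ℤ × ℤ →+ ℤ × ℤ where
  toFun p := (p.2, p.1)
  map_zero' := by simp
  map_add' p q := by
    ext <;> simp

theorem TA_inj : Function.Injective TA := by
  rintro ⟨a, b⟩ ⟨c, d⟩ h
  have h' : ((a, -b) : ℤ × ℤ) = (c, -d) := h
  rw [Prod.mk.injEq, neg_inj] at h'
  rw [h'.1, h'.2]

theorem TB_inj : Function.Injective TB := by
  rintro ⟨a, b⟩ ⟨c, d⟩ h
  have h' : ((b, a) : ℤ × ℤ) = (d, c) := h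
  rw [Prod.mk.injEq] at h'
  rw [h'.1, h'.2]

theorem stepA : ∀ c, step ((Equiv.swap (1 : Fin 4) 3) c) = TA (step c) := by
  decide

theorem stepB : ∀ c, step (((Equiv.swap (0 : Fin 4) 1) * (Equiv.swap (2 : Fin 4) 3)) c) =
    TB (step c) := by
  decide

/-- the weight of a vertex -/
noncomputable def G (f g : ℝ) (p : ℤ × ℤ) : ℝ :=
  Real.exp (f * (lev p : ℤ) + g * (lat p : ℤ))

theorem ZF_eq (n : ℕ) (f g : ℝ) : ZF n f g = ∑ w ∈ SAP n, ∑ j ∈ range (2 * n),
    G f g (pos n w j) := rfl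

theorem first (n : ℕ) (f g : ℝ) : ZF n f g = ZF n g f := by
  rw [ZF_eq, ← sum_mp n _ TA TA_inj stepA (G f g), ZF_eq]
  apply Finset.sum_congr rfl
  intro w _
  apply Finset.sum_congr rfl
  intro j _
  generalize pos n w j = p
  have h1 : lev (TA p) = lat p := by
    show p.1 + -p.2 = p.1 - p.2
    ring
  have h2 : lat (TA p) = lev p := by
    show p.1 - -p.2 = p.1 + p.2
    ring
  simp only [G, h1, h2]
  rw [add_comm]

theorem second (n : ℕ) (f g : ℝ) : ZF n f (-g) = ZF n f g := by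
  rw [ZF_eq, ← sum_mp n _ TB TB_inj stepB (G f (-g)), ZF_eq]
  apply Finset.sum_congr rfl
  intro w _
  apply Finset.sum_congr rfl
  intro j _
  generalize pos n w j = p
  have h1 : lev (TB p) = lev p := by
    show p.2 + p.1 = p.1 + p.2
    ring
  have h2 : lat (TB p) = - lat p := by
    show p.2 - p.1 = -(p.1 - p.2)
    ring
  simp only [G, h1, h2]
  congr 1
  push_cast
  ring

end SYMA

theorem t_SYMA : SYMA_Stmt := by
  intro n f g
  refine ⟨SYMA.first n f g, SYMA.second n f g, ?_⟩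
  rw [SYMA.first n (-f) g, SYMA.second n g f, SYMA.first n g f]

end Pool.Agent.TPT
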