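import Pool.Agent.TPT.StmtsA

/-!
# Project TPT, module SYMB: lateral displacement against span
-/

set_option autoImplicit false

namespace Pool.Agent.TPT

open Finset
open Pool.Agent.SapR Pool.Agent.AreaLaw

namespace SYMBx

/-- the letter map induced by `(x, y) ↦ (x, -y)` -/
def sig : Fin 4 → Fin 4 := ![0, 3, 2, 1]

theorem sig_sig (a : Fin 4) : sig (sig a) = a := by
  fin_cases a <;> rfl

theorem step_sig (a : Fin 4) : step (sig a) = ((step a).1, -(step a).2) := by
  fin_cases a <;> rfl

theorem pos_sig (n : ℕ) (w : Fin (2 * n) → Fin 4) (k : ℕ) :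
    pos n (fun i => sig (w i)) k = ((pos n w k).1, -(pos n w k).2) := by
  unfold pos
  apply Prod.ext
  · rw [Prod.fst_sum]
    show _ = (∑ i ∈ _, step (w i)).1
    rw [Prod.fst_sum]
    exact sum_congr rfl fun i _ => by rw [step_sig]
  · rw [Prod.snd_sum]
    show _ = -(∑ i ∈ _, step (w i)).2
    rw [Prod.snd_sum, ← sum_neg_distrib]
    exact sum_congr rfl fun i _ => by rw [step_sig]

theorem mem_sig {n : ℕ} {w : Fin (2 * n) → Fin 4} (h : w ∈ SAP n) :
    (fun i => sig (w i)) ∈ SAP n := by
  classical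
  unfold SAP at h ⊢
  rw [mem_filter] at h ⊢
  refine ⟨mem_univ _, ?_, ?_⟩
  · rw [pos_sig, h.2.1]
    rfl
  · intro j k hjk hcon
    rw [pos_sig, pos_sig] at hcon
    apply h.2.2 j k hjk
    have h1 := congrArg Prod.fst hcon
    have h2 := congrArg Prod.snd hcon
    simp only [neg_inj] at h1 h2
    exact Prod.ext h1 h2

theorem pos_zero (n : ℕ) (w : Fin (2 * n) → Fin 4) : pos n w 0 = 0 := by
  unfold pos
  rw [filter_false_of_mem]
  · rfl
  · intro i _
    exact Nat.not_lt_zero _

theorem abs_slev_le (n : ℕ) (w : Fin (2 * n) → Fin 4) (j : ℕ) (hj : j < 2 * n) :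
    |slev n w j| ≤ (span n w : ℤ) := by
  have h0 : (0 : ℕ) < 2 * n := by omega
  have key : ∀ a b : ℕ, a < 2 * n → b < 2 * n → slev n w a - slev n w b ≤ (span n w : ℤ) := by
    intro a b ha hb
    have h1 : (slev n w a - slev n w b).toNat ≤ span n w := by
      unfold span slev lev
      exact le_sup (f := fun k : ℕ × ℕ =>
        ((pos n w k.1).1 + (pos n w k.1).2 - ((pos n w k.2).1 + (pos n w k.2).2)).toNat)
        (b := (a, b)) (mem_product.2 ⟨mem_range.2 ha, mem_range.2 hb⟩)
    have h2 := Int.self_le_toNat (slev n w a - slev n w b)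
    omega
  have hz : slev n w 0 = 0 := by
    unfold slev lev
    rw [pos_zero]
    rfl
  have h1 := key j 0 hj h0
  have h2 := key 0 j h0 hj
  rw [hz] at h1 h2
  rw [abs_le]
  constructor <;> omega

theorem slev_sig (n : ℕ) (w : Fin (2 * n) → Fin 4) (j : ℕ) :
    slev n (fun i => sig (w i)) j = lat (pos n w j) := by
  unfold slev lev lat
  rw [pos_sig]
  ring

end SYMBx

open SYMBx in
theorem t_SYMB : SYMB_Stmt := by
  classical
  intro n v _
  have h2 : ∀ w : Fin (2 * n) → Fin 4, (∃ j < 2 * n, v ≤ |(slev n w j : ℝ)|) →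
      v ≤ (span n w : ℝ) := by
    rintro w ⟨j, hj, hv⟩
    refine hv.trans ?_
    exact_mod_cast abs_slev_le n w j hj
  constructor
  · apply card_le_card_of_injOn (fun w i => sig (w i))
    · intro w hw
      rw [mem_coe, mem_filter] at hw ⊢
      refine ⟨mem_sig hw.1, ?_⟩
      apply h2
      obtain ⟨j, hj, hv⟩ := hw.2
      refine ⟨j, hj, ?_⟩
      rw [slev_sig]
      exact hv
    · intro w _ w' _ hww
      funext i
      have h3 := congrFun hww i
      simp only at h3
      rw [← sig_sig (w i), h3, sig_sig]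
  · apply card_le_card
    intro w hw
    rw [mem_filter] at hw ⊢
    exact ⟨hw.1, h2 w hw.2⟩

end Pool.Agent.TPT
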