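import Pool.Agent.TPT.StmtsB
import Pool.Agent.TPT.K2M
import Pool.Agent.TPT.HGM
import Pool.Agent.TPT.ARS
import Pool.Agent.TPT.SKA
import Pool.Agent.TPT.SKELM
import Pool.Agent.TPT.SYMA
import Pool.Agent.TPT.SYMB
import Pool.Agent.TPT.SYMC
import Pool.Agent.TPT.MINM
import Pool.Agent.TPT.GRDM
import Pool.Agent.TPT.RECM
import Pool.Agent.TPT.FARM
import Pool.Agent.TPT.CHOM
import Pool.Agent.TPT.CENM
import Pool.Agent.TPT.RHOM
import Pool.Agent.TPT.PARM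
import Pool.Agent.TPT.EXPMM
import Pool.Agent.TPT.KBIGM
import Pool.Agent.TPT.LOCA
import Pool.Agent.TPT.LOCB
import Pool.Agent.TPT.LOCC
import Pool.Agent.TPT.INDM
import Pool.Agent.TPT.EQM
import Pool.Agent.TPT.CLSA
import Pool.Agent.TPT.CLSB
import Pool.Agent.TPT.CLSM
import Pool.Agent.TPT.REGFM
import Pool.Agent.TPT.FIXM
import Pool.Agent.TPT.DGM
import Pool.Agent.TPT.DATB
import Pool.Agent.TPT.MODM
import Pool.Agent.TPT.ZBM
import Pool.Agent.TPT.MEANM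
import Pool.Agent.TPT.MOMM
import Pool.Agent.TPT.FLM
import Pool.Agent.TPT.LAPM
import Pool.Agent.NSP.UNQ
import Pool.Agent.NSP.CDFM
import Pool.Agent.NSP.DIAGM
import Pool.Agent.SUBB.Main
import Pool.Agent.EXW.Main3
import Pool.Agent.Lib_helper74.FS.BIN
import Pool.Agent.Lib_helper74.FS.SMP
import Pool.Agent.Lib_helper74.FS.MGF
import Pool.Agent.Lib_helper74.FS.IND
import Pool.Agent.Lib_helper74.FS.CDF
import Pool.Agent.Lib_helper74.FS.DIAG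

/-!
# Project TPT: assembly of the analysis part
-/

set_option autoImplicit false

namespace Pool.Agent.TPT

open Finset Filter Topology MeasureTheory
open Pool.Agent.Lib27 Pool.Agent.SapR Pool.Agent.AreaLaw
open Pool.Agent.FL (hg old_gap)

theorem m_ARS : ARS_Stmt := ars k2m hgm

theorem m_SKELM : SKELM_Stmt := t_SKELM (t_SKA k2m hgm m_ARS hg) hgm

theorem m_CHOM : CHOM_Stmt := t_CHOM t_MINM t_GRDM t_SYMA t_RECM (t_FARM t_SYMB SUBB.pol)

/-- the final theorem from the mass gap, the kernel data, the polygon words with a marked vertex, the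
error of the area functional and the kernel library -/
theorem assemble (hT : TMG_Stmt) (hKW : KWM_Stmt) (hRt : ROOT_Stmt) (hP : PDIFM_Stmt)
    (hQV : TPK.QGV_Stmt) (hQPA : TPK.QPAR_Stmt) (hQL : TPK.QLT_Stmt) (hQR : TPK.QRAT_Stmt)
    (hQC : TPK.MOMC_Stmt) (hQK : TPK.MOMK_Stmt) (hQF : TPK.QFIN_Stmt) : FIN_TPT := by
  obtain ⟨oLT, oLT1, oM2, oBAL, oST, oSUP, oW⟩ := old_gap
  have hD : DATB_Stmt := t_DATB hT hKW hQV hg
  have hMo : MODM_Stmt := t_MODM hD hP hgm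
  have hZ : ZBM_Stmt := t_ZBM hD hQPA hQL hQR oLT1 oM2 oBAL
  have hMe : MEANM_Stmt := t_MEANM hD hQPA hQR oM2 oBAL
  have hM : MOMM_Stmt := t_MOMM hMe hMo hP hZ hQC hgm
  have hF : FLM_Stmt := t_FLM hMo hQF hQK NSP.t_UNQ hgm
  have hR : RHOM_Stmt := t_RHOM hT hgm hg
  have hPR : PARM_Stmt := t_PARM hT hR hgm hg
  have hLP : LAPM_Stmt := t_LAPM hD hPR hQPA hQR oLT1 oM2 oBAL
  have hKB : KBIGM_Stmt := t_KBIGM hZ hg hgm
  have hLA : LOCA_Stmt := t_LOCA m_SKELM hKB FS.BIN_thm hM hgm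
  have hLB : LOCB_Stmt := t_LOCB m_SKELM hKB FS.BIN_thm FS.SMP_thm hM hgm
  have hLC : LOCC_Stmt := t_LOCC m_SKELM hKB FS.BIN_thm hgm
  have hE : EXPMM_Stmt := t_EXPMM hZ hR hgm
  have hI : INDM_Stmt := t_INDM (FS.IND_thm FS.MGF_thm) hE hLP hM hZ hgm
  have hEQ : EQM_Stmt := t_EQM hLB hLC hI hE hZ hgm
  have hCe : CENM_Stmt := t_CENM m_CHOM hRt hZ hgm
  have hCB : CLSB_Stmt := t_CLSB hLA hM hZ hgm
  have hCM : CLSM_Stmt := t_CLSM (t_CLSA hRt) hCB hZ hgm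
  have hRF : REGFM_Stmt := t_REGFM hCB hCM hF FS.CDF_thm NSP.t_CDFM hgm
  have hFx : FIXM_Stmt := t_FIXM hCe hEQ hRF t_SYMC
  obtain ⟨μ, hμ, hmom, hst, _⟩ := EXW.main3
  exact t_DGM FS.DIAG_thm NSP.t_DIAGM ⟨μ, hμ, hmom, hst⟩ hFx

end Pool.Agent.TPT
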