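import Pool.Agent.TPT.Defs

/-!
# Project TPT: interface between the combinatorial part, the mass gap part and the analysis

`C`, `θ` constants; `(f, g)` is the force on (level, lateral coordinate), `s = exp (-f)`.
-/

set_option autoImplicit false

namespace Pool.Agent.TPT

open Finset Filter Topology MeasureTheory
open Pool.Agent.Lib27 Pool.Agent.SapR Pool.Agent.AreaLaw Pool.Agent.FL
open Pool.Agent.FS (sc)

/-! ### Combinatorics -/

/-- K2M : decomposition of the marked arches at the lowest cut. PROOF. As the old K2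
(`Lib_helper24/SapR/K2.lean`): let `(w, j)` be in `MArch x N`, `v` the mark. If no level `1 ≤ h < lev v` is a cut,
it is in `MCap x N`. Otherwise let `h` be the lowest cut with `h < lev v`; both parts `0 → v` and `v → (-x, x)`
of `w` meet level `h`, so each of them exactly once, and `w = U w' D` with `U` the part up to the first,
`D` the part from the second of the two vertices; the mark is strictly inside `w'`. The word `w'` is
an arch of gap `x + jump`, and `(U, D)` is a free piece (irreducible since `h` is the lowest cut),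
allowed at `x` (planarity `k3`: the gap stays positive). Conversely every such triple glues to a
marked arch whose lowest cut below the mark is `ht p` (`lev v > ht p`). `N ≤ r + 2` guarantees that all
pieces which occur are in `Pc r`. -/
def K2M_Stmt : Prop := ∀ (r : ℕ) (x : ℤ) (N : ℕ), 1 ≤ x → N ≤ r + 2 → ∀ F : Wd × ℕ → ℝ,
  ∑ a ∈ MArch x N, F a = ∑ a ∈ MCap x N, F a + ∑ p ∈ allowed r x,
    ∑ a ∈ MArch (x + jump p) (N - (p.1.length + p.2.length)),
      F (p.1 ++ a.1 ++ p.2, p.1.length + a.2)

/-- HGM : elementary facts. PROOF. (1) `lev` and `lat` are additive; with `v` the mark of `a`, the mark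
of the glued word is `ep 0 p.1 + v`; `lat (ep p.1) + lat v + x = kap p + (lat v + (x + jump p))`. (2) the mark of an
arch is an inner vertex: level at least `1`; both parts of the word have length at least the level,
and length `≡` level mod 2, so `N` is even; `|lat|` of an end point is at most the length; `2 x ≤ N`
(`gap_le_length`). (3) `p.2` rotated by 180 degrees goes up: `ep p.1 + ep p.2 = (jump, -jump)`, so
`lat (ep p.1) + lat (ep p.2) = 2 jump p` and `kap (flip p) = - lat (ep p.2) + jump p = kap p`. (4), (5) from (2) for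
both parts of `q`. (6) `Arch` and `dbl_glue`, sign as in `K1H` (`k1pos`). -/
def HGM_Stmt : Prop :=
  (∀ (r : ℕ) (x : ℤ) (N : ℕ) (p : Wd × Wd) (a : Wd × ℕ), 1 ≤ x → p ∈ allowed r x →
    a ∈ MArch (x + jump p) N →
      mlev (p.1 ++ a.1 ++ p.2, p.1.length + a.2) = htn p + mlev a ∧
      mlat x (p.1 ++ a.1 ++ p.2, p.1.length + a.2) = kap p + mlat (x + jump p) a) ∧
  (∀ (x : ℤ) (N : ℕ) (a : Wd × ℕ), 1 ≤ x → a ∈ MArch x N →
    1 ≤ mlev a ∧ 2 * mlev a ≤ N ∧ Even N ∧ 2 * x ≤ N ∧ |mlat x a| ≤ N) ∧
  (∀ (r : ℕ) (p : Wd × Wd), p ∈ Pc r → kap (flip p) = kap p ∧ |kap p| ≤ 2 * hl p) ∧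
  ∀ (n : ℕ) (q : QM), q ∈ Omm n → zl q ≤ n ∧ |zt q| ≤ 2 * n ∧ Even ((zl q : ℤ) + zt q) ∧ 0 < dm q

/-- ARS : the integer area functional (from K2M). PROOF. As `Ar_step`, `Ar_cap` in
`Lib_helper41/SapR/ArDef.lean`; the bounds by induction with K2M: the trapezoid areas
`ht p * (2 x + jump p)` are nonnegative, the gaps of an arch of length `N` are at most `N / 2`, the
heights of the pieces below the mark add up to at most `mlev ≤ N / 2`. -/
def ARS_Stmt : Prop :=
  (∀ (r : ℕ) (x : ℤ) (N : ℕ) (p : Wd × Wd) (a : Wd × ℕ), 1 ≤ x → N ≤ r + 2 →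
    p ∈ allowed r x → a ∈ MArch (x + jump p) (N - (p.1.length + p.2.length)) →
      ArM r x (p.1 ++ a.1 ++ p.2, p.1.length + a.2) =
        ArM r (x + jump p) a + (ht p * (2 * x + jump p)).toNat) ∧
  (∀ (r : ℕ) (x : ℤ) (N : ℕ) (a : Wd × ℕ), 1 ≤ x → N ≤ r + 2 → a ∈ MCap x N →
    ArM r x a = 0) ∧
  ∀ (n : ℕ) (q : QM), q ∈ Omm n → am n q ≤ 2 * n ^ 2

open Classical in
/-- ROOT : from the polygon words with a marked vertex to the canonical words. PROOF. Let `w` be a
polygon word, `0 < j < 2n`, `v = pos j`, with a level `h`, `0 < h < lev v`, containing exactly two vertices;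
let `h` be the lowest one. One of the two vertices is on the part `0 → v`, the other one on the part
`v → 0`. Reversing the word (`rv`, `j ↦ 2n - j`; `|dbl|`, `lev`, `lat` of the mark unchanged) exchanges the two
parts; exactly one of the two orientations has the first vertex to the right of the second one
(`gap x ≥ 1`); this gives the factor `2`. Rotating this word to the first vertex gives `w' ++ rot2 T` with
an arch `w'` of gap `x` which contains `v` as an inner vertex, and an arch `T` of gap `x` which contains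
the old origin as an inner vertex (compare `mem_glue`, `canon_decomp` in `Lib_helper89/FL/K1H.lean`). As `h`
is the lowest cut, `T` has no cut below its mark: `(T, i)` is in `MCap x M`. Conversely glue and rotate to
the mark of `T`. `dbl` is invariant under rotation, `dbl_glue`. -/
def ROOT_Stmt : Prop := ∀ n : ℕ, 1 ≤ n → ∀ F : ℤ → ℤ → ℤ → ℝ,
  ∑ w ∈ SAP n, ∑ j ∈ (range (2 * n)).filter (fun j => ¬ NoB n w j),
    F |dbl 0 (List.ofFn w)| (slev n w j) (lat (pos n w j)) =
  2 * ∑ q ∈ Omm n, F (dm q) (zl q) (zt q)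

/-- PDIFM (from K2M, ARS, HGM): moments of the error of the integer area functional. PROOF. As
`EXW.NEARP`, `EXW.PDIF` (and `FL.NEAR.inner`): `dm q - am n q` is the sum of `off p` over the pieces of `q` and of
the shoelace sums of the two marked caps; `|off p| ≤ C hl p ^ 2`, cap of half length `m`: `≤ C m^2`. Truncate at
`L = C_J D log n`: words all of whose pieces and caps have half length at most `L` have error at most
`C n L`; the others have total weight at most `D^K / (n^J ρ^n)` (the sequences of pieces have weight at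
most `1` for every total half length, tails `D (1 - 1/D)^m` for the large one), pointwise error at
most `36 n^3`. -/
def PDIFM_Stmt : Prop := ∀ p : ℕ, ∃ K : ℕ, ∀ D : ℝ, 2 ≤ D → ∀ (n : ℕ) (f g rho : ℝ), 2 ≤ n →
  0 < f → CritM n (Real.exp (-f)) g rho → TailsM D (1 - D⁻¹) n f g rho →
    ∑ q ∈ Omm n, wm n (Real.exp (-f)) g q * |(dm q : ℝ) - (am n q : ℝ)| ^ p ≤
      (D ^ K * n * Real.log n) ^ p * Zm n (Real.exp (-f)) g + D ^ K / ((n : ℝ) ^ 2 * rho ^ n)

/-! ### Mass gap -/

/-- TMG : the output of the mass gap part: critical weight and exponential tails, uniformly on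
compact sets of forces `a ≤ f ≤ b`, `|g| ≤ b`. -/
def TMG_Stmt : Prop := ∀ a b : ℝ, 0 < a → a ≤ b → ∃ C θ : ℝ, 0 < C ∧ 0 < θ ∧ θ < 1 ∧ ∃ N : ℕ,
  ∀ n : ℕ, N ≤ n → ∀ f g : ℝ, a ≤ f → f ≤ b → |g| ≤ b →
    ∃ rho : ℝ, CritM n (Real.exp (-f)) g rho ∧ TailsM C θ n f g rho ∧ C⁻¹ ≤ rho ∧ rho ≤ 1 / 4

end Pool.Agent.TPT
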