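import Pool.Agent.NSP.Defs

/-!
# Project TPT (MP_f6626d_co): self-avoiding polygons through two given points

`lev = x + y`, `lat = x - y`. A marked arch is a pair `(w, j)`, `w` an arch, the mark is the vertex
number `j`. The polygon is cut at the first and at the last cut level strictly between the two
marks; the pieces, gaps and words are those of `Lib_helper24/SapR/Defs`, `Lib_helper89/FL/Defs`.
-/

set_option autoImplicit false

namespace Pool.Agent.TPT

open Finset Filter Topology MeasureTheory
open Pool.Agent.Lib27 Pool.Agent.SapR Pool.Agent.AreaLaw Pool.Agent.FL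
open Pool.Agent.FS (sc)

/-- lateral coordinate -/
def lat (p : ℤ × ℤ) : ℤ := p.1 - p.2

/-- lateral displacement along a piece of the midpoint of the two cut vertices -/
def kap (p : Wd × Wd) : ℤ := lat (ep 0 p.1) - jump p

/-- level of the mark -/
def mlev (a : Wd × ℕ) : ℕ := (lev (ep 0 (a.1.take a.2))).toNat

/-- lateral position of the mark relative to the midpoint of the base, for an arch of gap `x` -/
def mlat (x : ℤ) (a : Wd × ℕ) : ℤ := lat (ep 0 (a.1.take a.2)) + x

open Classical in
/-- marked arches of gap `x` with `N` steps -/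
noncomputable def MArch (x : ℤ) (N : ℕ) : Finset (Wd × ℕ) :=
  ((words N) ×ˢ (range N)).filter (fun a => Arch x a.1 ∧ 0 < a.2)

open Classical in
/-- marked caps: marked arches without cut level strictly between the base and the mark -/
noncomputable def MCap (x : ℤ) (N : ℕ) : Finset (Wd × ℕ) :=
  (MArch x N).filter (fun a => ∀ h : ℤ, 1 ≤ h → h < mlev a → ¬ Cut (vt 0 a.1) h)

/-- indices of the canonical polygon words with two marks: gap and length of the lower marked cap,
the marked cap (rotated), the upper marked arch -/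
abbrev QM : Type := (_ : ℤ) × (_ : ℕ) × ((Wd × ℕ) × (Wd × ℕ))

/-- canonical polygon words of half perimeter `n` with two marks -/
noncomputable def Omm (n : ℕ) : Finset QM :=
  (Icc (1 : ℤ) (2 * n)).sigma fun x => (range (2 * n + 1)).sigma fun M =>
    (MCap x M) ×ˢ (MArch x (2 * n - M))

/-- difference of the levels of the marks -/
def zl (q : QM) : ℕ := mlev q.2.2.2 + mlev q.2.2.1

/-- difference of the lateral coordinates of the marks -/
def zt (q : QM) : ℤ := mlat q.1 q.2.2.2 + mlat q.1 q.2.2.1

/-- shoelace sum -/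
def dm (q : QM) : ℤ := dbl 0 q.2.2.2.1 + dbl 0 q.2.2.1.1

/-- `((U, D), (w, j))` is the decomposition of the marked arch `a` of gap `x` at its lowest cut -/
def DecM (r : ℕ) (x : ℤ) (a : Wd × ℕ) (q : (Wd × Wd) × (Wd × ℕ)) : Prop :=
  q.1 ∈ allowed r x ∧ q.2 ∈ MArch (x + jump q.1) (a.1.length - (q.1.1.length + q.1.2.length)) ∧
    a = (q.1.1 ++ q.2.1 ++ q.1.2, q.1.1.length + q.2.2)

lemma DecM_lt {r : ℕ} {x : ℤ} {a : Wd × ℕ} {q : (Wd × Wd) × (Wd × ℕ)} (h : DecM r x a q) :
    q.2.1.length < a.1.length := by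
  have h1 := ((M41.mem_Pc _ _).1 ((M41.mem_allowed _ _ _).1 h.1).1).1.1.1
  have h2 := M41.len1_of_pos q.1.1 h1.ne'
  rw [h.2.2]
  simp only [List.length_append]
  omega

open Classical in
/-- integer area functional of a marked arch of gap `x` -/
noncomputable def ArM (r : ℕ) (x : ℤ) (a : Wd × ℕ) : ℕ :=
  if h : ∃ q : (Wd × Wd) × (Wd × ℕ), DecM r x a q then
    have : (h.choose).2.1.length < a.1.length := DecM_lt h.choose_spec
    ArM r (x + jump (h.choose).1) (h.choose).2 +
      (ht (h.choose).1 * (2 * x + jump (h.choose).1)).toNat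
  else 0
termination_by a.1.length

/-- integer area functional -/
noncomputable def am (n : ℕ) (q : QM) : ℕ := ArM (2 * n - 1) q.1 q.2.2.2

/-- weight: `s = exp (-f)`, force `(f, g)` on (level, lateral coordinate) -/
noncomputable def wm (n : ℕ) (s g : ℝ) (q : QM) : ℝ := s ^ (n - zl q) * Real.exp (g * zt q)

/-- total weight -/
noncomputable def Zm (n : ℕ) (s g : ℝ) : ℝ := ∑ q ∈ Omm n, wm n s g q

/-- rescaled area functional -/
noncomputable def rm (n : ℕ) (q : QM) : ℝ := (am n q : ℝ) / sc n

/-- weighted sum of `φ (rm q)` over the words whose marks differ by `(h, t)` in (level, lateral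
coordinate) -/
noncomputable def UM (n : ℕ) (s g : ℝ) (h : ℕ) (t : ℤ) (φ : ℝ → ℝ) : ℝ :=
  ∑ q ∈ (Omm n).filter (fun q => zl q = h ∧ zt q = t), wm n s g q * φ (rm n q)

/-- Laplace transform of the rescaled area functional -/
noncomputable def lapM (n : ℕ) (s g lam : ℝ) : ℝ :=
  (∑ q ∈ Omm n, wm n s g q * Real.exp (-(lam * rm n q))) / Zm n s g

/-- weight of a piece -/
noncomputable def wp (s g rho : ℝ) (p : Wd × Wd) : ℝ :=
  rho ^ hl p * s ^ (hl p - htn p) * Real.exp (g * kap p)

/-- critical weight -/
def CritM (n : ℕ) (s g rho : ℝ) : Prop := 0 < rho ∧ ∑ p ∈ Pc (2 * n - 1), wp s g rho p = 1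

/-- level of the vertex number `j` of a polygon word -/
def slev (n : ℕ) (w : Fin (2 * n) → Fin 4) (j : ℕ) : ℤ := lev (pos n w j)

/-- number of vertices of the polygon word on the level `h` -/
def scnt (n : ℕ) (w : Fin (2 * n) → Fin 4) (h : ℤ) : ℕ :=
  ((range (2 * n)).filter (fun i => slev n w i = h)).card

/-- pairs (polygon word, number `j` of a vertex) such that no level strictly between that of the
origin and that of the vertex `j` contains exactly two vertices (all those in which the vertex
`j` is not above the origin included) -/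
def NoB (n : ℕ) (w : Fin (2 * n) → Fin 4) (j : ℕ) : Prop :=
  ∀ h : ℤ, 0 < h → h < slev n w j → scnt n w h ≠ 2

open Classical in
/-- the three exponential tail bounds for the force `(f, g)`, `s = exp (-f)`, at `rho` -/
def TailsM (C θ : ℝ) (n : ℕ) (f g rho : ℝ) : Prop :=
  (∀ m : ℕ, ∑ p ∈ (Pc (2 * n - 1)).filter (fun p => hl p = m), wp (Real.exp (-f)) g rho p ≤
    C * θ ^ m) ∧
  (∀ m : ℕ, ∑ x ∈ Icc (1 : ℤ) m, ∑ a ∈ MCap x (2 * m), rho ^ m * Real.exp (-f) ^ (m - mlev a) *
    Real.exp (g * mlat x a) ≤ C * θ ^ m) ∧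
  ∑ w ∈ SAP n, ∑ j ∈ (range (2 * n)).filter (fun j => NoB n w j),
    rho ^ n * Real.exp (-(f * n)) * Real.exp (f * slev n w j + g * lat (pos n w j)) ≤
    C * (n : ℝ) ^ 2 * θ ^ n

open Classical in
/-- the words of the polygons of perimeter `2n` through `0` and `z` -/
noncomputable def Thr (n : ℕ) (z : ℤ × ℤ) : Finset (Fin (2 * n) → Fin 4) :=
  (SAP n).filter (fun w => ∃ j < 2 * n, pos n w j = z)

end Pool.Agent.TPT
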