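import Pool.Agent.TPT.StmtsB
import Pool.Agent.Lib_helper89.FL.KW

/-!
# Project TPT, module KWM: the gap kernel with lateral weights

The kernel, its critical weight and its parameters.
-/

set_option autoImplicit false

namespace Pool.Agent.TPT.KWM

open Finset Pool.Agent.Lib27 Pool.Agent.SapR Filter Topology
open Pool.Agent.FL (Wd hl htn)
open Pool.Agent.FL.KW (SS mem_SS len_hl ht_eq piece_mem jump_le far)

/-- total lateral weight of a set of pieces -/
noncomputable def eA (g : ℝ) (A : Finset (Wd × Wd)) : ℝ := ∑ p ∈ A, Real.exp (g * kap p)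

lemma eA_nonneg (g : ℝ) (A : Finset (Wd × Wd)) : 0 ≤ eA g A :=
  sum_nonneg fun _ _ => (Real.exp_pos _).le

lemma eA_mono (g : ℝ) {A B : Finset (Wd × Wd)} (h : A ⊆ B) : eA g A ≤ eA g B :=
  sum_le_sum_of_subset_of_nonneg h fun _ _ _ => (Real.exp_pos _).le

lemma eA_empty (g : ℝ) : eA g ∅ = 0 := by unfold eA; rw [sum_empty]

lemma eA_PcT_even (hH : HGM_Stmt) (g : ℝ) (r : ℕ) (i : ℕ × ℕ) (d : ℤ) :
    eA g (M41.PcT r i (-d)) = eA g (M41.PcT r i d) := by
  unfold eA
  apply sum_nbij' (fun p => flip p) (fun p => flip p)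
  · intro p hp
    rw [M41.mem_PcT] at hp ⊢
    obtain ⟨h1, h2, h3, h4⟩ := hp
    obtain ⟨f1, f2, f3, f4, f5, f6, f7⟩ := H66.k5flip r p h1
    exact ⟨f1, by rw [f6]; exact h2, by rw [f4]; exact h3, by rw [f3, h4, neg_neg]⟩
  · intro p hp
    rw [M41.mem_PcT] at hp ⊢
    obtain ⟨h1, h2, h3, h4⟩ := hp
    obtain ⟨f1, f2, f3, f4, f5, f6, f7⟩ := H66.k5flip r p h1
    exact ⟨f1, by rw [f6]; exact h2, by rw [f4]; exact h3, by rw [f3, h4]⟩
  · intro p hp
    rw [M41.mem_PcT] at hp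
    exact (H66.k5flip r p hp.1).2.1
  · intro p hp
    rw [M41.mem_PcT] at hp
    exact (H66.k5flip r p hp.1).2.1
  · intro p hp
    rw [M41.mem_PcT] at hp
    rw [(hH.2.2.1 r p hp.1).1]

lemma eA_alT_symm (hH : HGM_Stmt) (g : ℝ) (r : ℕ) (i : ℕ × ℕ) (x x' : ℤ) :
    eA g (M41.alT r i x x') = eA g (M41.alT r i x' x) := by
  have key : ∀ a b : ℤ, ∀ p ∈ M41.alT r i a b, flip p ∈ M41.alT r i b a := by
    intro a b p hp
    rw [M41.mem_alT] at hp ⊢
    obtain ⟨h1, h2, h3, h4⟩ := hp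
    have h0 := ((M41.mem_allowed _ _ _).1 h1).1
    obtain ⟨f1, f2, f3, f4, f5, f6, f7⟩ := H66.k5flip r p h0
    have := (f7 a).1 h1
    rw [h4, show a + (b - a) = b by ring] at this
    exact ⟨this, by rw [f6]; exact h2, by rw [f4]; exact h3, by rw [f3, h4]; ring⟩
  have key2 : ∀ a b : ℤ, ∀ p ∈ M41.alT r i a b, flip (flip p) = p ∧ kap (flip p) = kap p := by
    intro a b p hp
    rw [M41.mem_alT] at hp
    have h0 := ((M41.mem_allowed _ _ _).1 hp.1).1
    exact ⟨(H66.k5flip r p h0).2.1, (hH.2.2.1 r p h0).1⟩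
  unfold eA
  apply sum_nbij' (fun p => flip p) (fun p => flip p)
  · intro p hp; exact key x x' p hp
  · intro p hp; exact key x' x p hp
  · intro p hp; exact (key2 x x' p hp).1
  · intro p hp; exact (key2 x' x p hp).1
  · intro p hp
    rw [(key2 x x' p hp).2]

lemma kap_a : kap (([0], [2]) : Wd × Wd) = 1 ∧ kap (([1], [3]) : Wd × Wd) = -1 ∧
    kap (([0], [3]) : Wd × Wd) = 0 := by
  refine ⟨?_, ?_, ?_⟩
  · unfold kap; rw [M41.jump_ex.1]; simp [lat, ep, dv]
  · unfold kap; rw [M41.jump_ex.2.1]; simp [lat, ep, dv]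
  · unfold kap; rw [M41.jump_ex.2.2.1]; simp [lat, ep, dv]

lemma eA_one (g : ℝ) (r : ℕ) : eA g (M41.PcT r (1, 1) 1) = 1 := by
  rw [M41.PcT_one H66.k5basic r]
  unfold eA
  rw [sum_singleton, kap_a.2.2]
  simp

lemma eA_zero (g : ℝ) (r : ℕ) : 1 ≤ eA g (M41.PcT r (1, 1) 0) := by
  rw [M41.PcT_zero H66.k5basic r]
  unfold eA
  rw [sum_insert (by simp), sum_singleton, kap_a.1, kap_a.2.1]
  push_cast
  rcases le_total 0 g with h | h
  · have h1 : 1 ≤ Real.exp (g * 1) := Real.one_le_exp (by linarith)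
    have h2 := Real.exp_pos (g * -1)
    linarith
  · have h1 : 1 ≤ Real.exp (g * -1) := Real.one_le_exp (by linarith)
    have h2 := Real.exp_pos (g * 1)
    linarith

/-- grouping of the pieces by half length, height and jump -/
lemma group (h : FL.HG_Stmt) (g : ℝ) (r : ℕ) (f : ℕ → ℕ → ℤ → ℝ) :
    ∑ p ∈ Pc r, f (hl p) (htn p) (jump p) * Real.exp (g * kap p) = ∑ i ∈ SS r,
      ∑ d ∈ Icc (-((r + 2 : ℕ) : ℤ)) (r + 2 : ℕ), f i.1 i.2 d * eA g (M41.PcT r i d) := by
  classical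
  have hmap : ∀ p ∈ Pc r, (((hl p, htn p), jump p) : (ℕ × ℕ) × ℤ) ∈
      SS r ×ˢ Icc (-((r + 2 : ℕ) : ℤ)) (r + 2 : ℕ) := by
    intro p hp
    rw [mem_product]
    exact piece_mem h hp
  rw [← sum_fiberwise_of_maps_to hmap, sum_product]
  apply sum_congr rfl
  intro i _
  apply sum_congr rfl
  intro d _
  have hfib : (Pc r).filter (fun p => (((hl p, htn p), jump p) : (ℕ × ℕ) × ℤ) = (i, d)) =
      M41.PcT r i d := by
    ext p
    rw [mem_filter, M41.mem_PcT]
    constructor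
    · rintro ⟨h1, h2⟩
      rw [Prod.mk.injEq, Prod.ext_iff] at h2
      simp only at h2
      obtain ⟨⟨a, b⟩, c⟩ := h2
      have := len_hl h1
      have := ht_eq h1
      refine ⟨h1, by omega, by omega, c⟩
    · rintro ⟨h1, h2, h3, h4⟩
      refine ⟨h1, ?_⟩
      have := len_hl h1
      have := ht_eq h1
      rw [Prod.mk.injEq, Prod.ext_iff]
      simp only
      refine ⟨⟨by omega, by omega⟩, h4⟩
  have e : ∀ p ∈ (Pc r).filter (fun p => (((hl p, htn p), jump p) : (ℕ × ℕ) × ℤ) = (i, d)),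
      f (hl p) (htn p) (jump p) * Real.exp (g * kap p) = f i.1 i.2 d * Real.exp (g * kap p) := by
    intro p hp
    rw [mem_filter, Prod.mk.injEq, Prod.ext_iff] at hp
    simp only at hp
    rw [hp.2.1.1, hp.2.1.2, hp.2.2]
  rw [sum_congr rfl e, hfib, ← mul_sum]
  rfl

/-- data of the critical weight -/
lemma rho_ex (r : ℕ) (s g : ℝ) (hs : 0 < s) : ∃ rho : ℝ, 0 < rho ∧
    ∑ i ∈ SS r, rho ^ i.1 * ∑ d ∈ Icc (-((r + 2 : ℕ) : ℤ)) (r + 2 : ℕ),
      (s ^ (i.1 - i.2) * eA g (M41.PcT r i d)) = 1 := by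
  have hn : ∀ (i : ℕ × ℕ) (d : ℤ), 0 ≤ s ^ (i.1 - i.2) * eA g (M41.PcT r i d) := fun i d =>
    mul_nonneg (by positivity) (eA_nonneg g _)
  apply M41.exists_rho (SS r) (fun i => ∑ d ∈ Icc (-((r + 2 : ℕ) : ℤ)) (r + 2 : ℕ),
    (s ^ (i.1 - i.2) * eA g (M41.PcT r i d)))
  · intro i hi
    exact ((mem_SS r i).1 hi).1.1
  · intro i
    exact sum_nonneg fun d _ => hn i d
  · rw [mem_SS]
    simp
  · have h1 := single_le_sum (f := fun d => (s ^ (1 - 1) * eA g (M41.PcT r (1, 1) d)))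
      (s := Icc (-((r + 2 : ℕ) : ℤ)) (r + 2 : ℕ))
      (fun d _ => hn (1, 1) d) (a := 1) (by
        rw [mem_Icc]; push_cast; constructor <;> omega)
    rw [eA_one] at h1
    simpa using h1

lemma PcT_empty (r : ℕ) (i : ℕ × ℕ) (d : ℤ) (h : ∀ p ∈ Pc r,
    p.1.length + p.2.length = 2 * i.1 → jump p ≠ d) : M41.PcT r i d = ∅ := by
  by_contra hne
  obtain ⟨p, hp⟩ := nonempty_iff_ne_empty.2 hne
  rw [M41.mem_PcT] at hp
  exact h p hp.1 hp.2.1 hp.2.2.2

/-- the weighted gap kernel -/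
noncomputable def kern (hH : HGM_Stmt) (r : ℕ) (s g : ℝ) (hs : 0 < s) : TPK.GapKernel where
  S := SS r
  R := r + 2
  K := fun i x x' => s ^ (i.1 - i.2) * eA g (M41.alT r i x x')
  T := fun i d => s ^ (i.1 - i.2) * eA g (M41.PcT r i d)
  rho := (rho_ex r s g hs).choose
  i0_mem := by rw [mem_SS]; simp
  pos_mem := fun i hi => ⟨((mem_SS r i).1 hi).1.1, ((mem_SS r i).1 hi).2.1.1⟩
  T_nonneg := fun i d => mul_nonneg (by positivity) (eA_nonneg g _)
  T_even := fun i d => by rw [eA_PcT_even hH]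
  T_range := fun i d hd => by
    have : M41.PcT r i d = ∅ := by
      apply PcT_empty
      intro p hp _ hd'
      have := (H66.k5size r p hp).2.2.2.2.2.1
      rw [hd'] at this
      push_cast at hd
      omega
    rw [this, eA_empty, mul_zero]
  K_nonneg := fun i x x' => mul_nonneg (by positivity) (eA_nonneg g _)
  K_symm := fun i x x' => by rw [eA_alT_symm hH]
  K_le := fun i x x' => by
    apply mul_le_mul_of_nonneg_left _ (by positivity)
    exact eA_mono g (M41.alT_sub r i x x')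
  K_out := fun i x x' hg => by
    have : M41.alT r i x x' = ∅ := by
      by_contra hne
      obtain ⟨p, hp⟩ := nonempty_iff_ne_empty.2 hne
      rw [M41.mem_alT] at hp
      have := ((M41.mem_allowed _ _ _).1 hp.1).2.1
      omega
    rw [this, eA_empty, mul_zero]
  K_eq := fun i x x' hx hx' hR => by
    have h : M41.alT r i x x' = M41.PcT r i (x' - x) := by
      classical
      unfold M41.alT M41.PcT
      rw [H66.k5far r x (by push_cast at hR; omega)]
    rw [h]
  K_a := fun x hx => by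
    have h1 := eA_zero g r
    rw [M41.alT_one H66.k5basic r x x hx hx, sub_self]
    simpa using h1
  K_b := fun x hx => by
    rw [M41.alT_one H66.k5basic r x (x + 1) hx (by omega), add_sub_cancel_left, eA_one]
    simp
  rho_pos := (rho_ex r s g hs).choose_spec.1
  crit := (rho_ex r s g hs).choose_spec.2

lemma kern_loc (hH : HGM_Stmt) (r : ℕ) (s g : ℝ) (hs : 0 < s) : TPK.Loc (kern hH r s g hs) where
  h_le := fun i hi => ((mem_SS r i).1 hi).2.2
  T_loc := fun i d hd => by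
    have : M41.PcT r i d = ∅ := by
      apply PcT_empty
      intro p hp hp2 hd'
      have := jump_le hp hp2
      rw [hd'] at this
      omega
    change s ^ (i.1 - i.2) * eA g (M41.PcT r i d) = 0
    rw [this, eA_empty, mul_zero]
  K_loc := fun i x x' hx hx' hR => by
    change s ^ (i.1 - i.2) * eA g (M41.alT r i x x') =
      s ^ (i.1 - i.2) * eA g (M41.PcT r i (x' - x))
    have h : M41.alT r i x x' = M41.PcT r i (x' - x) := by
      apply subset_antisymm (M41.alT_sub r i x x')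
      intro p hp
      rw [M41.mem_PcT] at hp
      rw [M41.mem_alT]
      exact ⟨far hp.1 hp.2.1 hR, hp.2⟩
    rw [h]

lemma kern_tot (hH : HGM_Stmt) (r : ℕ) (s g : ℝ) (hs : 0 < s) (i : ℕ × ℕ) :
    (kern hH r s g hs).tot i = ∑ d ∈ Icc (-((r + 2 : ℕ) : ℤ)) (r + 2 : ℕ),
      s ^ (i.1 - i.2) * eA g (M41.PcT r i d) := rfl

lemma kern_crit (hH : HGM_Stmt) (h : FL.HG_Stmt) (r : ℕ) (s g : ℝ) (hs : 0 < s) :
    ∑ p ∈ Pc r, wp s g (kern hH r s g hs).rho p = 1 := by
  have h0 := group h g r (fun a b _ => (kern hH r s g hs).rho ^ a * s ^ (a - b))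
  have h1 := (kern hH r s g hs).crit
  unfold wp
  rw [h0, ← h1]
  apply sum_congr rfl
  intro i _
  rw [mul_sum]
  apply sum_congr rfl
  intro d _
  change _ = (kern hH r s g hs).rho ^ i.1 * (s ^ (i.1 - i.2) * eA g (M41.PcT r i d))
  ring

lemma kern_level (hH : HGM_Stmt) (h : FL.HG_Stmt) (r : ℕ) (s g : ℝ) (hs : 0 < s) (m : ℕ) :
    ∑ i ∈ (kern hH r s g hs).S.filter (fun i => i.1 = m),
      (kern hH r s g hs).rho ^ m * (kern hH r s g hs).tot i =
      ∑ p ∈ (Pc r).filter (fun p => hl p = m), wp s g (kern hH r s g hs).rho p := by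
  have h1 := group h g r (fun a b _ => if a = m then (kern hH r s g hs).rho ^ a * s ^ (a - b) else 0)
  have h2 : ∑ p ∈ (Pc r).filter (fun p => hl p = m), wp s g (kern hH r s g hs).rho p =
      ∑ p ∈ Pc r, (if hl p = m then (kern hH r s g hs).rho ^ (hl p) * s ^ (hl p - htn p) else 0) *
        Real.exp (g * kap p) := by
    rw [sum_filter]
    apply sum_congr rfl
    intro p _
    unfold wp
    split_ifs
    · rfl
    · rw [zero_mul]
  rw [h2, h1]
  have hS : (kern hH r s g hs).S = SS r := rfl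
  rw [hS, sum_filter]
  apply sum_congr rfl
  intro i _
  by_cases hi : i.1 = m
  · rw [if_pos hi, kern_tot, mul_sum]
    apply sum_congr rfl
    intro d _
    rw [if_pos hi, hi]
    ring
  · rw [if_neg hi]
    symm
    apply sum_eq_zero
    intro d _
    rw [if_neg hi, zero_mul]

lemma kern_mbar (hH : HGM_Stmt) (h : FL.HG_Stmt) (n : ℕ) (s g : ℝ) (hs : 0 < s) :
    (kern hH (2 * n - 1) s g hs).mbar = par n s g (kern hH (2 * n - 1) s g hs).rho 0 := by
  set G := kern hH (2 * n - 1) s g hs with hG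
  have h1 := group h g (2 * n - 1) (fun a b _ => (a : ℝ) * G.rho ^ a * s ^ (a - b))
  have h2 : par n s g G.rho 0 = ∑ p ∈ Pc (2 * n - 1),
      ((hl p : ℝ) * G.rho ^ hl p * s ^ (hl p - htn p)) * Real.exp (g * kap p) := by
    unfold par wp
    apply sum_congr rfl
    intro p _
    simp only [Matrix.cons_val_zero]
    ring
  rw [h2, h1]
  unfold TPK.GapKernel.mbar
  have hS : G.S = SS (2 * n - 1) := rfl
  rw [hS]
  apply sum_congr rfl
  intro i _
  rw [hG, kern_tot, mul_sum]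
  apply sum_congr rfl
  intro d _
  ring

lemma kern_hbar (hH : HGM_Stmt) (h : FL.HG_Stmt) (n : ℕ) (s g : ℝ) (hs : 0 < s) :
    (kern hH (2 * n - 1) s g hs).hbar = par n s g (kern hH (2 * n - 1) s g hs).rho 1 := by
  set G := kern hH (2 * n - 1) s g hs with hG
  have h1 := group h g (2 * n - 1) (fun a b _ => (b : ℝ) * G.rho ^ a * s ^ (a - b))
  have h2 : par n s g G.rho 1 = ∑ p ∈ Pc (2 * n - 1),
      ((htn p : ℝ) * G.rho ^ hl p * s ^ (hl p - htn p)) * Real.exp (g * kap p) := by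
    unfold par wp
    apply sum_congr rfl
    intro p _
    simp only [Matrix.cons_val_one, Matrix.cons_val_zero]
    ring
  rw [h2, h1]
  unfold TPK.GapKernel.hbar
  have hS : G.S = SS (2 * n - 1) := rfl
  rw [hS]
  apply sum_congr rfl
  intro i _
  rw [hG, kern_tot, mul_sum]
  apply sum_congr rfl
  intro d _
  ring

lemma kern_sig2 (hH : HGM_Stmt) (h : FL.HG_Stmt) (n : ℕ) (s g : ℝ) (hs : 0 < s) :
    (kern hH (2 * n - 1) s g hs).sig2 = par n s g (kern hH (2 * n - 1) s g hs).rho 2 := by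
  set G := kern hH (2 * n - 1) s g hs with hG
  have h1 := group h g (2 * n - 1) (fun a b d => (d : ℝ) ^ 2 * G.rho ^ a * s ^ (a - b))
  have h2 : par n s g G.rho 2 = ∑ p ∈ Pc (2 * n - 1),
      ((jump p : ℝ) ^ 2 * G.rho ^ hl p * s ^ (hl p - htn p)) * Real.exp (g * kap p) := by
    unfold par wp
    apply sum_congr rfl
    intro p _
    change _ * ((jump p : ℝ) ^ 2) = _
    ring
  rw [h2, h1]
  unfold TPK.GapKernel.sig2
  have hS : G.S = SS (2 * n - 1) := rfl
  rw [hS]
  apply sum_congr rfl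
  intro i _
  rw [mul_sum]
  apply sum_congr rfl
  intro d _
  change G.rho ^ i.1 * ((d : ℝ) ^ 2 * (s ^ (i.1 - i.2) * eA g (M41.PcT (2 * n - 1) i d))) = _
  ring

end Pool.Agent.TPT.KWM
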