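import Pool.Agent.TPT.MainPre
import Pool.Agent.TPT.Comb
import Pool.Agent.TPK.Fin

/-!
# Project TPT: the final theorem
-/

set_option autoImplicit false

namespace Pool.Agent.TPT

/-- The area law of the self-avoiding polygons through two given points, with all moments. -/
theorem main : FIN_TPT :=
  assemble t_tmg t_kwm t_root t_pdifm TPK.m_QGV TPK.m_QPAR TPK.m_QLT TPK.m_QRAT TPK.m_MOMC
    TPK.m_MOMK TPK.m_QFIN

end Pool.Agent.TPT
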