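import Pool.Agent.TPT.StmtsA
import Pool.Agent.Lib_helper74.FS.Tok

/-!
Module TPT_SKA, part 1: tokens, sums over multisets of skeletons, values of skeletons.
-/

set_option autoImplicit false

namespace Pool.Agent.TPT.SKAP

open Finset Filter Topology MeasureTheory
open Pool.Agent.Lib27 Pool.Agent.SapR Pool.Agent.AreaLaw Pool.Agent.FL Pool.Agent.TPT
open Pool.Agent.FS (sc rs tk1 tk2 rs_nil rs_cons rs_congr rs_add rs_ge_zero)
open Pool.Agent.FS.SKEL (tk_ne tk1_hl tk2_hl tk1_ht tk2_ht tk1_htn tk2_htn tk1_jump tk2_jump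
  tk1_mem tk2_mem)
open Pool.Agent.NSP (lc ld)

/-! ### tokens -/

lemma tk1_kap : kap tk1 = 6 := by decide
lemma tk2_kap : kap tk2 = 5 := by decide
lemma lc_kap : kap lc = 1 := by decide
lemma ld_kap : kap ld = -1 := by decide

lemma lc_ne_ld : lc ≠ ld := by decide
lemma tk1_ne_lc : tk1 ≠ lc := by decide
lemma tk1_ne_ld : tk1 ≠ ld := by decide
lemma tk2_ne_lc : tk2 ≠ lc := by decide
lemma tk2_ne_ld : tk2 ≠ ld := by decide

lemma lc_hl : hl lc = 1 := by decide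
lemma ld_hl : hl ld = 1 := by decide
lemma lc_ht : ht lc = 1 := by decide
lemma ld_ht : ht ld = 1 := by decide
lemma lc_htn : htn lc = 1 := by decide
lemma ld_htn : htn ld = 1 := by decide
lemma lc_jump : jump lc = 0 := by decide
lemma ld_jump : jump ld = 0 := by decide

lemma lc_free : FreePiece lc.1 lc.2 := by
  refine ⟨?_, ?_⟩
  · unfold StripPair; decide
  · intro k h1 h2
    have h3 : lev (ep 0 lc.1) = 1 := by decide
    rw [h3] at h2
    omega

lemma ld_free : FreePiece ld.1 ld.2 := by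
  refine ⟨?_, ?_⟩
  · unfold StripPair; decide
  · intro k h1 h2
    have h3 : lev (ep 0 ld.1) = 1 := by decide
    rw [h3] at h2
    omega

lemma lc_mem (r : ℕ) (hr : 10 ≤ r) (x : ℤ) (hx : 1 ≤ x) : lc ∈ allowed r x := by
  rw [M41.mem_allowed, M41.mem_Pc]
  refine ⟨⟨lc_free, ?_⟩, hx, ?_, ?_⟩
  · have : lc.1.length + lc.2.length = 2 := by decide
    omega
  · rw [lc_jump]; omega
  · intro v h1 h2
    have h3 : ∀ v ∈ vt 0 lc.1, v.2 ≤ 0 := by decide
    have h4 := h3 v h1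
    rw [lc_jump] at h2
    have h5 : ep 0 lc.1 = (1, 0) := by decide
    rw [h5] at h2
    unfold lc at h2
    simp [dv, Prod.ext_iff] at h2
    omega

lemma ld_mem (r : ℕ) (hr : 10 ≤ r) (x : ℤ) (hx : 1 ≤ x) : ld ∈ allowed r x := by
  rw [M41.mem_allowed, M41.mem_Pc]
  refine ⟨⟨ld_free, ?_⟩, hx, ?_, ?_⟩
  · have : ld.1.length + ld.2.length = 2 := by decide
    omega
  · rw [ld_jump]; omega
  · intro v h1 h2
    have h3 : ∀ v ∈ vt 0 ld.1, v.1 = 0 := by decide
    have h4 := h3 v h1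
    rw [ld_jump] at h2
    have h5 : ep 0 ld.1 = (0, 1) := by decide
    rw [h5] at h2
    unfold ld at h2
    simp [dv, Prod.ext_iff] at h2
    omega

/-! ### sums over multisets -/

noncomputable def ms (g : Sk2 → ℝ) (M : Multiset Sk2) : ℝ := (M.map g).sum

lemma ms_zero (g : Sk2 → ℝ) : ms g 0 = 0 := rfl

lemma ms_add (g : Sk2 → ℝ) (M N : Multiset Sk2) : ms g (M + N) = ms g M + ms g N := by
  unfold ms
  rw [Multiset.map_add, Multiset.sum_add]

lemma ms_sum {ι : Type} (g : Sk2 → ℝ) (S : Finset ι) (N : ι → Multiset Sk2) :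
    ms g (∑ i ∈ S, N i) = ∑ i ∈ S, ms g (N i) := by
  classical
  induction S using Finset.induction_on with
  | empty => simp [ms_zero]
  | insert a S ha ih => rw [Finset.sum_insert ha, Finset.sum_insert ha, ms_add, ih]

lemma ms_map (g : Sk2 → ℝ) (f : Sk2 → Sk2) (M : Multiset Sk2) :
    ms g (M.map f) = ms (fun a => g (f a)) M := by
  unfold ms
  rw [Multiset.map_map]
  rfl

lemma ms_val {ι : Type} (g : Sk2 → ℝ) (S : Finset ι) (f : ι → Sk2) :
    ms g (S.val.map f) = ∑ i ∈ S, g (f i) := by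
  unfold ms
  rw [Multiset.map_map]
  rfl

lemma ms_mul (c : ℝ) (g : Sk2 → ℝ) (M : Multiset Sk2) :
    ms (fun a => c * g a) M = c * ms g M := by
  unfold ms
  rw [Multiset.sum_map_mul_left]

lemma ms_add_fun (g g' : Sk2 → ℝ) (M : Multiset Sk2) :
    ms (fun a => g a + g' a) M = ms g M + ms g' M := by
  unfold ms
  rw [Multiset.sum_map_add]

lemma ms_congr (g g' : Sk2 → ℝ) (M : Multiset Sk2) (h : ∀ a ∈ M, g a = g' a) :
    ms g M = ms g' M := by
  unfold ms
  rw [Multiset.map_congr rfl h]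

/-- inner value: sum over the lateral tokens -/
noncomputable def iv (F : ℤ → ℤ → ℤ → ℝ) (a : Sk2) (j t : ℕ) : ℝ :=
  ∑ b ∈ range (a.k + 1), (a.k.choose b : ℝ) * F (a.H - j) (a.Λ - j - 2 * b) (a.A - t)

/-- value of a skeleton -/
noncomputable def ev (F : ℤ → ℤ → ℤ → ℝ) (a : Sk2) : ℝ := rs a.l (iv F a)

/-- weight of a skeleton -/
noncomputable def wv (s g τ τ' : ℝ) (m : ℕ) (a : Sk2) : ℝ :=
  s ^ (m - a.H) * Real.exp (g * a.Λ) * ((1 + s * Real.exp (-g)) * τ) ^ a.l.length *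
    ((1 + Real.exp (-(2 * g))) * τ') ^ a.k

/-- marked caps of half length `m` -/
noncomputable def cf (s g ρ : ℝ) (m : ℕ) : ℝ :=
  ∑ x ∈ Icc (1 : ℤ) m, ∑ a ∈ MCap x (2 * m),
    ρ ^ m * s ^ (m - mlev a) * Real.exp (g * mlat x a)

lemma cf_nonneg (s g ρ : ℝ) (m : ℕ) (hs : 0 < s) (hρ : 0 < ρ) : 0 ≤ cf s g ρ m := by
  unfold cf
  exact Finset.sum_nonneg fun x _ => Finset.sum_nonneg fun T _ => by positivity

/-- shift by the piece `p` below gap `x` -/
def shf (x : ℤ) (p : Wd × Wd) (a : Sk2) : Sk2 :=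
  ⟨a.l, a.k, a.H + htn p, a.A + (ht p * (2 * x + jump p)).toNat, a.Λ + kap p⟩

/-- new span token -/
def tok (x : ℤ) (a : Sk2) : Sk2 :=
  ⟨(2 * x + 2).toNat :: a.l, a.k, a.H + 4, a.A + 4 * (2 * x + 2).toNat, a.Λ + 6⟩

/-- new lateral token -/
def tol (x : ℤ) (a : Sk2) : Sk2 :=
  ⟨a.l, a.k + 1, a.H + 1, a.A + (2 * x).toNat, a.Λ + 1⟩

/-- the function seen by the inner arch -/
def inn (x : ℤ) (p : Wd × Wd) (F : ℤ → ℤ → ℤ → ℝ) (a b c : ℤ) : ℝ :=
  F (a + htn p) (b + kap p) (c + ht p * (2 * x + jump p))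

lemma ev_shf (x : ℤ) (p : Wd × Wd) (F : ℤ → ℤ → ℤ → ℝ) (a : Sk2)
    (h0 : 0 ≤ ht p * (2 * x + jump p)) : ev F (shf x p a) = ev (inn x p F) a := by
  unfold ev shf inn
  apply rs_congr
  intro j t _ _
  unfold iv
  simp only [Nat.cast_add, Int.toNat_of_nonneg h0]
  apply sum_congr rfl
  intro b _
  congr 2 <;> ring

lemma ev_tok (x : ℤ) (F : ℤ → ℤ → ℤ → ℝ) (a : Sk2) (hx : 1 ≤ x) :
    ev F (tok x a) = ev (inn x tk1 F) a + ev (inn x tk2 F) a := by
  have hy : (((2 * x + 2).toNat : ℕ) : ℤ) = 2 * x + 2 := Int.toNat_of_nonneg (by omega)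
  unfold ev tok
  simp only [rs_cons]
  congr 1
  · apply rs_congr
    intro j t _ _
    unfold iv inn
    rw [tk1_htn, tk1_ht, tk1_jump, tk1_kap]
    apply sum_congr rfl
    intro b _
    push_cast
    rw [hy]
    congr 2 <;> ring
  · apply rs_congr
    intro j t _ _
    unfold iv inn
    rw [tk2_htn, tk2_ht, tk2_jump, tk2_kap]
    apply sum_congr rfl
    intro b _
    push_cast
    rw [hy]
    congr 2 <;> ring

/-- Pascal's rule -/
lemma pascal (k : ℕ) (f : ℕ → ℝ) :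
    ∑ b ∈ range (k + 1 + 1), ((k + 1).choose b : ℝ) * f b =
      ∑ b ∈ range (k + 1), (k.choose b : ℝ) * f b +
        ∑ b ∈ range (k + 1), (k.choose b : ℝ) * f (b + 1) := by
  rw [Finset.sum_range_succ']
  have h1 : ∀ b ∈ range (k + 1), ((k + 1).choose (b + 1) : ℝ) * f (b + 1) =
      (k.choose b : ℝ) * f (b + 1) + (k.choose (b + 1) : ℝ) * f (b + 1) := by
    intro b _
    rw [Nat.choose_succ_succ]
    push_cast
    ring
  rw [sum_congr rfl h1, sum_add_distrib]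
  have h2 : ∑ b ∈ range (k + 1), (k.choose b : ℝ) * f b =
      ∑ b ∈ range k, (k.choose (b + 1) : ℝ) * f (b + 1) + (k.choose 0 : ℝ) * f 0 :=
    Finset.sum_range_succ' _ _
  have h3 : ∑ b ∈ range (k + 1), (k.choose (b + 1) : ℝ) * f (b + 1) =
      ∑ b ∈ range k, (k.choose (b + 1) : ℝ) * f (b + 1) := by
    rw [Finset.sum_range_succ, Nat.choose_succ_self]
    simp
  rw [h2, h3]
  simp only [Nat.choose_zero_right]
  ring

lemma ev_tol (x : ℤ) (F : ℤ → ℤ → ℤ → ℝ) (a : Sk2) (hx : 1 ≤ x) :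
    ev F (tol x a) = ev (inn x lc F) a + ev (inn x ld F) a := by
  have hy : (((2 * x).toNat : ℕ) : ℤ) = 2 * x := Int.toNat_of_nonneg (by omega)
  unfold ev
  rw [← rs_add]
  show rs a.l _ = _
  apply rs_congr
  intro j t _ _
  unfold iv tol inn
  rw [lc_htn, lc_ht, lc_jump, lc_kap, ld_htn, ld_ht, ld_jump, ld_kap]
  rw [pascal]
  congr 1
  · apply sum_congr rfl
    intro b _
    push_cast
    rw [hy]
    congr 2 <;> ring
  · apply sum_congr rfl
    intro b _
    push_cast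
    rw [hy]
    congr 2 <;> ring

end Pool.Agent.TPT.SKAP
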