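import Pool.Agent.TPT.Stmts0
import Pool.Agent.NSP.StmtsM

/-!
# Project TPT: statements of the analysis part

THEOREM (`FIN_TPT`): there is `e n → 0` such that the Airy law, with all moments, holds for the uniform
self-avoiding polygons of perimeter `2n` through `0` and `z n`, for all `z n` with
`e n * n ≤ |z n|_1 ≤ (1 - e n) * n`.

METHOD: that of `Lib_helper74/FS` and `NSP` (their files are the pattern) with a force vector `(f, g)` on
(level, lateral coordinate). Constants `C`, `c`, `N` depend on `a`, `b` (and `r`, `K`, ...) only; the forces are in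
the compact set `a ≤ f ≤ b`, `|g| ≤ b`. `s = exp (-f)`. Every doc string contains the proof.
-/

set_option autoImplicit false

namespace Pool.Agent.TPT

open Finset Filter Topology MeasureTheory
open Pool.Agent.Lib27 Pool.Agent.SapR Pool.Agent.AreaLaw Pool.Agent.FL
open Pool.Agent.FS (sc rs bp dlt tk1 tk2)
open Pool.Agent.NSP (lc ld)
open Pool.Agent.KCS (airyMoment)
open Pool.Agent.KCC (areaMoment)

/-- the compact set of forces -/
def Box (a b f g : ℝ) : Prop := a ≤ f ∧ f ≤ b ∧ |g| ≤ b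

/-! ### Bounds for the force model -/

/-- ZBM (from TMG and the kernel library `TPK`, KWM) : total weight. PROOF. By TMG and KWM the kernel
`kernM (2n-1) s g` with `rho` critical is in the class `Cls D (1 - 1/D)` for one `D = D(a, b)`, and the caps
`capM n s g` in `ClsCap`; `QGV` gives the critical solution with constant `exp (D^K)`; enlarge `D`. The
statement QLT (comparison with the staircase model, `W` a large constant, `n ≥ N`) bounds
`n √n rho^n (closeP ..).eval 1` above and below; `Zm = (closeP ..).eval 1` by KWM at `X = 1`. -/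
def ZBM_Stmt : Prop := ∀ a b : ℝ, 0 < a → a ≤ b → ∃ C θ : ℝ, 0 < C ∧ 0 < θ ∧ θ < 1 ∧ ∃ N : ℕ,
  ∀ n : ℕ, N ≤ n → ∀ f g : ℝ, Box a b f g → ∃ rho : ℝ, CritM n (Real.exp (-f)) g rho ∧
    TailsM C θ n f g rho ∧ C⁻¹ ≤ rho ∧ rho ≤ 1 / 4 ∧
    C⁻¹ ≤ sc n * rho ^ n * Zm n (Real.exp (-f)) g ∧ sc n * rho ^ n * Zm n (Real.exp (-f)) g ≤ C

/-- MOMM (from ZBM, PDIFM and MOMC, QRAT for the kernels KWM) : moments. PROOF. Mean of `rm`: third part of
QRAT at `lam = 1` and the second part of MOMC (or directly QRAT): bounded above and below. Moments: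
otherwise there are `r`, `n_k → ∞`, `(f_k, g_k)` in the box with `∑ wm rm^r > k Zm`; take a sequence of models with
these forces at `n_k` and the force `(a, 0)` else, constant class parameter `D`; MOMC (1): the normalised
moments converge, and the means are bounded: contradiction. Third: PDIFM with ZBM:
`1/(n^2 rho^n) ≤ C sc n Zm / n^2 ≤ C Zm`. -/
def MOMM_Stmt : Prop := ∀ a b : ℝ, 0 < a → a ≤ b → ∀ r : ℕ, ∃ C : ℝ, 0 < C ∧ ∃ N : ℕ,
  ∀ n : ℕ, N ≤ n → ∀ f g : ℝ, Box a b f g →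
    ∑ q ∈ Omm n, wm n (Real.exp (-f)) g q * rm n q ^ r ≤ C * Zm n (Real.exp (-f)) g ∧
    C⁻¹ * Zm n (Real.exp (-f)) g ≤ ∑ q ∈ Omm n, wm n (Real.exp (-f)) g q * rm n q ∧
    ∑ q ∈ Omm n, wm n (Real.exp (-f)) g q * |(dm q : ℝ) - (am n q : ℝ)| ^ r ≤
      C * (n * Real.log n) ^ r * Zm n (Real.exp (-f)) g

/-- FLM (from ZBM, PDIFM, KWM and QFIN, MOMK for `TPK`; `EXW.main3`, `NSP.t_UNQ`) : law and moments under
the force. PROOF. Sequence of models: `Omega n = Omm n` (subtype), `wt = wm`, `T = dm`, `A = am`, all good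
(`bad = 0`), `c = 1`, `C0 = 2n`, caps `capM`, `count` = KWM, `near` and `NearP` from PDIFM and ZBM (constant `D`), for
`n < N` anything. QFIN gives a law `μ'` which is also the law of the staircase polygons, so `μ' = μ` by
UNQ and `hst`. Moments: MOMK. -/
def FLM_Stmt : Prop := ∀ μ : Measure ℝ, IsProbabilityMeasure μ →
  (∀ x : ℝ, μ {x} = 0 →
    Tendsto (fun n : ℕ => areaCdf n (Staircase n) x) atTop (𝓝 (μ (Set.Iic x)).toReal)) →
  ∀ (a b : ℝ), 0 < a → a ≤ b → ∀ f g : ℕ → ℝ, (∀ n, Box a b (f n) (g n)) →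
    (∀ x : ℝ, μ {x} = 0 → Tendsto (fun n : ℕ =>
      (∑ q ∈ (Omm n).filter (fun q => (dm q : ℝ) * Zm n (Real.exp (-(f n))) (g n) ≤
        x * ∑ q ∈ Omm n, wm n (Real.exp (-(f n))) (g n) q * dm q),
          wm n (Real.exp (-(f n))) (g n) q) / Zm n (Real.exp (-(f n))) (g n)) atTop
      (𝓝 (μ (Set.Iic x)).toReal)) ∧
    ∀ r : ℕ, Tendsto (fun n : ℕ =>
      ((∑ q ∈ Omm n, wm n (Real.exp (-(f n))) (g n) q * (dm q : ℝ) ^ r) /
          Zm n (Real.exp (-(f n))) (g n)) /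
        ((∑ q ∈ Omm n, wm n (Real.exp (-(f n))) (g n) q * (dm q : ℝ)) /
          Zm n (Real.exp (-(f n))) (g n)) ^ r) atTop (𝓝 (airyMoment r))

/-! ### Dependence on the force -/

/-- RHOM (from TMG) : the critical weight. PROOF. `p_i = wp (exp(-f)) g rho i` over `Pc (2n-1)`, `∑ p_i = 1`.
For `F' = (f + u, g + v)` and `α = log(rho'/rho)`: `∑ p_i exp(α m_i - u δ_i + v κ_i) = 1`, `m = hl`, `0 ≤ δ = m - htn ≤ m`
(HG), `|κ| ≤ 2 m` (HGM). If `|α| > |u| + 2|v|` all exponents have the same strict sign: so `|α| ≤ |u| + 2 |v|`.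
Second: `0 = ∑ p_i (exp x_i - 1)`, `|x_i| ≤ 2(|u| + 2|v|) m_i`; by the tails at `F` (`∑_{hl = m} p_i ≤ C θ^m`) for
`|u|, |v| ≤ η` with `θ exp(6 η) < 1` : `|∑ p_i x_i| ≤ ∑ p_i x_i^2 exp|x_i| ≤ C (u^2 + v^2)`. The same for
`(f - u, g - v)`; add: `(α₊ + α₋) ∑ p_i m_i`, `∑ p_i m_i ≥ 1`. -/
def RHOM_Stmt : Prop := ∀ a b : ℝ, 0 < a → a ≤ b → ∃ C η : ℝ, 0 < C ∧ 0 < η ∧ ∃ N : ℕ,
  ∀ n : ℕ, N ≤ n → ∀ f g u v rho rho₁ rho₂ : ℝ, Box a b f g → |u| ≤ η → |v| ≤ η →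
    CritM n (Real.exp (-f)) g rho → CritM n (Real.exp (-(f + u))) (g + v) rho₁ →
    CritM n (Real.exp (-(f - u))) (g - v) rho₂ →
    |Real.log (rho₁ / rho)| ≤ C * (|u| + |v|) ∧
    |Real.log (rho₁ / rho) + Real.log (rho₂ / rho)| ≤ C * (u ^ 2 + v ^ 2)

/-- parameters of the kernel at the weight `rho`: means of half length, height and squared jump -/
noncomputable def par (n : ℕ) (s g rho : ℝ) (i : Fin 3) : ℝ :=
  ∑ p ∈ Pc (2 * n - 1), wp s g rho p * (![(hl p : ℝ), (htn p : ℝ), (jump p : ℝ) ^ 2] i)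

/-- PARM (from TMG, RHOM) : the parameters are Lipschitz. PROOF. In the notation of RHOM each parameter is
`∑ p_i y_i` with `|y_i| ≤ 4 m_i^2`, and at `F'` `∑ p_i exp(x_i) y_i`, `|exp x_i - 1| ≤ |x_i| exp|x_i|`,
`|x_i| ≤ 2(|u| + 2|v|) m_i`; tails at `F`. -/
def PARM_Stmt : Prop := ∀ a b : ℝ, 0 < a → a ≤ b → ∃ C η : ℝ, 0 < C ∧ 0 < η ∧ ∃ N : ℕ,
  ∀ n : ℕ, N ≤ n → ∀ f g u v rho rho' : ℝ, Box a b f g → |u| ≤ η → |v| ≤ η →
    CritM n (Real.exp (-f)) g rho → CritM n (Real.exp (-(f + u))) (g + v) rho' → ∀ i : Fin 3,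
      |par n (Real.exp (-(f + u))) (g + v) rho' i - par n (Real.exp (-f)) g rho i| ≤
        C * (|u| + |v|)

/-- LAPM (from TMG, KWM, PARM, QGV, QRAT for `TPK`, and the old limit `LT` of the staircase Laplace
transforms, `old_gap`) : asymptotic continuity of the Laplace transforms. PROOF. By QRAT (`W` constant,
arbitrarily large after `n → ∞`) `lapM n F lam - St(n0, eps' n0 √n0) → 0` uniformly in the box, where `St` is the
normalised staircase Laplace transform, `n0 = ⌊2 sig2 n / mbar⌋`, `eps' = hbar eps / (2 sig2)`, `eps = lam/sc n`,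
and `St(n0, y) → L(y)/L(0)` locally uniformly in `y` (monotone in `y`, continuous limit), `eps' n0 √n0 =
kk(F) lam + o(1)`, `kk = (hbar / (2 sig2)) (2 sig2 / mbar)^(3/2)`, which is Lipschitz on the box (PARM; `mbar ≥ 1`,
`hbar ≥ 1`, `sig2 ≥ c`, all `≤ C`). Compare `FS.LAPC.seq_lap`, `FS.LAPC_thm`. -/
def LAPM_Stmt : Prop := ∀ a b K lam : ℝ, 0 < a → a ≤ b → 0 ≤ K → 0 ≤ lam →
  ∀ f g f' g' : ℕ → ℝ, (∀ n, Box a b (f n) (g n)) → (∀ n, Box a b (f' n) (g' n)) →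
    (∀ n : ℕ, 1 ≤ n → |f n - f' n| ≤ K / Real.sqrt n ∧ |g n - g' n| ≤ K / Real.sqrt n) →
    Tendsto (fun n : ℕ => lapM n (Real.exp (-(f n))) (g n) lam -
      lapM n (Real.exp (-(f' n))) (g' n) lam) atTop (𝓝 0)

/-- the mean of the difference of the marks is within distance `1` of `(h, t)` -/
def CenM (n : ℕ) (f g h t : ℝ) : Prop :=
  |∑ q ∈ Omm n, wm n (Real.exp (-f)) g q * ((zl q : ℝ) - h)| ≤ Zm n (Real.exp (-f)) g ∧
  |∑ q ∈ Omm n, wm n (Real.exp (-f)) g q * ((zt q : ℝ) - t)| ≤ Zm n (Real.exp (-f)) g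

/-- EXPMM (from ZBM, RHOM, HGM) : exponential moments at scale `√n`. PROOF. `U = (u, v)/√n`, `Δ = (zl, zt)`.
`wm` at `F + U` is `exp(-(u/√n) n) exp(U·Δ) wm` (`zl ≤ n`: HGM), so `E exp(U·Δ) E exp(-U·Δ) =
Zm(F+U) Zm(F-U)/Zm(F)^2 ≤ C (rho^2/(rho₁ rho₂))^n ≤ C'` (ZBM for the box `a/2, 2b`, RHOM). By Jensen
`E exp(-U·Δ) ≥ exp(-U·EΔ) ≥ exp(-U·(h,t) - 2 |U|)` (CenM). So `E exp(U·(Δ - (h,t))) ≤ C''`. -/
def EXPMM_Stmt : Prop := ∀ a b u v : ℝ, 0 < a → a ≤ b → ∃ C : ℝ, 0 < C ∧ ∃ N : ℕ,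
  ∀ n : ℕ, N ≤ n → ∀ f g h t : ℝ, Box a b f g → CenM n f g h t →
    ∑ q ∈ Omm n, wm n (Real.exp (-f)) g q *
      Real.exp (u * (((zl q : ℝ) - h) / Real.sqrt n) + v * (((zt q : ℝ) - t) / Real.sqrt n)) ≤
        C * Zm n (Real.exp (-f)) g

/-! ### Skeletons with two kinds of tokens -/

/-- a skeleton: the numbers `y = 2 x + 2` of the span tokens (`tk1` or `tk2` at gap `x`), the number of
lateral tokens (`lc` or `ld`), and the level difference, area functional and lateral difference of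
the word in which all span tokens are `tk1` and all lateral tokens are `lc` -/
structure Sk2 where
  l : List ℕ
  k : ℕ
  H : ℕ
  A : ℕ
  Λ : ℤ

/-- generating function of the marked caps -/
noncomputable def capKM (n : ℕ) (s g ρ : ℝ) : ℝ :=
  ∑ m ∈ range (n + 1), ∑ x ∈ Icc (1 : ℤ) m, ∑ a ∈ MCap x (2 * m),
    ρ ^ m * s ^ (m - mlev a) * Real.exp (g * mlat x a)

/-- the family `σ` of skeletons describes the canonical words: replacing `j` span tokens with total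
`t` by `tk2` and `b` lateral tokens by `ld` changes (level, lateral, area) to
`(H - j, Λ - j - 2 b, A - t)` -/
structure IsSk2 (n N : ℕ) (σ : Fin N → Sk2) : Prop where
  repr : ∀ F : ℤ → ℤ → ℤ → ℝ, ∑ q ∈ Omm n, F (zl q) (zt q) (am n q) =
    ∑ i, rs (σ i).l (fun j t => ∑ b ∈ range ((σ i).k + 1), ((σ i).k.choose b : ℝ) *
      F ((σ i).H - j) ((σ i).Λ - j - 2 * b) ((σ i).A - t))
  len_le : ∀ i, (σ i).l.length + (σ i).k ≤ (σ i).H
  H_le : ∀ i, (σ i).H ≤ n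
  y_le : ∀ i, ∀ y ∈ (σ i).l, y ≤ 2 * n + 2
  sum_le : ∀ i, 4 * (σ i).l.sum ≤ (σ i).A
  A_le : ∀ i, (σ i).A ≤ 2 * n ^ 2
  lam_le : ∀ i, |(σ i).Λ| ≤ 2 * n
  count : ∀ s g τ τ' ρ : ℝ, 0 < s → 0 ≤ τ → 0 ≤ τ' → 0 < ρ →
    ∑ p ∈ Pc (2 * n - 1), wp s g ρ p ≤ 1 + (1 - τ) * (wp s g ρ tk1 + wp s g ρ tk2) +
      (1 - τ') * (wp s g ρ lc + wp s g ρ ld) →
    ρ ^ n * ∑ i, s ^ (n - (σ i).H) * Real.exp (g * (σ i).Λ) *
      ((1 + s * Real.exp (-g)) * τ) ^ (σ i).l.length *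
      ((1 + Real.exp (-(2 * g))) * τ') ^ (σ i).k ≤ (capKM n s g ρ) ^ 2

/-- the multiset `M` describes the marked arches of gap `x` with `2 m` steps -/
structure ASk2 (n : ℕ) (x : ℤ) (m : ℕ) (M : Multiset Sk2) : Prop where
  repr : ∀ F : ℤ → ℤ → ℤ → ℝ,
    ∑ a ∈ MArch x (2 * m), F (mlev a) (mlat x a) (ArM (2 * n - 1) x a) =
    (M.map (fun σ => rs σ.l (fun j t => ∑ b ∈ range (σ.k + 1), (σ.k.choose b : ℝ) *
      F (σ.H - j) (σ.Λ - j - 2 * b) (σ.A - t)))).sum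
  len_le : ∀ σ ∈ M, σ.l.length + σ.k ≤ σ.H
  H_le : ∀ σ ∈ M, σ.H ≤ m
  y_le : ∀ σ ∈ M, ∀ y ∈ σ.l, y ≤ 2 * m + 2
  sum_le : ∀ σ ∈ M, 4 * σ.l.sum ≤ σ.A
  A_le : ∀ σ ∈ M, σ.A ≤ 2 * m ^ 2
  lam_le : ∀ σ ∈ M, |σ.Λ| ≤ 2 * m
  count : ∀ s g τ τ' ρ : ℝ, 0 < s → 0 ≤ τ → 0 ≤ τ' → 0 < ρ →
    ∑ p ∈ Pc (2 * n - 1), wp s g ρ p ≤ 1 + (1 - τ) * (wp s g ρ tk1 + wp s g ρ tk2) +
      (1 - τ') * (wp s g ρ lc + wp s g ρ ld) →
    ρ ^ m * (M.map (fun σ => s ^ (m - σ.H) * Real.exp (g * σ.Λ) *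
      ((1 + s * Real.exp (-g)) * τ) ^ σ.l.length *
      ((1 + Real.exp (-(2 * g))) * τ') ^ σ.k)).sum ≤ capKM m s g ρ

/-- SKA (from K2M, HGM, ARS, HG) : skeletons of the marked arches. PROOF. As `FS/Tok.lean`, `FS/Arch.lean`
.. `FS/Arch3.lean` with marked arches; by strong induction on `m`, for all `x ≥ 1`, by K2M
`M(x, m) = caps ⊎ ⨄_{p ≠ tk1, tk2, lc, ld, p ∈ allowed, hl p ≤ m} shf p (M(x + jump p, m - hl p)) ⊎
tok (M(x + 2, m - 6)) ⊎ tok' (M(x, m - 1))`. The pieces `tk1, tk2` have half length `6`, jump `2`, heights `4, 3`,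
`kap = 6, 5`; `lc, ld` have half length `1`, height `1`, jump `0`, `kap = 1, -1`; all four are allowed at every
gap `x ≥ 1` (`n ≥ 6`). `shf p` adds `htn p` to `H`, `kap p` to `Λ`, `(ht p * (2x + jump p)).toNat` to `A`. A new span
token: `l := (2x+2) :: l`, `H + 4`, `Λ + 6`, `A + 4 (2x+2)` (second kind: `H + 3`, `Λ + 5`, `A + 3 (2x+2)`); a new
lateral token: `k + 1`, `H + 1`, `Λ + 1`, `A + 2x` (second kind `Λ - 1`; Pascal's rule for `∑_b C(k,b)`). Bounds as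
in FS (a piece `p` which occurs has `hl p ≤ m - 1`, so the gap after it is at most `m`; `x ≤ m`).
COUNT: `wp tk2 = s e^(-g) wp tk1`, `wp ld = e^(-2g) wp lc`. With `V(x, m)` the left side:
`V(x,m) ≤ caps(x, m) + ∑_{other p} wp p V(x + jump p, m - hl p) + τ (wp tk1 + wp tk2) V(x+2, m-6) +
τ' (wp lc + wp ld) V(x, m-1)`, and by induction `V(x, m) ≤ capKM m` (nondecreasing in `m`; the caps of half
length `m` at gap `x` are one summand of `capKM m - capKM (m-1)`). -/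
def SKA_Stmt : Prop := ∀ n : ℕ, 6 ≤ n → ∀ m : ℕ, m ≤ n → ∀ x : ℤ, 1 ≤ x →
  ∃ M : Multiset Sk2, ASk2 n x m M

/-- SKELM (from SKA, HGM) : the skeletons of the canonical words. PROOF. As `FS/Arch4.lean`, `FS/SKEL.lean`:
an element of `Omm n` is a marked cap `T` of gap `x` with `M = 2 m₁` steps and a marked arch of gap `x` with
`2 (n - m₁)` steps (`M` is even: HGM); `zl`, `zt` are sums, `am` is that of the arch. Skeletons: add
`mlev T` to `H` and `mlat x T` to `Λ`. COUNT: sum over `T` of `ρ^m₁ s^(m₁ - mlev T) e^(g mlat x T)` is at most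
`capKM n`, the arches give at most `capKM (n - m₁) ≤ capKM n` (ASk2.count). -/
def SKELM_Stmt : Prop := ∀ n : ℕ, 6 ≤ n → ∃ (N : ℕ) (σ : Fin N → Sk2), IsSk2 n N σ

/-- weight of a skeleton (sum of the weights of its words) -/
noncomputable def vs2 (n : ℕ) (s g : ℝ) (a : Sk2) : ℝ :=
  s ^ (n - a.H) * Real.exp (g * a.Λ) * (1 + s * Real.exp (-g)) ^ a.l.length *
    (1 + Real.exp (-(2 * g))) ^ a.k

/-- KBIGM (from ZBM) : skeletons with few tokens of one kind are negligible. PROOF. As `FS/KBIG.lean`: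
`ρ' = ρ e^κ`, `∑ wp(ρ') ≤ 1 + C κ` (tails), `wp tk1 (ρ') ≥ c`, `wp lc (ρ') ≥ c` on the box, so `count` applies with
`(τ, τ') = (1/2, 1)` and with `(1, 1/2)` if `C κ ≤ c/2`, and `capKM n s g ρ' ≤ C` (tails of the marked caps).
So `∑_i vs2_i (1/2)^length ≤ C e^(-κ n) ρ^-n ≤ C n^2 e^(-κ n) Zm` (ZBM), and for length `< c' n` (number of lateral
tokens `< c' n`) the factor is at least `2^(-c' n)`. -/
def KBIGM_Stmt : Prop := ∀ a b : ℝ, 0 < a → a ≤ b → ∃ c : ℝ, 0 < c ∧ ∃ N : ℕ, 6 ≤ N ∧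
  ∀ n : ℕ, N ≤ n → ∀ f g : ℝ, Box a b f g → ∀ (M : ℕ) (σ : Fin M → Sk2), IsSk2 n M σ →
    ∑ i ∈ univ.filter (fun i : Fin M => ((σ i).l.length : ℝ) < c * n ∨ ((σ i).k : ℝ) < c * n),
      vs2 n (Real.exp (-f)) g (σ i) ≤ Real.exp (-(c * n)) * Zm n (Real.exp (-f)) g

/-- LOCA (from SKELM, KBIGM, the old BIN, and MOMM) : moments at fixed difference of the marks. PROOF.
A skeleton with `len`, `k`, `H`, `A`, `Λ` contributes to `UM n s g h t φ` with `j = H - h`, `2 b = Λ - j - t`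
(nothing if this is not possible) `vs2 * bp len p₁ j * bp k p₂ b * avg_{|S| = j} φ((A - t_S)/sc)`,
`p₁ = s e^(-g)/(1 + s e^(-g))`, `p₂ = e^(-2g)/(1 + e^(-2g))`, both in a compact subset of `(0, 1)`: for the words
`wm = s^(n-h) e^(g t) = s^(n-H) e^(g Λ) (s e^(-g))^j (e^(-2g))^b`. `∑_i vs2_i = Zm`. `bp ≤ C/√len`, `bp ≤ C/√k` if there are at
least `c n` tokens of both kinds, `A - t ≤ A`, `3/4 A ≤ A - t` (`sum_le`), so `∑_i vs2_i (A_i/sc)^r ≤
(4/3)^r ∑_q wm rm^r ≤ C Zm` (MOMM). The other skeletons: KBIGM, `bp ≤ 1`, `A ≤ 2 n^2`. -/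
def LOCA_Stmt : Prop := ∀ a b : ℝ, 0 < a → a ≤ b → ∀ r : ℕ, ∃ C : ℝ, 0 < C ∧ ∃ N : ℕ,
  ∀ n : ℕ, N ≤ n → ∀ f g : ℝ, Box a b f g → ∀ (h : ℕ) (t : ℤ),
    UM n (Real.exp (-f)) g h t (fun y => y ^ r) ≤ C / n * Zm n (Real.exp (-f)) g

/-- LOCB (from SKELM, KBIGM, the old BIN, SMP, and MOMM) : local regularity. PROOF. Notation of LOCA,
`h + t` and `h' + t'` even, `H + Λ` even if the skeleton contributes to either (HGM via `IsSk2.repr`), so
`b = (Λ - j - t)/2` is an integer for both. SMP: the average over `|S| = j` of `|t_S - (j/len) ∑ l|` is at most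
`√((2n+2) A/4)`, which changes the average of `φ` by at most `C n^(-1/4) (1 + A/sc)`; `φ` at
`(A - (j/len) ∑ l)/sc` changes by at most `|j - j'|/len * A/sc` from `j` to `j'`; and BIN: `|bp(j) - bp(j')| ≤
C |j - j'|/n`, the same for `b`, with `|b - b'| ≤ |j - j'| + |t - t'|`, `|j - j'| = |h - h'|`, the other factor `≤ C/√n`.
Sum with `∑_i vs2_i (1 + A_i/sc)^2 ≤ C Zm`. -/
def LOCB_Stmt : Prop := ∀ a b : ℝ, 0 < a → a ≤ b → ∃ C : ℝ, 0 < C ∧ ∃ N : ℕ,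
  ∀ n : ℕ, N ≤ n → ∀ f g : ℝ, Box a b f g → ∀ (h h' : ℕ) (t t' : ℤ) (φ : ℝ → ℝ),
    Even ((h : ℤ) + t) → Even ((h' : ℤ) + t') → (∀ y, |φ y| ≤ 1) → LipschitzWith 1 φ →
      |UM n (Real.exp (-f)) g h t φ - UM n (Real.exp (-f)) g h' t' φ| ≤
        C * (1 / (n * Real.sqrt (Real.sqrt n)) + (|(h : ℝ) - h'| + |(t : ℝ) - t'|) /
          (n * Real.sqrt n)) * Zm n (Real.exp (-f)) g

/-- LOCC (from SKELM, KBIGM, the old BIN) : lower bound. PROOF. Notation of LOCA. For every skeleton by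
Jensen (mean of a binomial law) `∑_{j,b} bp bp ((H - j - h)^2 + (Λ - j - 2b - t)^2) ≥ (H - p₁ len - h)^2 +
(Λ - p₁ len - 2 p₂ k - t)^2`, and `∑_i vs2_i` of the left sides is the sum in the hypothesis; so skeletons
of total weight at least `Zm/4` have at least `c n` tokens of both kinds (KBIGM) and both squares at
most `4 K n`; for them `j = H - h`, `b = (Λ - j - t)/2` (an integer: `H + Λ` even, as `zl + zt` is even on `Omm n`)
satisfy `|j - p₁ len| ≤ R √len`, `|b - p₂ k| ≤ R √k`: BIN (lower bounds, `len, k` large). -/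
def LOCC_Stmt : Prop := ∀ a b : ℝ, 0 < a → a ≤ b → ∀ K : ℝ, 0 < K → ∃ c : ℝ, 0 < c ∧ ∃ N : ℕ,
  ∀ n : ℕ, N ≤ n → ∀ f g : ℝ, Box a b f g → ∀ (h : ℕ) (t : ℤ), Even ((h : ℤ) + t) →
    ∑ q ∈ Omm n, wm n (Real.exp (-f)) g q * (((zl q : ℝ) - h) ^ 2 + ((zt q : ℝ) - t) ^ 2) ≤
      K * n * Zm n (Real.exp (-f)) g →
    c / n * Zm n (Real.exp (-f)) g ≤ UM n (Real.exp (-f)) g h t (fun _ => 1)

/-! ### Choice of the force -/

/-- total weight of the polygon words with a marked vertex -/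
noncomputable def ZF (n : ℕ) (f g : ℝ) : ℝ :=
  ∑ w ∈ SAP n, ∑ j ∈ range (2 * n), Real.exp (f * slev n w j + g * lat (pos n w j))

/-- MINM (analysis): minimisers. PROOF. `Φ(f, g) = log (∑_i exp (f x_i + g y_i)) - f h - g t` is continuous;
by the hypothesis applied to the signs of `f`, `g`, `Φ(f, g) ≥ δ (|f| + |g|)`, and `Φ(0, 0) = log #I`; so `Φ` has
a minimum over the compact set `δ (|f| + |g|) ≤ log #I` and it is a global one; the partial
derivatives vanish there. -/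
def MINM_Stmt : Prop := ∀ (ι : Type) (I : Finset ι) (x y : ι → ℝ) (h t δ : ℝ), I.Nonempty →
  0 < δ → (∀ σ σ' : ℝ, |σ| = 1 → |σ'| = 1 → ∃ i ∈ I, |h| + δ ≤ σ * x i ∧ |t| + δ ≤ σ' * y i) →
  ∃ f g : ℝ, δ * (|f| + |g|) ≤ Real.log I.card ∧
    (∀ f' g' : ℝ, Real.log (∑ i ∈ I, Real.exp (f * x i + g * y i)) - f * h - g * t ≤
      Real.log (∑ i ∈ I, Real.exp (f' * x i + g' * y i)) - f' * h - g' * t)

/-- GRDM (analysis): at a minimiser the mean is `(h, t)`. PROOF. One dimensional derivatives in `f` and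
in `g` of the function of MINM at an interior minimum. -/
def GRDM_Stmt : Prop := ∀ (ι : Type) (I : Finset ι) (x y : ι → ℝ) (h t f g : ℝ), I.Nonempty →
  (∀ f' g' : ℝ, Real.log (∑ i ∈ I, Real.exp (f * x i + g * y i)) - f * h - g * t ≤
    Real.log (∑ i ∈ I, Real.exp (f' * x i + g' * y i)) - f' * h - g' * t) →
  ∑ i ∈ I, Real.exp (f * x i + g * y i) * (x i - h) = 0 ∧
    ∑ i ∈ I, Real.exp (f * x i + g * y i) * (y i - t) = 0

/-- SYMA : symmetries of the partition function. PROOF. The letter maps `0 ↔ 0, 2 ↔ 2, 1 ↔ 3`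
(`(x, y) ↦ (x, -y)`, exchanges `lev` and `lat`), `0 ↔ 1, 2 ↔ 3` (`(x, y) ↦ (y, x)`: `lev` kept, `lat ↦ -lat`) and
`c ↦ c + 2` (`(x, y) ↦ (-x, -y)`) act on `SAP n` (bijections). The third identity from the first two. -/
def SYMA_Stmt : Prop := ∀ (n : ℕ) (f g : ℝ), ZF n f g = ZF n g f ∧ ZF n f (-g) = ZF n f g ∧
  ZF n (-f) g = ZF n f g

open Classical in
/-- SYMB : large lateral displacement is as rare as large span. PROOF. The map `w ↦ w'` of the words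
induced by `(x, y) ↦ (x, -y)` is an injection of the first set into the second one: `slev n w' j =
lat (pos n w j)` and `|slev n w' j| ≤ span n w'` (`pos 0 = 0`). The same without the map for `slev`. -/
def SYMB_Stmt : Prop := ∀ (n : ℕ) (v : ℝ), 0 < v →
  ((SAP n).filter (fun w => ∃ j < 2 * n, v ≤ |(lat (pos n w j) : ℝ)|)).card ≤
    ((SAP n).filter (fun w => v ≤ (span n w : ℝ))).card ∧
  ((SAP n).filter (fun w => ∃ j < 2 * n, v ≤ |(slev n w j : ℝ)|)).card ≤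
    ((SAP n).filter (fun w => v ≤ (span n w : ℝ))).card

/-- SYMC : reduction to the cone. PROOF. Compose the three maps of SYMA so that `lat`, `lev` of the image
`z'` of `z` satisfy `|lat z'| ≤ lev z'`; `|z.1| + |z.2| = max |lev z| |lat z|`. The induced map is a
bijection of `Thr n z` onto `Thr n z'` which keeps `area`. -/
def SYMC_Stmt : Prop := ∀ z : ℤ × ℤ, ∃ z' : ℤ × ℤ, |lat z'| ≤ lev z' ∧
  lev z' = |z.1| + |z.2| ∧ ∀ n : ℕ,
    (∀ x : ℝ, areaCdf n (Thr n z) x = areaCdf n (Thr n z') x) ∧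
    ∀ r : ℕ, areaMoment n (Thr n z) r = areaMoment n (Thr n z') r

/-- RECM : rectangles. PROOF. `x = (σ + σ') (n-1)/2`, `y = (σ - σ') (n-1)/2`: one of them is `±(n-1)`, the other
one is `0`. The rectangle `1 × (n-1)` with the origin and `(x, y)` on one long side: `n - 1` equal letters,
one letter to the side, `n - 1` opposite letters, one letter back; `j = n - 1`. -/
def RECM_Stmt : Prop := ∀ n : ℕ, 3 ≤ n → ∀ σ σ' : ℤ, |σ| = 1 → |σ'| = 1 →
  ∃ w ∈ SAP n, slev n w (n - 1) = σ * (n - 1) ∧ lat (pos n w (n - 1)) = σ' * (n - 1)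

/-- FARM (from SYMB, the old `SUBB.POL_Stmt`) : subexponential force. PROOF. `P` the uniform law on `SAP n`. By SYMB and
`SUBB.POL_Stmt` `P(∃ j, |slev| ≥ v n or |lat| ≥ v n) ≤ 2 exp(-c n)` for large `n`, `c = c(v)`. On this event the exponent is at most
`4 δ n` if `|f|, |g| ≤ δ` (`|slev|, |lat| ≤ 2 n`), else at most `2 δ v n`. With `4 δ ≤ c`:
`ZF ≤ 2 n (exp(2 δ v n) + 2) #SAP ≤ 6 n exp(2 δ v n) #SAP`, and `ZF n 0 0 = 2 n #SAP`. -/
def FARM_Stmt : Prop := ∀ v : ℝ, 0 < v → ∃ δ : ℝ, 0 < δ ∧ ∃ N : ℕ, ∀ n : ℕ, N ≤ n →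
  ∀ f g : ℝ, |f| ≤ δ → |g| ≤ δ → ZF n f g ≤ 3 * Real.exp (2 * δ * v * n) * ZF n 0 0

/-- CHOM (from MINM, GRDM, SYMA, RECM, FARM) : choice of the force. PROOF. The family `(w, j)`, `x = slev`,
`y = lat (pos ..)`. RECM shows that the hypothesis of MINM holds with `δ₀ = e n - 1`
(`|t| ≤ h ≤ (1 - e) n`); so the minimiser satisfies `|f| + |g| ≤ log (2n 4^(2n)) / (e n - 1) ≤ C/e =: b`. By SYMA
and `|t| ≤ h` the point `(max |f| |g|, ± min |f| |g|)` (sign of `t`) is a minimiser as well (rearrangement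
inequality); call it `(f, g)`; `|g| ≤ f`; gradient: GRDM. LOWER BOUND: `δ` of FARM for `v = e/16`; suppose
`f < δ/2`. The function `u ↦ log ZF (f + u) g` is convex with derivative `h` at `0`, so with `u = δ/2`
`h δ/2 ≤ log ZF (f + δ/2) g - log ZF f g ≤ log (3 exp(2 δ v n) ZF n 0 0) - log ZF n 0 0` (FARM; `ZF f g ≥ ZF 0 0` by
convexity and symmetry), so `h ≤ 4 v n + (2/δ) log 3 < e n`: contradiction. `a = δ/2`. -/
def CHOM_Stmt : Prop := ∀ e : ℝ, 0 < e → ∃ a b : ℝ, 0 < a ∧ a ≤ b ∧ ∃ N : ℕ, ∀ n : ℕ, N ≤ n →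
  ∀ (h : ℕ) (t : ℤ), e * n ≤ (h : ℝ) → (h : ℝ) ≤ (1 - e) * n → |t| ≤ h →
    ∃ f g : ℝ, Box a b f g ∧
      ∑ w ∈ SAP n, ∑ j ∈ range (2 * n),
        Real.exp (f * slev n w j + g * lat (pos n w j)) * ((slev n w j : ℝ) - h) = 0 ∧
      ∑ w ∈ SAP n, ∑ j ∈ range (2 * n),
        Real.exp (f * slev n w j + g * lat (pos n w j)) * ((lat (pos n w j) : ℝ) - t) = 0

/-- CENM (from CHOM, ROOT, ZBM) : centering of the canonical words. PROOF. Split the sums of CHOM into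
the pairs with `¬ NoB` (ROOT with `F _ y z = exp(f y + g z) (y - h)`: twice the sum over `Omm n`;
`wm n (exp(-f)) g q = exp(-f n) exp(f zl + g zt)` as `zl ≤ n`) and the others: by TailsM at most
`4 n * exp(f n) rho^-n C n^2 θ^n`, and `exp(-f n)` times this is at most `4 C n^3 θ^n rho^-n ≤ Zm` for large `n` (ZBM). -/
def CENM_Stmt : Prop := ∀ e : ℝ, 0 < e → ∃ a b : ℝ, 0 < a ∧ a ≤ b ∧ ∃ N : ℕ, ∀ n : ℕ, N ≤ n →
  ∀ (h : ℕ) (t : ℤ), e * n ≤ (h : ℝ) → (h : ℝ) ≤ (1 - e) * n → |t| ≤ h →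
    ∃ f g : ℝ, Box a b f g ∧ CenM n f g h t

/-! ### Equivalence of the ensembles -/

/-- a sequence of forces and a sequence of differences of the marks which is typical for it, on
which the rescaled area functional is asymptotically as without the condition -/
structure RegM (a b : ℝ) (f g : ℕ → ℝ) (h : ℕ → ℕ) (t : ℕ → ℤ) : Prop where
  box : ∀ n, Box a b (f n) (g n)
  low : ∃ c : ℝ, 0 < c ∧ ∀ᶠ n : ℕ in atTop, c / n * Zm n (Real.exp (-(f n))) (g n) ≤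
    UM n (Real.exp (-(f n))) (g n) (h n) (t n) (fun _ => 1)
  eqv : ∀ φ : ℝ → ℝ, (∀ y, |φ y| ≤ 1) → LipschitzWith 1 φ →
    Tendsto (fun n : ℕ => UM n (Real.exp (-(f n))) (g n) (h n) (t n) φ /
        UM n (Real.exp (-(f n))) (g n) (h n) (t n) (fun _ => 1) -
      (∑ q ∈ Omm n, wm n (Real.exp (-(f n))) (g n) q * φ (rm n q)) /
        Zm n (Real.exp (-(f n))) (g n)) atTop (𝓝 0)

/-- INDM (from the old IND, EXPMM, LAPM, MOMM) : asymptotic independence of `(X, Y)` and `A`. PROOF.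
`X = (zl - h)/√n`, `Y = (zt - t)/√n`, `A = rm`, `E` the mean under `wm/Zm` at `F n = (f n, g n)`. For `|u|, |v| ≤ M`:
`E[exp(u X + v Y) exp(-lam A)] / E[exp(u X + v Y)] = lapM at F n + (u, v)/√n`, so by LAPM
(*) `E[e^(uX+vY) e^(-lam A)] - E[e^(uX+vY)] E[e^(-lam A)] → 0` (the exponential moments are bounded by EXPMM).
Fix `v` and apply IND to the weights `w_v = w e^(vY)/E[e^(vY)]` (`E e^(vY) ≥ c`: Jensen and CenM), `X`, `A`, with
`g = χ`, `φ = exp(-lam ·)` (continuous, bounded; only `A ≥ 0` matters: use `exp(-lam |·|)`):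
`E[e^(vY) χ(X) e^(-lam A)] - E[e^(vY) χ(X)] E_v[e^(-lam A)] → 0` and `E_v[e^(-lam A)] - E[e^(-lam A)] → 0` by (*).
If `E χ(X) ≥ c > 0` eventually apply IND to the weights `w χ(X)/E χ(X)`, with `Y` instead of `X`; otherwise
(along subsequences where it tends to zero) both terms tend to zero: so argue by subsequences, or add
`ε` to `χ`: take `χ + ε ≥ ε` (bounded by `2`), apply the argument to it and to the constant `ε`, subtract. -/
def INDM_Stmt : Prop := ∀ a b : ℝ, 0 < a → a ≤ b → ∀ (f g : ℕ → ℝ) (h : ℕ → ℕ) (t : ℕ → ℤ),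
  (∀ n, Box a b (f n) (g n)) → (∀ᶠ n in atTop, CenM n (f n) (g n) (h n) (t n)) →
  ∀ χ ψ φ : ℝ → ℝ, Continuous χ → Continuous ψ → Continuous φ → (∀ x, 0 ≤ χ x ∧ χ x ≤ 1) →
    (∀ x, |ψ x| ≤ 1) → (∀ x, |φ x| ≤ 1) →
    Tendsto (fun n : ℕ =>
      (∑ q ∈ Omm n, wm n (Real.exp (-(f n))) (g n) q * (χ (((zl q : ℝ) - h n) / Real.sqrt n) *
        ψ (((zt q : ℝ) - t n) / Real.sqrt n) * φ (rm n q))) / Zm n (Real.exp (-(f n))) (g n) -
      ((∑ q ∈ Omm n, wm n (Real.exp (-(f n))) (g n) q * (χ (((zl q : ℝ) - h n) / Real.sqrt n) *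
        ψ (((zt q : ℝ) - t n) / Real.sqrt n))) / Zm n (Real.exp (-(f n))) (g n)) *
      ((∑ q ∈ Omm n, wm n (Real.exp (-(f n))) (g n) q * φ (rm n q)) /
        Zm n (Real.exp (-(f n))) (g n))) atTop (𝓝 0)

/-- EQM (from LOCB, LOCC, INDM, EXPMM, HGM) : PROOF. As `FS/EQ.lean`. Second moments of `X`, `Y` `≤ C` (EXPMM with
`±1`), so LOCC gives `low`. Let `χ(x) = max 0 (1 - |x|/δ)`. Sum over all `k : ℕ`, `l : ℤ` with `k + l` even:
`∑ χ((k-h)/√n) χ((l-t)/√n) UM(k, l; φ) = ∑_q wm χ(X) χ(Y) φ(A)` (`zl + zt` is even: HGM); by LOCB it is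
`S' UM(h, t; φ) + S' O(1/(n n^(1/4)) + δ/n) Zm`, `S' = ∑ χ χ`, `c δ^2 n ≤ S' ≤ C δ^2 n` (`h ≥ 1`, all `k ≥ h` count). The
same for `φ = 1`; together with `UM(h,t;1) ≥ (c/n) Zm`: `E[χ(X) χ(Y)] ≥ c δ^2` for small `δ`, and INDM gives
`limsup |UM(φ)/UM(1) - E φ(A)| ≤ C δ`. Let `δ → 0`. -/
def EQM_Stmt : Prop := ∀ a b : ℝ, 0 < a → a ≤ b → ∀ (f g : ℕ → ℝ) (h : ℕ → ℕ) (t : ℕ → ℤ),
  (∀ n, Box a b (f n) (g n)) → (∀ᶠ n in atTop, CenM n (f n) (g n) (h n) (t n)) →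
  (∀ n, Even ((h n : ℤ) + t n)) → RegM a b f g h t

/-! ### The polygons through two points -/

/-- mean over the polygon words through `0` and `z` of a function of the rescaled area -/
noncomputable def avT (n : ℕ) (z : ℤ × ℤ) (φ : ℝ → ℝ) : ℝ :=
  (∑ w ∈ Thr n z, φ (2 * area n w / sc n)) / (Thr n z).card

/-- mean over the canonical words with difference `(h, t)` of the marks -/
noncomputable def avQ (n : ℕ) (h : ℕ) (t : ℤ) (φ : ℝ → ℝ) : ℝ :=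
  (∑ q ∈ (Omm n).filter (fun q => zl q = h ∧ zt q = t), φ (dm q / sc n)) /
    ((Omm n).filter (fun q => zl q = h ∧ zt q = t)).card

open Classical in
/-- CLSA (from ROOT) : identity for the class of the polygons through `0` and `z`. PROOF. Every `w` in
`Thr n z` has exactly one `j < 2n` with `pos n w j = z`; `2 area = |dbl|` (`Lib_helper27`, as in `FS/SAPC.lean`); ROOT
with `F y u v = if u = lev z ∧ v = lat z then φ y else 0` (`(lev, lat)` determines the point), `|dm| = dm` not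
needed: `F` is evaluated at `dm q`. -/
def CLSA_Stmt : Prop := ∀ (n : ℕ) (z : ℤ × ℤ) (φ : ℝ → ℝ), 1 ≤ n →
  ∑ w ∈ Thr n z, φ (2 * area n w) =
    2 * ∑ q ∈ (Omm n).filter (fun q => (zl q : ℤ) = lev z ∧ zt q = lat z), φ (dm q) +
    ∑ w ∈ SAP n, ∑ j ∈ (range (2 * n)).filter (fun j => NoB n w j ∧ pos n w j = z),
      φ (2 * area n w)

/-- CLSB (from LOCA, MOMM, HGM) : the classes of canonical words. PROOF. `E` under `wm/Zm`; on the class
`wm` is constant, so the mean over it is `UM(φ)/UM(1)`-like. `∑_{zl=h,zt=t} wm |dm - am|^3 ≤ C (n log n)^3 Zm` (MOMM),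
relative to `UM(h,t;1) ≥ (c/n) Zm` at most `C n (n log n)^3`, and `n (n log n)^3/sc^3 → 0`: so the class mean of
`(|dm - am|/sc)^3`, hence that of `|dm - am|/sc`, tends to `0`; the same under `E` (MOMM). With `RegM.eqv` this
gives (1). (4): `y^r ≤ 1 + y^(r+3)`, `(dm/sc)^r ≤ 2^r (rm^r + (|dm - am|/sc)^r)`, LOCA and MOMM with exponent
`r + 3`. (2): (1) for `φ` = truncation at height `M` (divide by `M`), second moments bounded ((4), MOMM).
(3): MOMM (`E rm` and `E|dm - am|/sc → 0`, upper bound from `E rm^2`). -/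
def CLSB_Stmt : Prop := ∀ a b : ℝ, 0 < a → a ≤ b → ∀ (f g : ℕ → ℝ) (h : ℕ → ℕ) (t : ℕ → ℤ),
  RegM a b f g h t →
  (∀ φ : ℝ → ℝ, (∀ y, |φ y| ≤ 1) → LipschitzWith 1 φ →
    Tendsto (fun n : ℕ => avQ n (h n) (t n) φ -
      (∑ q ∈ Omm n, wm n (Real.exp (-(f n))) (g n) q * φ (dm q / sc n)) /
        Zm n (Real.exp (-(f n))) (g n)) atTop (𝓝 0)) ∧
  Tendsto (fun n : ℕ => avQ n (h n) (t n) (fun y => y) -
      (∑ q ∈ Omm n, wm n (Real.exp (-(f n))) (g n) q * (dm q / sc n)) /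
        Zm n (Real.exp (-(f n))) (g n)) atTop (𝓝 0) ∧
  (∃ c : ℝ, 0 < c ∧ ∀ᶠ n : ℕ in atTop,
    c ≤ (∑ q ∈ Omm n, wm n (Real.exp (-(f n))) (g n) q * (dm q / sc n)) /
      Zm n (Real.exp (-(f n))) (g n) ∧
    (∑ q ∈ Omm n, wm n (Real.exp (-(f n))) (g n) q * (dm q / sc n)) /
      Zm n (Real.exp (-(f n))) (g n) ≤ c⁻¹) ∧
  ∀ r : ℕ, ∃ C : ℝ, ∀ᶠ n in atTop, avQ n (h n) (t n) (fun y => y ^ r) ≤ C

/-- CLSM (from CLSA, CLSB, ZBM) : the classes of polygons. PROOF. By CLSA `avT` is the mean over twice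
the class of canonical words and the pairs with NoB; number of the latter with `pos = z`, times
`exp(-f (n-h)) e^(g t)`, is at most `C n^2 θ^n rho^-n ≤ C n^5 θ^n Zm` (TailsM, ZBM), while
`exp(-f (n-h)) e^(g t) #class = UM(h,t;1) ≥ (c/n) Zm`: ratio `≤ C n^6 θ^n`; `2 area/sc ≤ 2 n^2` in the moments. -/
def CLSM_Stmt : Prop := ∀ a b : ℝ, 0 < a → a ≤ b → ∀ (f g : ℕ → ℝ) (h : ℕ → ℕ) (t : ℕ → ℤ),
  RegM a b f g h t →
  ∀ z : ℕ → ℤ × ℤ, (∀ᶠ n in atTop, lev (z n) = h n ∧ lat (z n) = t n) →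
  (∀ᶠ n in atTop, 0 < (Thr n (z n)).card) ∧
  (∀ φ : ℝ → ℝ, (∀ y, |φ y| ≤ 1) →
    Tendsto (fun n : ℕ => avT n (z n) φ - avQ n (h n) (t n) φ) atTop (𝓝 0)) ∧
  ∀ r : ℕ, Tendsto (fun n : ℕ => avT n (z n) (fun y => y ^ r) -
    avQ n (h n) (t n) (fun y => y ^ r)) atTop (𝓝 0)

/-- REGFM (from CLSB, CLSM, FLM, the old CDF, CDFM) : law and moments for regular sequences. PROOF.
As `FS.conv_cls` and `NSP.REGM`: CDF with `P = Omm n`, `w = wm/Zm`, `S = |dm|/sc`, `Q = Thr n (z n)`,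
`v = 1/card`, `T = 2 area/sc`; the laws of `S/E S` converge by FLM (`dm > 0`: HGM). Moments: CDFM with the
bounds (4) of CLSB and the lower bound (3) of the mean, transported by CLSM. -/
def REGFM_Stmt : Prop := ∀ μ : Measure ℝ, IsProbabilityMeasure μ →
  (∀ r : ℕ, Integrable (fun x : ℝ => x ^ r) μ ∧ ∫ x, x ^ r ∂μ = airyMoment r) →
  (∀ x : ℝ, μ {x} = 0 →
    Tendsto (fun n : ℕ => areaCdf n (Staircase n) x) atTop (𝓝 (μ (Set.Iic x)).toReal)) →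
  ∀ a b : ℝ, 0 < a → a ≤ b → ∀ (f g : ℕ → ℝ) (h : ℕ → ℕ) (t : ℕ → ℤ),
  RegM a b f g h t →
  ∀ z : ℕ → ℤ × ℤ, (∀ᶠ n in atTop, lev (z n) = h n ∧ lat (z n) = t n) →
    (∀ x : ℝ, μ {x} = 0 →
      Tendsto (fun n : ℕ => areaCdf n (Thr n (z n)) x) atTop (𝓝 (μ (Set.Iic x)).toReal)) ∧
    ∀ r : ℕ, Tendsto (fun n : ℕ => areaMoment n (Thr n (z n)) r) atTop (𝓝 (airyMoment r))

/-- FIXM (from CENM, EQM, REGFM, SYMC) : fixed `e`. PROOF. SYMC: replace `z n` by `z' n` in the cone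
(choose it for every `n`), `h n = lev (z' n)`, `t n = lat (z' n)`, `h + t = 2 x` is even. CENM gives forces in
one box for `n ≥ N`; for the other `n` take the force `(a, 0)` and for those `n` for which the hypothesis on
`z n` fails replace `z n` by the point `(⌊n/2⌋, 0)`, `e ≤ 1/4` without loss of generality (the hypothesis
holds for all large `n`, so only finitely many `n` are changed). -/
def FIXM_Stmt : Prop := ∀ μ : Measure ℝ, IsProbabilityMeasure μ →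
  (∀ r : ℕ, Integrable (fun x : ℝ => x ^ r) μ ∧ ∫ x, x ^ r ∂μ = airyMoment r) →
  (∀ x : ℝ, μ {x} = 0 →
    Tendsto (fun n : ℕ => areaCdf n (Staircase n) x) atTop (𝓝 (μ (Set.Iic x)).toReal)) →
  ∀ e : ℝ, 0 < e → ∀ z : ℕ → ℤ × ℤ,
    (∀ᶠ n : ℕ in atTop, e * n ≤ ((|(z n).1| + |(z n).2| : ℤ) : ℝ) ∧
      ((|(z n).1| + |(z n).2| : ℤ) : ℝ) ≤ (1 - e) * n) →
    (∀ x : ℝ, μ {x} = 0 →
      Tendsto (fun n : ℕ => areaCdf n (Thr n (z n)) x) atTop (𝓝 (μ (Set.Iic x)).toReal)) ∧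
    ∀ r : ℕ, Tendsto (fun n : ℕ => areaMoment n (Thr n (z n)) r) atTop (𝓝 (airyMoment r))

/-- the final theorem -/
def FIN_TPT : Prop := ∃ μ : Measure ℝ, IsProbabilityMeasure μ ∧
  (∀ r : ℕ, Integrable (fun x : ℝ => x ^ r) μ ∧ ∫ x, x ^ r ∂μ = airyMoment r) ∧
  (∀ x : ℝ, μ {x} = 0 →
    Tendsto (fun n : ℕ => areaCdf n (Staircase n) x) atTop (𝓝 (μ (Set.Iic x)).toReal)) ∧
  ∃ e : ℕ → ℝ, (∀ n, 0 < e n) ∧ Tendsto e atTop (𝓝 0) ∧
    ∀ z : ℕ → ℤ × ℤ, (∀ᶠ n : ℕ in atTop, e n * n ≤ ((|(z n).1| + |(z n).2| : ℤ) : ℝ) ∧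
        ((|(z n).1| + |(z n).2| : ℤ) : ℝ) ≤ (1 - e n) * n) →
      (∀ x : ℝ, μ {x} = 0 →
        Tendsto (fun n : ℕ => areaCdf n (Thr n (z n)) x) atTop (𝓝 (μ (Set.Iic x)).toReal)) ∧
      ∀ r : ℕ, Tendsto (fun n : ℕ => areaMoment n (Thr n (z n)) r) atTop (𝓝 (airyMoment r))

/-- DGM (from FIXM, the old DIAG, DIAGM) : diagonal argument. PROOF. `ℕ ≃ ℤ × ℤ` (`Denumerable`) turns `z` into
`h : ℕ → ℕ`; `ok e n h` is the hypothesis on `|z|_1`, `F n h x = areaCdf n (Thr n z) x` (monotone in `x`),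
`F r n h = areaMoment n (Thr n z) r`; the condition of DIAG for fixed `e` from FIXM: if it fails for a
sequence `z` then it fails for the sequence which is `z n` where `ok` holds and `(⌊n/2⌋, 0)` else
(`e ≤ 1/4`). Maximum of the two sequences `e`. -/
def DGM_Stmt : Prop := (∃ μ : Measure ℝ, IsProbabilityMeasure μ ∧
  (∀ r : ℕ, Integrable (fun x : ℝ => x ^ r) μ ∧ ∫ x, x ^ r ∂μ = airyMoment r) ∧
  (∀ x : ℝ, μ {x} = 0 →
    Tendsto (fun n : ℕ => areaCdf n (Staircase n) x) atTop (𝓝 (μ (Set.Iic x)).toReal))) →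
  FIXM_Stmt → FIN_TPT

end Pool.Agent.TPT
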