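import Pool.Agent.TPT.StmtsA
import Pool.Agent.TPK.StmtsA
import Pool.Agent.TPK.Stmts3

/-!
# Project TPT: kernel data and statements which use the kernel library `TPK`
-/

set_option autoImplicit false

namespace Pool.Agent.TPT

open Finset Filter Topology MeasureTheory
open Pool.Agent.Lib27 Pool.Agent.SapR Pool.Agent.AreaLaw
open Pool.Agent.FL (Wd hl htn)
open Pool.Agent.FS (sc)
open Pool.Agent.KCS (airyMoment)
open Pool.Agent.Gap (IsCap closeP)

/-- weighted number of marked caps of half length `m ≤ n` and gap `x` -/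
noncomputable def capM (n : ℕ) (s g : ℝ) (m : ℕ) (x : ℤ) : ℝ :=
  if 1 ≤ x ∧ m ≤ n then ∑ a ∈ MCap x (2 * m), s ^ (m - mlev a) * Real.exp (g * mlat x a) else 0

/-- the gap kernel and the area polynomials of the canonical words with two marks -/
structure KData (n : ℕ) (s g : ℝ) where
  G : TPK.GapKernel
  B : ℕ → ℤ → Polynomial ℝ
  loc : TPK.Loc G
  crit : CritM n s g G.rho
  tot : ∀ m : ℕ, ∑ i ∈ G.S.filter (fun i => i.1 = m), G.rho ^ m * G.tot i =
    ∑ p ∈ (Pc (2 * n - 1)).filter (fun p => hl p = m), wp s g G.rho p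
  cap : IsCap (2 * n) (capM n s g)
  cap1 : 1 ≤ capM n s g 1 1
  capz : ∀ (m : ℕ) (x : ℤ), (m : ℤ) < x → capM n s g m x = 0
  sol : TPK.IsSol G (capM n s g) B
  count : ∑ q ∈ Omm n, Polynomial.C (wm n s g q) * (Polynomial.X : Polynomial ℝ) ^ (am n q) =
    closeP (2 * n) (capM n s g) B n
  mbar : G.mbar = par n s g G.rho 0
  hbar : G.hbar = par n s g G.rho 1
  sig2 : G.sig2 = par n s g G.rho 2

/-- KWM (from K2M, HGM, ARS, HG) : the kernel. PROOF. As `FL.KW` (`Lib_helper89/FL/KW.lean`), with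
`K i y y' = ∑_{p ∈ alT r i y y'} s^(i.1 - i.2) e^(g kap p)`, `T i d = ∑_{p ∈ PcT r i d} ..`, `r = 2n - 1`. Symmetry by
`flip` (old K5: it maps the allowed pieces `y → y'` to the allowed pieces `y' → y`; `kap` is invariant:
HGM). Type `(1, 1)`: the pieces `lc, ld` (jump `0`, weights `e^g`, `e^-g`), `([0],[3])` (jump `1`, `kap = 0`),
`([1],[2])` (jump `-1`, `kap = 0`), allowed at every gap for which both gaps are positive: `K_a`, `K_b`.
`rho`: root of the strictly increasing function `∑ wp s g rho p` (intermediate value theorem). `B`: solution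
of the recursion (strong recursion on `m`); for `m ≤ n` it is `∑_{a ∈ MArch x (2m)} C (s^(m - mlev a) e^(g mlat x a)) *
X^(ArM (2n-1) x a)` by induction with K2M, HGM, ARS. `capM 1 1 ≥ 1`: the word `[1, 2]`, mark `1`, `mlat = 0`. -/
def KWM_Stmt : Prop := ∀ (n : ℕ) (s g : ℝ), 3 ≤ n → 0 < s → s ≤ 1 → Nonempty (KData n s g)

/-- the class bounds of the kernel data with one constant `D` -/
structure KOk (D : ℝ) (n : ℕ) (f g : ℝ) (d : KData n (Real.exp (-f)) g) : Prop where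
  cls : TPK.Cls D (1 - D⁻¹) d.G
  ccap : TPK.ClsCap D (1 - D⁻¹) d.G (2 * n) (capM n (Real.exp (-f)) g)
  csol : ∃ V : ℤ → ℝ, TPK.CritSol D d.G
    (FL.GE.sr d.G.rho (2 * n) (capM n (Real.exp (-f)) g)) V
  tails : TailsM D (1 - D⁻¹) n f g d.G.rho
  rho_le : d.G.rho ≤ 1 / 4

/-- DATB (from TMG, KWM, QGV for `TPK`) : PROOF. `rho` of TMG is that of the kernel data (the sum of CritM
is strictly increasing in `rho`). `C θ^m ≤ D (1 - 1/D)^m` for `D = max C (1/(1-θ)) 2`. `Cls`: `KData.tot`;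
`ClsCap`: `capM` and the second part of TailsM (`capM m x ≤` the full sum for `1 ≤ x`), `one` from `cap1`. QGV
gives `CritSol (exp (D^K))` (the source `GE.sr` satisfies `CritSrc`: as in `EXW.QMOD`, `EXW.DAT2`); enlarge `D`
(`TPK.Base`: `cls_mono`, `clsCap_mono`, `critSol_mono`; `TailsM` is monotone as well). -/
def DATB_Stmt : Prop := ∀ a b : ℝ, 0 < a → a ≤ b → ∃ D : ℝ, 2 ≤ D ∧ ∃ N : ℕ, 3 ≤ N ∧
  ∀ n : ℕ, N ≤ n → ∀ f g : ℝ, Box a b f g → ∃ d : KData n (Real.exp (-f)) g, KOk D n f g d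

/-- distribution function of `dm / E[dm]` under the weights -/
noncomputable def cdfM (n : ℕ) (s g x : ℝ) : ℝ :=
  (∑ q ∈ (Omm n).filter (fun q => (dm q : ℝ) * Zm n s g ≤
    x * ∑ q ∈ Omm n, wm n s g q * dm q), wm n s g q) / Zm n s g

/-- moment of `dm / E[dm]` under the weights -/
noncomputable def momM (n : ℕ) (s g : ℝ) (r : ℕ) : ℝ :=
  ((∑ q ∈ Omm n, wm n s g q * (dm q : ℝ) ^ r) / Zm n s g) /
    ((∑ q ∈ Omm n, wm n s g q * (dm q : ℝ)) / Zm n s g) ^ r

/-- MODM (from DATB, PDIFM, HGM) : sequences of models. PROOF. For the sequence of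
forces take for `n ≥ N` the data of DATB, for `n < N` those of DATB at `N` (force `(a, 0)`), constant `D`
(`EXW.Slow` for a constant is clear). `Omega n` = the subtype of `Omm n` (of `Omm N` if `n < N`), all elements
good, `wt = wm`, `T = |dm|` (`= dm`, HGM), `A = am`, `c = 1`, `C0 = 2n`, `s = t = capM`, `n1 = N`. `near`, NearP: PDIFM
(`κ n = C log n/√n`); `bad = 0`, BadP. `count`: `KData.count`. `mr r (Q.P n) = ∑ wm am^r`: apply the `r`-th moment
functional to `count`. -/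
def MODM_Stmt : Prop := ∀ a b : ℝ, 0 < a → a ≤ b → ∃ D : ℝ, 2 ≤ D ∧ ∃ N : ℕ, 3 ≤ N ∧
  ∀ f g : ℕ → ℝ, (∀ n, Box a b (f n) (g n)) → ∃ Q : TPK.QModel (fun _ => D),
    TPK.NearP Q ∧ TPK.BadP Q ∧ ∀ n : ℕ, N ≤ n →
      (∃ d : KData n (Real.exp (-(f n))) (g n), KOk D n (f n) (g n) d ∧ Q.G n = d.G) ∧
      (∀ x : ℝ, Q.cdf n x = cdfM n (Real.exp (-(f n))) (g n) x) ∧
      (∀ r : ℕ, Q.mom n r = momM n (Real.exp (-(f n))) (g n) r) ∧
      (∀ y : ℝ, (Q.P n).eval y = ∑ q ∈ Omm n, wm n (Real.exp (-(f n))) (g n) q * y ^ (am n q)) ∧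
      ∀ r : ℕ, KCG.mr r (Q.P n) =
        ∑ q ∈ Omm n, wm n (Real.exp (-(f n))) (g n) q * (am n q : ℝ) ^ r

/-- MEANM (from DATB, QRAT for `TPK` and the old LT1, M2, BAL) : the mean of the rescaled area functional.
PROOF. Third part of QRAT with `P = closeP (2n) capM B n` (`P(1) = Zm`, `P'(1) = ∑ wm am`: `KData.count`),
`n0 = ⌊2 sig2 n / mbar⌋₊` (Sc0: `Base.par_bounds`), the constant `D`. Staircase polygons: `P0'(1) ≥ c n0 √n0 P0(1)`
(BAL) and `P0'(1) ≤ C n0 √n0 P0(1)` (Cauchy-Schwarz, M2, BAL). First `lam` small, then `W` large, then `n`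
large: the error is at most `c/2`. `n0/n` and `2 sig2/hbar` are bounded above and below (`par_bounds`). -/
def MEANM_Stmt : Prop := ∀ a b : ℝ, 0 < a → a ≤ b → ∃ C : ℝ, 0 < C ∧ ∃ N : ℕ,
  ∀ n : ℕ, N ≤ n → ∀ f g : ℝ, Box a b f g →
    C⁻¹ * Zm n (Real.exp (-f)) g ≤ ∑ q ∈ Omm n, wm n (Real.exp (-f)) g q * rm n q ∧
    ∑ q ∈ Omm n, wm n (Real.exp (-f)) g q * rm n q ≤ C * Zm n (Real.exp (-f)) g

end Pool.Agent.TPT
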