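import Pool.Agent.TPT.Stmts0

/-!
# Project TPT: statements of the combinatorial modules (parts of ROOT and of PDIFM)
-/

set_option autoImplicit false

namespace Pool.Agent.TPT

open Finset Filter Topology MeasureTheory
open Pool.Agent.Lib27 Pool.Agent.SapR Pool.Agent.AreaLaw Pool.Agent.FL
open Pool.Agent.FS (sc)

/-! ### The canonical polygon words with two marks -/

/-- list form of `NoB` -/
def NoBl (w : Wd) (j : ℕ) : Prop :=
  ∀ h : ℤ, 0 < h → h < lev (ep 0 (w.take j)) → cnt (vs 0 w) h ≠ 2

/-- the polygon word which starts at the mark of the lower cap: the word `w ++ rot2 T` (`w` the upper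
marked arch, `(T, i)` the lower marked cap, rotated) read from the mark of `T` -/
def gl2 (q : QM) : Wd :=
  rot2 (q.2.2.1.1.drop q.2.2.1.2) ++ q.2.2.2.1 ++ rot2 (q.2.2.1.1.take q.2.2.1.2)

/-- number of the upper mark in `gl2 q` -/
def mk2 (q : QM) : ℕ := (q.2.1 - q.2.2.1.2) + q.2.2.2.2

/-- RA : the glued words. PROOF. Let `q = (x, M, (T, i), (w, k))`, so `T` is an arch of gap `x` with `M`
steps, `0 < i < M`, without cut level `1 ≤ h < lev v_i`, `w` an arch of gap `x` with `2n - M` steps, `0 < k < 2n - M`.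
`gl2 q` is the rotation by `|w| + i` of `w ++ rot2 T`, which is in `W n` with `dbl > 0` and
`dbl (w ++ rot2 T) = dbl w + dbl T` (`glue_mem`, `k1pos`, `dbl_glue` in `Lib_helper58/SapR`, used in
`Lib_helper89/FL/K1H.lean`; rotations of polygon words: `W` is closed under them and `dbl` is invariant,
`dbl_rot'`, `perm_rot` there; for `ShortRuns` take `r` large or use the lemmas for `W n` directly). The
initial part of length `mk2 q` of `gl2 q` is `rot2 (T.drop i) ++ w.take k`, its end point is
`-(ep T - ep (T.take i)) + ep (w.take k) = ep (T.take i) + (x, -x) + ep (w.take k)`; `lev` and `lat` of it are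
`mlev + mlev` and `mlat x + mlat x`. Put `h0 = mlev (T, i)` (at least 1: inner vertex of an arch); the
junction vertices (numbers `M - i` and `M - i + |w|`) have level `h0`, the inner vertices of `w` have
levels above `h0`, those of `rot2 T` below `h0`: exactly two vertices on the level `h0`. For `0 < h < h0`: the vertices
of `gl2 q` on the level `h` are the images `v ↦ -v + const` of the vertices of `T` on the level `h0 - h`; if there
were exactly two then `h0 - h` would be a cut of `T` (both neighbour levels are visited, since `T` goes from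
level `0` to level `h0` and all levels `0..h0` are visited), but `(T, i)` is in `MCap`. -/
def RA_Stmt : Prop := ∀ (n : ℕ) (q : QM), q ∈ Omm n →
  gl2 q ∈ W n ∧ mk2 q < 2 * n ∧ dbl 0 (gl2 q) = dm q ∧ 0 < dm q ∧
  lev (ep 0 ((gl2 q).take (mk2 q))) = zl q ∧ lat (ep 0 ((gl2 q).take (mk2 q))) = zt q ∧
  1 ≤ mlev q.2.2.1 ∧ mlev q.2.2.1 < zl q ∧ cnt (vs 0 (gl2 q)) (mlev q.2.2.1) = 2 ∧
  lev (ep 0 ((gl2 q).take (q.2.1 - q.2.2.1.2))) = mlev q.2.2.1 ∧
  lev (ep 0 ((gl2 q).take (q.2.1 - q.2.2.1.2 + q.2.2.2.1.length))) = mlev q.2.2.1 ∧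
  0 < q.2.1 - q.2.2.1.2 ∧ q.2.1 - q.2.2.1.2 + q.2.2.2.1.length < 2 * n ∧
  ∀ h : ℤ, 0 < h → h < mlev q.2.2.1 → cnt (vs 0 (gl2 q)) h ≠ 2

/-- RB : injectivity (from RA). PROOF. Let `s = gl2 q = gl2 q'`, `j = mk2 q = mk2 q'`. By RA the level
`mlev` of the lower cap is the lowest level `0 < h < lev (ep (s.take j))` with exactly two vertices, so it is
the same for `q` and `q'`; its two vertices have the numbers `M - i < M - i + |w|`, the same for both
(`s` is self-avoiding, a level with exactly two vertices has exactly two indices in `0..2n-1`). Hence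
`M - i = M' - i'`, `|w| = |w'|`, and comparing the pieces of `s` (`List.append_inj`): `rot2 (T.drop i)`,
`w`, `rot2 (T.take i)` agree, so `T = T'`, `i = i'`, `M = M'` (`M = |T|`), `w = w'`, `x` is the gap of `w`,
`k = k'` from `mk2`. -/
def RB_Stmt : Prop := ∀ (n : ℕ) (q q' : QM), q ∈ Omm n → q' ∈ Omm n → gl2 q = gl2 q' →
  mk2 q = mk2 q' → q = q'

/-- RC : surjectivity. PROOF. Let `z = lev (ep (w.take j))` and let `h0` be the least `h` with
`0 < h < z` and `cnt (vs 0 w) h = 2` (exists since `NoBl` fails). The part `0 → v_j` of `w` (levels `0` to `z`) visits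
the level `h0`, at a number `0 < i1 < j`; the part `v_j → 0` also, at `j < i2 < 2n`; these are the only two
visits. Put `A = w.take i1`, `w' = (w.drop i1).take (i2 - i1)`, `B = w.drop i2`, `T = rot2 (B ++ A)`, `i = |B|`,
`k = j - i1`, `M = |A| + |B|`. The inner vertices of `w'` never meet the level `h0` and contain `v_j` above it, so
all are above it (`gt_of_ne_levels`, `lt_of_ne_levels` in `Lib_helper24/SapR`); the vertices of
`B ++ A` other than the end points are below it (they contain the origin). So `w'` and `T` are arches of the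
same gap `x ≠ 0`, and `w' ++ rot2 T` is a rotation of `w`. `x ≥ 1` since `0 < dbl 0 w`
(`dbl_glue_sign` in `Lib_helper58/SapR`, used in `Lib_helper89/FL/K1H.lean`); `x ≤ 2n`. `(T, i)` is in `MCap x M`:
a cut `1 ≤ h < lev = h0` of `T` gives a level `h0 - h` of `w` with exactly two vertices (the vertices of `w'` are
at or above `h0`), contradicting the choice of `h0`. -/
def RC_Stmt : Prop := ∀ (n : ℕ) (w : Wd) (j : ℕ), w ∈ W n → j < 2 * n → ¬ NoBl w j →
  0 < dbl 0 w → ∃ q ∈ Omm n, gl2 q = w ∧ mk2 q = j

/-- RD : ROOT from the parts. PROOF. (1) Transfer from `SAP n` to `W n` (`sum_SAP` as in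
`Lib_helper89/FL/TR.lean`; `slev n s j = lev (ep 0 ((List.ofFn s).take j))` for `j < 2n` by `pos_eq`;
`scnt n s h = cnt (vs 0 (List.ofFn s)) h` because `vs` lists the vertices `0..2n-1`). (2) Reversal:
`(w, j) ↦ (rv w, 2n - j)` is an involution of the set of pairs with `¬ NoBl` (`j ≥ 1` there, since the level of the
mark is positive); it keeps the mark `ep (w.take j)` (the word is closed), `cnt` (`vs_rv_perm`) and changes the sign
of `dbl` (`dbl_rv'`). `dbl 0 w ≠ 0` for such words: a level with exactly two vertices between the levels of two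
vertices is a cut, so `w` is in `Fam (2n-1) n` (`TR.short_iff_cut`) and `dbl_ne_zero` applies (see `K1H.lean`).
Hence the sum is twice the sum over the pairs with `0 < dbl 0 w`. (3) `gl2, mk2` is a bijection from
`Omm n` onto these pairs (RA, RB, RC), `sum_bij` or `sum_nbij`. -/
def RD_Stmt : Prop := RA_Stmt → RB_Stmt → RC_Stmt → ROOT_Stmt

/-! ### The error of the area functional -/

/-- PWM : pointwise bound (from K2M, ARS, HGM). PROOF. `dbl` of a marked arch glued from `(p, a)` is
`dbl a + ht p (2x + jump p) + off p` (K4, `Lib_helper66/SapR/K4.lean`), `ArM` grows by `ht p (2x + jump p)` (ARS), so the error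
`dbl 0 w - ArM` of a marked arch of gap `x` with `N` steps is the sum of `off p` over its pieces plus `dbl` of its marked
cap; `|off p| ≤ 4 hl p ^ 2` (`NEAR.off_le`), `|dbl T| ≤ N^2` for a word with `N` steps closed by a diagonal
segment (as `NEAR.cap_le`; `Icl`-type bound `|dbl| ≤ (number of steps)^2`, `k5cap` in `Lib_helper66/SapR`). The half
lengths add up to at most `n`. -/
def PWM_Stmt : Prop := ∀ (n : ℕ) (q : QM), 1 ≤ n → q ∈ Omm n →
  |(dm q : ℝ) - (am n q : ℝ)| ≤ 36 * (n : ℝ) ^ 3

/-- NEARM : tail of the error (from K2M, ARS, HGM). PROOF. Adapt `Lib_helper89/FL/NEAR.lean` (`step`,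
`solve`, `fE_cap`, `fE_step`, `inner`, `caps`) and `EXW/NEARP.lean` (`innerP`, `coreP`): replace `ArchSet r x (2N)` by
`MArch x (2N)`, `CapSet` by `MCap`, K2 by K2M, the heights `hgt` by `mlev`, the weight
`rho^N s^(N - hgt w)` by `rho^N s^(N - mlev a) exp (g * mlat x a)` (multiplicative along a piece by
HGM (1): factor `wp s g rho p`), `M41.Ar` by `ArM` (ARS), the error `|dbl w - Ar w|` by `|dbl a.1 - ArM a|`. Only the
first two parts of `TailsM` are used. For a cap of gap `x > m` there is nothing (`2x ≤ N`). -/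
def NEARM_Stmt : Prop := ∀ J : ℕ, ∃ K : ℕ, ∀ D : ℝ, 2 ≤ D → ∀ (n : ℕ) (f g rho : ℝ), 2 ≤ n →
  0 < f → CritM n (Real.exp (-f)) g rho → TailsM D (1 - D⁻¹) n f g rho →
    ∑ q ∈ Omm n, wm n (Real.exp (-f)) g q *
      max 0 (|(dm q : ℝ) - (am n q : ℝ)| - D ^ K * n * Real.log n) ≤
      D ^ K / ((n : ℝ) ^ J * rho ^ n)

end Pool.Agent.TPT
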